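import Pool.Agent.Lib.MP_dbb03c_co.Full.Data

/-! # Certificate data (generated) -/

namespace Pool.Agent.Lib.MP_dbb03c_co.Full

theorem okDot : chkDots LD LF = true := by decide +kernel

end Pool.Agent.Lib.MP_dbb03c_co.Full
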