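import Pool.Agent.Lib.MP_dbb03c_co.Full.Data

/-! # Certificate data (generated) -/

namespace Pool.Agent.Lib.MP_dbb03c_co.Full

set_option maxRecDepth 100000 in
def cEG : List (List Ct) := [
  [(3, [(36, 148), (37, 85), (46, 416), (57, 356)]), (4, [(17, 9329), (18, 697), (20, 10), (80, 10)]), (3, [(17, 1001)]), (4, [(17, 9681), (18, 355), (20, 3), (80, 5)]), (3, [(17, 952), (18, 50), (80, 1)]), (4, [(17, 9474), (18, 550), (20, 6), (80, 15)]), (4, [(0, 206), (7, 6300), (23, 3609), (63, 9), (81, 7)]), (4, [(0, 99), (7, 2426), (22, 5030), (23, 2535), (63, 6)]), (3, [(0, 15), (7, 497), (22, 228), (23, 271), (63, 1)]), (3, [(0, 17), (7, 704), (22, 58), (23, 232), (63, 2)]), (3, [(0, 18), (7, 838), (22, 7), (23, 136), (63, 3)]), (3, [(17, 933), (18, 70), (20, 1), (80, 1)]), (0, [(13, 1)]), (4, [(17, 9851), (18, 179), (20, 8), (80, 5)]), (3, [(17, 960), (18, 41), (80, 1)]), (4, [(17, 9511), (18, 509), (20, 7), (80,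 15)]), (3, [(17, 952), (18, 52), (80, 2)]), (5, [(1, 4), (17, 95014), (18, 5100), (20, 75), (80, 254)]), (4, [(0, 197), (7, 8847), (15, 1093), (63, 22), (81, 2)]), (4, [(0, 127), (7, 8611), (23, 1370), (63, 11), (81, 2)]), (4, [(0, 177), (7, 2308), (15, 7641), (63, 21), (81, 4)]), (3, [(0, 20), (4, 110), (15, 883), (63, 3)]), (4, [(0, 209), (4, 2364), (15, 7685), (63, 28), (72, 3)]), (4, [(0, 211), (4, 3609), (15, 6310), (63, 29), (72, 4)]), (4, [(30, 10), (47, 6054), (54, 14), (57, 3987), (72, 3)]), (3, [(46, 173), (47, 492), (57, 341)]), (0, [(47, 1)]), (3, [(57, 1001)]), (4, [(30, 10), (47, 3025), (54, 17), (57, 7034), (72, 7)]), (4, [(30, 19), (47, 7123), (54, 60), (57, 2875), (72, 7)]), (4, [(42, 10008)]), (0, [(47, 1)]), (4, [(30, 18), (47, 8596), (54, 30), (57, 1439), (72, 5)]), (3, [(30, 1), (47, 975), (54, 3), (57, 28), (72, 1)]), (0, [(57, 1)]), (3, [(57, 1002)]), (2, [(57, 101)]), (2, [(57, 101)]),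 (4, [(30, 12), (54, 24), (57, 10074), (72, 1), (81, 4)]), (3, [(30, 1), (54, 2), (57, 1006), (81, 1)]), (3, [(30, 1), (54, 2), (57, 1006), (81, 2)]), (3, [(30, 1), (42, 563), (47, 430), (54, 7), (72, 1)]), (0, [(47, 1)]), (4, [(30, 9), (42, 7540), (47, 2498), (54, 65), (72, 3)]), (3, [(30, 1), (42, 1003), (54, 7), (72, 1)]), (4, [(30, 12), (42, 10022), (54, 72), (72, 13)]), (3, [(30, 1), (42, 1002), (54, 7), (72, 2)]), (3, [(63, 18), (64, 974), (81, 17)]), (2, [(67, 98), (72, 1), (80, 1)]), (0, [(0, 1), (63, 1)]), (4, [(3, 2061), (15, 874), (22, 3975), (23, 3101), (63, 1)]), (3, [(13, 1001)]), (5, [(0, 1469), (7, 50472), (20, 36), (23, 48973), (81, 58)]), (4, [(0, 217), (4, 4965), (15, 4960), (63, 28), (72, 5)]), (3, [(17, 1001)]), (4, [(0, 59), (7, 5652), (20, 2), (23, 4350), (81, 2)]), (3, [(0, 43), (7, 409), (20, 2), (23, 567), (81, 1)]), (4, [(16, 957), (17, 1650), (18, 7508), (65, 2)]), (4, [(17, 8971),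 (18, 1061), (20, 7), (80, 5)]), (3, [(17, 847), (18, 155), (20, 1), (80, 1)]), (5, [(1, 1), (17, 79886), (18, 20162), (20, 268), (80, 145)]), (3, [(18, 1011), (20, 1), (21, 2), (80, 1)]), (3, [(17, 736), (18, 262), (20, 4), (80, 2)]), (3, [(13, 580), (17, 393), (20, 51), (72, 1)]), (4, [(0, 221), (7, 4709), (20, 16), (23, 5182), (81, 5)]), (3, [(18, 999), (21, 24), (73, 1)]), (3, [(18, 987), (20, 6), (21, 9), (80, 2)]), (3, [(18, 937), (20, 12), (21, 106), (73, 1), (80, 3)]), (4, [(19, 9757), (21, 322), (74, 21)]), (0, [(20, 5)]), (0, [(21, 4)]), (3, [(0, 46), (7, 262), (23, 715), (81, 1)]), (4, [(0, 335), (23, 9750), (25, 9), (81, 22)]), (3, [(0, 500), (24, 697), (63, 3)]), (1, [(0, 5), (20, 4), (25, 2), (81, 1)]), (1, [(20, 5), (21, 4), (26, 2), (80, 1)]), (3, [(21, 586), (27, 411), (73, 4), (82, 1)]), (0, [(21, 6)]), (3, [(0, 21), (4, 276), (15, 717), (63, 3)]), (0, [(30, 1), (63, 1)]), (4, [(30, 44), (42,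 2765), (47, 7223), (54, 101), (72, 13)]), (4, [(30, 49), (47, 6405), (54, 101), (57, 3542), (72, 12)]), (4, [(30, 46), (47, 7873), (54, 62), (57, 2117), (72, 10)]), (4, [(30, 38), (47, 6747), (54, 206), (57, 3162), (72, 4)]), (4, [(30, 42), (47, 7160), (54, 44), (57, 2839), (72, 4)]), (0, [(47, 1)]), (3, [(47, 1001)]), (3, [(30, 1), (42, 1012), (54, 7), (72, 2)]), (3, [(47, 1001)]), (4, [(47, 4567), (54, 401), (55, 7), (57, 5242), (73, 4)]), (4, [(30, 74), (47, 6184), (54, 36), (57, 3787), (72, 9)]), (4, [(30, 121), (47, 5658), (54, 138), (57, 4206), (72, 22)]), (3, [(53, 1013), (55, 40), (73, 2)]), (3, [(47, 1001)]), (2, [(46, 17), (47, 35), (54, 2), (57, 47)]), (3, [(30, 3), (47, 397), (54, 23), (57, 578), (72, 1)]), (3, [(30, 9), (47, 324), (54, 30), (57, 638), (72, 2)]), (3, [(53, 1012), (73, 1)]), (3, [(57, 1001)]), (4, [(30, 15), (47, 190), (54, 20), (57, 9896), (72, 16)]), (3, [(30, 1), (54, 2), (57,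 1003), (81, 2)]), (4, [(30, 535), (52, 9658), (63, 20), (81, 1)]), (4, [(53, 9493), (55, 888), (73, 23)]), (0, [(54, 5)]), (0, [(55, 4)]), (2, [(57, 101)]), (4, [(30, 21), (54, 192), (57, 9851), (61, 2), (81, 21)]), (2, [(55, 19), (58, 84), (73, 1), (82, 1)]), (1, [(54, 5), (55, 4), (59, 2), (80, 1)]), (3, [(55, 363), (58, 854), (82, 2)]), (1, [(30, 5), (54, 4), (61, 2), (81, 1)]), (4, [(30, 15), (54, 25), (57, 10043), (81, 5)]), (0, [(63, 2)]), (3, [(63, 18), (64, 974), (81, 17)]), (2, [(67, 98), (72, 1), (80, 1)]), (2, [(67, 96), (72, 3), (80, 1)]), (2, [(67, 96), (72, 5), (80, 2)]), (1, [(63, 3), (68, 9)]), (0, [(71, 1)]), (2, [(67, 95), (72, 9)]), (1, [(71, 8), (73, 4)]), (0, [(72, 2)]), (0, [(73, 2)]), (1, [(73, 5), (74, 7)]), (0, [(63, 2)]), (1, [(69, 5), (72, 6)]), (0, [(74, 1)]), (1, [(73, 5), (74, 5)]), (0, [(73, 2)]), (0, [(72, 2)]), (0, [(63, 2)]), (1, [(73, 11)])],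
  [(3, [(49, 1001)]), (3, [(13, 1001)]), (3, [(13, 1002)]), (3, [(13, 1001)]), (3, [(13, 1001)]), (4, [(13, 1993), (17, 8043), (20, 7), (72, 5)]), (3, [(0, 18), (7, 625), (22, 320), (23, 37), (63, 2)]), (3, [(22, 1001)]), (3, [(0, 15), (3, 183), (15, 392), (22, 418), (63, 1)]), (4, [(0, 179), (3, 2370), (15, 6321), (22, 1224), (63, 15)]), (3, [(0, 19), (6, 85), (15, 825), (29, 80), (63, 2)]), (4, [(13, 10001)]), (3, [(13, 1002)]), (3, [(13, 1001)]), (3, [(13, 1001)]), (4, [(13, 2128), (17, 7904), (20, 8), (72, 5)]), (4, [(13, 1908), (17, 8158), (20, 6), (72, 10)]), (3, [(13, 179), (17, 824), (72, 2)]), (4, [(0, 206), (4, 1861), (15, 8037), (63, 13), (72, 1)]), (3, [(0, 14), (4, 69), (15, 926), (63, 1)]), (5, [(0, 1737), (4, 21830), (15, 77390), (63, 101), (72, 6)]), (4, [(0, 190), (4, 3435), (15, 6474), (63, 12), (72, 1)]), (4, [(0, 198), (4, 4675), (15, 5227), (63, 13), (72, 2)]), (4, [(0, 202), (4, 5961),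 (15, 3938), (63, 15), (72, 3)]), (3, [(42, 1001)]), (3, [(41, 398), (46, 144), (47, 332), (57, 131)]), (2, [(42, 48), (47, 31), (57, 22)]), (3, [(42, 1001)]), (3, [(42, 1001)]), (3, [(47, 1001)]), (3, [(42, 1002)]), (3, [(46, 1001)]), (3, [(47, 1001)]), (3, [(47, 1001)]), (3, [(57, 1002)]), (3, [(42, 1002)]), (3, [(57, 1002)]), (2, [(57, 101)]), (2, [(57, 101)]), (2, [(57, 101)]), (4, [(30, 15), (54, 7), (57, 10102), (81, 5)]), (3, [(47, 1001)]), (3, [(47, 1002)]), (3, [(47, 1001)]), (3, [(47, 1001)]), (4, [(30, 14), (42, 10004), (54, 46), (72, 3)]), (3, [(30, 1), (42, 1000), (54, 4), (72, 1)]), (3, [(63, 19), (64, 980), (81, 11)]), (2, [(67, 99), (72, 1)]), (0, [(0, 1), (63, 1)]), (3, [(0, 1), (6, 614), (22, 274), (23, 114)]), (3, [(11, 1002)]), (4, [(0, 130), (7, 7841), (20, 1), (23, 2107), (81, 1)]), (4, [(0, 207), (4, 7330), (15, 2574), (63, 13), (72, 4)]), (2, [(17, 101)]), (3, [(22, 1001)]), (3, [(0,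 40), (7, 684), (20, 1), (23, 294), (81, 1)]), (3, [(17, 1001)]), (3, [(13, 64), (17, 939)]), (3, [(17, 1001)]), (4, [(17, 9421), (18, 554), (20, 29), (80, 5)]), (4, [(17, 10001)]), (3, [(17, 902), (18, 97), (20, 4), (80, 1)]), (2, [(13, 95), (17, 2), (20, 4)]), (4, [(0, 200), (7, 7490), (20, 10), (23, 2409), (81, 1)]), (2, [(18, 101)]), (4, [(17, 247), (18, 9820), (20, 68), (80, 6)]), (3, [(18, 954), (20, 16), (21, 70), (73, 1), (80, 2)]), (4, [(19, 9801), (21, 296), (74, 11)]), (0, [(20, 3)]), (0, [(21, 3)]), (4, [(0, 418), (7, 5362), (20, 2), (23, 4421), (81, 2)]), (4, [(0, 306), (23, 9699), (25, 7), (81, 12)]), (3, [(0, 474), (24, 724), (63, 2)]), (1, [(0, 6), (20, 3), (25, 2), (81, 1)]), (1, [(20, 6), (21, 3), (26, 3), (80, 1)]), (3, [(21, 565), (27, 434), (73, 3), (82, 1)]), (0, [(21, 4)]), (4, [(0, 201), (4, 5109), (15, 4802), (63, 11), (72, 3)]), (0, [(30, 1), (63, 1)]), (3, [(42, 1001)]), (4, [(30,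 49), (47, 9616), (54, 53), (57, 362), (72, 3)]), (3, [(47, 1001)]), (3, [(47, 1001)]), (3, [(47, 1001)]), (3, [(47, 1002)]), (0, [(46, 1)]), (3, [(30, 1), (42, 1006), (54, 4), (72, 1)]), (3, [(46, 1001)]), (2, [(46, 51), (47, 22), (54, 3), (57, 25)]), (3, [(47, 1001)]), (4, [(30, 118), (47, 8848), (54, 78), (57, 1053), (72, 13)]), (3, [(43, 359), (53, 648), (55, 39), (73, 1)]), (3, [(30, 6), (42, 324), (47, 439), (57, 237)]), (3, [(47, 1002)]), (3, [(30, 3), (47, 722), (54, 15), (57, 270)]), (3, [(30, 10), (47, 646), (54, 20), (57, 337), (72, 1)]), (2, [(48, 4), (53, 98)]), (3, [(30, 1), (42, 395), (47, 234), (57, 373)]), (4, [(30, 11), (47, 3438), (57, 6665), (63, 5), (72, 2)]), (4, [(30, 15), (54, 7), (57, 10071), (61, 2), (81, 5)]), (5, [(30, 4958), (52, 97065), (63, 101), (81, 7)]), (3, [(53, 984), (55, 84), (73, 1)]), (0, [(54, 3)]), (0, [(55, 3)]), (3, [(57, 1002)]), (4, [(30, 30), (54, 126), (57, 9870),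 (61, 1), (81, 11)]), (2, [(55, 17), (58, 85), (73, 1), (82, 1)]), (1, [(54, 6), (55, 3), (59, 3), (80, 1)]), (3, [(55, 338), (58, 866), (82, 1)]), (1, [(30, 6), (54, 3), (61, 2), (81, 1)]), (2, [(57, 101)]), (0, [(63, 2)]), (3, [(63, 19), (64, 980), (81, 11)]), (2, [(67, 99), (72, 1)]), (2, [(67, 98), (72, 3), (80, 1)]), (2, [(67, 97), (72, 5), (80, 1)]), (1, [(63, 2), (68, 9)]), (2, [(69, 92), (71, 3), (73, 9)]), (2, [(67, 7), (70, 89), (72, 8)]), (1, [(71, 9), (73, 3)]), (0, [(72, 2)]), (0, [(73, 2)]), (1, [(73, 5), (74, 7)]), (0, [(63, 2)]), (1, [(69, 6), (72, 6)]), (1, [(74, 11)]), (3, [(74, 1001)]), (0, [(73, 2)]), (0, [(72, 2)]), (0, [(63, 2)]), (1, [(73, 11)])],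
  [(3, [(36, 256), (37, 200), (46, 226), (57, 323)]), (4, [(17, 9854), (18, 180), (20, 8), (80, 5)]), (3, [(13, 1001)]), (4, [(13, 10001)]), (4, [(17, 10024), (18, 13), (20, 4), (80, 5)]), (3, [(17, 1002), (18, 4), (80, 1)]), (4, [(0, 173), (7, 7083), (23, 2939), (63, 10), (81, 2)]), (4, [(0, 78), (7, 1475), (22, 7040), (23, 1491), (63, 3)]), (3, [(0, 12), (7, 366), (22, 470), (23, 160), (63, 1)]), (4, [(0, 144), (7, 5455), (22, 3341), (23, 1166), (63, 14)]), (3, [(0, 15), (7, 679), (22, 309), (23, 19), (63, 2)]), (4, [(17, 9851), (18, 179), (20, 8), (80, 5)]), (3, [(13, 1001)]), (4, [(13, 10001)]), (3, [(13, 4), (17, 1000), (72, 1)]), (3, [(17, 1005), (18, 1), (80, 1)]), (5, [(1, 4), (17, 100037), (18, 199), (20, 64), (80, 154)]), (5, [(1, 4), (17, 100190), (20, 61), (72, 2), (80, 204)]), (5, [(0, 1856), (4, 1552), (15, 97787), (63, 217), (72, 16)]), (3, [(0, 10), (7, 787), (22, 175), (23, 38), (63, 1)]),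 (3, [(0, 15), (4, 47), (15, 949), (63, 2)]), (5, [(0, 1704), (4, 17203), (15, 82245), (63, 205), (72, 17)]), (4, [(0, 179), (4, 2988), (15, 7059), (63, 22), (72, 2)]), (4, [(0, 183), (4, 4283), (15, 5762), (63, 24), (72, 3)]), (2, [(47, 69), (57, 32)]), (2, [(41, 11), (46, 29), (47, 31), (57, 30)]), (2, [(42, 5), (47, 61), (57, 35)]), (3, [(57, 1001)]), (3, [(57, 1001)]), (4, [(30, 15), (47, 7932), (54, 44), (57, 2023), (72, 2)]), (3, [(42, 1002)]), (2, [(47, 101)]), (2, [(47, 101)]), (4, [(30, 13), (42, 2384), (47, 7664), (54, 30), (72, 5)]), (2, [(57, 101)]), (3, [(57, 1002)]), (2, [(57, 101)]), (2, [(57, 101)]), (2, [(57, 101)]), (4, [(30, 11), (54, 16), (57, 10088), (61, 1), (81, 5)]), (3, [(30, 1), (54, 1), (57, 1008), (81, 1)]), (2, [(42, 101)]), (2, [(47, 101)]), (2, [(47, 101)]), (4, [(30, 8), (42, 10035), (54, 59), (72, 3)]), (4, [(30, 9), (42, 10029), (54, 59), (72, 8)]), (4, [(30, 9), (42, 10024),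 (54, 59), (72, 13)]), (3, [(63, 16), (64, 978), (81, 14)]), (2, [(67, 99), (72, 1), (80, 1)]), (0, [(0, 1), (63, 1)]), (3, [(3, 349), (6, 78), (22, 309), (23, 269)]), (3, [(11, 1001)]), (4, [(0, 121), (7, 5773), (20, 3), (23, 4190), (81, 2)]), (4, [(0, 186), (4, 5598), (15, 4342), (63, 22), (72, 4)]), (3, [(17, 1001)]), (3, [(0, 4), (7, 640), (23, 362)]), (4, [(0, 371), (7, 4812), (20, 19), (23, 4993), (81, 6)]), (3, [(17, 1001)]), (3, [(17, 1001)]), (4, [(17, 9108), (18, 914), (20, 12), (80, 5)]), (3, [(17, 870), (18, 131), (20, 2), (80, 1)]), (2, [(17, 6), (18, 95)]), (4, [(17, 8166), (18, 1823), (20, 36), (80, 15)]), (4, [(1, 1), (13, 7112), (17, 2657), (20, 445), (72, 1)]), (4, [(0, 187), (7, 5483), (20, 13), (23, 4523), (81, 1)]), (2, [(18, 101)]), (3, [(18, 1004), (20, 5), (21, 4), (80, 1)]), (3, [(18, 946), (20, 10), (21, 88), (80, 2)]), (3, [(19, 973), (21, 27), (74, 2)]), (0, [(20, 4)]), (0, [(21,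 3)]), (4, [(0, 391), (7, 3330), (20, 4), (23, 6476), (81, 3)]), (4, [(0, 286), (23, 9788), (25, 8), (81, 17)]), (3, [(0, 454), (24, 744), (63, 2)]), (1, [(0, 5), (20, 4), (25, 2), (81, 1)]), (1, [(20, 5), (21, 4), (26, 2), (80, 1)]), (3, [(21, 547), (27, 451), (73, 3)]), (0, [(21, 5)]), (4, [(0, 180), (4, 3386), (15, 6561), (63, 20), (72, 3)]), (0, [(30, 1), (63, 1)]), (4, [(30, 36), (42, 6332), (47, 3664), (54, 91), (72, 7)]), (4, [(30, 41), (47, 7261), (54, 79), (57, 2710), (72, 7)]), (4, [(30, 39), (47, 8733), (54, 45), (57, 1278), (72, 5)]), (3, [(47, 1001)]), (3, [(47, 1001)]), (3, [(47, 1001)]), (3, [(47, 1001)]), (4, [(30, 9), (42, 10030), (54, 62), (72, 16)]), (4, [(46, 10001)]), (2, [(46, 11), (47, 42), (54, 3), (57, 45)]), (4, [(30, 63), (47, 7039), (54, 24), (57, 2952), (72, 4)]), (3, [(30, 10), (47, 651), (54, 11), (57, 338), (72, 2)]), (3, [(53, 994), (55, 33), (73, 2)]), (3, [(30, 6), (47, 605),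 (57, 397)]), (3, [(47, 1001)]), (4, [(30, 24), (47, 4869), (54, 198), (57, 5033), (72, 3)]), (4, [(30, 83), (47, 4132), (54, 256), (57, 5676), (72, 14)]), (3, [(48, 103), (53, 908), (69, 1)]), (2, [(47, 49), (57, 52)]), (3, [(30, 1), (47, 106), (54, 1), (57, 915), (72, 1)]), (3, [(30, 1), (54, 1), (57, 1005), (81, 1)]), (3, [(30, 46), (52, 971), (63, 2)]), (3, [(53, 957), (55, 76), (73, 2)]), (0, [(54, 4)]), (0, [(55, 3)]), (2, [(57, 101)]), (4, [(30, 19), (54, 159), (57, 9844), (61, 3), (81, 16)]), (2, [(55, 16), (58, 86), (73, 1), (82, 1)]), (1, [(54, 5), (55, 4), (59, 2), (80, 1)]), (3, [(55, 318), (58, 871), (82, 2)]), (1, [(30, 5), (54, 4), (61, 2), (81, 1)]), (2, [(57, 101)]), (0, [(63, 2)]), (3, [(63, 16), (64, 979), (81, 14)]), (2, [(67, 99), (72, 1), (80, 1)]), (2, [(67, 97), (72, 3), (80, 1)]), (2, [(67, 96), (72, 4), (80, 1)]), (1, [(63, 2), (68, 9)]), (2, [(71, 101)]), (2, [(67, 95), (72, 7)]),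 (1, [(71, 9), (73, 3)]), (0, [(72, 2)]), (0, [(73, 2)]), (1, [(73, 5), (74, 7)]), (0, [(63, 2)]), (1, [(69, 6), (72, 6)]), (1, [(74, 11)]), (4, [(74, 10001)]), (0, [(73, 2)]), (0, [(72, 2)]), (0, [(63, 2)]), (1, [(73, 11)])],
  [(2, [(36, 27), (37, 8), (46, 19), (57, 47)]), (3, [(17, 960), (18, 41), (80, 1)]), (4, [(13, 10001)]), (4, [(17, 9935), (18, 103), (20, 1), (80, 5)]), (3, [(17, 979), (18, 24), (80, 1)]), (4, [(17, 9784), (18, 279), (20, 4), (80, 15)]), (4, [(0, 179), (7, 5412), (23, 4526), (63, 7), (81, 7)]), (4, [(0, 84), (7, 1858), (22, 4647), (23, 3510), (63, 4)]), (3, [(0, 13), (7, 422), (22, 211), (23, 365), (63, 1)]), (3, [(0, 15), (7, 610), (22, 58), (23, 320), (63, 2)]), (4, [(0, 157), (7, 7521), (22, 182), (23, 2267), (63, 22)]), (3, [(17, 960), (18, 41), (80, 1)]), (3, [(13, 1001)]), (3, [(13, 4), (17, 1000), (72, 1)]), (3, [(17, 990), (18, 16), (80, 1)]), (4, [(17, 9817), (18, 241), (20,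 5), (80, 15)]), (5, [(1, 4), (17, 97643), (18, 2542), (20, 55), (80, 204)]), (4, [(17, 9779), (18, 235), (20, 5), (80, 26)]), (4, [(0, 167), (7, 9123), (23, 850), (63, 21), (81, 1)]), (4, [(0, 108), (7, 7721), (23, 2286), (63, 9), (81, 2)]), (3, [(0, 13), (7, 826), (22, 149), (23, 25), (63, 2)]), (3, [(0, 17), (4, 36), (15, 960), (63, 3)]), (4, [(0, 179), (4, 1616), (15, 8479), (63, 30), (72, 2)]), (4, [(0, 181), (4, 2870), (15, 7087), (63, 32), (72, 3)]), (3, [(57, 1001)]), (3, [(57, 1002)]), (3, [(57, 1001)]), (3, [(57, 1001)]), (4, [(30, 8), (47, 1995), (54, 14), (57, 8079), (72, 6)]), (4, [(30, 16), (47, 6111), (54, 54), (57, 3905), (72, 6)]), (3, [(42, 1001)]), (3, [(47, 1001)]), (4, [(30, 16), (47, 7583), (54, 26), (57, 2469), (72, 4)]), (3, [(30, 1), (47, 875), (54, 3), (57, 131), (72, 1)]), (2, [(57, 101)]), (2, [(57, 101)]), (2, [(57, 101)]), (2, [(57, 101)]), (3, [(30, 1), (54, 2), (57, 1008), (81,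 1)]), (3, [(30, 1), (54, 2), (57, 1008), (81, 1)]), (4, [(30, 9), (54, 19), (57, 10073), (61, 3), (81, 16)]), (4, [(30, 12), (42, 1338), (47, 8620), (54, 48), (72, 8)]), (2, [(47, 101)]), (4, [(30, 8), (42, 3204), (47, 6868), (54, 45), (72, 5)]), (4, [(30, 7), (42, 10058), (54, 64), (72, 8)]), (4, [(30, 8), (42, 10052), (54, 64), (72, 13)]), (4, [(30, 8), (42, 10047), (54, 64), (72, 18)]), (3, [(63, 16), (64, 977), (68, 1), (81, 16)]), (2, [(67, 99), (72, 1), (80, 1)]), (0, [(0, 1), (63, 1)]), (3, [(3, 340), (15, 24), (22, 201), (23, 441)]), (4, [(11, 10001)]), (5, [(0, 1262), (7, 41405), (20, 37), (23, 58311), (81, 38)]), (4, [(0, 186), (4, 4226), (15, 5737), (63, 30), (72, 4)]), (3, [(17, 1001)]), (4, [(23, 10011)]), (3, [(0, 38), (7, 320), (20, 2), (23, 661), (81, 1)]), (4, [(16, 2176), (17, 1579), (18, 6344), (65, 4)]), (4, [(17, 9272), (18, 761), (20, 5), (80, 5)]), (3, [(17, 880), (18, 121), (20, 1),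 (80, 1)]), (4, [(17, 8331), (18, 1641), (20, 22), (80, 15)]), (4, [(18, 10126), (20, 8), (21, 4), (26, 6), (80, 5)]), (4, [(17, 7777), (18, 2209), (20, 35), (80, 20)]), (3, [(13, 620), (17, 356), (20, 45), (72, 1)]), (4, [(0, 193), (7, 3808), (20, 15), (23, 6115), (81, 3)]), (3, [(18, 1002), (21, 18), (73, 1)]), (3, [(18, 1002), (20, 5), (21, 6), (80, 2)]), (3, [(18, 942), (20, 9), (21, 97), (80, 3)]), (4, [(19, 9782), (21, 282), (74, 21)]), (0, [(20, 5)]), (0, [(21, 4)]), (3, [(0, 40), (7, 172), (23, 809), (81, 1)]), (4, [(0, 291), (23, 9699), (25, 7), (81, 22)]), (3, [(0, 461), (24, 736), (63, 3)]), (1, [(0, 5), (20, 4), (25, 2), (81, 1)]), (1, [(20, 5), (21, 4), (26, 2), (80, 1)]), (3, [(21, 554), (27, 444), (73, 4), (82, 1)]), (1, [(21, 54)]), (4, [(0, 180), (4, 2022), (15, 7947), (63, 29), (72, 3)]), (0, [(30, 1), (63, 1)]), (4, [(30, 39), (47, 9653), (54, 82), (57, 367), (72, 13)]), (4, [(30, 42), (47,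 5398), (54, 92), (57, 4570), (72, 11)]), (4, [(30, 40), (47, 6864), (54, 55), (57, 3145), (72, 9)]), (4, [(30, 32), (47, 5746), (54, 190), (57, 4187), (72, 4)]), (4, [(30, 37), (47, 6148), (54, 40), (57, 3870), (72, 4)]), (3, [(47, 1001)]), (3, [(47, 1001)]), (3, [(42, 1017), (54, 6), (72, 2)]), (4, [(57, 10011)]), (4, [(47, 3573), (54, 355), (55, 7), (57, 6270), (73, 3)]), (3, [(30, 6), (47, 513), (54, 3), (57, 478), (72, 1)]), (4, [(30, 107), (47, 4660), (54, 126), (57, 5230), (72, 21)]), (3, [(53, 1015), (55, 34), (73, 2)]), (3, [(47, 1001)]), (4, [(47, 10001)]), (3, [(30, 2), (47, 301), (54, 22), (57, 688), (72, 1)]), (3, [(30, 8), (47, 229), (54, 28), (57, 751), (72, 2)]), (4, [(48, 778), (53, 9327), (69, 11)]), (3, [(57, 1001)]), (4, [(30, 12), (54, 17), (57, 10095), (72, 12), (81, 3)]), (3, [(30, 1), (54, 2), (57, 1004), (81, 2)]), (4, [(30, 462), (52, 9554), (63, 20), (81, 1)]), (4, [(53, 9548), (55,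 781), (73, 22)]), (0, [(54, 5)]), (0, [(55, 4)]), (2, [(57, 101)]), (4, [(30, 16), (54, 175), (57, 9864), (61, 4), (81, 21)]), (3, [(55, 185), (58, 971), (82, 3)]), (1, [(54, 5), (55, 4), (59, 2), (80, 1)]), (3, [(55, 325), (58, 868), (82, 2)]), (1, [(30, 5), (54, 4), (61, 2), (81, 1)]), (3, [(30, 1), (54, 2), (57, 1005), (81, 1)]), (0, [(63, 2)]), (3, [(63, 16), (64, 977), (68, 1), (81, 16)]), (2, [(67, 99), (72, 1), (80, 1)]), (2, [(67, 97), (72, 3), (80, 1)]), (2, [(67, 96), (72, 4), (80, 1)]), (1, [(63, 2), (68, 9)]), (2, [(71, 101)]), (2, [(67, 95), (72, 8)]), (1, [(71, 9), (73, 3)]), (0, [(72, 2)]), (0, [(73, 2)]), (1, [(73, 5), (74, 7)]), (0, [(63, 2)]), (1, [(69, 6), (72, 6)]), (1, [(74, 11)]), (1, [(73, 5), (74, 7)]), (0, [(73, 2)]), (0, [(72, 2)]), (0, [(63, 2)]), (1, [(73, 11)])],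
  [(2, [(36, 21), (37, 3), (46, 15), (57, 62)]), (4, [(17, 9514), (18, 509), (20, 7), (80, 15)]), (3, [(13, 124), (16, 47), (17, 832), (65, 1)]), (3, [(17, 985), (18, 18), (80, 1)]), (4, [(17, 9741), (18, 323), (20, 3), (80, 15)]), (3, [(17, 969), (18, 37), (80, 2)]), (3, [(0, 19), (7, 389), (23, 606), (63, 1), (81, 1)]), (3, [(23, 1001)]), (3, [(23, 1001)]), (4, [(0, 160), (7, 5112), (23, 4866), (63, 14), (81, 2)]), (4, [(0, 167), (7, 6142), (23, 3836), (63, 21), (81, 3)]), (4, [(17, 9511), (18, 509), (20, 7), (80, 15)]), (4, [(13, 2128), (17, 7904), (20, 8), (72, 5)]), (3, [(17, 1005), (18, 1), (80, 1)]), (4, [(17, 9817), (18, 241), (20, 5), (80, 15)]), (5, [(1, 4), (17, 96918), (18, 3265), (20, 55), (80, 204)]), (4, [(17, 9671), (18, 342), (20, 5), (80, 26)]), (4, [(17, 9685), (18, 324), (20, 5), (80, 31)]), (4, [(0, 178), (7, 7592), (23, 2389), (63, 20), (81, 4)]), (3, [(23, 1001)]), (4, [(0, 143), (7,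 7976), (23, 2033), (63, 21), (81, 1)]), (3, [(0, 15), (7, 893), (22, 67), (23, 41), (63, 3)]), (3, [(0, 18), (4, 32), (15, 983), (63, 4)]), (4, [(0, 184), (4, 1582), (15, 8398), (63, 41), (72, 3)]), (5, [(30, 106), (47, 32551), (54, 157), (57, 68038), (72, 69)]), (3, [(57, 1001)]), (2, [(57, 101)]), (4, [(30, 7), (47, 1749), (54, 15), (57, 8326), (72, 6)]), (3, [(30, 1), (47, 21), (54, 1), (57, 996), (72, 1)]), (3, [(30, 1), (47, 434), (54, 6), (57, 567), (72, 1)]), (3, [(57, 1001)]), (3, [(57, 1001)]), (4, [(30, 18), (47, 5810), (54, 31), (57, 4244), (72, 8)]), (4, [(30, 17), (47, 6977), (54, 36), (57, 3083), (72, 14)]), (4, [(30, 12), (54, 24), (57, 10074), (72, 1), (81, 4)]), (2, [(57, 101)]), (2, [(57, 101)]), (3, [(30, 1), (54, 2), (57, 1008), (81, 1)]), (3, [(30, 1), (54, 2), (57, 1008), (81, 1)]), (3, [(30, 1), (54, 2), (57, 1007), (81, 2)]), (3, [(30, 1), (54, 2), (57, 1016), (81, 2)]), (4, [(30, 15),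 (47, 8616), (54, 50), (57, 1453), (72, 12)]), (3, [(57, 1001)]), (3, [(30, 1), (47, 907), (54, 4), (57, 102), (72, 1)]), (3, [(30, 1), (42, 301), (47, 708), (54, 4), (72, 2)]), (3, [(30, 1), (42, 994), (54, 6), (72, 2)]), (4, [(30, 9), (42, 10072), (54, 65), (72, 24)]), (3, [(63, 17), (64, 975), (81, 16)]), (2, [(67, 99), (72, 1), (80, 1)]), (0, [(0, 1), (63, 1)]), (2, [(3, 23), (15, 3), (22, 15), (23, 60)]), (4, [(10, 2402), (13, 5250), (16, 2359), (65, 5)]), (3, [(23, 1001)]), (4, [(0, 189), (4, 2932), (15, 7054), (63, 39), (72, 4)]), (4, [(16, 6846), (17, 758), (18, 2438), (65, 11)]), (3, [(23, 1001)]), (3, [(0, 40), (7, 169), (20, 2), (23, 813), (81, 1)]), (3, [(16, 208), (17, 125), (18, 676), (65, 1)]), (4, [(17, 9166), (18, 863), (20, 5), (80, 10)]), (4, [(17, 8679), (18, 1334), (20, 11), (80, 15)]), (3, [(17, 822), (18, 178), (20, 2), (80, 2)]), (3, [(18, 1011), (21, 1), (80, 1)]), (4, [(17, 7613),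 (18, 2369), (20, 36), (80, 25)]), (4, [(1, 1), (13, 5886), (17, 3862), (20, 468), (72, 12)]), (3, [(23, 1001)]), (3, [(18, 1017), (21, 20), (73, 1)]), (3, [(18, 1014), (20, 5), (21, 7), (80, 2)]), (3, [(18, 939), (20, 9), (21, 101), (80, 3)]), (3, [(19, 977), (21, 29), (74, 3)]), (0, [(0, 1), (20, 1), (72, 1)]), (0, [(21, 5)]), (4, [(0, 420), (7, 207), (20, 5), (23, 9609), (81, 7)]), (4, [(0, 307), (23, 9764), (25, 6), (81, 27)]), (3, [(0, 474), (24, 723), (63, 4)]), (1, [(0, 5), (20, 4), (25, 2), (81, 1)]), (1, [(20, 5), (21, 4), (26, 2), (80, 1)]), (3, [(21, 564), (27, 433), (73, 4), (82, 1)]), (3, [(21, 828), (27, 169), (28, 1), (73, 4), (82, 1)]), (3, [(0, 18), (4, 74), (15, 926), (63, 4)]), (0, [(30, 1), (63, 1)]), (3, [(30, 4), (47, 789), (54, 9), (57, 213), (72, 2)]), (4, [(30, 45), (47, 3636), (54, 99), (57, 6334), (72, 15)]), (4, [(30, 43), (47, 5098), (54, 61), (57, 4913), (72, 13)]), (3, [(30, 3),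 (47, 399), (54, 20), (57, 594), (72, 1)]), (3, [(30, 4), (47, 438), (54, 4), (57, 564), (72, 1)]), (3, [(57, 1001)]), (3, [(57, 1001)]), (4, [(30, 9), (42, 10078), (54, 69), (72, 26)]), (3, [(57, 1001)]), (3, [(47, 180), (54, 37), (57, 786), (73, 1)]), (4, [(30, 69), (47, 3406), (54, 37), (57, 6586), (72, 13)]), (3, [(30, 11), (47, 291), (54, 13), (57, 698), (72, 3)]), (3, [(53, 991), (55, 35), (73, 3)]), (3, [(57, 1001)]), (3, [(57, 1001)]), (4, [(30, 26), (47, 1261), (54, 231), (57, 8635), (72, 12)]), (4, [(30, 88), (47, 556), (54, 296), (57, 9241), (72, 23)]), (3, [(48, 37), (53, 974), (69, 2)]), (2, [(57, 101)]), (3, [(30, 1), (54, 2), (57, 1009), (72, 1), (81, 1)]), (3, [(54, 2), (57, 1010), (81, 2)]), (3, [(30, 49), (52, 968), (63, 3)]), (3, [(53, 953), (55, 81), (73, 3)]), (0, [(30, 1), (54, 1), (72, 1)]), (0, [(55, 5)]), (4, [(30, 15), (54, 20), (57, 10050), (61, 1), (81, 5)]), (4, [(30, 16), (54,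 182), (57, 9855), (61, 5), (81, 27)]), (3, [(55, 181), (58, 908), (82, 3)]), (1, [(54, 5), (55, 4), (59, 2), (80, 1)]), (3, [(55, 338), (58, 863), (82, 3)]), (1, [(30, 5), (54, 4), (61, 2), (81, 1)]), (3, [(30, 1), (54, 2), (57, 1012), (81, 1)]), (0, [(63, 2)]), (3, [(63, 17), (64, 976), (81, 16)]), (2, [(67, 99), (72, 1), (80, 1)]), (2, [(67, 97), (72, 3), (80, 1)]), (2, [(67, 96), (72, 4), (80, 1)]), (1, [(63, 2), (68, 9)]), (2, [(71, 101)]), (2, [(67, 95), (72, 8)]), (1, [(71, 9), (73, 3)]), (0, [(72, 2)]), (0, [(73, 2)]), (1, [(73, 5), (74, 7)]), (0, [(63, 2)]), (1, [(69, 6), (72, 6)]), (1, [(74, 11)]), (1, [(73, 5), (74, 7)]), (0, [(73, 2)]), (0, [(72, 2)]), (0, [(63, 2)]), (1, [(73, 11)])],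
  [(2, [(32, 1), (36, 15), (46, 8), (57, 77)]), (3, [(17, 952), (18, 52), (80, 2)]), (4, [(13, 698), (16, 290), (17, 9044), (65, 11)]), (4, [(17, 9872), (18, 193), (20, 1), (80, 15)]), (3, [(17, 972), (18, 34), (80, 2)]), (5, [(1, 3), (17, 96345), (18, 3824), (20, 44), (80, 255)]), (3, [(0, 20), (7, 234), (23, 761), (63, 1), (81, 1)]), (2, [(23, 101)]), (4, [(0, 146), (7, 2910), (23, 7092), (63, 9), (81, 3)]), (4, [(0, 169), (7, 3563), (23, 6425), (63, 13), (81, 5)]), (4, [(0, 176), (7, 4593), (23, 5394), (63, 20), (81, 6)]), (3, [(17, 952), (18, 52), (80, 2)]), (4, [(13, 1908), (17, 8158), (20, 6), (72, 10)]), (5, [(1, 4), (17, 100037), (18, 199), (20, 64), (80, 154)]), (5, [(1, 4), (17, 97643), (18, 2542), (20, 55), (80, 204)]), (4, [(17, 9671), (18, 342), (20, 5), (80, 26)]), (4, [(17, 9649), (18, 359), (20, 5), (80, 31)]), (5, [(1, 5), (17, 96626), (18, 3413), (20, 52), (80, 358)]), (4, [(0, 187), (7,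 6044), (23, 3947), (63, 19), (81, 7)]), (4, [(0, 124), (7, 4630), (23, 5396), (63, 7), (81, 8)]), (4, [(0, 151), (7, 6423), (23, 3596), (63, 20), (81, 4)]), (4, [(0, 161), (7, 7937), (23, 2084), (63, 31), (81, 2)]), (3, [(0, 16), (7, 944), (23, 59), (63, 4)]), (4, [(0, 186), (4, 285), (15, 9719), (63, 49), (72, 2)]), (4, [(30, 12), (47, 1459), (54, 18), (57, 8605), (72, 11)]), (2, [(57, 101)]), (4, [(30, 5), (47, 1237), (54, 15), (57, 8932), (72, 5)]), (3, [(54, 1), (57, 1008), (72, 1)]), (4, [(30, 10), (54, 20), (57, 10074), (72, 9), (81, 7)]), (4, [(30, 21), (47, 2555), (54, 64), (57, 7467), (72, 15)]), (2, [(57, 101)]), (4, [(30, 19), (47, 3295), (54, 23), (57, 6771), (72, 7)]), (4, [(30, 20), (47, 4020), (54, 34), (57, 6039), (72, 13)]), (4, [(30, 19), (47, 5188), (54, 40), (57, 4876), (72, 18)]), (3, [(30, 1), (54, 2), (57, 1006), (81, 1)]), (2, [(57, 101)]), (4, [(30, 11), (54, 16), (57, 10088), (61,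 1), (81, 5)]), (3, [(30, 1), (54, 2), (57, 1008), (81, 1)]), (3, [(30, 1), (54, 2), (57, 1007), (81, 2)]), (3, [(30, 1), (54, 2), (57, 1016), (81, 2)]), (4, [(30, 8), (54, 20), (57, 10061), (61, 5), (81, 26)]), (4, [(30, 17), (47, 6829), (54, 53), (57, 3245), (72, 17)]), (4, [(30, 7), (47, 5197), (54, 55), (57, 4880), (72, 8)]), (4, [(30, 13), (47, 7282), (54, 42), (57, 2812), (72, 14)]), (3, [(30, 1), (47, 902), (54, 3), (57, 108), (72, 2)]), (3, [(30, 1), (42, 264), (47, 747), (54, 4), (72, 3)]), (3, [(30, 1), (42, 1009), (47, 1), (54, 6), (72, 3)]), (3, [(63, 18), (64, 975), (68, 1), (81, 17)]), (2, [(67, 99), (72, 1), (80, 1)]), (0, [(0, 1), (63, 1)]), (4, [(3, 1534), (15, 222), (22, 721), (23, 7620), (63, 1)]), (3, [(10, 181), (13, 578), (16, 241), (65, 1)]), (3, [(0, 14), (7, 104), (23, 895), (81, 1)]), (3, [(0, 19), (4, 163), (15, 838), (63, 5)]), (3, [(16, 671), (17, 70), (18, 263), (65, 2)]), (2,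 [(23, 101)]), (4, [(0, 414), (7, 157), (20, 22), (23, 9664), (81, 13)]), (4, [(16, 1712), (17, 1315), (18, 7070), (65, 14)]), (4, [(17, 9138), (18, 886), (20, 5), (80, 15)]), (3, [(17, 864), (18, 137), (20, 1), (80, 2)]), (5, [(1, 2), (17, 81729), (18, 18245), (20, 236), (80, 248)]), (4, [(18, 10108), (20, 8), (21, 15), (26, 7), (80, 16)]), (4, [(17, 7557), (18, 2420), (20, 37), (80, 30)]), (3, [(13, 580), (17, 394), (20, 48), (72, 2)]), (4, [(0, 212), (7, 724), (20, 16), (23, 9216), (81, 8)]), (3, [(18, 999), (21, 21), (73, 2)]), (3, [(18, 1000), (20, 5), (21, 8), (80, 3)]), (3, [(18, 938), (20, 10), (21, 103), (80, 4)]), (4, [(19, 9757), (21, 305), (74, 31)]), (0, [(0, 1), (20, 1), (72, 1)]), (0, [(21, 5)]), (4, [(0, 431), (23, 9806), (25, 10), (81, 12)]), (4, [(0, 318), (23, 9754), (25, 4), (81, 32)]), (3, [(0, 484), (24, 712), (63, 4)]), (1, [(0, 5), (20, 4), (25, 2), (81, 1)]), (1, [(20, 5), (21, 4),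 (26, 2), (80, 1)]), (2, [(21, 69), (27, 51), (73, 1)]), (3, [(21, 832), (27, 164), (28, 1), (73, 4)]), (4, [(0, 163), (7, 9978), (23, 63), (63, 41), (81, 2)]), (0, [(30, 1), (63, 1)]), (4, [(30, 45), (47, 6109), (54, 93), (57, 3917), (72, 22)]), (3, [(30, 5), (47, 186), (54, 10), (57, 812), (72, 2)]), (4, [(30, 46), (47, 3314), (54, 65), (57, 6701), (72, 18)]), (4, [(30, 38), (47, 2218), (54, 206), (57, 7718), (72, 13)]), (4, [(30, 42), (47, 2592), (54, 48), (57, 7433), (72, 12)]), (4, [(47, 1138), (54, 131), (57, 8865), (72, 3), (80, 3)]), (3, [(30, 3), (47, 232), (54, 2), (57, 764), (72, 1)]), (3, [(30, 1), (42, 1028), (54, 7), (72, 3)]), (2, [(57, 101)]), (3, [(47, 7), (54, 41), (57, 996), (73, 1)]), (3, [(30, 7), (47, 161), (54, 4), (57, 829), (72, 2)]), (3, [(30, 12), (47, 114), (54, 14), (57, 875), (72, 3)]), (4, [(39, 1), (53, 9903), (55, 363), (73, 32)]), (3, [(30, 7), (47, 61), (54, 2), (57, 941),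 (72, 1)]), (4, [(47, 757), (54, 204), (55, 7), (57, 9195), (73, 6)]), (4, [(30, 28), (54, 237), (57, 9896), (72, 15), (81, 2)]), (3, [(30, 9), (54, 30), (57, 963), (72, 3), (81, 1)]), (3, [(48, 2), (53, 1008), (69, 2), (71, 1)]), (4, [(30, 23), (54, 17), (57, 10056), (72, 3), (81, 2)]), (3, [(30, 1), (54, 2), (57, 997), (72, 1), (81, 2)]), (4, [(30, 8), (54, 20), (57, 10030), (61, 7), (81, 26)]), (4, [(30, 503), (52, 9668), (63, 31), (81, 1)]), (4, [(53, 9509), (55, 840), (73, 33)]), (0, [(30, 1), (54, 1), (72, 1)]), (0, [(55, 5)]), (3, [(30, 1), (54, 2), (57, 1012), (81, 1)]), (5, [(30, 167), (54, 1841), (57, 98113), (61, 58), (81, 316)]), (3, [(55, 187), (58, 905), (82, 4)]), (1, [(54, 5), (55, 4), (59, 2), (80, 1)]), (3, [(55, 348), (58, 859), (82, 4)]), (1, [(30, 5), (54, 4), (61, 2), (81, 1)]), (3, [(30, 1), (54, 2), (57, 1004), (81, 2)]), (0, [(63, 2)]), (3, [(63, 18), (64, 975), (68, 1), (81, 17)]),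 (2, [(67, 99), (72, 1), (80, 1)]), (2, [(67, 98), (72, 3), (80, 1)]), (2, [(67, 96), (72, 5), (80, 2)]), (1, [(63, 2), (68, 9)]), (2, [(71, 101)]), (2, [(67, 95), (72, 8)]), (1, [(71, 8), (73, 3)]), (0, [(72, 2)]), (0, [(73, 2)]), (1, [(73, 5), (74, 7)]), (0, [(63, 2)]), (1, [(69, 6), (72, 6)]), (1, [(74, 11)]), (1, [(73, 5), (74, 7)]), (0, [(73, 2)]), (0, [(72, 2)]), (0, [(63, 2)]), (1, [(73, 11)])],
  [(4, [(39, 726), (56, 65), (57, 9271), (62, 53), (72, 2)]), (4, [(17, 9540), (18, 512), (20, 7), (80, 26)]), (3, [(13, 32), (16, 13), (17, 957), (65, 2)]), (5, [(1, 3), (17, 98524), (18, 1719), (20, 9), (80, 205)]), (4, [(17, 9699), (18, 318), (20, 3), (80, 26)]), (4, [(17, 9648), (18, 364), (20, 4), (80, 31)]), (4, [(0, 206), (7, 762), (23, 9205), (63, 4), (81, 16)]), (3, [(0, 10), (7, 107), (23, 898), (63, 1)]), (4, [(0, 152), (7, 1323), (23, 8690), (63, 8), (81, 5)]), (4, [(0, 175), (7, 1980), (23, 8020),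 (63, 12), (81, 8)]), (4, [(0, 183), (7, 3011), (23, 6988), (63, 19), (81, 9)]), (5, [(1, 4), (17, 95014), (18, 5100), (20, 75), (80, 254)]), (3, [(13, 179), (17, 824), (72, 2)]), (5, [(1, 4), (17, 100190), (20, 61), (72, 2), (80, 204)]), (4, [(17, 9779), (18, 235), (20, 5), (80, 26)]), (4, [(17, 9685), (18, 324), (20, 5), (80, 31)]), (5, [(1, 5), (17, 96626), (18, 3413), (20, 52), (80, 358)]), (4, [(17, 9710), (18, 325), (20, 5), (80, 41)]), (3, [(0, 19), (7, 446), (23, 554), (63, 2), (81, 1)]), (3, [(0, 13), (7, 304), (23, 700), (63, 1), (81, 1)]), (4, [(0, 157), (7, 4837), (23, 5194), (63, 19), (81, 7)]), (4, [(0, 168), (7, 6351), (23, 3682), (63, 30), (81, 5)]), (4, [(0, 169), (7, 7849), (23, 2190), (63, 40), (81, 3)]), (3, [(0, 17), (7, 940), (23, 65), (63, 5)]), (4, [(30, 14), (54, 21), (57, 10069), (72, 14), (81, 2)]), (4, [(30, 3), (47, 336), (54, 10), (57, 9765), (72, 5)]), (4, [(30, 6), (54, 16),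 (57, 10182), (72, 8), (81, 2)]), (5, [(30, 87), (54, 192), (57, 100763), (72, 79), (81, 78)]), (4, [(30, 10), (54, 20), (57, 10069), (72, 7), (81, 14)]), (4, [(30, 23), (47, 729), (54, 66), (57, 9300), (72, 19)]), (4, [(30, 15), (47, 1206), (54, 9), (57, 8886), (72, 6)]), (4, [(30, 21), (47, 1462), (54, 26), (57, 8610), (72, 11)]), (4, [(30, 22), (47, 2190), (54, 37), (57, 7876), (72, 17)]), (4, [(30, 21), (47, 3360), (54, 42), (57, 6711), (72, 23)]), (3, [(30, 1), (54, 2), (57, 1006), (81, 2)]), (4, [(30, 15), (54, 7), (57, 10102), (81, 5)]), (3, [(30, 1), (54, 1), (57, 1008), (81, 1)]), (4, [(30, 9), (54, 19), (57, 10073), (61, 3), (81, 16)]), (3, [(30, 1), (54, 2), (57, 1016), (81, 2)]), (4, [(30, 8), (54, 20), (57, 10061), (61, 5), (81, 26)]), (3, [(54, 1), (57, 1015), (81, 3)]), (3, [(30, 1), (47, 507), (54, 5), (57, 514), (72, 2)]), (4, [(30, 9), (47, 3366), (54, 58), (57, 6717), (72, 12)]), (3, [(30,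 1), (47, 545), (54, 4), (57, 465), (72, 2)]), (4, [(30, 16), (47, 7199), (54, 40), (57, 2915), (72, 25)]), (3, [(30, 1), (47, 892), (54, 3), (57, 120), (72, 3)]), (3, [(30, 1), (42, 230), (47, 766), (54, 4), (72, 4)]), (3, [(63, 18), (64, 974), (68, 1), (81, 17)]), (2, [(67, 99), (72, 1), (80, 1)]), (0, [(0, 1), (63, 1)]), (4, [(1, 56), (6, 725), (23, 9333), (63, 2)]), (5, [(1, 2), (10, 13839), (13, 61878), (16, 24310), (65, 142)]), (3, [(0, 14), (23, 1012), (81, 1)]), (3, [(0, 19), (4, 30), (15, 974), (63, 6)]), (4, [(16, 6543), (17, 742), (18, 2750), (65, 21)]), (3, [(0, 6), (7, 2), (23, 1004), (81, 1)]), (4, [(0, 408), (23, 9809), (25, 48), (81, 18)]), (3, [(16, 135), (17, 146), (18, 728), (65, 2)]), (3, [(17, 915), (18, 87), (80, 2)]), (4, [(17, 8648), (18, 1355), (20, 11), (80, 25)]), (3, [(17, 817), (18, 182), (20, 2), (80, 3)]), (3, [(18, 1010), (21, 1), (80, 2)]), (4, [(17, 7555), (18, 2418), (20,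 38), (80, 35)]), (4, [(1, 1), (13, 5797), (17, 3932), (20, 489), (72, 22)]), (3, [(0, 20), (23, 1008), (25, 3), (81, 1)]), (3, [(18, 1016), (21, 22), (73, 2)]), (3, [(18, 1012), (20, 5), (21, 8), (80, 3)]), (3, [(18, 936), (20, 10), (21, 104), (80, 4)]), (3, [(19, 975), (21, 31), (74, 4)]), (0, [(0, 1), (20, 1), (72, 1)]), (1, [(21, 57)]), (4, [(0, 442), (23, 9797), (25, 8), (81, 18)]), (3, [(0, 33), (23, 975), (81, 4)]), (3, [(0, 491), (24, 704), (63, 5)]), (1, [(0, 5), (20, 4), (25, 2), (81, 1)]), (1, [(20, 5), (21, 4), (26, 2), (80, 1)]), (2, [(21, 69), (27, 50), (73, 1)]), (2, [(21, 100), (27, 19), (73, 1)]), (4, [(0, 170), (7, 8391), (23, 1662), (63, 40), (81, 4)]), (0, [(30, 1), (63, 1)]), (3, [(30, 5), (47, 422), (54, 9), (57, 565), (72, 3)]), (4, [(30, 51), (47, 38), (54, 107), (57, 9942), (72, 24)]), (4, [(30, 49), (47, 1491), (54, 68), (57, 8531), (72, 22)]), (3, [(30, 4), (47, 41), (54, 21), (57,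 953), (72, 2)]), (3, [(30, 4), (47, 77), (54, 5), (57, 927), (72, 2)]), (3, [(54, 14), (57, 1012), (72, 1)]), (3, [(30, 3), (47, 51), (54, 2), (57, 964), (72, 1)]), (3, [(30, 1), (42, 994), (54, 6), (72, 4)]), (4, [(47, 6), (54, 61), (57, 10056), (73, 2), (80, 3)]), (3, [(54, 41), (57, 983), (59, 1), (80, 2)]), (3, [(30, 7), (54, 4), (57, 1011), (72, 2)]), (3, [(30, 12), (54, 14), (57, 975), (72, 4), (81, 1)]), (3, [(53, 989), (55, 37), (73, 4)]), (4, [(30, 74), (54, 22), (57, 10021), (72, 6), (81, 5)]), (3, [(54, 21), (57, 1008), (59, 1), (80, 1)]), (4, [(30, 28), (54, 239), (57, 9890), (72, 12), (81, 10)]), (4, [(30, 93), (54, 305), (57, 9785), (72, 21), (81, 12)]), (4, [(53, 10103), (71, 21), (73, 5)]), (4, [(30, 23), (54, 17), (57, 10052), (72, 1), (81, 10)]), (4, [(30, 11), (54, 21), (57, 10078), (72, 5), (81, 26)]), (4, [(30, 8), (54, 19), (57, 10025), (61, 8), (81, 31)]), (3, [(30, 51), (52, 966), (63,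 4)]), (3, [(53, 950), (55, 86), (73, 4)]), (0, [(30, 1), (54, 1), (72, 1)]), (1, [(55, 57)]), (3, [(30, 1), (54, 2), (57, 997), (81, 2)]), (4, [(30, 17), (54, 184), (57, 9766), (61, 7), (81, 37)]), (3, [(55, 191), (58, 903), (82, 4)]), (1, [(54, 5), (55, 4), (59, 2), (80, 1)]), (3, [(55, 355), (58, 856), (82, 4)]), (1, [(30, 5), (54, 4), (61, 2), (81, 1)]), (3, [(30, 1), (54, 2), (57, 1010), (81, 2)]), (0, [(63, 2)]), (3, [(63, 18), (64, 975), (68, 1), (81, 17)]), (2, [(67, 99), (72, 1), (80, 1)]), (2, [(67, 98), (72, 3), (80, 1)]), (2, [(67, 96), (72, 5), (80, 2)]), (1, [(63, 3), (68, 9)]), (2, [(71, 101)]), (2, [(67, 95), (72, 9)]), (1, [(71, 8), (73, 3)]), (0, [(72, 2)]), (0, [(73, 2)]), (1, [(73, 5), (74, 7)]), (0, [(63, 2)]), (1, [(69, 6), (72, 6)]), (1, [(74, 11)]), (1, [(73, 5), (74, 7)]), (0, [(73, 2)]), (0, [(72, 2)]), (0, [(63, 2)]), (1, [(73, 11)])],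
  [(7, [(0, 42316), (4, 3627680), (15, 6327089), (63, 3671), (72, 837)]), (3, [(30, 1), (42, 995), (54, 8), (72, 1)]), (4, [(47, 10003)]), (3, [(42, 1001)]), (4, [(30, 4), (42, 10041), (54, 77), (72, 5)]), (3, [(42, 1008), (54, 7), (72, 1)]), (3, [(30, 220), (52, 901), (63, 3), (68, 1)]), (4, [(30, 1321), (52, 9396), (63, 14), (68, 10)]), (3, [(30, 177), (52, 919), (63, 2), (68, 1)]), (3, [(30, 215), (52, 983), (63, 3), (68, 1)]), (3, [(30, 210), (52, 905), (63, 3), (68, 2)]), (3, [(30, 1), (42, 563), (47, 430), (54, 7), (72, 1)]), (3, [(47, 1001)]), (2, [(42, 101)]), (4, [(30, 12), (42, 1338), (47, 8620), (54, 48), (72, 8)]), (4, [(30, 15), (47, 8616), (54, 50), (57, 1453), (72, 12)]), (4, [(30, 17), (47, 6829), (54, 53), (57, 3245), (72, 17)]), (3, [(30, 1), (47, 507), (54, 5), (57, 514), (72, 2)]), (3, [(30, 221), (52, 900), (63, 2), (68, 2)]), (3, [(30, 160), (52, 926), (63, 1), (68, 2)]), (3, [(30, 191),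 (52, 913), (63, 2), (68, 2)]), (3, [(30, 206), (52, 906), (63, 2), (68, 3)]), (3, [(30, 213), (52, 902), (63, 2), (68, 3)]), (3, [(30, 217), (52, 900), (63, 2), (68, 3)]), (4, [(0, 222), (4, 2579), (15, 7268), (63, 19), (72, 4)]), (5, [(0, 988), (4, 31047), (15, 67914), (63, 83), (72, 26)]), (4, [(0, 143), (4, 2424), (15, 7477), (63, 15), (72, 3)]), (4, [(0, 171), (4, 1506), (15, 8395), (63, 22), (72, 3)]), (4, [(0, 185), (4, 401), (15, 9408), (63, 30), (72, 3)]), (5, [(0, 4008), (4, 33364), (15, 63977), (63, 126), (72, 115)]), (3, [(0, 22), (4, 369), (15, 609), (63, 1)]), (4, [(0, 312), (4, 3842), (15, 5856), (63, 9), (72, 6)]), (4, [(0, 358), (4, 4390), (15, 5372), (63, 11), (72, 8)]), (4, [(0, 379), (4, 5223), (15, 4525), (63, 12), (72, 10)]), (4, [(0, 197), (7, 8847), (15, 1093), (63, 22), (81, 2)]), (4, [(0, 206), (4, 1861), (15, 8037), (63, 13), (72, 1)]), (5, [(0, 1856), (4, 1552), (15, 97787), (63,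 217), (72, 16)]), (4, [(0, 167), (7, 9123), (23, 850), (63, 21), (81, 1)]), (4, [(0, 178), (7, 7592), (23, 2389), (63, 20), (81, 4)]), (4, [(0, 187), (7, 6044), (23, 3947), (63, 19), (81, 7)]), (3, [(0, 19), (7, 446), (23, 554), (63, 2), (81, 1)]), (4, [(0, 406), (4, 6397), (15, 3336), (63, 4), (72, 13)]), (4, [(0, 285), (4, 5299), (15, 4588), (72, 11)]), (4, [(0, 342), (4, 6672), (15, 2999), (63, 2), (72, 12)]), (4, [(0, 380), (4, 8080), (15, 1780), (63, 3), (72, 12)]), (4, [(0, 390), (4, 9231), (15, 510), (63, 4), (72, 14)]), (4, [(0, 398), (4, 9733), (63, 5), (64, 3), (72, 14)]), (2, [(68, 101)]), (2, [(63, 4), (64, 97), (72, 1)]), (0, [(30, 1), (63, 1)]), (3, [(30, 35), (52, 986), (63, 1), (68, 1)]), (6, [(31, 931390), (45, 66369), (54, 2183), (55, 33), (73, 91)]), (3, [(30, 168), (52, 924), (63, 2), (68, 1)]), (3, [(30, 221), (52, 899), (63, 2), (68, 4)]), (5, [(31, 73034), (45, 25987), (54, 1327), (72,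 23), (73, 65)]), (3, [(30, 94), (52, 957), (63, 2), (68, 1)]), (3, [(30, 390), (52, 841), (63, 3), (81, 1)]), (3, [(31, 597), (45, 385), (54, 27), (72, 2)]), (5, [(30, 63), (42, 99410), (48, 1), (54, 956), (72, 4)]), (4, [(30, 18), (42, 9925), (54, 109), (72, 6)]), (4, [(30, 41), (42, 9891), (54, 123), (72, 11)]), (3, [(30, 1), (42, 976), (54, 41), (72, 1)]), (4, [(30, 66), (42, 9864), (54, 141), (72, 16)]), (2, [(57, 101)]), (4, [(30, 2294), (52, 8985), (63, 22), (68, 5), (81, 7)]), (3, [(31, 405), (45, 574), (54, 76), (73, 3)]), (3, [(30, 9), (42, 963), (54, 51), (72, 2)]), (2, [(30, 2), (42, 70), (47, 19), (54, 21), (72, 1)]), (2, [(43, 2), (48, 89), (54, 3), (55, 16), (73, 1)]), (1, [(30, 10), (54, 1), (72, 1)]), (0, [(54, 6)]), (3, [(30, 402), (52, 838), (63, 4)]), (2, [(30, 31), (52, 86), (63, 1)]), (3, [(30, 1196), (63, 4)]), (1, [(30, 10), (61, 1), (81, 1)]), (1, [(30, 5), (54, 5), (61, 1), (81, 1)]),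 (0, [(55, 7)]), (0, [(55, 6)]), (3, [(30, 215), (52, 903), (63, 2), (68, 3)]), (0, [(0, 1), (63, 1)]), (4, [(0, 739), (4, 5796), (15, 3771), (63, 6), (72, 18)]), (4, [(0, 734), (4, 2795), (15, 6772), (63, 15), (72, 17)]), (4, [(0, 658), (4, 3832), (15, 5777), (63, 14), (72, 12)]), (4, [(0, 817), (4, 3044), (15, 6486), (20, 4), (72, 23)]), (4, [(0, 582), (4, 3334), (15, 6318), (63, 13), (72, 9)]), (3, [(0, 30), (4, 233), (15, 747), (72, 2)]), (4, [(0, 430), (4, 3224), (15, 6651), (63, 12), (72, 5)]), (4, [(0, 407), (4, 9734), (63, 2), (64, 8), (72, 15)]), (4, [(0, 154), (4, 2843), (15, 7037), (20, 1), (72, 12)]), (4, [(0, 766), (4, 1538), (15, 8005), (20, 29), (72, 27)]), (4, [(0, 845), (4, 2615), (15, 6907), (63, 22), (72, 8)]), (3, [(0, 150), (4, 234), (15, 738), (63, 3), (72, 2)]), (3, [(17, 965), (18, 3), (20, 84), (80, 1)]), (3, [(0, 79), (4, 192), (15, 765), (63, 2)]), (3, [(0, 42), (4, 206), (15, 767),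 (20, 2), (72, 2)]), (4, [(0, 752), (4, 1133), (15, 8431), (72, 33)]), (3, [(0, 145), (4, 62), (15, 860), (63, 1), (72, 4)]), (2, [(17, 101)]), (4, [(0, 302), (4, 1123), (15, 8705), (63, 19), (72, 2)]), (4, [(0, 190), (7, 8619), (23, 1355), (63, 33), (81, 4)]), (4, [(0, 204), (7, 3564), (23, 6414), (63, 15), (81, 12)]), (3, [(0, 371), (24, 827), (63, 2)]), (3, [(18, 931), (20, 158), (73, 1)]), (1, [(0, 10), (20, 1), (72, 1)]), (0, [(20, 6)]), (4, [(0, 225), (7, 9120), (23, 796), (63, 21), (81, 1)]), (3, [(0, 58), (7, 271), (23, 694), (81, 3)]), (2, [(19, 29), (21, 72), (73, 1), (74, 1)]), (1, [(0, 5), (20, 5), (25, 1), (81, 1)]), (2, [(19, 18), (21, 83), (73, 1), (74, 1)]), (1, [(0, 10), (25, 1), (81, 1)]), (4, [(0, 208), (7, 7046), (23, 2896), (63, 18), (81, 5)]), (0, [(63, 2)]), (2, [(68, 101)]), (2, [(63, 4), (64, 97), (72, 1)]), (2, [(63, 7), (64, 95), (72, 1)]), (2, [(63, 9), (64, 93), (72, 1)]), (0, [(63,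 2)]), (1, [(66, 5), (67, 4), (72, 1)]), (2, [(63, 15), (64, 92), (81, 1)]), (1, [(66, 7), (72, 5)]), (0, [(63, 2)]), (0, [(72, 2)]), (1, [(72, 11)]), (0, [(63, 2)]), (1, [(63, 11)]), (1, [(69, 6), (72, 3), (73, 2)]), (1, [(72, 11)]), (0, [(73, 2)]), (0, [(63, 2)]), (0, [(63, 2)]), (0, [(73, 2)])],
  [(4, [(0, 22), (4, 1479), (15, 7360), (29, 1140)]), (3, [(47, 1001)]), (5, [(31, 44306), (32, 26258), (45, 29142), (54, 466), (72, 13)]), (3, [(47, 1001)]), (3, [(47, 1001)]), (4, [(32, 205), (42, 3594), (47, 6235), (54, 57), (72, 5)]), (3, [(30, 159), (52, 927), (63, 3), (68, 1)]), (3, [(30, 94), (52, 958), (63, 1), (68, 1)]), (3, [(30, 134), (52, 993), (63, 2), (68, 1)]), (3, [(30, 144), (52, 934), (63, 2), (68, 1)]), (4, [(30, 1516), (52, 9305), (63, 21), (68, 12), (81, 1)]), (2, [(47, 101)]), (3, [(47, 1002)]), (2, [(47, 101)]), (2, [(47, 101)]), (3, [(57, 1001)]), (4, [(30, 7), (47, 5197), (54, 55), (57, 4880),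 (72, 8)]), (4, [(30, 9), (47, 3366), (54, 58), (57, 6717), (72, 12)]), (3, [(30, 160), (52, 926), (63, 1), (68, 2)]), (4, [(30, 1147), (52, 9478), (63, 9), (68, 12), (81, 1)]), (3, [(30, 138), (52, 937), (63, 1), (68, 2)]), (4, [(30, 1491), (52, 9310), (63, 11), (68, 22), (81, 1)]), (3, [(30, 155), (52, 928), (63, 1), (68, 3)]), (4, [(30, 1572), (52, 9264), (63, 13), (68, 31), (81, 1)]), (5, [(0, 1493), (4, 14141), (15, 84832), (63, 144), (72, 31)]), (6, [(0, 6260), (4, 193450), (15, 801711), (63, 434), (72, 155)]), (4, [(0, 93), (4, 1251), (15, 8689), (63, 11), (72, 2)]), (3, [(0, 11), (4, 34), (15, 961), (63, 2)]), (3, [(0, 10), (7, 958), (22, 9), (23, 32), (63, 2)]), (3, [(0, 28), (4, 219), (15, 762), (63, 1), (72, 1)]), (4, [(0, 154), (4, 2548), (15, 7347), (63, 3), (72, 2)]), (5, [(0, 2175), (4, 27227), (15, 71297), (63, 48), (72, 47)]), (4, [(0, 249), (4, 3240), (15, 6591), (63, 7), (72, 7)]), (4, [(0,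 264), (4, 4077), (15, 5742), (63, 8), (72, 9)]), (4, [(0, 127), (7, 8611), (23, 1370), (63, 11), (81, 2)]), (3, [(0, 14), (4, 69), (15, 926), (63, 1)]), (3, [(0, 10), (7, 787), (22, 175), (23, 38), (63, 1)]), (4, [(0, 108), (7, 7721), (23, 2286), (63, 9), (81, 2)]), (3, [(23, 1001)]), (4, [(0, 124), (7, 4630), (23, 5396), (63, 7), (81, 8)]), (3, [(0, 13), (7, 304), (23, 700), (63, 1), (81, 1)]), (4, [(0, 285), (4, 5299), (15, 4588), (72, 11)]), (3, [(0, 19), (4, 410), (15, 577), (72, 1)]), (3, [(0, 24), (4, 559), (15, 424), (72, 1)]), (3, [(0, 26), (4, 690), (15, 300), (72, 1)]), (5, [(0, 2728), (4, 80932), (15, 17198), (63, 4), (72, 124)]), (4, [(0, 278), (4, 9386), (15, 422), (63, 2), (72, 13)]), (1, [(68, 11)]), (2, [(63, 2), (64, 98), (72, 1)]), (0, [(30, 1), (63, 1)]), (4, [(30, 231), (52, 10073), (63, 4), (68, 7)]), (5, [(31, 48580), (45, 51325), (54, 108)]), (4, [(30, 1203), (52, 9461), (63, 18), (68,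 1), (81, 2)]), (3, [(30, 160), (52, 926), (63, 1), (68, 4)]), (4, [(31, 4295), (45, 5638), (54, 89), (55, 1), (73, 5)]), (5, [(30, 6582), (52, 97157), (63, 111), (68, 35), (81, 19)]), (3, [(30, 288), (52, 876), (63, 2), (81, 1)]), (4, [(31, 2997), (45, 6872), (54, 190), (72, 7), (73, 5)]), (4, [(47, 10006)]), (4, [(47, 10001)]), (4, [(30, 19), (42, 9921), (54, 118), (72, 3)]), (3, [(31, 91), (32, 394), (45, 493), (54, 36), (72, 2)]), (4, [(30, 36), (42, 9722), (47, 237), (54, 134), (72, 8)]), (2, [(57, 101)]), (4, [(30, 1664), (52, 9256), (63, 16), (68, 1), (81, 7)]), (3, [(31, 106), (45, 860), (54, 53), (55, 1), (73, 2)]), (3, [(30, 4), (42, 903), (47, 65), (54, 48), (72, 1)]), (3, [(30, 3), (42, 94), (47, 796), (54, 198), (72, 2)]), (3, [(43, 136), (48, 770), (54, 14), (55, 152), (73, 2)]), (1, [(30, 10), (54, 1), (72, 1)]), (0, [(54, 4)]), (3, [(30, 298), (52, 871), (63, 3)]), (2, [(30, 23), (52, 88), (63,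 1)]), (3, [(30, 1197), (63, 3)]), (1, [(30, 10), (61, 1), (81, 1)]), (1, [(30, 4), (54, 5), (61, 2), (81, 1)]), (0, [(55, 6)]), (0, [(55, 5)]), (3, [(30, 156), (52, 928), (63, 1), (68, 3)]), (0, [(0, 1), (63, 1)]), (4, [(0, 525), (4, 4695), (15, 4988), (63, 2), (72, 17)]), (4, [(0, 520), (4, 1674), (15, 8009), (63, 11), (72, 15)]), (3, [(0, 47), (4, 271), (15, 701), (63, 1), (72, 1)]), (4, [(0, 580), (4, 1931), (15, 7724), (20, 6), (72, 17)]), (4, [(0, 410), (4, 2202), (15, 7547), (63, 9), (72, 8)]), (4, [(0, 205), (4, 1167), (15, 8693), (20, 3), (72, 13)]), (4, [(0, 296), (4, 2032), (15, 7782), (63, 7), (72, 4)]), (4, [(0, 287), (4, 9899), (64, 2), (72, 14)]), (3, [(0, 10), (4, 167), (15, 825), (72, 1)]), (3, [(0, 54), (4, 41), (15, 925), (20, 3), (72, 2)]), (4, [(0, 601), (4, 1501), (15, 8150), (63, 17), (72, 6)]), (3, [(0, 103), (4, 114), (15, 828), (63, 2), (72, 2)]), (2, [(17, 101)]), (4, [(0, 558), (4,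 794), (15, 8901), (63, 12), (72, 2)]), (4, [(0, 289), (4, 899), (15, 8802), (20, 22), (72, 14)]), (3, [(0, 53), (15, 968), (72, 3)]), (4, [(0, 1026), (7, 9435), (20, 2), (72, 33), (81, 2)]), (2, [(17, 101)]), (5, [(0, 2069), (7, 3671), (15, 95222), (63, 123), (81, 33)]), (4, [(0, 123), (7, 7216), (23, 2793), (63, 21), (81, 4)]), (4, [(0, 137), (7, 2146), (23, 7870), (63, 3), (81, 13)]), (3, [(0, 276), (24, 939), (63, 2)]), (3, [(18, 1001)]), (1, [(0, 10), (20, 1), (72, 1)]), (0, [(20, 4)]), (4, [(0, 150), (7, 7731), (23, 2225), (63, 9), (81, 2)]), (3, [(0, 41), (7, 125), (20, 1), (23, 851), (81, 2)]), (2, [(19, 36), (21, 65), (73, 1), (74, 1)]), (1, [(0, 4), (20, 5), (25, 2), (81, 1)]), (2, [(19, 23), (21, 78), (73, 1), (74, 1)]), (1, [(0, 10), (25, 1), (81, 1)]), (4, [(23, 10001)]), (0, [(63, 2)]), (1, [(68, 11)]), (2, [(63, 2), (64, 98), (72, 1)]), (2, [(63, 5), (64, 96), (72, 1)]), (2, [(63, 7), (64, 95),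 (72, 1)]), (0, [(63, 2)]), (2, [(67, 94), (72, 10), (80, 1)]), (2, [(63, 10), (64, 94), (81, 2)]), (1, [(66, 8), (72, 4)]), (0, [(63, 2)]), (0, [(72, 2)]), (1, [(69, 5), (72, 6), (73, 1)]), (0, [(63, 2)]), (1, [(63, 11)]), (1, [(69, 8), (72, 2), (73, 2)]), (4, [(72, 10001)]), (0, [(73, 2)]), (0, [(72, 2)]), (0, [(63, 2)]), (0, [(73, 2)])],
  [(6, [(0, 3327), (4, 395374), (15, 601343), (63, 74), (72, 45)]), (5, [(30, 76), (42, 99608), (48, 2), (54, 735), (72, 29)]), (3, [(47, 1001)]), (3, [(47, 1001)]), (4, [(30, 1), (42, 9998), (54, 68), (72, 3)]), (4, [(30, 4), (42, 10019), (54, 67), (72, 8)]), (3, [(30, 191), (52, 913), (63, 3), (68, 1)]), (4, [(30, 1135), (52, 9485), (63, 9), (68, 12)]), (3, [(30, 153), (52, 930), (63, 2), (68, 1)]), (3, [(30, 184), (52, 987), (63, 2), (68, 2)]), (3, [(30, 181), (52, 917), (63, 2), (68, 2)]), (4, [(30, 9), (42, 7540), (47, 2498), (54, 65), (72, 3)]), (3, [(47, 1001)]),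 (2, [(47, 101)]), (4, [(30, 8), (42, 3204), (47, 6868), (54, 45), (72, 5)]), (3, [(30, 1), (47, 907), (54, 4), (57, 102), (72, 1)]), (4, [(30, 13), (47, 7282), (54, 42), (57, 2812), (72, 14)]), (3, [(30, 1), (47, 545), (54, 4), (57, 465), (72, 2)]), (3, [(30, 191), (52, 913), (63, 2), (68, 2)]), (3, [(30, 138), (52, 937), (63, 1), (68, 2)]), (4, [(30, 1652), (52, 9239), (63, 10), (68, 23), (81, 1)]), (3, [(30, 178), (52, 918), (63, 1), (68, 3)]), (4, [(30, 1847), (52, 9144), (63, 13), (68, 32), (81, 1)]), (3, [(30, 188), (52, 913), (63, 1), (68, 4)]), (5, [(0, 1866), (4, 29027), (15, 69695), (63, 159), (72, 35)]), (4, [(0, 81), (4, 3430), (15, 6486), (63, 6), (72, 2)]), (5, [(0, 1188), (4, 27474), (15, 71738), (63, 119), (72, 25)]), (5, [(0, 1424), (4, 18266), (15, 80969), (63, 193), (72, 25)]), (3, [(0, 15), (4, 72), (15, 913), (63, 3)]), (3, [(0, 34), (4, 370), (15, 617), (63, 1), (72, 1)]), (5, [(0, 1907),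 (4, 40413), (15, 58286), (63, 40), (72, 24)]), (4, [(0, 268), (4, 4208), (15, 5614), (63, 7), (72, 5)]), (4, [(0, 305), (4, 4722), (15, 5074), (63, 8), (72, 7)]), (4, [(0, 323), (4, 5560), (15, 4223), (63, 10), (72, 9)]), (4, [(0, 177), (7, 2308), (15, 7641), (63, 21), (81, 4)]), (5, [(0, 1737), (4, 21830), (15, 77390), (63, 101), (72, 6)]), (3, [(0, 15), (4, 47), (15, 949), (63, 2)]), (3, [(0, 13), (7, 826), (22, 149), (23, 25), (63, 2)]), (4, [(0, 143), (7, 7976), (23, 2033), (63, 21), (81, 1)]), (4, [(0, 151), (7, 6423), (23, 3596), (63, 20), (81, 4)]), (4, [(0, 157), (7, 4837), (23, 5194), (63, 19), (81, 7)]), (4, [(0, 342), (4, 6672), (15, 2999), (63, 2), (72, 12)]), (3, [(0, 24), (4, 559), (15, 424), (72, 1)]), (3, [(0, 29), (4, 708), (15, 272), (72, 1)]), (4, [(0, 320), (4, 8341), (15, 1445), (63, 1), (72, 11)]), (4, [(0, 336), (4, 9683), (15, 189), (63, 2), (72, 12)]), (4, [(0, 339), (4, 9769), (63,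 3), (64, 4), (72, 13)]), (2, [(68, 101)]), (2, [(63, 3), (64, 97), (72, 1)]), (0, [(30, 1), (63, 1)]), (5, [(30, 2888), (52, 98962), (63, 32), (68, 122), (81, 3)]), (5, [(31, 80164), (45, 19694), (54, 143), (55, 4)]), (3, [(30, 145), (52, 935), (63, 2), (68, 1)]), (3, [(30, 191), (52, 912), (63, 1), (68, 4)]), (4, [(31, 8158), (45, 1793), (54, 106), (73, 5)]), (4, [(30, 801), (52, 9638), (63, 11), (68, 9), (81, 1)]), (4, [(30, 3403), (52, 8578), (63, 27), (68, 4), (81, 8)]), (4, [(31, 6801), (45, 3050), (54, 226), (72, 10), (73, 2)]), (3, [(42, 996), (54, 8)]), (4, [(30, 13), (42, 9899), (54, 96), (72, 3)]), (4, [(30, 32), (42, 9910), (54, 109), (72, 8)]), (4, [(30, 4), (42, 9789), (54, 368), (72, 4)]), (4, [(30, 54), (42, 9886), (54, 124), (72, 14)]), (2, [(57, 101)]), (4, [(30, 1987), (52, 9113), (63, 18), (68, 6), (81, 6)]), (3, [(31, 476), (45, 485), (54, 63), (73, 2)]), (3, [(30, 7), (42, 967), (54, 46),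 (72, 2)]), (3, [(30, 12), (42, 867), (47, 22), (54, 190), (72, 3)]), (3, [(48, 909), (54, 24), (55, 145), (73, 3)]), (1, [(30, 10), (54, 1), (72, 1)]), (0, [(54, 5)]), (3, [(30, 351), (52, 856), (63, 4)]), (2, [(30, 27), (52, 87), (63, 1)]), (3, [(30, 1196), (63, 3)]), (1, [(30, 10), (61, 1), (81, 1)]), (1, [(30, 5), (54, 5), (61, 2), (81, 1)]), (0, [(55, 7)]), (0, [(55, 5)]), (3, [(30, 200), (52, 985), (63, 1), (68, 4)]), (0, [(0, 1), (63, 1)]), (4, [(0, 634), (4, 6145), (15, 3480), (63, 4), (72, 17)]), (4, [(0, 629), (4, 3121), (15, 6503), (63, 13), (72, 15)]), (4, [(0, 564), (4, 4165), (15, 5497), (63, 12), (72, 11)]), (3, [(0, 70), (4, 337), (15, 622), (72, 2)]), (4, [(0, 497), (4, 3663), (15, 6037), (63, 10), (72, 8)]), (4, [(0, 251), (4, 2627), (15, 7126), (20, 2), (72, 15)]), (5, [(0, 3618), (4, 35061), (15, 62695), (63, 87), (72, 46)]), (4, [(0, 350), (4, 9877), (64, 8), (72, 13)]), (5, [(0, 1281),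 (4, 31675), (15, 67330), (20, 23), (72, 83)]), (4, [(0, 656), (4, 1854), (15, 7749), (20, 27), (72, 23)]), (4, [(0, 725), (4, 2940), (15, 6644), (63, 19), (72, 6)]), (3, [(0, 123), (4, 254), (15, 679), (63, 2), (72, 2)]), (3, [(13, 42), (17, 933), (20, 72), (72, 1)]), (4, [(0, 674), (4, 2242), (15, 7393), (63, 14), (72, 3)]), (4, [(0, 358), (4, 2377), (15, 7385), (20, 20), (72, 16)]), (3, [(0, 64), (4, 145), (15, 817), (72, 3)]), (3, [(0, 125), (4, 92), (15, 839), (63, 1), (72, 4)]), (2, [(17, 101)]), (3, [(0, 25), (4, 143), (15, 833), (63, 2)]), (4, [(0, 152), (7, 9006), (23, 997), (63, 34)]), (4, [(0, 166), (7, 3936), (23, 6071), (63, 16), (81, 9)]), (3, [(0, 325), (24, 873), (63, 2)]), (3, [(18, 1001)]), (1, [(0, 10), (20, 1), (72, 1)]), (0, [(20, 5)]), (3, [(0, 18), (7, 845), (22, 139), (23, 21), (63, 2)]), (4, [(0, 493), (7, 3090), (20, 7), (23, 6631), (81, 29)]), (2, [(19, 32), (21, 69), (73, 1), (74,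 1)]), (1, [(0, 5), (20, 5), (25, 2), (81, 1)]), (2, [(19, 20), (21, 81), (73, 1), (74, 1)]), (1, [(0, 10), (25, 1), (81, 1)]), (4, [(0, 169), (7, 7429), (23, 2544), (63, 19), (81, 2)]), (0, [(63, 2)]), (1, [(68, 11)]), (2, [(63, 3), (64, 97), (72, 1)]), (2, [(63, 6), (64, 96), (72, 1)]), (2, [(63, 8), (64, 94), (72, 1)]), (0, [(63, 2)]), (3, [(67, 1001)]), (2, [(63, 13), (64, 93), (81, 1)]), (1, [(66, 7), (72, 5)]), (0, [(63, 2)]), (0, [(72, 2)]), (2, [(72, 101)]), (0, [(63, 2)]), (1, [(63, 11)]), (1, [(69, 8), (72, 3), (73, 2)]), (1, [(72, 11)]), (0, [(73, 2)]), (0, [(63, 2)]), (0, [(63, 2)]), (0, [(73, 2)])],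
  [(6, [(0, 3797), (4, 522325), (15, 473716), (63, 220), (72, 119)]), (3, [(30, 1), (42, 995), (54, 7), (72, 1)]), (4, [(47, 10001)]), (4, [(31, 1006), (42, 8971), (54, 64), (72, 4)]), (4, [(30, 3), (42, 9936), (54, 67), (72, 8)]), (4, [(30, 6), (42, 10012), (54, 67), (72, 13)]), (3, [(30, 206), (52, 907), (63, 3), (68, 1)]), (3, [(30, 123), (52, 944), (63, 1), (68, 2)]), (3, [(30, 165), (52, 924), (63, 2), (68, 2)]), (3, [(30, 186), (52, 915), (63, 2), (68, 2)]), (3, [(30, 211), (52, 983), (63, 3), (68, 2)]), (3, [(30, 1), (42, 1003), (54, 7), (72, 1)]), (3, [(47, 1001)]), (4, [(30, 8), (42, 10035), (54, 59), (72, 3)]), (4, [(30, 7), (42, 10058), (54, 64), (72, 8)]), (3, [(30, 1), (42, 301), (47, 708), (54, 4), (72, 2)]), (3, [(30, 1), (47, 902), (54, 3), (57, 108), (72, 2)]), (4, [(30, 16), (47, 7199), (54, 40), (57, 2915), (72, 25)]), (3, [(30, 206), (52, 906), (63, 2), (68, 3)]), (4, [(30, 1491), (52,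 9310), (63, 11), (68, 22), (81, 1)]), (3, [(30, 178), (52, 918), (63, 1), (68, 3)]), (4, [(30, 1924), (52, 9112), (63, 14), (68, 32), (81, 1)]), (3, [(30, 199), (52, 908), (63, 2), (68, 4)]), (3, [(30, 203), (52, 906), (63, 2), (68, 4)]), (4, [(0, 206), (4, 4180), (15, 5745), (63, 18), (72, 4)]), (5, [(0, 906), (4, 47086), (15, 52392), (63, 70), (72, 27)]), (5, [(0, 1311), (4, 40033), (15, 59075), (63, 134), (72, 33)]), (4, [(0, 157), (4, 3078), (15, 6834), (63, 21), (72, 3)]), (4, [(0, 169), (4, 1950), (15, 7875), (63, 29), (72, 3)]), (4, [(0, 371), (4, 4901), (15, 4851), (63, 12), (72, 11)]), (4, [(0, 208), (4, 5296), (15, 4561), (63, 6), (72, 3)]), (5, [(0, 2912), (4, 54553), (15, 43498), (63, 79), (72, 58)]), (4, [(0, 332), (4, 5968), (15, 3811), (63, 10), (72, 8)]), (3, [(0, 35), (4, 674), (15, 293), (63, 2), (72, 1)]), (3, [(0, 20), (4, 110), (15, 883), (63, 3)]), (4, [(0, 190), (4, 3435), (15, 6474),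 (63, 12), (72, 1)]), (5, [(0, 1704), (4, 17203), (15, 82245), (63, 205), (72, 17)]), (3, [(0, 17), (4, 36), (15, 960), (63, 3)]), (3, [(0, 15), (7, 893), (22, 67), (23, 41), (63, 3)]), (4, [(0, 161), (7, 7937), (23, 2084), (63, 31), (81, 2)]), (4, [(0, 168), (7, 6351), (23, 3682), (63, 30), (81, 5)]), (4, [(0, 380), (4, 8080), (15, 1780), (63, 3), (72, 12)]), (3, [(0, 26), (4, 690), (15, 300), (72, 1)]), (4, [(0, 320), (4, 8341), (15, 1445), (63, 1), (72, 11)]), (4, [(0, 352), (4, 9700), (15, 170), (63, 2), (72, 12)]), (4, [(0, 362), (4, 9756), (63, 3), (64, 4), (72, 13)]), (4, [(0, 369), (4, 9747), (63, 3), (64, 8), (72, 13)]), (2, [(68, 101)]), (2, [(63, 3), (64, 97), (72, 1)]), (0, [(30, 1), (63, 1)]), (4, [(30, 318), (52, 9874), (63, 4), (68, 17)]), (7, [(31, 9983517), (48, 82), (54, 14901), (72, 532), (73, 2065)]), (4, [(30, 1563), (52, 9288), (63, 21), (68, 11), (81, 2)]), (3, [(30, 206), (52, 905),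 (63, 1), (68, 5)]), (5, [(31, 99171), (54, 1152), (72, 3), (73, 77)]), (4, [(30, 903), (52, 9963), (63, 12), (68, 14), (81, 1)]), (4, [(30, 3654), (52, 8486), (63, 30), (68, 8), (81, 8)]), (4, [(31, 9843), (54, 242), (72, 11), (73, 3)]), (4, [(30, 5), (42, 9948), (54, 84), (72, 3)]), (4, [(30, 16), (42, 9934), (54, 96), (72, 8)]), (4, [(30, 37), (42, 9948), (54, 109), (72, 13)]), (3, [(30, 1), (42, 978), (54, 37), (72, 1)]), (3, [(30, 6), (42, 988), (54, 12), (72, 2)]), (2, [(57, 101)]), (4, [(30, 2143), (52, 9044), (63, 19), (68, 10), (81, 6)]), (4, [(31, 7854), (45, 1737), (54, 677), (55, 3), (73, 22)]), (3, [(30, 8), (42, 966), (54, 47), (72, 2)]), (3, [(30, 16), (42, 885), (54, 193), (72, 3)]), (2, [(48, 86), (54, 3), (55, 14), (73, 1)]), (1, [(30, 10), (54, 1), (72, 1)]), (0, [(54, 6)]), (3, [(30, 376), (52, 847), (63, 4)]), (2, [(30, 29), (52, 87), (63, 1)]), (3, [(30, 1196), (63, 4)]), (1, [(30, 10),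 (61, 1), (81, 1)]), (1, [(30, 5), (54, 5), (61, 2), (81, 1)]), (0, [(55, 7)]), (0, [(55, 6)]), (3, [(30, 201), (52, 908), (63, 1), (68, 4)]), (0, [(0, 1), (63, 1)]), (4, [(0, 686), (4, 7366), (15, 2230), (63, 6), (72, 18)]), (4, [(0, 682), (4, 4333), (15, 5262), (63, 15), (72, 16)]), (4, [(0, 611), (4, 5386), (15, 4249), (63, 13), (72, 12)]), (4, [(0, 760), (4, 4580), (15, 4981), (20, 3), (72, 22)]), (4, [(0, 540), (4, 4888), (15, 4787), (63, 12), (72, 9)]), (3, [(0, 27), (4, 386), (15, 587), (72, 2)]), (4, [(0, 393), (4, 4743), (15, 5013), (63, 10), (72, 5)]), (4, [(0, 378), (4, 9748), (64, 13), (72, 14)]), (5, [(0, 1414), (4, 44227), (15, 54671), (20, 16), (72, 106)]), (4, [(0, 712), (4, 3059), (15, 6513), (20, 27), (72, 26)]), (4, [(0, 786), (4, 4145), (15, 5407), (63, 21), (72, 7)]), (3, [(0, 133), (4, 371), (15, 557), (63, 3), (72, 2)]), (3, [(13, 78), (17, 936), (20, 80), (72, 1)]), (3, [(0, 73), (4,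 345), (15, 615), (63, 2)]), (4, [(0, 390), (4, 3607), (15, 6135), (20, 20), (72, 18)]), (3, [(0, 72), (4, 272), (15, 711), (72, 3)]), (3, [(0, 135), (4, 208), (15, 718), (63, 1), (72, 4)]), (2, [(17, 101)]), (3, [(0, 28), (4, 268), (15, 716), (63, 2)]), (4, [(0, 188), (7, 651), (15, 9324), (63, 41), (81, 5)]), (4, [(0, 177), (7, 5446), (23, 4563), (63, 26), (81, 6)]), (3, [(0, 348), (24, 849), (63, 3)]), (3, [(17, 76), (18, 858), (20, 148), (72, 1)]), (1, [(0, 10), (20, 1), (72, 1)]), (0, [(20, 6)]), (3, [(0, 22), (4, 40), (15, 951), (63, 3)]), (4, [(0, 533), (7, 4632), (20, 5), (23, 5075), (81, 38)]), (2, [(19, 30), (21, 71), (73, 1), (82, 1)]), (1, [(0, 5), (20, 5), (25, 2), (81, 1)]), (3, [(19, 225), (20, 2), (21, 969), (73, 4)]), (1, [(0, 10), (25, 1), (81, 1)]), (3, [(0, 18), (7, 892), (22, 2), (23, 104), (63, 3)]), (0, [(63, 2)]), (2, [(68, 101)]), (2, [(63, 3), (64, 97), (72, 1)]), (2, [(63, 7), (64,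 95), (72, 1)]), (2, [(63, 9), (64, 94), (72, 1)]), (0, [(63, 2)]), (3, [(67, 1001)]), (2, [(63, 13), (64, 93)]), (1, [(66, 7), (72, 5)]), (0, [(63, 2)]), (0, [(72, 2)]), (1, [(72, 11)]), (0, [(63, 2)]), (1, [(63, 11)]), (1, [(69, 8), (72, 3), (73, 2)]), (1, [(72, 11)]), (0, [(73, 2)]), (0, [(63, 2)]), (0, [(63, 2)]), (0, [(73, 2)])],
  [(6, [(0, 3995), (4, 648150), (15, 347631), (63, 362), (72, 198)]), (4, [(30, 11), (42, 9947), (54, 73), (72, 13)]), (4, [(31, 7747), (42, 2209), (54, 57), (72, 11)]), (3, [(31, 26), (42, 971), (54, 6), (72, 1)]), (4, [(30, 4), (42, 9985), (54, 67), (72, 13)]), (4, [(30, 7), (42, 10006), (54, 67), (72, 18)]), (3, [(30, 213), (52, 903), (63, 3), (68, 2)]), (4, [(30, 1275), (52, 9409), (63, 11), (68, 21)]), (3, [(30, 171), (52, 921), (63, 2), (68, 2)]), (3, [(30, 208), (52, 983), (63, 2), (68, 3)]), (3, [(30, 203), (52, 907), (63, 3), (68, 3)]), (4, [(30, 12), (42, 10022), (54,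 72), (72, 13)]), (4, [(30, 14), (42, 10004), (54, 46), (72, 3)]), (4, [(30, 9), (42, 10029), (54, 59), (72, 8)]), (4, [(30, 8), (42, 10052), (54, 64), (72, 13)]), (3, [(30, 1), (42, 994), (54, 6), (72, 2)]), (3, [(30, 1), (42, 264), (47, 747), (54, 4), (72, 3)]), (3, [(30, 1), (47, 892), (54, 3), (57, 120), (72, 3)]), (3, [(30, 213), (52, 902), (63, 2), (68, 3)]), (3, [(30, 155), (52, 928), (63, 1), (68, 3)]), (4, [(30, 1847), (52, 9144), (63, 13), (68, 32), (81, 1)]), (3, [(30, 199), (52, 908), (63, 2), (68, 4)]), (3, [(30, 206), (52, 904), (63, 2), (68, 4)]), (3, [(30, 210), (52, 902), (63, 2), (68, 5)]), (4, [(0, 213), (4, 5389), (15, 4463), (63, 19), (72, 5)]), (5, [(0, 945), (4, 59482), (15, 39733), (63, 85), (72, 36)]), (4, [(0, 137), (4, 5247), (15, 4658), (63, 15), (72, 4)]), (4, [(0, 164), (4, 4316), (15, 5589), (63, 22), (72, 4)]), (5, [(0, 1785), (4, 32041), (15, 67143), (63, 305), (72, 38)]), (4,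 [(0, 386), (4, 6127), (15, 3615), (63, 13), (72, 12)]), (4, [(0, 217), (4, 6538), (15, 3311), (63, 7), (72, 4)]), (5, [(0, 3026), (4, 66914), (15, 31049), (63, 94), (72, 67)]), (4, [(0, 345), (4, 7203), (15, 2566), (63, 11), (72, 9)]), (4, [(0, 365), (4, 8044), (15, 1711), (63, 13), (72, 11)]), (4, [(0, 209), (4, 2364), (15, 7685), (63, 28), (72, 3)]), (4, [(0, 198), (4, 4675), (15, 5227), (63, 13), (72, 2)]), (4, [(0, 179), (4, 2988), (15, 7059), (63, 22), (72, 2)]), (4, [(0, 179), (4, 1616), (15, 8479), (63, 30), (72, 2)]), (3, [(0, 18), (4, 32), (15, 983), (63, 4)]), (3, [(0, 16), (7, 944), (23, 59), (63, 4)]), (4, [(0, 169), (7, 7849), (23, 2190), (63, 40), (81, 3)]), (4, [(0, 390), (4, 9231), (15, 510), (63, 4), (72, 14)]), (5, [(0, 2728), (4, 80932), (15, 17198), (63, 4), (72, 124)]), (4, [(0, 336), (4, 9683), (15, 189), (63, 2), (72, 12)]), (4, [(0, 362), (4, 9756), (63, 3), (64, 4), (72, 13)]), (4,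 [(0, 377), (4, 9742), (63, 3), (64, 8), (72, 13)]), (5, [(0, 3835), (4, 97334), (63, 35), (64, 128), (72, 136)]), (2, [(68, 101)]), (2, [(63, 3), (64, 98), (72, 1)]), (0, [(30, 1), (63, 1)]), (4, [(30, 332), (52, 9861), (63, 4), (68, 22)]), (7, [(31, 9978415), (48, 160), (54, 14852), (72, 5704), (73, 2007)]), (3, [(30, 162), (52, 926), (63, 2), (68, 2)]), (2, [(30, 21), (52, 90), (68, 1)]), (5, [(31, 99102), (48, 1), (54, 1189), (72, 54), (73, 77)]), (4, [(30, 904), (52, 9577), (63, 12), (68, 18), (81, 1)]), (3, [(30, 377), (52, 844), (63, 3), (68, 1), (81, 1)]), (3, [(31, 983), (54, 25), (72, 2)]), (4, [(30, 6), (42, 9942), (54, 85), (72, 8)]), (4, [(30, 17), (42, 9927), (54, 97), (72, 13)]), (3, [(30, 4), (42, 989), (54, 11), (72, 2)]), (4, [(30, 11), (42, 9767), (54, 382), (72, 14)]), (4, [(30, 64), (42, 9868), (54, 127), (72, 24)]), (3, [(30, 82), (47, 577), (54, 3), (57, 401), (72, 1)]), (4, [(30, 2218),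 (52, 9008), (63, 21), (68, 15), (81, 7)]), (3, [(31, 958), (54, 70), (73, 3)]), (3, [(30, 9), (42, 964), (54, 48), (72, 3)]), (3, [(30, 17), (42, 883), (54, 198), (72, 4)]), (2, [(48, 91), (54, 3), (55, 16), (73, 1)]), (1, [(30, 10), (54, 1), (72, 1)]), (0, [(54, 7)]), (3, [(30, 389), (52, 842), (63, 4), (68, 1)]), (2, [(30, 30), (52, 87), (63, 1)]), (3, [(30, 1195), (63, 5)]), (1, [(30, 10), (61, 1), (81, 1)]), (1, [(30, 5), (54, 5), (61, 2), (81, 1)]), (0, [(55, 8)]), (0, [(55, 7)]), (3, [(30, 225), (52, 981), (63, 2), (68, 5)]), (0, [(0, 1), (63, 1)]), (4, [(0, 712), (4, 8580), (15, 1001), (63, 7), (72, 19)]), (4, [(0, 707), (4, 5534), (15, 4046), (63, 16), (72, 17)]), (4, [(0, 634), (4, 6597), (15, 3024), (63, 15), (72, 13)]), (3, [(0, 81), (4, 594), (15, 387), (72, 3)]), (3, [(0, 57), (4, 611), (15, 356), (63, 2), (72, 1)]), (3, [(0, 29), (4, 512), (15, 469), (72, 2)]), (4, [(0, 409), (4, 5968), (15,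 3777), (63, 12), (72, 6)]), (4, [(0, 393), (4, 9734), (63, 1), (64, 18), (72, 14)]), (4, [(0, 148), (4, 5666), (15, 4218), (20, 1), (72, 13)]), (4, [(0, 739), (4, 4251), (15, 5305), (20, 27), (72, 28)]), (4, [(0, 815), (4, 5339), (15, 4197), (63, 23), (72, 8)]), (3, [(0, 137), (4, 486), (15, 439), (63, 3), (72, 2)]), (3, [(13, 49), (17, 928), (20, 79), (72, 2)]), (3, [(0, 78), (4, 478), (15, 508), (63, 2)]), (3, [(0, 41), (4, 483), (15, 491), (20, 2), (72, 2)]), (4, [(0, 725), (4, 3846), (15, 5730), (63, 2), (72, 33)]), (3, [(0, 140), (4, 323), (15, 601), (63, 1), (72, 4)]), (4, [(17, 9511), (18, 453), (20, 187), (72, 5), (78, 1)]), (4, [(0, 290), (4, 3908), (15, 5926), (63, 19), (72, 3)]), (3, [(0, 20), (4, 116), (15, 880), (63, 5)]), (3, [(0, 18), (7, 694), (23, 308), (63, 4)]), (3, [(0, 359), (24, 837), (63, 3)]), (3, [(17, 45), (18, 887), (20, 152), (72, 2)]), (1, [(0, 10), (20, 1), (72, 1)]), (0, [(20,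 7)]), (4, [(0, 236), (4, 1647), (15, 8389), (63, 30), (72, 2)]), (3, [(0, 55), (7, 615), (23, 355), (81, 5)]), (2, [(19, 29), (21, 71), (73, 1), (82, 1)]), (1, [(0, 5), (20, 5), (25, 2), (81, 1)]), (3, [(19, 220), (20, 3), (21, 973), (73, 4)]), (1, [(0, 10), (25, 1), (81, 1)]), (3, [(0, 20), (7, 185), (15, 811), (63, 4)]), (0, [(63, 2)]), (2, [(68, 101)]), (2, [(63, 3), (64, 97), (72, 1)]), (2, [(63, 7), (64, 95), (72, 1)]), (2, [(63, 9), (64, 93), (72, 1)]), (0, [(63, 2)]), (3, [(67, 1001)]), (2, [(63, 14), (64, 92)]), (1, [(65, 4), (66, 3), (72, 5)]), (0, [(63, 2)]), (0, [(72, 2)]), (1, [(72, 11)]), (0, [(63, 2)]), (1, [(63, 11)]), (1, [(69, 7), (72, 3), (73, 2)]), (1, [(72, 11)]), (0, [(73, 2)]), (0, [(63, 2)]), (0, [(63, 2)]), (0, [(73, 2)])],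
  [(6, [(0, 4065), (4, 778410), (15, 216951), (63, 493), (72, 278)]), (3, [(30, 1), (42, 994), (54, 7), (72, 2)]), (5, [(31, 77454), (42, 22060), (48, 2), (54, 566), (72, 158)]), (4, [(31, 148), (42, 9821), (54, 65), (72, 13)]), (4, [(30, 4), (42, 9981), (54, 68), (72, 18)]), (4, [(30, 7), (42, 10001), (54, 67), (72, 24)]), (3, [(30, 216), (52, 901), (63, 3), (68, 2)]), (3, [(30, 130), (52, 939), (63, 1), (68, 3)]), (3, [(30, 174), (52, 919), (63, 2), (68, 3)]), (3, [(30, 196), (52, 910), (63, 2), (68, 3)]), (3, [(30, 206), (52, 905), (63, 3), (68, 3)]), (3, [(30, 1), (42, 1002), (54, 7), (72, 2)]), (3, [(30, 1), (42, 1000), (54, 4), (72, 1)]), (4, [(30, 9), (42, 10024), (54, 59), (72, 13)]), (4, [(30, 8), (42, 10047), (54, 64), (72, 18)]), (4, [(30, 9), (42, 10072), (54, 65), (72, 24)]), (3, [(30, 1), (42, 1009), (47, 1), (54, 6), (72, 3)]), (3, [(30, 1), (42, 230), (47, 766), (54, 4), (72, 4)]), (3, [(30,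 217), (52, 900), (63, 2), (68, 3)]), (4, [(30, 1572), (52, 9264), (63, 13), (68, 31), (81, 1)]), (3, [(30, 188), (52, 913), (63, 1), (68, 4)]), (3, [(30, 203), (52, 906), (63, 2), (68, 4)]), (3, [(30, 210), (52, 902), (63, 2), (68, 5)]), (3, [(30, 213), (52, 900), (63, 2), (68, 5)]), (4, [(0, 217), (4, 6672), (15, 3175), (63, 20), (72, 6)]), (5, [(0, 962), (4, 72438), (15, 26743), (63, 97), (72, 44)]), (4, [(0, 139), (4, 6536), (15, 3365), (63, 16), (72, 5)]), (4, [(0, 167), (4, 5600), (15, 4301), (63, 24), (72, 5)]), (4, [(0, 183), (4, 4530), (15, 5487), (63, 32), (72, 4)]), (4, [(0, 392), (4, 7399), (15, 2337), (63, 15), (72, 13)]), (5, [(0, 2206), (4, 78275), (15, 20178), (63, 84), (72, 49)]), (5, [(0, 3080), (4, 79740), (15, 18173), (63, 107), (72, 76)]), (3, [(0, 35), (4, 840), (15, 127), (63, 2), (72, 1)]), (4, [(0, 372), (4, 9328), (15, 421), (63, 14), (72, 12)]), (4, [(0, 211), (4, 3609), (15, 6310),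 (63, 29), (72, 4)]), (4, [(0, 202), (4, 5961), (15, 3938), (63, 15), (72, 3)]), (4, [(0, 183), (4, 4283), (15, 5762), (63, 24), (72, 3)]), (4, [(0, 181), (4, 2870), (15, 7087), (63, 32), (72, 3)]), (4, [(0, 184), (4, 1582), (15, 8398), (63, 41), (72, 3)]), (4, [(0, 186), (4, 285), (15, 9719), (63, 49), (72, 2)]), (3, [(0, 17), (7, 940), (23, 65), (63, 5)]), (4, [(0, 398), (4, 9733), (63, 5), (64, 3), (72, 14)]), (4, [(0, 278), (4, 9386), (15, 422), (63, 2), (72, 13)]), (4, [(0, 339), (4, 9769), (63, 3), (64, 4), (72, 13)]), (4, [(0, 369), (4, 9747), (63, 3), (64, 8), (72, 13)]), (5, [(0, 3835), (4, 97334), (63, 35), (64, 128), (72, 136)]), (4, [(0, 391), (4, 9724), (63, 4), (64, 17), (72, 14)]), (2, [(68, 101)]), (2, [(63, 4), (64, 97), (72, 1)]), (0, [(30, 1), (63, 1)]), (4, [(30, 339), (52, 9852), (63, 4), (68, 27)]), (6, [(31, 997460), (48, 24), (54, 1354), (72, 1078), (73, 204)]), (4, [(30, 1647), (52,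 9240), (63, 22), (68, 20), (81, 2)]), (2, [(30, 22), (52, 90), (68, 1)]), (4, [(31, 9940), (54, 120), (72, 10), (73, 8)]), (4, [(30, 921), (52, 9565), (63, 13), (68, 23), (81, 2)]), (3, [(30, 383), (52, 842), (63, 3), (68, 2), (81, 1)]), (4, [(31, 9828), (54, 253), (72, 21), (73, 3)]), (4, [(30, 6), (42, 9937), (54, 85), (72, 13)]), (4, [(30, 18), (42, 9968), (54, 99), (72, 19)]), (4, [(30, 40), (42, 9888), (54, 112), (72, 24)]), (3, [(30, 1), (42, 976), (54, 39), (72, 2)]), (3, [(30, 6), (42, 980), (54, 13), (72, 3)]), (3, [(30, 83), (47, 748), (54, 2), (57, 231), (72, 2)]), (4, [(30, 2255), (52, 8988), (63, 22), (68, 19), (81, 7)]), (3, [(31, 957), (54, 71), (73, 3)]), (3, [(30, 9), (42, 963), (54, 49), (72, 3)]), (3, [(30, 17), (42, 880), (54, 203), (72, 4)]), (2, [(48, 91), (54, 3), (55, 16), (73, 1)]), (1, [(30, 10), (54, 1), (72, 1)]), (0, [(54, 8)]), (2, [(30, 46), (52, 97), (63, 1)]), (2, [(30, 31),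 (52, 87), (63, 1)]), (2, [(30, 119), (63, 1)]), (1, [(30, 10), (61, 1), (81, 1)]), (1, [(30, 5), (54, 5), (61, 1), (81, 1)]), (0, [(55, 9)]), (0, [(55, 7)]), (3, [(30, 211), (52, 903), (63, 2), (68, 5)]), (0, [(0, 1), (63, 1)]), (3, [(0, 72), (4, 957), (63, 1), (72, 2)]), (4, [(0, 720), (4, 6780), (15, 2792), (63, 17), (72, 18)]), (3, [(0, 65), (4, 785), (15, 176), (63, 2), (72, 1)]), (3, [(0, 80), (4, 702), (15, 252), (72, 3)]), (3, [(0, 57), (4, 736), (15, 229), (63, 2), (72, 1)]), (4, [(0, 293), (4, 6394), (15, 3407), (72, 22)]), (4, [(0, 416), (4, 7240), (15, 2500), (63, 13), (72, 7)]), (5, [(0, 3999), (4, 97252), (63, 9), (64, 224), (72, 146)]), (4, [(0, 151), (4, 6954), (15, 2925), (72, 15)]), (3, [(0, 75), (4, 548), (15, 406), (20, 2), (72, 3)]), (4, [(0, 829), (4, 6578), (15, 2949), (63, 25), (72, 9)]), (3, [(0, 140), (4, 606), (15, 318), (63, 3), (72, 2)]), (3, [(13, 17), (17, 1008), (20, 84), (72,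 3)]), (4, [(0, 771), (4, 5893), (15, 3687), (63, 19), (72, 5)]), (4, [(0, 413), (4, 6089), (15, 3637), (20, 20), (72, 23)]), (4, [(0, 737), (4, 5083), (15, 4485), (63, 3), (72, 34)]), (3, [(0, 143), (4, 442), (15, 481), (63, 1), (72, 4)]), (3, [(17, 942), (18, 55), (20, 19), (72, 1)]), (4, [(0, 295), (4, 5180), (15, 4650), (63, 21), (72, 4)]), (4, [(0, 200), (4, 2436), (15, 7526), (63, 48), (72, 3)]), (3, [(0, 18), (7, 848), (23, 154), (63, 5)]), (3, [(0, 365), (24, 831), (63, 4)]), (3, [(17, 14), (18, 918), (20, 155), (72, 2)]), (1, [(0, 10), (20, 1), (72, 1)]), (0, [(20, 8)]), (4, [(0, 238), (4, 2893), (15, 7006), (63, 32), (72, 3)]), (3, [(0, 56), (7, 773), (23, 198), (81, 6)]), (2, [(19, 29), (21, 72), (73, 1), (82, 1)]), (1, [(0, 5), (20, 5), (25, 1), (81, 1)]), (2, [(19, 22), (21, 98), (73, 1)]), (1, [(0, 10), (25, 1), (81, 1)]), (4, [(0, 208), (4, 1126), (15, 8662), (63, 41), (72, 3)]), (0, [(63, 2)]),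 (2, [(68, 101)]), (2, [(63, 4), (64, 97), (72, 1)]), (2, [(63, 7), (64, 95), (72, 1)]), (2, [(63, 9), (64, 93), (72, 1)]), (0, [(63, 2)]), (3, [(67, 1001)]), (2, [(63, 14), (64, 92)]), (1, [(65, 7), (72, 5)]), (0, [(63, 2)]), (0, [(72, 2)]), (1, [(72, 11)]), (0, [(63, 2)]), (1, [(63, 11)]), (1, [(69, 6), (72, 3), (73, 2)]), (1, [(72, 11)]), (0, [(73, 2)]), (0, [(63, 2)]), (0, [(63, 2)]), (0, [(73, 2)])],
  [(4, [(63, 26), (64, 9914), (72, 9), (81, 61)]), (3, [(66, 980), (72, 18), (73, 1), (80, 10)]), (3, [(66, 990), (72, 6), (73, 2), (80, 6)]), (2, [(66, 99), (72, 1), (80, 1)]), (2, [(67, 99), (72, 1), (80, 1)]), (2, [(67, 99), (72, 1), (80, 1)]), (2, [(68, 101)]), (1, [(68, 11)]), (1, [(68, 11)]), (2, [(68, 101)]), (2, [(68, 101)]), (2, [(67, 98), (72, 1), (80, 1)]), (3, [(67, 987), (72, 15), (80, 7)]), (2, [(67, 99), (72, 1), (80, 1)]), (2, [(67, 99), (72, 1), (80, 1)]), (2, [(67, 99), (72, 1), (80, 1)]),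 (2, [(67, 99), (72, 1), (80, 1)]), (2, [(67, 99), (72, 1), (80, 1)]), (2, [(68, 101)]), (1, [(68, 11)]), (2, [(68, 101)]), (2, [(68, 101)]), (2, [(68, 101)]), (2, [(68, 101)]), (2, [(63, 2), (64, 98), (81, 1)]), (3, [(63, 7), (64, 985), (72, 1), (81, 10)]), (3, [(63, 11), (64, 981), (81, 15)]), (3, [(63, 14), (64, 978), (81, 16)]), (3, [(63, 16), (64, 976), (81, 17)]), (2, [(63, 3), (64, 98)]), (2, [(63, 2), (64, 98), (81, 1)]), (2, [(63, 3), (64, 98)]), (2, [(63, 3), (64, 98)]), (2, [(63, 3), (64, 98)]), (3, [(63, 18), (64, 974), (81, 17)]), (3, [(63, 19), (64, 980), (81, 11)]), (3, [(63, 16), (64, 978), (81, 14)]), (3, [(63, 16), (64, 977), (68, 1), (81, 16)]), (3, [(63, 17), (64, 975), (81, 16)]), (3, [(63, 18), (64, 975), (68, 1), (81, 17)]), (3, [(63, 18), (64, 974), (68, 1), (81, 17)]), (2, [(63, 4), (64, 97), (72, 1)]), (2, [(63, 2), (64, 98), (72, 1)]), (2, [(63, 3), (64, 97), (72, 1)]), (2, [(63,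 3), (64, 97), (72, 1)]), (2, [(63, 3), (64, 98), (72, 1)]), (2, [(63, 4), (64, 97), (72, 1)]), (1, [(63, 1), (64, 4), (68, 5)]), (2, [(64, 47), (70, 47), (72, 8)]), (0, [(63, 1)]), (1, [(68, 11)]), (3, [(66, 996), (72, 1), (73, 2), (80, 2)]), (2, [(68, 101)]), (2, [(68, 101)]), (3, [(66, 980), (72, 9), (73, 11), (80, 8)]), (2, [(68, 101)]), (2, [(68, 101)]), (2, [(66, 97), (72, 2), (73, 1), (80, 1)]), (3, [(66, 980), (72, 16), (73, 2), (80, 10)]), (2, [(66, 98), (72, 2), (80, 1)]), (2, [(66, 97), (72, 4), (80, 1)]), (2, [(66, 95), (72, 4), (73, 1), (80, 1)]), (2, [(66, 95), (72, 5), (80, 2)]), (2, [(63, 7), (70, 92), (72, 11)]), (2, [(68, 101)]), (2, [(66, 92), (72, 6), (73, 6), (80, 2)]), (2, [(66, 92), (72, 10), (73, 2), (80, 2)]), (1, [(66, 8), (72, 3), (73, 1)]), (1, [(74, 11)]), (0, [(63, 2)]), (0, [(72, 2)]), (2, [(68, 101)]), (2, [(68, 101)]), (0, [(63, 2)]), (0, [(63, 2)]), (0, [(72, 2)]), (0, [(73,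 2)]), (0, [(73, 2)]), (2, [(68, 101)]), (0, [(63, 1)]), (2, [(63, 7), (64, 95), (72, 1)]), (2, [(63, 7), (64, 95), (72, 1), (81, 1)]), (2, [(63, 6), (64, 95), (72, 1)]), (2, [(63, 8), (64, 94), (72, 2), (81, 1)]), (2, [(63, 5), (64, 97)]), (2, [(63, 2), (64, 97), (72, 1), (81, 2)]), (2, [(63, 4), (64, 97), (81, 1)]), (2, [(63, 4), (64, 97), (72, 1)]), (2, [(63, 1), (64, 98), (72, 1), (81, 1)]), (2, [(63, 6), (64, 92), (72, 6), (81, 2)]), (2, [(63, 8), (64, 94), (81, 1)]), (2, [(63, 14), (64, 91), (72, 1), (81, 1)]), (2, [(71, 101)]), (2, [(63, 7), (64, 94), (81, 1)]), (2, [(63, 3), (64, 95), (72, 4), (81, 2)]), (2, [(63, 7), (64, 93), (72, 2), (81, 2)]), (2, [(63, 13), (64, 89), (72, 2), (81, 2)]), (2, [(69, 94), (73, 9)]), (3, [(63, 28), (64, 970), (81, 14)]), (3, [(63, 19), (64, 976), (68, 1), (81, 17)]), (3, [(63, 19), (64, 970), (68, 1), (81, 17)]), (1, [(75, 11)]), (2, [(71, 101)]), (0, [(63, 2)]), (0,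 [(72, 2)]), (3, [(63, 22), (64, 971), (68, 1), (81, 16)]), (2, [(63, 4), (64, 92), (81, 6)]), (0, [(73, 2)]), (0, [(72, 2)]), (0, [(73, 2)]), (0, [(63, 2)]), (3, [(63, 20), (64, 971), (68, 1), (81, 16)]), (0, [(63, 1)]), (1, [(63, 1), (64, 4), (68, 5)]), (2, [(64, 47), (70, 47), (72, 8)]), (2, [(63, 2), (64, 47), (70, 47), (72, 11)]), (2, [(63, 3), (64, 46), (70, 46), (72, 12)]), (0, [(63, 1)]), (2, [(65, 47), (69, 46), (72, 7), (73, 7)]), (2, [(63, 7), (64, 47), (70, 46), (72, 6)]), (1, [(65, 3), (69, 3), (72, 2), (73, 3)]), (0, [(63, 1)]), (0, [(72, 2)]), (0, [(73, 2)]), (0, [(63, 1)]), (0, [(72, 1)]), (1, [(73, 11)]), (0, [(73, 1)]), (0, [(73, 2)]), (0, [(72, 2)]), (0, [(63, 1)]), (0, [(73, 2)])]]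

set_option maxRecDepth 100000 in
theorem okEG : chkRect LD LG LE cEG = true := by decide +kernel

end Pool.Agent.Lib.MP_dbb03c_co.Full
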