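import Pool.Agent.Lib.MP_dbb03c_co.Full.Data

/-! # Certificate data (generated) -/

namespace Pool.Agent.Lib.MP_dbb03c_co.Full

set_option maxRecDepth 100000 in
def cPq1 : List Ct := [
  (0, [(0, 1)])]

set_option maxRecDepth 100000 in
theorem okPq1 : chkPs Lq2 Lq1 cPq1 = true := by decide +kernel

set_option maxRecDepth 100000 in
def cPq2 : List Ct := [
  (0, [(7, 1)])]

set_option maxRecDepth 100000 in
theorem okPq2 : chkPs LQ Lq2 cPq2 = true := by decide +kernel

set_option maxRecDepth 100000 in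
def cPQ : List Ct := [
  (8, [(6, 99974419), (12, 25582)]),
  (0, [(8, 1)]),
  (0, [(9, 1)]),
  (0, [(10, 1)]),
  (0, [(11, 1)]),
  (6, [(6, 432254), (11, 566905), (12, 844)]),
  (8, [(0, 99974419), (12, 25582)]),
  (0, [(1, 1)]),
  (0, [(2, 1)]),
  (0, [(3, 1)]),
  (0, [(4, 1)]),
  (0, [(5, 1)]),
  (0, [(12, 1)])]

set_option maxRecDepth 100000 in
theorem okPQ : chkPs LQ LQ cPQ = true := by decide +kernel

set_option maxRecDepth 100000 in
def cPg : List Ct := [
  (0, [(1, 1)])]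

set_option maxRecDepth 100000 in
theorem okPg : chkPs LE Lg cPg = true := by decide +kernel

set_option maxRecDepth 100000 in
def cPE : List Ct := [
  (8, [(7, 99974419), (13, 25582)]),
  (0, [(8, 1)]),
  (0, [(9, 1)]),
  (0, [(10, 1)]),
  (0, [(11, 1)]),
  (0, [(12, 1)]),
  (6, [(7, 398894), (12, 600085), (13, 1023)]),
  (8, [(0, 99974419), (13, 25582)]),
  (0, [(2, 1)]),
  (0, [(3, 1)]),
  (0, [(4, 1)]),
  (0, [(5, 1)]),
  (0, [(6, 1)]),
  (0, [(13, 1)])]

set_option maxRecDepth 100000 in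
theorem okPE : chkPs LE LE cPE = true := by decide +kernel

set_option maxRecDepth 100000 in
def cPMUD : List Ct := [
  (6, [(37, 675045), (43, 324521), (59, 336), (62, 433), (65, 102)]),
  (6, [(37, 664540), (42, 318862), (43, 16636), (59, 134), (63, 18)]),
  (6, [(31, 5), (37, 826117), (43, 174464), (59, 581), (65, 86)]),
  (6, [(34, 66765), (37, 934310), (59, 1277), (60, 60), (65, 167)]),
  (5, [(34, 34721), (37, 65735), (59, 168), (60, 8), (65, 10)]),
  (6, [(32, 3953), (35, 176159), (40, 818871), (60, 1373)]),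
  (6, [(32, 2591), (35, 821613), (40, 175531), (60, 423)]),
  (6, [(32, 3489), (35, 586107), (40, 409832), (60, 815)]),
  (5, [(32, 360), (35, 35610), (40, 63940), (60, 121)]),
  (6, [(32, 3357), (35, 145366), (40, 850039), (60, 1612)]),
  (5, [(31, 48), (34, 55751), (37, 44807), (59, 111), (60, 14)]),
  (6, [(31, 308), (34, 314724), (37, 686156), (59, 207), (60, 144)]),
  (5, [(31, 52), (34, 59143), (37, 41062), (59, 61), (60, 11)]),
  (3, [(36, 1001)]),
  (5, [(31, 59), (34, 70194), (45, 30136), (59, 128), (60, 10)]),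
  (3, [(34, 155), (45, 853), (59, 2)]),
  (3, [(45, 454), (52, 549), (59, 2)]),
  (4, [(32, 39), (40, 9949), (60, 8), (61, 5)]),
  (6, [(32, 1964), (35, 35538), (40, 962070), (60, 532)]),
  (6, [(32, 2836), (40, 996260), (60, 787), (61, 239)]),
  (6, [(32, 3370), (40, 995222), (60, 793), (61, 745)]),
  (5, [(32, 365), (40, 99432), (60, 76), (61, 129)]),
  (6, [(32, 3806), (40, 993773), (60, 725), (61, 1834)]),
  (0, [(10, 1)]),
  (0, [(1, 1)]),
  (6, [(1, 628923), (10, 364838), (19, 6286), (59, 4), (61, 107)]),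
  (6, [(1, 398620), (10, 601216), (59, 4), (60, 12), (61, 392)]),
  (7, [(1, 2948156), (10, 7046574), (59, 47), (60, 509), (61, 7579)]),
  (0, [(9, 1)]),
  (0, [(3, 1)]),
  (0, [(5, 1)]),
  (0, [(7, 1)]),
  (0, [(8, 1)]),
  (5, [(1, 73810), (18, 26317), (59, 4), (60, 38), (61, 61)]),
  (2, [(1, 52), (18, 48)]),
  (5, [(1, 58889), (18, 41237), (59, 3), (61, 48)]),
  (6, [(1, 621212), (18, 379945), (59, 39), (60, 66), (61, 920)]),
  (5, [(1, 65605), (18, 34474), (59, 4), (60, 16), (61, 134)]),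
  (5, [(1, 67546), (18, 32680), (59, 4), (60, 22), (61, 179)]),
  (5, [(1, 68513), (18, 31668), (59, 4), (60, 26), (61, 226)]),
  (0, [(6, 1)]),
  (0, [(4, 1)]),
  (6, [(3, 36542), (4, 241645), (6, 629755), (17, 3), (24, 92056)]),
  (5, [(2, 11736), (6, 88250), (58, 17)]),
  (8, [(2, 7021669), (6, 92907100), (17, 239), (58, 71337)]),
  (5, [(2, 3815), (6, 96061), (58, 125)]),
  (0, [(61, 1)]),
  (5, [(58, 99617), (59, 25), (62, 189), (65, 175)]),
  (0, [(32, 1)]),
  (0, [(34, 1)]),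
  (8, [(33, 99974426), (58, 25581)]),
  (4, [(34, 10001)]),
  (0, [(45, 1)]),
  (6, [(31, 278), (34, 254162), (45, 746032), (59, 32), (60, 98)]),
  (3, [(54, 1001)]),
  (6, [(31, 328), (45, 345712), (52, 654645), (59, 29), (60, 149)]),
  (5, [(31, 36), (32, 2), (33, 48535), (52, 51514), (60, 14)]),
  (5, [(31, 40), (32, 7), (33, 22878), (52, 77170), (60, 8)]),
  (0, [(36, 1)]),
  (4, [(31, 173), (32, 4961), (40, 2443), (46, 2434)]),
  (3, [(39, 1001)]),
  (4, [(33, 3223), (39, 3444), (48, 3335)]),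
  (0, [(44, 1)]),
  (0, [(45, 1)]),
  (0, [(46, 1)]),
  (3, [(32, 5), (40, 999)]),
  (0, [(47, 1)]),
  (6, [(41, 995092), (53, 4681), (58, 261)]),
  (5, [(31, 5), (32, 595), (33, 54), (40, 99489), (58, 52)]),
  (6, [(33, 1447), (48, 998310), (58, 257)]),
  (0, [(50, 1)]),
  (0, [(46, 2)]),
  (0, [(52, 1)]),
  (7, [(31, 101), (35, 467), (45, 131736), (46, 4931662), (52, 4936049)]),
  (5, [(48, 533), (53, 99443), (58, 26)]),
  (0, [(54, 1)]),
  (0, [(55, 1)]),
  (0, [(56, 1)]),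
  (0, [(57, 1)]),
  (0, [(14, 1)]),
  (0, [(11, 1)]),
  (8, [(2, 99974426), (58, 25581)]),
  (0, [(15, 1)]),
  (0, [(17, 1)]),
  (4, [(1, 986), (2, 3525), (10, 5497), (58, 3)]),
  (0, [(18, 1)]),
  (3, [(13, 1001)]),
  (4, [(2, 3223), (13, 3444), (21, 3335)]),
  (0, [(20, 1)]),
  (6, [(19, 995092), (26, 4682), (58, 261)]),
  (3, [(10, 1001)]),
  (3, [(13, 1001)]),
  (0, [(18, 2)]),
  (0, [(24, 1)]),
  (0, [(25, 1)]),
  (5, [(1, 42043), (18, 47443), (26, 10801), (60, 12), (61, 3)]),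
  (6, [(2, 1446), (21, 998310), (58, 257)]),
  (1, [(6, 7), (11, 4), (23, 1)]),
  (3, [(14, 177), (18, 107), (22, 875), (64, 1)]),
  (3, [(0, 959), (11, 40), (62, 2)]),
  (0, [(27, 1)]),
  (5, [(21, 533), (26, 99443), (58, 26)]),
  (0, [(28, 1)]),
  (0, [(29, 1)]),
  (0, [(30, 1)]),
  (7, [(2, 2881356), (30, 7110582), (58, 8066)]),
  (0, [(58, 1)]),
  (0, [(60, 1)]),
  (0, [(62, 1)]),
  (0, [(63, 1)]),
  (3, [(58, 246), (59, 17), (60, 493), (61, 248)]),
  (3, [(58, 2), (60, 3), (61, 996)]),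
  (0, [(66, 1)]),
  (1, [(58, 8), (59, 1), (62, 2), (65, 1)]),
  (1, [(60, 1), (61, 4), (64, 5)]),
  (0, [(59, 1)]),
  (0, [(32, 1)]),
  (0, [(35, 1)]),
  (0, [(37, 1)]),
  (5, [(32, 250), (40, 99715), (58, 4), (61, 48)]),
  (5, [(32, 415), (40, 99409), (60, 34), (61, 248)]),
  (4, [(31, 20), (37, 4948), (42, 5033), (44, 4)]),
  (0, [(40, 1)]),
  (5, [(31, 2), (32, 1084), (40, 99157), (58, 59), (61, 45)]),
  (3, [(31, 2), (42, 990), (43, 8), (44, 1)]),
  (0, [(42, 1)]),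
  (6, [(31, 119), (37, 337947), (42, 53661), (43, 608570), (59, 236)]),
  (0, [(43, 1)]),
  (3, [(31, 2), (42, 482), (43, 514), (44, 3)]),
  (7, [(31, 2355), (43, 9993029), (44, 529), (62, 1519), (65, 3607)]),
  (0, [(45, 1)]),
  (6, [(31, 15), (32, 4685), (40, 995994), (58, 402), (61, 115)]),
  (3, [(31, 11), (42, 444), (43, 542), (44, 6)]),
  (5, [(31, 99), (43, 98962), (44, 1005), (62, 52), (66, 3)]),
  (4, [(31, 105), (43, 9564), (44, 441), (62, 8), (66, 4)]),
  (4, [(31, 5696), (37, 5), (50, 4968), (59, 13)]),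
  (0, [(49, 1)]),
  (0, [(44, 2)]),
  (5, [(32, 1132), (40, 99276), (58, 1), (61, 102)]),
  (4, [(32, 61), (35, 363), (40, 9659), (60, 31)]),
  (0, [(51, 1)]),
  (1, [(32, 5), (33, 2), (40, 4)]),
  (0, [(46, 2)]),
  (3, [(31, 1196), (59, 4)]),
  (3, [(31, 996), (44, 2), (50, 1), (62, 3)]),
  (5, [(32, 399), (40, 99501), (60, 26), (61, 179)]),
  (0, [(14, 1)]),
  (6, [(0, 6), (6, 998750), (14, 765), (23, 364), (65, 514)]),
  (6, [(0, 44), (6, 997950), (9, 1141), (14, 766), (60, 514)]),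
  (6, [(0, 5), (6, 310344), (9, 689154), (14, 663), (60, 258)]),
  (4, [(6, 9986), (14, 4), (23, 18)]),
  (4, [(5, 4427), (9, 5568), (14, 6), (60, 1)]),
  (0, [(4, 1)]),
  (4, [(3, 3738), (5, 6258), (14, 3), (60, 2)]),
  (3, [(6, 999), (58, 2)]),
  (0, [(16, 1)]),
  (3, [(6, 999), (23, 2)]),
  (5, [(0, 1), (5, 86167), (9, 13641), (14, 114), (60, 92)]),
  (6, [(0, 50), (6, 995810), (14, 2856), (60, 355), (65, 1186)]),
  (4, [(0, 208), (11, 99), (17, 1892), (20, 7932), (62, 12)]),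
  (6, [(0, 19), (3, 766051), (14, 1406), (18, 232445), (60, 513)]),
  (3, [(6, 1001)]),
  (5, [(0, 6), (6, 99915), (14, 23), (23, 175), (65, 26)]),
  (5, [(0, 7), (6, 99511), (14, 202), (23, 240), (65, 129)]),
  (5, [(0, 1912), (11, 165), (17, 98572), (62, 54)]),
  (6, [(1, 429426), (18, 570288), (59, 42), (60, 441), (61, 29)]),
  (4, [(10, 9894), (19, 109), (61, 15)]),
  (7, [(1, 5417830), (18, 4557612), (59, 526), (60, 1279), (61, 23748)]),
  (0, [(22, 1)]),
  (3, [(0, 90), (11, 24), (17, 928), (62, 2)]),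
  (0, [(23, 1)]),
  (0, [(11, 2)]),
  (6, [(1, 480501), (18, 518561), (59, 48), (60, 215), (61, 760)]),
  (5, [(5, 5676), (7, 95046), (58, 48), (59, 28), (60, 133)]),
  (3, [(0, 998), (17, 1), (59, 1), (62, 2)]),
  (1, [(0, 1), (6, 4), (11, 6), (23, 2), (65, 1)]),
  (3, [(0, 993), (11, 6), (17, 1), (62, 3)]),
  (0, [(18, 2)]),
  (7, [(1, 5067687), (18, 4917531), (59, 507), (60, 1360), (61, 13473)]),
  (0, [(60, 1)]),
  (0, [(61, 1)]),
  (4, [(58, 9967), (59, 2), (62, 18), (65, 17)]),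
  (3, [(58, 995), (62, 2), (65, 4)]),
  (3, [(58, 994), (62, 2), (65, 6)]),
  (0, [(64, 1)]),
  (2, [(59, 2), (62, 1), (63, 98)]),
  (3, [(58, 997), (59, 1), (60, 4)]),
  (2, [(59, 10), (62, 9), (63, 87)]),
  (0, [(65, 1)]),
  (1, [(62, 11)]),
  (1, [(59, 5), (62, 1), (66, 6)]),
  (0, [(67, 1)]),
  (2, [(62, 3), (63, 87), (65, 11)]),
  (1, [(59, 6), (66, 6)]),
  (1, [(59, 4), (62, 1), (66, 7)]),
  (0, [(59, 2)]),
  (2, [(62, 101)]),
  (1, [(58, 2), (60, 4), (61, 4)]),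
  (0, [(59, 2)])]

set_option maxRecDepth 100000 in
theorem okPMUD : chkPs LU (LM ++ (LU ++ LD)) cPMUD = true := by decide +kernel

set_option maxRecDepth 100000 in
def c11 : List (List Ct) := [
  [(0, [(1, 1)])]]

set_option maxRecDepth 100000 in
theorem ok11 : chkTri LD Lq1 c11 = true := by decide +kernel

set_option maxRecDepth 100000 in
def c22 : List (List Ct) := [
  [(0, [(2, 1)])]]

set_option maxRecDepth 100000 in
theorem ok22 : chkTri LD Lq2 c22 = true := by decide +kernel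

set_option maxRecDepth 100000 in
def c12 : List (List Ct) := [
  [(0, [(0, 1)])]]

set_option maxRecDepth 100000 in
theorem ok12 : chkRect Lg Lq2 Lq1 c12 = true := by decide +kernel

set_option maxRecDepth 100000 in
def cSL : List (List Ct) := [
  [(0, [(23, 1)]), (0, [(24, 1)]), (0, [(25, 1)]), (0, [(26, 1)]), (0, [(27, 1)]), (6, [(23, 388973), (27, 570595), (33, 39712), (46, 731)]), (0, [(5, 1)]), (0, [(6, 1)]), (0, [(7, 1)]), (0, [(8, 1)]), (0, [(9, 1)]), (6, [(5, 379182), (9, 583709), (17, 36498), (46, 618)]), (0, [(46, 1)]), (0, [(33, 1)]), (0, [(34, 1)]), (0, [(35, 1)]), (0, [(36, 1)]), (0, [(37, 1)]), (0, [(38, 1)]), (0, [(39, 1)]), (0, [(17, 1)]), (0, [(18, 1)]), (0, [(19, 1)]), (0, [(20, 1)]), (0, [(21, 1)]), (0, [(22, 1)]), (0, [(46, 1)])],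
  [(0, [(0, 1)]), (0, [(1, 1)]), (0, [(2, 1)]), (0, [(3, 1)]), (0, [(4, 1)]), (6, [(0, 388973), (4, 570595), (10, 39712), (47, 731)]), (0, [(28, 1)]), (0, [(29, 1)]), (0, [(30, 1)]), (0, [(31, 1)]), (0, [(32, 1)]), (6, [(28, 379182), (32, 583709), (40, 36498), (47, 618)]), (0, [(47, 1)]), (0, [(10, 1)]), (0, [(11, 1)]), (0, [(12, 1)]), (0, [(13, 1)]), (0, [(14, 1)]), (0, [(15, 1)]), (0, [(16, 1)]), (0, [(40, 1)]), (0, [(41, 1)]), (0, [(42, 1)]), (0, [(43, 1)]), (0, [(44, 1)]), (0, [(45, 1)]), (0, [(47, 1)])]]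

set_option maxRecDepth 100000 in
theorem okSL : chkRect LM (LQ ++ LE) (Lq1 ++ Lq2) cSL = true := by decide +kernel

set_option maxRecDepth 100000 in
def cLL : List (List Ct) := [
  [(5, [(11, 25511), (13, 68044), (17, 6553), (20, 2), (72, 64)]), (0, [(11, 1)]), (0, [(13, 1)]), (4, [(13, 9773), (17, 264), (67, 3), (72, 2)]), (5, [(13, 96198), (17, 3923), (67, 64), (72, 38)]), (5, [(13, 95512), (17, 4554), (67, 106), (72, 48)]), (0, [(42, 1)]), (0, [(41, 1)]), (6, [(30, 88), (41, 685128), (42, 315532), (48, 2), (63, 109)]), (6, [(41, 430959), (42, 569702), (48, 5), (63, 267), (65, 29)]), (4, [(41, 2566), (42, 7430), (63, 2), (65, 4)]), (3, [(41, 146), (42, 854), (65, 1)]), (3, [(66, 310), (67, 688), (72, 4)]), (4, [(13, 9510), (17, 518), (72, 5)]), (5, [(2, 27906), (13, 64970), (14, 7215), (65, 19), (72, 12)]), (4, [(10, 1112), (13, 8459), (14, 448), (70, 2)]), (4, [(13, 9886), (17, 148), (67, 1), (72, 4)]), (5, [(1, 2), (13, 96734),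 (17, 3363), (67, 56), (72, 47)]), (5, [(1, 2), (13, 95757), (17, 4282), (67, 102), (72, 52)]), (5, [(1, 2), (13, 95255), (17, 4729), (67, 149), (72, 55)]), (0, [(42, 1)]), (3, [(31, 482), (35, 153), (42, 366)]), (4, [(31, 2094), (41, 943), (42, 6973), (65, 1)]), (4, [(31, 324), (41, 1310), (42, 8372), (65, 5)]), (3, [(41, 94), (42, 906), (65, 1)]), (5, [(41, 5148), (42, 94735), (48, 2), (63, 2), (65, 133)]), (3, [(66, 310), (67, 688), (72, 4)])],
  [(0, [(9, 1)]), (0, [(10, 1)]), (5, [(10, 81729), (11, 840), (13, 17549), (65, 29), (73, 4)]), (5, [(10, 62525), (11, 14369), (13, 23192), (65, 68), (73, 3)]), (5, [(10, 47839), (11, 27798), (13, 24411), (65, 113), (73, 2)]), (0, [(32, 1)]), (0, [(37, 1)]), (0, [(35, 1)]), (0, [(33, 1)]), (6, [(31, 163398), (33, 828847), (42, 7448), (65, 184), (72, 276)]), (6, [(31, 273131), (33, 722416), (42, 3663), (65, 482), (72, 467)]), (0, [(66, 1)]), (0, [(11, 1)]), (5, [(2, 37010), (10, 58791), (14,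 4246), (70, 8)]), (5, [(1, 1), (2, 7156), (10, 90796), (14, 2137), (70, 12)]), (4, [(10, 8401), (13, 1510), (14, 98), (70, 4)]), (3, [(10, 701), (13, 296), (14, 3), (70, 1)]), (4, [(10, 6293), (13, 3697), (14, 13), (70, 12)]), (5, [(1, 1), (10, 59269), (13, 40660), (14, 56), (70, 163)]), (0, [(31, 1)]), (4, [(31, 6190), (35, 12), (37, 145), (39, 3656)]), (4, [(31, 7290), (37, 1346), (38, 572), (39, 793)]), (5, [(31, 75343), (35, 16340), (38, 8291), (65, 30)]), (5, [(31, 84346), (35, 14436), (38, 1133), (65, 87)]), (5, [(31, 90640), (35, 8687), (41, 539), (65, 135)]), (0, [(66, 1)])],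
  [(5, [(10, 63477), (13, 36137), (16, 535), (65, 14)]), (4, [(10, 3812), (13, 6151), (16, 52), (65, 4)]), (3, [(10, 219), (13, 777), (16, 4), (65, 1)]), (4, [(10, 1202), (13, 8787), (16, 23), (65, 12)]), (5, [(32, 18140), (41, 58943), (47, 22030), (57, 955), (72, 48)]), (5, [(37, 43331), (41, 39326), (49, 16045), (57, 1460), (72, 7)]), (3, [(32, 246), (37, 64), (41, 662), (46, 27), (57, 2)]), (5, [(32, 1711), (33, 49767), (41, 27920), (42, 20730), (72, 24)]), (5, [(33, 60790), (41, 8306), (42, 30997), (65, 26), (72, 37)]), (4, [(31, 454), (33, 6076), (42, 3462), (65, 6), (72, 5)]), (0, [(67, 1)]), (0, [(13, 1)]), (4, [(2, 1575), (10, 7797), (14, 634), (70, 3)]), (4, [(10, 6325), (13, 3432), (14, 257), (70, 2)]), (5, [(1, 2), (10, 32509), (13, 66918), (14, 727), (70, 34)]), (4, [(10, 1667), (13, 8337), (14, 10), (70, 7)]), (4, [(10, 845), (13, 9183), (65, 11)]), (3, [(10, 41), (13, 960), (65, 2)]), (4, [(31, 6570), (42, 3443), (72,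 2)]), (0, [(33, 1)]), (4, [(31, 7909), (41, 527), (42, 1592), (65, 1)]), (5, [(31, 67433), (41, 6957), (42, 25707), (65, 52)]), (3, [(31, 655), (41, 33), (42, 313), (65, 1)]), (5, [(31, 65981), (42, 34020), (65, 142), (72, 2)]), (0, [(67, 1)])],
  [(3, [(10, 81), (13, 915), (16, 4), (65, 1)]), (5, [(13, 98713), (17, 1429), (67, 97), (72, 6)]), (5, [(13, 98049), (17, 2037), (67, 140), (72, 13)]), (4, [(41, 3310), (42, 4929), (47, 546), (57, 1236), (72, 4)]), (6, [(41, 485313), (49, 481209), (57, 34784), (63, 215), (72, 225)]), (5, [(41, 82011), (42, 8819), (57, 9410), (63, 11), (72, 15)]), (4, [(41, 6938), (42, 2807), (47, 5), (57, 304), (72, 6)]), (4, [(33, 1233), (41, 5069), (42, 3724), (65, 2), (72, 9)]), (4, [(33, 1951), (41, 3712), (42, 4359), (65, 5), (72, 10)]), (3, [(67, 1001)]), (4, [(13, 9768), (17, 263), (67, 3), (72, 2)]), (4, [(2, 1534), (10, 5719), (13, 2033), (14, 719), (70, 6)]), (5, [(1, 1), (10, 38231), (13, 58874),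 (14, 3032), (70, 44)]), (3, [(10, 57), (13, 933), (14, 11), (70, 1)]), (5, [(1, 2), (13, 99214), (17, 904), (67, 90), (72, 13)]), (5, [(1, 2), (13, 98277), (17, 1781), (67, 137), (72, 16)]), (4, [(13, 9763), (17, 221), (67, 19), (72, 2)]), (4, [(31, 3955), (33, 150), (42, 5956), (65, 2), (72, 2)]), (4, [(31, 1090), (32, 8119), (42, 827), (54, 2), (72, 2)]), (5, [(31, 34113), (33, 27372), (42, 38850), (65, 23), (72, 21)]), (3, [(31, 298), (33, 189), (42, 516), (65, 1)]), (5, [(31, 32782), (33, 10791), (42, 56669), (65, 122), (72, 3)]), (3, [(31, 368), (33, 48), (42, 583), (65, 2)]), (3, [(67, 1001)])],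
  [(5, [(13, 97388), (17, 2693), (67, 135), (72, 19)]), (5, [(13, 96712), (17, 3313), (67, 177), (72, 27)]), (5, [(41, 22629), (42, 52299), (57, 25388), (63, 40), (72, 34)]), (5, [(41, 9293), (49, 81009), (57, 9827), (63, 81), (72, 38)]), (5, [(41, 70371), (49, 9929), (57, 19996), (63, 64), (72, 18)]), (4, [(41, 6907), (42, 1583), (57, 1545), (63, 5), (72, 6)]), (4, [(41, 6898), (42, 2584), (57, 603), (63, 3), (72, 13)]), (4, [(41, 6906), (42, 3135), (63, 2), (70, 2), (72, 18)]), (4, [(67, 10001)]), (5, [(1, 2), (13, 96174), (17, 3917), (67, 63), (72, 39)]), (4, [(2, 2109), (10, 2915), (13, 4232), (14, 745), (70, 10)]), (3, [(10, 252), (13, 714), (14, 35), (70, 1)]), (5, [(1, 2), (13, 99819), (17, 307), (67, 80), (72, 22)]), (5, [(1, 2), (13, 97906), (17, 2151), (67, 127), (72, 27)]), (5, [(1, 2), (13, 96948), (17, 3050), (67, 174), (72, 31)]), (5, [(1, 2), (13, 96455), (17, 3488), (67, 222), (72, 34)]), (4, [(33, 1918), (41, 1129),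 (42, 7007), (65, 2), (72, 7)]), (4, [(32, 4491), (41, 3809), (47, 1251), (57, 502), (72, 7)]), (4, [(33, 3925), (41, 1624), (42, 4506), (65, 2), (72, 8)]), (4, [(33, 2226), (41, 2110), (42, 5714), (65, 7), (72, 6)]), (4, [(33, 1825), (41, 1829), (42, 6391), (65, 12), (72, 6)]), (4, [(33, 1844), (41, 1433), (42, 6764), (65, 16), (72, 6)]), (4, [(67, 10001)])],
  [(5, [(13, 96031), (17, 3939), (67, 220), (72, 36)]), (4, [(41, 2588), (42, 3521), (57, 3933), (63, 9), (72, 4)]), (5, [(49, 41776), (56, 49116), (57, 9228), (63, 107), (72, 49)]), (5, [(41, 25491), (49, 47998), (57, 26816), (63, 127), (72, 35)]), (4, [(41, 6696), (49, 455), (57, 2845), (63, 10), (72, 7)]), (5, [(41, 72473), (42, 8038), (57, 19986), (63, 82), (72, 134)]), (4, [(41, 8132), (42, 1091), (57, 833), (63, 6), (72, 22)]), (4, [(67, 10001)]), (5, [(1, 2), (13, 95488), (17, 4548), (67, 105), (72, 49)]), (4, [(2, 2580), (10, 959), (13, 5702), (14, 758), (70, 14)]), (4,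 [(10, 1837), (13, 7784), (14, 386), (70, 13)]), (5, [(1, 2), (13, 99173), (17, 897), (67, 123), (72, 31)]), (5, [(1, 2), (13, 97239), (17, 2763), (67, 170), (72, 35)]), (4, [(13, 9627), (17, 367), (67, 22), (72, 4)]), (5, [(1, 2), (13, 95773), (17, 4113), (67, 263), (72, 43)]), (4, [(41, 4187), (42, 5394), (57, 560), (63, 2), (72, 13)]), (4, [(32, 239), (41, 6783), (47, 1236), (57, 1749), (72, 12)]), (4, [(41, 6635), (42, 3146), (57, 294), (72, 16)]), (4, [(41, 6259), (42, 3812), (63, 1), (70, 4), (72, 16)]), (4, [(41, 5648), (42, 4419), (63, 2), (70, 8), (72, 15)]), (4, [(41, 5244), (42, 4819), (63, 2), (70, 13), (72, 15)]), (4, [(67, 10001)])],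
  [(4, [(0, 140), (6, 2797), (15, 5961), (29, 1113), (63, 26)]), (5, [(0, 816), (6, 82000), (15, 6870), (29, 10300), (63, 156)]), (3, [(0, 11), (6, 605), (15, 237), (29, 148), (63, 2)]), (5, [(0, 1257), (6, 37511), (15, 37575), (29, 23758), (63, 215)]), (5, [(0, 1296), (6, 14429), (15, 47497), (29, 36892), (63, 235)]), (4, [(0, 131), (4, 2527), (15, 5405), (29, 1949), (63, 25)]), (3, [(63, 14), (64, 986), (72, 1), (81, 1)]), (0, [(42, 1)]), (3, [(41, 576), (42, 323), (57, 104)]), (3, [(41, 364), (42, 352), (57, 288)]), (5, [(30, 35), (41, 28008), (42, 28818), (57, 43700), (63, 25)]), (3, [(41, 263), (42, 163), (57, 581), (63, 1)]), (4, [(30, 2), (41, 2798), (42, 1), (57, 7274), (63, 12)]), (3, [(49, 32), (56, 190), (57, 786), (63, 2)]), (5, [(0, 1396), (4, 41451), (15, 57341), (63, 161), (72, 2)]), (5, [(0, 917), (6, 4941), (15, 56252), (29, 37962), (63, 125)]), (4, [(0, 116), (4, 3970), (15, 5268), (29, 640), (63, 14)]), (5, [(0, 1280),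 (4, 57350), (15, 41533), (63, 145), (72, 6)]), (3, [(0, 13), (4, 698), (15, 290), (63, 2)]), (5, [(0, 1360), (4, 82813), (15, 15976), (63, 174), (72, 22)]), (3, [(63, 14), (64, 986), (72, 1), (81, 1)])],
  [(4, [(0, 49), (1, 6272), (6, 2911), (29, 763), (63, 7)]), (5, [(0, 668), (1, 34541), (6, 51417), (29, 13360), (63, 94)]), (5, [(0, 731), (1, 10919), (6, 64868), (29, 23488), (63, 112)]), (4, [(0, 74), (6, 6036), (15, 188), (29, 3703), (63, 13)]), (4, [(0, 72), (6, 4089), (15, 546), (29, 5292), (63, 15)]), (3, [(63, 7), (64, 995)]), (0, [(41, 1)]), (0, [(44, 1)]), (5, [(30, 36), (44, 3657), (49, 84972), (57, 11634), (63, 22)]), (4, [(30, 3), (49, 3755), (56, 4853), (57, 1448), (63, 4)]), (3, [(56, 631), (57, 152), (62, 221), (63, 1)]), (3, [(51, 64), (57, 153), (62, 787), (63, 1)]), (3, [(51, 516), (57, 152), (62, 335), (63, 1)]), (5, [(0, 785), (6, 34947), (15, 9361), (29, 54963), (63, 63)]), (5, [(0, 541), (6, 56018), (15, 5913),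 (29, 37576), (63, 23)]), (5, [(0, 655), (6, 35161), (15, 5054), (29, 59199), (63, 31)]), (5, [(0, 689), (6, 15011), (15, 6746), (29, 77626), (63, 43)]), (5, [(0, 693), (4, 16356), (15, 8786), (29, 74236), (63, 54)]), (4, [(0, 70), (4, 7909), (15, 1030), (29, 998), (63, 6)]), (3, [(63, 7), (64, 995)])],
  [(5, [(0, 914), (6, 78306), (15, 974), (29, 19877), (63, 114)]), (4, [(0, 101), (6, 6062), (15, 993), (29, 2832), (63, 15)]), (3, [(0, 10), (6, 414), (15, 165), (29, 412), (63, 2)]), (3, [(0, 10), (6, 208), (15, 211), (29, 572), (63, 2)]), (3, [(63, 11), (64, 991), (72, 1)]), (5, [(30, 32), (41, 44334), (44, 27108), (57, 28946), (63, 35)]), (3, [(41, 666), (44, 302), (57, 35)]), (3, [(41, 1001)]), (5, [(30, 12), (44, 46196), (49, 22567), (57, 31687), (63, 73)]), (3, [(49, 386), (56, 265), (57, 354), (63, 1)]), (4, [(30, 2), (56, 4165), (57, 3538), (62, 2342), (63, 12)]), (4, [(30, 2), (51, 2032), (57, 3525), (62, 4489), (63, 13)]),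 (4, [(0, 110), (6, 1334), (15, 2628), (29, 5924), (63, 10)]), (3, [(0, 7), (6, 354), (15, 220), (29, 419), (63, 1)]), (3, [(0, 9), (6, 153), (15, 204), (29, 634), (63, 1)]), (4, [(0, 98), (4, 1514), (15, 2223), (29, 6161), (63, 8)]), (3, [(0, 10), (4, 754), (15, 237), (63, 1)]), (5, [(0, 1046), (4, 88648), (15, 10630), (63, 97), (72, 7)]), (3, [(63, 11), (64, 991), (72, 1)])],
  [(3, [(0, 11), (6, 412), (15, 207), (29, 371), (63, 2)]), (4, [(0, 116), (6, 2034), (15, 2847), (29, 4992), (63, 20)]), (4, [(0, 116), (4, 322), (15, 3390), (29, 6183), (63, 21)]), (3, [(63, 13), (64, 989), (72, 1)]), (5, [(30, 29), (41, 51912), (42, 24056), (57, 24523), (63, 35)]), (3, [(41, 1001)]), (5, [(30, 28), (41, 70425), (42, 11716), (57, 18358), (63, 8)]), (4, [(30, 2), (41, 6506), (42, 212), (57, 3343), (63, 5)]), (4, [(41, 2501), (44, 2836), (49, 212), (57, 4455), (63, 12)]), (4, [(30, 1), (49, 4441), (56, 408), (57, 5223), (63, 17)]), (3, [(56, 298),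 (57, 516), (62, 193), (63, 2)]), (4, [(0, 124), (4, 2912), (15, 4004), (29, 2977), (63, 12)]), (3, [(0, 8), (6, 131), (15, 352), (29, 509), (63, 1)]), (3, [(0, 10), (4, 190), (15, 329), (29, 472), (63, 1)]), (4, [(0, 114), (4, 6829), (15, 3095), (63, 10)]), (5, [(0, 1187), (4, 80720), (15, 18256), (63, 114), (72, 9)]), (5, [(0, 1208), (4, 93765), (15, 5175), (63, 128), (72, 16)]), (3, [(63, 13), (64, 989), (72, 1)])],
  [(4, [(0, 120), (4, 422), (15, 3717), (29, 5753), (63, 21)]), (5, [(0, 1230), (4, 59512), (15, 39377), (63, 222), (72, 1)]), (3, [(63, 14), (64, 988), (72, 1)]), (4, [(41, 3383), (42, 5191), (57, 1433), (63, 6), (72, 1)]), (4, [(30, 2), (41, 7300), (42, 2736), (63, 2)]), (4, [(41, 5603), (42, 3670), (57, 840), (63, 3), (72, 1)]), (5, [(41, 52832), (42, 24351), (57, 23516), (63, 63), (72, 24)]), (5, [(41, 54355), (42, 8396), (57, 38042), (63, 104), (72, 33)]), (4, [(41, 2997), (49, 2224), (57, 4863), (63, 16), (72, 5)]),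 (4, [(49, 2207), (56, 2709), (57, 5168), (63, 20), (72, 7)]), (5, [(0, 1318), (4, 60634), (15, 38228), (63, 139), (72, 5)]), (3, [(0, 8), (4, 289), (15, 445), (29, 258), (63, 1)]), (5, [(0, 1097), (4, 63983), (15, 35068), (63, 108), (72, 3)]), (5, [(0, 1210), (4, 76705), (15, 22247), (63, 123), (72, 10)]), (5, [(0, 1262), (4, 89316), (15, 9577), (63, 137), (72, 17)]), (5, [(0, 1286), (4, 98850), (63, 148), (64, 12), (72, 23)]), (3, [(63, 14), (64, 988), (72, 1)])],
  [(5, [(0, 1265), (4, 70378), (15, 28464), (63, 240), (72, 9)]), (3, [(63, 14), (64, 987), (72, 2)]), (4, [(41, 4253), (42, 5539), (57, 274), (63, 4), (72, 9)]), (4, [(41, 6503), (42, 3532), (63, 6)]), (4, [(41, 6070), (42, 3935), (63, 2), (70, 2), (72, 8)]), (4, [(41, 6183), (42, 2625), (57, 1177), (63, 5), (72, 11)]), (4, [(41, 6298), (42, 1086), (57, 2617), (63, 9), (72, 12)]), (4, [(41, 4622), (49, 1667), (57, 3803), (63, 14), (72, 13)]), (4, [(49, 5090), (56, 594),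 (57, 4408), (63, 20), (72, 15)]), (4, [(0, 135), (4, 7150), (15, 2731), (63, 16), (72, 1)]), (5, [(0, 879), (4, 59712), (15, 39485), (63, 115), (72, 5)]), (4, [(0, 112), (4, 7473), (15, 2407), (63, 13), (72, 1)]), (5, [(0, 1243), (4, 87658), (15, 11247), (63, 140), (72, 18)]), (5, [(0, 1298), (4, 98844), (63, 154), (64, 5), (72, 25)]), (5, [(0, 1325), (4, 98774), (63, 158), (64, 51), (72, 26)]), (3, [(63, 14), (64, 987), (72, 2)])],
  [(3, [(63, 5), (64, 492), (70, 497), (72, 14)]), (0, [(67, 1)]), (3, [(65, 321), (67, 325), (70, 354), (72, 2)]), (3, [(67, 831), (70, 170), (72, 1)]), (3, [(67, 1001)]), (4, [(67, 10001)]), (3, [(64, 1), (67, 998), (72, 3)]), (3, [(64, 1), (67, 997), (72, 3)]), (3, [(63, 14), (64, 986), (72, 2)]), (3, [(63, 9), (64, 990), (72, 2)]), (3, [(63, 12), (64, 988), (72, 2)]), (3, [(63, 13), (64, 987), (72, 2)]), (3, [(63, 14), (64, 987), (70, 1), (72, 2)]), (3, [(63, 14), (64, 986), (70, 1), (72, 2)]), (3, [(63,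 5), (64, 492), (70, 496), (72, 14)])],
  [(5, [(1, 3), (13, 94934), (17, 5161), (20, 5), (72, 51)]), (5, [(1, 1), (10, 76591), (13, 13215), (14, 10247), (70, 43)]), (4, [(10, 1092), (13, 8468), (14, 456), (70, 2)]), (4, [(13, 9882), (17, 147), (67, 1), (72, 4)]), (5, [(1, 4), (13, 96576), (17, 3353), (67, 55), (72, 48)]), (5, [(1, 4), (13, 95733), (17, 4276), (67, 101), (72, 53)]), (5, [(1, 4), (13, 95231), (17, 4722), (67, 148), (72, 56)]), (0, [(42, 1)]), (2, [(41, 59), (42, 3), (47, 29), (57, 10)]), (4, [(32, 610), (33, 1729), (41, 820), (42, 6924), (72, 1)]), (4, [(31, 336), (41, 1532), (42, 8210), (65, 5)]), (3, [(41, 117), (42, 891), (65, 1)]), (4, [(41, 750), (42, 9320), (65, 14)]), (0, [(67, 1)])],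
  [(4, [(2, 4748), (10, 4025), (14, 1227), (70, 3)]), (4, [(2, 2105), (10, 6910), (14, 986), (70, 4)]), (4, [(2, 749), (10, 8302), (14, 950), (70, 7)]), (4, [(2, 52), (10, 8974), (14, 972), (70, 11)]), (5, [(1, 1), (10, 84261), (13, 5935), (14, 9817), (70, 153)]), (3, [(10, 805), (13, 95), (14, 99), (70, 2)]), (3, [(41, 541), (42, 462)]), (3, [(41, 1001)]), (0, [(33, 1)]), (5, [(30, 21), (41, 64997), (42, 35362), (48, 2), (63, 6)]), (5, [(41, 61425), (42, 38902), (48, 3), (63, 51), (65, 1)]), (4, [(41, 5850), (42, 4178), (63, 5), (65, 5)]), (3, [(65, 321), (67, 325), (70, 354), (72, 2)])],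
  [(5, [(1, 2), (10, 72715), (13, 20902), (14, 6466), (70, 33)]), (5, [(1, 2), (10, 43136), (13, 52177), (14, 4782), (70, 51)]), (3, [(10, 277), (13, 681), (14, 43), (70, 1)]), (4, [(10, 1959), (13, 7621), (14, 425), (70, 13)]), (3, [(10, 154), (13, 803), (14, 43), (70, 2)]), (2, [(35, 12), (41, 17), (42, 72)]), (3, [(41, 1001)]), (2, [(31, 4), (35, 33), (41, 11), (42, 53)]), (4, [(31, 934), (41, 3728), (42, 5409), (65, 3)]), (3, [(31, 53), (41, 346), (42, 608), (65, 1)]), (4, [(31, 504), (41, 3116), (42, 6441), (65, 12)]), (3, [(67, 830), (70, 170), (72, 1)])],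
  [(3, [(10, 112), (13, 860), (14, 29), (70, 1)]), (5, [(1, 4), (13, 99428), (14, 670), (70, 81), (72, 22)]), (5, [(1, 4), (13, 99397), (17, 645), (67, 119), (72, 34)]), (5, [(1, 4), (13, 98924), (17, 1063), (67, 167), (72, 38)]), (4, [(41, 2338), (42, 6771), (57, 907), (63, 1), (72, 2)]), (2, [(32, 5), (41, 57), (47, 19), (57, 20)]), (4, [(41, 5857), (42, 2930), (47, 759), (57, 546), (72, 5)]), (4, [(33, 789), (41, 4302), (42, 5003), (65, 2), (72, 7)]), (4, [(33, 338), (41, 4096), (42, 5656), (65, 7), (72, 7)]), (4, [(33, 310), (41, 3769), (42, 6006), (65, 11), (72, 7)]), (3, [(67, 1001)])],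
  [(5, [(1, 4), (13, 98420), (17, 1613), (67, 119), (72, 34)]), (5, [(1, 4), (13, 97473), (17, 2501), (67, 166), (72, 39)]), (5, [(1, 4), (13, 96985), (17, 2934), (67, 213), (72, 42)]), (4, [(41, 2410), (42, 5329), (57, 2362), (63, 5), (72, 3)]), (4, [(41, 3392), (42, 2871), (47, 134), (57, 3703), (72, 1)]), (4, [(41, 4775), (42, 3158), (57, 2081), (63, 3), (72, 6)]), (4, [(41, 6039), (42, 3238), (57, 733), (63, 3), (72, 13)]), (4, [(41, 6651), (42, 3459), (63, 2), (70, 2), (72, 17)]), (4, [(41, 6274), (42, 3832), (63, 2), (70, 7), (72, 17)]), (4, [(67, 10001)])],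
  [(5, [(1, 4), (13, 96511), (17, 3404), (67, 212), (72, 44)]), (5, [(1, 4), (13, 96016), (17, 3844), (67, 260), (72, 47)]), (4, [(41, 2833), (42, 3437), (57, 3840), (63, 9), (72, 4)]), (4, [(41, 3702), (42, 1204), (57, 5204), (63, 4), (72, 2)]), (4, [(41, 5310), (42, 1221), (57, 3582), (63, 7), (72, 7)]), (4, [(41, 6569), (42, 1329), (57, 2221), (63, 7), (72, 14)]), (4, [(41, 8019), (42, 1220), (57, 886), (63, 6), (72, 22)]), (4, [(41, 8998), (42, 1129), (63, 5), (70, 2), (72, 28)]), (3, [(64, 1), (67, 998), (72, 3)])],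
  [(4, [(13, 9552), (17, 429), (67, 31), (72, 5)]), (4, [(41, 3495), (42, 1266), (57, 5361), (63, 14), (72, 5)]), (4, [(41, 1696), (49, 2085), (57, 6334), (63, 9), (72, 4)]), (4, [(41, 3393), (49, 2000), (57, 4727), (63, 12), (72, 8)]), (4, [(41, 4961), (49, 1753), (57, 3412), (63, 12), (72, 15)]), (4, [(41, 6137), (49, 1957), (57, 2037), (63, 11), (72, 24)]), (4, [(41, 6953), (49, 2647), (57, 535), (63, 10), (72, 33)]), (3, [(64, 1), (67, 997), (72, 3)])],
  [(3, [(0, 14), (4, 726), (15, 262), (63, 1)]), (5, [(0, 957), (4, 60925), (15, 38386), (63, 31), (72, 9)]), (5, [(0, 1210), (4, 76019), (15, 22964), (63, 42), (72, 15)]), (3, [(0, 13), (4, 888), (15, 101), (63, 1)]), (5, [(0, 1386), (4, 98814), (63, 70), (64, 9), (72, 29)]), (4, [(0, 141), (4, 9874), (63, 7), (64, 6), (72, 3)]), (3, [(63, 14), (64, 986), (72, 2)])],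
  [(3, [(0, 6), (4, 408), (15, 525), (29, 62)]), (5, [(0, 792), (4, 64096), (15, 35107), (63, 1), (72, 7)]), (5, [(0, 877), (4, 76952), (15, 22298), (63, 15), (72, 14)]), (6, [(0, 9147), (4, 896082), (15, 95921), (63, 294), (72, 218)]), (6, [(0, 9317), (4, 991594), (63, 402), (64, 125), (72, 278)]), (3, [(63, 9), (64, 990), (72, 2)])],
  [(5, [(0, 1009), (4, 79292), (15, 19715), (63, 11), (72, 13)]), (4, [(0, 111), (4, 9223), (15, 683), (63, 3), (72, 2)]), (4, [(0, 116), (4, 9919), (63, 4), (64, 2), (72, 2)]), (5, [(0, 1188), (4, 99122), (63, 39), (64, 67), (72, 25)]), (3, [(63, 12), (64, 988), (72, 2)])],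
  [(5, [(0, 1226), (4, 98951), (63, 36), (64, 21), (72, 24)]), (5, [(0, 1281), (4, 98861), (63, 41), (64, 66), (72, 25)]), (5, [(0, 1308), (4, 98791), (63, 45), (64, 113), (72, 26)]), (3, [(63, 13), (64, 987), (72, 2)])],
  [(5, [(0, 1338), (4, 98769), (63, 46), (64, 111), (72, 26)]), (5, [(0, 1366), (4, 98699), (63, 50), (64, 158), (72, 27)]), (3, [(63, 14), (64, 987), (70, 1), (72, 2)])],
  [(5, [(0, 1394), (4, 98629), (63, 53), (64, 205), (72, 28)]), (3, [(63, 14), (64, 986), (70, 1), (72, 2)])],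
  [(3, [(63, 5), (64, 492), (70, 496), (72, 14)])]]

set_option maxRecDepth 100000 in
theorem okLL : chkTri LD (LQ ++ LE) cLL = true := by decide +kernel

end Pool.Agent.Lib.MP_dbb03c_co.Full
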