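import Pool.Agent.Lib.MP_dbb03c_co.Full.Data

/-! # Certificate data (generated) -/

namespace Pool.Agent.Lib.MP_dbb03c_co.Full

set_option maxRecDepth 100000 in
def cqQG : List (List Ct) := [
  [(0, [(6, 1)]), (5, [(32, 17989), (36, 36379), (46, 44687), (57, 933), (72, 32)]), (0, [(36, 1)]), (5, [(32, 1324), (36, 76170), (46, 17122), (57, 5467), (72, 18)]), (5, [(32, 5393), (36, 58432), (46, 20810), (57, 15557), (72, 35)]), (4, [(32, 901), (36, 4629), (46, 1643), (57, 2891), (72, 5)]), (3, [(30, 34), (52, 987), (63, 2)]), (5, [(30, 1772), (52, 100987), (63, 48), (68, 4)]), (5, [(30, 2595), (52, 99230), (63, 92), (68, 11), (81, 1)]), (4, [(30, 306), (52, 10059), (63, 13), (68, 3)]), (4, [(30, 326), (52, 10049), (63, 15), (68, 7)]), (3, [(36, 148), (37, 85), (46, 416), (57, 356)]), (0, [(49, 1)]), (3, [(36, 256), (37, 200), (46, 226), (57, 323)]), (2, [(36, 27), (37, 8), (46, 19), (57, 47)]), (2, [(36, 21), (37, 3),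 (46, 15), (57, 62)]), (2, [(32, 1), (36, 15), (46, 8), (57, 77)]), (4, [(39, 726), (56, 65), (57, 9271), (62, 53), (72, 2)]), (3, [(30, 35), (52, 986), (63, 1), (68, 1)]), (4, [(30, 232), (52, 10074), (63, 4), (68, 7)]), (5, [(30, 2888), (52, 98969), (63, 32), (68, 122), (81, 3)]), (4, [(30, 318), (52, 9875), (63, 4), (68, 17)]), (4, [(30, 332), (52, 9862), (63, 4), (68, 22)]), (4, [(30, 339), (52, 9853), (63, 4), (68, 27)]), (4, [(0, 7), (3, 6108), (15, 1485), (22, 2404), (63, 9)]), (0, [(3, 1)]), (5, [(3, 75557), (15, 6666), (22, 13335), (23, 4506), (63, 33)]), (4, [(3, 5863), (15, 892), (22, 1894), (23, 1350), (63, 6)]), (4, [(3, 4703), (15, 897), (22, 1813), (23, 2617), (63, 8)]), (4, [(0, 40), (6, 1598), (15, 7811), (29, 542), (63, 13)]), (4, [(0, 26), (6, 8112), (15, 1515), (29, 345), (63, 4)]), (6, [(0, 3566), (6, 561037), (15, 352069), (29, 82937), (63, 677)]), (6, [(0, 3745), (6, 302817), (15, 516697),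 (29, 176186), (63, 914)]), (5, [(0, 358), (6, 5155), (15, 63402), (29, 31016), (63, 109)]), (4, [(3, 2061), (15, 874), (22, 3975), (23, 3101), (63, 1)]), (3, [(0, 1), (6, 614), (22, 274), (23, 114)]), (3, [(3, 349), (6, 78), (22, 309), (23, 269)]), (3, [(3, 340), (15, 24), (22, 201), (23, 441)]), (2, [(3, 23), (15, 3), (22, 15), (23, 60)]), (4, [(3, 1534), (15, 222), (22, 721), (23, 7620), (63, 1)]), (4, [(1, 56), (6, 725), (23, 9334), (63, 2)]), (7, [(0, 42316), (4, 3627677), (15, 6327083), (63, 3671), (72, 837)]), (4, [(0, 22), (4, 1479), (15, 7360), (29, 1140)]), (6, [(0, 3327), (4, 395373), (15, 601342), (63, 74), (72, 45)]), (6, [(0, 3797), (4, 522325), (15, 473715), (63, 220), (72, 119)]), (6, [(0, 3995), (4, 648149), (15, 347630), (63, 362), (72, 198)]), (6, [(0, 4065), (4, 778409), (15, 216950), (63, 493), (72, 278)]), (0, [(68, 1)]), (4, [(63, 26), (64, 9913), (72, 9), (81, 61)]), (0, [(30, 1), (63, 1)]),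 (0, [(52, 1)]), (0, [(39, 1)]), (5, [(30, 2421), (52, 99054), (63, 98), (81, 8)]), (4, [(30, 348), (52, 9854), (63, 2), (68, 32)]), (0, [(45, 1)]), (5, [(30, 1038), (52, 99118), (63, 47), (81, 5)]), (4, [(30, 698), (52, 9648), (63, 13), (81, 3)]), (4, [(40, 10001)]), (4, [(32, 887), (36, 3805), (45, 838), (46, 4471)]), (0, [(46, 1)]), (4, [(32, 2047), (46, 4319), (47, 3635), (54, 5), (72, 1)]), (4, [(46, 9863), (54, 44), (55, 2), (57, 95)]), (0, [(47, 1)]), (2, [(30, 1), (57, 70), (62, 30)]), (5, [(30, 3642), (52, 98318), (63, 83), (81, 24)]), (4, [(46, 9491), (54, 81), (55, 10), (57, 422)]), (5, [(47, 98227), (54, 879), (55, 16), (57, 1017), (73, 2)]), (5, [(47, 76194), (54, 4814), (55, 76), (57, 19692), (73, 58)]), (4, [(43, 3306), (48, 6296), (54, 17), (55, 458), (73, 2)]), (2, [(30, 95), (54, 6), (72, 1)]), (0, [(54, 2)]), (3, [(30, 73), (52, 962), (63, 2)]), (3, [(30, 53), (52, 960), (63, 4)]), (3, [(30, 1256),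 (52, 1), (63, 2)]), (1, [(30, 10), (61, 1), (81, 1)]), (1, [(30, 2), (54, 5), (61, 4), (81, 1)]), (2, [(55, 74), (58, 26), (73, 1), (82, 1)]), (0, [(55, 3)]), (4, [(30, 336), (52, 9869), (63, 2), (68, 24)]), (0, [(0, 1), (63, 1)]), (5, [(0, 988), (4, 31047), (15, 67914), (63, 83), (72, 26)]), (3, [(0, 9), (4, 4), (15, 988), (63, 2)]), (4, [(0, 83), (6, 223), (15, 8305), (29, 1382), (63, 14)]), (4, [(0, 115), (4, 309), (15, 9569), (63, 4), (72, 6)]), (4, [(0, 76), (6, 3419), (15, 6120), (29, 396), (63, 12)]), (0, [(7, 1)]), (3, [(0, 5), (3, 289), (6, 404), (15, 302), (63, 1)]), (5, [(0, 429), (4, 91751), (15, 7861), (63, 34), (72, 37)]), (0, [(15, 1)]), (5, [(0, 827), (7, 90410), (20, 111), (23, 8883), (81, 35)]), (4, [(0, 116), (3, 4074), (15, 4475), (22, 1361), (63, 15)]), (4, [(0, 197), (7, 8981), (15, 876), (63, 22), (81, 2)]), (2, [(13, 78), (17, 22), (20, 1)]), (4, [(0, 100), (3, 3363), (15, 1069), (22, 5477),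 (63, 3)]), (4, [(0, 21), (7, 9668), (20, 7), (23, 312)]), (3, [(0, 8), (7, 856), (23, 137), (81, 1)]), (3, [(0, 21), (7, 794), (23, 190), (81, 2)]), (3, [(13, 1003)]), (0, [(22, 1)]), (0, [(23, 1)]), (0, [(23, 1)]), (0, [(24, 1)]), (3, [(17, 762), (18, 216), (20, 27)]), (2, [(0, 95), (20, 6), (72, 1)]), (0, [(20, 2)]), (3, [(3, 91), (15, 23), (22, 527), (23, 363)]), (5, [(0, 624), (23, 99263), (25, 69), (81, 54)]), (2, [(19, 72), (21, 32), (73, 1), (74, 1)]), (1, [(0, 2), (20, 5), (25, 4), (81, 1)]), (3, [(19, 664), (21, 535), (74, 1)]), (1, [(0, 10), (25, 1), (81, 1)]), (2, [(3, 9), (15, 2), (22, 28), (23, 62)]), (0, [(63, 1)]), (0, [(68, 1)]), (3, [(63, 2), (64, 993), (81, 6)]), (3, [(63, 7), (64, 985), (72, 1), (81, 10)]), (3, [(63, 11), (64, 979), (81, 15)]), (0, [(75, 1)]), (2, [(67, 99), (72, 2)]), (2, [(63, 2), (64, 98)]), (2, [(67, 91), (72, 10), (80, 2)]), (0, [(63, 1)]), (0, [(72, 2)]), (3, [(69, 739),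 (72, 199), (73, 64)]), (0, [(63, 1)]), (1, [(63, 2), (70, 8)]), (2, [(69, 89), (72, 6), (73, 6)]), (3, [(65, 2), (69, 741), (72, 227), (73, 40)]), (1, [(73, 11)]), (1, [(72, 11)]), (0, [(63, 1)]), (0, [(73, 2)])],
  [(4, [(39, 10001)]), (3, [(13, 1001)]), (0, [(8, 1)]), (3, [(10, 701), (12, 103), (16, 197)]), (4, [(11, 10001)]), (4, [(10, 3184), (13, 4396), (16, 2432), (65, 6)]), (4, [(0, 40), (6, 1598), (15, 7811), (29, 542), (63, 13)]), (4, [(0, 26), (6, 8112), (15, 1515), (29, 345), (63, 4)]), (6, [(0, 3566), (6, 561037), (15, 352069), (29, 82937), (63, 677)]), (6, [(0, 3745), (6, 302817), (15, 516697), (29, 176186), (63, 914)]), (5, [(0, 358), (6, 5155), (15, 63402), (29, 31016), (63, 109)]), (3, [(13, 1001)]), (3, [(11, 1002)]), (3, [(11, 1001)]), (4, [(11, 10001)]), (4, [(10, 2402), (13, 5250), (16, 2359), (65, 5)]), (3, [(10, 181), (13, 578), (16, 241), (65, 1)]), (5, [(1, 2), (10, 13840), (13, 61883), (16,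 24312), (65, 142)]), (7, [(0, 42316), (4, 3627676), (15, 6327083), (63, 3671), (72, 837)]), (4, [(0, 22), (4, 1479), (15, 7360), (29, 1140)]), (6, [(0, 3327), (4, 395373), (15, 601342), (63, 74), (72, 45)]), (6, [(0, 3797), (4, 522325), (15, 473715), (63, 220), (72, 119)]), (6, [(0, 3995), (4, 648149), (15, 347630), (63, 362), (72, 198)]), (6, [(0, 4065), (4, 778409), (15, 216950), (63, 493), (72, 278)]), (5, [(32, 17989), (36, 36379), (46, 44687), (57, 933), (72, 32)]), (0, [(36, 1)]), (5, [(32, 1324), (36, 76170), (46, 17122), (57, 5467), (72, 18)]), (5, [(32, 5393), (36, 58432), (46, 20810), (57, 15557), (72, 35)]), (4, [(32, 901), (36, 4629), (46, 1643), (57, 2891), (72, 5)]), (5, [(32, 69464), (45, 28792), (46, 1483), (54, 249), (72, 38)]), (4, [(32, 3464), (34, 3556), (39, 2985)]), (0, [(34, 1)]), (4, [(31, 2982), (32, 4885), (34, 382), (45, 1736), (54, 16)]), (5, [(31, 58545), (32, 19647), (45, 21605), (54,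 188), (72, 54)]), (3, [(36, 148), (37, 85), (46, 416), (57, 356)]), (0, [(49, 1)]), (3, [(36, 256), (37, 200), (46, 226), (57, 323)]), (2, [(36, 27), (37, 8), (46, 19), (57, 47)]), (2, [(36, 21), (37, 3), (46, 15), (57, 62)]), (2, [(32, 1), (36, 15), (46, 8), (57, 77)]), (4, [(39, 726), (56, 65), (57, 9271), (62, 53), (72, 2)]), (5, [(31, 93155), (45, 6638), (54, 218), (55, 3), (73, 9)]), (5, [(31, 48583), (45, 51329), (54, 108)]), (4, [(31, 8017), (45, 1970), (54, 14)]), (6, [(31, 998561), (48, 8), (54, 1490), (72, 53), (73, 206)]), (7, [(31, 9979091), (48, 160), (54, 14853), (72, 5705), (73, 2007)]), (6, [(31, 997528), (48, 24), (54, 1354), (72, 1078), (73, 204)]), (4, [(63, 26), (64, 9913), (72, 9), (81, 61)]), (3, [(66, 996), (72, 1), (73, 2), (80, 2)]), (0, [(0, 1), (63, 1)]), (0, [(6, 1)]), (0, [(5, 1)]), (4, [(7, 10001)]), (5, [(0, 429), (4, 91751), (15, 7861), (63, 34), (72, 37)]), (4, [(8, 7377), (16, 2627)]),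 (0, [(15, 1)]), (5, [(0, 827), (7, 90410), (20, 111), (23, 8883), (81, 35)]), (0, [(16, 1)]), (3, [(12, 1001)]), (3, [(12, 400), (13, 184), (16, 100), (17, 317)]), (0, [(17, 1)]), (3, [(17, 1001)]), (5, [(17, 96282), (18, 3687), (20, 26), (72, 15), (80, 35)]), (2, [(13, 78), (17, 22), (20, 1)]), (4, [(0, 21), (7, 9668), (20, 7), (23, 312)]), (3, [(16, 551), (18, 453)]), (4, [(16, 1083), (17, 1583), (18, 7403), (71, 1), (73, 2)]), (3, [(18, 980), (21, 34), (73, 1)]), (6, [(19, 993394), (21, 6140), (73, 175), (74, 342)]), (0, [(20, 2)]), (0, [(21, 2)]), (5, [(0, 919), (7, 75407), (20, 11), (23, 23926), (81, 4)]), (5, [(0, 624), (23, 99263), (25, 69), (81, 54)]), (3, [(0, 127), (24, 937), (63, 1)]), (1, [(0, 2), (20, 5), (25, 4), (81, 1)]), (1, [(20, 2), (21, 5), (26, 5), (80, 1)]), (3, [(21, 241), (27, 890), (73, 1)]), (3, [(21, 558), (27, 302), (28, 141), (73, 1), (82, 1)]), (5, [(0, 413), (4, 69219), (15, 30432),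 (63, 19), (72, 27)]), (0, [(30, 1), (63, 1)]), (4, [(47, 10003)]), (4, [(47, 10003)]), (3, [(47, 1001)]), (4, [(32, 4664), (45, 4586), (46, 678), (54, 100), (72, 4)]), (3, [(42, 1002)]), (0, [(40, 1)]), (3, [(32, 742), (42, 92), (47, 167), (54, 1)]), (5, [(31, 99729), (48, 3), (54, 136), (72, 132), (73, 22)]), (0, [(45, 1)]), (4, [(47, 10011)]), (3, [(42, 758), (47, 243), (54, 1)]), (4, [(30, 14), (42, 5570), (47, 4371), (54, 70), (72, 7)]), (4, [(53, 10119), (55, 25), (73, 5)]), (3, [(42, 736), (47, 172), (57, 95)]), (4, [(40, 3961), (46, 6020), (54, 20), (55, 8)]), (4, [(47, 10006)]), (3, [(47, 887), (54, 15), (57, 102), (72, 1)]), (4, [(48, 8026), (53, 1971), (71, 2), (73, 2)]), (3, [(41, 384), (46, 394), (47, 48), (57, 177)]), (0, [(57, 1)]), (0, [(57, 1)]), (5, [(30, 1038), (52, 99135), (63, 47), (81, 5)]), (3, [(53, 988), (55, 17), (73, 1)]), (0, [(54, 2)]), (0, [(55, 2)]), (3, [(37, 75), (41, 136), (46, 345),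 (57, 448)]), (5, [(54, 628), (57, 99332), (59, 12), (80, 54)]), (3, [(55, 40), (58, 964), (73, 1), (82, 1)]), (1, [(54, 2), (55, 5), (59, 5), (80, 1)]), (2, [(58, 101)]), (1, [(30, 2), (54, 5), (61, 4), (81, 1)]), (3, [(37, 94), (41, 23), (46, 231), (57, 659)]), (0, [(63, 2)]), (3, [(63, 2), (64, 993), (81, 6)]), (0, [(67, 1)]), (3, [(66, 990), (72, 6), (73, 2), (80, 6)]), (3, [(66, 983), (72, 9), (80, 11)]), (2, [(63, 6), (68, 97)]), (1, [(69, 6), (71, 4)]), (2, [(67, 99), (72, 2)]), (2, [(71, 96), (73, 8)]), (0, [(72, 2)]), (0, [(73, 2)]), (2, [(73, 13), (74, 93)]), (1, [(63, 4), (75, 8)]), (2, [(69, 81), (72, 25), (73, 4)]), (1, [(74, 7), (77, 4)]), (0, [(74, 1)]), (1, [(73, 4), (79, 1), (82, 7)]), (1, [(73, 11)]), (1, [(72, 11)]), (1, [(73, 2), (82, 9)])],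
  [(5, [(32, 17989), (36, 36379), (46, 44687), (57, 933), (72, 32)]), (5, [(17, 92584), (18, 7740), (20, 68), (72, 77), (80, 22)]), (3, [(17, 1001)]), (5, [(17, 96697), (18, 3703), (20, 26), (72, 15), (80, 35)]), (3, [(17, 951), (18, 52), (80, 1)]), (4, [(17, 9472), (18, 556), (20, 6), (72, 1), (80, 15)]), (4, [(0, 198), (7, 8992), (15, 877), (63, 22), (81, 2)]), (4, [(0, 116), (3, 4078), (15, 4479), (22, 1362), (63, 15)]), (4, [(0, 169), (3, 978), (6, 405), (15, 8501), (63, 21)]), (4, [(0, 193), (4, 574), (15, 9293), (63, 24), (72, 1)]), (3, [(0, 20), (4, 141), (15, 845), (63, 3)]), (4, [(17, 9329), (18, 697), (20, 10), (80, 10)]), (0, [(13, 1)]), (4, [(17, 9854), (18, 180), (20, 8), (80, 5)]), (3, [(17, 960), (18, 41), (80, 1)]), (4, [(17, 9514), (18, 509), (20, 7), (80, 15)]), (3, [(17, 952), (18, 52), (80, 2)]), (4, [(17, 9540), (18, 512), (20, 7), (80, 26)]), (4, [(0, 222), (4, 2579), (15, 7268), (63, 19),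 (72, 4)]), (5, [(0, 1493), (4, 14141), (15, 84832), (63, 144), (72, 31)]), (5, [(0, 1866), (4, 29027), (15, 69695), (63, 159), (72, 35)]), (4, [(0, 206), (4, 4180), (15, 5745), (63, 18), (72, 4)]), (4, [(0, 213), (4, 5389), (15, 4463), (63, 19), (72, 5)]), (4, [(0, 217), (4, 6672), (15, 3175), (63, 20), (72, 6)]), (4, [(30, 7), (42, 979), (47, 9037), (54, 7), (72, 5)]), (4, [(32, 2050), (46, 4325), (47, 3640), (54, 5), (72, 1)]), (0, [(47, 1)]), (5, [(30, 37), (47, 87721), (54, 40), (57, 12643), (72, 45)]), (5, [(30, 67), (47, 72482), (54, 68), (57, 27906), (72, 89)]), (4, [(30, 14), (42, 5577), (47, 4377), (54, 70), (72, 7)]), (3, [(42, 1001)]), (0, [(47, 1)]), (4, [(30, 12), (42, 9936), (54, 57), (72, 3)]), (4, [(30, 13), (42, 9958), (54, 65), (72, 8)]), (4, [(30, 10), (47, 6054), (54, 14), (57, 3987), (72, 3)]), (3, [(42, 1001)]), (2, [(47, 69), (57, 32)]), (3, [(57, 1001)]), (5, [(30, 106), (47, 32551), (54,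 157), (57, 68038), (72, 69)]), (4, [(30, 12), (47, 1459), (54, 18), (57, 8605), (72, 11)]), (4, [(30, 14), (54, 21), (57, 10069), (72, 14), (81, 2)]), (3, [(30, 1), (42, 995), (54, 8), (72, 1)]), (0, [(47, 1)]), (5, [(30, 76), (42, 99608), (48, 2), (54, 735), (72, 29)]), (3, [(30, 1), (42, 995), (54, 7), (72, 1)]), (4, [(30, 11), (42, 9947), (54, 73), (72, 13)]), (3, [(30, 1), (42, 994), (54, 7), (72, 2)]), (2, [(63, 2), (64, 98), (81, 1)]), (2, [(66, 98), (72, 1), (80, 1)]), (0, [(0, 1), (63, 1)]), (4, [(0, 7), (3, 6107), (15, 1485), (22, 2403), (63, 9)]), (3, [(13, 1001)]), (4, [(0, 142), (7, 8830), (20, 1), (23, 1123), (81, 14)]), (4, [(0, 222), (4, 8040), (15, 1814), (63, 19), (72, 7)]), (3, [(17, 1001)]), (5, [(0, 535), (7, 94002), (23, 5629), (63, 16), (81, 76)]), (4, [(0, 427), (7, 7768), (20, 20), (23, 1959), (81, 18)]), (4, [(16, 1087), (17, 1590), (18, 7433), (71, 1), (73, 2)]), (4, [(17, 8947), (18, 1088),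 (20, 6), (72, 3), (80, 2)]), (5, [(17, 84282), (18, 15924), (20, 122), (72, 42), (80, 53)]), (5, [(17, 78901), (18, 21214), (20, 226), (72, 105), (80, 39)]), (3, [(18, 1011), (20, 1), (21, 2), (73, 1)]), (4, [(17, 7248), (18, 2743), (20, 36), (72, 12), (80, 7)]), (3, [(13, 578), (17, 396), (20, 51), (72, 1)]), (4, [(0, 215), (7, 8429), (20, 13), (23, 1422), (81, 13)]), (3, [(18, 999), (21, 23), (73, 1)]), (4, [(18, 10007), (20, 60), (21, 83), (73, 14), (80, 2)]), (3, [(18, 937), (20, 11), (21, 105), (73, 2), (80, 1)]), (4, [(19, 9766), (21, 315), (73, 13), (74, 8)]), (0, [(20, 5)]), (0, [(21, 4)]), (4, [(0, 450), (7, 6297), (20, 2), (23, 3432), (81, 15)]), (4, [(0, 333), (23, 9754), (25, 9), (81, 22)]), (3, [(0, 498), (24, 699), (63, 3)]), (1, [(0, 5), (20, 4), (25, 2), (81, 1)]), (1, [(20, 5), (21, 4), (26, 2), (80, 1)]), (3, [(21, 585), (27, 413), (73, 4), (82, 1)]), (0, [(21, 6)]), (4, [(0, 216), (4, 5823), (15,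 4037), (63, 17), (72, 6)]), (0, [(30, 1), (63, 1)]), (4, [(30, 41), (42, 9905), (54, 123), (72, 11)]), (4, [(30, 45), (42, 2682), (47, 7234), (54, 101), (72, 13)]), (3, [(30, 4), (42, 875), (47, 118), (54, 8), (72, 1)]), (4, [(30, 34), (42, 4211), (47, 5659), (54, 211), (72, 5)]), (4, [(30, 37), (42, 5728), (47, 4228), (54, 55), (72, 4)]), (0, [(47, 1)]), (3, [(47, 1001)]), (4, [(30, 12), (42, 9947), (54, 77), (72, 21)]), (3, [(47, 1001)]), (4, [(47, 8680), (54, 375), (55, 7), (57, 1114), (73, 6)]), (3, [(30, 7), (42, 169), (47, 825), (54, 3), (72, 1)]), (4, [(30, 118), (47, 9783), (54, 128), (57, 60), (72, 24)]), (3, [(53, 1014), (55, 40), (73, 2)]), (3, [(47, 1001)]), (3, [(47, 947), (54, 16), (55, 1), (57, 45)]), (3, [(30, 2), (47, 816), (54, 23), (57, 169), (72, 1)]), (3, [(30, 9), (47, 739), (54, 30), (57, 236), (72, 2)]), (3, [(53, 1011), (73, 1)]), (3, [(30, 1), (47, 823), (57, 177)]), (3, [(30, 1), (47,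 440), (54, 1), (57, 558), (72, 2)]), (3, [(30, 1), (54, 2), (57, 1004), (72, 1), (81, 1)]), (4, [(30, 532), (52, 9663), (63, 20), (81, 1)]), (4, [(53, 9498), (55, 884), (73, 23)]), (0, [(54, 5)]), (0, [(55, 4)]), (4, [(30, 15), (47, 5071), (54, 12), (57, 4952), (72, 3)]), (4, [(30, 23), (54, 189), (57, 9817), (72, 12), (81, 10)]), (2, [(55, 19), (58, 84), (73, 1), (82, 1)]), (1, [(54, 5), (55, 4), (59, 2), (80, 1)]), (3, [(55, 362), (58, 855), (82, 2)]), (1, [(30, 5), (54, 4), (61, 2), (81, 1)]), (4, [(30, 14), (47, 2649), (54, 17), (57, 7382), (72, 7)]), (0, [(63, 2)]), (2, [(63, 2), (64, 98), (81, 1)]), (2, [(66, 98), (72, 1), (80, 1)]), (2, [(66, 97), (72, 4), (80, 1)]), (2, [(66, 96), (72, 5), (80, 2)]), (1, [(63, 3), (68, 9)]), (0, [(71, 1)]), (2, [(67, 95), (72, 9)]), (1, [(71, 8), (73, 4)]), (0, [(72, 2)]), (0, [(73, 2)]), (1, [(73, 5), (74, 7)]), (0, [(63, 2)]), (1, [(69, 5), (72, 6)]), (0, [(74, 1)]), (1,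 [(73, 5), (74, 5)]), (0, [(73, 2)]), (0, [(72, 2)]), (0, [(63, 2)]), (1, [(73, 11)])],
  [(4, [(36, 10001)]), (0, [(17, 1)]), (0, [(12, 1)]), (3, [(13, 1001)]), (3, [(13, 1001)]), (3, [(13, 175), (16, 89), (17, 739), (65, 1)]), (3, [(0, 9), (4, 4), (15, 988), (63, 2)]), (3, [(0, 5), (3, 289), (6, 404), (15, 302), (63, 1)]), (4, [(0, 76), (6, 3420), (15, 6121), (29, 396), (63, 12)]), (4, [(0, 83), (6, 223), (15, 8306), (29, 1382), (63, 14)]), (5, [(0, 885), (4, 19279), (15, 79975), (63, 153), (72, 9)]), (0, [(17, 1)]), (3, [(13, 1002)]), (3, [(13, 1001)]), (4, [(13, 10001)]), (3, [(13, 124), (16, 47), (17, 832), (65, 1)]), (4, [(13, 698), (16, 290), (17, 9044), (65, 11)]), (3, [(13, 32), (16, 13), (17, 957), (65, 2)]), (5, [(0, 988), (4, 31047), (15, 67914), (63, 83), (72, 26)]), (6, [(0, 6260), (4, 193450), (15, 801711), (63, 434), (72, 155)]), (4, [(0, 81), (4, 3430), (15, 6486), (63, 6), (72, 2)]), (5, [(0, 906),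 (4, 47086), (15, 52392), (63, 70), (72, 27)]), (5, [(0, 945), (4, 59482), (15, 39733), (63, 85), (72, 36)]), (5, [(0, 962), (4, 72438), (15, 26743), (63, 97), (72, 44)]), (4, [(32, 2050), (46, 4325), (47, 3640), (54, 5), (72, 1)]), (3, [(32, 89), (36, 381), (45, 84), (46, 447)]), (3, [(46, 1001)]), (5, [(46, 70403), (47, 19349), (57, 10579), (72, 14), (80, 1)]), (4, [(46, 4457), (47, 3216), (57, 2415), (72, 3)]), (3, [(47, 1001)]), (3, [(32, 742), (42, 92), (47, 167), (54, 1)]), (3, [(42, 1002)]), (3, [(47, 1001)]), (3, [(47, 1001)]), (3, [(46, 173), (47, 492), (57, 341)]), (3, [(41, 398), (46, 144), (47, 332), (57, 131)]), (2, [(41, 11), (46, 29), (47, 31), (57, 30)]), (3, [(57, 1002)]), (3, [(57, 1001)]), (2, [(57, 101)]), (4, [(30, 3), (47, 336), (54, 10), (57, 9765), (72, 5)]), (4, [(47, 10003)]), (5, [(31, 44306), (32, 26258), (45, 29142), (54, 466), (72, 13)]), (3, [(47, 1001)]), (4, [(47, 10001)]), (4, [(31,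 7747), (42, 2209), (54, 57), (72, 11)]), (5, [(31, 77454), (42, 22060), (48, 2), (54, 566), (72, 158)]), (3, [(63, 7), (64, 985), (72, 1), (81, 10)]), (3, [(66, 990), (72, 6), (73, 2), (80, 6)]), (0, [(0, 1), (63, 1)]), (0, [(3, 1)]), (0, [(8, 1)]), (4, [(0, 45), (7, 9393), (20, 1), (23, 576), (81, 4)]), (5, [(0, 995), (4, 86258), (15, 12994), (63, 81), (72, 54)]), (3, [(16, 1001)]), (3, [(7, 1001)]), (4, [(0, 192), (7, 8411), (20, 16), (23, 1450), (81, 8)]), (3, [(17, 1001)]), (3, [(12, 122), (16, 97), (17, 785)]), (3, [(17, 1001)]), (4, [(17, 8940), (18, 1087), (20, 6), (72, 3), (80, 2)]), (5, [(17, 100001)]), (5, [(17, 84187), (18, 15906), (20, 122), (72, 42), (80, 53)]), (2, [(13, 60), (17, 39), (20, 2)]), (4, [(0, 83), (7, 9046), (20, 11), (23, 889), (81, 4)]), (2, [(18, 101)]), (3, [(18, 1008), (20, 1), (21, 2), (73, 1)]), (4, [(18, 9573), (21, 770), (73, 13)]), (4, [(19, 9874), (21, 142), (73, 5), (74, 6)]),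 (0, [(20, 3)]), (0, [(21, 3)]), (4, [(0, 206), (7, 6921), (20, 2), (23, 2943), (81, 5)]), (4, [(0, 148), (23, 9868), (25, 9), (81, 11)]), (3, [(0, 306), (24, 967), (63, 2)]), (1, [(0, 3), (20, 5), (25, 3), (81, 1)]), (1, [(20, 3), (21, 5), (26, 3), (80, 1)]), (3, [(21, 386), (27, 613), (73, 2), (82, 1)]), (1, [(27, 11)]), (5, [(0, 963), (4, 63865), (15, 35436), (63, 66), (72, 45)]), (0, [(30, 1), (63, 1)]), (5, [(30, 63), (42, 99467), (48, 1), (54, 957), (72, 4)]), (5, [(30, 85), (42, 56474), (47, 43063), (54, 823), (72, 14)]), (4, [(47, 10001)]), (3, [(32, 294), (42, 336), (47, 362), (54, 17)]), (3, [(47, 1001)]), (3, [(46, 988), (54, 4), (57, 10)]), (3, [(42, 766), (47, 236), (54, 1)]), (4, [(31, 8121), (42, 1835), (54, 59), (72, 19)]), (3, [(40, 1001)]), (3, [(46, 484), (47, 427), (54, 16), (55, 1), (57, 77)]), (4, [(47, 10001)]), (4, [(30, 45), (42, 2679), (47, 7225), (54, 101), (72, 13)]), (3, [(53, 1020),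 (55, 14), (73, 1)]), (3, [(30, 2), (42, 264), (47, 684), (57, 52)]), (3, [(47, 1002)]), (3, [(46, 5), (47, 886), (54, 14), (57, 101)]), (3, [(30, 2), (47, 814), (54, 23), (57, 169), (72, 1)]), (4, [(48, 5482), (53, 4553), (71, 1), (73, 5)]), (3, [(42, 354), (47, 458), (57, 192)]), (4, [(32, 154), (46, 55), (47, 4900), (57, 4983), (72, 8)]), (4, [(30, 3), (54, 13), (57, 10071), (72, 2), (81, 3)]), (5, [(30, 2402), (52, 98270), (63, 97), (81, 8)]), (4, [(53, 9748), (55, 403), (73, 11)]), (0, [(54, 3)]), (0, [(55, 3)]), (3, [(42, 43), (47, 526), (57, 436)]), (4, [(54, 143), (57, 9875), (72, 11)]), (3, [(55, 91), (58, 951), (73, 1), (82, 1)]), (1, [(54, 3), (55, 5), (59, 3), (80, 1)]), (3, [(55, 185), (58, 923), (82, 1)]), (1, [(30, 3), (54, 5), (61, 3), (81, 1)]), (3, [(57, 1001)]), (0, [(63, 2)]), (3, [(63, 7), (64, 985), (72, 1), (81, 10)]), (3, [(66, 990), (72, 6), (73, 2), (80, 6)]), (3, [(66, 981), (72, 16), (73,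 2), (80, 10)]), (2, [(66, 98), (72, 2), (80, 1)]), (2, [(63, 13), (68, 93)]), (0, [(71, 1)]), (2, [(67, 97), (72, 4)]), (2, [(71, 92), (73, 17)]), (0, [(72, 2)]), (0, [(73, 2)]), (1, [(73, 3), (74, 9)]), (1, [(63, 11)]), (1, [(69, 7), (72, 4)]), (1, [(74, 11)]), (3, [(74, 1001)]), (1, [(73, 11)]), (1, [(73, 11)]), (1, [(72, 11)]), (1, [(73, 5), (82, 7)])],
  [(5, [(32, 1324), (36, 76170), (46, 17122), (57, 5467), (72, 18)]), (5, [(17, 96697), (18, 3703), (20, 26), (72, 15), (80, 35)]), (3, [(13, 1001)]), (4, [(13, 10001)]), (4, [(17, 9864), (18, 179), (80, 5)]), (3, [(17, 982), (18, 22), (80, 1)]), (4, [(0, 116), (7, 9223), (22, 628), (23, 74), (63, 18)]), (5, [(0, 684), (3, 42699), (15, 33138), (22, 23747), (63, 92)]), (3, [(0, 10), (3, 208), (15, 689), (22, 96), (63, 2)]), (3, [(0, 12), (4, 41), (15, 951), (63, 2)]), (4, [(0, 130), (4, 1246), (15, 8663), (63, 22), (72, 1)]), (4, [(17, 9681), (18, 355), (20, 3),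 (80, 5)]), (3, [(13, 1001)]), (4, [(13, 10001)]), (4, [(17, 9935), (18, 103), (20, 1), (80, 5)]), (3, [(17, 985), (18, 18), (80, 1)]), (4, [(17, 9872), (18, 193), (20, 1), (80, 15)]), (5, [(1, 3), (17, 98524), (18, 1719), (20, 9), (80, 205)]), (4, [(0, 143), (4, 2424), (15, 7477), (63, 15), (72, 3)]), (4, [(0, 93), (4, 1251), (15, 8689), (63, 11), (72, 2)]), (5, [(0, 1188), (4, 27474), (15, 71738), (63, 119), (72, 25)]), (5, [(0, 1311), (4, 40033), (15, 59075), (63, 134), (72, 33)]), (4, [(0, 137), (4, 5247), (15, 4658), (63, 15), (72, 4)]), (4, [(0, 139), (4, 6536), (15, 3365), (63, 16), (72, 5)]), (3, [(47, 1001)]), (3, [(46, 1001)]), (5, [(46, 55893), (47, 38172), (57, 6256), (73, 1), (80, 1)]), (5, [(46, 19414), (47, 64733), (57, 16319), (72, 6), (80, 6)]), (4, [(47, 7028), (54, 3), (57, 3029), (72, 4)]), (5, [(30, 26), (42, 46132), (47, 53690), (54, 578), (72, 16)]), (3, [(42, 1002)]), (3, [(47, 1001)]), (3,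 [(47, 1001)]), (4, [(30, 1), (42, 9984), (54, 57), (72, 3)]), (3, [(47, 1001)]), (2, [(42, 48), (47, 31), (57, 22)]), (2, [(42, 5), (47, 61), (57, 35)]), (3, [(57, 1001)]), (2, [(57, 101)]), (4, [(30, 5), (47, 1237), (54, 15), (57, 8932), (72, 5)]), (4, [(30, 6), (54, 16), (57, 10182), (72, 8), (81, 2)]), (3, [(42, 1001)]), (3, [(47, 1001)]), (3, [(47, 1001)]), (4, [(31, 1006), (42, 8971), (54, 64), (72, 4)]), (3, [(31, 26), (42, 971), (54, 6), (72, 1)]), (4, [(31, 148), (42, 9821), (54, 65), (72, 13)]), (3, [(63, 11), (64, 981), (81, 15)]), (2, [(66, 99), (72, 1), (80, 1)]), (0, [(0, 1), (63, 1)]), (5, [(3, 75551), (15, 6665), (22, 13334), (23, 4506), (63, 33)]), (3, [(10, 701), (12, 103), (16, 197)]), (3, [(0, 8), (7, 858), (23, 137), (81, 1)]), (4, [(0, 143), (4, 7910), (15, 1998), (63, 15), (72, 6)]), (4, [(16, 8982), (18, 1051), (65, 2), (73, 2)]), (5, [(0, 206), (7, 91912), (20, 2), (23, 8027), (81, 35)]),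 (4, [(0, 280), (7, 7587), (20, 18), (23, 2228), (81, 12)]), (3, [(17, 1001)]), (3, [(17, 1001)]), (4, [(17, 8901), (18, 1127), (20, 5), (80, 5)]), (5, [(17, 84279), (18, 15923), (20, 122), (72, 42), (80, 53)]), (0, [(18, 1)]), (4, [(17, 7844), (18, 2158), (20, 21), (72, 6), (80, 9)]), (3, [(13, 560), (17, 435), (20, 35)]), (3, [(0, 13), (7, 823), (20, 1), (23, 168), (81, 1)]), (2, [(18, 101)]), (3, [(18, 1005), (20, 3), (21, 5), (73, 1)]), (3, [(18, 947), (20, 3), (21, 94), (73, 1), (80, 1)]), (4, [(19, 9830), (21, 206), (73, 7), (74, 9)]), (0, [(20, 4)]), (0, [(21, 3)]), (3, [(0, 30), (7, 610), (23, 371), (81, 1)]), (4, [(0, 216), (23, 9823), (25, 9), (81, 16)]), (3, [(0, 386), (24, 836), (63, 2)]), (1, [(0, 4), (20, 5), (25, 3), (81, 1)]), (1, [(20, 4), (21, 5), (26, 3), (80, 1)]), (3, [(21, 478), (27, 520), (73, 3)]), (3, [(21, 780), (27, 217), (28, 2), (73, 3), (82, 1)]), (4, [(0, 139), (4, 5682), (15, 4231),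 (63, 13), (72, 5)]), (0, [(30, 1), (63, 1)]), (4, [(30, 18), (42, 9939), (54, 109), (72, 6)]), (3, [(30, 2), (42, 172), (47, 823), (54, 8), (72, 1)]), (4, [(30, 20), (42, 7763), (47, 2157), (54, 70), (72, 4)]), (3, [(47, 1001)]), (3, [(47, 1001)]), (3, [(47, 1001)]), (3, [(47, 1001)]), (4, [(31, 449), (42, 9524), (54, 68), (72, 16)]), (4, [(46, 10001)]), (2, [(47, 85), (54, 2), (57, 14)]), (3, [(30, 4), (42, 72), (47, 925), (54, 2), (72, 1)]), (3, [(30, 7), (47, 960), (54, 11), (57, 29), (72, 2)]), (3, [(53, 999), (55, 23), (73, 2)]), (3, [(30, 4), (47, 917), (57, 83)]), (3, [(47, 1001)]), (4, [(30, 4), (47, 7958), (54, 202), (57, 1929), (72, 5)]), (3, [(30, 5), (47, 720), (54, 26), (57, 260), (72, 2)]), (4, [(48, 3452), (53, 6612), (71, 2), (73, 7)]), (3, [(42, 103), (47, 673), (57, 226)]), (4, [(30, 4), (47, 4213), (54, 6), (57, 5870), (72, 13)]), (4, [(30, 6), (54, 18), (57, 9983), (72, 4), (81, 7)]), (3, [(30,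 35), (52, 986), (63, 2)]), (3, [(53, 965), (55, 58), (73, 2)]), (0, [(54, 4)]), (0, [(55, 3)]), (3, [(47, 484), (57, 519)]), (4, [(30, 6), (54, 168), (57, 9848), (72, 5), (81, 11)]), (2, [(55, 13), (58, 89), (73, 1), (82, 1)]), (1, [(54, 4), (55, 5), (59, 3), (80, 1)]), (3, [(55, 253), (58, 895), (82, 2)]), (1, [(30, 4), (54, 5), (61, 3), (81, 1)]), (3, [(57, 1001)]), (0, [(63, 2)]), (3, [(63, 11), (64, 981), (81, 15)]), (2, [(66, 99), (72, 1), (80, 1)]), (2, [(66, 98), (72, 2), (80, 1)]), (2, [(66, 76), (67, 21), (72, 3), (80, 2)]), (1, [(63, 2), (68, 9)]), (2, [(71, 101)]), (2, [(67, 96), (72, 6)]), (1, [(71, 9), (73, 2)]), (0, [(72, 2)]), (0, [(73, 2)]), (1, [(73, 4), (74, 8)]), (0, [(63, 2)]), (2, [(65, 1), (69, 55), (72, 42), (73, 5)]), (1, [(74, 11)]), (4, [(74, 10001)]), (1, [(73, 11)]), (0, [(73, 2)]), (1, [(72, 11)]), (2, [(73, 101)])],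
  [(5, [(32, 5393), (36, 58432), (46, 20810), (57, 15557), (72, 35)]), (3, [(17, 951), (18, 52), (80, 1)]), (3, [(13, 1001)]), (4, [(17, 9864), (18, 179), (80, 5)]), (3, [(17, 972), (18, 32), (80, 1)]), (4, [(17, 9669), (18, 360), (20, 2), (80, 15)]), (4, [(0, 150), (7, 8652), (23, 1263), (63, 19), (81, 2)]), (4, [(0, 68), (7, 771), (15, 2360), (22, 6846), (63, 12)]), (4, [(0, 108), (7, 3934), (15, 1189), (22, 4829), (63, 17)]), (4, [(0, 134), (7, 4081), (15, 4105), (22, 1744), (63, 23)]), (4, [(0, 156), (4, 332), (15, 9578), (63, 29), (72, 1)]), (3, [(17, 952), (18, 50), (80, 1)]), (3, [(13, 1001)]), (4, [(17, 10024), (18, 13), (20, 4), (80, 5)]), (3, [(17, 979), (18, 24), (80, 1)]), (4, [(17, 9741), (18, 323), (20, 3), (80, 15)]), (3, [(17, 972), (18, 34), (80, 2)]), (4, [(17, 9699), (18, 318), (20, 3), (80, 26)]), (4, [(0, 171), (4, 1506), (15, 8395), (63, 22), (72, 3)]), (3, [(0, 11), (4, 34), (15, 961), (63,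 2)]), (5, [(0, 1424), (4, 18266), (15, 80969), (63, 193), (72, 25)]), (4, [(0, 157), (4, 3078), (15, 6834), (63, 21), (72, 3)]), (4, [(0, 164), (4, 4316), (15, 5589), (63, 22), (72, 4)]), (4, [(0, 167), (4, 5600), (15, 4301), (63, 24), (72, 5)]), (5, [(30, 37), (47, 87721), (54, 40), (57, 12643), (72, 45)]), (5, [(46, 70403), (47, 19349), (57, 10579), (72, 14), (80, 1)]), (5, [(46, 19414), (47, 64733), (57, 16319), (72, 6), (80, 6)]), (4, [(30, 1), (47, 7285), (54, 4), (57, 2767), (72, 4)]), (4, [(30, 3), (47, 5756), (54, 6), (57, 4298), (72, 8)]), (5, [(30, 96), (47, 98298), (54, 479), (57, 1668), (72, 78)]), (3, [(42, 1001)]), (3, [(47, 1001)]), (4, [(30, 8), (42, 5388), (47, 4623), (54, 38), (72, 4)]), (4, [(30, 5), (42, 9941), (54, 60), (72, 8)]), (3, [(57, 1001)]), (3, [(42, 1001)]), (3, [(57, 1001)]), (3, [(57, 1001)]), (4, [(30, 7), (47, 1749), (54, 15), (57, 8326), (72, 6)]), (3, [(54, 1), (57, 1008), (72,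 1)]), (5, [(30, 87), (54, 192), (57, 100763), (72, 79), (81, 78)]), (4, [(30, 4), (42, 10041), (54, 77), (72, 5)]), (3, [(47, 1001)]), (4, [(30, 1), (42, 9998), (54, 68), (72, 3)]), (4, [(30, 3), (42, 9936), (54, 67), (72, 8)]), (4, [(30, 4), (42, 9985), (54, 67), (72, 13)]), (4, [(30, 4), (42, 9981), (54, 68), (72, 18)]), (3, [(63, 14), (64, 978), (81, 16)]), (2, [(67, 99), (72, 1), (80, 1)]), (0, [(0, 1), (63, 1)]), (4, [(3, 5863), (15, 892), (22, 1894), (23, 1350), (63, 6)]), (4, [(11, 10001)]), (5, [(0, 1065), (7, 74777), (20, 17), (23, 24648), (81, 106)]), (4, [(0, 171), (4, 6968), (15, 2940), (63, 22), (72, 6)]), (3, [(17, 1001)]), (5, [(0, 352), (7, 80912), (20, 3), (23, 19011), (81, 64)]), (4, [(0, 340), (7, 6495), (20, 19), (23, 3296), (81, 15)]), (4, [(16, 4453), (18, 5630), (65, 4), (73, 3)]), (4, [(17, 9186), (18, 851), (20, 3), (80, 5)]), (4, [(17, 8706), (18, 1317), (20, 8), (80, 10)]), (5, [(17, 82076),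 (18, 18060), (20, 167), (72, 43), (80, 102)]), (3, [(18, 1013), (21, 1), (80, 1)]), (5, [(17, 75935), (18, 24013), (20, 276), (72, 59), (80, 135)]), (3, [(13, 548), (17, 430), (20, 41), (72, 1)]), (3, [(0, 16), (7, 713), (20, 1), (23, 276), (81, 1)]), (3, [(18, 1004), (21, 15), (73, 1)]), (3, [(18, 1003), (20, 4), (21, 7), (73, 1), (80, 1)]), (3, [(18, 943), (20, 7), (21, 100), (73, 2), (80, 2)]), (3, [(19, 975), (21, 25), (73, 1), (74, 2)]), (0, [(20, 5)]), (0, [(21, 4)]), (4, [(0, 364), (7, 5081), (20, 2), (23, 4840), (81, 11)]), (4, [(0, 263), (23, 9792), (25, 8), (81, 22)]), (3, [(0, 431), (24, 766), (63, 3)]), (1, [(0, 5), (20, 4), (25, 2), (81, 1)]), (1, [(20, 5), (21, 4), (26, 2), (80, 1)]), (3, [(21, 527), (27, 471), (73, 4), (82, 1)]), (3, [(21, 808), (27, 189), (28, 1), (73, 3), (82, 1)]), (4, [(0, 166), (4, 4749), (15, 5165), (63, 20), (72, 5)]), (0, [(30, 1), (63, 1)]), (4, [(30, 27), (42, 9948), (54,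 115), (72, 11)]), (4, [(30, 33), (47, 9104), (54, 87), (57, 847), (72, 13)]), (3, [(30, 3), (42, 249), (47, 754), (54, 5), (72, 1)]), (3, [(30, 2), (47, 934), (54, 18), (57, 47), (72, 1)]), (4, [(30, 28), (47, 9920), (54, 33), (57, 132), (72, 5)]), (3, [(47, 1001)]), (3, [(47, 1001)]), (4, [(30, 4), (42, 9986), (54, 71), (72, 21)]), (3, [(46, 561), (47, 311), (54, 1), (57, 131)]), (4, [(47, 7256), (54, 296), (55, 9), (57, 2589), (73, 5)]), (3, [(30, 5), (47, 888), (54, 2), (57, 108), (72, 1)]), (4, [(30, 91), (47, 8342), (54, 122), (57, 1533), (72, 23)]), (3, [(53, 1015), (55, 30), (73, 2)]), (3, [(47, 1001)]), (4, [(47, 10001)]), (3, [(30, 1), (47, 670), (54, 22), (57, 317), (72, 1)]), (3, [(30, 6), (47, 602), (54, 28), (57, 387), (72, 2)]), (3, [(48, 207), (53, 802), (71, 1), (73, 1)]), (3, [(30, 1), (47, 675), (57, 328)]), (4, [(30, 8), (47, 2936), (54, 10), (57, 7145), (72, 17)]), (4, [(30, 8), (54, 21), (57,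 10117), (72, 3), (81, 12)]), (4, [(30, 421), (52, 9720), (63, 20), (81, 1)]), (4, [(53, 9586), (55, 703), (73, 22)]), (0, [(54, 5)]), (0, [(55, 4)]), (3, [(57, 1001)]), (4, [(30, 12), (54, 179), (57, 9832), (72, 5), (81, 16)]), (2, [(55, 15), (58, 87), (73, 1), (82, 1)]), (1, [(54, 5), (55, 4), (59, 2), (80, 1)]), (3, [(55, 298), (58, 878), (82, 2)]), (1, [(30, 5), (54, 4), (61, 2), (81, 1)]), (4, [(30, 10), (47, 1146), (54, 18), (57, 8902), (72, 6)]), (0, [(63, 2)]), (3, [(63, 14), (64, 979), (81, 16)]), (2, [(67, 99), (72, 1), (80, 1)]), (2, [(66, 16), (67, 82), (72, 2), (80, 1)]), (2, [(67, 96), (72, 4), (80, 2)]), (1, [(63, 2), (68, 9)]), (2, [(71, 101)]), (2, [(67, 96), (72, 7)]), (1, [(71, 9), (73, 3)]), (0, [(72, 2)]), (0, [(73, 2)]), (1, [(73, 4), (74, 8)]), (0, [(63, 2)]), (1, [(69, 6), (72, 5)]), (1, [(74, 11)]), (1, [(73, 5), (74, 7)]), (1, [(73, 11)]), (0, [(73, 2)]), (0, [(63, 2)]), (1, [(73, 11)])],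
  [(4, [(32, 901), (36, 4629), (46, 1643), (57, 2891), (72, 5)]), (4, [(17, 9472), (18, 556), (20, 6), (72, 1), (80, 15)]), (3, [(13, 175), (16, 89), (17, 739), (65, 1)]), (3, [(17, 982), (18, 22), (80, 1)]), (4, [(17, 9669), (18, 360), (20, 2), (80, 15)]), (3, [(17, 966), (18, 41), (80, 2)]), (4, [(0, 171), (7, 7333), (23, 2581), (63, 18), (81, 5)]), (4, [(0, 75), (7, 2329), (22, 6383), (23, 1276), (63, 13)]), (3, [(0, 12), (7, 481), (22, 370), (23, 144), (63, 2)]), (4, [(0, 143), (7, 6841), (22, 2057), (23, 1047), (63, 24)]), (4, [(0, 149), (7, 8271), (22, 1576), (23, 97), (63, 31)]), (4, [(17, 9474), (18, 550), (20, 6), (80, 15)]), (4, [(13, 1993), (17, 8043), (20, 7), (72, 5)]), (3, [(17, 1002), (18, 4), (80, 1)]), (4, [(17, 9784), (18, 279), (20, 4), (80, 15)]), (3, [(17, 969), (18, 37), (80, 2)]), (5, [(1, 3), (17, 96345), (18, 3824), (20, 44), (80, 255)]), (4, [(17, 9648), (18, 364), (20, 4), (80, 31)]),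 (4, [(0, 185), (4, 401), (15, 9408), (63, 30), (72, 3)]), (3, [(0, 10), (7, 958), (22, 9), (23, 32), (63, 2)]), (3, [(0, 15), (4, 72), (15, 913), (63, 3)]), (4, [(0, 169), (4, 1950), (15, 7875), (63, 29), (72, 3)]), (5, [(0, 1785), (4, 32041), (15, 67143), (63, 305), (72, 38)]), (4, [(0, 183), (4, 4530), (15, 5487), (63, 32), (72, 4)]), (5, [(30, 67), (47, 72482), (54, 68), (57, 27906), (72, 89)]), (4, [(46, 4457), (47, 3216), (57, 2415), (72, 3)]), (4, [(47, 7028), (54, 3), (57, 3029), (72, 4)]), (4, [(30, 3), (47, 5756), (54, 6), (57, 4298), (72, 8)]), (4, [(30, 6), (47, 4254), (54, 9), (57, 5872), (72, 12)]), (4, [(30, 14), (47, 8313), (54, 52), (57, 1685), (72, 12)]), (3, [(42, 1001)]), (4, [(30, 12), (47, 9071), (54, 11), (57, 969), (72, 5)]), (3, [(30, 1), (47, 979), (54, 2), (57, 25), (72, 1)]), (4, [(30, 11), (42, 3848), (47, 6175), (54, 42), (72, 15)]), (4, [(30, 10), (47, 3025), (54, 17), (57, 7034), (72,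 7)]), (3, [(42, 1001)]), (3, [(57, 1001)]), (4, [(30, 8), (47, 1995), (54, 14), (57, 8079), (72, 6)]), (3, [(30, 1), (47, 21), (54, 1), (57, 996), (72, 1)]), (4, [(30, 10), (54, 20), (57, 10074), (72, 9), (81, 7)]), (4, [(30, 10), (54, 20), (57, 10069), (72, 7), (81, 14)]), (3, [(42, 1008), (54, 7), (72, 1)]), (4, [(32, 205), (42, 3594), (47, 6235), (54, 57), (72, 5)]), (4, [(30, 4), (42, 10019), (54, 67), (72, 8)]), (4, [(30, 6), (42, 10012), (54, 67), (72, 13)]), (4, [(30, 7), (42, 10006), (54, 67), (72, 18)]), (4, [(30, 7), (42, 10001), (54, 67), (72, 24)]), (3, [(63, 16), (64, 976), (81, 17)]), (2, [(67, 99), (72, 1), (80, 1)]), (0, [(0, 1), (63, 1)]), (4, [(3, 4703), (15, 897), (22, 1813), (23, 2617), (63, 8)]), (4, [(10, 3183), (13, 4396), (16, 2432), (65, 6)]), (4, [(0, 123), (7, 6154), (20, 1), (23, 3789), (81, 13)]), (4, [(0, 189), (4, 5910), (15, 4122), (63, 30), (72, 5)]), (4, [(16, 7541), (17, 303),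 (18, 2195), (65, 8), (73, 4)]), (3, [(0, 4), (7, 674), (23, 322), (81, 1)]), (4, [(0, 379), (7, 5189), (20, 20), (23, 4594), (81, 17)]), (3, [(16, 323), (17, 45), (18, 641), (65, 1)]), (3, [(17, 913), (18, 91), (80, 1)]), (4, [(17, 8633), (18, 1384), (20, 10), (80, 15)]), (3, [(17, 810), (18, 187), (20, 2), (80, 2)]), (3, [(18, 1011), (21, 1), (80, 1)]), (4, [(17, 7506), (18, 2483), (20, 32), (72, 5), (80, 20)]), (4, [(1, 1), (13, 5557), (17, 4204), (20, 450), (72, 12)]), (4, [(0, 189), (7, 5813), (20, 14), (23, 4083), (81, 13)]), (3, [(18, 1017), (21, 18), (73, 1)]), (4, [(18, 10015), (20, 48), (21, 76), (73, 7), (80, 14)]), (3, [(18, 940), (20, 8), (21, 102), (73, 1), (80, 2)]), (3, [(19, 978), (21, 28), (73, 1), (74, 2)]), (0, [(0, 1), (20, 1), (72, 1)]), (0, [(21, 5)]), (4, [(0, 400), (7, 3711), (20, 3), (23, 6074), (81, 14)]), (4, [(0, 293), (23, 9773), (25, 6), (81, 27)]), (3, [(0, 461), (24, 736), (63, 4)]),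 (1, [(0, 5), (20, 4), (25, 2), (81, 1)]), (1, [(20, 5), (21, 4), (26, 2), (80, 1)]), (3, [(21, 553), (27, 444), (73, 4), (82, 1)]), (3, [(21, 822), (27, 174), (28, 1), (73, 4), (82, 1)]), (5, [(0, 1810), (4, 36342), (15, 62925), (63, 286), (72, 48)]), (0, [(30, 1), (63, 1)]), (4, [(30, 34), (42, 7781), (47, 2188), (54, 109), (72, 17)]), (3, [(30, 4), (47, 759), (54, 9), (57, 236), (72, 2)]), (4, [(30, 37), (47, 9062), (54, 53), (57, 929), (72, 15)]), (3, [(30, 3), (47, 793), (54, 19), (57, 198), (72, 1)]), (4, [(30, 34), (47, 8350), (54, 36), (57, 1650), (72, 10)]), (4, [(47, 6879), (54, 86), (57, 3112), (73, 4)]), (4, [(30, 24), (47, 8157), (54, 13), (57, 1920), (72, 4)]), (4, [(30, 7), (42, 10006), (54, 71), (72, 26)]), (3, [(46, 121), (47, 630), (54, 1), (57, 253)]), (4, [(47, 5749), (54, 342), (55, 6), (57, 4081), (73, 9)]), (4, [(30, 63), (47, 7327), (54, 29), (57, 2585), (72, 15)]), (4, [(30, 104), (47, 6838),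 (54, 128), (57, 3033), (72, 28)]), (3, [(53, 993), (55, 33), (73, 3)]), (4, [(30, 62), (47, 6349), (54, 9), (57, 3591), (72, 4)]), (4, [(47, 6496), (54, 153), (55, 9), (57, 3446), (73, 4)]), (4, [(30, 19), (47, 5199), (54, 225), (57, 4676), (72, 14)]), (3, [(30, 8), (47, 440), (54, 29), (57, 525), (72, 3)]), (3, [(48, 118), (53, 891), (71, 1), (73, 1)]), (4, [(30, 17), (47, 5225), (54, 6), (57, 4809), (72, 3)]), (4, [(30, 11), (47, 1396), (54, 13), (57, 8687), (72, 22)]), (3, [(30, 1), (54, 2), (57, 1011), (81, 2)]), (3, [(30, 47), (52, 969), (63, 3)]), (3, [(53, 955), (55, 78), (73, 3)]), (0, [(30, 1), (54, 1), (72, 1)]), (0, [(55, 5)]), (4, [(30, 14), (47, 2043), (54, 15), (57, 7999), (72, 6)]), (4, [(30, 15), (54, 185), (57, 9859), (72, 4), (81, 22)]), (2, [(55, 17), (58, 86), (73, 1), (82, 1)]), (1, [(54, 5), (55, 4), (59, 2), (80, 1)]), (3, [(55, 325), (58, 867), (82, 3)]), (1, [(30, 5), (54, 4), (61, 2), (81,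 1)]), (3, [(30, 1), (54, 2), (57, 1005), (72, 1)]), (0, [(63, 2)]), (3, [(63, 16), (64, 977), (81, 17)]), (2, [(67, 99), (72, 1), (80, 1)]), (2, [(67, 97), (72, 3), (80, 1)]), (2, [(67, 96), (72, 4), (80, 1)]), (1, [(63, 2), (68, 9)]), (2, [(71, 101)]), (2, [(67, 95), (72, 8)]), (1, [(71, 9), (73, 3)]), (0, [(72, 2)]), (0, [(73, 2)]), (1, [(73, 5), (74, 7)]), (0, [(63, 2)]), (1, [(69, 6), (72, 6)]), (1, [(74, 11)]), (1, [(73, 5), (74, 7)]), (0, [(73, 2)]), (0, [(72, 2)]), (0, [(63, 2)]), (1, [(73, 11)])],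
  [(4, [(32, 1144), (36, 3777), (46, 720), (57, 4409), (72, 7)]), (3, [(17, 951), (18, 54), (80, 2)]), (4, [(13, 940), (16, 491), (17, 8601), (65, 11)]), (4, [(17, 9859), (18, 210), (80, 15)]), (3, [(17, 971), (18, 36), (80, 2)]), (5, [(1, 1), (17, 96184), (18, 4017), (20, 39), (80, 255)]), (4, [(0, 185), (7, 5867), (23, 4054), (63, 18), (81, 8)]), (4, [(0, 84), (7, 2302), (22, 4657), (23, 3039), (63, 15)]), (3, [(0, 13), (7, 481), (22, 195), (23, 320), (63, 2)]), (3, [(0, 15), (7, 679), (22, 28), (23, 278), (63, 3)]), (4, [(0, 163), (7, 8125), (23, 1827), (63, 33)]), (3, [(17, 950), (18, 54), (80, 2)]), (3, [(13, 184), (17, 822), (72, 1)]), (5, [(1, 2), (17, 99898), (18, 370), (20, 60), (80, 154)]), (5, [(1, 3), (17, 97490), (18, 2726), (20, 51), (80, 204)]), (5, [(1, 3), (17, 96552), (18, 3614), (20, 49), (80, 255)]), (5, [(1, 3), (17, 96331), (18, 3787), (20, 49), (80, 306)]), (5, [(1, 3), (17, 96461), (18, 3611),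 (20, 47), (80, 358)]), (4, [(0, 173), (7, 9574), (23, 382), (63, 32), (81, 2)]), (4, [(0, 110), (7, 8096), (23, 1797), (63, 20), (81, 3)]), (3, [(0, 14), (7, 831), (15, 106), (22, 50), (63, 4)]), (3, [(0, 18), (4, 74), (15, 921), (63, 4)]), (4, [(0, 185), (4, 1971), (15, 7968), (63, 39), (72, 3)]), (4, [(0, 189), (4, 3246), (15, 6689), (63, 41), (72, 4)]), (4, [(30, 9), (47, 5550), (54, 9), (57, 4493), (72, 13)]), (4, [(57, 10001)]), (4, [(30, 2), (47, 5327), (54, 5), (57, 4735), (72, 8)]), (4, [(30, 6), (47, 4053), (54, 9), (57, 6007), (72, 12)]), (4, [(30, 9), (47, 2519), (54, 12), (57, 7544), (72, 17)]), (4, [(30, 17), (47, 6624), (54, 55), (57, 3379), (72, 17)]), (4, [(30, 8), (42, 294), (47, 6726), (57, 2984), (63, 4)]), (4, [(30, 15), (47, 7376), (54, 14), (57, 2669), (72, 9)]), (4, [(30, 16), (47, 8095), (54, 25), (57, 1944), (72, 15)]), (3, [(30, 1), (47, 925), (54, 3), (57, 78), (72, 2)]), (4, [(30, 12),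 (47, 1316), (54, 19), (57, 8749), (72, 11)]), (3, [(57, 1001)]), (4, [(30, 10), (47, 2172), (54, 10), (57, 7908), (72, 6)]), (3, [(30, 1), (47, 28), (54, 1), (57, 989), (72, 1)]), (4, [(30, 11), (54, 19), (57, 10074), (72, 9), (81, 6)]), (3, [(30, 1), (54, 2), (57, 1016), (72, 1), (81, 1)]), (4, [(30, 10), (54, 21), (57, 10064), (72, 5), (81, 21)]), (4, [(30, 13), (42, 3554), (47, 6484), (54, 57), (72, 17)]), (3, [(47, 927), (54, 4), (57, 78), (72, 1)]), (4, [(30, 8), (42, 5409), (47, 4641), (54, 52), (72, 14)]), (4, [(30, 8), (42, 10038), (54, 65), (72, 18)]), (4, [(30, 9), (42, 10032), (54, 66), (72, 24)]), (4, [(30, 9), (42, 10027), (54, 66), (72, 29)]), (3, [(63, 17), (64, 975), (68, 1), (81, 17)]), (2, [(67, 99), (72, 1), (80, 1)]), (0, [(0, 1), (63, 1)]), (3, [(3, 384), (15, 78), (22, 127), (23, 411), (63, 1)]), (3, [(10, 219), (13, 537), (16, 245), (65, 1)]), (3, [(0, 13), (7, 468), (23, 527), (81, 2)]),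 (4, [(0, 194), (4, 4601), (15, 5340), (63, 39), (72, 5)]), (4, [(16, 7056), (17, 535), (18, 2450), (65, 13), (73, 4)]), (4, [(0, 51), (7, 5281), (23, 4726), (81, 11)]), (3, [(0, 40), (7, 374), (20, 2), (23, 605), (81, 2)]), (3, [(16, 225), (17, 96), (18, 681), (65, 2), (73, 1)]), (4, [(17, 9154), (18, 910), (20, 4), (80, 15)]), (3, [(17, 862), (18, 139), (20, 1), (80, 2)]), (4, [(17, 8134), (18, 1868), (20, 22), (72, 2), (80, 23)]), (3, [(18, 996), (20, 1), (21, 2), (80, 2)]), (4, [(17, 7527), (18, 2493), (20, 35), (72, 3), (80, 27)]), (3, [(13, 564), (17, 410), (20, 47), (72, 2)]), (4, [(0, 204), (7, 4346), (20, 14), (23, 5556), (81, 15)]), (3, [(18, 1000), (21, 20), (73, 2)]), (3, [(18, 1001), (20, 5), (21, 8), (73, 1), (80, 2)]), (2, [(18, 90), (20, 1), (21, 10), (73, 1), (80, 1)]), (4, [(19, 9766), (21, 296), (73, 8), (74, 23)]), (0, [(0, 1), (20, 1), (72, 1)]), (0, [(21, 5)]), (3, [(0, 42), (7, 226), (23, 753),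 (81, 2)]), (4, [(0, 311), (23, 9759), (25, 4), (81, 32)]), (3, [(0, 478), (24, 718), (63, 4)]), (1, [(0, 5), (20, 4), (25, 2), (81, 1)]), (1, [(20, 5), (21, 4), (26, 2), (80, 1)]), (2, [(21, 68), (27, 51), (73, 1)]), (3, [(21, 830), (27, 167), (28, 1), (73, 4), (82, 1)]), (4, [(0, 188), (4, 2399), (15, 7549), (63, 37), (72, 4)]), (0, [(30, 1), (63, 1)]), (4, [(30, 41), (42, 648), (47, 9354), (54, 87), (72, 24)]), (4, [(30, 44), (47, 5908), (54, 95), (57, 4045), (72, 22)]), (4, [(30, 42), (47, 7375), (54, 56), (57, 2620), (72, 20)]), (4, [(30, 34), (47, 6253), (54, 198), (57, 3663), (72, 15)]), (4, [(30, 38), (47, 6660), (54, 39), (57, 3344), (72, 14)]), (4, [(47, 5210), (54, 103), (57, 4699), (72, 1), (80, 8)]), (4, [(30, 27), (47, 6420), (54, 16), (57, 3609), (72, 9)]), (3, [(42, 1014), (54, 7), (72, 3)]), (4, [(47, 5904), (54, 21), (55, 1), (57, 4141), (73, 3)]), (4, [(47, 4079), (54, 375), (55, 3), (57, 5745),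 (73, 14)]), (4, [(30, 69), (47, 5685), (54, 31), (57, 4291), (72, 19)]), (4, [(30, 112), (47, 5166), (54, 131), (57, 4706), (72, 32)]), (3, [(53, 1014), (55, 36), (73, 3)]), (4, [(30, 68), (47, 4693), (54, 12), (57, 5309), (72, 8)]), (4, [(47, 4809), (54, 176), (55, 7), (57, 5129), (73, 8)]), (3, [(30, 2), (47, 352), (54, 23), (57, 635), (72, 2)]), (3, [(30, 9), (47, 276), (54, 29), (57, 687), (72, 3)]), (4, [(48, 646), (53, 9454), (71, 11), (73, 10)]), (4, [(30, 20), (47, 3524), (54, 8), (57, 6515), (72, 7)]), (4, [(30, 13), (54, 15), (57, 10087), (72, 25), (81, 1)]), (3, [(30, 1), (54, 2), (57, 1003), (81, 3)]), (4, [(30, 493), (52, 9675), (63, 31), (81, 1)]), (4, [(53, 9520), (55, 823), (73, 33)]), (0, [(30, 1), (54, 1), (72, 1)]), (0, [(55, 5)]), (3, [(30, 1), (47, 33), (54, 1), (57, 978), (72, 1)]), (5, [(30, 175), (54, 1871), (57, 98149), (72, 24), (81, 292)]), (2, [(55, 18), (58, 85), (73, 1), (82, 1)]),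 (1, [(54, 5), (55, 4), (59, 2), (80, 1)]), (3, [(55, 342), (58, 861), (82, 4)]), (1, [(30, 5), (54, 4), (61, 2), (81, 1)]), (4, [(30, 13), (54, 21), (57, 10043), (72, 7), (81, 9)]), (0, [(63, 2)]), (3, [(63, 17), (64, 976), (68, 1), (81, 17)]), (2, [(67, 99), (72, 1), (80, 1)]), (2, [(67, 97), (72, 3), (80, 1)]), (2, [(67, 96), (72, 5), (80, 2)]), (1, [(63, 2), (68, 9)]), (2, [(71, 101)]), (2, [(67, 95), (72, 8)]), (1, [(71, 9), (73, 3)]), (0, [(72, 2)]), (0, [(73, 2)]), (1, [(73, 5), (74, 7)]), (0, [(63, 2)]), (1, [(69, 6), (72, 6)]), (1, [(74, 11)]), (1, [(73, 5), (74, 7)]), (0, [(73, 2)]), (0, [(72, 2)]), (0, [(63, 2)]), (1, [(73, 11)])],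
  [(4, [(0, 40), (6, 1598), (15, 7812), (29, 542), (63, 13)]), (4, [(30, 14), (42, 5577), (47, 4377), (54, 70), (72, 7)]), (3, [(47, 1001)]), (5, [(30, 26), (42, 46132), (47, 53690), (54, 578), (72, 16)]), (5, [(30, 96), (47, 98298), (54, 479), (57, 1668), (72, 78)]), (4, [(30, 14), (47, 8313), (54, 52), (57, 1685), (72, 12)]), (3, [(30, 220), (52, 900), (63, 4)]), (3, [(30, 132), (52, 940), (63, 3)]), (3, [(30, 177), (52, 920), (63, 3)]), (3, [(30, 199), (52, 911), (63, 4)]), (3, [(30, 209), (52, 906), (63, 4), (68, 1)]), (4, [(30, 19), (47, 7123), (54, 60), (57, 2875), (72, 7)]), (3, [(47, 1001)]), (4, [(30, 15), (47, 7932), (54, 44), (57, 2023), (72, 2)]), (4, [(30, 16), (47, 6111), (54, 54), (57, 3905), (72, 6)]), (3, [(30, 1), (47, 434), (54, 6), (57, 567), (72, 1)]), (4, [(30, 21), (47, 2555), (54, 64), (57, 7467), (72, 15)]), (4, [(30, 23), (47, 729), (54, 66), (57, 9300), (72, 19)]), (3, [(30, 220), (52,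 901), (63, 3), (68, 1)]), (3, [(30, 159), (52, 927), (63, 3), (68, 1)]), (3, [(30, 191), (52, 913), (63, 3), (68, 1)]), (3, [(30, 206), (52, 907), (63, 3), (68, 1)]), (3, [(30, 213), (52, 903), (63, 3), (68, 2)]), (3, [(30, 216), (52, 901), (63, 3), (68, 2)]), (4, [(0, 198), (7, 8992), (15, 877), (63, 22), (81, 2)]), (3, [(0, 9), (4, 4), (15, 988), (63, 2)]), (4, [(0, 116), (7, 9223), (22, 628), (23, 74), (63, 18)]), (4, [(0, 150), (7, 8652), (23, 1263), (63, 19), (81, 2)]), (4, [(0, 171), (7, 7333), (23, 2581), (63, 18), (81, 5)]), (3, [(0, 39), (4, 32), (15, 927), (63, 3), (72, 1)]), (3, [(0, 22), (4, 66), (15, 919), (63, 2)]), (4, [(0, 310), (4, 837), (15, 8954), (63, 18), (72, 4)]), (5, [(0, 3535), (4, 13495), (15, 84132), (63, 193), (72, 67)]), (5, [(0, 3747), (4, 21748), (15, 75733), (63, 207), (72, 86)]), (4, [(0, 206), (7, 6300), (23, 3609), (63, 9), (81, 7)]), (3, [(0, 18), (7, 625), (22, 320), (23, 37),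 (63, 2)]), (4, [(0, 173), (7, 7083), (23, 2939), (63, 10), (81, 2)]), (4, [(0, 179), (7, 5412), (23, 4526), (63, 7), (81, 7)]), (3, [(0, 19), (7, 389), (23, 606), (63, 1), (81, 1)]), (3, [(0, 20), (7, 234), (23, 761), (63, 1), (81, 1)]), (4, [(0, 206), (7, 762), (23, 9205), (63, 4), (81, 16)]), (5, [(0, 4008), (4, 33364), (15, 63977), (63, 126), (72, 115)]), (3, [(0, 28), (4, 219), (15, 762), (63, 1), (72, 1)]), (3, [(0, 34), (4, 370), (15, 617), (63, 1), (72, 1)]), (4, [(0, 371), (4, 4901), (15, 4851), (63, 12), (72, 11)]), (4, [(0, 386), (4, 6127), (15, 3615), (63, 13), (72, 12)]), (4, [(0, 392), (4, 7399), (15, 2337), (63, 15), (72, 13)]), (2, [(68, 101)]), (2, [(63, 3), (64, 98)]), (0, [(30, 1), (63, 1)]), (3, [(30, 34), (52, 986), (63, 2)]), (5, [(32, 69459), (45, 28790), (46, 1483), (54, 249), (72, 38)]), (3, [(30, 168), (52, 921), (63, 3)]), (3, [(30, 220), (52, 900), (63, 3), (68, 3)]), (4, [(45, 7600),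 (46, 2289), (54, 138), (72, 14), (73, 2)]), (4, [(30, 936), (52, 9550), (63, 23), (81, 2)]), (3, [(30, 391), (52, 835), (63, 3), (81, 1)]), (3, [(32, 1), (45, 220), (46, 753), (54, 26), (72, 2)]), (5, [(30, 85), (42, 56448), (47, 43044), (54, 822), (72, 14)]), (3, [(30, 2), (42, 172), (47, 822), (54, 8), (72, 1)]), (4, [(30, 45), (42, 2679), (47, 7224), (54, 101), (72, 13)]), (3, [(30, 1), (42, 125), (47, 839), (54, 38), (72, 1)]), (3, [(30, 7), (47, 959), (54, 11), (57, 29), (72, 2)]), (2, [(57, 101)]), (4, [(30, 2300), (52, 8940), (63, 27), (81, 7)]), (3, [(47, 957), (54, 68), (55, 1), (57, 4), (73, 1)]), (3, [(30, 9), (47, 926), (54, 48), (57, 38), (72, 2)]), (2, [(30, 2), (47, 68), (54, 21), (57, 21), (72, 1)]), (2, [(43, 33), (48, 57), (54, 3), (55, 16), (73, 1)]), (1, [(30, 10), (54, 1), (72, 1)]), (0, [(54, 6)]), (3, [(30, 404), (52, 829), (63, 4)]), (2, [(30, 31), (52, 85), (63, 1)]), (3, [(30, 1196), (63,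 4)]), (1, [(30, 10), (61, 1), (81, 1)]), (1, [(30, 5), (54, 5), (61, 1), (81, 1)]), (0, [(55, 7)]), (0, [(55, 6)]), (3, [(30, 214), (52, 903), (63, 3), (68, 2)]), (0, [(0, 1), (63, 1)]), (4, [(0, 734), (4, 2795), (15, 6773), (63, 15), (72, 17)]), (4, [(0, 735), (15, 9561), (63, 6), (72, 6), (81, 26)]), (4, [(0, 654), (4, 846), (15, 8764), (63, 23), (72, 11)]), (3, [(0, 82), (4, 9), (15, 944), (72, 3)]), (4, [(0, 577), (4, 342), (15, 9310), (63, 21), (72, 7)]), (4, [(0, 272), (7, 9706), (20, 5), (23, 112), (81, 18)]), (4, [(0, 414), (4, 161), (15, 9438), (63, 20), (72, 4)]), (4, [(0, 401), (4, 8755), (15, 985), (63, 13), (72, 14)]), (5, [(0, 1447), (7, 33787), (15, 65085), (72, 98), (81, 67)]), (4, [(0, 741), (7, 8604), (20, 37), (23, 947), (81, 23)]), (4, [(0, 834), (7, 4696), (15, 4834), (63, 19), (81, 15)]), (3, [(0, 142), (7, 688), (15, 236), (81, 5)]), (3, [(17, 956), (18, 4), (20, 84), (80, 1)]), (3, [(0, 76),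 (7, 893), (23, 66), (63, 2)]), (4, [(0, 395), (7, 9322), (20, 27), (23, 417), (81, 18)]), (3, [(0, 73), (7, 815), (20, 1), (23, 141), (81, 3)]), (3, [(0, 143), (7, 738), (20, 1), (23, 183), (81, 4)]), (3, [(17, 1001)]), (4, [(0, 283), (7, 8122), (23, 1715), (63, 14), (81, 1)]), (3, [(0, 20), (7, 491), (23, 503), (63, 2), (81, 1)]), (4, [(0, 216), (23, 9942), (63, 1), (81, 18)]), (3, [(0, 371), (24, 826), (63, 3)]), (3, [(18, 926), (20, 159), (80, 1)]), (1, [(0, 10), (20, 1), (72, 1)]), (0, [(20, 6)]), (4, [(0, 237), (7, 5430), (23, 4451), (63, 8), (81, 7)]), (3, [(0, 58), (23, 962), (25, 2), (81, 3)]), (2, [(19, 28), (21, 72), (73, 1), (74, 1)]), (1, [(0, 5), (20, 5), (25, 1), (81, 1)]), (3, [(18, 1), (19, 172), (20, 1), (21, 826), (73, 3)]), (1, [(0, 10), (25, 1), (81, 1)]), (4, [(0, 220), (7, 3357), (23, 6551), (63, 4), (81, 11)]), (0, [(63, 2)]), (2, [(68, 101)]), (2, [(63, 3), (64, 98)]), (2, [(63, 7), (64,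 95), (72, 1), (81, 1)]), (2, [(63, 10), (64, 93), (72, 1), (81, 2)]), (0, [(63, 2)]), (1, [(67, 9), (72, 1)]), (2, [(63, 14), (64, 91), (81, 2)]), (1, [(66, 7), (72, 5)]), (0, [(63, 2)]), (0, [(72, 2)]), (1, [(72, 11)]), (0, [(63, 2)]), (1, [(63, 11)]), (1, [(69, 6), (72, 3), (73, 2)]), (1, [(72, 11)]), (0, [(73, 2)]), (0, [(63, 2)]), (0, [(63, 2)]), (0, [(73, 2)])],
  [(4, [(0, 26), (6, 8112), (15, 1515), (29, 345), (63, 4)]), (3, [(42, 1001)]), (3, [(32, 742), (42, 92), (47, 167), (54, 1)]), (3, [(42, 1002)]), (3, [(42, 1001)]), (3, [(42, 1001)]), (3, [(30, 132), (52, 940), (63, 3)]), (4, [(30, 768), (52, 9675), (63, 10), (68, 1)]), (3, [(30, 105), (52, 954), (63, 2)]), (4, [(30, 1184), (52, 9468), (63, 19), (68, 4)]), (3, [(30, 125), (52, 943), (63, 2), (68, 1)]), (4, [(42, 10008)]), (3, [(42, 1002)]), (3, [(42, 1002)]), (3, [(42, 1001)]), (3, [(57, 1001)]), (2, [(57, 101)]), (4, [(30, 15), (47, 1206), (54, 9),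 (57, 8886), (72, 6)]), (4, [(30, 1321), (52, 9396), (63, 14), (68, 10)]), (3, [(30, 94), (52, 958), (63, 1), (68, 1)]), (4, [(30, 1135), (52, 9485), (63, 9), (68, 12)]), (3, [(30, 123), (52, 944), (63, 1), (68, 2)]), (4, [(30, 1275), (52, 9409), (63, 11), (68, 21)]), (3, [(30, 130), (52, 939), (63, 1), (68, 3)]), (4, [(0, 116), (3, 4078), (15, 4479), (22, 1362), (63, 15)]), (3, [(0, 5), (3, 289), (6, 404), (15, 302), (63, 1)]), (5, [(0, 684), (3, 42699), (15, 33138), (22, 23747), (63, 92)]), (4, [(0, 68), (7, 771), (15, 2360), (22, 6846), (63, 12)]), (4, [(0, 75), (7, 2329), (22, 6383), (23, 1276), (63, 13)]), (3, [(0, 22), (4, 66), (15, 919), (63, 2)]), (4, [(0, 129), (6, 5595), (15, 3566), (29, 745), (63, 7)]), (3, [(0, 17), (6, 228), (15, 625), (29, 130), (63, 1)]), (4, [(0, 197), (4, 1700), (15, 8165), (63, 12)]), (4, [(0, 209), (4, 2536), (15, 7319), (63, 14), (72, 1)]), (4, [(0, 99), (7, 2426), (22, 5030),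 (23, 2535), (63, 6)]), (3, [(22, 1001)]), (4, [(0, 78), (7, 1475), (22, 7040), (23, 1491), (63, 3)]), (4, [(0, 84), (7, 1858), (22, 4647), (23, 3510), (63, 4)]), (3, [(23, 1001)]), (2, [(23, 101)]), (3, [(0, 10), (7, 107), (23, 898), (63, 1)]), (3, [(0, 22), (4, 369), (15, 609), (63, 1)]), (4, [(0, 154), (4, 2548), (15, 7347), (63, 3), (72, 2)]), (5, [(0, 1907), (4, 40413), (15, 58286), (63, 40), (72, 24)]), (4, [(0, 208), (4, 5296), (15, 4561), (63, 6), (72, 3)]), (4, [(0, 217), (4, 6538), (15, 3311), (63, 7), (72, 4)]), (5, [(0, 2206), (4, 78275), (15, 20178), (63, 84), (72, 49)]), (1, [(68, 11)]), (2, [(63, 2), (64, 98), (81, 1)]), (0, [(30, 1), (63, 1)]), (5, [(30, 1772), (52, 100975), (63, 48), (68, 4)]), (7, [(32, 3463399), (34, 3555926), (39, 2985014), (54, 385)]), (3, [(30, 99), (52, 954), (63, 2)]), (3, [(30, 132), (52, 939), (63, 1), (68, 3)]), (3, [(47, 1002)]), (5, [(30, 5336), (52, 97705), (63, 101),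 (81, 8)]), (4, [(30, 2416), (52, 8904), (63, 21), (81, 4)]), (3, [(32, 459), (42, 15), (47, 521), (54, 11)]), (3, [(42, 766), (47, 236), (54, 1)]), (3, [(47, 1001)]), (3, [(30, 2), (42, 466), (47, 532), (54, 2)]), (3, [(30, 1), (42, 322), (47, 668), (54, 15)]), (3, [(30, 4), (42, 72), (47, 924), (54, 2), (72, 1)]), (2, [(57, 101)]), (3, [(30, 146), (52, 987), (63, 2)]), (4, [(46, 5829), (47, 3931), (54, 392), (55, 2), (73, 2)]), (4, [(30, 65), (42, 288), (47, 9533), (54, 197), (72, 6)]), (3, [(30, 16), (47, 753), (54, 99), (57, 175), (72, 2)]), (3, [(53, 1001)]), (1, [(30, 10), (54, 1), (72, 1)]), (0, [(54, 3)]), (3, [(30, 274), (52, 971), (63, 3)]), (3, [(30, 205), (52, 958), (63, 5)]), (3, [(30, 1198), (63, 2)]), (1, [(30, 10), (61, 1), (81, 1)]), (1, [(30, 6), (54, 4), (61, 2), (81, 1)]), (0, [(55, 5)]), (0, [(55, 4)]), (4, [(30, 1285), (52, 9414), (63, 10), (68, 22)]), (0, [(0, 1), (63, 1)]), (4, [(0, 431),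 (4, 3225), (15, 6654), (63, 12), (72, 5)]), (4, [(0, 414), (4, 161), (15, 9438), (63, 20), (72, 4)]), (3, [(0, 38), (4, 119), (15, 858), (63, 2)]), (3, [(0, 48), (4, 43), (15, 944), (63, 1), (72, 1)]), (4, [(0, 334), (4, 687), (15, 9218), (63, 14)]), (5, [(0, 1468), (7, 68502), (15, 30574), (72, 25), (81, 45)]), (4, [(0, 243), (6, 3376), (15, 6153), (29, 315), (63, 12)]), (5, [(0, 2261), (4, 92029), (15, 6484), (63, 68), (72, 59)]), (5, [(0, 771), (4, 1249), (15, 98373), (63, 24), (72, 25)]), (3, [(0, 42), (7, 920), (20, 1), (23, 68), (81, 1)]), (3, [(0, 49), (3, 112), (15, 841), (22, 20), (63, 3)]), (4, [(0, 833), (7, 4694), (15, 4832), (63, 19), (81, 15)]), (2, [(13, 85), (17, 13), (20, 5)]), (3, [(0, 45), (3, 143), (15, 393), (22, 440), (63, 1)]), (3, [(0, 21), (7, 975), (20, 1), (23, 12), (81, 1)]), (4, [(0, 412), (7, 8604), (20, 2), (23, 1145), (81, 14)]), (3, [(0, 87), (7, 812), (23, 167), (81, 3)]), (3, [(13,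 1002)]), (3, [(0, 14), (7, 169), (22, 813), (23, 12), (63, 1)]), (3, [(0, 9), (7, 232), (22, 349), (23, 421), (63, 2)]), (4, [(0, 109), (7, 177), (23, 9850), (63, 3), (81, 3)]), (3, [(0, 217), (24, 961), (63, 1)]), (2, [(17, 69), (18, 26), (20, 10)]), (1, [(0, 10), (20, 1), (72, 1)]), (0, [(20, 3)]), (4, [(0, 118), (7, 1924), (22, 4594), (23, 3450), (63, 4)]), (4, [(0, 326), (23, 9680), (25, 9), (81, 12)]), (2, [(19, 40), (21, 61), (73, 1), (74, 1)]), (1, [(0, 6), (20, 4), (25, 2), (81, 1)]), (3, [(19, 383), (20, 56), (21, 759), (73, 2)]), (1, [(0, 10), (25, 1), (81, 1)]), (3, [(23, 1001)]), (0, [(63, 2)]), (1, [(68, 11)]), (2, [(63, 2), (64, 98), (81, 1)]), (2, [(63, 4), (64, 97), (81, 1)]), (2, [(63, 5), (64, 95), (81, 1)]), (1, [(63, 11)]), (2, [(67, 40), (70, 54), (72, 8)]), (2, [(63, 9), (64, 94), (81, 1)]), (1, [(67, 8), (72, 3)]), (0, [(63, 2)]), (0, [(72, 2)]), (2, [(69, 58), (72, 56), (73, 6)]), (0, [(63,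 2)]), (2, [(63, 50), (64, 1), (70, 47), (72, 5)]), (1, [(69, 8), (72, 2), (73, 1)]), (1, [(69, 6), (72, 6)]), (0, [(73, 2)]), (0, [(63, 2)]), (0, [(63, 2)]), (0, [(73, 2)])],
  [(6, [(0, 3566), (6, 561037), (15, 352069), (29, 82937), (63, 677)]), (3, [(47, 1001)]), (3, [(42, 1002)]), (3, [(47, 1001)]), (3, [(47, 1001)]), (4, [(30, 12), (47, 9071), (54, 11), (57, 969), (72, 5)]), (3, [(30, 177), (52, 920), (63, 3)]), (3, [(30, 105), (52, 954), (63, 2)]), (4, [(30, 1417), (52, 9362), (63, 20), (68, 2)]), (3, [(30, 170), (52, 989), (63, 3)]), (3, [(30, 168), (52, 924), (63, 3), (68, 1)]), (3, [(47, 1001)]), (3, [(46, 1001)]), (2, [(47, 101)]), (3, [(47, 1001)]), (3, [(57, 1001)]), (4, [(30, 19), (47, 3295), (54, 23), (57, 6771), (72, 7)]), (4, [(30, 21), (47, 1462), (54, 26), (57, 8610), (72, 11)]), (3, [(30, 177), (52, 919), (63, 2), (68, 1)]), (3, [(30, 134), (52, 993), (63, 2), (68, 1)]), (3, [(30, 153), (52, 930),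 (63, 2), (68, 1)]), (3, [(30, 165), (52, 924), (63, 2), (68, 2)]), (3, [(30, 171), (52, 921), (63, 2), (68, 2)]), (3, [(30, 174), (52, 919), (63, 2), (68, 3)]), (4, [(0, 169), (3, 978), (6, 405), (15, 8501), (63, 21)]), (4, [(0, 76), (6, 3420), (15, 6121), (29, 396), (63, 12)]), (3, [(0, 10), (3, 208), (15, 689), (22, 96), (63, 2)]), (4, [(0, 108), (7, 3934), (15, 1189), (22, 4829), (63, 17)]), (3, [(0, 12), (7, 481), (22, 370), (23, 144), (63, 2)]), (4, [(0, 310), (4, 837), (15, 8954), (63, 18), (72, 4)]), (3, [(0, 17), (6, 228), (15, 625), (29, 130), (63, 1)]), (5, [(0, 2423), (4, 13600), (15, 84781), (63, 120), (72, 7)]), (4, [(0, 279), (4, 1892), (15, 8007), (63, 15), (72, 2)]), (3, [(0, 29), (4, 271), (15, 709), (63, 2)]), (3, [(0, 15), (7, 497), (22, 228), (23, 271), (63, 1)]), (3, [(0, 15), (3, 183), (15, 392), (22, 418), (63, 1)]), (3, [(0, 12), (7, 366), (22, 470), (23, 160), (63, 1)]), (3, [(0, 13), (7,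 422), (22, 211), (23, 365), (63, 1)]), (3, [(23, 1001)]), (4, [(0, 146), (7, 2910), (23, 7092), (63, 9), (81, 3)]), (4, [(0, 152), (7, 1323), (23, 8690), (63, 8), (81, 5)]), (4, [(0, 312), (4, 3842), (15, 5856), (63, 9), (72, 6)]), (5, [(0, 2175), (4, 27227), (15, 71297), (63, 48), (72, 47)]), (4, [(0, 268), (4, 4208), (15, 5614), (63, 7), (72, 5)]), (5, [(0, 2912), (4, 54553), (15, 43498), (63, 79), (72, 58)]), (5, [(0, 3026), (4, 66914), (15, 31049), (63, 94), (72, 67)]), (5, [(0, 3080), (4, 79740), (15, 18173), (63, 107), (72, 76)]), (1, [(68, 11)]), (2, [(63, 3), (64, 98)]), (0, [(30, 1), (63, 1)]), (5, [(30, 2595), (52, 99223), (63, 92), (68, 11), (81, 1)]), (4, [(34, 10001)]), (4, [(30, 1342), (52, 9376), (63, 21), (81, 1)]), (3, [(30, 178), (52, 919), (63, 2), (68, 3)]), (4, [(32, 4665), (45, 4587), (46, 678), (54, 100), (72, 4)]), (3, [(30, 74), (52, 967), (63, 2)]), (3, [(30, 358), (52, 968), (63, 3)]),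 (3, [(32, 294), (42, 335), (47, 362), (54, 17)]), (4, [(47, 10006)]), (4, [(47, 10001)]), (4, [(30, 37), (42, 5721), (47, 4222), (54, 55), (72, 4)]), (2, [(42, 43), (47, 56), (54, 2)]), (3, [(30, 6), (42, 180), (47, 817), (54, 5), (72, 1)]), (2, [(57, 101)]), (4, [(30, 1851), (52, 9147), (63, 20), (81, 4)]), (3, [(46, 930), (47, 36), (54, 57), (72, 1), (73, 1)]), (3, [(30, 9), (42, 133), (47, 832), (54, 29), (72, 2)]), (2, [(30, 2), (47, 73), (54, 13), (57, 15), (72, 1)]), (3, [(43, 285), (48, 638), (54, 30), (55, 97), (73, 2)]), (1, [(30, 10), (54, 1), (72, 1)]), (0, [(54, 4)]), (3, [(30, 329), (52, 856), (63, 3)]), (2, [(30, 26), (52, 87), (63, 1)]), (3, [(30, 1197), (63, 3)]), (1, [(30, 10), (61, 1), (81, 1)]), (1, [(30, 6), (54, 4), (61, 2), (81, 1)]), (0, [(55, 6)]), (0, [(55, 5)]), (3, [(30, 173), (52, 922), (63, 2), (68, 2)]), (0, [(0, 1), (63, 1)]), (4, [(0, 582), (4, 3334), (15, 6320), (63, 13), (72, 9)]),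 (4, [(0, 577), (4, 342), (15, 9311), (63, 21), (72, 7)]), (4, [(0, 517), (4, 1365), (15, 8325), (63, 19), (72, 5)]), (4, [(0, 647), (4, 601), (15, 9023), (63, 4), (72, 16)]), (3, [(0, 46), (4, 86), (15, 887), (63, 2)]), (5, [(0, 2247), (7, 27314), (15, 71207), (72, 68), (81, 76)]), (4, [(0, 334), (4, 687), (15, 9217), (63, 14)]), (4, [(0, 318), (4, 9438), (15, 458), (63, 9), (72, 8)]), (4, [(0, 115), (4, 309), (15, 9569), (63, 4), (72, 6)]), (3, [(0, 58), (7, 926), (20, 2), (23, 40), (81, 2)]), (3, [(0, 67), (4, 17), (15, 944), (63, 3)]), (3, [(0, 114), (15, 937), (63, 2), (81, 2)]), (3, [(17, 1001)]), (3, [(0, 62), (7, 129), (15, 566), (22, 273), (63, 2)]), (4, [(0, 312), (7, 8804), (15, 1108), (20, 11), (72, 11)]), (3, [(0, 57), (7, 880), (23, 87), (81, 2)]), (3, [(0, 114), (7, 803), (23, 132), (81, 3)]), (0, [(12, 1)]), (3, [(0, 21), (7, 391), (22, 574), (23, 24), (63, 1)]), (4, [(0, 147), (7, 4860), (22, 749),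 (23, 4377), (63, 22)]), (4, [(0, 161), (7, 434), (23, 9557), (63, 5), (81, 7)]), (3, [(0, 313), (24, 926), (63, 2)]), (2, [(17, 49), (18, 44), (20, 13)]), (1, [(0, 10), (20, 1), (72, 1)]), (0, [(20, 4)]), (3, [(0, 17), (7, 426), (22, 202), (23, 356), (63, 1)]), (3, [(0, 46), (23, 971), (25, 1), (81, 2)]), (2, [(19, 33), (21, 68), (73, 1), (74, 1)]), (1, [(0, 6), (20, 4), (25, 2), (81, 1)]), (3, [(19, 297), (20, 49), (21, 851), (73, 3)]), (1, [(0, 10), (25, 1), (81, 1)]), (4, [(23, 10001)]), (0, [(63, 2)]), (1, [(68, 11)]), (2, [(63, 3), (64, 98)]), (2, [(63, 5), (64, 98)]), (2, [(63, 7), (64, 94), (81, 1)]), (0, [(63, 2)]), (2, [(67, 77), (70, 17), (72, 12)]), (2, [(63, 11), (64, 92), (81, 1)]), (1, [(67, 8), (72, 5)]), (0, [(63, 2)]), (0, [(72, 2)]), (1, [(69, 5), (72, 6), (73, 1)]), (0, [(63, 2)]), (1, [(63, 11)]), (1, [(69, 8), (72, 3), (73, 1)]), (1, [(72, 11)]), (0, [(73, 2)]), (0, [(63, 2)]), (0, [(63, 2)]),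 (0, [(73, 2)])],
  [(6, [(0, 3745), (6, 302818), (15, 516697), (29, 176186), (63, 914)]), (4, [(30, 12), (42, 9936), (54, 57), (72, 3)]), (3, [(47, 1001)]), (3, [(47, 1001)]), (4, [(30, 8), (42, 5388), (47, 4623), (54, 38), (72, 4)]), (3, [(30, 1), (47, 979), (54, 2), (57, 25), (72, 1)]), (3, [(30, 199), (52, 911), (63, 4)]), (4, [(30, 1184), (52, 9468), (63, 19), (68, 4)]), (3, [(30, 170), (52, 989), (63, 3)]), (3, [(30, 179), (52, 919), (63, 3), (68, 1)]), (3, [(30, 189), (52, 914), (63, 3), (68, 1)]), (4, [(30, 18), (47, 8596), (54, 30), (57, 1439), (72, 5)]), (3, [(47, 1001)]), (2, [(47, 101)]), (4, [(30, 16), (47, 7583), (54, 26), (57, 2469), (72, 4)]), (4, [(30, 18), (47, 5810), (54, 31), (57, 4244), (72, 8)]), (4, [(30, 20), (47, 4020), (54, 34), (57, 6039), (72, 13)]), (4, [(30, 22), (47, 2190), (54, 37), (57, 7876), (72, 17)]), (3, [(30, 215), (52, 983), (63, 3), (68, 1)]), (3, [(30, 144), (52, 934), (63,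 2), (68, 1)]), (3, [(30, 184), (52, 987), (63, 2), (68, 2)]), (3, [(30, 186), (52, 915), (63, 2), (68, 2)]), (3, [(30, 208), (52, 983), (63, 2), (68, 3)]), (3, [(30, 196), (52, 910), (63, 2), (68, 3)]), (4, [(0, 193), (4, 574), (15, 9293), (63, 24), (72, 1)]), (4, [(0, 83), (6, 223), (15, 8306), (29, 1382), (63, 14)]), (3, [(0, 12), (4, 41), (15, 951), (63, 2)]), (4, [(0, 134), (7, 4081), (15, 4105), (22, 1744), (63, 23)]), (4, [(0, 143), (7, 6841), (22, 2057), (23, 1047), (63, 24)]), (5, [(0, 3535), (4, 13495), (15, 84132), (63, 193), (72, 67)]), (4, [(0, 197), (4, 1700), (15, 8165), (63, 12)]), (4, [(0, 279), (4, 1892), (15, 8007), (63, 15), (72, 2)]), (4, [(0, 316), (4, 2390), (15, 7399), (63, 17), (72, 4)]), (4, [(0, 334), (4, 3220), (15, 6555), (63, 18), (72, 6)]), (3, [(0, 17), (7, 704), (22, 58), (23, 232), (63, 2)]), (4, [(0, 179), (3, 2370), (15, 6321), (22, 1224), (63, 15)]), (4, [(0, 144), (7, 5455),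 (22, 3341), (23, 1166), (63, 14)]), (3, [(0, 15), (7, 610), (22, 58), (23, 320), (63, 2)]), (4, [(0, 160), (7, 5112), (23, 4866), (63, 14), (81, 2)]), (4, [(0, 169), (7, 3563), (23, 6425), (63, 13), (81, 5)]), (4, [(0, 175), (7, 1980), (23, 8020), (63, 12), (81, 8)]), (4, [(0, 358), (4, 4390), (15, 5372), (63, 11), (72, 8)]), (4, [(0, 249), (4, 3240), (15, 6591), (63, 7), (72, 7)]), (4, [(0, 305), (4, 4722), (15, 5074), (63, 8), (72, 7)]), (4, [(0, 332), (4, 5968), (15, 3811), (63, 10), (72, 8)]), (4, [(0, 345), (4, 7203), (15, 2566), (63, 11), (72, 9)]), (3, [(0, 35), (4, 840), (15, 127), (63, 2), (72, 1)]), (2, [(68, 101)]), (2, [(63, 3), (64, 98)]), (0, [(30, 1), (63, 1)]), (4, [(30, 306), (52, 10058), (63, 13), (68, 3)]), (4, [(31, 2982), (32, 4885), (34, 382), (45, 1737), (54, 16)]), (3, [(30, 151), (52, 931), (63, 3)]), (3, [(30, 199), (52, 909), (63, 2), (68, 3)]), (4, [(31, 1832), (32, 1429), (45, 6618),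 (54, 119), (72, 12)]), (4, [(30, 836), (52, 9627), (63, 20), (81, 1)]), (4, [(30, 3548), (52, 8499), (63, 33), (81, 7)]), (4, [(32, 6740), (42, 1403), (47, 1724), (54, 218), (72, 6)]), (3, [(42, 996), (54, 6)]), (5, [(30, 197), (42, 77887), (47, 21641), (54, 701), (72, 35)]), (3, [(30, 4), (42, 874), (47, 118), (54, 8), (72, 1)]), (3, [(30, 2), (42, 718), (47, 254), (54, 30), (72, 1)]), (4, [(30, 65), (42, 4803), (47, 5098), (54, 84), (72, 15)]), (2, [(57, 101)]), (4, [(30, 2074), (52, 9064), (63, 25), (81, 5)]), (4, [(45, 5253), (46, 4346), (54, 657), (72, 10), (73, 13)]), (3, [(30, 9), (42, 429), (47, 542), (54, 37), (72, 2)]), (2, [(30, 2), (47, 77), (54, 16), (57, 8), (72, 1)]), (2, [(43, 22), (48, 66), (54, 3), (55, 12), (73, 1)]), (1, [(30, 10), (54, 1), (72, 1)]), (0, [(54, 5)]), (3, [(30, 366), (52, 844), (63, 4)]), (2, [(30, 28), (52, 86), (63, 1)]), (3, [(30, 1196), (63, 3)]), (1, [(30, 10), (61, 1), (81,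 1)]), (1, [(30, 6), (54, 4), (61, 2), (81, 1)]), (0, [(55, 7)]), (0, [(55, 5)]), (3, [(30, 209), (52, 985), (63, 2), (68, 3)]), (0, [(0, 1), (63, 1)]), (4, [(0, 659), (4, 3833), (15, 5778), (63, 14), (72, 12)]), (4, [(0, 654), (4, 847), (15, 8764), (63, 23), (72, 11)]), (4, [(0, 586), (4, 1869), (15, 7780), (63, 21), (72, 7)]), (4, [(0, 732), (4, 1102), (15, 8475), (63, 4), (72, 21)]), (4, [(0, 517), (4, 1365), (15, 8324), (63, 19), (72, 5)]), (3, [(0, 26), (4, 33), (15, 949), (63, 1), (72, 1)]), (3, [(0, 38), (4, 119), (15, 857), (63, 2)]), (4, [(0, 359), (4, 9768), (63, 11), (72, 11)]), (5, [(0, 1329), (4, 8293), (15, 90677), (63, 49), (72, 88)]), (4, [(0, 669), (7, 8038), (15, 1572), (20, 19), (72, 23)]), (3, [(0, 76), (4, 68), (15, 889), (63, 3)]), (4, [(0, 1279), (4, 343), (15, 8960), (63, 33), (72, 14)]), (3, [(13, 398), (17, 567), (20, 76), (72, 1)]), (4, [(0, 702), (7, 332), (15, 9289), (63, 21), (81, 1)]),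 (4, [(0, 376), (4, 80), (15, 9675), (20, 12), (72, 21)]), (4, [(0, 648), (7, 9432), (20, 6), (23, 191), (81, 27)]), (3, [(0, 134), (7, 904), (23, 69), (81, 4)]), (2, [(17, 101)]), (3, [(0, 24), (7, 484), (15, 132), (22, 361), (63, 2)]), (3, [(0, 17), (7, 614), (23, 383), (63, 3)]), (3, [(0, 18), (7, 109), (23, 889), (63, 1), (81, 1)]), (3, [(0, 338), (24, 860), (63, 2)]), (3, [(18, 1001)]), (1, [(0, 10), (20, 1), (72, 1)]), (0, [(20, 5)]), (3, [(0, 20), (7, 617), (22, 49), (23, 314), (63, 2)]), (4, [(0, 523), (7, 276), (20, 6), (23, 9408), (81, 23)]), (2, [(19, 31), (21, 70), (73, 1), (74, 1)]), (1, [(0, 6), (20, 4), (25, 2), (81, 1)]), (3, [(19, 213), (20, 27), (21, 758), (73, 3)]), (1, [(0, 10), (25, 1), (81, 1)]), (4, [(0, 188), (7, 4578), (23, 5363), (63, 12), (81, 3)]), (0, [(63, 2)]), (1, [(68, 11)]), (2, [(63, 3), (64, 98)]), (2, [(63, 6), (64, 95), (72, 1)]), (2, [(63, 9), (64, 94), (72, 1), (81, 1)]), (0,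 [(63, 2)]), (2, [(67, 93), (72, 13)]), (2, [(63, 13), (64, 92), (81, 2)]), (1, [(67, 7), (72, 5)]), (0, [(63, 2)]), (0, [(72, 2)]), (1, [(72, 11)]), (0, [(63, 2)]), (1, [(63, 11)]), (1, [(69, 8), (72, 3), (73, 1)]), (1, [(72, 11)]), (0, [(73, 2)]), (0, [(63, 2)]), (0, [(63, 2)]), (0, [(73, 2)])],
  [(5, [(0, 358), (6, 5155), (15, 63402), (29, 31016), (63, 109)]), (4, [(30, 13), (42, 9958), (54, 65), (72, 8)]), (3, [(47, 1001)]), (4, [(30, 1), (42, 9984), (54, 57), (72, 3)]), (4, [(30, 5), (42, 9941), (54, 60), (72, 8)]), (4, [(30, 11), (42, 3848), (47, 6175), (54, 42), (72, 15)]), (3, [(30, 209), (52, 906), (63, 4), (68, 1)]), (3, [(30, 125), (52, 943), (63, 2), (68, 1)]), (3, [(30, 168), (52, 924), (63, 3), (68, 1)]), (3, [(30, 189), (52, 914), (63, 3), (68, 1)]), (3, [(30, 215), (52, 984), (63, 4), (68, 1)]), (3, [(30, 1), (47, 975), (54, 3), (57, 28), (72, 1)]), (3, [(47, 1001)]), (4, [(30, 13), (42, 2384), (47,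 7664), (54, 30), (72, 5)]), (3, [(30, 1), (47, 875), (54, 3), (57, 131), (72, 1)]), (4, [(30, 17), (47, 6977), (54, 36), (57, 3083), (72, 14)]), (4, [(30, 19), (47, 5188), (54, 40), (57, 4876), (72, 18)]), (4, [(30, 21), (47, 3360), (54, 42), (57, 6711), (72, 23)]), (3, [(30, 210), (52, 905), (63, 3), (68, 2)]), (4, [(30, 1516), (52, 9305), (63, 21), (68, 12), (81, 1)]), (3, [(30, 181), (52, 917), (63, 2), (68, 2)]), (3, [(30, 211), (52, 983), (63, 3), (68, 2)]), (3, [(30, 203), (52, 907), (63, 3), (68, 3)]), (3, [(30, 206), (52, 905), (63, 3), (68, 3)]), (3, [(0, 20), (4, 141), (15, 845), (63, 3)]), (5, [(0, 885), (4, 19279), (15, 79975), (63, 153), (72, 9)]), (4, [(0, 130), (4, 1246), (15, 8663), (63, 22), (72, 1)]), (4, [(0, 156), (4, 332), (15, 9578), (63, 29), (72, 1)]), (4, [(0, 149), (7, 8271), (22, 1576), (23, 97), (63, 31)]), (5, [(0, 3747), (4, 21748), (15, 75733), (63, 207), (72, 86)]), (4, [(0, 209),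 (4, 2536), (15, 7319), (63, 14), (72, 1)]), (3, [(0, 29), (4, 271), (15, 709), (63, 2)]), (4, [(0, 334), (4, 3220), (15, 6555), (63, 18), (72, 6)]), (4, [(0, 358), (4, 4097), (15, 5774), (63, 20), (72, 7)]), (3, [(0, 18), (7, 838), (22, 7), (23, 136), (63, 3)]), (3, [(0, 19), (6, 85), (15, 825), (29, 80), (63, 2)]), (3, [(0, 15), (7, 679), (22, 309), (23, 19), (63, 2)]), (4, [(0, 157), (7, 7521), (22, 182), (23, 2267), (63, 22)]), (4, [(0, 167), (7, 6142), (23, 3836), (63, 21), (81, 3)]), (4, [(0, 176), (7, 4593), (23, 5394), (63, 20), (81, 6)]), (4, [(0, 183), (7, 3011), (23, 6988), (63, 19), (81, 9)]), (4, [(0, 379), (4, 5223), (15, 4525), (63, 12), (72, 10)]), (4, [(0, 264), (4, 4077), (15, 5742), (63, 8), (72, 9)]), (4, [(0, 323), (4, 5560), (15, 4223), (63, 10), (72, 9)]), (3, [(0, 35), (4, 674), (15, 293), (63, 2), (72, 1)]), (4, [(0, 365), (4, 8044), (15, 1711), (63, 13), (72, 11)]), (4, [(0, 372), (4, 9328),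 (15, 421), (63, 14), (72, 12)]), (2, [(68, 101)]), (2, [(63, 3), (64, 98)]), (0, [(30, 1), (63, 1)]), (4, [(30, 326), (52, 10048), (63, 15), (68, 7)]), (5, [(31, 58541), (32, 19646), (45, 21603), (54, 188), (72, 54)]), (4, [(30, 1590), (52, 9282), (63, 31), (68, 2), (81, 2)]), (3, [(30, 210), (52, 904), (63, 2), (68, 4)]), (4, [(31, 4279), (45, 5625), (54, 125), (72, 14), (73, 2)]), (4, [(30, 884), (52, 9598), (63, 22), (68, 3), (81, 1)]), (3, [(30, 426), (52, 969), (63, 4)]), (4, [(31, 1395), (32, 7748), (45, 696), (54, 248), (72, 14)]), (4, [(30, 7), (42, 9953), (54, 76), (72, 3)]), (4, [(30, 19), (42, 9939), (54, 87), (72, 8)]), (4, [(30, 41), (42, 9953), (54, 99), (72, 13)]), (4, [(30, 17), (42, 9790), (54, 345), (72, 9)]), (4, [(30, 66), (42, 9638), (47, 244), (54, 113), (72, 19)]), (2, [(57, 101)]), (4, [(30, 2180), (52, 9034), (63, 30), (68, 1), (81, 6)]), (3, [(31, 102), (45, 833), (54, 69), (72, 2), (73,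 2)]), (3, [(30, 9), (42, 901), (47, 66), (54, 43), (72, 2)]), (2, [(30, 2), (42, 10), (47, 80), (54, 18), (72, 1)]), (2, [(43, 13), (48, 73), (54, 3), (55, 13), (73, 1)]), (1, [(30, 10), (54, 1), (72, 1)]), (0, [(54, 6)]), (2, [(30, 44), (52, 97), (63, 1)]), (2, [(30, 30), (52, 86), (63, 1)]), (3, [(30, 1196), (63, 4)]), (1, [(30, 10), (61, 1), (81, 1)]), (1, [(30, 6), (54, 4), (61, 2), (81, 1)]), (0, [(55, 7)]), (0, [(55, 6)]), (3, [(30, 204), (52, 907), (63, 2), (68, 3)]), (0, [(0, 1), (63, 1)]), (3, [(0, 70), (4, 465), (15, 494), (63, 2), (72, 1)]), (4, [(0, 691), (4, 1656), (15, 7932), (63, 24), (72, 13)]), (4, [(0, 620), (4, 2685), (15, 6944), (63, 22), (72, 9)]), (4, [(0, 774), (4, 1910), (15, 7644), (63, 3), (72, 25)]), (4, [(0, 557), (4, 2224), (15, 7630), (63, 21), (72, 6)]), (4, [(0, 276), (4, 1147), (15, 8555), (63, 7), (72, 17)]), (4, [(0, 398), (4, 2018), (15, 7734), (63, 19), (72, 3)]), (4, [(0, 375),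 (4, 9629), (63, 11), (64, 3), (72, 13)]), (3, [(0, 14), (4, 167), (15, 822), (63, 1), (72, 1)]), (3, [(0, 75), (4, 42), (15, 941), (20, 2), (72, 3)]), (4, [(0, 798), (4, 1483), (15, 8062), (63, 30), (72, 5)]), (4, [(0, 1349), (4, 1124), (15, 8144), (63, 34), (72, 17)]), (3, [(13, 232), (17, 768), (20, 82), (72, 1)]), (4, [(0, 741), (4, 785), (15, 8812), (63, 24), (72, 1)]), (4, [(0, 398), (4, 901), (15, 8838), (20, 14), (72, 25)]), (4, [(0, 708), (15, 9585), (63, 11), (72, 27)]), (4, [(0, 1366), (7, 6646), (15, 2619), (72, 25), (81, 22)]), (2, [(17, 101)]), (3, [(0, 28), (7, 69), (15, 926), (63, 3)]), (4, [(0, 179), (7, 7168), (23, 2802), (63, 34), (81, 2)]), (3, [(0, 19), (7, 212), (23, 786), (63, 2), (81, 1)]), (3, [(0, 355), (24, 843), (63, 3)]), (2, [(17, 18), (18, 71), (20, 15), (72, 1), (80, 1)]), (1, [(0, 10), (20, 1), (72, 1)]), (0, [(20, 6)]), (3, [(0, 21), (7, 753), (22, 8), (23, 220), (63, 3)]), (3, [(0,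 55), (7, 132), (23, 834), (81, 3)]), (2, [(19, 29), (21, 71), (73, 1), (74, 1)]), (1, [(0, 6), (20, 4), (25, 2), (81, 1)]), (3, [(19, 233), (20, 19), (21, 943), (73, 4)]), (1, [(0, 10), (25, 1), (81, 1)]), (4, [(0, 196), (7, 5602), (23, 4337), (63, 19), (81, 4)]), (0, [(63, 2)]), (1, [(68, 11)]), (2, [(63, 3), (64, 98)]), (2, [(63, 7), (64, 95), (72, 1)]), (2, [(63, 9), (64, 94), (72, 1)]), (0, [(63, 2)]), (2, [(67, 93), (72, 14)]), (2, [(63, 14), (64, 92), (81, 2)]), (1, [(66, 7), (72, 5)]), (0, [(63, 2)]), (0, [(72, 2)]), (1, [(72, 11)]), (0, [(63, 2)]), (1, [(63, 11)]), (1, [(69, 7), (72, 3), (73, 2)]), (1, [(72, 11)]), (0, [(73, 2)]), (0, [(63, 2)]), (0, [(63, 2)]), (0, [(73, 2)])],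
  [(6, [(0, 3589), (4, 351488), (15, 644137), (63, 1211), (72, 31)]), (4, [(30, 12), (42, 9951), (54, 70), (72, 13)]), (3, [(31, 683), (42, 313), (54, 5), (72, 1)]), (3, [(42, 998), (54, 6), (72, 1)]), (4, [(30, 5), (42, 9989), (54, 64), (72, 13)]), (4, [(30, 8), (42, 10010), (54, 64), (72, 18)]), (3, [(30, 214), (52, 903), (63, 4), (68, 1)]), (4, [(30, 1282), (52, 9412), (63, 22), (68, 10)]), (3, [(30, 173), (52, 921), (63, 3), (68, 1)]), (3, [(30, 209), (52, 984), (63, 4), (68, 1)]), (3, [(30, 204), (52, 907), (63, 4), (68, 2)]), (4, [(30, 15), (42, 5031), (47, 5000), (54, 54), (72, 14)]), (4, [(30, 15), (42, 10008), (54, 43), (72, 3)]), (3, [(30, 1), (42, 862), (47, 142), (54, 5), (72, 1)]), (3, [(30, 1), (42, 70), (47, 937), (54, 3), (72, 2)]), (3, [(30, 1), (47, 846), (54, 3), (57, 160), (72, 2)]), (4, [(30, 18), (47, 6676), (54, 40), (57, 3401), (72, 24)]), (3, [(30, 2), (47, 485), (54, 4), (57, 523), (72,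 3)]), (3, [(30, 215), (52, 902), (63, 3), (68, 2)]), (3, [(30, 156), (52, 928), (63, 2), (68, 2)]), (3, [(30, 200), (52, 984), (63, 3), (68, 2)]), (3, [(30, 201), (52, 908), (63, 3), (68, 3)]), (3, [(30, 208), (52, 904), (63, 3), (68, 3)]), (3, [(30, 211), (52, 902), (63, 3), (68, 3)]), (4, [(0, 212), (4, 2487), (15, 7436), (63, 28), (72, 3)]), (5, [(0, 910), (4, 29999), (15, 69213), (63, 170), (72, 19)]), (5, [(0, 1337), (4, 23129), (15, 75914), (63, 233), (72, 24)]), (4, [(0, 161), (4, 1395), (15, 8510), (63, 31), (72, 2)]), (4, [(0, 176), (4, 295), (15, 9623), (63, 39), (72, 2)]), (3, [(0, 38), (4, 318), (15, 642), (63, 3), (72, 1)]), (3, [(0, 21), (4, 360), (15, 625), (63, 2)]), (4, [(0, 301), (4, 3769), (15, 6026), (63, 18), (72, 5)]), (4, [(0, 344), (4, 4281), (15, 5487), (63, 20), (72, 7)]), (4, [(0, 364), (4, 5114), (15, 4639), (63, 21), (72, 9)]), (3, [(0, 18), (7, 933), (22, 45), (23, 2), (63, 4)]), (4,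 [(0, 196), (4, 1750), (15, 8152), (63, 22)]), (4, [(0, 173), (4, 44), (15, 9781), (63, 30), (72, 1)]), (3, [(0, 15), (7, 832), (22, 64), (23, 89), (63, 3)]), (4, [(0, 167), (7, 7443), (23, 2541), (63, 29), (81, 2)]), (4, [(0, 176), (7, 5894), (23, 4099), (63, 28), (81, 5)]), (4, [(0, 183), (7, 4312), (23, 5694), (63, 27), (81, 8)]), (4, [(0, 390), (4, 6289), (15, 3451), (63, 13), (72, 12)]), (3, [(0, 27), (4, 515), (15, 467), (63, 1), (72, 1)]), (4, [(0, 334), (4, 6698), (15, 3176), (63, 11), (72, 10)]), (4, [(0, 364), (4, 7969), (15, 1896), (63, 12), (72, 11)]), (4, [(0, 375), (4, 9123), (15, 624), (63, 14), (72, 12)]), (4, [(0, 382), (4, 9740), (63, 15), (64, 2), (72, 13)]), (2, [(68, 101)]), (2, [(63, 4), (64, 97), (72, 1)]), (0, [(30, 1), (63, 1)]), (3, [(30, 33), (52, 987), (63, 2), (68, 1)]), (6, [(31, 902418), (45, 95403), (54, 1662), (72, 786), (73, 107)]), (3, [(30, 163), (52, 926), (63, 3), (68, 1)]),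 (3, [(30, 215), (52, 902), (63, 3), (68, 4)]), (4, [(31, 6992), (45, 2876), (54, 123), (72, 12), (73, 5)]), (4, [(30, 908), (52, 9581), (63, 23), (68, 7), (81, 1)]), (4, [(30, 3804), (52, 8438), (63, 43), (68, 2), (81, 8)]), (4, [(31, 5192), (32, 2443), (45, 2194), (54, 256), (72, 22)]), (4, [(30, 7), (42, 9946), (54, 81), (72, 8)]), (4, [(30, 19), (42, 9931), (54, 93), (72, 13)]), (4, [(30, 41), (42, 9898), (54, 106), (72, 19)]), (4, [(30, 14), (42, 9775), (54, 369), (72, 14)]), (4, [(30, 66), (42, 9872), (54, 122), (72, 24)]), (3, [(30, 83), (47, 184), (54, 3), (57, 789), (72, 1)]), (4, [(30, 2234), (52, 9007), (63, 31), (68, 4), (81, 6)]), (4, [(31, 3676), (45, 5888), (54, 716), (72, 10), (73, 23)]), (3, [(30, 9), (42, 965), (54, 46), (72, 3)]), (2, [(30, 2), (42, 65), (47, 25), (54, 20), (72, 1)]), (2, [(43, 3), (48, 88), (54, 3), (55, 15), (73, 1)]), (1, [(30, 10), (54, 1), (72, 1)]), (0, [(54, 7)]), (2, [(30,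 39), (52, 84), (63, 1)]), (2, [(30, 31), (52, 86), (63, 1)]), (3, [(30, 1195), (63, 5)]), (1, [(30, 10), (61, 1), (81, 1)]), (1, [(30, 5), (54, 4), (61, 2), (81, 1)]), (0, [(55, 8)]), (0, [(55, 7)]), (3, [(30, 209), (52, 905), (63, 3), (68, 3)]), (0, [(0, 1), (63, 1)]), (4, [(0, 714), (4, 5692), (15, 3885), (63, 16), (72, 17)]), (4, [(0, 710), (4, 2689), (15, 6888), (63, 25), (72, 15)]), (4, [(0, 636), (4, 3726), (15, 5892), (63, 24), (72, 11)]), (4, [(0, 794), (4, 2939), (15, 6602), (63, 4), (72, 28)]), (4, [(0, 561), (4, 3227), (15, 6434), (63, 22), (72, 8)]), (4, [(0, 287), (4, 2216), (15, 7589), (63, 8), (72, 19)]), (4, [(0, 408), (4, 3070), (15, 6673), (63, 20), (72, 4)]), (4, [(0, 391), (4, 9741), (63, 12), (64, 7), (72, 14)]), (5, [(0, 1459), (4, 27322), (15, 71511), (63, 68), (72, 128)]), (3, [(0, 77), (4, 147), (15, 835), (20, 2), (72, 4)]), (4, [(0, 818), (4, 2509), (15, 7022), (63, 31), (72, 6)]), (3,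 [(0, 138), (4, 212), (15, 713), (63, 4), (72, 2)]), (3, [(13, 109), (17, 859), (20, 81), (72, 2)]), (3, [(0, 76), (4, 182), (15, 777), (63, 3)]), (3, [(0, 41), (4, 195), (15, 778), (20, 1), (72, 3)]), (3, [(0, 73), (4, 103), (15, 855), (63, 1), (72, 3)]), (3, [(0, 141), (4, 52), (15, 872), (63, 2), (72, 4)]), (4, [(17, 9639), (18, 325), (20, 189), (72, 5)]), (3, [(0, 29), (4, 101), (15, 882), (63, 3)]), (4, [(0, 179), (7, 8470), (23, 1507), (63, 43), (81, 2)]), (3, [(0, 19), (7, 336), (23, 647), (63, 3), (81, 1)]), (3, [(0, 362), (24, 834), (63, 3)]), (3, [(17, 96), (18, 835), (20, 154), (72, 2)]), (1, [(0, 10), (20, 1), (72, 1)]), (0, [(20, 7)]), (3, [(0, 21), (7, 853), (22, 53), (23, 86), (63, 3)]), (3, [(0, 57), (7, 270), (23, 718), (81, 4)]), (2, [(19, 29), (21, 72), (73, 1), (74, 1)]), (1, [(0, 5), (20, 4), (25, 2), (81, 1)]), (3, [(19, 222), (20, 11), (21, 963), (73, 4)]), (1, [(0, 10), (25, 1), (81, 1)]),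 (3, [(0, 20), (7, 690), (23, 305), (63, 3)]), (0, [(63, 2)]), (2, [(68, 101)]), (2, [(63, 4), (64, 97), (72, 1)]), (2, [(63, 7), (64, 95), (72, 1)]), (2, [(63, 9), (64, 93), (72, 1)]), (0, [(63, 2)]), (2, [(67, 93), (72, 14)]), (2, [(63, 14), (64, 92), (81, 1)]), (1, [(66, 7), (72, 5)]), (0, [(63, 2)]), (0, [(72, 2)]), (1, [(72, 11)]), (0, [(63, 2)]), (1, [(63, 11)]), (1, [(69, 7), (72, 3), (73, 2)]), (1, [(72, 11)]), (0, [(73, 2)]), (0, [(63, 2)]), (0, [(63, 2)]), (0, [(73, 2)])],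
  [(4, [(63, 26), (64, 9914), (72, 9), (81, 61)]), (3, [(66, 980), (72, 18), (73, 1), (80, 10)]), (3, [(66, 990), (72, 6), (73, 2), (80, 6)]), (2, [(66, 99), (72, 1), (80, 1)]), (2, [(67, 99), (72, 1), (80, 1)]), (2, [(67, 99), (72, 1), (80, 1)]), (2, [(68, 101)]), (1, [(68, 11)]), (1, [(68, 11)]), (2, [(68, 101)]), (2, [(68, 101)]), (2, [(67, 98), (72, 1), (80, 1)]), (3, [(67, 987), (72, 15), (80, 7)]), (2, [(67, 99), (72, 1), (80, 1)]), (2, [(67, 99), (72, 1), (80, 1)]), (2, [(67, 99), (72, 1), (80, 1)]), (2, [(67, 99), (72, 1), (80, 1)]), (2, [(67, 99), (72, 1), (80, 1)]), (2, [(68, 101)]), (1, [(68, 11)]), (2, [(68, 101)]), (2, [(68, 101)]), (2, [(68, 101)]), (2, [(68, 101)]), (2, [(63, 2), (64, 98), (81, 1)]), (3, [(63, 7), (64, 985), (72, 1), (81, 10)]), (3, [(63, 11), (64, 981), (81, 15)]), (3, [(63, 14), (64, 978), (81, 16)]), (3, [(63, 16), (64, 976), (81, 17)]), (2, [(63, 3), (64, 98)]), (2, [(63, 2),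 (64, 98), (81, 1)]), (2, [(63, 3), (64, 98)]), (2, [(63, 3), (64, 98)]), (2, [(63, 3), (64, 98)]), (3, [(63, 18), (64, 974), (81, 17)]), (3, [(63, 19), (64, 980), (81, 11)]), (3, [(63, 16), (64, 978), (81, 14)]), (3, [(63, 16), (64, 977), (68, 1), (81, 16)]), (3, [(63, 17), (64, 975), (81, 16)]), (3, [(63, 18), (64, 975), (68, 1), (81, 17)]), (3, [(63, 18), (64, 974), (68, 1), (81, 17)]), (2, [(63, 4), (64, 97), (72, 1)]), (2, [(63, 2), (64, 98), (72, 1)]), (2, [(63, 3), (64, 97), (72, 1)]), (2, [(63, 3), (64, 97), (72, 1)]), (2, [(63, 3), (64, 98), (72, 1)]), (2, [(63, 4), (64, 97), (72, 1)]), (1, [(63, 1), (64, 4), (68, 5)]), (2, [(64, 47), (70, 47), (72, 8)]), (0, [(63, 1)]), (1, [(68, 11)]), (3, [(66, 996), (72, 1), (73, 2), (80, 2)]), (2, [(68, 101)]), (2, [(68, 101)]), (3, [(66, 980), (72, 9), (73, 11), (80, 8)]), (2, [(68, 101)]), (2, [(68, 101)]), (2, [(66, 97), (72, 2), (73, 1), (80, 1)]), (3, [(66, 981),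 (72, 16), (73, 2), (80, 10)]), (2, [(66, 98), (72, 2), (80, 1)]), (2, [(66, 97), (72, 4), (80, 1)]), (2, [(66, 95), (72, 4), (73, 1), (80, 1)]), (2, [(66, 95), (72, 5), (80, 2)]), (2, [(63, 7), (70, 92), (72, 11)]), (2, [(68, 101)]), (2, [(66, 92), (72, 6), (73, 6), (80, 2)]), (2, [(66, 92), (72, 10), (73, 2), (80, 2)]), (1, [(66, 8), (72, 3), (73, 1)]), (1, [(74, 11)]), (0, [(63, 2)]), (0, [(72, 2)]), (2, [(68, 101)]), (2, [(68, 101)]), (0, [(63, 2)]), (0, [(63, 2)]), (0, [(72, 2)]), (0, [(73, 2)]), (0, [(73, 2)]), (1, [(68, 11)]), (0, [(63, 1)]), (2, [(63, 7), (64, 95), (72, 1)]), (2, [(63, 7), (64, 95), (72, 1), (81, 1)]), (2, [(63, 6), (64, 95), (72, 1)]), (2, [(63, 8), (64, 94), (72, 2), (81, 1)]), (2, [(63, 5), (64, 97)]), (2, [(63, 2), (64, 97), (72, 1), (81, 2)]), (2, [(63, 4), (64, 97), (81, 1)]), (2, [(63, 4), (64, 97), (72, 1)]), (2, [(63, 1), (64, 98), (72, 1), (81, 1)]), (2, [(63, 6), (64, 92), (72,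 6), (81, 2)]), (2, [(63, 8), (64, 94), (81, 1)]), (2, [(63, 14), (64, 91), (72, 1), (81, 1)]), (2, [(71, 101)]), (2, [(63, 7), (64, 94), (81, 1)]), (2, [(63, 3), (64, 95), (72, 4), (81, 2)]), (2, [(63, 7), (64, 93), (72, 2), (81, 2)]), (2, [(63, 13), (64, 89), (72, 2), (81, 2)]), (2, [(69, 94), (73, 9)]), (2, [(63, 2), (64, 98), (81, 1)]), (3, [(63, 19), (64, 976), (68, 1), (81, 17)]), (3, [(63, 19), (64, 970), (68, 1), (81, 17)]), (1, [(75, 11)]), (2, [(71, 101)]), (0, [(63, 2)]), (0, [(72, 2)]), (3, [(63, 22), (64, 971), (68, 1), (81, 16)]), (2, [(63, 4), (64, 92), (81, 6)]), (0, [(73, 2)]), (0, [(72, 2)]), (0, [(73, 2)]), (0, [(63, 2)]), (3, [(63, 20), (64, 971), (68, 1), (81, 16)]), (0, [(63, 1)]), (1, [(63, 1), (64, 4), (68, 5)]), (2, [(64, 47), (70, 47), (72, 8)]), (2, [(63, 2), (64, 47), (70, 47), (72, 11)]), (2, [(63, 3), (64, 46), (70, 46), (72, 12)]), (0, [(63, 1)]), (2, [(65, 47), (69, 46), (72, 7), (73,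 7)]), (2, [(63, 7), (64, 47), (70, 46), (72, 6)]), (1, [(65, 3), (69, 3), (72, 2), (73, 3)]), (0, [(63, 1)]), (0, [(72, 2)]), (0, [(73, 2)]), (0, [(63, 1)]), (0, [(72, 1)]), (1, [(73, 11)]), (0, [(73, 1)]), (0, [(73, 2)]), (0, [(72, 2)]), (0, [(63, 1)]), (0, [(73, 2)])]]

set_option maxRecDepth 100000 in
theorem okqQG : chkRect LD LG (Lq1 ++ (Lq2 ++ LQ)) cqQG = true := by decide +kernel

end Pool.Agent.Lib.MP_dbb03c_co.Full
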