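import Pool.Agent.Lib.MP_dbb03c_co.Full.Data

/-! # Certificate data (generated) -/

namespace Pool.Agent.Lib.MP_dbb03c_co.Full

set_option maxRecDepth 100000 in
def cRU : List (List Ct) := [
  [(0, [(30, 1), (63, 1)]), (0, [(49, 1)]), (0, [(51, 1)]), (3, [(49, 1001)]), (3, [(62, 1001)]), (0, [(56, 1)]), (3, [(51, 1001)]), (0, [(62, 1)]), (5, [(51, 100052)]), (2, [(57, 31), (62, 70)]), (5, [(49, 76166), (56, 21426), (57, 2704), (63, 20), (72, 65)]), (2, [(30, 97), (61, 3), (81, 1)]), (3, [(50, 1001)]), (0, [(50, 1)]), (0, [(54, 1)]), (0, [(56, 1)]), (3, [(62, 1002)]), (5, [(30, 3856), (52, 98713), (57, 2), (68, 29), (81, 27)]), (4, [(37, 3918), (39, 4748), (49, 1354), (65, 3)]), (5, [(49, 2420), (50, 97541), (64, 3), (70, 230), (72, 2)]), (4, [(30, 435), (52, 9833), (57, 1), (68, 4), (81, 7)]), (3, [(49, 8), (50, 992), (70, 1)]), (3, [(43, 15), (48, 970), (54, 19), (55, 1)]), (0, [(61, 1)]), (0, [(62, 1)]), (3, [(62,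 1001)]), (4, [(49, 136), (50, 9870), (70, 13)]), (3, [(51, 666), (62, 335)]), (4, [(51, 10001)]), (3, [(51, 986), (62, 14), (64, 1)]), (4, [(51, 10017), (64, 10), (65, 1)]), (0, [(0, 1), (63, 1)]), (0, [(20, 1)]), (0, [(4, 1)]), (6, [(0, 537), (6, 531806), (15, 39907), (29, 427744), (63, 129)]), (3, [(2, 812), (14, 189)]), (5, [(0, 85), (6, 36288), (15, 17174), (29, 46529), (63, 101)]), (5, [(0, 477), (1, 57735), (6, 31467), (23, 10576), (63, 49)]), (4, [(0, 1), (1, 1165), (6, 3358), (29, 5523), (63, 15)]), (5, [(1, 9554), (4, 17747), (6, 27490), (29, 45531), (63, 144)]), (3, [(2, 437), (14, 564)]), (5, [(1, 97456), (23, 3260), (63, 450), (68, 78), (81, 29)]), (4, [(0, 57), (3, 1245), (15, 780), (22, 7930), (63, 7)]), (4, [(0, 79), (7, 4542), (22, 3905), (23, 1565), (63, 13)]), (2, [(0, 97), (25, 3), (81, 1)]), (6, [(0, 319), (6, 245665), (15, 6227), (29, 747825), (63, 2)]), (6, [(0, 295), (2, 47), (6, 133681), (15,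 487561), (29, 378425)]), (4, [(0, 27), (1, 1039), (6, 8340), (23, 635), (63, 9)]), (4, [(1, 1685), (4, 2280), (6, 6023), (63, 28), (64, 3)]), (0, [(25, 1)]), (3, [(0, 610), (24, 588), (81, 1)]), (2, [(19, 90), (20, 23), (21, 6)]), (0, [(29, 1)]), (4, [(1, 4723), (6, 5349), (63, 40), (64, 3), (81, 1)]), (5, [(1, 411), (4, 69015), (6, 361), (29, 30214)]), (5, [(1, 297), (4, 98886), (6, 790), (64, 29)]), (6, [(1, 3330), (4, 994669), (6, 1233), (64, 782)]), (7, [(1, 27176), (2, 4), (4, 9960064), (63, 31), (64, 12844)]), (0, [(64, 1)]), (0, [(63, 1)]), (0, [(72, 1)]), (0, [(70, 1)]), (0, [(63, 1)]), (0, [(68, 1)]), (0, [(76, 1)]), (0, [(81, 1)]), (0, [(75, 1)]), (0, [(72, 1)])],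
  [(3, [(0, 1002), (63, 1)]), (4, [(2, 5169), (10, 4529), (14, 309), (70, 3)]), (4, [(2, 3375), (10, 6571), (14, 35), (70, 21)]), (3, [(10, 1001)]), (3, [(11, 1001)]), (3, [(11, 1001)]), (3, [(13, 1001)]), (3, [(13, 1001)]), (3, [(13, 1001)]), (3, [(13, 1001)]), (4, [(2, 9), (10, 8757), (13, 1014), (14, 254), (70, 5)]), (2, [(0, 20), (20, 72), (25, 27), (81, 1)]), (4, [(2, 3978), (10, 3432), (11, 2628), (65, 15), (69, 3)]), (3, [(2, 397), (10, 343), (11, 262), (65, 2)]), (0, [(21, 1)]), (4, [(2, 4266), (10, 5586), (14, 152), (70, 7)]), (3, [(2, 231), (10, 658), (14, 112)]), (3, [(7, 1001)]), (0, [(9, 1)]), (4, [(2, 3857), (10, 3422), (11, 2703), (65, 18), (69, 25)]), (3, [(0, 5), (4, 228), (15, 768), (20, 2)]), (3, [(2, 393), (10, 342), (11, 265), (65, 2), (69, 1)]), (2, [(19, 101)]), (0, [(26, 1)]), (4, [(2, 3819), (10, 6096), (14, 84), (70, 11)]), (5, [(1, 8), (2, 27812), (10, 66321), (14, 5840), (70, 46)]), (4, [(2,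 3906), (10, 3422), (11, 2666), (65, 18), (69, 16)]), (3, [(2, 360), (10, 634), (14, 5), (70, 2)]), (4, [(2, 3488), (10, 6462), (14, 40), (70, 21)]), (4, [(2, 3433), (10, 6519), (14, 32), (70, 26)]), (4, [(2, 3406), (10, 6546), (14, 27), (70, 31)]), (3, [(30, 1002), (63, 1)]), (0, [(55, 1)]), (0, [(38, 1)]), (4, [(31, 2398), (38, 2084), (39, 5357), (45, 163)]), (0, [(48, 1)]), (5, [(31, 38020), (38, 21406), (39, 33004), (45, 7677), (72, 73)]), (3, [(44, 1001)]), (4, [(37, 6465), (39, 2930), (49, 596), (70, 13), (72, 9)]), (5, [(37, 68482), (39, 30297), (49, 1422), (70, 164), (72, 83)]), (5, [(31, 3), (43, 45830), (48, 54570), (54, 1), (73, 4)]), (4, [(49, 5202), (50, 4775), (64, 7), (70, 12), (72, 19)]), (3, [(42, 1002)]), (2, [(47, 101)]), (2, [(30, 20), (54, 72), (61, 27), (81, 1)]), (5, [(31, 16008), (37, 8468), (38, 42849), (39, 32678)]), (5, [(31, 15527), (38, 17964), (39, 19552), (45, 46954), (48, 5)]), (3, [(35,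 1001)]), (4, [(39, 1462), (49, 8544), (56, 20), (70, 16), (72, 16)]), (0, [(59, 1)]), (4, [(30, 1788), (52, 9001), (57, 1), (61, 341), (81, 13)]), (4, [(60, 10001)]), (6, [(31, 82383), (37, 89086), (38, 658886), (39, 169644), (48, 3)]), (4, [(39, 392), (49, 3678), (56, 5958), (70, 15), (72, 18)]), (5, [(31, 2158), (37, 3206), (38, 88965), (39, 5673)]), (5, [(37, 777), (38, 97909), (39, 1285), (65, 31)]), (5, [(37, 870), (38, 98374), (39, 677), (65, 81)]), (6, [(37, 6650), (38, 988502), (39, 3555), (65, 1304)]), (0, [(65, 1)]), (2, [(63, 101)]), (0, [(73, 1)]), (0, [(69, 1)]), (2, [(72, 101)]), (3, [(63, 6), (64, 988), (72, 9)]), (0, [(78, 1)]), (0, [(80, 1)]), (1, [(63, 1), (68, 8), (81, 2)]), (0, [(73, 1)])],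
  [(0, [(0, 1), (63, 1)]), (4, [(13, 9381), (14, 647), (20, 2), (72, 1)]), (5, [(1, 3), (13, 94907), (17, 5164), (67, 143), (72, 62)]), (3, [(13, 1001)]), (4, [(13, 7649), (17, 2388), (20, 18), (72, 5)]), (4, [(13, 7030), (17, 3013), (20, 11), (72, 5)]), (5, [(1, 6), (13, 57538), (17, 42489), (20, 176), (72, 129)]), (5, [(1, 3), (13, 63672), (17, 36442), (20, 124), (72, 103)]), (3, [(13, 605), (17, 395), (20, 1), (72, 2)]), (4, [(13, 5754), (17, 4252), (20, 17), (72, 13)]), (4, [(13, 8358), (17, 1704), (20, 6), (72, 10)]), (1, [(0, 5), (20, 5), (25, 1), (81, 1)]), (5, [(13, 98449), (17, 2306), (67, 73), (72, 45), (80, 63)]), (4, [(13, 9487), (17, 509), (67, 15), (72, 6), (80, 1)]), (1, [(20, 2), (21, 9), (73, 1)]), (4, [(13, 9874), (17, 175), (20, 2), (72, 5)]), (0, [(13, 1)]), (3, [(0, 25), (4, 290), (15, 695), (20, 1), (72, 1)]), (0, [(13, 1)]), (5, [(11, 100266), (65, 121), (69, 179), (72, 95), (73, 94)]), (3, [(0,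 28), (4, 923), (15, 59), (20, 5)]), (4, [(11, 10044), (65, 13), (69, 3), (72, 9), (73, 9)]), (3, [(19, 974), (21, 63), (74, 2)]), (1, [(20, 5), (21, 2), (26, 5), (80, 1)]), (5, [(1, 3), (13, 96675), (17, 3517), (67, 31), (72, 71)]), (4, [(13, 9572), (17, 469), (20, 11), (72, 5)]), (4, [(11, 10096), (65, 12), (69, 8), (72, 9), (73, 9)]), (5, [(1, 3), (13, 95764), (17, 4368), (67, 89), (72, 64)]), (5, [(1, 3), (13, 95299), (17, 4778), (67, 143), (72, 62)]), (4, [(13, 9526), (17, 499), (67, 20), (72, 6)]), (4, [(13, 9490), (17, 507), (67, 25), (72, 6)]), (0, [(30, 1), (63, 1)]), (1, [(54, 2), (55, 9), (73, 1)]), (4, [(31, 82), (42, 9922), (65, 15), (72, 1)]), (5, [(31, 47613), (42, 52496), (54, 104), (72, 23)]), (4, [(43, 623), (48, 7345), (53, 2020), (55, 7), (73, 13)]), (5, [(30, 5), (42, 100198), (48, 2), (54, 176), (72, 78)]), (3, [(30, 2), (41, 458), (42, 404), (57, 140)]), (4, [(41, 256), (42, 9816), (70, 12), (72,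 1)]), (4, [(33, 2), (41, 41), (42, 9957), (65, 15), (72, 1)]), (5, [(39, 1), (43, 89020), (53, 10843), (55, 578), (73, 104)]), (4, [(41, 1469), (49, 7214), (57, 1422), (63, 18), (72, 39)]), (4, [(30, 51), (47, 8780), (54, 4), (57, 1255), (72, 5)]), (4, [(30, 59), (47, 7484), (54, 58), (57, 2510), (72, 15)]), (1, [(30, 5), (54, 5), (61, 1), (81, 1)]), (4, [(31, 2141), (42, 7873), (54, 2), (72, 5)]), (0, [(47, 1)]), (3, [(42, 1001)]), (4, [(41, 4835), (42, 5238), (63, 4), (70, 8), (72, 18)]), (1, [(54, 5), (55, 2), (59, 5), (80, 1)]), (3, [(30, 412), (52, 551), (61, 35), (81, 3)]), (3, [(55, 544), (58, 203), (60, 450), (73, 2)]), (4, [(31, 978), (42, 9034), (65, 5), (72, 4)]), (4, [(41, 8581), (42, 1515), (63, 7), (70, 1), (72, 31)]), (5, [(31, 4665), (42, 95400), (48, 3), (65, 114), (72, 18)]), (3, [(31, 25), (42, 975), (65, 2)]), (5, [(31, 1610), (42, 98354), (48, 3), (65, 221), (72, 11)]), (3, [(31, 13), (42, 986),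 (65, 3)]), (0, [(67, 1)]), (0, [(63, 2)]), (0, [(73, 1)]), (0, [(69, 1)]), (1, [(63, 11)]), (2, [(63, 3), (64, 97), (72, 1)]), (0, [(74, 1)]), (1, [(72, 11)]), (1, [(63, 4), (68, 6), (81, 3)]), (0, [(73, 1)])],
  [(0, [(0, 1), (63, 1)]), (5, [(2, 456), (10, 93638), (14, 6115), (70, 4)]), (3, [(10, 554), (13, 445), (14, 1), (70, 2)]), (3, [(13, 1002)]), (3, [(13, 1001)]), (3, [(13, 1001)]), (5, [(1, 6), (13, 75118), (17, 25115), (20, 71), (72, 26)]), (3, [(13, 1001)]), (3, [(13, 776), (17, 226), (72, 1)]), (5, [(1, 4), (13, 75133), (17, 25131), (20, 70), (72, 26)]), (0, [(13, 1)]), (1, [(0, 3), (20, 6), (25, 2), (81, 1)]), (4, [(11, 10070), (65, 12), (69, 1)]), (3, [(11, 1005), (65, 2)]), (1, [(20, 1), (21, 10), (73, 1)]), (4, [(10, 7554), (13, 2191), (14, 274), (70, 3)]), (3, [(11, 1001)]), (4, [(7, 10001)]), (3, [(11, 1001)]), (3, [(11, 997), (65, 2), (69, 2)]), (3, [(0, 12), (4, 458), (15, 532), (20, 4)]), (3, [(11,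 999), (65, 2), (69, 1)]), (3, [(19, 992), (21, 30), (74, 1)]), (1, [(20, 2), (21, 2), (26, 7), (80, 1)]), (3, [(10, 657), (13, 332), (14, 12), (70, 1)]), (3, [(11, 1001)]), (4, [(11, 10024), (65, 15), (69, 13)]), (5, [(1, 2), (10, 60662), (13, 38876), (14, 589), (70, 114)]), (3, [(10, 580), (13, 416), (14, 3), (70, 2)]), (5, [(1, 2), (10, 56786), (13, 43085), (14, 161), (70, 212)]), (5, [(1, 2), (10, 56111), (13, 43779), (14, 92), (70, 263)]), (0, [(30, 1), (63, 1)]), (1, [(54, 1), (55, 10), (73, 1)]), (3, [(31, 999), (65, 2)]), (5, [(31, 77819), (38, 916), (39, 9732), (45, 11630), (72, 6)]), (5, [(48, 90562), (53, 9668), (71, 11), (73, 31)]), (5, [(31, 84083), (32, 10249), (45, 5795), (54, 95), (72, 85)]), (3, [(41, 1001)]), (3, [(31, 399), (33, 239), (35, 367), (65, 1), (72, 1)]), (3, [(31, 440), (33, 214), (35, 350), (65, 1), (72, 1)]), (3, [(43, 1001)]), (4, [(49, 10060), (63, 4), (64, 7), (70, 6), (72, 35)]), (3,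 [(42, 1001)]), (4, [(30, 20), (47, 8224), (54, 37), (57, 1817), (72, 4)]), (1, [(30, 3), (54, 6), (61, 2), (81, 1)]), (5, [(31, 86414), (38, 13594), (65, 8), (69, 1), (73, 3)]), (3, [(31, 1001)]), (3, [(41, 1001)]), (4, [(35, 2915), (37, 5141), (41, 1931), (70, 8), (72, 26)]), (1, [(54, 2), (55, 2), (59, 7), (80, 1)]), (3, [(30, 312), (52, 847), (61, 43), (81, 2)]), (3, [(55, 342), (58, 145), (60, 712), (73, 1)]), (3, [(31, 934), (38, 66), (65, 1)]), (5, [(37, 41249), (49, 59387), (63, 35), (70, 54), (72, 324)]), (6, [(31, 967717), (38, 31998), (65, 1228), (69, 13), (73, 4)]), (3, [(31, 984), (38, 15), (65, 2)]), (4, [(31, 9920), (38, 67), (65, 23)]), (3, [(31, 996), (38, 2), (65, 3)]), (0, [(66, 1)]), (1, [(63, 11)]), (1, [(73, 11)]), (3, [(69, 1001)]), (1, [(72, 11)]), (2, [(63, 1), (64, 99), (72, 1)]), (0, [(74, 1)]), (1, [(80, 11)]), (1, [(63, 2), (68, 7), (81, 3)]), (0, [(73, 2)])],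
  [(0, [(0, 1), (63, 1)]), (5, [(10, 42670), (13, 50189), (14, 7409), (70, 3)]), (5, [(1, 3), (13, 100163), (67, 120), (70, 33), (72, 1)]), (3, [(13, 1001)]), (3, [(13, 1001)]), (3, [(13, 1001)]), (5, [(1, 6), (13, 66035), (17, 34108), (20, 101), (72, 77)]), (4, [(13, 7192), (17, 2858), (20, 7), (72, 5)]), (5, [(1, 5), (13, 68826), (17, 31357), (20, 62), (72, 103)]), (5, [(1, 4), (13, 66044), (17, 34131), (20, 100), (72, 77)]), (3, [(13, 896), (17, 108), (72, 1)]), (1, [(0, 4), (20, 6), (25, 2), (81, 1)]), (5, [(11, 20753), (13, 80049), (65, 123), (72, 7), (73, 9)]), (3, [(11, 52), (13, 954), (65, 2)]), (1, [(20, 1), (21, 10), (73, 1)]), (4, [(10, 2182), (13, 7527), (14, 318), (70, 3)]), (3, [(13, 1001)]), (4, [(0, 165), (4, 2768), (15, 7215), (20, 15), (72, 4)]), (3, [(13, 1001)]), (5, [(11, 100207), (65, 150), (69, 202), (72, 34), (73, 51)]), (3, [(0, 18), (4, 688), (15, 299), (20, 4)]), (5, [(11, 100390), (65, 155),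 (69, 49), (72, 33), (73, 46)]), (3, [(19, 1006), (21, 43), (74, 1)]), (1, [(20, 4), (21, 2), (26, 6), (80, 1)]), (3, [(10, 111), (13, 878), (14, 13), (70, 1)]), (3, [(13, 1001)]), (5, [(11, 100307), (65, 149), (69, 104), (72, 33), (73, 48)]), (4, [(10, 559), (13, 9405), (14, 56), (70, 11)]), (3, [(10, 27), (13, 972), (14, 2), (70, 2)]), (4, [(10, 128), (13, 9876), (14, 8), (70, 21)]), (3, [(10, 5), (13, 995), (70, 3)]), (0, [(30, 1), (63, 1)]), (1, [(54, 1), (55, 10), (73, 1)]), (4, [(31, 6589), (42, 3398), (65, 14), (72, 3)]), (5, [(31, 55484), (32, 43464), (45, 1210), (54, 88), (72, 27)]), (5, [(48, 83463), (53, 16790), (71, 14), (73, 71)]), (4, [(31, 6490), (32, 584), (42, 2910), (54, 16), (72, 10)]), (4, [(41, 10001)]), (3, [(31, 121), (33, 548), (42, 332), (65, 1), (72, 1)]), (4, [(31, 1669), (33, 5046), (42, 3338), (65, 10), (72, 9)]), (4, [(43, 8850), (53, 1204), (55, 19), (73, 5)]), (4, [(49, 10084), (63, 10),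 (64, 5), (70, 1), (72, 42)]), (3, [(42, 1001)]), (3, [(30, 3), (47, 721), (54, 5), (57, 272), (72, 1)]), (1, [(30, 4), (54, 6), (61, 2), (81, 1)]), (3, [(31, 817), (42, 185), (72, 1)]), (5, [(31, 100059), (43, 3), (54, 205), (55, 1), (73, 26)]), (2, [(42, 101)]), (4, [(33, 2962), (41, 6700), (42, 414), (65, 5), (72, 25)]), (1, [(54, 4), (55, 2), (59, 6), (80, 1)]), (3, [(30, 388), (52, 766), (61, 44), (81, 3)]), (3, [(55, 430), (58, 187), (60, 582), (73, 2)]), (4, [(31, 7269), (42, 2746), (65, 5), (72, 5)]), (4, [(37, 7270), (49, 2812), (63, 8), (70, 1), (72, 38)]), (5, [(31, 68789), (42, 31305), (48, 1), (65, 113), (72, 34)]), (3, [(31, 672), (42, 329), (65, 2)]), (4, [(31, 6650), (42, 3349), (65, 22), (72, 3)]), (3, [(31, 663), (42, 337), (65, 3)]), (0, [(67, 1)]), (0, [(63, 2)]), (0, [(73, 2)]), (3, [(69, 1001)]), (1, [(72, 11)]), (2, [(63, 2), (64, 98), (72, 1)]), (1, [(74, 11)]), (1, [(80, 11)]), (1, [(63, 3),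 (68, 6), (81, 3)]), (0, [(73, 2)])],
  [(0, [(0, 1), (63, 1)]), (4, [(10, 1489), (13, 7658), (14, 881), (70, 3)]), (5, [(1, 3), (13, 97464), (17, 2627), (67, 180), (72, 25)]), (3, [(13, 1001)]), (3, [(13, 795), (17, 206), (20, 1), (72, 1)]), (4, [(13, 7397), (17, 2652), (20, 7), (72, 5)]), (5, [(1, 7), (13, 61651), (17, 38429), (20, 115), (72, 129)]), (5, [(1, 4), (13, 67583), (17, 32580), (20, 76), (72, 103)]), (5, [(1, 5), (13, 64558), (17, 35563), (20, 71), (72, 154)]), (5, [(1, 5), (13, 61656), (17, 38455), (20, 114), (72, 129)]), (3, [(13, 866), (17, 140), (72, 1)]), (1, [(0, 4), (20, 6), (25, 2), (81, 1)]), (5, [(13, 100200), (17, 575), (67, 123), (72, 12), (80, 45)]), (4, [(13, 9855), (17, 266), (67, 18), (72, 2)]), (1, [(20, 2), (21, 9), (73, 1)]), (5, [(1, 2), (13, 98266), (14, 2005), (70, 28), (72, 26)]), (3, [(13, 1001)]), (5, [(0, 1985), (4, 18270), (15, 80815), (20, 117), (72, 117)]), (2, [(13, 101)]),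 (5, [(11, 100224), (65, 170), (69, 188), (72, 58), (73, 73)]), (3, [(4, 1001)]), (5, [(11, 100405), (65, 175), (69, 35), (72, 56), (73, 68)]), (3, [(19, 980), (21, 50), (74, 2)]), (1, [(20, 4), (21, 2), (26, 6), (80, 1)]), (5, [(1, 3), (13, 99145), (17, 1066), (67, 70), (72, 33)]), (4, [(13, 9813), (17, 234), (20, 7), (72, 5)]), (5, [(11, 100323), (65, 169), (69, 90), (72, 57), (73, 70)]), (5, [(1, 3), (13, 98280), (17, 1871), (67, 127), (72, 27)]), (5, [(1, 3), (13, 97836), (17, 2260), (67, 180), (72, 25)]), (5, [(1, 3), (13, 97595), (17, 2448), (67, 232), (72, 24)]), (5, [(1, 3), (13, 97452), (17, 2538), (67, 283), (72, 24)]), (0, [(30, 1), (63, 1)]), (1, [(54, 2), (55, 9), (73, 1)]), (3, [(31, 412), (42, 590), (65, 2)]), (4, [(31, 2818), (32, 5341), (42, 1828), (54, 9), (72, 6)]), (4, [(43, 330), (48, 7828), (53, 1894), (73, 13)]), (4, [(31, 4011), (32, 161), (42, 5872), (54, 15), (72, 12)]), (3, [(30, 1), (41, 574),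 (42, 162), (57, 266)]), (3, [(33, 258), (41, 286), (42, 464), (65, 1), (72, 1)]), (4, [(33, 2837), (41, 2416), (42, 4819), (65, 9), (72, 13)]), (5, [(39, 2), (43, 87745), (53, 12306), (55, 329), (73, 103)]), (4, [(49, 2063), (56, 7839), (57, 195), (63, 15), (72, 43)]), (4, [(30, 39), (47, 7296), (54, 5), (57, 2759), (72, 4)]), (4, [(30, 45), (47, 6004), (54, 55), (57, 4013), (72, 14)]), (1, [(30, 4), (54, 6), (61, 2), (81, 1)]), (3, [(31, 590), (42, 414), (72, 1)]), (4, [(31, 9972), (54, 30), (72, 6), (73, 2)]), (3, [(42, 1001)]), (4, [(41, 9347), (42, 746), (63, 2), (70, 3), (72, 30)]), (1, [(54, 4), (55, 2), (59, 6), (80, 1)]), (3, [(30, 433), (52, 721), (61, 43), (81, 3)]), (3, [(55, 480), (58, 200), (60, 518), (73, 2)]), (5, [(31, 48840), (42, 51501), (48, 1), (65, 75), (72, 52)]), (4, [(41, 5103), (49, 4943), (57, 52), (63, 8), (72, 39)]), (5, [(31, 44448), (42, 55842), (48, 1), (65, 140), (72, 34)]), (4, [(31,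 4260), (42, 5764), (65, 20), (72, 3)]), (4, [(31, 4186), (42, 5833), (65, 25), (72, 3)]), (4, [(31, 4159), (42, 5855), (65, 30), (72, 3)]), (3, [(67, 1001)]), (0, [(63, 2)]), (0, [(73, 2)]), (3, [(69, 1001)]), (1, [(72, 11)]), (2, [(63, 2), (64, 99), (72, 1)]), (1, [(74, 11)]), (1, [(80, 11)]), (1, [(63, 3), (68, 6), (81, 3)]), (0, [(73, 2)])],
  [(0, [(0, 1), (63, 1)]), (3, [(10, 1), (13, 902), (14, 99), (70, 1)]), (4, [(13, 9612), (17, 391), (67, 22), (72, 4)]), (3, [(13, 849), (17, 154), (72, 1)]), (5, [(1, 7), (13, 77840), (17, 22268), (20, 130), (72, 103)]), (5, [(1, 4), (13, 71891), (17, 28279), (20, 62), (72, 103)]), (3, [(13, 595), (17, 405), (20, 1), (72, 2)]), (5, [(1, 5), (13, 65571), (17, 34546), (20, 71), (72, 154)]), (5, [(1, 6), (13, 62486), (17, 37589), (20, 68), (72, 205)]), (3, [(13, 595), (17, 405), (20, 1), (72, 2)]), (5, [(1, 3), (13, 84765), (17, 15506), (20, 15), (72, 154)]), (1, [(0, 4), (20,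 5), (25, 2), (81, 1)]), (5, [(13, 97418), (17, 3296), (67, 183), (72, 35), (80, 14)]), (4, [(13, 9658), (17, 394), (67, 22), (72, 4)]), (1, [(20, 2), (21, 9), (73, 1)]), (5, [(1, 3), (13, 99629), (17, 593), (67, 37), (72, 66)]), (4, [(13, 9762), (17, 280), (20, 19), (72, 5)]), (4, [(0, 220), (4, 724), (15, 9196), (20, 8), (72, 19)]), (4, [(13, 6987), (17, 3080), (67, 1), (72, 4)]), (5, [(11, 100212), (65, 202), (69, 181), (72, 73), (73, 84)]), (4, [(0, 243), (4, 9654), (15, 235), (20, 50), (72, 4)]), (4, [(11, 10039), (65, 21), (69, 3), (72, 7), (73, 8)]), (3, [(19, 1003), (21, 57), (74, 2)]), (1, [(20, 4), (21, 2), (26, 5), (80, 1)]), (5, [(1, 3), (13, 97840), (17, 2311), (67, 105), (72, 49)]), (5, [(1, 10), (13, 96615), (17, 3541), (20, 70), (72, 103)]), (4, [(11, 10091), (65, 20), (69, 8), (72, 7), (73, 8)]), (5, [(1, 3), (13, 96952), (17, 3139), (67, 163), (72, 42)]), (4, [(13, 9650), (17, 354), (67, 22), (72, 4)]),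 (4, [(13, 9625), (17, 373), (67, 27), (72, 4)]), (4, [(13, 9611), (17, 382), (67, 32), (72, 4)]), (0, [(30, 1), (63, 1)]), (1, [(54, 2), (55, 9), (73, 1)]), (4, [(31, 1267), (33, 1293), (42, 7490), (65, 20), (72, 4)]), (3, [(32, 637), (42, 286), (47, 83), (72, 1)]), (4, [(43, 555), (48, 7493), (53, 1972), (73, 18)]), (3, [(31, 74), (32, 153), (42, 781), (54, 1), (72, 2)]), (4, [(30, 22), (41, 5793), (42, 341), (57, 3905), (63, 4)]), (4, [(41, 6414), (42, 3587), (63, 2), (70, 3), (72, 21)]), (3, [(41, 621), (42, 388), (70, 1), (72, 2)]), (4, [(43, 8836), (53, 1200), (55, 41), (73, 16)]), (4, [(56, 7023), (57, 575), (62, 2503), (63, 18), (72, 42)]), (4, [(30, 46), (47, 5766), (54, 7), (57, 4289), (72, 8)]), (3, [(30, 5), (47, 448), (54, 6), (57, 554), (72, 2)]), (1, [(30, 4), (54, 5), (61, 2), (81, 1)]), (4, [(31, 4424), (42, 5640), (65, 2), (72, 10)]), (5, [(31, 100356), (48, 2), (54, 358), (72, 115), (73, 15)]), (4,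 [(30, 9), (42, 5874), (47, 694), (57, 3514), (63, 2)]), (4, [(37, 416), (41, 8150), (49, 1540), (63, 7), (72, 37)]), (1, [(54, 4), (55, 2), (59, 5), (80, 1)]), (3, [(30, 458), (52, 696), (61, 42), (81, 4)]), (3, [(55, 509), (58, 203), (60, 485), (73, 3)]), (4, [(31, 2533), (33, 830), (42, 6694), (65, 11), (72, 6)]), (4, [(41, 2143), (49, 7062), (57, 898), (63, 14), (72, 39)]), (4, [(31, 1718), (33, 1186), (42, 7149), (65, 17), (72, 4)]), (4, [(31, 1428), (33, 1280), (42, 7339), (65, 23), (72, 4)]), (4, [(31, 1339), (33, 1289), (42, 7414), (65, 28), (72, 4)]), (4, [(31, 1323), (33, 1276), (42, 7438), (65, 33), (72, 4)]), (3, [(67, 1001)]), (0, [(63, 2)]), (0, [(73, 2)]), (4, [(69, 10001)]), (1, [(72, 11)]), (3, [(64, 1001)]), (1, [(74, 11)]), (1, [(80, 11)]), (3, [(68, 1001)]), (0, [(73, 2)])],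
  [(0, [(0, 1), (63, 1)]), (5, [(1, 1), (13, 92057), (14, 8155), (70, 84), (72, 32)]), (4, [(13, 9543), (17, 454), (67, 26), (72, 5)]), (5, [(1, 3), (13, 84090), (17, 16111), (20, 23), (72, 102)]), (5, [(1, 7), (13, 77020), (17, 23049), (20, 118), (72, 154)]), (3, [(13, 710), (17, 292), (72, 2)]), (4, [(13, 5849), (17, 4149), (20, 10), (72, 23)]), (5, [(1, 6), (13, 64587), (17, 35494), (20, 57), (72, 205)]), (5, [(1, 7), (13, 61475), (17, 38563), (20, 56), (72, 257)]), (4, [(13, 5849), (17, 4152), (20, 10), (72, 23)]), (5, [(1, 3), (13, 83987), (17, 16246), (67, 4), (72, 201)]), (1, [(0, 5), (20, 5), (25, 2), (81, 1)]), (4, [(13, 9608), (17, 458), (67, 24), (72, 5)]), (4, [(13, 9530), (17, 455), (67, 26), (72, 5)]), (1, [(20, 2), (21, 9), (73, 1)]), (5, [(1, 3), (13, 98989), (17, 1177), (67, 78), (72, 76)]), (5, [(1, 7), (13, 96765), (17, 3316), (20, 187), (72, 103)]), (4, [(0, 208), (7, 9965), (20, 6), (72, 21), (81,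 1)]), (4, [(13, 6886), (17, 3177), (67, 5), (72, 5)]), (4, [(11, 10018), (65, 24), (69, 18), (72, 8), (73, 9)]), (4, [(0, 257), (4, 8399), (15, 1509), (20, 46), (72, 12)]), (4, [(11, 10100), (65, 25), (69, 2), (72, 8), (73, 8)]), (3, [(19, 975), (21, 59), (74, 3)]), (1, [(20, 5), (21, 2), (26, 5), (80, 1)]), (5, [(1, 3), (13, 97176), (17, 2920), (67, 146), (72, 59)]), (5, [(1, 11), (13, 96000), (17, 4119), (20, 55), (72, 154)]), (4, [(11, 9967), (65, 24), (69, 8), (72, 8), (73, 9)]), (5, [(1, 3), (13, 96276), (17, 3759), (67, 204), (72, 52)]), (4, [(13, 9582), (17, 416), (67, 26), (72, 5)]), (4, [(13, 9535), (17, 435), (67, 31), (72, 5)]), (4, [(13, 9542), (17, 445), (67, 36), (72, 5)]), (0, [(30, 1), (63, 1)]), (1, [(54, 2), (55, 9), (73, 1)]), (3, [(41, 362), (42, 646), (70, 2), (72, 1)]), (4, [(41, 5330), (42, 769), (47, 3214), (57, 768), (72, 15)]), (4, [(43, 529), (48, 7484), (53, 2003), (73, 23)]), (4, [(42, 5675),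 (47, 4129), (57, 202), (63, 3), (72, 16)]), (4, [(30, 20), (41, 1548), (44, 3554), (57, 5007), (63, 11)]), (4, [(41, 8320), (42, 1377), (57, 431), (63, 6), (72, 28)]), (4, [(41, 8710), (42, 1402), (63, 5), (70, 2), (72, 30)]), (4, [(43, 8837), (53, 1150), (55, 45), (73, 21)]), (3, [(56, 24), (57, 73), (62, 913), (63, 2), (72, 4)]), (4, [(30, 50), (47, 4062), (54, 10), (57, 5998), (72, 13)]), (4, [(30, 58), (47, 2778), (54, 62), (57, 7243), (72, 23)]), (1, [(30, 5), (54, 5), (61, 2), (81, 1)]), (4, [(33, 3142), (41, 858), (42, 6088), (65, 2), (72, 16)]), (4, [(31, 10061), (54, 38), (72, 17), (73, 1)]), (4, [(30, 9), (42, 4650), (47, 557), (57, 4971), (63, 6)]), (4, [(41, 4266), (49, 5138), (57, 704), (63, 13), (72, 38)]), (1, [(54, 5), (55, 2), (59, 5), (80, 1)]), (3, [(30, 393), (52, 569), (61, 35), (81, 4)]), (3, [(55, 525), (58, 204), (60, 468), (73, 3)]), (4, [(33, 788), (41, 2994), (42, 6299), (65, 9), (72, 14)]),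 (4, [(49, 6153), (56, 2678), (57, 1274), (63, 18), (72, 39)]), (3, [(41, 363), (42, 644), (70, 2), (72, 1)]), (4, [(41, 3665), (42, 6488), (70, 21), (72, 12)]), (3, [(41, 361), (42, 645), (70, 3), (72, 1)]), (4, [(41, 3587), (42, 6473), (70, 31), (72, 12)]), (3, [(67, 1001)]), (0, [(63, 2)]), (0, [(73, 2)]), (4, [(69, 10001)]), (1, [(72, 11)]), (3, [(64, 1001)]), (1, [(74, 11)]), (1, [(80, 11)]), (3, [(68, 1001)]), (0, [(73, 2)])],
  [(0, [(30, 1), (63, 1)]), (3, [(30, 1), (41, 291), (42, 537), (57, 175)]), (3, [(51, 88), (57, 792), (62, 128), (63, 2)]), (3, [(42, 1001)]), (2, [(57, 101)]), (3, [(42, 1001)]), (4, [(30, 47), (54, 18), (57, 10074), (61, 1), (81, 5)]), (4, [(30, 33), (47, 4257), (54, 3), (57, 5724), (72, 5)]), (4, [(30, 40), (47, 1873), (54, 8), (57, 8199), (72, 9)]), (4, [(30, 45), (47, 2518), (54, 10), (57, 7546), (72, 7)]), (3, [(30, 1), (42, 563), (47, 247), (57, 195), (63, 1)]), (1, [(30, 10), (61,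 1), (81, 1)]), (4, [(41, 2552), (42, 3728), (57, 3829), (63, 11), (72, 5)]), (4, [(41, 2947), (42, 2272), (57, 4882), (63, 13), (72, 5)]), (1, [(30, 2), (54, 9), (72, 1)]), (4, [(30, 7), (41, 2599), (42, 3139), (57, 4320), (63, 2)]), (3, [(42, 1001)]), (4, [(30, 2396), (52, 8960), (63, 10), (68, 10), (81, 8)]), (3, [(42, 1001)]), (4, [(41, 10013), (42, 86), (63, 8), (70, 6), (72, 37)]), (3, [(30, 265), (52, 885), (68, 2), (81, 2)]), (3, [(41, 612), (42, 108), (57, 280), (63, 1), (72, 2)]), (3, [(43, 930), (54, 103), (55, 29), (73, 1)]), (1, [(30, 5), (54, 3), (61, 3), (81, 1)]), (4, [(30, 6), (41, 2696), (42, 1077), (57, 6303), (63, 7)]), (3, [(42, 1001)]), (3, [(41, 843), (42, 57), (57, 99), (63, 1), (72, 3)]), (4, [(30, 3), (44, 1840), (49, 483), (57, 7848), (63, 13)]), (3, [(51, 113), (57, 784), (62, 112), (63, 2)]), (3, [(51, 222), (57, 786), (63, 2)]), (5, [(51, 22014), (57, 78838), (63, 225), (64, 16), (68, 3)]),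 (0, [(0, 1), (63, 1)]), (1, [(0, 2), (20, 9), (72, 1)]), (4, [(0, 140), (4, 9665), (15, 221), (63, 16), (72, 3)]), (4, [(0, 119), (4, 3456), (15, 6449), (63, 15), (72, 1)]), (3, [(13, 1001)]), (5, [(0, 1781), (4, 36061), (15, 62719), (63, 226), (72, 29)]), (3, [(0, 32), (3, 623), (15, 260), (22, 100), (63, 2)]), (3, [(0, 13), (4, 443), (15, 552), (63, 3)]), (3, [(0, 13), (4, 537), (15, 456), (63, 3)]), (3, [(13, 1001)]), (3, [(0, 10), (7, 98), (15, 335), (22, 558), (63, 7)]), (4, [(0, 585), (7, 8497), (23, 1229), (63, 20), (81, 2)]), (4, [(0, 750), (7, 7518), (23, 2124), (63, 7), (81, 25)]), (1, [(0, 10), (25, 1), (81, 1)]), (5, [(0, 1303), (4, 56841), (15, 42118), (63, 139), (72, 14)]), (5, [(0, 1531), (4, 98898), (20, 51), (72, 6)]), (4, [(0, 228), (3, 2729), (15, 6907), (22, 253), (63, 24)]), (4, [(0, 127), (4, 2237), (15, 6210), (29, 1516), (63, 42)]), (1, [(0, 5), (20, 3), (25, 3), (81, 1)]), (3, [(0, 866), (24,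 131), (63, 2), (68, 1), (81, 2)]), (3, [(18, 1), (19, 286), (20, 410), (21, 303), (73, 3)]), (5, [(0, 1355), (4, 74246), (15, 24664), (63, 144), (72, 20)]), (2, [(0, 1), (6, 19), (15, 61), (29, 20), (63, 1)]), (5, [(0, 1378), (4, 89706), (15, 9174), (63, 153), (72, 27)]), (4, [(0, 139), (4, 9885), (63, 16), (64, 2), (72, 3)]), (4, [(0, 139), (4, 9879), (63, 16), (64, 7), (72, 3)]), (4, [(0, 140), (4, 9909), (63, 16), (64, 12), (72, 3)]), (3, [(63, 14), (64, 986), (72, 1), (81, 1)]), (0, [(63, 2)]), (0, [(72, 2)]), (2, [(70, 98), (72, 5)]), (0, [(63, 2)]), (2, [(68, 101)]), (2, [(76, 101)]), (0, [(63, 2)]), (0, [(63, 2)]), (0, [(72, 2)])],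
  [(0, [(30, 1), (63, 1)]), (5, [(30, 31), (41, 2544), (44, 88951), (57, 8831), (63, 26)]), (3, [(51, 768), (57, 154), (62, 82), (63, 1)]), (3, [(41, 1001)]), (3, [(62, 1001)]), (3, [(41, 1001)]), (4, [(51, 10003)]), (4, [(30, 21), (49, 3338), (56, 1521), (57, 5136), (63, 2)]), (4, [(30, 24), (51, 165), (57, 5364), (62, 4534), (63, 2)]), (4, [(30, 28), (56, 3195), (57, 5754), (62, 1115), (63, 1)]), (4, [(30, 7), (41, 5073), (44, 2855), (57, 2116), (63, 5)]), (2, [(30, 99), (61, 2), (81, 1)]), (4, [(49, 4116), (56, 5284), (57, 677), (63, 12), (72, 7)]), (5, [(56, 92595), (57, 5737), (62, 2290), (63, 126), (72, 67)]), (1, [(30, 3), (54, 8), (72, 1)]), (4, [(30, 5), (49, 4081), (56, 4476), (57, 1513), (63, 4)]), (3, [(62, 1001)]), (4, [(30, 1444), (52, 9370), (68, 8), (81, 3)]), (3, [(41, 1001)]), (3, [(49, 1002), (63, 1), (64, 1), (70, 2), (72, 1)]), (4, [(30, 1603), (52, 9289), (57, 1), (68, 9), (81, 9)]), (4, [(49,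 9982), (63, 11), (64, 7), (70, 4), (72, 12)]), (2, [(43, 56), (48, 39), (54, 6)]), (1, [(30, 5), (54, 1), (61, 5), (81, 1)]), (5, [(30, 49), (56, 38450), (57, 15149), (62, 46782), (63, 48)]), (3, [(62, 1001)]), (3, [(49, 1003), (63, 1), (64, 1), (70, 1), (72, 1)]), (5, [(30, 46), (51, 29271), (57, 15147), (62, 55973), (63, 50)]), (3, [(51, 788), (57, 150), (62, 67), (63, 1)]), (3, [(51, 853), (57, 151), (63, 1)]), (5, [(51, 85173), (57, 15173), (63, 136), (64, 7), (68, 3)]), (0, [(0, 1), (63, 1)]), (1, [(0, 3), (20, 8), (72, 1)]), (5, [(0, 730), (4, 99442), (63, 43), (64, 5), (72, 6)]), (4, [(0, 66), (6, 3360), (15, 1979), (29, 4609), (63, 5)]), (5, [(2, 71985), (13, 10826), (14, 17037), (20, 389), (72, 7)]), (4, [(0, 95), (6, 1141), (15, 3771), (29, 5029), (63, 14)]), (3, [(0, 19), (1, 193), (6, 729), (23, 60), (63, 1)]), (3, [(0, 7), (6, 313), (15, 96), (29, 591), (63, 2)]), (4, [(0, 69), (6, 1677), (15, 1038), (29,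 7267), (63, 18)]), (3, [(14, 1001)]), (4, [(0, 55), (6, 7193), (22, 1841), (23, 1058), (63, 52)]), (3, [(0, 33), (7, 84), (15, 233), (22, 672), (63, 2)]), (3, [(0, 42), (7, 780), (22, 8), (23, 195), (63, 2)]), (2, [(0, 99), (25, 2), (81, 1)]), (4, [(0, 69), (6, 713), (15, 1457), (29, 7758), (63, 4)]), (3, [(0, 7), (4, 451), (15, 543)]), (4, [(0, 133), (3, 7374), (6, 2315), (15, 264), (63, 12)]), (4, [(0, 68), (6, 4706), (15, 881), (29, 4421), (63, 32)]), (1, [(0, 5), (20, 1), (25, 5), (81, 1)]), (3, [(0, 793), (24, 207), (63, 1), (68, 1), (81, 1)]), (3, [(19, 559), (20, 508), (21, 132), (73, 1)]), (4, [(0, 70), (4, 4941), (15, 1286), (29, 3703), (63, 4)]), (4, [(0, 67), (6, 7373), (15, 744), (29, 1917), (63, 42)]), (5, [(0, 717), (4, 93752), (15, 5714), (63, 38), (72, 3)]), (5, [(0, 723), (4, 99423), (63, 42), (64, 32), (72, 6)]), (5, [(0, 726), (4, 99369), (63, 42), (64, 83), (72, 6)]), (5, [(0, 728), (4, 99316), (63,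 42), (64, 134), (72, 6)]), (3, [(63, 7), (64, 994)]), (0, [(63, 2)]), (1, [(72, 11)]), (3, [(70, 1001)]), (0, [(63, 2)]), (1, [(68, 11)]), (2, [(76, 101)]), (1, [(63, 11)]), (0, [(63, 2)]), (0, [(72, 2)])],
  [(0, [(30, 1), (63, 1)]), (3, [(41, 1001)]), (3, [(51, 455), (57, 358), (62, 198), (63, 1)]), (3, [(41, 1001)]), (3, [(51, 1001)]), (2, [(41, 25), (42, 36), (57, 40)]), (3, [(42, 1001)]), (3, [(42, 1001)]), (4, [(30, 31), (41, 1609), (42, 425), (57, 8058), (63, 3)]), (3, [(42, 1001)]), (4, [(30, 12), (41, 4747), (42, 3283), (57, 2016), (63, 3)]), (1, [(30, 10), (61, 1), (81, 1)]), (4, [(41, 2613), (49, 4925), (57, 2560), (63, 14), (72, 5)]), (5, [(49, 61238), (56, 10381), (57, 29210), (63, 175), (72, 55)]), (1, [(30, 3), (54, 8), (72, 1)]), (3, [(44, 545), (49, 139), (57, 321), (63, 1)]), (0, [(62, 1)]), (4, [(30, 1934), (52, 9155), (63, 1), (68, 12), (81, 5)]), (3, [(32, 1001)]), (5, [(49, 100582), (63, 166),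 (70, 139), (72, 236)]), (4, [(30, 2140), (52, 9057), (57, 1), (68, 12), (81, 12)]), (4, [(49, 8631), (56, 955), (57, 399), (63, 17), (72, 20)]), (2, [(43, 98), (54, 8), (55, 1)]), (1, [(30, 6), (54, 2), (61, 4), (81, 1)]), (4, [(30, 5), (49, 1952), (56, 4572), (57, 3531), (63, 9)]), (3, [(51, 1001)]), (5, [(37, 179), (49, 100500), (63, 165), (70, 42), (72, 232)]), (3, [(56, 30), (57, 351), (62, 624), (63, 1)]), (3, [(51, 476), (57, 353), (62, 182), (63, 1)]), (5, [(30, 30), (51, 65445), (57, 35121), (63, 135), (68, 1)]), (4, [(51, 6567), (57, 3545), (63, 19)]), (0, [(0, 1), (63, 1)]), (1, [(0, 3), (20, 8), (72, 1)]), (5, [(0, 1080), (4, 99152), (63, 81), (64, 11), (72, 14)]), (3, [(0, 9), (6, 77), (15, 407), (29, 509), (63, 1)]), (0, [(9, 1)]), (4, [(0, 137), (4, 4170), (15, 5794), (63, 16)]), (4, [(0, 264), (3, 4364), (6, 5229), (15, 268), (63, 14)]), (4, [(0, 103), (6, 952), (15, 2673), (29, 6349), (63, 22)]), (4,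 [(0, 102), (4, 1479), (15, 2737), (29, 5745), (63, 22)]), (3, [(10, 1001)]), (4, [(0, 78), (3, 5550), (15, 809), (22, 3724), (63, 56)]), (3, [(0, 46), (7, 398), (15, 113), (22, 469), (63, 2)]), (4, [(0, 585), (7, 8079), (23, 1661), (63, 17), (81, 7)]), (1, [(0, 10), (25, 1), (81, 1)]), (4, [(0, 100), (4, 4807), (15, 3268), (29, 1850), (63, 7)]), (3, [(0, 11), (4, 677), (15, 314)]), (3, [(0, 18), (6, 658), (15, 319), (29, 6), (63, 2)]), (4, [(0, 99), (6, 2530), (15, 2590), (29, 4865), (63, 35)]), (1, [(0, 6), (20, 2), (25, 4), (81, 1)]), (3, [(0, 838), (24, 160), (63, 2), (68, 1), (81, 2)]), (3, [(18, 1), (19, 372), (20, 446), (21, 182), (73, 2)]), (3, [(0, 10), (4, 799), (15, 193), (63, 1)]), (4, [(0, 98), (6, 5193), (15, 2451), (29, 2367), (63, 46)]), (4, [(0, 106), (4, 9542), (15, 377), (63, 8), (72, 1)]), (4, [(0, 107), (4, 9940), (63, 8), (64, 4), (72, 1)]), (5, [(0, 1075), (4, 99079), (63, 80), (64, 90), (72, 14)]),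 (5, [(0, 1077), (4, 99026), (63, 80), (64, 140), (72, 14)]), (3, [(63, 11), (64, 991), (72, 1)]), (0, [(63, 2)]), (0, [(72, 2)]), (0, [(67, 1)]), (0, [(63, 2)]), (2, [(68, 101)]), (2, [(76, 101)]), (0, [(63, 2)]), (0, [(63, 2)]), (0, [(72, 2)])],
  [(0, [(30, 1), (63, 1)]), (5, [(30, 89), (41, 64014), (42, 29359), (57, 7071), (63, 3)]), (3, [(51, 71), (57, 520), (62, 418), (63, 2)]), (3, [(30, 1), (41, 153), (42, 724), (57, 128)]), (3, [(42, 1001)]), (3, [(42, 1001)]), (4, [(30, 44), (54, 4), (57, 10116), (72, 2), (81, 1)]), (3, [(57, 1001)]), (3, [(30, 3), (42, 116), (47, 191), (57, 704), (63, 1)]), (4, [(30, 38), (42, 1073), (47, 2654), (57, 6364), (63, 4)]), (4, [(30, 12), (41, 1420), (42, 7335), (57, 1302), (63, 4)]), (1, [(30, 10), (61, 1), (81, 1)]), (4, [(41, 6992), (49, 347), (57, 2773), (63, 12), (72, 8)]), (4, [(41, 3530), (49, 3224), (57, 3247), (63, 15), (72, 9)]), (1, [(30, 2), (54, 9), (72, 1)]), (5, [(30,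 59), (41, 63500), (42, 4226), (57, 32942), (63, 47)]), (3, [(51, 1001)]), (4, [(30, 2168), (52, 9053), (63, 5), (68, 14), (81, 6)]), (3, [(42, 1001)]), (4, [(37, 5544), (49, 4526), (63, 18), (70, 12), (72, 30)]), (3, [(30, 240), (52, 895), (68, 2), (81, 1)]), (4, [(41, 3646), (49, 5686), (57, 756), (63, 15), (72, 24)]), (3, [(43, 943), (54, 95), (55, 17), (73, 1)]), (1, [(30, 6), (54, 2), (61, 4), (81, 1)]), (4, [(30, 1), (41, 521), (44, 4711), (57, 4849), (63, 13)]), (3, [(51, 1001)]), (4, [(37, 5547), (49, 4533), (63, 17), (70, 2), (72, 30)]), (3, [(49, 140), (56, 350), (57, 517), (63, 2)]), (3, [(51, 94), (57, 513), (62, 402), (63, 2)]), (3, [(51, 497), (57, 511), (63, 2)]), (4, [(51, 4953), (57, 5127), (63, 21), (64, 2)]), (0, [(0, 1), (63, 1)]), (1, [(0, 2), (20, 9), (72, 1)]), (4, [(0, 125), (4, 9899), (63, 11), (64, 3), (72, 2)]), (5, [(0, 1052), (4, 45211), (15, 53973), (63, 101), (72, 1)]), (2, [(11, 101)]),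 (5, [(0, 1580), (4, 46717), (15, 52239), (63, 187), (72, 16)]), (3, [(0, 30), (6, 727), (15, 195), (29, 61), (63, 2)]), (4, [(0, 118), (4, 4112), (15, 4045), (29, 1805), (63, 24)]), (4, [(0, 118), (4, 6447), (15, 3499), (63, 24)]), (2, [(13, 101)]), (3, [(0, 10), (3, 655), (15, 251), (22, 79), (63, 7)]), (3, [(0, 53), (7, 416), (15, 398), (22, 164), (63, 3)]), (3, [(0, 66), (7, 871), (23, 99), (63, 2), (81, 1)]), (1, [(0, 10), (25, 1), (81, 1)]), (5, [(0, 1160), (4, 67836), (15, 31561), (63, 95), (72, 7)]), (3, [(0, 13), (4, 902), (15, 88)]), (4, [(0, 208), (6, 4124), (15, 4798), (29, 979), (63, 22)]), (3, [(0, 11), (6, 21), (15, 399), (29, 578), (63, 4)]), (1, [(0, 6), (20, 2), (25, 4), (81, 1)]), (3, [(0, 854), (24, 144), (63, 2), (68, 1), (81, 2)]), (3, [(18, 1), (19, 330), (20, 438), (21, 230), (73, 3)]), (5, [(0, 1205), (4, 85154), (15, 13907), (63, 99), (72, 14)]), (3, [(0, 11), (6, 287), (15, 385), (29, 328),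 (63, 5)]), (4, [(0, 123), (4, 9903), (63, 11), (64, 1), (72, 2)]), (3, [(0, 12), (4, 987), (63, 1), (64, 1)]), (4, [(0, 124), (4, 9891), (63, 11), (64, 11), (72, 2)]), (3, [(0, 12), (4, 986), (63, 1), (64, 2)]), (3, [(63, 13), (64, 989), (72, 1)]), (0, [(63, 2)]), (0, [(72, 2)]), (3, [(67, 1001)]), (0, [(63, 2)]), (2, [(68, 101)]), (2, [(76, 101)]), (0, [(63, 2)]), (0, [(63, 2)]), (0, [(72, 2)])],
  [(0, [(30, 1), (63, 1)]), (5, [(30, 63), (41, 46723), (42, 53805), (63, 34)]), (4, [(49, 469), (56, 3820), (57, 5814), (63, 21), (72, 3)]), (2, [(42, 101)]), (2, [(57, 101)]), (4, [(30, 19), (42, 5296), (47, 2956), (57, 1828), (63, 3)]), (3, [(30, 4), (47, 99), (57, 914), (72, 1)]), (4, [(30, 25), (42, 2483), (47, 3856), (57, 3755), (63, 8)]), (4, [(30, 29), (42, 354), (47, 4077), (57, 5679), (63, 13)]), (3, [(30, 3), (42, 21), (47, 489), (57, 499), (63, 1)]), (5, [(30, 96), (42, 92015), (47, 6956), (57, 1726), (63, 79)]),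 (1, [(30, 10), (61, 1), (81, 1)]), (4, [(41, 7312), (42, 922), (57, 1884), (63, 10), (72, 14)]), (4, [(41, 6304), (49, 1064), (57, 2740), (63, 13), (72, 15)]), (1, [(30, 2), (54, 9), (72, 1)]), (3, [(41, 443), (42, 337), (57, 228), (63, 1)]), (3, [(51, 1001)]), (4, [(30, 2282), (52, 9002), (63, 7), (68, 17), (81, 6)]), (3, [(42, 1001)]), (4, [(37, 8986), (49, 1091), (63, 18), (70, 12), (72, 35)]), (4, [(30, 2524), (52, 8893), (68, 21), (81, 16)]), (4, [(41, 6406), (49, 3474), (57, 220), (63, 12), (72, 30)]), (3, [(43, 985), (54, 104), (55, 22), (73, 1)]), (1, [(30, 6), (54, 3), (61, 3), (81, 1)]), (4, [(30, 1), (41, 4601), (42, 1232), (57, 4263), (63, 13)]), (4, [(30, 29), (51, 3740), (57, 6377), (63, 2)]), (4, [(37, 8798), (49, 1149), (63, 18), (70, 3), (72, 34)]), (4, [(41, 2654), (49, 1781), (57, 5672), (63, 18), (72, 1)]), (4, [(49, 149), (56, 4198), (57, 5758), (63, 22), (72, 3)]), (4, [(51, 2238), (57, 5619),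 (62, 2248), (63, 22), (72, 3)]), (4, [(51, 4514), (57, 5588), (63, 22), (64, 3), (72, 4)]), (0, [(0, 1), (63, 1)]), (1, [(0, 2), (20, 9), (72, 1)]), (5, [(0, 1330), (4, 98882), (63, 124), (64, 61), (72, 25)]), (5, [(0, 1121), (4, 53714), (15, 45393), (63, 123), (72, 11)]), (2, [(13, 101)]), (5, [(0, 1681), (4, 55196), (15, 43667), (63, 208), (72, 28)]), (3, [(0, 31), (6, 514), (15, 270), (29, 188), (63, 3)]), (4, [(0, 127), (4, 6418), (15, 3620), (63, 26)]), (4, [(0, 126), (4, 7306), (15, 2632), (63, 26), (72, 1)]), (2, [(13, 101)]), (2, [(0, 1), (6, 47), (15, 46), (29, 7), (63, 1)]), (3, [(0, 58), (4, 34), (15, 964), (63, 3)]), (4, [(0, 699), (7, 9225), (15, 461), (63, 23), (81, 15)]), (1, [(0, 10), (25, 1), (81, 1)]), (5, [(0, 1231), (4, 76205), (15, 22823), (63, 117), (72, 17)]), (4, [(0, 144), (4, 9896), (20, 3), (72, 3)]), (4, [(0, 216), (6, 1668), (15, 5925), (29, 2304), (63, 24)]), (3, [(0, 12), (4, 534), (15,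 463), (63, 4)]), (1, [(0, 6), (20, 3), (25, 3), (81, 1)]), (3, [(0, 860), (24, 138), (63, 3), (68, 1), (81, 2)]), (3, [(19, 310), (20, 428), (21, 260), (73, 3)]), (5, [(0, 1281), (4, 93773), (15, 5208), (63, 121), (72, 23)]), (3, [(0, 11), (6, 52), (15, 485), (29, 460), (63, 5)]), (5, [(0, 1306), (4, 98924), (63, 122), (64, 36), (72, 25)]), (5, [(0, 1319), (4, 98865), (63, 122), (64, 89), (72, 25)]), (5, [(0, 1325), (4, 98810), (63, 122), (64, 140), (72, 25)]), (5, [(0, 1327), (4, 98757), (63, 122), (64, 191), (72, 25)]), (3, [(63, 14), (64, 988), (72, 1)]), (0, [(63, 2)]), (0, [(72, 2)]), (3, [(67, 1001)]), (0, [(63, 2)]), (2, [(68, 101)]), (2, [(76, 101)]), (0, [(63, 2)]), (0, [(63, 2)]), (0, [(72, 2)])],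
  [(0, [(30, 1), (63, 1)]), (3, [(41, 369), (42, 636), (63, 1)]), (4, [(49, 3379), (56, 1671), (57, 5063), (63, 21), (72, 12)]), (4, [(30, 9), (42, 10063), (54, 3), (72, 3)]), (3, [(30, 3), (42, 235), (47, 192), (57, 587), (63, 1)]), (4, [(30, 15), (42, 5404), (47, 4317), (57, 371), (63, 9)]), (4, [(30, 45), (47, 2483), (54, 1), (57, 7654), (72, 15)]), (4, [(30, 22), (42, 2516), (47, 5310), (57, 2281), (63, 14)]), (4, [(30, 26), (42, 351), (47, 5576), (57, 4196), (63, 19)]), (3, [(30, 3), (42, 17), (47, 644), (57, 350), (63, 2)]), (4, [(30, 11), (42, 9994), (63, 4), (72, 9)]), (1, [(30, 10), (61, 1), (81, 1)]), (4, [(41, 8174), (42, 1241), (57, 709), (63, 8), (72, 23)]), (4, [(41, 7998), (49, 430), (57, 1687), (63, 11), (72, 23)]), (1, [(30, 2), (54, 9), (72, 1)]), (4, [(41, 3727), (42, 5316), (57, 1048), (63, 10), (72, 2)]), (3, [(30, 4), (41, 345), (42, 32), (57, 636), (63, 1)]), (4, [(30, 2338), (52, 8975), (63,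 9), (68, 21), (81, 7)]), (5, [(30, 7), (42, 100184), (48, 2), (54, 127), (72, 26)]), (4, [(37, 6080), (41, 4002), (63, 14), (70, 16), (72, 36)]), (4, [(30, 2586), (52, 8864), (68, 26), (81, 17)]), (4, [(37, 7965), (41, 1597), (49, 536), (63, 16), (72, 37)]), (3, [(43, 878), (48, 62), (54, 101), (55, 24), (73, 2)]), (1, [(30, 6), (54, 3), (61, 3), (81, 1)]), (4, [(41, 4880), (42, 2151), (57, 3073), (63, 12), (72, 6)]), (4, [(30, 27), (51, 3083), (57, 7067), (63, 7)]), (4, [(37, 6643), (41, 3447), (63, 14), (70, 6), (72, 36)]), (4, [(41, 4306), (49, 1191), (57, 4616), (63, 16), (72, 9)]), (4, [(49, 3047), (56, 2064), (57, 5001), (63, 21), (72, 12)]), (4, [(56, 486), (57, 4715), (62, 4910), (63, 22), (72, 13)]), (4, [(51, 4530), (57, 4640), (62, 942), (63, 22), (72, 13)]), (0, [(0, 1), (63, 1)]), (1, [(0, 2), (20, 9), (72, 1)]), (5, [(0, 1370), (4, 98804), (63, 133), (64, 100), (72, 28)]), (4, [(0, 115), (4, 6458), (15,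 3448), (63, 14), (72, 2)]), (2, [(13, 101)]), (5, [(0, 1728), (4, 66035), (15, 32774), (63, 224), (72, 38)]), (4, [(0, 316), (6, 3079), (15, 3271), (29, 3476), (63, 23)]), (3, [(0, 13), (4, 746), (15, 249), (63, 3)]), (3, [(0, 13), (4, 840), (15, 153), (63, 3)]), (4, [(13, 6145), (14, 3854), (20, 175), (72, 12)]), (2, [(0, 1), (6, 24), (15, 53), (29, 23), (63, 1)]), (4, [(0, 585), (4, 1376), (15, 8347), (63, 32), (72, 2)]), (4, [(0, 735), (4, 476), (15, 9180), (63, 39), (72, 9)]), (1, [(0, 10), (25, 1), (81, 1)]), (5, [(0, 1265), (4, 87163), (15, 11817), (63, 134), (72, 25)]), (4, [(0, 148), (4, 9927), (72, 8)]), (3, [(0, 22), (4, 211), (15, 660), (29, 109), (63, 3)]), (4, [(0, 123), (4, 6428), (15, 3537), (63, 41), (72, 1)]), (1, [(0, 6), (20, 3), (25, 3), (81, 1)]), (3, [(0, 863), (24, 134), (63, 3), (68, 1), (81, 2)]), (3, [(18, 1), (19, 301), (20, 420), (21, 278), (73, 4)]), (5, [(0, 1319), (4, 98919), (63, 135),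 (64, 21), (72, 29)]), (4, [(0, 118), (4, 4691), (15, 5306), (63, 52)]), (5, [(0, 1346), (4, 98848), (63, 132), (64, 76), (72, 28)]), (5, [(0, 1358), (4, 98788), (63, 131), (64, 128), (72, 28)]), (5, [(0, 1364), (4, 98732), (63, 131), (64, 179), (72, 28)]), (5, [(0, 1367), (4, 98679), (63, 131), (64, 230), (72, 28)]), (3, [(63, 14), (64, 987), (72, 2)]), (0, [(63, 2)]), (0, [(72, 2)]), (2, [(67, 101)]), (0, [(63, 2)]), (2, [(68, 101)]), (2, [(76, 101)]), (0, [(63, 2)]), (0, [(63, 2)]), (0, [(72, 2)])],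
  [(0, [(63, 1)]), (3, [(67, 665), (70, 333), (72, 5)]), (3, [(67, 1001)]), (0, [(67, 1)]), (2, [(67, 99), (72, 2)]), (3, [(67, 991), (72, 15), (80, 1)]), (2, [(67, 98), (72, 2)]), (2, [(67, 99), (72, 2)]), (2, [(67, 99), (72, 2)]), (2, [(67, 98), (72, 2)]), (0, [(67, 1)]), (0, [(63, 2)]), (0, [(67, 1)]), (2, [(67, 101)]), (0, [(72, 1)]), (3, [(70, 1001)]), (3, [(70, 1001)]), (1, [(68, 11)]), (0, [(67, 1)]), (2, [(67, 101)]), (2, [(68, 101)]), (2, [(67, 101)]), (0, [(74, 1)]), (0, [(72, 2)]), (3, [(70, 1001)]), (3, [(70, 1001)]), (2, [(67, 101)]), (3, [(70, 1001)]), (3, [(67, 1001)]), (3, [(67, 1001)]), (4, [(67, 10001)]), (0, [(63, 1)]), (0, [(72, 1)]), (3, [(63, 15), (64, 987), (70, 1), (72, 2)]), (3, [(63, 12), (64, 989), (72, 3)]), (3, [(69, 993), (72, 6), (73, 7)]), (3, [(63, 18), (64, 986), (72, 4)]), (2, [(63, 3), (64, 98)]), (3, [(64, 1001)]), (3, [(64, 1001)]), (3, [(69, 1001)]), (2, [(64, 101)]), (2, [(63,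 5), (64, 95), (81, 1)]), (2, [(63, 7), (64, 95), (81, 3)]), (0, [(63, 2)]), (3, [(63, 13), (64, 988), (72, 2)]), (3, [(63, 14), (64, 984), (70, 1), (72, 8)]), (2, [(63, 2), (64, 99)]), (3, [(64, 1001)]), (0, [(72, 2)]), (0, [(63, 2)]), (0, [(73, 2)]), (3, [(63, 14), (64, 987), (70, 1), (72, 2)]), (2, [(64, 101)]), (3, [(63, 14), (64, 987), (70, 1), (72, 2)]), (3, [(63, 14), (64, 986), (70, 1), (72, 2)]), (3, [(63, 15), (64, 987), (70, 2), (72, 2)]), (3, [(63, 15), (64, 986), (70, 2), (72, 2)]), (2, [(64, 49), (70, 50), (72, 1)]), (0, [(63, 1)]), (0, [(72, 1)]), (1, [(65, 5), (69, 5)]), (0, [(63, 1)]), (1, [(63, 1), (64, 4), (68, 5)]), (1, [(69, 3), (72, 2), (73, 1), (78, 4)]), (0, [(72, 1)]), (0, [(63, 1)]), (0, [(73, 1)])],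
  [(0, [(0, 1), (63, 1)]), (4, [(13, 9376), (14, 649), (20, 2), (72, 1)]), (5, [(1, 5), (13, 94884), (17, 5158), (67, 142), (72, 63)]), (3, [(13, 1001)]), (4, [(13, 7646), (17, 2385), (20, 18), (72, 5)]), (4, [(13, 7028), (17, 3011), (20, 11), (72, 5)]), (5, [(1, 8), (13, 57537), (17, 42458), (20, 178), (72, 129)]), (5, [(1, 5), (13, 63667), (17, 36418), (20, 126), (72, 103)]), (3, [(13, 605), (17, 395), (20, 1), (72, 2)]), (5, [(1, 6), (13, 57537), (17, 42490), (20, 176), (72, 129)]), (4, [(13, 8355), (17, 1702), (20, 6), (72, 10)]), (1, [(0, 5), (20, 5), (25, 1), (81, 1)]), (4, [(13, 9552), (17, 520), (67, 12), (72, 6)]), (4, [(13, 9590), (17, 522), (67, 15), (72, 6)]), (1, [(20, 2), (21, 9), (73, 1)]), (4, [(13, 9870), (17, 175), (20, 2), (72, 5)]), (0, [(13, 1)]), (4, [(0, 244), (7, 2740), (15, 7191), (20, 10), (72, 15)]), (0, [(13, 1)]), (5, [(11, 100611), (65, 178), (69, 125), (72, 95), (73, 93)]), (3, [(4, 1001)]),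 (4, [(13, 10082), (66, 17), (72, 5), (73, 3), (80, 3)]), (3, [(19, 973), (21, 63), (74, 2)]), (1, [(20, 5), (21, 2), (26, 5), (80, 1)]), (5, [(1, 5), (13, 96652), (17, 3510), (67, 30), (72, 72)]), (4, [(1, 1), (13, 9569), (17, 468), (20, 12), (72, 5)]), (4, [(11, 10071), (65, 18), (69, 3), (72, 9), (73, 9)]), (5, [(1, 5), (13, 95740), (17, 4362), (67, 88), (72, 66)]), (5, [(1, 5), (13, 95275), (17, 4771), (67, 142), (72, 63)]), (5, [(1, 5), (13, 95025), (17, 4968), (67, 193), (72, 63)]), (5, [(1, 5), (13, 94879), (17, 5062), (67, 244), (72, 63)]), (0, [(30, 1), (63, 1)]), (1, [(54, 2), (55, 9), (73, 1)]), (3, [(31, 21), (42, 986), (65, 2)]), (4, [(41, 3723), (42, 1685), (47, 4661), (57, 20), (72, 4)]), (4, [(43, 2355), (48, 5647), (53, 2023), (73, 11)]), (4, [(30, 2), (42, 7011), (47, 3086), (54, 8), (72, 9)]), (3, [(30, 2), (41, 376), (44, 153), (57, 473)]), (4, [(41, 4175), (42, 5963), (63, 3), (72, 15)]), (4, [(41,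 3909), (42, 6210), (63, 3), (70, 4), (72, 14)]), (5, [(39, 3), (43, 89134), (53, 10693), (55, 585), (73, 104)]), (3, [(49, 17), (56, 686), (57, 310), (63, 2), (72, 3)]), (3, [(57, 1001)]), (4, [(30, 62), (47, 3282), (54, 68), (57, 6733), (72, 13)]), (1, [(30, 5), (54, 5), (61, 1), (81, 1)]), (4, [(31, 2268), (42, 7820), (54, 2), (72, 5)]), (0, [(47, 1)]), (3, [(42, 1001)]), (4, [(41, 7060), (42, 1955), (57, 1116), (63, 8), (72, 24)]), (1, [(54, 5), (55, 2), (59, 5), (80, 1)]), (3, [(30, 491), (52, 664), (61, 41), (81, 3)]), (3, [(55, 546), (58, 203), (60, 449), (73, 2)]), (3, [(31, 111), (42, 898), (65, 1)]), (4, [(41, 5857), (49, 1474), (57, 2805), (63, 14), (72, 25)]), (4, [(31, 603), (42, 9552), (65, 12), (72, 1)]), (3, [(31, 38), (42, 969), (65, 2)]), (4, [(31, 293), (42, 9776), (65, 23)]), (3, [(31, 26), (42, 980), (65, 3)]), (0, [(67, 1)]), (0, [(63, 2)]), (0, [(73, 1)]), (0, [(69, 1)]), (1, [(63, 11)]), (3, [(64,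 1001)]), (0, [(74, 1)]), (1, [(72, 11)]), (3, [(68, 1001)]), (0, [(73, 1)])],
  [(0, [(0, 1), (63, 1)]), (4, [(2, 1236), (10, 7046), (14, 1733), (70, 3)]), (4, [(10, 7641), (13, 1332), (14, 1025), (70, 20)]), (3, [(11, 1001)]), (3, [(13, 1001)]), (3, [(13, 1001)]), (5, [(1, 7), (13, 84471), (17, 15675), (20, 221), (72, 26)]), (3, [(13, 1001)]), (4, [(13, 8683), (17, 1370), (20, 17), (72, 5)]), (5, [(1, 5), (13, 84479), (17, 15698), (20, 220), (72, 26)]), (4, [(13, 9295), (14, 747), (20, 6), (72, 1)]), (1, [(0, 5), (20, 4), (25, 2), (81, 1)]), (4, [(2, 2870), (13, 6535), (14, 664), (65, 14), (72, 2)]), (3, [(2, 281), (13, 652), (14, 72), (65, 2)]), (1, [(20, 3), (21, 8), (73, 1)]), (3, [(2, 30), (10, 838), (14, 133), (70, 1)]), (0, [(10, 1)]), (3, [(7, 1001)]), (2, [(13, 101)]), (4, [(2, 1953), (11, 8092), (65, 15), (69, 17), (72, 11)]), (3, [(29, 1001)]), (3, [(2, 208), (11, 798), (65, 2), (72, 1)]), (3, [(19, 979),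 (21, 58), (74, 1)]), (0, [(20, 1), (26, 1)]), (5, [(1, 2), (10, 84861), (13, 3547), (14, 11523), (70, 105)]), (5, [(1, 8), (10, 30935), (13, 42225), (14, 27072), (70, 22)]), (4, [(2, 2035), (11, 8020), (65, 15), (69, 7), (72, 11)]), (3, [(10, 810), (13, 83), (14, 107), (70, 2)]), (3, [(10, 788), (13, 108), (14, 104), (70, 2)]), (4, [(10, 7763), (13, 1203), (14, 1028), (70, 25)]), (3, [(10, 770), (13, 127), (14, 102), (70, 3)]), (0, [(30, 1), (63, 1)]), (1, [(54, 3), (55, 8), (73, 1)]), (4, [(41, 5334), (42, 4702), (63, 5), (65, 7)]), (3, [(32, 1001)]), (4, [(43, 1968), (48, 7913), (53, 123), (55, 21), (73, 3)]), (2, [(42, 101)]), (3, [(41, 1001)]), (4, [(41, 5508), (42, 4686), (63, 5), (65, 4)]), (4, [(41, 5440), (42, 4644), (63, 5), (65, 7)]), (3, [(43, 1001)]), (4, [(49, 3659), (56, 6254), (57, 205), (63, 22), (72, 27)]), (3, [(42, 1001)]), (3, [(57, 1001)]), (1, [(30, 5), (54, 4), (61, 2), (81, 1)]), (2, [(41, 43),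 (42, 58)]), (3, [(31, 1001)]), (3, [(41, 1001)]), (4, [(41, 8641), (42, 1467), (63, 8), (70, 5), (72, 11)]), (0, [(54, 1), (59, 1)]), (3, [(30, 479), (52, 688), (61, 31), (81, 2)]), (3, [(55, 521), (58, 62), (60, 616), (73, 1)]), (5, [(41, 49947), (42, 50503), (48, 3), (63, 37), (65, 2)]), (4, [(37, 1523), (41, 5113), (49, 3481), (63, 14), (72, 22)]), (5, [(41, 52599), (42, 47788), (48, 3), (63, 45), (65, 48)]), (4, [(41, 5336), (42, 4698), (63, 5), (65, 10)]), (4, [(41, 5343), (42, 4685), (63, 5), (65, 15)]), (4, [(41, 5329), (42, 4694), (63, 5), (65, 20)]), (3, [(65, 321), (67, 324), (70, 354), (72, 2)]), (0, [(63, 2)]), (1, [(73, 11)]), (3, [(69, 1001)]), (1, [(63, 11)]), (4, [(64, 10001)]), (1, [(78, 11)]), (1, [(80, 11)]), (4, [(68, 10001)]), (0, [(73, 2)])],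
  [(0, [(0, 1), (63, 1)]), (4, [(10, 4905), (13, 3840), (14, 1276), (70, 2)]), (4, [(10, 1078), (13, 8498), (14, 456), (70, 17)]), (3, [(13, 1001)]), (3, [(13, 1001)]), (3, [(13, 1001)]), (5, [(1, 8), (13, 70479), (17, 29611), (20, 167), (72, 78)]), (4, [(13, 7597), (17, 2449), (20, 12), (72, 5)]), (5, [(1, 6), (13, 73056), (17, 27078), (20, 120), (72, 103)]), (5, [(1, 6), (13, 70484), (17, 29636), (20, 165), (72, 78)]), (4, [(13, 9263), (17, 770), (20, 6), (72, 5)]), (1, [(0, 5), (20, 5), (25, 2), (81, 1)]), (4, [(10, 1113), (13, 8518), (14, 448), (70, 15)]), (3, [(10, 111), (13, 850), (14, 45), (70, 2)]), (1, [(20, 2), (21, 9), (73, 1)]), (5, [(1, 3), (10, 30898), (13, 61337), (14, 7977), (70, 44)]), (3, [(11, 1001)]), (3, [(0, 21), (4, 47), (15, 947), (20, 1), (72, 1)]), (2, [(13, 101)]), (5, [(11, 100568), (65, 182), (69, 151), (72, 76), (73, 29)]), (3, [(29, 1001)]), (4, [(11, 9204), (13, 872), (65, 19), (72, 7),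 (73, 2)]), (3, [(19, 1005), (21, 56), (74, 1)]), (1, [(20, 4), (21, 1), (26, 6), (80, 1)]), (3, [(10, 213), (13, 729), (14, 59), (70, 1)]), (5, [(6, 10), (13, 90681), (14, 9558), (20, 62), (72, 15)]), (5, [(11, 100670), (65, 181), (69, 53), (72, 75), (73, 26)]), (4, [(10, 1629), (13, 7877), (14, 509), (70, 13)]), (3, [(10, 136), (13, 817), (14, 47), (70, 2)]), (4, [(10, 1225), (13, 8342), (14, 461), (70, 23)]), (3, [(10, 115), (13, 840), (14, 45), (70, 3)]), (0, [(30, 1), (63, 1)]), (1, [(54, 2), (55, 9), (73, 1)]), (4, [(31, 828), (41, 2367), (42, 6874), (65, 14)]), (2, [(32, 51), (42, 31), (47, 19)]), (4, [(43, 3277), (48, 5529), (53, 1195), (73, 6)]), (4, [(31, 55), (32, 1372), (42, 8666), (54, 12), (72, 4)]), (4, [(41, 10001)]), (4, [(41, 5864), (42, 4268), (63, 2), (70, 2), (72, 11)]), (3, [(41, 560), (42, 452), (70, 1), (72, 1)]), (5, [(39, 3), (43, 96267), (53, 3644), (55, 481), (73, 52)]), (4, [(56, 7013), (57,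 1272), (62, 1839), (63, 19), (72, 30)]), (3, [(57, 1001)]), (3, [(30, 5), (47, 414), (54, 5), (57, 590), (72, 1)]), (1, [(30, 5), (54, 5), (61, 2), (81, 1)]), (4, [(31, 3952), (42, 6201), (65, 1)]), (5, [(31, 100541), (48, 2), (54, 384), (72, 19), (73, 8)]), (2, [(41, 16), (42, 45), (57, 40)]), (4, [(41, 9514), (49, 117), (57, 498), (63, 6), (72, 24)]), (1, [(54, 4), (55, 1), (59, 6), (80, 1)]), (3, [(30, 454), (52, 706), (61, 38), (81, 3)]), (3, [(55, 502), (58, 143), (60, 553), (73, 2)]), (3, [(31, 209), (41, 149), (42, 650), (65, 1)]), (4, [(41, 3149), (49, 5538), (57, 1439), (63, 13), (72, 26)]), (4, [(31, 1311), (41, 2099), (42, 6662), (65, 12)]), (3, [(31, 101), (41, 230), (42, 676), (65, 2)]), (4, [(31, 908), (41, 2337), (42, 6816), (65, 22)]), (3, [(31, 88), (41, 232), (42, 685), (65, 3)]), (3, [(67, 831), (70, 170), (72, 1)]), (0, [(63, 2)]), (1, [(73, 11)]), (3, [(69, 1001)]), (1, [(63, 11)]), (3, [(64, 1001)]),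 (1, [(74, 11)]), (1, [(80, 11)]), (3, [(68, 1001)]), (0, [(73, 2)])],
  [(0, [(0, 1), (63, 1)]), (4, [(10, 1847), (13, 7057), (14, 1120), (70, 4)]), (5, [(1, 5), (13, 98608), (17, 1467), (67, 162), (72, 43)]), (3, [(13, 1001)]), (4, [(13, 8144), (17, 1894), (20, 15), (72, 5)]), (4, [(13, 7572), (17, 2472), (20, 9), (72, 5)]), (5, [(1, 9), (13, 63762), (17, 36277), (20, 144), (72, 129)]), (5, [(1, 6), (13, 69504), (17, 30622), (20, 99), (72, 103)]), (5, [(1, 7), (13, 66570), (17, 33514), (20, 96), (72, 154)]), (5, [(1, 7), (13, 63766), (17, 36305), (20, 142), (72, 129)]), (3, [(13, 881), (17, 125), (72, 1)]), (1, [(0, 5), (20, 5), (25, 2), (81, 1)]), (4, [(13, 9928), (17, 148), (67, 14), (72, 4)]), (3, [(13, 997), (17, 15), (67, 2)]), (1, [(20, 2), (21, 9), (73, 1)]), (3, [(13, 945), (14, 57), (70, 1)]), (3, [(13, 1001)]), (3, [(0, 19), (7, 959), (20, 1), (23, 39), (81, 1)]), (2, [(13, 101)]), (5, [(11, 100573), (65,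 216), (69, 136), (72, 76), (73, 62)]), (3, [(4, 1001)]), (4, [(11, 3223), (13, 6857), (65, 22), (72, 5), (73, 3)]), (3, [(19, 977), (21, 56), (74, 2)]), (1, [(20, 4), (21, 2), (26, 5), (80, 1)]), (5, [(1, 5), (13, 99997), (14, 197), (70, 53), (72, 50)]), (4, [(1, 1), (13, 9937), (17, 106), (20, 9), (72, 5)]), (4, [(11, 10068), (65, 22), (69, 4), (72, 7), (73, 6)]), (5, [(1, 5), (13, 99410), (17, 725), (67, 108), (72, 46)]), (5, [(1, 5), (13, 98973), (17, 1107), (67, 161), (72, 44)]), (5, [(1, 5), (13, 98735), (17, 1291), (67, 213), (72, 43)]), (5, [(1, 5), (13, 98595), (17, 1380), (67, 264), (72, 43)]), (0, [(30, 1), (63, 1)]), (1, [(54, 2), (55, 9), (73, 1)]), (3, [(33, 169), (41, 119), (42, 721), (65, 2)]), (4, [(41, 4723), (42, 461), (47, 3867), (57, 1048), (72, 4)]), (4, [(43, 1856), (48, 6500), (53, 1666), (73, 12)]), (4, [(42, 4769), (47, 4850), (57, 502), (63, 3), (72, 6)]), (4, [(30, 26), (44, 885), (49, 4299),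 (57, 4865), (63, 3)]), (4, [(41, 6510), (42, 2845), (57, 792), (63, 4), (72, 17)]), (4, [(41, 7457), (42, 2677), (63, 3), (70, 1), (72, 22)]), (5, [(39, 4), (43, 91395), (53, 8516), (55, 455), (73, 103)]), (4, [(56, 605), (57, 1961), (62, 7563), (63, 19), (72, 30)]), (2, [(57, 101)]), (4, [(30, 55), (47, 2258), (54, 62), (57, 7777), (72, 12)]), (1, [(30, 5), (54, 5), (61, 2), (81, 1)]), (4, [(31, 1470), (32, 1624), (33, 1103), (42, 5912), (72, 7)]), (3, [(57, 1001)]), (3, [(42, 1001)]), (4, [(41, 6299), (49, 2213), (57, 1622), (63, 10), (72, 26)]), (1, [(54, 4), (55, 2), (59, 5), (80, 1)]), (3, [(30, 381), (52, 583), (61, 34), (81, 3)]), (3, [(55, 509), (58, 179), (60, 509), (73, 2)]), (4, [(31, 47), (33, 3140), (42, 6916), (65, 7), (72, 5)]), (4, [(49, 7482), (56, 94), (57, 2555), (63, 17), (72, 28)]), (4, [(33, 2296), (41, 743), (42, 7058), (65, 13), (72, 4)]), (4, [(33, 1924), (41, 1044), (42, 7124), (65, 18), (72,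 4)]), (4, [(33, 1778), (41, 1156), (42, 7152), (65, 23), (72, 4)]), (4, [(33, 1722), (41, 1201), (42, 7158), (65, 28), (72, 4)]), (3, [(67, 1001)]), (0, [(63, 2)]), (0, [(73, 2)]), (3, [(69, 1001)]), (1, [(72, 11)]), (3, [(64, 1001)]), (1, [(74, 11)]), (1, [(80, 11)]), (2, [(68, 101)]), (0, [(73, 2)])],
  [(0, [(0, 1), (63, 1)]), (3, [(10, 21), (13, 872), (14, 110), (70, 1)]), (5, [(1, 5), (13, 96653), (17, 3354), (67, 208), (72, 48)]), (3, [(13, 855), (17, 147), (72, 1)]), (5, [(1, 8), (13, 78643), (17, 21431), (20, 141), (72, 103)]), (5, [(1, 6), (13, 72722), (17, 27417), (20, 71), (72, 103)]), (3, [(13, 605), (17, 395), (20, 1), (72, 2)]), (5, [(1, 7), (13, 66484), (17, 33601), (20, 81), (72, 154)]), (5, [(1, 8), (13, 63442), (17, 36599), (20, 79), (72, 205)]), (3, [(13, 605), (17, 395), (20, 1), (72, 2)]), (5, [(1, 4), (13, 85454), (17, 14787), (20, 22), (72, 154)]), (1, [(0, 5), (20, 5), (25, 2), (81, 1)]), (4,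 [(13, 9659), (17, 336), (67, 18), (72, 5)]), (5, [(1, 2), (13, 97119), (17, 3377), (67, 210), (72, 47)]), (1, [(20, 2), (21, 9), (73, 1)]), (5, [(1, 5), (13, 100139), (17, 60), (67, 28), (72, 75)]), (4, [(13, 9823), (17, 214), (20, 21), (72, 5)]), (3, [(23, 1001)]), (4, [(13, 7069), (17, 2996), (72, 5)]), (4, [(11, 10056), (65, 26), (69, 13), (72, 8), (73, 8)]), (3, [(23, 1001)]), (4, [(13, 9990), (65, 17), (66, 10), (72, 5), (73, 3)]), (3, [(19, 1002), (21, 60), (74, 2)]), (1, [(20, 4), (21, 2), (26, 5), (80, 1)]), (5, [(1, 5), (13, 98363), (17, 1765), (67, 97), (72, 57)]), (5, [(1, 12), (13, 97196), (17, 2930), (20, 78), (72, 103)]), (4, [(11, 9979), (65, 26), (69, 4), (72, 8), (73, 8)]), (5, [(1, 5), (13, 97481), (17, 2586), (67, 154), (72, 51)]), (5, [(1, 5), (13, 97031), (17, 2981), (67, 208), (72, 49)]), (5, [(1, 5), (13, 96787), (17, 3172), (67, 259), (72, 48)]), (5, [(1, 5), (13, 96643), (17, 3263), (67, 310),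 (72, 48)]), (0, [(30, 1), (63, 1)]), (1, [(54, 2), (55, 9), (73, 1)]), (4, [(41, 4679), (42, 5437), (63, 1), (70, 12), (72, 14)]), (3, [(57, 1001)]), (5, [(39, 3), (43, 12475), (48, 69031), (53, 18671), (73, 173)]), (4, [(42, 3139), (47, 5090), (57, 1902), (63, 7), (72, 7)]), (4, [(30, 27), (49, 465), (56, 4519), (57, 5133), (63, 5)]), (4, [(41, 6569), (42, 1337), (57, 2251), (63, 8), (72, 18)]), (4, [(41, 7841), (42, 1058), (57, 1246), (63, 7), (72, 24)]), (5, [(39, 5), (43, 89669), (53, 10198), (55, 468), (73, 155)]), (3, [(51, 351), (57, 241), (62, 421), (63, 2), (72, 3)]), (4, [(30, 51), (47, 1758), (54, 16), (57, 8317), (72, 6)]), (4, [(30, 58), (47, 479), (54, 67), (57, 9558), (72, 16)]), (1, [(30, 5), (54, 5), (61, 2), (81, 1)]), (4, [(41, 4368), (42, 4407), (47, 759), (57, 591), (72, 13)]), (3, [(57, 1001)]), (4, [(30, 14), (41, 327), (42, 2855), (57, 6930), (63, 1)]), (4, [(41, 2384), (49, 5245), (57, 2509),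 (63, 15), (72, 28)]), (1, [(54, 4), (55, 2), (59, 5), (80, 1)]), (3, [(30, 466), (52, 689), (61, 41), (81, 4)]), (3, [(55, 521), (58, 194), (60, 482), (73, 3)]), (4, [(33, 261), (41, 4410), (42, 5455), (65, 4), (72, 15)]), (4, [(49, 2268), (56, 5127), (57, 2739), (63, 19), (72, 29)]), (4, [(41, 4690), (42, 5429), (63, 1), (70, 9), (72, 14)]), (4, [(41, 4704), (42, 5410), (63, 1), (70, 14), (72, 14)]), (4, [(41, 4695), (42, 5413), (63, 1), (70, 19), (72, 14)]), (4, [(41, 4685), (42, 5418), (63, 1), (70, 24), (72, 14)]), (3, [(67, 1001)]), (0, [(63, 2)]), (0, [(73, 2)]), (4, [(69, 10001)]), (1, [(72, 11)]), (3, [(64, 1001)]), (1, [(74, 11)]), (1, [(80, 11)]), (2, [(68, 101)]), (0, [(73, 2)])],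
  [(0, [(0, 1), (63, 1)]), (5, [(1, 3), (13, 91204), (14, 8976), (70, 89), (72, 28)]), (5, [(1, 5), (13, 95676), (17, 4272), (67, 254), (72, 54)]), (5, [(1, 5), (13, 84405), (17, 15767), (20, 27), (72, 103)]), (3, [(13, 774), (17, 226), (20, 1), (72, 2)]), (5, [(1, 6), (13, 71360), (17, 28743), (20, 51), (72, 154)]), (4, [(1, 1), (13, 5898), (17, 4099), (20, 11), (72, 23)]), (5, [(1, 8), (13, 65020), (17, 35029), (20, 62), (72, 205)]), (5, [(1, 9), (13, 61929), (17, 38076), (20, 61), (72, 257)]), (4, [(13, 5897), (17, 4101), (20, 10), (72, 23)]), (5, [(1, 5), (13, 84311), (17, 15894), (20, 1), (72, 205)]), (1, [(0, 5), (20, 5), (25, 2), (81, 1)]), (4, [(13, 9632), (17, 431), (67, 23), (72, 5)]), (4, [(13, 9614), (17, 430), (67, 26), (72, 5)]), (1, [(20, 2), (21, 9), (73, 1)]), (5, [(1, 5), (13, 99221), (17, 918), (67, 73), (72, 81)]), (5, [(1, 9), (13, 97053), (17, 2997), (20, 193), (72, 103)]), (2, [(23, 101)]), (4,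 [(13, 6924), (17, 3136), (67, 4), (72, 6)]), (5, [(11, 100526), (65, 298), (69, 124), (72, 86), (73, 85)]), (3, [(0, 26), (4, 541), (15, 457), (20, 4), (72, 2)]), (4, [(13, 10073), (66, 29), (72, 4), (73, 2), (80, 3)]), (3, [(19, 974), (21, 60), (74, 3)]), (1, [(20, 5), (21, 2), (26, 5), (80, 1)]), (5, [(1, 5), (13, 97414), (17, 2655), (67, 142), (72, 63)]), (5, [(1, 13), (13, 96267), (17, 3823), (20, 59), (72, 154)]), (4, [(11, 10063), (65, 30), (69, 3), (72, 8), (73, 8)]), (5, [(1, 5), (13, 96518), (17, 3490), (67, 200), (72, 56)]), (5, [(1, 5), (13, 96060), (17, 3892), (67, 254), (72, 54)]), (4, [(13, 9581), (17, 409), (67, 31), (72, 5)]), (4, [(13, 9567), (17, 418), (67, 36), (72, 5)]), (0, [(30, 1), (63, 1)]), (1, [(54, 2), (55, 9), (73, 1)]), (4, [(41, 7397), (42, 2741), (63, 4), (70, 7), (72, 25)]), (4, [(42, 5089), (47, 647), (57, 4392), (63, 2), (72, 5)]), (4, [(43, 861), (48, 7200), (53, 1951), (73, 23)]),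 (3, [(42, 177), (47, 490), (57, 334), (63, 1), (72, 1)]), (4, [(30, 27), (51, 1002), (57, 5173), (62, 3878), (63, 7)]), (4, [(41, 5495), (49, 1148), (57, 3522), (63, 13), (72, 19)]), (4, [(41, 6036), (49, 1707), (57, 2409), (63, 12), (72, 25)]), (5, [(39, 5), (43, 89161), (53, 10657), (55, 481), (73, 206)]), (3, [(51, 748), (57, 265), (63, 2), (72, 3)]), (3, [(30, 5), (54, 2), (57, 1008), (72, 1)]), (4, [(30, 60), (54, 70), (57, 10033), (72, 16), (81, 5)]), (1, [(30, 5), (54, 5), (61, 2), (81, 1)]), (4, [(41, 3592), (42, 4374), (57, 2171), (63, 3), (72, 14)]), (3, [(31, 786), (32, 87), (45, 139), (54, 4), (72, 2)]), (3, [(30, 1), (41, 46), (42, 126), (57, 840), (63, 1)]), (4, [(49, 4424), (56, 2841), (57, 2875), (63, 19), (72, 29)]), (1, [(54, 5), (55, 2), (59, 5), (80, 1)]), (3, [(30, 473), (52, 682), (61, 41), (81, 5)]), (3, [(55, 531), (58, 199), (60, 466), (73, 4)]), (4, [(41, 6745), (42, 3040), (57, 359), (63,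 3), (72, 24)]), (3, [(56, 299), (57, 278), (62, 436), (63, 2), (72, 3)]), (4, [(41, 7406), (42, 2734), (63, 3), (70, 4), (72, 25)]), (4, [(41, 7428), (42, 2706), (63, 4), (70, 9), (72, 25)]), (4, [(41, 7427), (42, 2702), (63, 4), (70, 14), (72, 25)]), (4, [(41, 7425), (42, 2699), (63, 4), (70, 19), (72, 25)]), (4, [(67, 10001)]), (0, [(63, 2)]), (0, [(73, 2)]), (2, [(69, 99), (73, 2)]), (1, [(63, 11)]), (3, [(64, 1001)]), (1, [(74, 11)]), (1, [(72, 11)]), (2, [(68, 101)]), (0, [(73, 2)])],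
  [(0, [(0, 1), (63, 1)]), (5, [(1, 3), (13, 92452), (14, 7680), (70, 119), (72, 47)]), (5, [(1, 5), (13, 95175), (17, 4719), (67, 301), (72, 57)]), (5, [(1, 6), (13, 83839), (17, 16302), (20, 4), (72, 154)]), (4, [(1, 1), (13, 7679), (17, 2321), (20, 10), (72, 21)]), (5, [(1, 7), (13, 70693), (17, 29379), (20, 29), (72, 205)]), (4, [(1, 1), (13, 5837), (17, 4181), (20, 9), (72, 28)]), (3, [(13, 643), (17, 357), (72, 3)]), (4, [(1, 1), (13, 6119), (17, 3878), (20, 4), (72, 31)]), (4, [(13, 5838), (17, 4185), (20, 9), (72, 28)]), (5, [(1, 5), (13, 83726), (17, 16427), (67, 41), (72, 216)]), (1, [(0, 5), (20, 5), (25, 2), (81, 1)]), (4, [(13, 9651), (17, 479), (67, 28), (72, 5)]), (5, [(1, 2), (13, 95633), (17, 4749), (67, 304), (72, 56)]), (1, [(20, 2), (21, 9), (73, 1)]), (5, [(1, 5), (13, 98750), (17, 1335), (67, 120), (72, 85)]), (5, [(1, 10), (13, 96619), (17, 3398), (20, 174), (72, 154)]), (3, [(0, 22), (7, 480),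 (20, 1), (23, 500), (81, 2)]), (4, [(13, 6889), (17, 3221), (67, 9), (72, 6)]), (4, [(11, 10049), (65, 34), (69, 12), (72, 9), (73, 9)]), (4, [(0, 266), (4, 4074), (15, 5931), (20, 36), (72, 28)]), (4, [(13, 10157), (66, 33), (72, 4), (73, 2), (80, 5)]), (4, [(18, 1), (19, 9726), (21, 613), (74, 32)]), (1, [(20, 5), (21, 2), (26, 5), (80, 1)]), (5, [(1, 5), (13, 96926), (17, 3087), (67, 189), (72, 67)]), (5, [(1, 14), (13, 95810), (17, 4247), (20, 37), (72, 205)]), (4, [(11, 10059), (65, 34), (69, 2), (72, 9), (73, 9)]), (4, [(13, 9602), (17, 393), (67, 25), (72, 6)]), (5, [(1, 5), (13, 95562), (17, 4336), (67, 301), (72, 58)]), (5, [(1, 5), (13, 95314), (17, 4531), (67, 352), (72, 57)]), (5, [(1, 5), (13, 95169), (17, 4625), (67, 403), (72, 57)]), (0, [(30, 1), (63, 1)]), (1, [(54, 2), (55, 9), (73, 1)]), (4, [(37, 2238), (41, 7919), (63, 9), (70, 1), (72, 37)]), (4, [(42, 3897), (47, 227), (57, 5897), (63, 6), (72,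 6)]), (5, [(39, 5), (43, 4957), (48, 75276), (53, 19847), (73, 282)]), (4, [(42, 585), (47, 4621), (57, 4948), (63, 15), (72, 8)]), (4, [(30, 27), (51, 4814), (57, 5169), (63, 8)]), (3, [(41, 40), (49, 554), (57, 422), (63, 2), (72, 2)]), (4, [(41, 948), (49, 6100), (57, 3106), (63, 18), (72, 28)]), (5, [(39, 6), (43, 89088), (53, 10683), (55, 486), (73, 258)]), (3, [(51, 731), (57, 283), (63, 2), (64, 1), (72, 3)]), (4, [(30, 54), (54, 20), (57, 10076), (72, 8), (81, 8)]), (4, [(30, 61), (54, 71), (57, 10028), (72, 14), (81, 13)]), (1, [(30, 5), (54, 5), (61, 2), (81, 1)]), (4, [(41, 4261), (42, 2193), (57, 3693), (63, 7), (72, 15)]), (4, [(31, 3472), (32, 5463), (45, 1224), (54, 39), (72, 25)]), (3, [(30, 1), (56, 15), (57, 971), (62, 40), (63, 1)]), (3, [(56, 511), (57, 271), (62, 232), (63, 2), (72, 3)]), (1, [(54, 5), (55, 2), (59, 5), (80, 1)]), (2, [(30, 48), (52, 68), (61, 4), (81, 1)]), (3, [(55, 537), (58,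 201), (60, 457), (73, 4)]), (4, [(41, 7418), (42, 854), (57, 1882), (63, 8), (72, 25)]), (3, [(51, 270), (57, 283), (62, 460), (63, 2), (72, 3)]), (4, [(41, 9690), (49, 244), (57, 225), (63, 7), (72, 35)]), (4, [(37, 2583), (41, 7571), (63, 9), (70, 4), (72, 37)]), (4, [(37, 2689), (41, 7459), (63, 9), (70, 9), (72, 37)]), (4, [(37, 2786), (41, 7356), (63, 9), (70, 14), (72, 37)]), (4, [(67, 10001)]), (0, [(63, 2)]), (0, [(73, 2)]), (2, [(69, 99), (73, 2)]), (1, [(63, 11)]), (3, [(64, 1001)]), (1, [(74, 11)]), (1, [(72, 11)]), (2, [(68, 101)]), (0, [(73, 2)])],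
  [(0, [(30, 1), (63, 1)]), (2, [(41, 24), (42, 77)]), (4, [(41, 2701), (42, 1266), (57, 6175), (63, 16), (72, 2)]), (2, [(42, 101)]), (2, [(57, 101)]), (2, [(42, 101)]), (4, [(30, 45), (47, 2639), (54, 9), (57, 7497), (72, 7)]), (4, [(30, 26), (42, 1271), (47, 7011), (57, 1831), (63, 7)]), (4, [(30, 34), (47, 6167), (57, 3957), (63, 5), (72, 6)]), (3, [(30, 4), (47, 672), (57, 326), (72, 1)]), (4, [(30, 14), (42, 10064), (54, 5), (72, 5)]), (1, [(30, 10), (61, 1), (81, 1)]), (4, [(41, 4138), (42, 5572), (57, 429), (63, 4), (72, 14)]), (4, [(41, 4533), (42, 4110), (57, 1489), (63, 7), (72, 14)]), (1, [(30, 2), (54, 9), (72, 1)]), (4, [(30, 3), (41, 1558), (42, 7702), (57, 840), (63, 2)]), (2, [(42, 101)]), (4, [(30, 2400), (52, 8952), (68, 20), (81, 8)]), (3, [(42, 1001)]), (4, [(41, 6306), (42, 3797), (63, 5), (70, 18), (72, 24)]), (3, [(30, 265), (52, 884), (68, 2), (81, 2)]), (4, [(41, 6895), (42, 3229), (63, 5),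 (70, 2), (72, 25)]), (2, [(43, 81), (48, 7), (54, 10), (55, 3), (73, 1)]), (1, [(30, 5), (54, 3), (61, 3), (81, 1)]), (4, [(30, 1), (41, 1653), (42, 5641), (57, 2823), (63, 7)]), (2, [(42, 101)]), (4, [(41, 6399), (42, 3714), (63, 5), (70, 8), (72, 23)]), (4, [(41, 1963), (42, 3603), (57, 4565), (63, 12)]), (4, [(41, 2815), (42, 1100), (57, 6228), (63, 16), (72, 2)]), (4, [(49, 2741), (56, 130), (57, 7277), (63, 22), (72, 4)]), (4, [(51, 1194), (57, 7021), (62, 1931), (63, 22), (72, 5)]), (0, [(0, 1), (63, 1)]), (1, [(0, 2), (20, 9), (72, 1)]), (5, [(0, 1460), (4, 98774), (63, 49), (64, 104), (72, 32)]), (3, [(0, 12), (4, 657), (15, 333), (63, 1)]), (3, [(13, 1001)]), (4, [(0, 183), (4, 6715), (15, 3162), (63, 14), (72, 4)]), (3, [(0, 33), (6, 222), (15, 391), (29, 371), (63, 2)]), (4, [(0, 139), (4, 7573), (15, 2374), (63, 20), (72, 2)]), (5, [(0, 1389), (4, 85170), (15, 14131), (63, 194), (72, 25)]), (2, [(13, 101)]),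 (2, [(0, 1), (6, 13), (15, 62), (29, 26), (63, 1)]), (4, [(0, 606), (4, 1484), (15, 8230), (63, 23), (72, 3)]), (3, [(0, 76), (4, 58), (15, 906), (63, 3), (72, 1)]), (1, [(0, 10), (25, 1), (81, 1)]), (4, [(0, 135), (4, 8829), (15, 1066), (63, 5), (72, 3)]), (5, [(0, 1530), (4, 98868), (14, 2), (20, 51), (72, 6)]), (3, [(0, 23), (4, 309), (15, 680), (63, 2)]), (4, [(0, 132), (4, 6541), (15, 3421), (63, 33), (72, 1)]), (1, [(0, 5), (20, 3), (25, 3), (81, 1)]), (3, [(0, 866), (24, 131), (63, 2), (68, 1), (81, 2)]), (3, [(18, 1), (19, 288), (20, 408), (21, 303), (73, 3)]), (5, [(0, 1408), (4, 98889), (63, 50), (64, 25), (72, 33)]), (4, [(0, 126), (4, 4804), (15, 5190), (63, 43)]), (4, [(0, 144), (4, 9882), (63, 5), (64, 8), (72, 3)]), (4, [(0, 145), (4, 9876), (63, 5), (64, 13), (72, 3)]), (4, [(0, 145), (4, 9870), (63, 5), (64, 18), (72, 3)]), (4, [(0, 146), (4, 9898), (63, 5), (64, 24), (72, 3)]), (3, [(63, 14), (64,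 987), (72, 2)]), (0, [(63, 2)]), (0, [(72, 2)]), (0, [(67, 1)]), (0, [(63, 2)]), (2, [(68, 101)]), (2, [(76, 101)]), (0, [(63, 2)]), (0, [(63, 2)]), (0, [(72, 2)])],
  [(0, [(30, 1), (63, 1)]), (2, [(32, 101)]), (4, [(41, 724), (49, 2297), (57, 7115), (63, 11), (72, 1)]), (2, [(42, 101)]), (2, [(57, 101)]), (2, [(42, 101)]), (2, [(57, 101)]), (2, [(42, 101)]), (2, [(57, 101)]), (2, [(57, 101)]), (2, [(42, 101)]), (1, [(30, 10), (61, 1), (81, 1)]), (4, [(41, 6321), (42, 1392), (47, 713), (57, 1710), (72, 13)]), (4, [(41, 5585), (42, 1683), (57, 2862), (63, 1), (72, 13)]), (0, [(54, 3)]), (2, [(41, 29), (42, 50), (57, 22)]), (0, [(62, 1)]), (4, [(30, 1744), (52, 9233), (68, 11), (81, 7)]), (3, [(32, 1001)]), (4, [(33, 1846), (41, 8250), (42, 16), (65, 12), (72, 32)]), (3, [(30, 193), (52, 914), (68, 1), (81, 2)]), (4, [(32, 287), (41, 8903), (47, 146), (57, 790), (72, 27)]), (2, [(43, 98), (54, 7), (55, 2)]), (1, [(30,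 4), (54, 3), (61, 4), (81, 1)]), (2, [(41, 30), (42, 29), (57, 42)]), (2, [(51, 101)]), (4, [(33, 1953), (35, 76), (41, 8092), (70, 3), (72, 31)]), (4, [(30, 1), (41, 3360), (42, 817), (57, 5952), (63, 5)]), (4, [(41, 415), (49, 2612), (57, 7108), (63, 12), (72, 1)]), (4, [(51, 652), (57, 6905), (62, 2578), (63, 13), (72, 2)]), (4, [(51, 3269), (57, 6863), (63, 13), (64, 2), (72, 2)]), (0, [(0, 1), (63, 1)]), (0, [(20, 3)]), (5, [(0, 967), (4, 99194), (63, 15), (64, 61), (72, 29)]), (5, [(0, 810), (4, 53986), (15, 45595), (63, 14), (72, 16)]), (2, [(13, 101)]), (4, [(0, 122), (4, 5541), (15, 4381), (63, 10), (72, 3)]), (3, [(0, 23), (6, 449), (15, 341), (29, 198), (63, 1)]), (4, [(0, 90), (4, 6386), (15, 3600), (63, 15), (72, 1)]), (5, [(0, 898), (4, 73302), (15, 26388), (63, 151), (72, 16)]), (2, [(13, 101)]), (3, [(0, 7), (6, 378), (15, 553), (29, 78), (63, 6)]), (3, [(0, 43), (4, 34), (15, 948), (63, 2)]), (3, [(0,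 52), (7, 872), (15, 106), (63, 1), (81, 2)]), (1, [(0, 10), (25, 1), (81, 1)]), (4, [(0, 89), (4, 7645), (15, 2288), (63, 1), (72, 2)]), (3, [(0, 10), (4, 676), (15, 317)]), (4, [(0, 157), (6, 582), (15, 6937), (29, 2423), (63, 12)]), (3, [(0, 8), (4, 535), (15, 465), (63, 3)]), (1, [(0, 4), (20, 3), (25, 4), (81, 1)]), (3, [(0, 823), (24, 176), (63, 1), (68, 1), (81, 2)]), (3, [(19, 337), (20, 328), (21, 334), (73, 2)]), (5, [(0, 931), (4, 94080), (15, 5209), (63, 13), (72, 28)]), (4, [(0, 78), (4, 1299), (15, 5736), (29, 2997), (63, 39)]), (5, [(0, 952), (4, 99444), (63, 14), (64, 36), (72, 29)]), (5, [(0, 961), (4, 99387), (63, 13), (64, 89), (72, 29)]), (5, [(0, 964), (4, 99121), (63, 13), (64, 140), (72, 29)]), (5, [(0, 966), (4, 99068), (63, 13), (64, 191), (72, 29)]), (3, [(63, 9), (64, 991), (72, 2)]), (0, [(63, 2)]), (0, [(72, 2)]), (0, [(67, 1)]), (0, [(63, 2)]), (2, [(68, 101)]), (2, [(76, 101)]), (1, [(63,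 11)]), (0, [(63, 2)]), (0, [(72, 2)])],
  [(0, [(30, 1), (63, 1)]), (2, [(41, 40), (42, 61)]), (4, [(41, 2493), (49, 2127), (57, 5521), (63, 14), (72, 5)]), (2, [(42, 101)]), (2, [(57, 101)]), (2, [(42, 101)]), (4, [(30, 38), (47, 3088), (54, 4), (57, 7067), (72, 4)]), (3, [(57, 1001)]), (3, [(30, 2), (42, 103), (47, 534), (57, 377), (63, 1)]), (4, [(30, 31), (42, 860), (47, 6195), (57, 3075), (63, 6)]), (4, [(30, 10), (42, 10003), (54, 3), (72, 3)]), (1, [(30, 10), (61, 1), (81, 1)]), (4, [(41, 6750), (42, 3224), (57, 170), (63, 2), (72, 17)]), (4, [(41, 7137), (42, 1767), (57, 1231), (63, 5), (72, 17)]), (1, [(30, 2), (54, 9), (72, 1)]), (4, [(30, 1), (41, 3181), (42, 6381), (57, 546), (63, 1)]), (3, [(50, 1001)]), (4, [(30, 2080), (52, 9085), (68, 18), (81, 7)]), (3, [(42, 1001)]), (4, [(41, 8575), (42, 1529), (63, 3), (70, 19), (72, 25)]), (4, [(30, 2298), (52, 8986), (57, 1), (68, 13), (81, 17)]), (4, [(41, 9117),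 (42, 1008), (63, 3), (70, 3), (72, 26)]), (3, [(43, 837), (48, 110), (54, 89), (55, 25), (73, 1)]), (1, [(30, 5), (54, 3), (61, 4), (81, 1)]), (4, [(41, 3488), (42, 4096), (57, 2539), (63, 6), (72, 1)]), (2, [(51, 101)]), (4, [(41, 8638), (42, 1475), (63, 3), (70, 9), (72, 25)]), (4, [(41, 4390), (42, 1371), (57, 4258), (63, 10), (72, 3)]), (4, [(41, 2192), (49, 2434), (57, 5515), (63, 15), (72, 5)]), (4, [(56, 4585), (57, 5510), (62, 45), (63, 18), (72, 7)]), (4, [(51, 2180), (57, 5359), (62, 2600), (63, 18), (72, 8)]), (0, [(0, 1), (63, 1)]), (1, [(0, 2), (20, 9), (72, 1)]), (5, [(0, 1227), (4, 98960), (63, 15), (64, 116), (72, 27)]), (4, [(0, 103), (4, 6907), (15, 3015), (63, 3), (72, 2)]), (2, [(13, 101)]), (5, [(0, 1535), (4, 70548), (15, 28453), (63, 110), (72, 39)]), (4, [(0, 280), (6, 2571), (15, 3191), (29, 4092), (63, 11)]), (3, [(0, 11), (4, 785), (15, 203), (63, 2)]), (3, [(0, 11), (4, 880), (15, 108), (63,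 2)]), (2, [(13, 101)]), (3, [(0, 10), (6, 194), (15, 521), (29, 292), (63, 6)]), (4, [(0, 517), (4, 1803), (15, 7960), (63, 20), (72, 2)]), (4, [(0, 651), (4, 896), (15, 8809), (63, 27), (72, 9)]), (1, [(0, 10), (25, 1), (81, 1)]), (5, [(0, 1132), (4, 91740), (15, 7402), (63, 20), (72, 27)]), (3, [(0, 12), (4, 901), (15, 89)]), (4, [(0, 194), (4, 3415), (15, 6503), (63, 13)]), (4, [(0, 108), (4, 6880), (15, 3102), (63, 30), (72, 1)]), (1, [(0, 5), (20, 3), (25, 4), (81, 1)]), (3, [(0, 848), (24, 150), (63, 2), (68, 1), (81, 2)]), (3, [(18, 1), (19, 321), (20, 388), (21, 291), (73, 3)]), (5, [(0, 1181), (4, 99071), (63, 16), (64, 36), (72, 28)]), (3, [(0, 10), (4, 514), (15, 488), (63, 4)]), (5, [(0, 1208), (4, 99271), (63, 13), (64, 91), (72, 27)]), (5, [(0, 1213), (4, 98672), (63, 13), (64, 144), (72, 27)]), (5, [(0, 1222), (4, 98887), (63, 12), (64, 195), (72, 27)]), (5, [(0, 1224), (4, 98834), (63, 12), (64, 246),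 (72, 27)]), (3, [(63, 12), (64, 989), (72, 2)]), (0, [(63, 2)]), (0, [(72, 2)]), (2, [(67, 101)]), (0, [(63, 2)]), (2, [(68, 101)]), (2, [(76, 101)]), (0, [(63, 2)]), (0, [(63, 2)]), (0, [(72, 2)])],
  [(0, [(30, 1), (63, 1)]), (4, [(30, 6), (41, 3681), (42, 6373), (63, 2)]), (4, [(41, 4104), (49, 1830), (57, 4212), (63, 14), (72, 12)]), (2, [(42, 101)]), (2, [(57, 101)]), (4, [(30, 16), (42, 10094), (54, 11), (72, 3)]), (4, [(30, 38), (47, 4843), (57, 5326), (63, 4), (72, 6)]), (3, [(30, 2), (42, 412), (47, 568), (57, 33), (63, 1)]), (4, [(30, 24), (42, 1956), (47, 5946), (57, 2247), (63, 14)]), (4, [(30, 30), (42, 1772), (47, 6815), (57, 1554), (63, 12)]), (3, [(30, 1), (42, 1000), (72, 1)]), (1, [(30, 10), (61, 1), (81, 1)]), (4, [(41, 6123), (42, 4016), (63, 3), (70, 4), (72, 16)]), (4, [(41, 8143), (42, 1995), (63, 5), (72, 23)]), (1, [(30, 2), (54, 9), (72, 1)]), (4, [(41, 2747), (42, 7362), (63, 5), (65, 1)]),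 (2, [(50, 101)]), (4, [(30, 2242), (52, 9013), (68, 24), (81, 7)]), (3, [(42, 1001)]), (4, [(41, 7630), (42, 2470), (63, 5), (70, 23), (72, 23)]), (4, [(30, 2475), (52, 8910), (57, 1), (68, 19), (81, 18)]), (4, [(41, 8219), (42, 1901), (63, 5), (70, 7), (72, 24)]), (3, [(43, 697), (48, 249), (54, 96), (55, 26), (73, 2)]), (1, [(30, 5), (54, 3), (61, 3), (81, 1)]), (4, [(41, 4684), (42, 4270), (57, 1175), (63, 6), (72, 7)]), (4, [(30, 28), (51, 3162), (57, 7032), (63, 2)]), (4, [(41, 7722), (42, 2386), (63, 5), (70, 14), (72, 23)]), (3, [(41, 566), (42, 154), (57, 294), (63, 1), (72, 1)]), (4, [(41, 3799), (49, 2142), (57, 4206), (63, 15), (72, 12)]), (4, [(49, 3058), (56, 2600), (57, 4489), (63, 19), (72, 15)]), (4, [(56, 1094), (57, 4186), (62, 4864), (63, 20), (72, 16)]), (0, [(0, 1), (63, 1)]), (1, [(0, 2), (20, 9), (72, 1)]), (5, [(0, 1351), (4, 98822), (63, 20), (64, 162), (72, 28)]), (5, [(0, 1137), (4, 81841),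 (15, 17280), (63, 40), (72, 29)]), (2, [(13, 101)]), (5, [(0, 1685), (4, 83280), (15, 15602), (63, 124), (72, 47)]), (3, [(0, 30), (6, 53), (15, 337), (29, 584), (63, 2)]), (4, [(0, 127), (4, 9203), (15, 753), (63, 18), (72, 2)]), (5, [(0, 1274), (4, 99387), (63, 176), (64, 7), (72, 28)]), (2, [(13, 101)]), (3, [(0, 11), (4, 54), (15, 547), (29, 406), (63, 6)]), (4, [(0, 562), (4, 3030), (15, 6708), (63, 22), (72, 3)]), (3, [(0, 71), (4, 211), (15, 756), (63, 3), (72, 1)]), (1, [(0, 10), (25, 1), (81, 1)]), (4, [(0, 125), (4, 9931), (63, 3), (64, 2), (72, 3)]), (4, [(0, 140), (4, 9895), (20, 3), (72, 3)]), (5, [(0, 2124), (4, 46719), (15, 52324), (63, 147), (72, 7)]), (4, [(0, 121), (4, 8244), (15, 1825), (63, 31), (72, 1)]), (1, [(0, 5), (20, 3), (25, 3), (81, 1)]), (3, [(0, 858), (24, 140), (63, 3), (68, 1), (81, 2)]), (3, [(18, 1), (19, 309), (20, 406), (21, 284), (73, 3)]), (5, [(0, 1302), (4, 98936), (63, 22),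 (64, 82), (72, 29)]), (4, [(0, 115), (4, 6418), (15, 3586), (63, 41), (72, 1)]), (5, [(0, 1328), (4, 98866), (63, 19), (64, 137), (72, 28)]), (5, [(0, 1340), (4, 98805), (63, 18), (64, 190), (72, 28)]), (5, [(0, 1346), (4, 98750), (63, 17), (64, 242), (72, 28)]), (5, [(0, 1349), (4, 98696), (63, 17), (64, 294), (72, 28)]), (3, [(63, 13), (64, 988), (72, 2)]), (0, [(63, 2)]), (0, [(72, 2)]), (2, [(67, 101)]), (0, [(63, 2)]), (2, [(68, 101)]), (2, [(76, 101)]), (0, [(63, 2)]), (0, [(63, 2)]), (0, [(72, 2)])],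
  [(0, [(30, 1), (63, 1)]), (3, [(41, 324), (42, 681), (63, 1)]), (4, [(41, 5303), (49, 2006), (57, 2842), (63, 14), (72, 21)]), (4, [(30, 8), (42, 10060), (54, 4), (72, 3)]), (4, [(30, 29), (42, 4763), (47, 3022), (57, 2390), (63, 8)]), (4, [(30, 17), (42, 10089), (54, 10), (72, 8)]), (3, [(30, 3), (47, 658), (57, 361), (63, 2)]), (4, [(30, 23), (42, 9977), (47, 149), (54, 10), (72, 13)]), (3, [(30, 2), (42, 268), (47, 677), (57, 70), (63, 2)]), (4, [(30, 27), (42, 2482), (47, 7664), (57, 8), (63, 18)]), (4, [(30, 12), (42, 10063), (63, 2), (72, 11)]), (1, [(30, 10), (61, 1), (81, 1)]), (4, [(41, 5475), (42, 4660), (63, 4), (70, 9), (72, 16)]), (4, [(41, 7504), (42, 2631), (63, 5), (70, 5), (72, 23)]), (1, [(30, 2), (54, 9), (72, 1)]), (4, [(41, 2307), (42, 7887), (63, 5), (65, 5)]), (4, [(30, 38), (41, 2015), (42, 5124), (57, 3033), (63, 5)]), (4, [(30, 2321), (52, 8976), (68, 29), (81, 7)]), (4, [(42, 10015), (54,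 14), (72, 3)]), (4, [(41, 6924), (42, 3171), (63, 5), (70, 28), (72, 22)]), (3, [(30, 256), (52, 887), (68, 2), (81, 2)]), (4, [(41, 7559), (42, 2556), (63, 5), (70, 12), (72, 23)]), (3, [(43, 561), (48, 386), (54, 99), (55, 27), (73, 2)]), (1, [(30, 5), (54, 3), (61, 3), (81, 1)]), (4, [(41, 5857), (42, 4276), (63, 5), (70, 1), (72, 15)]), (3, [(30, 2), (51, 115), (57, 719), (62, 168), (63, 1)]), (4, [(41, 7046), (42, 3059), (63, 5), (70, 18), (72, 22)]), (4, [(41, 7088), (42, 1451), (57, 1607), (63, 9), (72, 18)]), (4, [(41, 4993), (49, 2325), (57, 2833), (63, 14), (72, 20)]), (4, [(49, 5755), (56, 1066), (57, 3331), (63, 20), (72, 23)]), (4, [(56, 5626), (57, 2952), (62, 1572), (63, 21), (72, 25)]), (0, [(0, 1), (63, 1)]), (1, [(0, 2), (20, 9), (72, 1)]), (5, [(0, 1410), (4, 98729), (63, 24), (64, 207), (72, 29)]), (5, [(0, 1185), (4, 94503), (15, 4563), (63, 54), (72, 37)]), (3, [(13, 1001)]), (5, [(0, 1756), (4,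 95910), (15, 2907), (63, 138), (72, 56)]), (3, [(0, 31), (4, 467), (15, 362), (29, 143), (63, 2)]), (4, [(0, 132), (4, 9845), (63, 19), (64, 2), (72, 3)]), (3, [(0, 13), (4, 993), (63, 2), (64, 1)]), (3, [(13, 673), (14, 334), (20, 17), (72, 1)]), (3, [(0, 11), (4, 494), (15, 512), (63, 6)]), (4, [(0, 583), (4, 4244), (15, 5481), (63, 24), (72, 4)]), (3, [(0, 73), (4, 331), (15, 635), (63, 3), (72, 1)]), (1, [(0, 10), (25, 1), (81, 1)]), (5, [(0, 1303), (4, 98938), (63, 36), (64, 64), (72, 33)]), (4, [(0, 147), (4, 9923), (20, 1), (72, 8)]), (3, [(0, 22), (4, 592), (15, 398), (63, 2)]), (5, [(0, 1260), (4, 94373), (15, 5284), (63, 327), (72, 27)]), (1, [(0, 5), (20, 3), (25, 3), (81, 1)]), (3, [(0, 862), (24, 135), (63, 3), (68, 1), (81, 2)]), (3, [(18, 1), (19, 302), (20, 409), (21, 287), (73, 4)]), (4, [(0, 136), (4, 9884), (63, 3), (64, 13), (72, 3)]), (4, [(0, 122), (4, 7783), (15, 2341), (63, 43), (72, 1)]), (4,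 [(0, 139), (4, 9847), (63, 3), (64, 19), (72, 3)]), (5, [(0, 1399), (4, 98712), (63, 22), (64, 235), (72, 29)]), (5, [(0, 1406), (4, 98657), (63, 21), (64, 288), (72, 29)]), (5, [(0, 1409), (4, 98603), (63, 20), (64, 339), (72, 29)]), (3, [(63, 14), (64, 987), (70, 1), (72, 2)]), (0, [(63, 2)]), (0, [(72, 2)]), (2, [(67, 101)]), (0, [(63, 2)]), (2, [(68, 101)]), (2, [(76, 101)]), (0, [(63, 2)]), (0, [(63, 2)]), (0, [(72, 2)])],
  [(0, [(30, 1), (63, 1)]), (4, [(30, 1), (41, 2872), (42, 7224), (63, 11)]), (4, [(41, 6132), (49, 2683), (57, 1340), (63, 12), (72, 30)]), (4, [(30, 9), (42, 9996), (54, 3), (72, 8)]), (4, [(30, 25), (42, 5665), (47, 3697), (57, 829), (63, 14)]), (4, [(30, 17), (42, 10085), (54, 8), (72, 13)]), (4, [(30, 28), (42, 611), (47, 7607), (57, 1984), (63, 23)]), (3, [(30, 2), (42, 998), (54, 1), (72, 2)]), (4, [(30, 29), (42, 7190), (47, 2972), (72, 24)]), (3, [(30, 3), (42, 993), (47, 21), (54, 1),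 (72, 2)]), (4, [(30, 11), (42, 10059), (63, 5), (72, 13)]), (1, [(30, 10), (61, 1), (81, 1)]), (4, [(41, 5048), (42, 5082), (63, 4), (70, 13), (72, 16)]), (4, [(41, 7085), (42, 3044), (63, 5), (70, 10), (72, 23)]), (1, [(30, 2), (54, 9), (72, 1)]), (4, [(41, 1895), (42, 8204), (63, 6), (65, 10)]), (3, [(30, 3), (41, 118), (42, 745), (57, 157), (63, 1)]), (4, [(30, 2360), (52, 8955), (68, 35), (81, 7)]), (3, [(42, 1001), (54, 1), (72, 1)]), (4, [(41, 6444), (42, 3647), (63, 5), (70, 33), (72, 22)]), (3, [(30, 260), (52, 885), (68, 3), (81, 2)]), (4, [(41, 7123), (42, 2988), (63, 5), (70, 17), (72, 23)]), (2, [(43, 40), (48, 50), (54, 10), (55, 3), (73, 1)]), (1, [(30, 5), (54, 3), (61, 3), (81, 1)]), (4, [(41, 5459), (42, 4670), (63, 5), (70, 5), (72, 15)]), (3, [(30, 2), (44, 27), (49, 230), (57, 768), (63, 2)]), (4, [(41, 6592), (42, 3507), (63, 5), (70, 23), (72, 22)]), (4, [(41, 8805), (42, 1112), (57, 235), (63,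 7), (72, 27)]), (4, [(41, 5817), (49, 3008), (57, 1331), (63, 13), (72, 30)]), (4, [(49, 8171), (56, 10), (57, 1975), (63, 19), (72, 33)]), (4, [(49, 1130), (56, 7465), (57, 1559), (63, 20), (72, 34)]), (0, [(0, 1), (63, 1)]), (1, [(0, 2), (20, 9), (72, 1)]), (4, [(0, 144), (4, 9866), (63, 3), (64, 26), (72, 3)]), (5, [(0, 1209), (4, 99010), (63, 62), (64, 30), (72, 41)]), (3, [(11, 956), (17, 44), (20, 7), (72, 1)]), (5, [(0, 1791), (4, 98750), (63, 144), (64, 36), (72, 59)]), (5, [(0, 3170), (4, 71263), (15, 27059), (63, 147), (72, 6)]), (3, [(0, 13), (4, 986), (63, 2), (64, 1)]), (4, [(0, 136), (4, 9922), (63, 18), (64, 10), (72, 3)]), (3, [(2, 58), (13, 704), (14, 247), (20, 18), (72, 2)]), (4, [(0, 114), (4, 6245), (15, 3811), (63, 63), (72, 1)]), (3, [(0, 59), (4, 550), (15, 422), (63, 3)]), (4, [(0, 745), (4, 4556), (15, 5094), (63, 32), (72, 12)]), (1, [(0, 10), (25, 1), (81, 1)]), (5, [(0, 1330), (4, 98868),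 (63, 39), (64, 111), (72, 34)]), (5, [(0, 1498), (4, 98819), (64, 22), (70, 9), (72, 103)]), (3, [(0, 22), (4, 713), (15, 265), (63, 2)]), (4, [(0, 129), (4, 9960), (63, 33), (64, 3), (72, 3)]), (1, [(0, 5), (20, 3), (25, 3), (81, 1)]), (3, [(0, 863), (24, 133), (63, 4), (68, 1), (81, 2)]), (3, [(18, 1), (19, 298), (20, 408), (21, 292), (73, 4)]), (5, [(0, 1387), (4, 98774), (63, 30), (64, 174), (72, 31)]), (4, [(0, 123), (4, 9000), (15, 993), (63, 44), (72, 2)]), (4, [(0, 142), (4, 9870), (63, 3), (64, 23), (72, 3)]), (5, [(0, 1428), (4, 98641), (63, 24), (64, 283), (72, 30)]), (4, [(0, 144), (4, 9859), (63, 2), (64, 34), (72, 3)]), (4, [(0, 144), (4, 9853), (63, 2), (64, 39), (72, 3)]), (3, [(63, 14), (64, 986), (70, 1), (72, 2)]), (0, [(63, 2)]), (0, [(72, 2)]), (2, [(67, 101)]), (0, [(63, 2)]), (2, [(68, 101)]), (2, [(76, 101)]), (0, [(63, 2)]), (0, [(63, 2)]), (0, [(72, 2)])],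
  [(0, [(63, 1)]), (3, [(67, 665), (70, 333), (72, 5)]), (3, [(67, 1001)]), (0, [(67, 1)]), (2, [(67, 99), (72, 2)]), (3, [(67, 990), (72, 15), (80, 1)]), (2, [(67, 98), (72, 2)]), (2, [(67, 99), (72, 2)]), (2, [(67, 99), (72, 2)]), (2, [(67, 98), (72, 2)]), (0, [(67, 1)]), (0, [(63, 2)]), (0, [(67, 1)]), (2, [(67, 101)]), (0, [(72, 1)]), (3, [(70, 1001)]), (3, [(70, 1001)]), (1, [(68, 11)]), (0, [(67, 1)]), (2, [(67, 101)]), (2, [(68, 101)]), (2, [(67, 101)]), (0, [(74, 1)]), (0, [(72, 2)]), (3, [(70, 1001)]), (3, [(70, 1001)]), (2, [(67, 101)]), (3, [(70, 1001)]), (3, [(67, 1001)]), (4, [(67, 10001)]), (4, [(67, 10001)]), (0, [(63, 1)]), (0, [(72, 1)]), (3, [(63, 15), (64, 987), (70, 1), (72, 2)]), (3, [(63, 12), (64, 989), (72, 3)]), (3, [(69, 993), (72, 6), (73, 7)]), (3, [(63, 18), (64, 986), (72, 4)]), (2, [(63, 3), (64, 98)]), (3, [(64, 1001)]), (3, [(64, 1001)]), (3, [(69, 1001)]), (2, [(64, 101)]), (2, [(63,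 5), (64, 95), (81, 1)]), (2, [(63, 7), (64, 95), (81, 3)]), (0, [(63, 2)]), (3, [(63, 13), (64, 988), (72, 2)]), (3, [(63, 14), (64, 984), (70, 1), (72, 8)]), (2, [(63, 2), (64, 99)]), (3, [(64, 1001)]), (0, [(72, 2)]), (0, [(63, 2)]), (0, [(73, 2)]), (3, [(63, 14), (64, 987), (70, 1), (72, 2)]), (2, [(64, 101)]), (3, [(63, 14), (64, 987), (70, 1), (72, 2)]), (3, [(63, 14), (64, 986), (70, 1), (72, 2)]), (3, [(63, 15), (64, 987), (70, 2), (72, 2)]), (3, [(63, 15), (64, 986), (70, 2), (72, 2)]), (3, [(63, 5), (64, 492), (70, 497), (72, 14)]), (0, [(63, 1)]), (0, [(72, 1)]), (1, [(65, 5), (69, 5)]), (0, [(63, 1)]), (1, [(63, 1), (64, 4), (68, 5)]), (1, [(69, 3), (72, 2), (73, 1), (78, 4)]), (0, [(72, 1)]), (0, [(63, 1)]), (0, [(73, 1)])]]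

set_option maxRecDepth 100000 in
theorem okRU : chkRect LD LU LR cRU = true := by decide +kernel

end Pool.Agent.Lib.MP_dbb03c_co.Full
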