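import Pool.Agent.Lib.MP_dbb03c_co.Full.Data

/-! # Certificate data (generated) -/

namespace Pool.Agent.Lib.MP_dbb03c_co.Full

set_option maxRecDepth 100000 in
def cUU : List (List Ct) := [
  [(0, [(0, 1)]), (0, [(0, 1), (63, 1)]), (0, [(0, 1), (63, 1)]), (0, [(0, 1), (63, 1)]), (0, [(0, 1), (63, 1)]), (0, [(0, 1), (63, 1)]), (0, [(0, 1), (63, 1)]), (0, [(0, 1), (63, 1)]), (0, [(0, 1), (63, 1)]), (0, [(0, 1), (63, 1)]), (0, [(0, 1), (63, 1)]), (0, [(0, 1), (63, 1)]), (0, [(0, 1), (63, 1)]), (0, [(0, 1), (63, 1)]), (0, [(0, 1), (63, 1)]), (0, [(0, 1), (63, 1)]), (0, [(0, 1), (63, 1)]), (0, [(0, 1), (63, 1)]), (0, [(0, 1), (63, 1)]), (0, [(0, 1), (63, 1)]), (0, [(0, 1), (63, 1)]), (0, [(0, 1), (63, 1)]), (0, [(0, 1), (63, 1)]), (0, [(0, 1), (63, 1)]), (0, [(0, 1), (63, 1)]), (0, [(0, 1), (63, 1)]), (0, [(0, 1), (63, 1)]), (0, [(0, 1), (63, 1)]), (0, [(0, 1), (63, 1)]), (0, [(0, 1), (63, 1)]), (0,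 [(0, 1), (63, 1)]), (0, [(30, 1)]), (0, [(30, 1), (63, 1)]), (0, [(30, 1), (63, 1)]), (0, [(30, 1), (63, 1)]), (0, [(30, 1), (63, 1)]), (0, [(30, 1), (63, 1)]), (0, [(30, 1), (63, 1)]), (0, [(30, 1), (63, 1)]), (0, [(30, 1), (63, 1)]), (0, [(30, 1), (63, 1)]), (0, [(30, 1), (63, 1)]), (0, [(30, 1), (63, 1)]), (0, [(30, 1), (63, 1)]), (0, [(30, 1), (63, 1)]), (0, [(30, 1), (63, 1)]), (0, [(30, 1), (63, 1)]), (0, [(30, 1), (63, 1)]), (0, [(30, 1), (63, 1)]), (0, [(30, 1), (63, 1)]), (0, [(30, 1), (63, 1)]), (0, [(30, 1), (63, 1)]), (0, [(30, 1), (63, 1)]), (0, [(30, 1), (63, 1)]), (0, [(30, 1), (63, 1)]), (0, [(30, 1), (63, 1)]), (0, [(30, 1), (63, 1)]), (0, [(30, 1), (63, 1)]), (0, [(63, 1)]), (0, [(63, 1)]), (0, [(63, 1)]), (0, [(63, 1)]), (0, [(63, 1)]), (0, [(63, 1)]), (0, [(63, 1)]), (0, [(63, 1)]), (0, [(63, 1)]), (0, [(63, 1)])],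
  [(3, [(10, 169), (13, 609), (14, 225)]), (5, [(1, 4), (13, 93741), (14, 6487), (70, 95), (72, 69)]), (3, [(13, 1001)]), (3, [(13, 1001)]), (3, [(13, 1001)]), (3, [(13, 704), (17, 297), (20, 3), (72, 1)]), (3, [(13, 755), (17, 247), (20, 2), (72, 1)]), (4, [(13, 7314), (17, 2740), (20, 25), (72, 10)]), (3, [(13, 704), (17, 297), (20, 3), (72, 1)]), (4, [(13, 9239), (17, 798), (20, 15), (72, 5)]), (1, [(0, 6), (20, 4), (25, 1), (81, 1)]), (4, [(13, 9441), (14, 650), (70, 7), (72, 7)]), (4, [(13, 9423), (14, 648), (70, 10), (72, 7)]), (1, [(20, 3), (21, 8), (73, 1)]), (4, [(10, 190), (13, 8231), (14, 1616), (70, 3)]), (3, [(11, 1001)]), (3, [(0, 34), (4, 144), (15, 842), (20, 1), (72, 1)]), (2, [(13, 101)]), (4, [(11, 10089), (65, 12), (69, 12), (72, 17), (73, 3)]), (3, [(29, 1001)]), (4, [(2, 459), (13, 9448), (14, 194), (65, 13), (72, 12)]), (3, [(19, 1004), (21, 86), (74, 1)]), (1, [(20, 6), (21,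 1), (26, 4), (80, 1)]), (5, [(1, 3), (13, 88901), (14, 11419), (70, 42), (72, 27)]), (5, [(6, 9), (13, 90493), (14, 9774), (20, 160), (72, 16)]), (4, [(11, 10099), (65, 11), (69, 2), (72, 17), (73, 3)]), (5, [(1, 4), (13, 91420), (14, 8854), (70, 70), (72, 46)]), (5, [(1, 4), (13, 92610), (14, 7616), (70, 109), (72, 57)]), (5, [(1, 4), (13, 93164), (14, 7012), (70, 153), (72, 63)]), (5, [(1, 4), (13, 93414), (14, 6712), (70, 201), (72, 66)]), (0, [(30, 1), (63, 1)]), (1, [(54, 3), (55, 8), (73, 1)]), (4, [(41, 2209), (42, 7849), (63, 13)]), (2, [(42, 101)]), (4, [(43, 2618), (48, 6542), (53, 813), (55, 29), (73, 7)]), (4, [(30, 9), (42, 10074), (54, 13), (72, 3)]), (3, [(41, 1001)]), (3, [(41, 239), (42, 785), (63, 1)]), (4, [(41, 2333), (42, 7773), (63, 13)]), (4, [(43, 10027), (54, 6), (55, 73), (73, 5)]), (4, [(41, 3223), (49, 3221), (57, 3720), (63, 30), (72, 14)]), (3, [(42, 1001)]), (3, [(30,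 9), (47, 549), (54, 5), (57, 453), (72, 1)]), (1, [(30, 6), (54, 4), (61, 1), (81, 1)]), (2, [(41, 9), (42, 92)]), (2, [(47, 101)]), (2, [(42, 101)]), (4, [(41, 3731), (42, 6404), (63, 16), (70, 3), (72, 5)]), (1, [(54, 6), (55, 1), (59, 4), (80, 1)]), (3, [(30, 580), (52, 585), (61, 32), (81, 3)]), (3, [(55, 526), (58, 97), (60, 376), (73, 2)]), (4, [(30, 4), (41, 1824), (42, 8240), (63, 5)]), (3, [(41, 563), (42, 332), (57, 119), (63, 2), (72, 1)]), (3, [(41, 214), (42, 798), (63, 1)]), (4, [(41, 2204), (42, 7852), (63, 14), (65, 2)]), (4, [(41, 2205), (42, 7845), (63, 14), (65, 7)]), (4, [(41, 2180), (42, 7865), (63, 14), (65, 12)]), (4, [(66, 10001)]), (0, [(63, 2)]), (1, [(73, 11)]), (3, [(69, 1001)]), (0, [(63, 2)]), (3, [(64, 1001)]), (1, [(74, 11)]), (0, [(72, 2)]), (2, [(63, 101)]), (0, [(73, 2)])],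
  [(5, [(1, 6), (13, 94827), (17, 5154), (67, 295), (72, 64)]), (5, [(1, 7), (13, 83393), (17, 16833), (20, 9), (72, 154)]), (4, [(1, 1), (13, 7631), (17, 2377), (20, 11), (72, 21)]), (5, [(1, 8), (13, 70138), (17, 30018), (20, 36), (72, 205)]), (4, [(1, 1), (13, 5758), (17, 4243), (20, 10), (72, 28)]), (3, [(13, 635), (17, 363), (72, 3)]), (4, [(1, 1), (13, 6057), (17, 3949), (20, 5), (72, 31)]), (4, [(1, 1), (13, 5758), (17, 4247), (20, 10), (72, 28)]), (5, [(1, 6), (13, 83292), (17, 16951), (67, 29), (72, 228)]), (1, [(0, 5), (20, 5), (25, 1), (81, 1)]), (4, [(13, 9547), (17, 520), (67, 27), (72, 6)]), (4, [(13, 9528), (17, 519), (67, 30), (72, 6)]), (1, [(20, 2), (21, 9), (73, 1)]), (5, [(1, 6), (13, 98438), (17, 1735), (67, 113), (72, 92)]), (5, [(1, 11), (13, 96335), (17, 3763), (20, 184), (72, 155)]), (4, [(0, 231), (7, 3992), (20, 16), (23, 6034), (81, 14)]), (4, [(13, 6833), (17, 3293),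 (67, 8), (72, 7)]), (5, [(11, 100701), (65, 354), (69, 104), (72, 96), (73, 92)]), (3, [(0, 27), (4, 323), (15, 651), (20, 3), (72, 3)]), (4, [(13, 9556), (17, 521), (67, 38), (72, 6)]), (4, [(18, 1), (19, 9725), (21, 635), (74, 32)]), (1, [(20, 5), (21, 2), (26, 5), (80, 1)]), (5, [(1, 6), (13, 96596), (17, 3506), (67, 183), (72, 73)]), (4, [(1, 1), (13, 9549), (17, 465), (20, 4), (72, 21)]), (4, [(11, 10080), (65, 35), (69, 1), (72, 9), (73, 9)]), (5, [(1, 6), (13, 95684), (17, 4358), (67, 241), (72, 66)]), (5, [(1, 6), (13, 95219), (17, 4767), (67, 295), (72, 64)]), (5, [(1, 6), (13, 94969), (17, 4964), (67, 346), (72, 64)]), (5, [(1, 6), (13, 94823), (17, 5058), (67, 397), (72, 64)]), (0, [(30, 1), (63, 1)]), (1, [(54, 2), (55, 9), (73, 1)]), (4, [(41, 8994), (49, 1024), (57, 162), (63, 9), (72, 36)]), (4, [(42, 2713), (47, 729), (57, 6719), (63, 8), (72, 3)]), (5, [(39, 5), (43, 8338), (48,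 71743), (53, 20099), (73, 279)]), (4, [(30, 2), (47, 4320), (57, 5851), (63, 13), (72, 10)]), (4, [(30, 29), (51, 4771), (57, 5290), (63, 8)]), (3, [(49, 461), (56, 52), (57, 488), (63, 2), (72, 2)]), (4, [(41, 135), (49, 6117), (57, 3921), (63, 20), (72, 24)]), (3, [(43, 894), (53, 104), (55, 5), (73, 3)]), (4, [(51, 6517), (57, 3634), (63, 23), (64, 8), (72, 25)]), (4, [(30, 56), (54, 22), (57, 10082), (72, 4), (81, 12)]), (3, [(30, 6), (54, 7), (57, 1003), (72, 1), (81, 2)]), (1, [(30, 5), (54, 5), (61, 1), (81, 1)]), (3, [(41, 353), (42, 222), (57, 458), (63, 1), (72, 1)]), (3, [(31, 98), (32, 848), (45, 93), (54, 4), (72, 3)]), (3, [(30, 1), (51, 43), (57, 971), (63, 1)]), (4, [(56, 2327), (57, 3431), (62, 4402), (63, 22), (72, 26)]), (1, [(54, 5), (55, 2), (59, 5), (80, 1)]), (2, [(30, 49), (52, 67), (61, 4), (81, 1)]), (3, [(55, 547), (58, 202), (60, 447), (73, 4)]), (3, [(41, 664), (42,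 84), (57, 270), (63, 1), (72, 2)]), (4, [(51, 4313), (57, 3598), (62, 2247), (63, 22), (72, 25)]), (3, [(41, 873), (49, 26), (57, 102), (63, 1), (72, 3)]), (4, [(37, 6395), (41, 3780), (63, 13), (72, 40)]), (3, [(37, 653), (41, 364), (63, 1), (70, 1), (72, 4)]), (4, [(37, 6669), (41, 3495), (63, 14), (70, 10), (72, 40)]), (3, [(67, 1001)]), (0, [(63, 2)]), (0, [(73, 2)]), (3, [(69, 1001)]), (1, [(63, 11)]), (3, [(64, 1001)]), (1, [(74, 11)]), (1, [(72, 11)]), (2, [(68, 101)]), (0, [(73, 2)])],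
  [(3, [(13, 1001)]), (3, [(13, 1001)]), (3, [(13, 1001)]), (5, [(1, 8), (13, 38367), (17, 61712), (20, 385), (72, 78)]), (4, [(13, 4580), (17, 5480), (20, 29), (72, 5)]), (3, [(13, 421), (17, 585), (20, 3), (72, 1)]), (5, [(1, 6), (13, 38349), (17, 61762), (20, 382), (72, 78)]), (4, [(13, 6933), (17, 3101), (20, 19), (72, 5)]), (1, [(0, 6), (20, 5), (25, 1), (81, 1)]), (4, [(13, 8394), (17, 1696), (20, 2), (72, 13)]), (4, [(13, 8437), (17, 1704), (72, 15)]), (1, [(20, 3), (21, 8), (73, 1)]), (3, [(13, 1001)]), (3, [(13, 1001)]), (4, [(0, 409), (4, 767), (15, 9065), (20, 18), (72, 9)]), (2, [(13, 101)]), (3, [(11, 1000), (65, 1), (69, 1), (72, 2), (73, 2)]), (3, [(29, 1001)]), (4, [(13, 8404), (17, 1699), (67, 6), (72, 17)]), (3, [(19, 1000), (21, 103), (74, 1)]), (1, [(20, 6), (21, 2), (26, 4), (80, 1)]), (4, [(13, 8547), (17, 1480), (20, 6), (72, 5)]), (3, [(13, 1001)]), (4, [(13, 9186), (17,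 947), (72, 13), (73, 1), (80, 15)]), (3, [(13, 847), (17, 159), (72, 1)]), (5, [(1, 7), (13, 83871), (17, 16359), (20, 9), (72, 154)]), (5, [(1, 7), (13, 83589), (17, 16596), (67, 34), (72, 172)]), (5, [(1, 7), (13, 83426), (17, 16708), (67, 85), (72, 172)]), (0, [(30, 1), (63, 1)]), (1, [(54, 3), (55, 8), (73, 1)]), (3, [(42, 1006), (72, 1)]), (2, [(42, 101)]), (4, [(43, 2830), (48, 4235), (53, 2926), (55, 20), (73, 5)]), (4, [(30, 11), (42, 10068), (54, 33), (72, 3)]), (2, [(41, 21), (42, 43), (57, 37)]), (3, [(30, 1), (42, 1013), (72, 1)]), (3, [(30, 1), (42, 1011), (72, 1)]), (3, [(43, 878), (53, 118), (55, 13), (73, 1)]), (4, [(42, 4452), (47, 1146), (57, 4595), (63, 29), (72, 4)]), (2, [(47, 101)]), (3, [(30, 10), (47, 446), (54, 9), (57, 537), (72, 1)]), (1, [(30, 6), (54, 5), (61, 1), (81, 1)]), (2, [(42, 101)]), (2, [(47, 101)]), (3, [(42, 1001)]), (4, [(30, 8), (42, 10147), (63, 3), (72,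 15)]), (1, [(54, 6), (55, 2), (59, 4), (80, 1)]), (3, [(30, 625), (52, 531), (61, 41), (81, 3)]), (3, [(55, 571), (58, 200), (60, 228), (73, 2)]), (4, [(30, 8), (42, 10068), (54, 8), (72, 3)]), (4, [(42, 6580), (47, 2272), (57, 1316), (63, 22), (72, 1)]), (4, [(30, 8), (42, 9996), (54, 4), (72, 8)]), (4, [(30, 9), (42, 9993), (54, 2), (72, 13)]), (5, [(30, 79), (42, 100591), (48, 5), (63, 17), (72, 163)]), (5, [(30, 53), (42, 100565), (48, 6), (63, 66), (72, 166)]), (0, [(67, 1)]), (0, [(63, 2)]), (0, [(73, 2)]), (3, [(69, 1001)]), (0, [(63, 2)]), (3, [(64, 1001)]), (1, [(74, 11)]), (0, [(72, 2)]), (1, [(63, 11)]), (0, [(73, 2)])],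
  [(4, [(1, 1), (13, 5371), (17, 4672), (20, 72), (72, 5)]), (4, [(13, 4405), (17, 5647), (20, 51), (72, 5)]), (4, [(1, 1), (13, 2829), (17, 7153), (20, 77), (72, 13)]), (3, [(13, 358), (17, 647), (20, 6), (72, 1)]), (3, [(13, 318), (17, 681), (20, 6), (72, 2)]), (4, [(1, 1), (13, 2824), (17, 7161), (20, 77), (72, 13)]), (3, [(13, 618), (17, 389), (20, 4), (72, 1)]), (1, [(0, 7), (20, 4), (25, 1), (81, 1)]), (3, [(13, 768), (17, 240), (20, 1), (72, 2)]), (3, [(13, 772), (17, 241), (20, 1), (72, 2)]), (0, [(20, 1), (21, 1), (73, 1)]), (3, [(13, 813), (17, 189), (20, 2), (72, 1)]), (3, [(13, 1001)]), (2, [(23, 101)]), (2, [(13, 101)]), (4, [(13, 7764), (17, 2426), (67, 2), (72, 42)]), (2, [(23, 101)]), (4, [(13, 7691), (17, 2400), (20, 7), (72, 28)]), (3, [(19, 924), (21, 174), (74, 2)]), (1, [(20, 7), (21, 1), (26, 3), (80, 1)]), (5, [(1, 9), (13, 78684), (17, 21462), (20, 177), (72, 103)]), (4,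 [(1, 1), (13, 7899), (17, 2145), (20, 51), (72, 5)]), (4, [(13, 7716), (17, 2409), (20, 4), (72, 33)]), (3, [(13, 774), (17, 227), (20, 1), (72, 2)]), (4, [(1, 1), (13, 7685), (17, 2324), (20, 11), (72, 21)]), (5, [(1, 12), (13, 76559), (17, 23506), (20, 87), (72, 257)]), (4, [(1, 1), (13, 7641), (17, 2362), (20, 6), (72, 31)]), (0, [(30, 1), (63, 1)]), (0, [(54, 1), (55, 1), (73, 1)]), (3, [(30, 3), (42, 1009), (47, 11), (72, 2)]), (2, [(57, 101)]), (3, [(43, 741), (53, 261), (55, 6), (73, 1)]), (4, [(30, 47), (47, 4240), (54, 23), (57, 5900), (72, 8)]), (3, [(42, 1001)]), (4, [(30, 32), (42, 1544), (47, 3465), (57, 5205), (63, 13)]), (4, [(30, 29), (42, 2419), (47, 3682), (57, 4108), (63, 16)]), (5, [(31, 6), (43, 98680), (54, 91), (55, 2434), (73, 108)]), (3, [(30, 3), (57, 1023), (63, 2), (72, 1), (81, 1)]), (2, [(57, 101)]), (3, [(30, 21), (54, 12), (57, 1015), (81, 1)]), (1, [(30, 7), (54,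 4), (61, 1), (81, 1)]), (2, [(57, 101)]), (2, [(47, 101)]), (2, [(57, 101)]), (4, [(30, 28), (42, 587), (47, 3227), (57, 6404), (63, 23)]), (1, [(54, 7), (55, 1), (59, 3), (80, 1)]), (3, [(30, 784), (52, 381), (61, 32), (81, 4)]), (3, [(53, 1), (55, 705), (58, 160), (60, 134), (73, 3)]), (4, [(30, 28), (42, 3955), (47, 4632), (57, 1607), (63, 9)]), (3, [(30, 3), (47, 151), (57, 849), (63, 2), (72, 1)]), (4, [(30, 25), (42, 6088), (47, 4121), (63, 12), (72, 3)]), (3, [(30, 3), (42, 1020), (72, 2)]), (4, [(30, 30), (42, 10199), (54, 1), (72, 24)]), (4, [(30, 28), (42, 10196), (63, 4), (72, 25)]), (4, [(70, 10001)]), (0, [(63, 2)]), (0, [(73, 2)]), (2, [(69, 97), (72, 1), (73, 4)]), (0, [(63, 2)]), (3, [(64, 1001)]), (1, [(73, 11)]), (0, [(72, 2)]), (0, [(63, 2)]), (0, [(73, 2)])],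
  [(3, [(13, 342), (17, 660), (20, 3), (72, 1)]), (4, [(13, 1651), (17, 8347), (20, 53), (72, 13)]), (3, [(13, 252), (17, 754), (20, 4), (72, 1)]), (3, [(13, 206), (17, 794), (20, 4), (72, 2)]), (4, [(13, 1647), (17, 8354), (20, 53), (72, 13)]), (3, [(13, 536), (17, 471), (20, 2), (72, 1)]), (1, [(0, 6), (20, 4), (25, 1), (81, 1)]), (3, [(13, 706), (17, 302), (72, 2)]), (3, [(13, 710), (17, 304), (72, 2)]), (0, [(20, 1), (21, 1), (73, 1)]), (3, [(13, 753), (17, 249), (20, 1), (72, 1)]), (3, [(13, 1001)]), (3, [(0, 53), (7, 916), (20, 2), (23, 64), (81, 1)]), (2, [(13, 101)]), (4, [(13, 8751), (17, 1435), (72, 25), (73, 10), (80, 10)]), (3, [(4, 1001)]), (4, [(13, 7069), (17, 3029), (67, 1), (72, 27)]), (3, [(19, 941), (21, 134), (74, 2)]), (1, [(20, 7), (21, 2), (26, 3), (80, 1)]), (4, [(13, 7288), (17, 2766), (20, 9), (72, 10)]), (4, [(1, 1), (13, 7190), (17, 2861), (20, 36), (72, 5)]), (4, [(13,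 7089), (17, 3040), (67, 6), (72, 27)]), (5, [(1, 7), (13, 71342), (17, 28844), (20, 65), (72, 154)]), (5, [(1, 8), (13, 70713), (17, 29447), (20, 36), (72, 205)]), (5, [(1, 9), (13, 70403), (17, 29729), (20, 10), (72, 257)]), (5, [(1, 9), (13, 70231), (17, 29860), (67, 30), (72, 277)]), (0, [(30, 1), (63, 1)]), (0, [(54, 1), (55, 1), (73, 1)]), (4, [(30, 18), (42, 10091), (54, 9), (72, 16)]), (2, [(47, 101)]), (4, [(43, 4713), (48, 1293), (53, 4052), (55, 27), (73, 7)]), (3, [(30, 2), (42, 135), (47, 874), (54, 1), (72, 1)]), (3, [(42, 1001)]), (4, [(30, 17), (42, 6015), (47, 4150), (63, 4), (72, 10)]), (4, [(30, 18), (42, 10141), (54, 9), (72, 16)]), (4, [(43, 8404), (53, 1515), (55, 201), (73, 11)]), (4, [(30, 9), (47, 4030), (57, 6179), (63, 35), (72, 4)]), (2, [(57, 101)]), (3, [(30, 15), (47, 190), (54, 13), (57, 783), (72, 2)]), (1, [(30, 6), (54, 4), (61, 1), (81, 1)]), (3, [(57, 1001)]),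 (2, [(47, 101)]), (2, [(57, 101)]), (4, [(30, 8), (42, 3577), (47, 5757), (57, 839), (63, 25)]), (1, [(54, 7), (55, 2), (59, 3), (80, 1)]), (3, [(30, 709), (52, 446), (61, 41), (81, 4)]), (3, [(53, 1), (55, 645), (58, 228), (60, 127), (73, 3)]), (4, [(30, 16), (42, 10096), (54, 14), (72, 8)]), (4, [(30, 8), (42, 1969), (47, 5361), (57, 2853), (63, 29)]), (4, [(30, 17), (42, 10093), (54, 11), (72, 13)]), (4, [(30, 17), (42, 10091), (54, 8), (72, 18)]), (4, [(30, 17), (42, 10088), (54, 5), (72, 23)]), (4, [(30, 17), (42, 10085), (54, 2), (72, 28)]), (4, [(70, 10001)]), (0, [(63, 2)]), (0, [(73, 2)]), (2, [(69, 97), (73, 4)]), (0, [(63, 2)]), (3, [(64, 1001)]), (1, [(74, 11)]), (0, [(72, 2)]), (1, [(63, 11)]), (0, [(73, 2)])],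
  [(4, [(1, 1), (17, 9973), (20, 86), (72, 14), (80, 7)]), (3, [(13, 61), (17, 938), (20, 6), (72, 2)]), (4, [(1, 1), (13, 123), (17, 9861), (20, 70), (72, 23)]), (4, [(1, 1), (17, 9977), (20, 86), (72, 14), (80, 7)]), (3, [(13, 386), (17, 615), (20, 4), (72, 2)]), (1, [(0, 7), (20, 4), (25, 1), (81, 1)]), (4, [(1, 1), (13, 5745), (17, 4239), (20, 11), (72, 26)]), (4, [(1, 1), (13, 5784), (17, 4267), (20, 10), (72, 28)]), (0, [(20, 1), (21, 1), (73, 1)]), (5, [(1, 9), (13, 63702), (17, 36383), (20, 221), (72, 129)]), (3, [(13, 632), (17, 365), (20, 9), (72, 1)]), (2, [(23, 101)]), (3, [(13, 107), (17, 899), (20, 2), (72, 1)]), (4, [(13, 5854), (17, 4327), (67, 4), (72, 48)]), (3, [(0, 91), (4, 153), (15, 821), (20, 7), (72, 3)]), (4, [(13, 5802), (17, 4282), (20, 6), (72, 36)]), (3, [(19, 914), (21, 195), (74, 3)]), (1, [(20, 7), (21, 2), (26, 2), (80, 1)]), (4, [(13, 6050), (17, 3955), (20, 16),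 (72, 18)]), (4, [(1, 1), (13, 6008), (17, 3980), (20, 53), (72, 13)]), (3, [(13, 590), (17, 435), (72, 4)]), (4, [(1, 1), (13, 5898), (17, 4106), (20, 13), (72, 23)]), (4, [(1, 1), (13, 5825), (17, 4177), (20, 10), (72, 28)]), (4, [(1, 1), (13, 5808), (17, 4223), (20, 7), (72, 33)]), (5, [(1, 14), (13, 57720), (17, 42243), (20, 51), (72, 385)]), (0, [(30, 1), (63, 1)]), (0, [(54, 1), (55, 1), (73, 1)]), (3, [(30, 2), (42, 121), (47, 877), (57, 25), (63, 3)]), (4, [(30, 36), (47, 1668), (54, 27), (57, 8469), (72, 4)]), (4, [(43, 5440), (53, 4595), (55, 68), (73, 13)]), (4, [(30, 53), (47, 1889), (54, 44), (57, 8237), (72, 14)]), (2, [(57, 101)]), (3, [(30, 4), (47, 301), (57, 719), (72, 2)]), (3, [(30, 4), (47, 432), (57, 589), (63, 1), (72, 2)]), (3, [(43, 934), (53, 48), (55, 33), (73, 2)]), (4, [(30, 46), (54, 3), (57, 10202), (72, 26), (81, 19)]), (3, [(30, 19), (54, 7), (57, 997), (61, 1), (81,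 1)]), (3, [(30, 23), (54, 16), (57, 989), (81, 2)]), (1, [(30, 7), (54, 4), (61, 1), (81, 1)]), (3, [(30, 3), (47, 476), (57, 540), (72, 1)]), (3, [(30, 2), (42, 417), (47, 577), (54, 9), (72, 1)]), (4, [(30, 74), (54, 26), (57, 10089), (61, 4), (81, 3)]), (3, [(30, 4), (47, 162), (57, 881), (72, 3)]), (1, [(54, 7), (55, 2), (59, 2), (80, 1)]), (3, [(30, 809), (52, 350), (61, 36), (81, 5)]), (3, [(53, 1), (55, 729), (58, 215), (60, 54), (73, 3)]), (3, [(30, 3), (47, 704), (57, 296), (63, 1), (72, 1)]), (4, [(30, 47), (54, 3), (57, 10208), (72, 31), (81, 3)]), (4, [(30, 27), (42, 464), (47, 8735), (57, 1024), (63, 23)]), (3, [(30, 3), (42, 458), (47, 565), (63, 1), (72, 2)]), (3, [(30, 3), (42, 1022), (54, 1), (72, 3)]), (4, [(30, 34), (42, 10216), (54, 6), (72, 37)]), (2, [(67, 98), (72, 2)]), (0, [(63, 2)]), (0, [(73, 2)]), (2, [(69, 96), (72, 1), (73, 5)]), (0, [(63, 2)]), (3, [(64, 1001)]), (1,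 [(73, 11)]), (0, [(72, 2)]), (0, [(63, 2)]), (0, [(73, 2)])],
  [(5, [(1, 7), (13, 15197), (17, 84835), (20, 486), (72, 156)]), (4, [(1, 1), (13, 1044), (17, 8897), (20, 52), (72, 21)]), (3, [(13, 61), (17, 938), (20, 6), (72, 2)]), (5, [(1, 5), (13, 45707), (17, 54485), (20, 315), (72, 155)]), (1, [(0, 6), (20, 4), (25, 1), (81, 1)]), (4, [(13, 6410), (17, 3666), (20, 6), (72, 23)]), (3, [(13, 640), (17, 366), (72, 3)]), (0, [(20, 1), (21, 1), (73, 1)]), (4, [(13, 6960), (17, 3094), (20, 16), (72, 10)]), (3, [(13, 680), (17, 319), (20, 7), (72, 1)]), (3, [(23, 1001)]), (4, [(13, 2011), (17, 8060), (20, 18), (72, 5)]), (3, [(13, 719), (17, 318), (67, 1), (72, 3), (80, 1)]), (3, [(23, 1001)]), (4, [(13, 6420), (17, 3673), (72, 33)]), (3, [(19, 992), (21, 168), (74, 3)]), (1, [(20, 7), (21, 2), (26, 3), (80, 1)]), (5, [(1, 7), (13, 66415), (17, 33743), (20, 113), (72, 154)]), (5, [(1, 13), (13, 65548),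 (17, 34471), (20, 415), (72, 104)]), (4, [(13, 6439), (17, 3686), (67, 4), (72, 35)]), (5, [(1, 8), (13, 65005), (17, 35126), (20, 79), (72, 206)]), (5, [(1, 9), (13, 64324), (17, 35780), (20, 50), (72, 257)]), (4, [(1, 1), (13, 6399), (17, 3609), (20, 2), (72, 31)]), (5, [(1, 11), (13, 63826), (17, 36224), (67, 3), (72, 356)]), (0, [(30, 1), (63, 1)]), (0, [(54, 1), (55, 1), (73, 1)]), (3, [(30, 2), (42, 1013), (54, 1), (72, 2)]), (2, [(57, 101)]), (3, [(43, 564), (53, 449), (55, 3), (73, 1)]), (4, [(30, 36), (47, 7839), (54, 24), (57, 2271), (72, 15)]), (2, [(57, 101)]), (3, [(30, 2), (42, 149), (47, 700), (57, 152), (63, 2)]), (4, [(30, 16), (42, 2389), (47, 7335), (57, 457), (63, 23)]), (3, [(43, 855), (53, 133), (55, 25), (73, 2)]), (4, [(30, 26), (47, 1398), (57, 8813), (63, 19), (72, 24)]), (3, [(30, 15), (47, 63), (54, 6), (57, 937), (72, 1)]), (4, [(30, 181), (54, 146), (57, 9934), (72,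 15), (81, 3)]), (1, [(30, 6), (54, 4), (61, 1), (81, 1)]), (3, [(30, 2), (42, 238), (47, 763), (72, 1)]), (3, [(57, 1001)]), (2, [(57, 101)]), (3, [(30, 1), (42, 55), (47, 676), (57, 269), (63, 3)]), (1, [(54, 7), (55, 2), (59, 3), (80, 1)]), (3, [(30, 629), (52, 335), (61, 33), (81, 4)]), (3, [(53, 1), (55, 683), (58, 229), (60, 87), (73, 3)]), (4, [(30, 22), (42, 10133), (54, 16), (72, 13)]), (4, [(30, 19), (47, 5188), (57, 5007), (63, 27), (72, 7)]), (3, [(30, 2), (42, 1013), (54, 1), (72, 2)]), (4, [(30, 24), (42, 10127), (54, 9), (72, 24)]), (4, [(30, 24), (42, 10124), (54, 6), (72, 29)]), (4, [(30, 24), (42, 10121), (54, 4), (72, 34)]), (2, [(67, 99), (72, 2)]), (0, [(63, 2)]), (0, [(73, 2)]), (2, [(69, 97), (73, 4)]), (0, [(63, 2)]), (3, [(64, 1001)]), (1, [(74, 11)]), (0, [(72, 2)]), (0, [(63, 2)]), (0, [(73, 2)])],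
  [(4, [(1, 1), (13, 567), (17, 9425), (20, 58), (72, 26)]), (4, [(1, 1), (13, 117), (17, 9870), (20, 69), (72, 23)]), (5, [(1, 6), (13, 42029), (17, 58111), (20, 338), (72, 207)]), (1, [(0, 6), (20, 4), (25, 1), (81, 1)]), (4, [(13, 6094), (17, 3978), (20, 6), (72, 28)]), (4, [(13, 6128), (17, 3999), (20, 4), (72, 31)]), (0, [(20, 1), (21, 1), (73, 1)]), (5, [(1, 7), (13, 66448), (17, 33687), (20, 165), (72, 155)]), (4, [(1, 1), (13, 6539), (17, 3442), (20, 78), (72, 11)]), (2, [(23, 101)]), (3, [(13, 153), (17, 853), (20, 1), (72, 1)]), (4, [(13, 6154), (17, 4027), (67, 15), (72, 40)]), (3, [(0, 77), (4, 384), (15, 544), (20, 7), (72, 3)]), (3, [(13, 610), (17, 399), (72, 4)]), (3, [(19, 923), (21, 173), (74, 3)]), (1, [(20, 7), (21, 2), (26, 3), (80, 1)]), (5, [(1, 8), (13, 63387), (17, 36725), (20, 114), (72, 206)]), (3, [(13, 627), (17, 373), (20, 4), (72, 2)]), (4, [(13, 6122), (17, 3999),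 (67, 4), (72, 40)]), (5, [(1, 9), (13, 61920), (17, 38167), (20, 79), (72, 257)]), (4, [(1, 1), (13, 6121), (17, 3885), (20, 5), (72, 31)]), (3, [(13, 609), (17, 392), (72, 4)]), (4, [(1, 1), (13, 6070), (17, 3931), (72, 41)]), (0, [(30, 1), (63, 1)]), (0, [(54, 1), (55, 1), (73, 1)]), (4, [(30, 28), (42, 10165), (54, 9), (72, 26)]), (4, [(30, 28), (47, 5200), (54, 15), (57, 4924), (72, 8)]), (4, [(43, 5455), (53, 4593), (55, 48), (73, 16)]), (3, [(30, 4), (47, 542), (54, 3), (57, 470), (72, 2)]), (2, [(57, 101)]), (4, [(30, 26), (47, 6567), (57, 3632), (63, 20), (72, 5)]), (3, [(30, 2), (42, 16), (47, 766), (57, 237), (63, 3)]), (4, [(43, 8789), (53, 1068), (55, 282), (73, 21)]), (4, [(30, 36), (57, 10212), (63, 11), (72, 32), (81, 4)]), (3, [(30, 17), (54, 7), (57, 1018), (81, 1)]), (3, [(30, 20), (54, 15), (57, 1014), (72, 1), (81, 1)]), (1, [(30, 6), (54, 4), (61, 1), (81, 1)]), (4, [(30, 26),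 (47, 8301), (57, 1860), (63, 8), (72, 6)]), (3, [(30, 1), (42, 993), (54, 10), (72, 1)]), (3, [(30, 6), (47, 40), (54, 2), (57, 955), (72, 1)]), (4, [(30, 25), (47, 5144), (57, 5053), (63, 23), (72, 11)]), (1, [(54, 7), (55, 2), (59, 3), (80, 1)]), (3, [(30, 779), (52, 378), (61, 38), (81, 5)]), (3, [(53, 1), (55, 704), (58, 225), (60, 69), (73, 4)]), (3, [(30, 2), (42, 221), (47, 797), (63, 2)]), (3, [(30, 3), (47, 274), (57, 746), (63, 2), (72, 2)]), (4, [(30, 27), (42, 10167), (54, 11), (72, 24)]), (4, [(30, 28), (42, 10164), (54, 8), (72, 29)]), (4, [(30, 28), (42, 10161), (54, 6), (72, 34)]), (3, [(30, 3), (42, 998), (72, 4)]), (2, [(67, 99), (72, 2)]), (0, [(63, 2)]), (0, [(73, 2)]), (2, [(69, 97), (72, 1), (73, 5)]), (0, [(63, 2)]), (3, [(64, 1001)]), (1, [(73, 11)]), (0, [(72, 2)]), (0, [(63, 2)]), (0, [(73, 2)])],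
  [(4, [(1, 1), (17, 9895), (20, 85), (72, 14), (80, 8)]), (3, [(13, 386), (17, 615), (20, 4), (72, 2)]), (1, [(0, 7), (20, 4), (25, 1), (81, 1)]), (4, [(13, 5843), (17, 4315), (20, 11), (72, 26)]), (4, [(13, 5783), (17, 4269), (20, 9), (72, 28)]), (0, [(20, 1), (21, 1), (73, 1)]), (5, [(1, 7), (13, 63701), (17, 36416), (20, 219), (72, 129)]), (3, [(13, 632), (17, 366), (20, 9), (72, 1)]), (2, [(23, 101)]), (3, [(13, 107), (17, 900), (20, 2), (72, 1)]), (4, [(13, 5854), (17, 4330), (67, 5), (72, 48)]), (3, [(0, 91), (4, 446), (15, 521), (20, 8), (72, 2)]), (4, [(13, 5802), (17, 4285), (20, 5), (72, 36)]), (3, [(19, 914), (21, 194), (74, 3)]), (1, [(20, 7), (21, 2), (26, 2), (80, 1)]), (4, [(13, 6050), (17, 3959), (20, 16), (72, 18)]), (4, [(1, 1), (13, 6006), (17, 3985), (20, 53), (72, 13)]), (3, [(13, 590), (17, 436), (72, 4)]), (4, [(13, 5897), (17, 4109), (20, 12), (72, 23)]), (4, [(1, 1), (13,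 5825), (17, 4180), (20, 10), (72, 28)]), (4, [(1, 1), (13, 5809), (17, 4228), (20, 7), (72, 33)]), (3, [(13, 577), (17, 423), (72, 4)]), (0, [(30, 1), (63, 1)]), (0, [(54, 1), (55, 1), (73, 1)]), (4, [(30, 34), (42, 10148), (54, 13), (72, 24)]), (4, [(30, 33), (47, 5844), (54, 17), (57, 4272), (72, 6)]), (4, [(43, 5422), (53, 4616), (55, 67), (73, 13)]), (3, [(30, 5), (47, 606), (54, 3), (57, 405), (72, 2)]), (2, [(57, 101)]), (3, [(30, 3), (47, 707), (57, 292), (63, 2), (72, 1)]), (4, [(30, 28), (47, 8510), (57, 1678), (63, 25)]), (3, [(43, 929), (53, 54), (55, 33), (73, 2)]), (3, [(30, 4), (57, 1021), (63, 1), (72, 4)]), (3, [(30, 19), (54, 7), (57, 974), (72, 1), (81, 1)]), (3, [(30, 23), (54, 16), (57, 990), (72, 1), (81, 1)]), (1, [(30, 7), (54, 4), (61, 1), (81, 1)]), (4, [(30, 34), (47, 8942), (57, 1210), (63, 4), (72, 8)]), (3, [(30, 2), (42, 1012), (54, 11), (72, 1)]), (4, [(30, 75), (47,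 1053), (54, 24), (57, 9034), (72, 4)]), (3, [(30, 3), (47, 591), (57, 448), (63, 2), (72, 1)]), (1, [(54, 7), (55, 2), (59, 2), (80, 1)]), (3, [(30, 811), (52, 348), (61, 37), (81, 5)]), (3, [(53, 1), (55, 728), (58, 216), (60, 54), (73, 3)]), (3, [(30, 3), (42, 495), (47, 521), (72, 2)]), (4, [(30, 38), (47, 3391), (57, 6801), (63, 13), (72, 23)]), (3, [(30, 3), (42, 1015), (54, 1), (72, 2)]), (3, [(30, 3), (42, 1015), (54, 1), (72, 3)]), (3, [(30, 3), (42, 1014), (54, 1), (72, 3)]), (4, [(30, 34), (42, 10141), (54, 7), (72, 37)]), (2, [(67, 98), (72, 2)]), (0, [(63, 2)]), (0, [(73, 2)]), (2, [(69, 96), (72, 1), (73, 5)]), (0, [(63, 2)]), (3, [(64, 1001)]), (1, [(73, 11)]), (0, [(72, 2)]), (0, [(63, 2)]), (0, [(73, 2)])],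
  [(4, [(13, 6938), (17, 3098), (20, 19), (72, 16)]), (1, [(0, 6), (20, 4), (25, 1), (81, 1)]), (4, [(13, 8385), (17, 1708), (67, 1), (72, 23)]), (4, [(13, 8369), (17, 1705), (67, 3), (72, 23)]), (0, [(20, 1), (21, 1), (73, 1)]), (3, [(13, 880), (17, 127), (72, 1)]), (4, [(13, 8679), (17, 1387), (20, 50), (72, 5)]), (3, [(0, 48), (4, 75), (15, 906), (20, 1), (72, 2)]), (4, [(13, 4987), (17, 5094), (20, 10), (72, 5)]), (4, [(11, 10140), (65, 6), (69, 4), (72, 26), (73, 19)]), (3, [(0, 53), (4, 956), (15, 20), (20, 6), (72, 1)]), (4, [(13, 8392), (17, 1712), (67, 11), (72, 23)]), (3, [(19, 999), (21, 121), (74, 2)]), (1, [(20, 6), (21, 2), (26, 3), (80, 1)]), (3, [(13, 854), (17, 149), (72, 2)]), (3, [(13, 850), (17, 156), (20, 2), (72, 1)]), (4, [(13, 9748), (17, 385), (72, 19), (73, 5), (80, 15)]), (5, [(1, 6), (13, 84321), (17, 15968), (20, 13), (72, 206)]), (5, [(1, 6), (13, 83773), (17, 16475),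 (67, 29), (72, 228)]), (5, [(1, 6), (13, 83480), (17, 16714), (67, 80), (72, 228)]), (5, [(1, 6), (13, 83316), (17, 16826), (67, 131), (72, 228)]), (0, [(30, 1), (63, 1)]), (0, [(54, 1), (55, 1), (73, 1)]), (4, [(30, 12), (42, 10065), (63, 4), (72, 17)]), (4, [(30, 8), (42, 10077), (54, 17), (72, 3)]), (4, [(43, 2931), (48, 4409), (53, 2698), (55, 31), (73, 15)]), (4, [(30, 17), (42, 10070), (54, 28), (72, 13)]), (3, [(30, 5), (41, 193), (42, 439), (57, 371)]), (4, [(30, 13), (42, 10133), (63, 2), (72, 16)]), (4, [(30, 11), (42, 10115), (63, 5), (72, 16)]), (3, [(43, 935), (53, 49), (55, 16), (73, 2)]), (4, [(42, 4535), (47, 1020), (57, 4641), (63, 38), (72, 5)]), (3, [(30, 11), (47, 579), (54, 2), (57, 423), (72, 1)]), (3, [(30, 13), (47, 450), (54, 9), (57, 547), (72, 2)]), (1, [(30, 6), (54, 4), (61, 1), (81, 1)]), (4, [(30, 11), (42, 10074), (54, 8), (72, 8)]), (4, [(30, 3), (42, 10046), (54,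 73), (72, 3)]), (3, [(57, 1001)]), (4, [(30, 7), (42, 10150), (63, 13), (72, 16)]), (1, [(54, 6), (55, 2), (59, 3), (80, 1)]), (3, [(30, 671), (52, 487), (61, 37), (81, 4)]), (3, [(55, 608), (58, 181), (60, 209), (73, 3)]), (4, [(30, 13), (42, 9991), (54, 3), (72, 13)]), (4, [(42, 6672), (47, 2136), (57, 1363), (63, 31), (72, 3)]), (4, [(30, 13), (42, 10067), (63, 1), (72, 17)]), (4, [(30, 10), (42, 10065), (63, 6), (72, 17)]), (4, [(30, 7), (42, 10140), (63, 11), (72, 17)]), (4, [(30, 4), (42, 10059), (63, 16), (72, 17)]), (0, [(67, 1)]), (0, [(63, 2)]), (0, [(73, 2)]), (3, [(69, 1001)]), (0, [(63, 2)]), (3, [(64, 1001)]), (0, [(74, 1)]), (0, [(72, 2)]), (1, [(63, 11)]), (0, [(73, 2)])],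
  [(0, [(25, 1)]), (1, [(0, 5), (20, 5), (25, 1), (81, 1)]), (1, [(0, 5), (20, 5), (25, 1), (81, 1)]), (0, [(20, 2)]), (1, [(0, 5), (20, 5), (25, 1), (81, 1)]), (1, [(0, 8), (20, 3), (25, 1), (81, 1)]), (1, [(0, 10), (25, 1), (81, 1)]), (1, [(0, 4), (20, 6), (25, 1), (81, 1)]), (1, [(0, 5), (20, 5), (25, 1), (81, 1)]), (1, [(0, 10), (25, 1), (81, 1)]), (1, [(0, 5), (20, 5), (25, 1), (81, 1)]), (0, [(20, 3)]), (0, [(20, 3)]), (1, [(0, 5), (20, 5), (25, 1), (81, 1)]), (1, [(0, 7), (20, 3), (25, 1), (81, 1)]), (1, [(0, 5), (20, 5), (25, 1), (81, 1)]), (1, [(0, 5), (20, 5), (25, 1), (81, 1)]), (1, [(0, 5), (20, 5), (25, 1), (81, 1)]), (1, [(0, 5), (20, 5), (25, 1), (81, 1)]), (1, [(0, 5), (20, 5), (25, 1), (81, 1)]), (0, [(30, 1), (63, 1)]), (0, [(54, 2)]), (1, [(30, 10), (61, 1), (81, 1)]), (1, [(30, 10), (61, 1), (81, 1)]), (0, [(54, 3)]), (1, [(30, 10), (61, 1), (81, 1)]), (1, [(30, 10), (61, 1),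 (81, 1)]), (1, [(30, 10), (61, 1), (81, 1)]), (1, [(30, 10), (61, 1), (81, 1)]), (0, [(54, 4)]), (1, [(30, 10), (61, 1), (81, 1)]), (1, [(30, 10), (61, 1), (81, 1)]), (1, [(30, 10), (61, 1), (81, 1)]), (0, [(61, 1)]), (1, [(30, 10), (61, 1), (81, 1)]), (1, [(30, 10), (61, 1), (81, 1)]), (1, [(30, 10), (61, 1), (81, 1)]), (1, [(30, 10), (61, 1), (81, 1)]), (0, [(54, 3)]), (0, [(61, 2)]), (0, [(54, 4)]), (1, [(30, 10), (61, 1), (81, 1)]), (1, [(30, 10), (61, 1), (81, 1)]), (1, [(30, 10), (61, 1), (81, 1)]), (1, [(30, 10), (61, 1), (81, 1)]), (1, [(30, 10), (61, 1), (81, 1)]), (1, [(30, 10), (61, 1), (81, 1)]), (0, [(63, 2)]), (0, [(63, 2)]), (0, [(72, 2)]), (0, [(72, 2)]), (0, [(63, 2)]), (0, [(63, 2)]), (0, [(72, 2)]), (0, [(63, 2)]), (0, [(63, 2)]), (0, [(72, 2)])],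
  [(5, [(13, 101355), (66, 167), (72, 36), (73, 3), (80, 106)]), (4, [(13, 9892), (17, 224), (67, 23), (72, 5), (80, 6)]), (1, [(20, 2), (21, 9), (73, 1)]), (4, [(13, 9910), (17, 176), (67, 9), (72, 9)]), (4, [(13, 9780), (17, 385), (20, 19), (72, 13)]), (3, [(0, 23), (7, 782), (15, 220), (72, 3)]), (4, [(13, 6837), (17, 3296), (67, 6), (72, 7)]), (3, [(11, 994), (65, 3), (69, 2), (72, 1), (73, 1)]), (4, [(0, 279), (4, 8566), (15, 1400), (20, 45), (72, 15)]), (4, [(11, 10102), (65, 25), (69, 3), (72, 9), (73, 9)]), (3, [(19, 980), (21, 63), (74, 3)]), (1, [(20, 5), (21, 2), (26, 5), (80, 1)]), (4, [(13, 9725), (17, 354), (67, 16), (72, 7)]), (4, [(1, 1), (13, 9611), (17, 470), (20, 5), (72, 18)]), (5, [(11, 100934), (65, 246), (69, 85), (72, 95), (73, 92)]), (4, [(13, 9710), (17, 443), (67, 22), (72, 6)]), (4, [(13, 9586), (17, 481), (67, 27), (72, 6)]), (4, [(13, 9561), (17, 501), (67, 32), (72,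 6)]), (4, [(13, 9546), (17, 510), (67, 38), (72, 6)]), (0, [(30, 1), (63, 1)]), (1, [(54, 2), (55, 9), (73, 1)]), (4, [(41, 3387), (42, 6753), (63, 2), (70, 18), (72, 12)]), (4, [(41, 4150), (42, 2781), (47, 2478), (57, 743), (72, 16)]), (4, [(43, 985), (48, 7068), (53, 2034), (73, 25)]), (4, [(42, 5723), (47, 4417), (57, 35), (63, 5), (72, 17)]), (4, [(30, 22), (41, 2582), (44, 2572), (57, 4963), (63, 13)]), (4, [(41, 8329), (42, 1567), (57, 302), (63, 7), (72, 29)]), (4, [(41, 8518), (42, 1662), (63, 7), (70, 2), (72, 31)]), (4, [(43, 8976), (53, 1075), (55, 53), (73, 23)]), (4, [(56, 926), (57, 742), (62, 8506), (63, 22), (72, 43)]), (4, [(30, 54), (47, 4249), (54, 9), (57, 5879), (72, 15)]), (3, [(30, 6), (47, 295), (54, 6), (57, 713), (72, 3)]), (1, [(30, 5), (54, 5), (61, 1), (81, 1)]), (4, [(33, 1116), (41, 2158), (42, 6883), (65, 4), (72, 16)]), (3, [(31, 1013), (54, 4), (72, 2)]), (3, [(30,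 1), (42, 459), (47, 78), (57, 479), (63, 1)]), (4, [(41, 4726), (49, 4806), (57, 646), (63, 14), (72, 39)]), (1, [(54, 5), (55, 2), (59, 5), (80, 1)]), (3, [(30, 491), (52, 664), (61, 41), (81, 5)]), (3, [(55, 545), (58, 203), (60, 449), (73, 4)]), (4, [(41, 3329), (42, 6821), (63, 1), (70, 10), (72, 14)]), (3, [(49, 674), (56, 213), (57, 130), (63, 2), (72, 4)]), (3, [(41, 341), (42, 673), (70, 2), (72, 1)]), (4, [(41, 3411), (42, 6727), (63, 2), (70, 21), (72, 12)]), (3, [(41, 338), (42, 675), (70, 3), (72, 1)]), (4, [(41, 3356), (42, 6771), (63, 2), (70, 31), (72, 12)]), (0, [(67, 1)]), (0, [(63, 2)]), (0, [(73, 2)]), (2, [(69, 101)]), (1, [(63, 11)]), (2, [(64, 101)]), (1, [(74, 11)]), (1, [(72, 11)]), (2, [(68, 101)]), (0, [(73, 2)])],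
  [(4, [(13, 9575), (17, 522), (67, 30), (72, 6)]), (1, [(20, 2), (21, 9), (73, 1)]), (4, [(13, 9891), (17, 175), (67, 12), (72, 9)]), (4, [(13, 9750), (17, 383), (20, 18), (72, 15)]), (3, [(0, 22), (7, 921), (20, 1), (23, 80), (81, 3)]), (4, [(13, 6823), (17, 3289), (67, 9), (72, 7)]), (4, [(11, 9962), (65, 27), (69, 18), (72, 10), (73, 9)]), (3, [(0, 28), (4, 761), (15, 236), (20, 4), (72, 2)]), (4, [(11, 10085), (65, 28), (69, 3), (72, 9), (73, 9)]), (3, [(19, 1011), (21, 65), (74, 3)]), (1, [(20, 5), (21, 2), (26, 5), (80, 1)]), (4, [(13, 9706), (17, 353), (67, 19), (72, 7)]), (3, [(13, 966), (17, 47), (72, 2)]), (4, [(11, 10180), (65, 27), (69, 8), (72, 9), (73, 9)]), (5, [(1, 3), (13, 96145), (17, 4386), (67, 244), (72, 65)]), (4, [(13, 9568), (17, 480), (67, 30), (72, 6)]), (4, [(13, 9543), (17, 500), (67, 35), (72, 6)]), (4, [(13, 9528), (17, 509), (67, 40), (72, 6)]), (0, [(30, 1), (63,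 1)]), (1, [(54, 2), (55, 9), (73, 1)]), (4, [(41, 5435), (42, 4705), (63, 4), (70, 15), (72, 19)]), (4, [(41, 2292), (42, 4823), (47, 1044), (57, 1990), (72, 16)]), (4, [(43, 729), (48, 7310), (53, 2028), (73, 28)]), (4, [(42, 4892), (47, 4145), (57, 1131), (63, 7), (72, 17)]), (3, [(30, 2), (44, 131), (49, 329), (57, 550), (63, 2)]), (3, [(41, 872), (42, 10), (57, 137), (63, 1), (72, 3)]), (4, [(41, 9516), (49, 369), (57, 291), (63, 9), (72, 35)]), (3, [(43, 896), (53, 107), (55, 5), (73, 3)]), (4, [(51, 2530), (57, 833), (62, 6796), (63, 22), (72, 42)]), (3, [(30, 5), (47, 291), (54, 1), (57, 705), (72, 2)]), (3, [(30, 6), (47, 167), (54, 6), (57, 841), (72, 3)]), (1, [(30, 5), (54, 5), (61, 1), (81, 1)]), (4, [(41, 5005), (42, 5152), (63, 1), (70, 1), (72, 23)]), (4, [(31, 10287), (54, 42), (72, 23)]), (4, [(30, 10), (42, 3747), (47, 526), (57, 5881), (63, 12)]), (4, [(41, 1263), (49, 7745),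 (57, 1156), (63, 18), (72, 40)]), (1, [(54, 5), (55, 2), (59, 5), (80, 1)]), (2, [(30, 49), (52, 66), (61, 4), (81, 1)]), (3, [(55, 545), (58, 202), (60, 448), (73, 4)]), (3, [(41, 537), (42, 478), (70, 1), (72, 2)]), (3, [(49, 240), (56, 657), (57, 119), (63, 2), (72, 4)]), (4, [(41, 5460), (42, 4683), (63, 4), (70, 12), (72, 20)]), (3, [(41, 546), (42, 468), (70, 2), (72, 2)]), (4, [(41, 5442), (42, 4690), (63, 4), (70, 22), (72, 20)]), (3, [(41, 542), (42, 471), (70, 3), (72, 2)]), (2, [(67, 101)]), (0, [(63, 2)]), (0, [(73, 2)]), (2, [(69, 101)]), (1, [(63, 11)]), (2, [(64, 101)]), (1, [(74, 11)]), (1, [(72, 11)]), (2, [(68, 101)]), (0, [(73, 2)])],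
  [(0, [(21, 2)]), (1, [(20, 3), (21, 8), (73, 1)]), (0, [(20, 1), (21, 1), (73, 1)]), (0, [(0, 1), (20, 1), (72, 1)]), (1, [(21, 24)]), (1, [(20, 2), (21, 9), (73, 1)]), (0, [(20, 4)]), (1, [(20, 2), (21, 9), (73, 1)]), (0, [(21, 2)]), (0, [(21, 2)]), (1, [(20, 2), (21, 9), (73, 1)]), (0, [(20, 1), (21, 1), (73, 1)]), (1, [(20, 2), (21, 9), (73, 1)]), (1, [(20, 2), (21, 9), (73, 1)]), (1, [(20, 2), (21, 9), (73, 1)]), (1, [(20, 2), (21, 9), (73, 1)]), (1, [(20, 2), (21, 9), (73, 1)]), (0, [(30, 1), (63, 1)]), (0, [(55, 2)]), (1, [(30, 2), (54, 9), (72, 1)]), (0, [(54, 4)]), (0, [(55, 2)]), (0, [(30, 1), (54, 1), (72, 1)]), (0, [(30, 1), (54, 1), (72, 1)]), (1, [(30, 2), (54, 9), (72, 1)]), (1, [(30, 2), (54, 9), (72, 1)]), (0, [(55, 2)]), (1, [(30, 2), (54, 9), (72, 1)]), (0, [(54, 5)]), (0, [(54, 7)]), (0, [(54, 2)]), (1, [(30, 2), (54, 9), (72, 1)]), (0, [(54, 4)]), (0, [(30, 1), (54, 1), (72,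 1)]), (1, [(30, 2), (54, 9), (72, 1)]), (0, [(55, 2)]), (0, [(54, 3)]), (0, [(55, 2)]), (1, [(30, 2), (54, 9), (72, 1)]), (1, [(30, 2), (54, 9), (72, 1)]), (1, [(30, 2), (54, 9), (72, 1)]), (1, [(30, 2), (54, 9), (72, 1)]), (1, [(30, 2), (54, 9), (72, 1)]), (1, [(30, 2), (54, 9), (72, 1)]), (0, [(72, 1)]), (0, [(63, 1)]), (0, [(73, 1)]), (0, [(73, 1)]), (0, [(72, 1)]), (0, [(63, 1)]), (0, [(73, 1)]), (0, [(72, 1)]), (0, [(63, 1)]), (0, [(73, 1)])],
  [(4, [(13, 9530), (14, 503), (72, 6)]), (3, [(13, 1001)]), (4, [(23, 10011)]), (2, [(13, 101)]), (4, [(11, 10190), (65, 19), (69, 11), (72, 12), (73, 6)]), (3, [(4, 1001)]), (4, [(13, 9920), (17, 176), (67, 19), (72, 9)]), (3, [(19, 971), (21, 70), (74, 2)]), (1, [(20, 5), (21, 1), (26, 5), (80, 1)]), (3, [(13, 1004), (17, 2), (72, 1)]), (3, [(13, 992), (17, 11), (20, 1), (72, 1)]), (4, [(11, 10094), (65, 19), (69, 1), (72, 12), (73, 6)]), (5, [(1,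 6), (13, 99249), (17, 984), (67, 59), (72, 95)]), (5, [(1, 6), (13, 98806), (17, 1371), (67, 113), (72, 93)]), (5, [(1, 6), (13, 98567), (17, 1557), (67, 164), (72, 92)]), (5, [(1, 6), (13, 98426), (17, 1646), (67, 216), (72, 92)]), (0, [(30, 1), (63, 1)]), (1, [(54, 3), (55, 8), (73, 1)]), (4, [(41, 1206), (42, 8901), (63, 5), (65, 12)]), (3, [(57, 1001)]), (4, [(43, 5107), (48, 3448), (53, 1483), (73, 9)]), (3, [(42, 370), (47, 623), (57, 19), (63, 1)]), (4, [(30, 34), (44, 1823), (49, 3312), (57, 4919), (63, 3)]), (3, [(41, 385), (42, 553), (57, 64), (63, 1), (72, 1)]), (4, [(41, 4641), (42, 5509), (63, 8), (70, 1), (72, 12)]), (5, [(39, 3), (43, 96969), (53, 2769), (55, 785), (73, 104)]), (4, [(56, 4253), (57, 3616), (62, 2291), (63, 27), (72, 22)]), (2, [(57, 101)]), (4, [(30, 74), (47, 2312), (54, 63), (57, 7721), (72, 12)]), (1, [(30, 5), (54, 5), (61, 1), (81, 1)]), (4, [(42, 10125), (63,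 1), (65, 1), (72, 1)]), (2, [(47, 101)]), (2, [(42, 101)]), (4, [(41, 6592), (42, 1664), (57, 1900), (63, 14), (72, 17)]), (1, [(54, 5), (55, 1), (59, 5), (80, 1)]), (3, [(30, 438), (52, 529), (61, 31), (81, 3)]), (3, [(55, 580), (58, 161), (60, 457), (73, 2)]), (3, [(41, 78), (42, 934), (65, 1)]), (3, [(41, 455), (49, 203), (57, 343), (63, 2), (72, 2)]), (4, [(41, 1114), (42, 8996), (63, 5), (65, 10)]), (4, [(41, 1203), (42, 8902), (63, 5), (65, 15)]), (4, [(41, 1202), (42, 8897), (63, 5), (65, 20)]), (4, [(41, 1173), (42, 8921), (63, 5), (65, 25)]), (3, [(70, 1001)]), (0, [(63, 2)]), (0, [(73, 2)]), (3, [(69, 1001)]), (0, [(63, 2)]), (2, [(64, 101)]), (1, [(74, 11)]), (1, [(72, 11)]), (2, [(68, 101)]), (0, [(73, 2)])],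
  [(3, [(13, 1001)]), (2, [(23, 101)]), (2, [(13, 101)]), (4, [(13, 9803), (17, 389), (20, 6), (72, 39)]), (2, [(23, 101)]), (4, [(13, 9710), (17, 383), (20, 14), (72, 23)]), (3, [(19, 919), (21, 191), (74, 1)]), (1, [(20, 45)]), (3, [(13, 982), (17, 20), (20, 2), (72, 1)]), (3, [(13, 1001)]), (3, [(13, 974), (17, 39), (20, 1), (72, 3)]), (5, [(1, 10), (13, 97192), (17, 2937), (20, 213), (72, 103)]), (5, [(1, 11), (13, 96732), (17, 3370), (20, 184), (72, 155)]), (5, [(1, 12), (13, 96507), (17, 3568), (20, 158), (72, 206)]), (3, [(13, 964), (17, 37), (20, 1), (72, 3)]), (0, [(30, 1), (63, 1)]), (0, [(54, 1), (55, 1), (73, 1)]), (3, [(30, 3), (42, 1021), (57, 1), (63, 1)]), (2, [(57, 101)]), (3, [(43, 1001)]), (2, [(57, 101)]), (0, [(62, 1)]), (3, [(30, 4), (41, 179), (42, 249), (57, 593), (63, 1)]), (3, [(30, 4), (41, 146), (42, 388), (57, 486), (63, 1)]), (4, [(43, 10000), (54, 38), (55, 121), (73,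 5)]), (3, [(30, 3), (51, 194), (57, 849), (63, 3)]), (2, [(57, 101)]), (3, [(30, 24), (54, 8), (57, 996), (81, 1)]), (1, [(30, 8), (54, 3), (61, 1), (81, 1)]), (2, [(42, 101)]), (2, [(47, 101)]), (2, [(57, 101)]), (4, [(30, 38), (41, 2138), (42, 976), (57, 7099), (63, 19)]), (1, [(54, 45)]), (3, [(30, 817), (52, 358), (61, 22), (81, 3)]), (3, [(53, 1), (55, 727), (58, 71), (60, 202), (73, 2)]), (4, [(30, 38), (41, 242), (42, 7462), (57, 2489), (63, 2)]), (4, [(30, 37), (49, 309), (56, 1615), (57, 8290), (63, 25)]), (3, [(30, 3), (41, 12), (42, 931), (57, 78), (63, 1)]), (4, [(30, 30), (42, 10216), (63, 13)]), (4, [(30, 28), (42, 10214), (63, 18)]), (4, [(30, 25), (42, 10211), (63, 23)]), (3, [(70, 1001)]), (0, [(63, 2)]), (0, [(73, 2)]), (3, [(69, 1001)]), (0, [(63, 2)]), (3, [(64, 1001)]), (1, [(74, 11)]), (0, [(72, 2)]), (0, [(63, 2)]), (0, [(73, 2)])],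
  [(3, [(0, 943), (24, 255), (63, 2)]), (4, [(0, 308), (4, 3912), (15, 5923), (20, 30), (72, 2)]), (3, [(0, 25), (4, 496), (15, 481), (63, 1), (72, 4)]), (3, [(0, 804), (24, 195), (63, 3), (68, 1), (81, 1)]), (4, [(0, 252), (4, 621), (15, 9369), (63, 2), (72, 36)]), (2, [(18, 101)]), (0, [(25, 2)]), (3, [(23, 1001)]), (2, [(23, 101)]), (4, [(0, 253), (4, 2336), (15, 7646), (63, 2), (72, 37)]), (2, [(23, 101)]), (4, [(0, 231), (7, 3940), (20, 16), (23, 6087), (81, 14)]), (4, [(0, 232), (7, 2252), (20, 16), (23, 7792), (81, 16)]), (4, [(0, 234), (7, 583), (20, 16), (23, 9478), (81, 18)]), (0, [(30, 1), (63, 1)]), (0, [(30, 1), (54, 1), (72, 1)]), (3, [(30, 263), (52, 982), (68, 4)]), (3, [(30, 213), (52, 908), (68, 2), (81, 1)]), (2, [(47, 101)]), (3, [(30, 292), (52, 878), (63, 1), (68, 2), (81, 1)]), (3, [(30, 425), (52, 773), (63, 1), (68, 1)]), (4, [(30, 2412), (52, 9021), (63, 13), (68, 22),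 (81, 8)]), (4, [(30, 2407), (52, 9001), (63, 13), (68, 26), (81, 8)]), (2, [(57, 101)]), (2, [(30, 24), (52, 91), (63, 1)]), (3, [(30, 500), (52, 498), (63, 3), (68, 1), (81, 1)]), (3, [(30, 556), (52, 441), (63, 3), (81, 2)]), (1, [(30, 10), (61, 1), (81, 1)]), (4, [(30, 2268), (52, 9013), (68, 22), (81, 8)]), (3, [(30, 246), (52, 894), (68, 1), (81, 2)]), (4, [(30, 3507), (52, 8631), (63, 13), (68, 6), (81, 8)]), (3, [(30, 265), (52, 998), (63, 3), (68, 2)]), (0, [(61, 2)]), (3, [(30, 998), (52, 1), (63, 3), (81, 1)]), (0, [(54, 5)]), (4, [(30, 2336), (52, 8980), (68, 29), (81, 8)]), (4, [(30, 2411), (52, 9076), (63, 41), (68, 13), (81, 8)]), (4, [(30, 2369), (52, 8962), (68, 35), (81, 8)]), (4, [(30, 2385), (52, 8950), (68, 41), (81, 8)]), (3, [(30, 262), (52, 981), (68, 5)]), (2, [(30, 24), (52, 89), (68, 1)]), (1, [(68, 11)]), (0, [(63, 2)]), (0, [(63, 2)]), (3, [(64, 1001)]), (0, [(63, 2)]),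 (0, [(63, 2)]), (1, [(63, 11)]), (0, [(63, 2)]), (0, [(63, 2)]), (0, [(72, 2)])],
  [(3, [(13, 1001)]), (4, [(11, 9178), (17, 961), (69, 10), (72, 10), (73, 24)]), (2, [(0, 3), (4, 71), (15, 27)]), (4, [(13, 8545), (17, 1594), (72, 5), (73, 12), (80, 6)]), (3, [(19, 1008), (21, 79), (74, 1)]), (1, [(20, 5), (21, 3), (26, 4), (80, 1)]), (4, [(13, 7047), (17, 3026), (20, 1), (72, 5)]), (2, [(13, 101)]), (4, [(11, 8901), (13, 290), (17, 959), (72, 10), (73, 24)]), (5, [(1, 3), (13, 69161), (17, 31531), (67, 28), (72, 75)]), (4, [(13, 6893), (17, 3234), (67, 8), (72, 7)]), (4, [(13, 6858), (17, 3264), (67, 14), (72, 7)]), (4, [(13, 6796), (17, 3257), (67, 19), (72, 7)]), (0, [(30, 1), (63, 1)]), (1, [(55, 24)]), (3, [(42, 1005), (54, 1), (72, 1)]), (3, [(47, 1001)]), (4, [(48, 5661), (53, 4422), (73, 1), (74, 5)]), (4, [(31, 29), (42, 9992), (54, 50), (72, 3)]), (2, [(42, 101)]), (3, [(42, 1008), (54,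 1), (72, 1)]), (3, [(42, 1007), (54, 1), (72, 1)]), (3, [(43, 560), (53, 436), (55, 6), (73, 1)]), (4, [(42, 8223), (47, 913), (57, 1053), (63, 4), (72, 30)]), (2, [(47, 101)]), (3, [(30, 6), (47, 888), (54, 12), (57, 111), (72, 1)]), (1, [(30, 4), (54, 6), (61, 1), (81, 1)]), (3, [(42, 1001)]), (3, [(47, 1001)]), (2, [(42, 101)]), (4, [(42, 10101), (54, 9), (72, 18)]), (1, [(54, 5), (55, 3), (59, 4), (80, 1)]), (3, [(30, 537), (52, 601), (61, 59), (81, 3)]), (3, [(55, 601), (58, 413), (60, 183), (73, 2)]), (4, [(31, 592), (42, 9463), (54, 19), (72, 3)]), (4, [(30, 1), (42, 10135), (54, 6), (72, 23)]), (5, [(42, 100194), (48, 6), (54, 152), (72, 78)]), (5, [(30, 2), (42, 100166), (48, 6), (54, 124), (72, 129)]), (4, [(42, 10013), (54, 9), (72, 18)]), (4, [(42, 10011), (54, 7), (72, 23)]), (0, [(67, 1)]), (0, [(63, 2)]), (0, [(73, 2)]), (3, [(69, 1001)]), (0, [(72, 2)]), (2, [(63, 3), (64, 96), (72,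 2)]), (1, [(74, 11)]), (1, [(72, 11)]), (1, [(63, 4), (68, 5), (81, 4)]), (0, [(73, 2)])],
  [(3, [(11, 1003), (65, 3), (69, 4), (72, 1), (73, 1)]), (3, [(0, 28), (4, 971), (20, 3), (72, 4)]), (3, [(11, 996), (65, 3), (69, 3), (72, 1), (73, 1)]), (2, [(19, 95), (21, 6), (73, 1), (74, 1)]), (1, [(20, 5), (21, 2), (26, 5), (80, 1)]), (4, [(11, 9973), (65, 25), (69, 11), (72, 10), (73, 8)]), (3, [(13, 953), (17, 47), (67, 2), (72, 3)]), (3, [(11, 1004), (65, 3), (69, 3), (72, 1), (73, 1)]), (4, [(11, 10075), (65, 30), (69, 11), (72, 10), (73, 9)]), (4, [(11, 9963), (65, 35), (69, 10), (72, 10), (73, 9)]), (4, [(11, 9958), (65, 40), (69, 10), (72, 10), (73, 9)]), (4, [(11, 9953), (65, 45), (69, 10), (72, 10), (73, 9)]), (0, [(30, 1), (63, 1)]), (1, [(54, 2), (55, 9), (73, 1)]), (3, [(41, 466), (42, 531), (70, 4), (72, 2)]), (3, [(31, 38), (33, 448), (42, 529), (65, 2), (72, 3)]), (4, [(48, 8574), (53,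 1570), (73, 46), (74, 7)]), (4, [(42, 10146), (63, 1), (65, 2), (72, 44)]), (3, [(41, 413), (42, 604), (63, 4)]), (3, [(37, 111), (41, 905), (63, 1), (70, 2), (72, 4)]), (4, [(41, 9983), (42, 157), (63, 8), (70, 22), (72, 37)]), (2, [(43, 91), (48, 1), (53, 11), (73, 1)]), (3, [(49, 1012), (63, 2), (64, 1), (70, 2), (72, 5)]), (4, [(30, 47), (42, 6968), (47, 3203), (54, 2), (72, 43)]), (4, [(30, 57), (42, 1539), (47, 8614), (54, 37), (72, 55)]), (1, [(30, 5), (54, 5), (61, 1), (81, 1)]), (4, [(41, 4409), (42, 5708), (63, 1), (70, 24), (72, 23)]), (3, [(31, 1010), (54, 3), (72, 5)]), (4, [(41, 1809), (42, 8375), (63, 18), (70, 3), (72, 17)]), (4, [(37, 2766), (49, 7365), (63, 19), (70, 18), (72, 48)]), (1, [(54, 5), (55, 2), (59, 5), (80, 1)]), (2, [(30, 49), (52, 66), (61, 4), (81, 1)]), (2, [(55, 54), (58, 20), (60, 45), (73, 1)]), (4, [(41, 4732), (42, 5378), (63, 3), (70, 30), (72, 20)]), (3,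 [(49, 1013), (63, 2), (70, 2), (72, 5)]), (3, [(41, 477), (42, 533), (70, 4), (72, 2)]), (4, [(41, 4725), (42, 5374), (63, 4), (70, 41), (72, 19)]), (3, [(41, 459), (42, 537), (70, 5), (72, 2)]), (4, [(41, 4576), (42, 5512), (63, 4), (70, 51), (72, 18)]), (2, [(67, 101)]), (0, [(63, 2)]), (0, [(73, 2)]), (2, [(69, 101)]), (1, [(63, 11)]), (2, [(64, 101)]), (1, [(74, 11)]), (1, [(72, 11)]), (2, [(68, 101)]), (0, [(73, 2)])],
  [(3, [(0, 820), (24, 178), (63, 3), (68, 1), (81, 1)]), (4, [(0, 280), (4, 9608), (15, 349), (20, 42), (72, 23)]), (2, [(18, 101)]), (0, [(25, 3)]), (3, [(23, 1001)]), (2, [(23, 101)]), (3, [(0, 28), (4, 995), (20, 4), (72, 3)]), (3, [(0, 28), (4, 474), (15, 526), (20, 4), (72, 2)]), (3, [(0, 27), (4, 329), (15, 674), (20, 3), (72, 3)]), (3, [(0, 27), (4, 188), (15, 819), (20, 3), (72, 4)]), (3, [(0, 26), (4, 47), (15, 929), (20, 2), (72, 5)]), (0, [(30, 1), (63, 1)]), (0,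 [(54, 4)]), (3, [(30, 265), (52, 884), (68, 3), (81, 2)]), (3, [(30, 235), (52, 898), (68, 1), (81, 2)]), (2, [(47, 101)]), (3, [(30, 322), (52, 866), (68, 2), (81, 3)]), (3, [(30, 456), (52, 741), (68, 2), (81, 1)]), (3, [(30, 267), (52, 891), (68, 3), (81, 2)]), (3, [(30, 266), (52, 889), (68, 3), (81, 2)]), (2, [(47, 101)]), (3, [(30, 269), (52, 902), (63, 3), (68, 3), (81, 2)]), (3, [(30, 633), (52, 563), (68, 2), (81, 2)]), (3, [(30, 583), (52, 414), (63, 1), (68, 2), (81, 4)]), (1, [(30, 10), (61, 1), (81, 1)]), (3, [(30, 250), (52, 891), (68, 2), (81, 2)]), (3, [(30, 271), (52, 883), (61, 1), (81, 3)]), (3, [(30, 386), (52, 850), (68, 1), (81, 2)]), (3, [(30, 267), (52, 892), (68, 4), (81, 2)]), (0, [(61, 3)]), (3, [(30, 998), (52, 1), (63, 3), (81, 1)]), (0, [(54, 6)]), (3, [(30, 258), (52, 887), (68, 2), (81, 2)]), (3, [(30, 268), (52, 895), (68, 4), (81, 2)]), (3, [(30, 261), (52, 886),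 (68, 3), (81, 2)]), (3, [(30, 263), (52, 884), (68, 4), (81, 2)]), (3, [(30, 264), (52, 883), (68, 4), (81, 2)]), (2, [(30, 29), (52, 98), (68, 1)]), (1, [(68, 11)]), (0, [(63, 2)]), (0, [(63, 2)]), (3, [(64, 1001)]), (0, [(63, 2)]), (0, [(63, 2)]), (0, [(72, 2)]), (0, [(63, 2)]), (0, [(63, 2)]), (0, [(72, 2)])],
  [(5, [(11, 100647), (65, 283), (69, 98), (72, 95), (73, 92)]), (3, [(19, 981), (21, 63), (74, 4)]), (1, [(20, 5), (21, 2), (26, 5), (80, 1)]), (4, [(13, 9735), (17, 355), (67, 26), (72, 7)]), (4, [(1, 1), (13, 9626), (17, 471), (72, 28)]), (5, [(11, 100567), (65, 277), (69, 153), (72, 96), (73, 94)]), (4, [(13, 9643), (17, 441), (67, 32), (72, 6)]), (4, [(13, 9596), (17, 482), (67, 38), (72, 6)]), (4, [(13, 9571), (17, 502), (67, 43), (72, 6)]), (4, [(13, 9556), (17, 511), (67, 48), (72, 6)]), (0, [(30, 1), (63, 1)]), (1, [(54, 2), (55, 9), (73, 1)]), (4, [(41, 5453), (42, 4669), (63,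 4), (70, 22), (72, 20)]), (3, [(32, 194), (41, 426), (42, 295), (47, 98), (72, 3)]), (4, [(48, 8145), (53, 2057), (71, 1), (73, 35)]), (3, [(42, 1016), (72, 3)]), (4, [(30, 17), (41, 5504), (42, 573), (57, 4046), (63, 22)]), (4, [(37, 6135), (41, 4037), (63, 14), (70, 1), (72, 41)]), (3, [(37, 387), (41, 629), (63, 1), (70, 1), (72, 4)]), (4, [(43, 8985), (53, 1082), (55, 48), (73, 34)]), (3, [(49, 1014), (63, 2), (64, 2), (70, 1), (72, 5)]), (3, [(30, 5), (47, 557), (57, 440), (72, 3)]), (3, [(30, 6), (47, 436), (54, 5), (57, 573), (72, 4)]), (1, [(30, 5), (54, 5), (61, 1), (81, 1)]), (4, [(41, 5058), (42, 5080), (63, 1), (70, 8), (72, 24)]), (3, [(31, 1026), (54, 3), (72, 3)]), (3, [(42, 552), (47, 105), (57, 360), (63, 2)]), (4, [(37, 1554), (49, 8594), (63, 19), (70, 3), (72, 48)]), (1, [(54, 5), (55, 2), (59, 5), (80, 1)]), (2, [(30, 49), (52, 66), (61, 4), (81, 1)]), (2, [(55, 54), (58, 20),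 (60, 45), (73, 1)]), (4, [(41, 5408), (42, 4722), (63, 3), (70, 14), (72, 22)]), (3, [(49, 1015), (63, 2), (64, 1), (70, 1), (72, 5)]), (4, [(41, 5485), (42, 4639), (63, 4), (70, 19), (72, 21)]), (4, [(41, 5471), (42, 4648), (63, 4), (70, 24), (72, 20)]), (4, [(41, 5435), (42, 4679), (63, 4), (70, 30), (72, 20)]), (4, [(41, 5397), (42, 4711), (63, 4), (70, 35), (72, 20)]), (2, [(67, 101)]), (0, [(63, 2)]), (0, [(73, 2)]), (2, [(69, 101)]), (1, [(63, 11)]), (2, [(64, 101)]), (1, [(74, 11)]), (1, [(72, 11)]), (2, [(68, 101)]), (0, [(73, 2)])],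
  [(0, [(28, 1)]), (0, [(21, 3)]), (3, [(19, 1003), (21, 68), (74, 2)]), (3, [(19, 944), (21, 129), (74, 2)]), (3, [(19, 984), (21, 63), (74, 5)]), (3, [(19, 973), (21, 64), (74, 3)]), (4, [(18, 1), (19, 9726), (21, 634), (74, 32)]), (3, [(19, 972), (21, 63), (74, 4)]), (4, [(18, 1), (19, 9715), (21, 635), (74, 43)]), (0, [(30, 1), (63, 1)]), (0, [(55, 2)]), (2, [(43, 26), (48, 64), (54, 10), (55, 3), (73, 1)]), (3, [(43, 939), (54, 87), (55, 43), (73, 1)]), (0, [(60, 1)]), (2, [(43, 84), (48, 2), (54, 12), (55, 6), (73, 1)]), (2, [(43, 97), (54, 23), (55, 1)]), (2, [(43, 80), (48, 10), (54, 10), (55, 3), (73, 1)]), (2, [(43, 70), (48, 20), (54, 10), (55, 3), (73, 1)]), (3, [(55, 82), (58, 47), (60, 970), (73, 1)]), (3, [(43, 942), (54, 106), (55, 28), (73, 5)]), (3, [(43, 826), (54, 352), (55, 60), (73, 2)]), (3, [(43, 709), (54, 371), (55, 116), (73, 3)]), (0, [(54, 3)]), (3, [(43, 701), (48,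 243), (54, 95), (55, 35), (73, 2)]), (2, [(43, 20), (48, 74), (54, 9), (55, 12), (73, 1)]), (3, [(43, 910), (54, 155), (55, 34), (73, 1)]), (3, [(43, 945), (54, 104), (55, 28), (73, 4)]), (0, [(55, 3)]), (0, [(54, 5)]), (0, [(55, 3)]), (2, [(43, 49), (48, 41), (54, 10), (55, 3), (73, 1)]), (3, [(43, 943), (54, 105), (55, 28), (73, 4)]), (2, [(43, 33), (48, 57), (54, 10), (55, 3), (73, 1)]), (2, [(43, 19), (48, 71), (54, 10), (55, 3), (73, 1)]), (2, [(43, 4), (48, 86), (54, 10), (55, 3), (73, 1)]), (2, [(48, 96), (54, 10), (55, 3), (73, 1)]), (0, [(74, 1)]), (0, [(63, 2)]), (0, [(73, 2)]), (1, [(79, 11)]), (0, [(72, 2)]), (0, [(72, 2)]), (0, [(73, 2)]), (0, [(73, 2)]), (0, [(72, 2)]), (0, [(73, 2)])],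
  [(0, [(20, 3)]), (1, [(20, 5), (21, 2), (26, 5), (80, 1)]), (1, [(20, 7), (21, 1), (26, 3), (80, 1)]), (1, [(20, 5), (21, 2), (26, 5), (80, 1)]), (1, [(20, 5), (21, 2), (26, 5), (80, 1)]), (1, [(20, 5), (21, 2), (26, 5), (80, 1)]), (1, [(20, 5), (21, 2), (26, 5), (80, 1)]), (1, [(20, 5), (21, 2), (26, 5), (80, 1)]), (0, [(30, 1), (63, 1)]), (0, [(55, 2)]), (1, [(30, 5), (54, 3), (61, 3), (81, 1)]), (1, [(30, 5), (54, 4), (61, 3), (81, 1)]), (0, [(55, 2)]), (1, [(30, 5), (54, 4), (61, 2), (81, 1)]), (1, [(30, 8), (54, 1), (61, 2), (81, 1)]), (1, [(30, 5), (54, 3), (61, 3), (81, 1)]), (1, [(30, 5), (54, 3), (61, 3), (81, 1)]), (0, [(55, 3)]), (1, [(30, 5), (54, 3), (61, 3), (81, 1)]), (1, [(30, 8), (54, 2), (61, 1), (81, 1)]), (1, [(30, 7), (54, 3), (61, 1), (81, 1)]), (0, [(54, 3)]), (1, [(30, 5), (54, 3), (61, 3), (81, 1)]), (1, [(30, 3), (54, 6), (61, 2), (81, 1)]), (1, [(30, 6), (54, 3), (61,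 2), (81, 1)]), (1, [(30, 5), (54, 3), (61, 3), (81, 1)]), (0, [(54, 3)]), (0, [(61, 2)]), (0, [(55, 3)]), (1, [(30, 5), (54, 3), (61, 3), (81, 1)]), (1, [(30, 5), (54, 3), (61, 3), (81, 1)]), (1, [(30, 5), (54, 3), (61, 3), (81, 1)]), (1, [(30, 5), (54, 3), (61, 3), (81, 1)]), (1, [(30, 5), (54, 3), (61, 3), (81, 1)]), (1, [(30, 5), (54, 3), (61, 3), (81, 1)]), (0, [(72, 2)]), (0, [(63, 2)]), (0, [(72, 2)]), (0, [(73, 2)]), (0, [(63, 2)]), (0, [(63, 2)]), (0, [(73, 2)]), (0, [(72, 2)]), (0, [(63, 2)]), (0, [(73, 2)])],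
  [(5, [(1, 6), (13, 98320), (17, 1903), (67, 71), (72, 83)]), (3, [(13, 976), (17, 30), (20, 1), (72, 1)]), (4, [(11, 10090), (65, 25), (69, 1), (72, 10), (73, 8)]), (5, [(1, 6), (13, 97430), (17, 2732), (67, 129), (72, 76)]), (5, [(1, 6), (13, 96976), (17, 3131), (67, 183), (72, 74)]), (5, [(1, 6), (13, 96731), (17, 3322), (67, 234), (72, 73)]), (5, [(1, 6), (13, 96587), (17, 3414), (67, 285), (72, 73)]), (0, [(30, 1), (63, 1)]), (1, [(54, 2), (55, 9), (73, 1)]), (4, [(41, 3839), (42, 6299), (63, 4), (70, 10), (72, 11)]), (2, [(57, 101)]), (4, [(43, 2907), (48, 5347), (53, 1776), (73, 16)]), (4, [(42, 1712), (47, 6270), (57, 2167), (63, 13), (72, 1)]), (4, [(30, 32), (56, 3124), (57, 5117), (62, 1819), (63, 4)]), (4, [(41, 5052), (42, 2439), (57, 2686), (63, 12), (72, 13)]), (3, [(41, 623), (42, 212), (57, 165), (63, 1), (72, 2)]), (3, [(43, 925), (53, 73), (55, 6), (73, 2)]), (4, [(51, 3648),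 (57, 3509), (62, 3001), (63, 24), (72, 24)]), (4, [(30, 59), (47, 1159), (54, 18), (57, 8925), (72, 6)]), (3, [(30, 7), (54, 7), (57, 989), (72, 2)]), (1, [(30, 5), (54, 5), (61, 1), (81, 1)]), (4, [(41, 1725), (42, 7297), (57, 1124), (63, 2), (72, 8)]), (2, [(57, 101)]), (4, [(30, 18), (41, 382), (42, 2315), (57, 7428), (63, 1)]), (4, [(41, 3759), (49, 3039), (57, 3364), (63, 18), (72, 22)]), (1, [(54, 5), (55, 2), (59, 5), (80, 1)]), (3, [(30, 501), (52, 656), (61, 39), (81, 4)]), (3, [(55, 558), (58, 184), (60, 456), (73, 3)]), (4, [(41, 3779), (42, 6369), (63, 3), (70, 2), (72, 13)]), (4, [(49, 2953), (56, 3359), (57, 3847), (63, 23), (72, 23)]), (4, [(41, 3866), (42, 6275), (63, 4), (70, 8), (72, 12)]), (4, [(41, 3875), (42, 6261), (63, 4), (70, 13), (72, 11)]), (4, [(41, 3866), (42, 6265), (63, 4), (70, 18), (72, 11)]), (4, [(41, 3858), (42, 6267), (63, 4), (70, 23), (72, 12)]), (3, [(70,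 1001)]), (0, [(63, 2)]), (0, [(73, 2)]), (3, [(69, 1001)]), (1, [(63, 11)]), (3, [(64, 1001)]), (1, [(74, 11)]), (1, [(72, 11)]), (2, [(68, 101)]), (0, [(73, 2)])],
  [(4, [(1, 1), (13, 9760), (17, 288), (20, 35), (72, 5)]), (4, [(1, 1), (13, 9655), (17, 474), (67, 5), (72, 29)]), (5, [(1, 14), (13, 96336), (17, 3836), (20, 72), (72, 154)]), (4, [(1, 1), (13, 9589), (17, 426), (20, 4), (72, 21)]), (5, [(1, 16), (13, 95662), (17, 4455), (20, 18), (72, 257)]), (5, [(1, 16), (13, 95536), (17, 4547), (67, 15), (72, 292)]), (0, [(30, 1), (63, 1)]), (0, [(54, 1), (55, 1), (73, 1)]), (4, [(30, 18), (41, 2367), (42, 1332), (57, 6589), (63, 17)]), (2, [(57, 101)]), (4, [(43, 9128), (53, 936), (55, 37), (73, 5)]), (3, [(30, 3), (54, 1), (57, 1019), (81, 1)]), (3, [(51, 1001)]), (3, [(30, 2), (51, 219), (57, 827), (63, 1)]), (4, [(30, 24), (51, 2175), (57, 8073), (63, 14)]), (4, [(31, 1), (43, 9937), (54,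 15), (55, 117), (73, 11)]), (3, [(30, 1), (51, 198), (57, 824), (63, 4)]), (2, [(57, 101)]), (3, [(30, 15), (54, 7), (57, 1018), (61, 1), (81, 1)]), (1, [(30, 7), (54, 3), (61, 1), (81, 1)]), (2, [(51, 12), (57, 91)]), (2, [(47, 101)]), (2, [(57, 101)]), (3, [(30, 2), (51, 216), (57, 829), (63, 2)]), (1, [(54, 7), (55, 1), (59, 3), (80, 1)]), (2, [(30, 58), (52, 40), (61, 3), (81, 1)]), (3, [(53, 1), (55, 637), (58, 104), (60, 258), (73, 3)]), (3, [(30, 2), (49, 64), (56, 121), (57, 841), (63, 1)]), (4, [(30, 17), (51, 2063), (57, 8160), (63, 27), (68, 1)]), (4, [(30, 20), (41, 2488), (42, 431), (57, 7361), (63, 15)]), (3, [(30, 1), (41, 206), (42, 239), (57, 558), (63, 2)]), (4, [(30, 10), (41, 1661), (42, 4538), (57, 4118), (63, 25)]), (3, [(41, 117), (42, 663), (57, 252), (63, 3)]), (3, [(70, 1001)]), (0, [(63, 2)]), (0, [(73, 2)]), (3, [(69, 1001)]), (0, [(63, 2)]), (3, [(64, 1001)]), (1, [(74,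 11)]), (0, [(72, 2)]), (1, [(63, 11)]), (0, [(73, 2)])],
  [(4, [(11, 9957), (65, 27), (69, 21), (72, 10), (73, 9)]), (4, [(11, 10085), (65, 30), (69, 1), (72, 10), (73, 8)]), (5, [(11, 100803), (65, 355), (69, 7), (72, 95), (73, 86)]), (4, [(11, 10076), (65, 41), (69, 1), (72, 9), (73, 9)]), (4, [(11, 9963), (65, 45), (69, 1), (72, 9), (73, 9)]), (0, [(30, 1), (63, 1)]), (1, [(54, 2), (55, 9), (73, 1)]), (3, [(41, 484), (42, 514), (70, 3), (72, 2)]), (3, [(31, 35), (33, 454), (42, 513), (65, 1), (72, 3)]), (3, [(48, 810), (53, 190), (71, 1), (73, 4)]), (3, [(42, 1015), (72, 4)]), (3, [(30, 1), (41, 486), (42, 318), (57, 210), (63, 3)]), (3, [(37, 187), (41, 812), (63, 1), (70, 1), (72, 4)]), (4, [(41, 10099), (42, 51), (63, 8), (70, 12), (72, 37)]), (4, [(43, 9007), (53, 1094), (55, 46), (73, 39)]), (3, [(49, 1013), (63, 2), (64, 1), (70, 1), (72, 5)]), (3, [(30, 4), (47, 805), (57, 210), (63,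 2), (72, 2)]), (4, [(30, 60), (47, 6746), (54, 46), (57, 3369), (72, 43)]), (1, [(30, 5), (54, 5), (61, 1), (81, 1)]), (4, [(41, 4481), (42, 5516), (63, 1), (70, 14), (72, 23)]), (4, [(31, 10247), (54, 36), (72, 36)]), (4, [(42, 7833), (47, 585), (57, 1760), (63, 21), (72, 5)]), (4, [(37, 2576), (49, 7563), (63, 19), (70, 9), (72, 48)]), (1, [(54, 5), (55, 2), (59, 5), (80, 1)]), (2, [(30, 49), (52, 66), (61, 4), (81, 1)]), (2, [(55, 54), (58, 20), (60, 45), (73, 1)]), (4, [(41, 4879), (42, 5240), (63, 3), (70, 20), (72, 20)]), (3, [(49, 1014), (63, 2), (70, 1), (72, 5)]), (3, [(41, 488), (42, 510), (70, 3), (72, 2)]), (4, [(41, 4915), (42, 5192), (63, 4), (70, 31), (72, 19)]), (3, [(41, 480), (42, 517), (70, 4), (72, 2)]), (4, [(41, 4813), (42, 5284), (63, 4), (70, 41), (72, 18)]), (2, [(67, 101)]), (0, [(63, 2)]), (0, [(73, 2)]), (2, [(69, 101)]), (1, [(63, 11)]), (2, [(64, 101)]), (1, [(74, 11)]),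 (1, [(72, 11)]), (2, [(68, 101)]), (0, [(73, 2)])],
  [(5, [(1, 6), (13, 96529), (17, 3572), (67, 187), (72, 69)]), (5, [(1, 6), (13, 96070), (17, 3977), (67, 241), (72, 67)]), (5, [(1, 6), (13, 95822), (17, 4171), (67, 293), (72, 66)]), (5, [(1, 6), (13, 95677), (17, 4264), (67, 344), (72, 66)]), (0, [(30, 1), (63, 1)]), (1, [(54, 2), (55, 9), (73, 1)]), (4, [(41, 7554), (42, 2609), (63, 6), (70, 4), (72, 25)]), (4, [(42, 3888), (47, 1217), (57, 5043), (63, 6), (72, 1)]), (4, [(43, 1716), (48, 6402), (53, 1906), (73, 22)]), (4, [(42, 464), (47, 5690), (57, 4008), (63, 16), (72, 3)]), (4, [(30, 31), (51, 3279), (57, 5175), (62, 1608), (63, 4)]), (4, [(41, 5207), (49, 634), (57, 4347), (63, 15), (72, 15)]), (4, [(41, 5746), (49, 1197), (57, 3231), (63, 14), (72, 21)]), (5, [(39, 6), (43, 90677), (53, 9163), (55, 568), (73, 207)]), (4, [(51, 6625), (57, 3531), (63, 23), (64, 2), (72, 25)]), (4, [(30,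 58), (54, 21), (57, 10087), (72, 7), (81, 4)]), (4, [(30, 65), (54, 71), (57, 10039), (72, 12), (81, 9)]), (1, [(30, 5), (54, 5), (61, 1), (81, 1)]), (4, [(41, 2666), (42, 4600), (57, 2893), (63, 6), (72, 10)]), (3, [(31, 548), (32, 403), (45, 65), (54, 4), (72, 2)]), (4, [(30, 17), (41, 659), (42, 304), (57, 9176), (63, 6)]), (4, [(49, 3289), (56, 3226), (57, 3646), (63, 21), (72, 25)]), (1, [(54, 5), (55, 2), (59, 5), (80, 1)]), (3, [(30, 490), (52, 665), (61, 40), (81, 5)]), (3, [(55, 549), (58, 194), (60, 453), (73, 4)]), (4, [(41, 5806), (42, 3279), (57, 1079), (63, 6), (72, 20)]), (4, [(56, 809), (57, 3587), (62, 5761), (63, 22), (72, 25)]), (4, [(41, 7571), (42, 2596), (63, 6), (70, 2), (72, 26)]), (4, [(41, 7593), (42, 2568), (63, 6), (70, 7), (72, 26)]), (4, [(41, 7596), (42, 2560), (63, 6), (70, 12), (72, 26)]), (4, [(41, 7598), (42, 2553), (63, 6), (70, 17), (72, 26)]), (3, [(70, 1001)]),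 (0, [(63, 2)]), (0, [(73, 2)]), (3, [(69, 1001)]), (1, [(63, 11)]), (3, [(64, 1001)]), (1, [(74, 11)]), (1, [(72, 11)]), (2, [(68, 101)]), (0, [(73, 2)])],
  [(5, [(1, 6), (13, 95607), (17, 4383), (67, 294), (72, 65)]), (5, [(1, 6), (13, 95359), (17, 4579), (67, 346), (72, 64)]), (5, [(1, 6), (13, 95213), (17, 4673), (67, 397), (72, 64)]), (0, [(30, 1), (63, 1)]), (1, [(54, 2), (55, 9), (73, 1)]), (4, [(41, 8671), (49, 1360), (57, 151), (63, 9), (72, 36)]), (4, [(42, 2738), (47, 639), (57, 6784), (63, 9), (72, 3)]), (5, [(39, 5), (43, 9419), (48, 71142), (53, 19620), (73, 278)]), (4, [(30, 2), (47, 4261), (57, 5911), (63, 14), (72, 9)]), (4, [(30, 29), (51, 4837), (57, 5223), (63, 8)]), (3, [(49, 427), (56, 93), (57, 481), (63, 2), (72, 2)]), (4, [(49, 6053), (56, 244), (57, 3876), (63, 21), (72, 24)]), (3, [(43, 899), (53, 99), (55, 5), (73, 3)]), (4, [(51, 6568), (57, 3583), (63, 23), (64, 8),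 (72, 25)]), (4, [(30, 56), (54, 21), (57, 10083), (72, 4), (81, 12)]), (3, [(30, 6), (54, 7), (57, 1004), (72, 1), (81, 2)]), (1, [(30, 5), (54, 5), (61, 1), (81, 1)]), (3, [(41, 366), (42, 204), (57, 463), (63, 1), (72, 1)]), (3, [(31, 82), (32, 871), (45, 86), (54, 4), (72, 3)]), (3, [(30, 1), (51, 52), (57, 961), (63, 1)]), (4, [(56, 1959), (57, 3372), (62, 4829), (63, 22), (72, 26)]), (1, [(54, 5), (55, 2), (59, 5), (80, 1)]), (2, [(30, 49), (52, 67), (61, 4), (81, 1)]), (3, [(55, 547), (58, 198), (60, 451), (73, 4)]), (3, [(41, 686), (42, 69), (57, 279), (63, 1), (72, 2)]), (4, [(51, 4525), (57, 3545), (62, 2087), (63, 22), (72, 25)]), (3, [(41, 856), (49, 60), (57, 102), (63, 1), (72, 3)]), (4, [(37, 7990), (41, 2170), (49, 15), (63, 15), (72, 40)]), (4, [(37, 8209), (41, 1960), (63, 15), (70, 5), (72, 41)]), (4, [(37, 8347), (41, 1816), (63, 15), (70, 10), (72, 41)]), (3, [(67, 1001)]), (0,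 [(63, 2)]), (0, [(73, 2)]), (3, [(69, 1001)]), (1, [(63, 11)]), (3, [(64, 1001)]), (1, [(74, 11)]), (1, [(72, 11)]), (2, [(68, 101)]), (0, [(73, 2)])],
  [(5, [(1, 6), (13, 95110), (17, 4775), (67, 398), (72, 64)]), (5, [(1, 6), (13, 94964), (17, 4869), (67, 449), (72, 64)]), (0, [(30, 1), (63, 1)]), (1, [(54, 2), (55, 9), (73, 1)]), (4, [(41, 2841), (49, 6544), (57, 796), (63, 16), (72, 39)]), (4, [(42, 1645), (47, 39), (57, 8490), (63, 12), (72, 4)]), (5, [(39, 6), (43, 3351), (48, 76928), (53, 19845), (73, 335)]), (4, [(30, 6), (47, 2306), (57, 7875), (63, 9), (72, 18)]), (4, [(30, 26), (51, 4802), (57, 5256), (63, 13)]), (3, [(56, 223), (57, 457), (62, 338), (63, 2), (72, 2)]), (4, [(56, 5384), (57, 3506), (62, 1282), (63, 21), (72, 26)]), (4, [(43, 9007), (53, 1021), (55, 50), (73, 31)]), (4, [(51, 6525), (57, 3621), (63, 23), (64, 13), (72, 25)]), (3, [(30, 5), (54, 2), (57, 1021), (81, 2)]),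 (3, [(30, 6), (54, 7), (57, 1003), (72, 1), (81, 3)]), (1, [(30, 5), (54, 5), (61, 1), (81, 1)]), (4, [(41, 3066), (49, 1138), (57, 5974), (63, 15), (72, 14)]), (4, [(32, 3522), (46, 4846), (47, 1861), (54, 27), (72, 29)]), (3, [(30, 1), (51, 48), (57, 966), (63, 2)]), (4, [(51, 3751), (57, 3289), (62, 3120), (63, 22), (72, 26)]), (1, [(54, 5), (55, 2), (59, 5), (80, 1)]), (2, [(30, 48), (52, 67), (61, 4), (81, 1)]), (3, [(55, 547), (58, 200), (60, 448), (73, 5)]), (4, [(41, 2703), (49, 3824), (57, 3652), (63, 16), (72, 24)]), (4, [(51, 6614), (57, 3541), (63, 22), (64, 3), (72, 25)]), (4, [(41, 2730), (49, 5783), (57, 1667), (63, 16), (72, 35)]), (4, [(37, 1845), (41, 1366), (49, 6970), (63, 17), (72, 45)]), (4, [(37, 3492), (49, 6683), (63, 18), (70, 5), (72, 45)]), (4, [(37, 3445), (49, 6723), (63, 18), (70, 10), (72, 46)]), (3, [(67, 1001)]), (0, [(63, 2)]), (0, [(73, 2)]), (3, [(69, 1001)]),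 (1, [(63, 11)]), (3, [(64, 1001)]), (1, [(74, 11)]), (1, [(72, 11)]), (2, [(68, 101)]), (0, [(73, 2)])],
  [(4, [(13, 9508), (17, 497), (67, 50), (72, 6)]), (0, [(30, 1), (63, 1)]), (1, [(54, 2), (55, 9), (73, 1)]), (3, [(49, 547), (56, 382), (57, 89), (63, 2), (72, 4)]), (4, [(51, 379), (57, 9597), (62, 205), (63, 15), (72, 6)]), (4, [(48, 8045), (53, 1998), (71, 2), (73, 37)]), (4, [(30, 10), (47, 371), (57, 9819), (63, 5), (72, 26)]), (3, [(30, 2), (51, 478), (57, 527), (63, 2)]), (3, [(51, 356), (57, 447), (62, 216), (63, 2), (72, 2)]), (4, [(51, 1738), (57, 3346), (62, 5089), (63, 22), (72, 26)]), (4, [(43, 8954), (53, 1022), (55, 48), (73, 36)]), (4, [(51, 6494), (57, 3647), (63, 23), (64, 18), (72, 25)]), (3, [(30, 5), (54, 2), (57, 1008), (81, 3)]), (4, [(30, 61), (54, 73), (57, 10028), (72, 3), (81, 34)]), (1, [(30, 5), (54, 5), (61, 1), (81, 1)]), (4, [(49, 539), (56, 3525), (57, 6112),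 (63, 18), (72, 16)]), (3, [(46, 231), (47, 732), (57, 65), (72, 3)]), (3, [(30, 1), (51, 46), (57, 968), (63, 2)]), (4, [(51, 6906), (57, 3252), (63, 22), (64, 2), (72, 27)]), (1, [(54, 5), (55, 2), (59, 5), (80, 1)]), (2, [(30, 48), (52, 67), (61, 4), (81, 1)]), (2, [(55, 55), (58, 20), (60, 45), (73, 1)]), (4, [(49, 2460), (56, 3994), (57, 3723), (63, 19), (72, 26)]), (4, [(51, 6595), (57, 3554), (63, 22), (64, 8), (72, 25)]), (4, [(49, 4477), (56, 3961), (57, 1741), (63, 19), (72, 37)]), (4, [(49, 8822), (51, 1019), (56, 340), (63, 19), (72, 47)]), (4, [(49, 10175), (63, 19), (64, 3), (70, 5), (72, 47)]), (4, [(49, 10169), (63, 19), (64, 3), (70, 10), (72, 47)]), (3, [(67, 1001)]), (0, [(63, 2)]), (0, [(73, 2)]), (4, [(69, 10001)]), (1, [(63, 11)]), (3, [(64, 1001)]), (1, [(74, 11)]), (1, [(72, 11)]), (2, [(68, 101)]), (0, [(73, 2)])],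
  [(0, [(0, 1)]), (0, [(0, 1), (63, 1)]), (0, [(0, 1), (63, 1)]), (0, [(0, 1), (63, 1)]), (0, [(0, 1), (63, 1)]), (0, [(0, 1), (63, 1)]), (0, [(0, 1), (63, 1)]), (0, [(0, 1), (63, 1)]), (0, [(0, 1), (63, 1)]), (0, [(0, 1), (63, 1)]), (0, [(0, 1), (63, 1)]), (0, [(0, 1), (63, 1)]), (0, [(0, 1), (63, 1)]), (0, [(0, 1), (63, 1)]), (0, [(0, 1), (63, 1)]), (0, [(0, 1), (63, 1)]), (0, [(0, 1), (63, 1)]), (0, [(0, 1), (63, 1)]), (0, [(0, 1), (63, 1)]), (0, [(0, 1), (63, 1)]), (0, [(0, 1), (63, 1)]), (0, [(0, 1), (63, 1)]), (0, [(0, 1), (63, 1)]), (0, [(0, 1), (63, 1)]), (0, [(0, 1), (63, 1)]), (0, [(0, 1), (63, 1)]), (0, [(0, 1), (63, 1)]), (0, [(63, 1)]), (0, [(63, 1)]), (0, [(63, 1)]), (0, [(63, 1)]), (0, [(63, 1)]), (0, [(63, 1)]), (0, [(63, 1)]), (0, [(63, 1)]), (0, [(63, 1)]), (0, [(63, 1)])],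
  [(0, [(21, 2)]), (1, [(0, 2), (20, 9), (72, 1)]), (0, [(20, 4)]), (0, [(21, 2)]), (0, [(0, 1), (20, 1), (72, 1)]), (0, [(0, 1), (20, 1), (72, 1)]), (1, [(0, 2), (20, 9), (72, 1)]), (1, [(0, 2), (20, 9), (72, 1)]), (0, [(21, 2)]), (1, [(0, 2), (20, 9), (72, 1)]), (0, [(20, 5)]), (0, [(20, 7)]), (0, [(20, 2)]), (1, [(0, 2), (20, 9), (72, 1)]), (0, [(20, 4)]), (0, [(0, 1), (20, 1), (72, 1)]), (1, [(0, 2), (20, 9), (72, 1)]), (0, [(21, 2)]), (0, [(20, 3)]), (0, [(21, 2)]), (1, [(0, 2), (20, 9), (72, 1)]), (1, [(0, 2), (20, 9), (72, 1)]), (1, [(0, 2), (20, 9), (72, 1)]), (1, [(0, 2), (20, 9), (72, 1)]), (1, [(0, 2), (20, 9), (72, 1)]), (1, [(0, 2), (20, 9), (72, 1)]), (0, [(72, 1)]), (0, [(63, 1)]), (0, [(73, 1)]), (0, [(73, 1)]), (0, [(72, 1)]), (0, [(63, 1)]), (0, [(73, 1)]), (0, [(72, 1)]), (0, [(63, 1)]), (0, [(73, 1)])],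
  [(4, [(0, 149), (4, 9869), (64, 31), (72, 3)]), (4, [(0, 125), (4, 9904), (63, 4), (64, 8), (72, 4)]), (4, [(11, 9371), (17, 640), (20, 74), (72, 13)]), (4, [(0, 184), (4, 9878), (63, 12), (64, 8), (72, 6)]), (4, [(0, 324), (4, 8494), (15, 1343), (63, 13), (72, 1)]), (4, [(0, 141), (4, 9945), (63, 17), (64, 11), (72, 3)]), (4, [(0, 141), (4, 9925), (63, 16), (64, 15), (72, 3)]), (3, [(2, 130), (13, 771), (14, 112), (20, 19), (72, 2)]), (2, [(0, 1), (4, 76), (15, 24), (63, 1)]), (4, [(0, 606), (4, 6843), (15, 2878), (63, 24), (72, 6)]), (3, [(0, 79), (4, 609), (15, 390), (63, 3), (72, 1)]), (1, [(0, 10), (25, 1), (81, 1)]), (5, [(0, 1374), (4, 98899), (63, 14), (64, 160), (72, 36)]), (5, [(0, 1531), (4, 98864), (64, 42), (70, 10), (72, 108)]), (3, [(0, 23), (4, 859), (15, 131), (63, 2)]), (4, [(0, 133), (4, 9963), (63, 31), (64, 8), (72, 3)]), (1, [(0, 5), (20, 3), (25, 3), (81, 1)]), (3, [(0,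 865), (24, 131), (63, 4), (68, 1), (81, 2)]), (3, [(18, 1), (19, 293), (20, 403), (21, 302), (73, 4)]), (5, [(0, 1433), (4, 98805), (63, 5), (64, 224), (72, 34)]), (4, [(0, 128), (4, 10000), (63, 43), (64, 1), (72, 3)]), (4, [(0, 146), (4, 9913), (64, 28), (72, 3)]), (4, [(0, 148), (4, 9907), (64, 33), (72, 3)]), (5, [(0, 1479), (4, 98616), (64, 383), (72, 32)]), (4, [(0, 149), (4, 9897), (64, 44), (72, 3)]), (3, [(63, 15), (64, 987), (70, 1), (72, 2)]), (0, [(63, 2)]), (0, [(72, 2)]), (2, [(67, 101)]), (0, [(63, 2)]), (2, [(68, 101)]), (2, [(76, 101)]), (0, [(63, 2)]), (0, [(63, 2)]), (0, [(72, 2)])],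
  [(5, [(0, 1056), (4, 58762), (15, 40511), (63, 35), (72, 36)]), (2, [(13, 101)]), (4, [(0, 158), (4, 6025), (15, 3880), (63, 11), (72, 6)]), (3, [(0, 28), (6, 127), (15, 558), (29, 287), (63, 2)]), (5, [(0, 1181), (4, 68762), (15, 30961), (63, 178), (72, 28)]), (4, [(0, 118), (4, 7820), (15, 2135), (63, 18), (72, 3)]), (2, [(13, 101)]), (3, [(0, 10), (4, 60), (15, 848), (29, 101), (63, 6)]), (4, [(0, 531), (4, 810), (15, 8955), (63, 20), (72, 5)]), (3, [(0, 67), (15, 970), (63, 2), (72, 1), (81, 1)]), (1, [(0, 10), (25, 1), (81, 1)]), (5, [(0, 1158), (4, 81343), (15, 17855), (63, 32), (72, 39)]), (3, [(0, 13), (4, 902), (15, 88)]), (4, [(0, 201), (4, 2425), (15, 7605), (63, 14), (72, 1)]), (4, [(0, 111), (4, 5844), (15, 4144), (63, 31), (72, 2)]), (1, [(0, 5), (20, 4), (25, 3), (81, 1)]), (3, [(0, 851), (24, 147), (63, 2), (68, 1), (81, 2)]), (3, [(18, 1), (19, 278), (20, 322), (21, 399), (73,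 3)]), (5, [(0, 1204), (4, 98983), (15, 171), (63, 37), (72, 45)]), (4, [(0, 106), (4, 4106), (15, 5914), (63, 41), (72, 1)]), (4, [(0, 123), (4, 9944), (63, 4), (64, 5), (72, 4)]), (5, [(0, 1240), (4, 99024), (63, 34), (64, 106), (72, 43)]), (5, [(0, 1245), (4, 98969), (63, 34), (64, 158), (72, 43)]), (5, [(0, 1248), (4, 98917), (63, 34), (64, 209), (72, 44)]), (3, [(63, 12), (64, 989), (72, 3)]), (0, [(63, 2)]), (0, [(72, 2)]), (2, [(67, 101)]), (0, [(63, 2)]), (2, [(68, 101)]), (2, [(76, 101)]), (0, [(63, 2)]), (0, [(63, 2)]), (0, [(72, 2)])],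
  [(0, [(19, 1)]), (2, [(13, 101)]), (3, [(11, 1002)]), (3, [(11, 946), (17, 61), (20, 7), (72, 1)]), (4, [(11, 9444), (17, 616), (20, 74), (72, 13)]), (3, [(19, 1012), (21, 6), (74, 1)]), (3, [(13, 1020), (17, 11), (20, 6), (72, 3)]), (3, [(13, 1001)]), (3, [(17, 965), (18, 24), (20, 38), (80, 1)]), (0, [(20, 3)]), (2, [(13, 101)]), (2, [(17, 101)]), (2, [(13, 101)]), (3, [(11, 949), (17, 61), (20, 7), (72, 2)]), (0, [(21, 2)]), (1, [(0, 3), (4, 6), (20, 3)]), (0, [(28, 1)]), (2, [(13, 101)]), (4, [(11, 5067), (13, 4702), (17, 360), (20, 68), (72, 24)]), (3, [(11, 933), (17, 68), (20, 7), (72, 1)]), (3, [(11, 936), (17, 65), (20, 7), (72, 2)]), (3, [(11, 936), (17, 65), (20, 7), (72, 2)]), (4, [(11, 9423), (17, 658), (20, 67), (72, 25)]), (4, [(69, 10001)]), (0, [(63, 2)]), (0, [(73, 2)]), (0, [(77, 1)]), (0, [(72, 2)]), (0, [(67, 1)]), (0, [(79, 1)]), (0, [(73, 2)]), (0, [(72, 2)]), (0, [(73,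 2)])],
  [(4, [(0, 232), (4, 6167), (15, 3705), (63, 19), (72, 9)]), (3, [(0, 41), (4, 254), (15, 745), (63, 2)]), (4, [(0, 177), (4, 7021), (15, 2924), (63, 26), (72, 4)]), (4, [(0, 178), (4, 7964), (15, 1965), (63, 26), (72, 5)]), (3, [(13, 731), (17, 269), (20, 25), (72, 1)]), (3, [(0, 16), (4, 153), (15, 852), (63, 7)]), (4, [(0, 752), (4, 956), (15, 8709), (63, 28), (72, 8)]), (3, [(0, 94), (4, 7), (15, 952), (63, 3), (72, 2)]), (1, [(0, 10), (25, 1), (81, 1)]), (4, [(0, 171), (4, 8278), (15, 1617), (63, 11), (72, 6)]), (3, [(0, 19), (4, 981), (72, 1)]), (4, [(0, 290), (4, 2548), (15, 7333), (63, 22), (72, 3)]), (4, [(0, 171), (4, 5991), (15, 3970), (63, 39), (72, 4)]), (1, [(0, 5), (20, 4), (25, 2), (81, 1)]), (3, [(0, 888), (24, 109), (63, 3), (68, 1), (81, 2)]), (3, [(18, 1), (19, 215), (20, 350), (21, 433), (73, 4)]), (4, [(0, 178), (4, 9890), (63, 12), (64, 1), (72, 6)]), (4, [(0, 166),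 (4, 4257), (15, 5736), (63, 50), (72, 3)]), (4, [(0, 181), (4, 9882), (63, 12), (64, 6), (72, 6)]), (4, [(0, 183), (4, 9876), (63, 12), (64, 11), (72, 6)]), (4, [(0, 184), (4, 9871), (63, 12), (64, 16), (72, 6)]), (4, [(0, 184), (4, 9865), (63, 12), (64, 21), (72, 6)]), (3, [(63, 18), (64, 986), (72, 4)]), (0, [(63, 2)]), (0, [(72, 2)]), (0, [(67, 1)]), (0, [(63, 2)]), (1, [(68, 11)]), (2, [(76, 101)]), (0, [(63, 2)]), (0, [(63, 2)]), (0, [(72, 2)])],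
  [(3, [(0, 67), (3, 278), (15, 26), (22, 666), (63, 1)]), (3, [(0, 32), (6, 184), (15, 396), (29, 410), (63, 3)]), (3, [(0, 32), (6, 41), (15, 403), (29, 544), (63, 3)]), (3, [(13, 1002)]), (3, [(0, 28), (7, 133), (22, 788), (23, 80), (63, 5)]), (2, [(0, 12), (7, 61), (22, 7), (23, 23), (63, 1)]), (3, [(0, 144), (7, 558), (23, 314), (63, 1), (81, 2)]), (1, [(0, 10), (25, 1), (81, 1)]), (3, [(0, 30), (4, 243), (15, 461), (29, 266), (63, 2)]), (0, [(29, 1)]), (3, [(0, 49), (3, 13), (15, 358), (22, 612), (63, 2)]), (3, [(0, 32), (6, 340), (15, 387), (29, 263), (63, 4)]), (1, [(0, 8), (20, 1), (25, 2), (81, 1)]), (3, [(0, 929), (24, 69), (63, 2), (81, 1)]), (3, [(18, 1), (19, 207), (20, 660), (21, 133), (73, 2)]), (4, [(0, 315), (4, 6278), (15, 3568), (63, 12)]), (2, [(0, 3), (6, 60), (15, 37), (29, 2), (63, 1)]), (4, [(0, 320), (4, 7808), (15, 2034), (63, 13), (72, 1)]), (5, [(0, 3215), (4, 92650),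 (15, 5735), (63, 138), (72, 18)]), (4, [(0, 322), (4, 9834), (63, 14), (64, 3), (72, 2)]), (4, [(0, 323), (4, 9829), (63, 15), (64, 8), (72, 2)]), (2, [(63, 3), (64, 98)]), (0, [(63, 2)]), (0, [(72, 2)]), (3, [(70, 1001)]), (0, [(63, 2)]), (1, [(68, 11)]), (1, [(72, 11)]), (0, [(63, 2)]), (0, [(63, 2)]), (0, [(72, 2)])],
  [(4, [(0, 133), (4, 7889), (15, 2128), (63, 32), (72, 2)]), (4, [(0, 135), (4, 8955), (15, 1174), (63, 32), (72, 2)]), (4, [(13, 7749), (14, 2329), (20, 189), (72, 15)]), (2, [(0, 1), (6, 9), (15, 62), (29, 29), (63, 1)]), (3, [(0, 60), (4, 174), (15, 804), (63, 4)]), (3, [(0, 76), (4, 83), (15, 888), (63, 4), (72, 1)]), (1, [(0, 10), (25, 1), (81, 1)]), (3, [(0, 13), (4, 915), (15, 81), (63, 2)]), (5, [(0, 1541), (4, 99538), (64, 24), (70, 4), (72, 107)]), (3, [(0, 23), (4, 336), (15, 660), (63, 3)]), (4, [(0, 126), (4, 6848), (15, 3183), (63, 45), (72, 1)]), (1, [(0, 5), (20,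 3), (25, 3), (81, 1)]), (3, [(0, 865), (24, 131), (63, 4), (68, 1), (81, 2)]), (3, [(19, 288), (20, 407), (21, 302), (73, 4)]), (4, [(0, 137), (4, 10048), (63, 17), (64, 3), (72, 3)]), (2, [(0, 1), (4, 51), (15, 50), (63, 1)]), (4, [(0, 138), (4, 9950), (63, 17), (64, 9), (72, 3)]), (4, [(0, 139), (4, 9944), (63, 17), (64, 14), (72, 3)]), (3, [(0, 14), (4, 994), (63, 2), (64, 2)]), (4, [(0, 140), (4, 9933), (63, 17), (64, 25), (72, 3)]), (3, [(64, 1001)]), (0, [(63, 2)]), (0, [(72, 2)]), (0, [(67, 1)]), (0, [(63, 2)]), (1, [(68, 11)]), (2, [(76, 101)]), (0, [(63, 2)]), (0, [(63, 2)]), (0, [(72, 2)])],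
  [(4, [(0, 133), (4, 9791), (15, 191), (63, 32), (72, 3)]), (3, [(13, 774), (14, 234), (20, 19), (72, 2)]), (2, [(0, 1), (4, 15), (15, 63), (29, 23), (63, 1)]), (3, [(0, 60), (4, 266), (15, 711), (63, 4)]), (3, [(0, 76), (4, 174), (15, 796), (63, 4), (72, 1)]), (1, [(0, 10), (25, 1), (81, 1)]), (5, [(0, 1297), (4, 99465), (63, 170), (64, 5), (72, 36)]), (5, [(0, 1538), (4, 99346), (64, 49), (70, 4), (72, 107)]), (3, [(0, 22), (4, 430), (15, 565), (63, 3)]), (4, [(0, 126), (4, 7798), (15, 2217), (63, 45), (72, 2)]), (1, [(0, 5), (20, 3), (25, 3), (81, 1)]), (3, [(0, 865), (24, 131), (63, 4), (68, 1), (81, 2)]), (3, [(19, 289), (20, 406), (21, 302), (73, 4)]), (3, [(0, 13), (4, 986), (63, 2), (64, 1)]), (2, [(0, 1), (4, 60), (15, 40), (63, 1)]), (4, [(0, 138), (4, 9930), (63, 16), (64, 12), (72, 3)]), (4, [(0, 140), (4, 9924), (63, 16), (64, 18), (72, 3)]), (4, [(0, 140), (4, 9918), (63, 16), (64,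 23), (72, 3)]), (3, [(0, 14), (4, 991), (63, 2), (64, 3)]), (3, [(64, 1001)]), (0, [(63, 2)]), (0, [(72, 2)]), (2, [(67, 101)]), (0, [(63, 2)]), (1, [(68, 11)]), (2, [(76, 101)]), (0, [(63, 2)]), (0, [(63, 2)]), (0, [(72, 2)])],
  [(3, [(19, 1022), (21, 23), (74, 1)]), (3, [(13, 780), (14, 225), (20, 18), (72, 4)]), (3, [(13, 1001)]), (3, [(13, 287), (17, 712), (20, 100), (72, 1)]), (0, [(20, 4)]), (2, [(13, 101)]), (2, [(17, 101)]), (2, [(13, 101)]), (3, [(13, 775), (14, 231), (20, 18), (72, 3)]), (0, [(21, 3)]), (2, [(23, 101)]), (0, [(21, 1), (28, 1)]), (3, [(13, 853), (14, 157), (20, 19), (72, 1)]), (3, [(13, 777), (14, 229), (20, 18), (72, 3)]), (3, [(2, 47), (13, 772), (14, 164), (20, 18), (72, 2)]), (3, [(2, 192), (13, 754), (14, 42), (20, 19), (72, 3)]), (3, [(2, 72), (11, 943), (20, 19), (72, 3)]), (3, [(2, 65), (11, 952), (20, 19), (72, 4)]), (3, [(69, 1001)]), (0, [(63, 2)]), (0, [(73,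 2)]), (1, [(77, 11)]), (0, [(72, 2)]), (2, [(70, 101)]), (1, [(79, 11)]), (0, [(73, 2)]), (0, [(72, 2)]), (0, [(73, 2)])],
  [(3, [(0, 8), (7, 301), (22, 465), (23, 258), (63, 10)]), (4, [(0, 584), (7, 6131), (23, 3749), (63, 51), (81, 7)]), (3, [(0, 75), (7, 516), (23, 464), (63, 4), (81, 3)]), (1, [(0, 10), (25, 1), (81, 1)]), (3, [(0, 11), (4, 362), (15, 645), (63, 6)]), (4, [(0, 138), (4, 8374), (15, 1694), (63, 34), (72, 10)]), (3, [(0, 19), (7, 417), (22, 467), (23, 124), (63, 6)]), (2, [(0, 1), (6, 25), (15, 61), (29, 15), (63, 1)]), (1, [(0, 5), (20, 3), (25, 3), (81, 1)]), (2, [(0, 103), (24, 16), (63, 1)]), (2, [(19, 34), (20, 49), (21, 36), (73, 1)]), (3, [(0, 11), (4, 538), (15, 469), (63, 6)]), (2, [(0, 1), (3, 21), (15, 51), (22, 27), (63, 1)]), (3, [(0, 12), (4, 707), (15, 319), (63, 6)]), (2, [(0, 1), (4, 84), (15, 16), (63, 1)]), (2, [(0, 1), (4, 99), (15, 2), (63, 1)]), (2, [(0,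 1), (4, 101), (63, 1)]), (2, [(64, 101)]), (0, [(63, 2)]), (0, [(72, 2)]), (2, [(70, 101)]), (0, [(63, 2)]), (1, [(68, 11)]), (2, [(76, 101)]), (0, [(63, 2)]), (0, [(63, 2)]), (0, [(72, 2)])],
  [(3, [(0, 220), (7, 519), (23, 388), (81, 3)]), (3, [(0, 270), (7, 417), (23, 469), (81, 3)]), (1, [(0, 10), (25, 1), (81, 1)]), (4, [(0, 570), (4, 2978), (15, 6765), (63, 21), (72, 5)]), (3, [(0, 63), (4, 754), (15, 217), (72, 1)]), (3, [(0, 87), (7, 691), (23, 231), (63, 1), (81, 1)]), (3, [(0, 60), (4, 75), (15, 905), (63, 5)]), (1, [(0, 8), (20, 2), (25, 1), (81, 1)]), (3, [(0, 958), (24, 39), (63, 3), (81, 1)]), (3, [(18, 1), (19, 111), (20, 624), (21, 263), (73, 3)]), (4, [(0, 589), (4, 4669), (15, 5064), (63, 22), (72, 5)]), (3, [(0, 60), (7, 966), (23, 55), (63, 5)]), (4, [(0, 597), (4, 6170), (15, 3557), (63, 23), (72, 6)]), (4, [(0, 601), (4, 7599), (15, 2124), (63, 25), (72, 6)]), (4, [(0, 603),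 (4, 9004), (15, 717), (63, 26), (72, 7)]), (4, [(0, 603), (4, 9716), (63, 26), (64, 2), (72, 7)]), (2, [(63, 5), (64, 95), (81, 1)]), (0, [(63, 2)]), (0, [(72, 2)]), (2, [(63, 2), (70, 94), (72, 11)]), (0, [(63, 2)]), (1, [(63, 11)]), (0, [(72, 2)]), (0, [(63, 2)]), (0, [(63, 2)]), (0, [(72, 2)])],
  [(2, [(0, 33), (7, 32), (23, 54), (81, 1)]), (1, [(0, 10), (25, 1), (81, 1)]), (3, [(0, 72), (4, 206), (15, 762), (63, 3), (72, 1)]), (4, [(0, 796), (4, 6573), (15, 3073), (20, 8), (72, 24)]), (3, [(0, 115), (7, 622), (23, 329), (81, 3)]), (3, [(0, 79), (15, 1013), (63, 4), (81, 3)]), (1, [(0, 7), (20, 3), (25, 1), (81, 1)]), (3, [(0, 965), (24, 32), (63, 4), (68, 1), (81, 2)]), (3, [(18, 1), (19, 79), (20, 532), (21, 387), (73, 4)]), (3, [(0, 74), (4, 373), (15, 593), (63, 3), (72, 1)]), (3, [(0, 74), (7, 832), (23, 145), (63, 4), (81, 2)]), (3, [(0, 75), (4, 521), (15, 444), (63, 3), (72, 1)]), (4,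 [(0, 754), (4, 6628), (15, 3026), (63, 31), (72, 13)]), (4, [(0, 756), (4, 8017), (15, 1635), (63, 33), (72, 14)]), (4, [(0, 757), (4, 9398), (15, 252), (63, 34), (72, 15)]), (2, [(63, 7), (64, 95), (81, 3)]), (0, [(63, 2)]), (0, [(72, 2)]), (1, [(70, 9), (72, 2)]), (0, [(63, 2)]), (1, [(63, 11)]), (0, [(72, 2)]), (0, [(63, 2)]), (0, [(63, 2)]), (0, [(72, 2)])],
  [(0, [(25, 1)]), (1, [(0, 10), (25, 1), (81, 1)]), (1, [(0, 10), (25, 1), (81, 1)]), (1, [(0, 10), (25, 1), (81, 1)]), (1, [(0, 10), (25, 1), (81, 1)]), (0, [(20, 3)]), (0, [(25, 2)]), (0, [(20, 4)]), (1, [(0, 10), (25, 1), (81, 1)]), (1, [(0, 10), (25, 1), (81, 1)]), (1, [(0, 10), (25, 1), (81, 1)]), (1, [(0, 10), (25, 1), (81, 1)]), (1, [(0, 10), (25, 1), (81, 1)]), (1, [(0, 10), (25, 1), (81, 1)]), (0, [(63, 2)]), (0, [(63, 2)]), (0, [(72, 2)]), (0, [(72, 2)]), (0, [(63, 2)]), (0, [(63, 2)]), (0, [(72, 2)]), (0, [(63, 2)]), (0, [(63,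 2)]), (0, [(72, 2)])],
  [(4, [(0, 127), (4, 9911), (63, 2), (64, 2), (72, 4)]), (4, [(0, 142), (4, 9902), (20, 4), (72, 3)]), (4, [(0, 218), (4, 4672), (15, 5350), (63, 14), (72, 1)]), (4, [(0, 124), (4, 8200), (15, 1885), (63, 30), (72, 2)]), (1, [(0, 5), (20, 3), (25, 3), (81, 1)]), (3, [(0, 859), (24, 139), (63, 2), (68, 1), (81, 2)]), (3, [(18, 1), (19, 288), (20, 370), (21, 341), (73, 3)]), (5, [(0, 1319), (4, 98642), (63, 16), (64, 80), (72, 38)]), (4, [(0, 119), (4, 6452), (15, 3693), (63, 41), (72, 1)]), (5, [(0, 1350), (4, 98942), (63, 12), (64, 135), (72, 36)]), (5, [(0, 1362), (4, 98882), (63, 11), (64, 188), (72, 36)]), (5, [(0, 1368), (4, 98826), (63, 10), (64, 240), (72, 36)]), (5, [(0, 1371), (4, 98773), (63, 10), (64, 291), (72, 36)]), (3, [(63, 13), (64, 988), (72, 2)]), (0, [(63, 2)]), (0, [(72, 2)]), (2, [(67, 101)]), (0, [(63, 2)]), (2, [(68, 101)]), (2, [(76, 101)]), (0, [(63,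 2)]), (0, [(63, 2)]), (0, [(72, 2)])],
  [(3, [(0, 15), (4, 905), (15, 83), (20, 1)]), (3, [(4, 1001)]), (5, [(0, 1528), (4, 99658), (63, 29), (64, 103), (72, 107)]), (1, [(0, 3), (20, 6), (25, 2), (81, 1)]), (3, [(0, 870), (23, 1), (24, 128), (25, 1), (81, 3)]), (3, [(18, 1), (19, 185), (20, 185), (21, 629), (73, 3)]), (4, [(0, 148), (4, 9939), (20, 1), (72, 8)]), (4, [(0, 149), (4, 10142), (63, 14), (64, 4), (72, 10)]), (5, [(0, 1504), (4, 98909), (64, 16), (70, 10), (72, 108)]), (3, [(0, 15), (4, 988), (64, 1), (72, 1)]), (5, [(0, 1524), (4, 98793), (64, 119), (70, 10), (72, 108)]), (3, [(0, 15), (4, 987), (64, 2), (72, 1)]), (3, [(63, 14), (64, 985), (70, 1), (72, 8)]), (0, [(63, 2)]), (0, [(72, 2)]), (2, [(67, 101)]), (0, [(63, 2)]), (2, [(68, 101)]), (2, [(71, 101)]), (0, [(72, 2)]), (0, [(63, 2)]), (0, [(72, 2)])],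
  [(3, [(0, 34), (7, 533), (15, 19), (22, 438), (63, 2)]), (3, [(0, 22), (4, 224), (15, 760), (29, 15), (63, 5)]), (1, [(0, 6), (20, 3), (25, 2), (81, 1)]), (3, [(0, 907), (24, 91), (63, 2), (68, 1), (81, 2)]), (3, [(18, 1), (19, 222), (20, 496), (21, 281), (73, 3)]), (4, [(0, 224), (4, 6354), (15, 3551), (63, 15), (72, 2)]), (3, [(0, 22), (6, 191), (15, 748), (29, 63), (63, 6)]), (3, [(0, 22), (4, 780), (15, 198), (63, 2)]), (3, [(0, 23), (4, 936), (15, 54), (63, 2)]), (4, [(0, 227), (4, 9779), (63, 17), (64, 3), (72, 4)]), (3, [(0, 23), (4, 989), (63, 2), (64, 1)]), (2, [(63, 2), (64, 99)]), (0, [(63, 2)]), (0, [(72, 2)]), (3, [(70, 1001)]), (0, [(63, 2)]), (1, [(68, 11)]), (2, [(72, 101)]), (0, [(63, 2)]), (0, [(63, 2)]), (0, [(72, 2)])],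
  [(2, [(0, 1), (4, 58), (15, 42), (63, 1)]), (1, [(0, 5), (20, 3), (25, 3), (81, 1)]), (3, [(0, 864), (24, 131), (63, 5), (68, 1), (81, 2)]), (2, [(19, 34), (20, 49), (21, 36), (73, 1)]), (4, [(0, 128), (4, 9888), (15, 87), (63, 31), (72, 3)]), (2, [(0, 1), (4, 41), (15, 60), (63, 1)]), (3, [(0, 13), (4, 997), (63, 3), (64, 1)]), (4, [(0, 132), (4, 9961), (63, 31), (64, 10), (72, 3)]), (3, [(0, 13), (4, 996), (63, 3), (64, 2)]), (4, [(0, 133), (4, 9951), (63, 31), (64, 21), (72, 3)]), (2, [(64, 101)]), (0, [(63, 2)]), (0, [(72, 2)]), (2, [(67, 101)]), (0, [(63, 2)]), (1, [(68, 11)]), (2, [(76, 101)]), (0, [(63, 2)]), (0, [(63, 2)]), (0, [(72, 2)])],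
  [(0, [(20, 3)]), (0, [(25, 2)]), (0, [(21, 3)]), (1, [(0, 5), (20, 3), (25, 3), (81, 1)]), (1, [(0, 5), (20, 3), (25, 3), (81, 1)]), (1, [(0, 5), (20, 3), (25, 3), (81, 1)]), (1, [(0, 5), (20, 3), (25, 3), (81, 1)]), (1, [(0, 5), (20, 3), (25, 3), (81, 1)]), (1, [(0, 5), (20, 3), (25, 3), (81, 1)]), (0, [(72, 2)]), (0, [(63, 2)]), (0, [(72, 2)]), (0, [(73, 2)]), (0, [(63, 2)]), (0, [(63, 2)]), (0, [(73, 2)]), (0, [(72, 2)]), (0, [(63, 2)]), (0, [(73, 2)])],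
  [(3, [(0, 998), (24, 1), (63, 3), (81, 1)]), (0, [(20, 5)]), (3, [(0, 862), (24, 135), (63, 3), (68, 1), (81, 2)]), (2, [(0, 104), (24, 16), (63, 1)]), (3, [(0, 864), (24, 133), (63, 4), (68, 1), (81, 2)]), (3, [(0, 864), (24, 132), (63, 4), (68, 1), (81, 2)]), (3, [(0, 864), (24, 132), (63, 5), (68, 1), (81, 2)]), (2, [(0, 104), (24, 16), (63, 1)]), (0, [(63, 2)]), (0, [(63, 2)]), (0, [(63, 2)]), (0, [(63, 2)]), (0, [(63, 2)]), (0, [(63, 2)]), (0, [(63, 2)]), (0, [(63, 2)]), (0, [(63, 2)]), (0, [(63, 2)])],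
  [(0, [(21, 4)]), (3, [(18, 1), (19, 292), (20, 390), (21, 316), (73, 4)]), (2, [(19, 29), (20, 41), (21, 30), (73, 1)]), (3, [(18, 1), (19, 294), (20, 398), (21, 306), (73, 4)]), (2, [(19, 35), (20, 48), (21, 36), (73, 1)]), (2, [(19, 35), (20, 48), (21, 36), (73, 1)]), (2, [(19, 30), (20, 40), (21, 30), (73, 1)]), (0, [(73, 2)]), (0, [(63, 2)]), (0, [(73, 2)]), (0, [(73, 2)]), (0, [(72, 2)]), (0, [(72, 2)]), (0, [(73, 2)]), (0, [(73, 2)]), (0, [(72, 2)]), (0, [(73, 2)])],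
  [(5, [(0, 1381), (4, 98920), (63, 7), (64, 143), (72, 35)]), (4, [(0, 123), (4, 8132), (15, 1874), (63, 41), (72, 2)]), (5, [(0, 1408), (4, 98848), (63, 4), (64, 199), (72, 34)]), (3, [(0, 14), (4, 984), (64, 3)]), (4, [(0, 143), (4, 9912), (64, 31), (72, 3)]), (3, [(0, 14), (4, 983), (64, 4)]), (3, [(63, 14), (64, 988), (70, 1), (72, 2)]), (0, [(63, 2)]), (0, [(72, 2)]), (2, [(67, 101)]), (0, [(63, 2)]), (2, [(68, 101)]), (2, [(76, 101)]), (0, [(63, 2)]), (0, [(63, 2)]), (0, [(72, 2)])],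
  [(2, [(0, 1), (6, 10), (15, 62), (29, 29), (63, 1)]), (4, [(0, 125), (4, 9700), (15, 303), (63, 42), (72, 3)]), (4, [(0, 126), (4, 9998), (63, 42), (64, 4), (72, 3)]), (4, [(0, 127), (4, 9992), (63, 42), (64, 9), (72, 3)]), (4, [(0, 127), (4, 9987), (63, 42), (64, 14), (72, 3)]), (2, [(64, 101)]), (0, [(63, 2)]), (0, [(72, 2)]), (2, [(67, 101)]), (0, [(63, 2)]), (1, [(68, 11)]), (2, [(76, 101)]), (0, [(63, 2)]), (0, [(63, 2)]), (0, [(72, 2)])],
  [(3, [(0, 14), (4, 984), (64, 3)]), (4, [(0, 145), (4, 9872), (64, 31), (72, 3)]), (3, [(0, 14), (4, 983), (64, 4)]), (4, [(0, 146), (4, 9861), (64, 41), (72, 3)]), (3, [(63, 14), (64, 987), (70, 1), (72, 2)]), (0, [(63, 2)]), (0, [(72, 2)]), (2, [(67, 101)]), (0, [(63, 2)]), (2, [(68, 101)]), (2, [(76, 101)]), (0, [(63, 2)]), (0, [(63, 2)]), (0, [(72, 2)])],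
  [(4, [(0, 146), (4, 9866), (64, 36), (72, 3)]), (4, [(0, 147), (4, 9860), (64, 41), (72, 3)]), (4, [(0, 147), (4, 9855), (64, 46), (72, 3)]), (3, [(63, 14), (64, 987), (70, 1), (72, 2)]), (0, [(63, 2)]), (0, [(72, 2)]), (2, [(67, 101)]), (0, [(63, 2)]), (2, [(68, 101)]), (2, [(76, 101)]), (0, [(63, 2)]), (0, [(63, 2)]), (0, [(72, 2)])],
  [(4, [(0, 147), (4, 9855), (64, 46), (72, 3)]), (4, [(0, 148), (4, 9849), (64, 51), (72, 3)]), (3, [(63, 15), (64, 987), (70, 2), (72, 2)]), (0, [(63, 2)]), (0, [(72, 2)]), (2, [(67, 101)]), (0, [(63, 2)]), (2, [(68, 101)]), (2, [(76, 101)]), (0, [(63, 2)]), (0, [(63, 2)]), (0, [(72, 2)])],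
  [(4, [(0, 148), (4, 9884), (64, 56), (72, 3)]), (3, [(63, 15), (64, 987), (70, 2), (72, 2)]), (0, [(63, 2)]), (0, [(72, 2)]), (2, [(67, 101)]), (0, [(63, 2)]), (2, [(68, 101)]), (2, [(76, 101)]), (0, [(63, 2)]), (0, [(63, 2)]), (0, [(72, 2)])],
  [(2, [(64, 49), (70, 50), (72, 1)]), (0, [(63, 1)]), (0, [(72, 1)]), (1, [(65, 5), (69, 5)]), (0, [(63, 1)]), (1, [(63, 1), (64, 4), (68, 5)]), (1, [(69, 3), (72, 2), (73, 1), (78, 4)]), (0, [(72, 1)]), (0, [(63, 1)]), (0, [(73, 1)])],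
  [(0, [(63, 1)]), (0, [(63, 1)]), (0, [(63, 1)]), (0, [(63, 1)]), (0, [(63, 1)]), (0, [(63, 1)]), (0, [(63, 1)]), (0, [(63, 1)]), (0, [(63, 1)])],
  [(0, [(73, 1)]), (0, [(73, 1)]), (0, [(72, 1)]), (0, [(63, 1)]), (0, [(73, 1)]), (0, [(72, 1)]), (0, [(63, 1)]), (0, [(73, 1)])],
  [(1, [(71, 5), (74, 5), (78, 1)]), (0, [(72, 1)]), (1, [(63, 1), (64, 4), (70, 4), (72, 1)]), (0, [(73, 1)]), (0, [(73, 1)]), (0, [(81, 1)]), (0, [(73, 1)])],
  [(0, [(63, 1)]), (0, [(63, 1)]), (0, [(72, 1)]), (0, [(63, 1)]), (0, [(63, 1)]), (0, [(72, 1)])],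
  [(0, [(63, 1)]), (0, [(72, 1)]), (0, [(63, 1)]), (0, [(63, 1)]), (0, [(72, 1)])],
  [(0, [(73, 1)]), (0, [(73, 1)]), (0, [(72, 1)]), (0, [(73, 1)])],
  [(0, [(72, 1)]), (0, [(63, 1)]), (0, [(73, 1)])],
  [(0, [(63, 1)]), (0, [(72, 1)])],
  [(0, [(73, 1)])]]

set_option maxRecDepth 100000 in
theorem okUU : chkTri LD LU cUU = true := by decide +kernel

end Pool.Agent.Lib.MP_dbb03c_co.Full
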