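import Pool.Agent.Lib.MP_dbb03c_co.Full.Data

/-! # Certificate data (generated) -/

namespace Pool.Agent.Lib.MP_dbb03c_co.Full

set_option maxRecDepth 100000 in
def cUG0 : List (List Ct) := [
  [(0, [(30, 1), (63, 1)]), (0, [(0, 1), (63, 1)]), (0, [(0, 1), (63, 1)]), (0, [(0, 1), (63, 1)]), (0, [(0, 1), (63, 1)]), (0, [(0, 1), (63, 1)]), (0, [(0, 1), (63, 1)]), (0, [(0, 1), (63, 1)]), (0, [(0, 1), (63, 1)]), (0, [(0, 1), (63, 1)]), (0, [(0, 1), (63, 1)]), (0, [(0, 1), (63, 1)]), (0, [(0, 1), (63, 1)]), (0, [(0, 1), (63, 1)]), (0, [(0, 1), (63, 1)]), (0, [(0, 1), (63, 1)]), (0, [(0, 1), (63, 1)]), (0, [(0, 1), (63, 1)]), (0, [(0, 1), (63, 1)]), (0, [(0, 1), (63, 1)]), (0, [(0, 1), (63, 1)]), (0, [(0, 1), (63, 1)]), (0, [(0, 1), (63, 1)]), (0, [(0, 1), (63, 1)]), (0, [(30, 1), (63, 1)]), (0, [(30, 1), (63, 1)]), (0, [(30, 1), (63, 1)]), (0, [(30, 1), (63, 1)]), (0, [(30, 1), (63, 1)]), (0, [(30, 1),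 (63, 1)]), (0, [(30, 1), (63, 1)]), (0, [(30, 1), (63, 1)]), (0, [(30, 1), (63, 1)]), (0, [(30, 1), (63, 1)]), (0, [(30, 1), (63, 1)]), (0, [(30, 1), (63, 1)]), (0, [(30, 1), (63, 1)]), (0, [(30, 1), (63, 1)]), (0, [(30, 1), (63, 1)]), (0, [(30, 1), (63, 1)]), (0, [(30, 1), (63, 1)]), (0, [(30, 1), (63, 1)]), (0, [(30, 1), (63, 1)]), (0, [(30, 1), (63, 1)]), (0, [(30, 1), (63, 1)]), (0, [(30, 1), (63, 1)]), (0, [(30, 1), (63, 1)]), (0, [(63, 1)]), (0, [(63, 2)]), (0, [(0, 1)]), (0, [(0, 1), (63, 1)]), (0, [(0, 1), (63, 1)]), (0, [(0, 1), (63, 1)]), (0, [(0, 1), (63, 1)]), (0, [(0, 1), (63, 1)]), (0, [(0, 1), (63, 1)]), (0, [(0, 1), (63, 1)]), (0, [(0, 1), (63, 1)]), (0, [(0, 1), (63, 1)]), (0, [(0, 1), (63, 1)]), (0, [(0, 1), (63, 1)]), (0, [(0, 1), (63, 1)]), (0, [(0, 1), (63, 1)]), (0, [(0, 1), (63, 1)]), (0, [(0, 1), (63, 1)]), (0, [(0, 1), (63, 1)]), (0, [(0, 1), (63, 1)]), (0, [(0, 1), (63, 1)]),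 (0, [(0, 1), (63, 1)]), (0, [(0, 1), (63, 1)]), (0, [(0, 1), (63, 1)]), (0, [(0, 1), (63, 1)]), (0, [(0, 1), (63, 1)]), (0, [(0, 1), (63, 1)]), (0, [(0, 1), (63, 1)]), (0, [(0, 1), (63, 1)]), (0, [(0, 1), (63, 1)]), (0, [(0, 1), (63, 1)]), (0, [(0, 1), (63, 1)]), (0, [(30, 1)]), (0, [(30, 1), (63, 1)]), (0, [(30, 1), (63, 1)]), (0, [(30, 1), (63, 1)]), (0, [(30, 1), (63, 1)]), (0, [(30, 1), (63, 1)]), (0, [(30, 1), (63, 1)]), (0, [(30, 1), (63, 1)]), (0, [(30, 1), (63, 1)]), (0, [(30, 1), (63, 1)]), (0, [(30, 1), (63, 1)]), (0, [(30, 1), (63, 1)]), (0, [(30, 1), (63, 1)]), (0, [(30, 1), (63, 1)]), (0, [(30, 1), (63, 1)]), (0, [(30, 1), (63, 1)]), (0, [(30, 1), (63, 1)]), (0, [(30, 1), (63, 1)]), (0, [(30, 1), (63, 1)]), (0, [(30, 1), (63, 1)]), (0, [(30, 1), (63, 1)]), (0, [(30, 1), (63, 1)]), (0, [(30, 1), (63, 1)]), (0, [(30, 1), (63, 1)]), (0, [(30, 1), (63, 1)]), (0, [(30, 1), (63, 1)]), (0, [(30,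 1), (63, 1)]), (0, [(30, 1), (63, 1)]), (0, [(30, 1), (63, 1)]), (0, [(30, 1), (63, 1)]), (0, [(30, 1), (63, 1)]), (0, [(30, 1), (63, 1)]), (0, [(30, 1), (63, 1)]), (0, [(63, 1)]), (0, [(63, 1)]), (0, [(63, 2)]), (0, [(63, 2)]), (0, [(63, 2)]), (0, [(63, 1)]), (0, [(63, 2)]), (0, [(63, 1)]), (0, [(63, 2)]), (0, [(63, 1)]), (0, [(63, 2)]), (0, [(63, 2)]), (0, [(63, 1)]), (0, [(63, 1)]), (0, [(63, 2)]), (0, [(63, 2)]), (0, [(63, 2)]), (0, [(63, 2)]), (0, [(63, 1)]), (0, [(63, 2)])],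
  [(3, [(32, 1001)]), (4, [(17, 9810), (18, 227), (20, 20), (80, 5)]), (3, [(13, 1001)]), (3, [(13, 1001)]), (4, [(17, 9980), (18, 62), (20, 14), (80, 5)]), (3, [(17, 998), (18, 9), (20, 1), (80, 1)]), (4, [(0, 284), (7, 8150), (23, 1720), (63, 14), (81, 1)]), (3, [(0, 14), (7, 169), (22, 815), (23, 12), (63, 1)]), (3, [(0, 21), (7, 392), (22, 576), (23, 24), (63, 1)]), (3, [(0, 25), (7, 490), (15, 133), (22, 366), (63, 2)]), (3, [(0, 28), (7, 69), (15, 919), (63, 3)]), (4, [(17, 9807), (18, 226), (20, 20), (80, 5)]), (3, [(13, 1001)]), (3, [(13, 1001)]), (4, [(17, 10038), (20, 17), (72, 1), (80, 4)]), (3, [(17, 1002), (18, 5), (20, 1), (80, 1)]), (4, [(17, 10007), (18, 66), (20, 17), (80, 15)]), (4, [(17, 9929), (18, 44), (20, 18), (80, 21)]), (4, [(0, 303), (4, 1127), (15, 8735), (63, 19), (72, 2)]), (4, [(0, 210), (7, 373), (15, 9664), (63, 13), (81, 3)]), (3, [(0, 25), (4, 143), (15, 834), (63,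 2)]), (3, [(0, 28), (4, 269), (15, 719), (63, 2)]), (4, [(0, 291), (4, 3921), (15, 5946), (63, 19), (72, 3)]), (4, [(0, 296), (4, 5197), (15, 4665), (63, 21), (72, 4)]), (4, [(42, 10003)]), (2, [(42, 36), (47, 46), (57, 19)]), (3, [(42, 1001)]), (3, [(42, 1001)]), (3, [(57, 1001)]), (4, [(30, 35), (47, 9322), (54, 43), (57, 683), (72, 3)]), (3, [(42, 1002)]), (2, [(47, 101)]), (2, [(47, 101)]), (4, [(30, 30), (42, 8101), (47, 1912), (54, 49), (72, 3)]), (3, [(57, 1001)]), (3, [(42, 1002)]), (3, [(57, 1002)]), (2, [(57, 101)]), (2, [(57, 101)]), (4, [(30, 23), (54, 17), (57, 10090), (72, 3), (81, 2)]), (3, [(30, 2), (54, 1), (57, 1019), (81, 1)]), (3, [(42, 1001)]), (2, [(47, 101)]), (2, [(47, 101)]), (4, [(30, 27), (42, 10007), (54, 61), (72, 3)]), (4, [(30, 28), (42, 10001), (54, 62), (72, 8)]), (4, [(30, 29), (42, 9996), (54, 61), (72, 13)]), (2, [(63, 3), (64, 97), (81, 1)]), (2, [(67, 99), (72,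 2), (80, 1)]), (0, [(0, 1), (63, 1)]), (2, [(22, 101)]), (3, [(13, 1002)]), (4, [(0, 207), (7, 6956), (20, 2), (23, 2958), (81, 5)]), (4, [(0, 303), (4, 6556), (15, 3312), (63, 19), (72, 5)]), (3, [(17, 1001)]), (5, [(0, 924), (7, 75800), (20, 11), (23, 24051), (81, 4)]), (4, [(0, 581), (7, 5947), (20, 18), (23, 3751), (81, 9)]), (3, [(17, 1001)]), (3, [(17, 1001)]), (5, [(1, 1), (17, 90534), (18, 9698), (20, 267), (80, 47)]), (3, [(17, 865), (18, 136), (20, 4), (80, 1)]), (0, [(18, 1)]), (4, [(17, 8117), (18, 1867), (20, 65), (80, 15)]), (3, [(13, 951), (17, 40), (20, 69)]), (4, [(0, 305), (7, 6601), (20, 13), (23, 3249), (81, 4)]), (2, [(18, 101)]), (4, [(18, 10024), (20, 104), (21, 46), (73, 1), (80, 10)]), (3, [(18, 940), (20, 25), (21, 89), (80, 2)]), (3, [(19, 960), (21, 43), (73, 1), (74, 2)]), (0, [(20, 4)]), (0, [(21, 3)]), (3, [(0, 61), (7, 448), (23, 522), (81, 1)]), (4, [(0, 454), (23,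 9715), (25, 8), (81, 18)]), (3, [(0, 589), (24, 609), (63, 2)]), (1, [(0, 6), (20, 3), (25, 2), (81, 1)]), (1, [(20, 6), (21, 3), (26, 2), (80, 1)]), (3, [(21, 656), (27, 341), (73, 4), (82, 1)]), (0, [(21, 5)]), (4, [(0, 294), (4, 4351), (15, 5525), (63, 17), (72, 4)]), (0, [(30, 1), (63, 1)]), (3, [(30, 7), (42, 985), (54, 10), (72, 1)]), (4, [(30, 77), (47, 8591), (54, 79), (57, 1361), (72, 8)]), (3, [(30, 7), (42, 30), (47, 969), (54, 4), (72, 1)]), (3, [(47, 1001)]), (3, [(47, 1001)]), (3, [(47, 1001)]), (3, [(47, 1001)]), (3, [(30, 3), (42, 1000), (54, 6), (72, 2)]), (3, [(47, 1002)]), (2, [(47, 67), (54, 5), (57, 31)]), (4, [(30, 105), (47, 8370), (54, 22), (57, 1599), (72, 5)]), (3, [(30, 17), (47, 772), (54, 11), (57, 201), (72, 2)]), (3, [(43, 319), (53, 659), (55, 57), (73, 2)]), (2, [(30, 1), (47, 74), (57, 26)]), (3, [(47, 1001)]), (3, [(30, 6), (47, 620), (54, 20), (57, 369), (72, 1)]),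 (4, [(30, 154), (47, 5439), (54, 259), (57, 4332), (72, 15)]), (3, [(53, 1012), (55, 4), (73, 1)]), (2, [(42, 3), (47, 59), (57, 39)]), (4, [(30, 23), (47, 2415), (54, 9), (57, 7678), (72, 12)]), (3, [(30, 2), (54, 1), (57, 1005), (81, 1)]), (3, [(30, 72), (52, 959), (63, 2)]), (3, [(53, 938), (55, 119), (73, 2)]), (0, [(54, 4)]), (0, [(55, 3)]), (3, [(57, 1001)]), (3, [(30, 5), (54, 16), (57, 984), (81, 2)]), (2, [(55, 26), (58, 89), (73, 1), (82, 1)]), (1, [(54, 6), (55, 3), (59, 2), (80, 1)]), (3, [(55, 361), (58, 638), (82, 2)]), (1, [(30, 6), (54, 3), (61, 2), (81, 1)]), (2, [(57, 101)]), (0, [(63, 2)]), (2, [(63, 3), (64, 97), (81, 1)]), (2, [(67, 99), (72, 2), (80, 1)]), (2, [(67, 97), (72, 5), (80, 1)]), (2, [(67, 95), (72, 7), (80, 1)]), (1, [(63, 4), (68, 8)]), (2, [(71, 101)]), (2, [(70, 94), (72, 10)]), (1, [(69, 3), (71, 4), (73, 4)]), (0, [(72, 2)]), (0, [(73, 2)]), (1, [(73, 11)]),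 (0, [(63, 2)]), (1, [(72, 11)]), (1, [(74, 11)]), (1, [(73, 11)]), (0, [(73, 2)]), (0, [(72, 2)]), (0, [(63, 2)]), (0, [(73, 2)])],
  [(2, [(57, 101)]), (4, [(17, 9522), (18, 546), (20, 8), (80, 26)]), (3, [(17, 1004), (67, 2)]), (4, [(17, 9874), (18, 203), (20, 1), (80, 21)]), (5, [(1, 3), (17, 96763), (18, 3502), (20, 36), (80, 255)]), (4, [(17, 9581), (18, 395), (20, 5), (80, 31)]), (4, [(0, 216), (23, 9981), (63, 1), (81, 18)]), (4, [(0, 109), (7, 177), (23, 9888), (63, 3), (81, 3)]), (4, [(0, 162), (7, 435), (23, 9594), (63, 5), (81, 7)]), (3, [(0, 18), (7, 108), (23, 877), (63, 1), (81, 1)]), (3, [(0, 19), (7, 213), (23, 789), (63, 2), (81, 1)]), (4, [(17, 9517), (18, 545), (20, 8), (80, 25)]), (3, [(13, 169), (17, 835), (72, 2)]), (5, [(1, 5), (17, 100012), (18, 263), (20, 69), (80, 206)]), (5, [(1, 5), (17, 97568), (18, 2656), (20, 60), (80, 256)]), (5, [(1, 5), (17, 96614), (18, 3560), (20,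 59), (80, 307)]), (5, [(1, 6), (17, 96385), (18, 3740), (20, 59), (80, 358)]), (4, [(17, 9693), (18, 358), (20, 5), (80, 41)]), (4, [(0, 205), (7, 3578), (23, 6439), (63, 15), (81, 12)]), (4, [(0, 138), (7, 2154), (23, 7900), (63, 3), (81, 13)]), (4, [(0, 167), (7, 3952), (23, 6095), (63, 16), (81, 9)]), (4, [(0, 178), (7, 5467), (23, 4581), (63, 26), (81, 6)]), (3, [(0, 18), (7, 697), (23, 309), (63, 4)]), (3, [(0, 18), (7, 852), (23, 155), (63, 5)]), (3, [(30, 1), (54, 2), (57, 1008), (72, 1), (81, 1)]), (4, [(30, 3), (54, 13), (57, 10110), (72, 2), (81, 3)]), (5, [(30, 66), (54, 185), (57, 100940), (72, 37), (81, 68)]), (4, [(30, 9), (54, 21), (57, 10084), (72, 4), (81, 12)]), (3, [(30, 1), (54, 2), (57, 1018), (81, 2)]), (3, [(30, 2), (54, 7), (57, 1004), (72, 2)]), (4, [(30, 17), (47, 175), (54, 12), (57, 9931), (72, 5)]), (3, [(30, 2), (47, 43), (54, 2), (57, 976), (72, 1)]), (3, [(30, 2), (47,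 115), (54, 4), (57, 880), (72, 2)]), (4, [(30, 23), (47, 2337), (54, 46), (57, 7748), (72, 22)]), (3, [(30, 1), (54, 2), (57, 1007), (81, 2)]), (4, [(30, 15), (54, 7), (57, 10109), (61, 2), (81, 5)]), (3, [(30, 1), (54, 1), (57, 1009), (81, 1)]), (3, [(30, 1), (54, 2), (57, 1008), (81, 2)]), (3, [(54, 2), (57, 1017), (81, 2)]), (4, [(30, 8), (54, 20), (57, 10068), (61, 7), (81, 26)]), (3, [(54, 1), (57, 1016), (81, 3)]), (3, [(30, 2), (47, 398), (54, 6), (57, 611), (72, 2)]), (4, [(30, 11), (47, 2342), (54, 61), (57, 7755), (72, 12)]), (4, [(30, 17), (47, 4431), (54, 48), (57, 5683), (72, 18)]), (4, [(30, 18), (47, 6180), (54, 43), (57, 3948), (72, 24)]), (3, [(30, 1), (47, 790), (54, 3), (57, 223), (72, 3)]), (4, [(30, 17), (47, 9688), (54, 34), (57, 475), (72, 37)]), (3, [(63, 19), (64, 974), (68, 2), (81, 17)]), (2, [(67, 99), (72, 1), (80, 1)]), (0, [(0, 1), (63, 1)]), (2, [(23, 101)]), (4, [(10,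 727), (13, 6843), (16, 2444), (65, 14)]), (3, [(0, 15), (23, 1013), (81, 1)]), (3, [(0, 18), (7, 882), (15, 151), (63, 6)]), (3, [(16, 624), (17, 89), (18, 293), (65, 2)]), (4, [(0, 63), (23, 10066), (25, 7), (81, 5)]), (4, [(0, 423), (23, 9810), (25, 49), (81, 18)]), (3, [(16, 74), (17, 179), (18, 758), (65, 2)]), (3, [(17, 912), (18, 90), (80, 2)]), (4, [(17, 8616), (18, 1396), (20, 12), (80, 25)]), (3, [(17, 817), (18, 187), (20, 2), (80, 3)]), (3, [(18, 1010), (21, 1), (26, 1), (80, 2)]), (4, [(17, 7513), (18, 2468), (20, 40), (80, 35)]), (4, [(1, 1), (13, 5855), (17, 3875), (20, 505), (72, 23)]), (3, [(0, 21), (23, 1010), (25, 3), (81, 1)]), (3, [(18, 1017), (21, 24), (73, 2)]), (3, [(18, 1014), (20, 5), (21, 8), (80, 3)]), (3, [(18, 936), (20, 11), (21, 105), (80, 4)]), (3, [(19, 975), (21, 32), (74, 4)]), (0, [(0, 1), (20, 1), (72, 1)]), (1, [(21, 57)]), (4, [(0, 458), (23, 9798), (25, 8),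 (81, 18)]), (3, [(0, 34), (23, 975), (81, 4)]), (3, [(0, 501), (24, 694), (63, 5)]), (1, [(0, 5), (20, 4), (25, 2), (81, 1)]), (1, [(20, 5), (21, 4), (26, 2), (80, 1)]), (2, [(21, 70), (27, 49), (73, 1)]), (2, [(21, 101), (27, 19), (73, 1)]), (4, [(0, 181), (7, 7507), (23, 2560), (63, 36), (81, 6)]), (0, [(30, 1), (63, 1)]), (3, [(30, 5), (47, 327), (54, 10), (57, 677), (72, 3)]), (4, [(30, 53), (54, 109), (57, 9986), (72, 20), (81, 4)]), (3, [(30, 5), (47, 47), (54, 7), (57, 970), (72, 2)]), (4, [(30, 43), (54, 214), (57, 9951), (72, 14), (81, 2)]), (4, [(30, 47), (54, 54), (57, 10043), (72, 15), (81, 1)]), (3, [(54, 14), (57, 1013), (72, 1)]), (3, [(30, 3), (54, 3), (57, 1007), (72, 1)]), (3, [(30, 1), (42, 587), (47, 429), (54, 5), (72, 4)]), (4, [(54, 64), (57, 10069), (59, 1), (80, 5)]), (3, [(54, 43), (57, 983), (59, 1), (80, 2)]), (4, [(30, 78), (54, 45), (57, 10008), (72, 16), (81, 5)]), (3,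 [(30, 12), (54, 14), (57, 974), (72, 3), (81, 1)]), (3, [(53, 990), (55, 39), (73, 4)]), (4, [(30, 76), (54, 24), (57, 10028), (72, 2), (81, 9)]), (3, [(54, 21), (57, 1010), (59, 1), (80, 1)]), (3, [(30, 3), (54, 24), (57, 975), (72, 1), (81, 2)]), (3, [(30, 10), (54, 31), (57, 979), (72, 2), (81, 2)]), (4, [(53, 10114), (71, 12), (73, 14)]), (3, [(30, 2), (54, 1), (57, 1005), (81, 1)]), (3, [(30, 1), (54, 2), (57, 1021), (81, 3)]), (4, [(30, 8), (54, 19), (57, 10033), (61, 10), (81, 31)]), (3, [(30, 53), (52, 966), (63, 4)]), (3, [(53, 949), (55, 89), (73, 4)]), (0, [(30, 1), (54, 1), (72, 1)]), (1, [(55, 57)]), (4, [(30, 15), (54, 19), (57, 9966), (61, 5), (81, 16)]), (4, [(30, 18), (54, 186), (57, 9812), (61, 9), (81, 37)]), (3, [(55, 198), (58, 901), (82, 4)]), (1, [(54, 5), (55, 4), (59, 2), (80, 1)]), (3, [(55, 366), (58, 853), (82, 4)]), (1, [(30, 5), (54, 4), (61, 2), (81, 1)]), (3, [(30,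 1), (54, 1), (57, 1012), (81, 2)]), (0, [(63, 2)]), (3, [(63, 19), (64, 975), (68, 2), (81, 17)]), (2, [(67, 99), (72, 1), (80, 1)]), (2, [(67, 98), (72, 3), (80, 1)]), (2, [(67, 96), (72, 5), (80, 2)]), (1, [(63, 3), (68, 9)]), (2, [(71, 101)]), (2, [(67, 95), (72, 9)]), (1, [(71, 8), (73, 4)]), (0, [(72, 2)]), (0, [(73, 2)]), (1, [(73, 5), (74, 7)]), (0, [(63, 2)]), (3, [(72, 1001)]), (1, [(74, 11)]), (1, [(73, 6), (74, 6)]), (0, [(73, 2)]), (0, [(72, 2)]), (0, [(63, 2)]), (1, [(73, 11)])],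
  [(3, [(46, 1001)]), (4, [(17, 8460), (18, 1642), (20, 23), (80, 4)]), (2, [(17, 101)]), (3, [(17, 1001)]), (4, [(17, 8696), (18, 1407), (20, 16), (80, 5)]), (4, [(17, 8528), (18, 1458), (20, 18), (80, 10)]), (4, [(0, 354), (7, 7384), (23, 2449), (63, 2), (81, 12)]), (4, [(0, 187), (7, 4117), (22, 4312), (23, 1515), (63, 3)]), (3, [(0, 27), (7, 721), (22, 89), (23, 179), (63, 1)]), (4, [(0, 308), (7, 8604), (23, 1269), (63, 12), (81, 2)]), (4, [(0, 323), (7, 9625), (23, 243), (63, 18), (81, 3)]), (4, [(17, 8455), (18, 1640), (20, 23), (80, 4)]), (2, [(17, 101)]), (3, [(17, 1001)]), (4, [(17, 8702), (18, 1287), (20, 20), (80, 5)]), (3, [(17, 862), (18, 142), (20, 2), (80, 1)]), (4, [(17, 8539), (18, 1439), (20, 20), (80, 15)]), (3, [(17, 859), (18, 144), (20, 2), (80, 2)]), (4, [(0, 368), (4, 451), (15, 9383), (63, 18), (72, 5)]), (4, [(0, 234), (7, 9703), (23, 221), (63, 4), (81, 6)]), (3, [(0, 31),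 (4, 77), (15, 910), (63, 2)]), (4, [(0, 340), (4, 2004), (15, 7846), (63, 17), (72, 5)]), (4, [(0, 354), (4, 3228), (15, 6612), (63, 18), (72, 6)]), (4, [(0, 360), (4, 4497), (15, 5338), (63, 20), (72, 7)]), (3, [(47, 1001)]), (2, [(47, 101)]), (3, [(47, 1001)]), (3, [(47, 1001)]), (3, [(57, 1001)]), (4, [(30, 40), (47, 8362), (54, 87), (57, 1614), (72, 2)]), (2, [(47, 101)]), (2, [(47, 101)]), (2, [(47, 101)]), (4, [(30, 36), (42, 4128), (47, 5875), (54, 74), (72, 5)]), (3, [(57, 1001)]), (0, [(46, 1)]), (3, [(47, 1001)]), (2, [(57, 101)]), (2, [(57, 101)]), (3, [(30, 2), (54, 4), (57, 1006), (81, 1)]), (3, [(30, 2), (54, 4), (57, 1006), (81, 1)]), (2, [(42, 101)]), (2, [(47, 101)]), (2, [(47, 101)]), (4, [(30, 30), (42, 9991), (54, 100), (72, 3)]), (3, [(30, 3), (42, 998), (54, 10), (72, 1)]), (4, [(30, 33), (42, 9979), (54, 102), (72, 13)]), (2, [(63, 3), (64, 97), (81, 2)]), (2, [(67, 97), (72,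 3), (80, 1)]), (0, [(0, 1), (63, 1)]), (3, [(22, 1001)]), (3, [(12, 1001)]), (4, [(0, 256), (7, 6102), (20, 5), (23, 3783), (81, 3)]), (4, [(0, 368), (4, 5847), (15, 3993), (63, 18), (72, 8)]), (3, [(17, 1001)]), (3, [(0, 12), (7, 673), (23, 323)]), (4, [(0, 698), (7, 5099), (20, 28), (23, 4537), (81, 8)]), (2, [(18, 101)]), (3, [(17, 1001)]), (4, [(17, 7365), (18, 2670), (20, 30), (80, 4)]), (3, [(17, 678), (18, 324), (20, 5), (80, 1)]), (2, [(18, 101)]), (4, [(17, 6025), (18, 3973), (20, 75), (80, 14)]), (3, [(17, 1001)]), (4, [(0, 372), (7, 5749), (20, 21), (23, 4064), (81, 3)]), (2, [(18, 101)]), (3, [(18, 1013), (20, 11), (21, 16), (80, 1)]), (3, [(18, 920), (20, 25), (21, 132), (80, 2)]), (3, [(19, 967), (21, 52), (74, 2)]), (0, [(20, 4)]), (0, [(21, 3)]), (4, [(0, 730), (7, 3642), (20, 6), (23, 5992), (81, 5)]), (3, [(0, 54), (23, 948), (25, 1), (81, 2)]), (3, [(0, 646), (24, 551), (63, 2)]),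 (1, [(0, 6), (20, 4), (25, 2), (81, 1)]), (1, [(20, 6), (21, 4), (26, 2), (80, 1)]), (3, [(21, 698), (27, 300), (73, 4), (82, 1)]), (0, [(21, 5)]), (4, [(0, 357), (4, 3655), (15, 6193), (63, 16), (72, 7)]), (0, [(30, 1), (63, 1)]), (3, [(30, 8), (42, 793), (47, 187), (54, 15), (72, 1)]), (4, [(30, 88), (47, 7630), (54, 137), (57, 2282), (72, 7)]), (3, [(30, 8), (47, 898), (54, 9), (57, 85), (72, 1)]), (3, [(47, 1001)]), (3, [(47, 1001)]), (3, [(47, 1001)]), (3, [(47, 1001)]), (4, [(30, 33), (42, 9983), (54, 107), (72, 16)]), (3, [(47, 1002)]), (2, [(47, 57), (54, 6), (57, 39)]), (4, [(30, 123), (47, 7414), (54, 57), (57, 2524), (72, 5)]), (3, [(30, 20), (47, 686), (54, 18), (57, 295), (72, 2)]), (3, [(53, 977), (55, 68), (73, 2)]), (3, [(47, 1001)]), (4, [(47, 10006)]), (4, [(30, 62), (47, 5239), (54, 302), (57, 4585), (72, 4)]), (3, [(30, 17), (47, 449), (54, 39), (57, 521), (72, 2)]), (3, [(53,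 1009), (55, 7), (73, 1)]), (3, [(47, 1001)]), (4, [(30, 27), (47, 1464), (54, 36), (57, 8609), (72, 11)]), (3, [(30, 2), (54, 4), (57, 1011), (81, 1)]), (3, [(30, 87), (52, 951), (63, 2)]), (3, [(53, 926), (55, 143), (73, 2)]), (0, [(54, 4)]), (0, [(55, 3)]), (3, [(57, 1001)]), (3, [(30, 5), (54, 24), (57, 971), (81, 2)]), (2, [(55, 31), (58, 87), (73, 1), (82, 1)]), (1, [(54, 6), (55, 4), (59, 2), (80, 1)]), (3, [(55, 485), (58, 713), (82, 2)]), (1, [(30, 6), (54, 4), (61, 2), (81, 1)]), (2, [(57, 101)]), (0, [(63, 2)]), (2, [(63, 3), (64, 97), (81, 2)]), (2, [(67, 97), (72, 3), (80, 1)]), (2, [(67, 96), (72, 6), (80, 2)]), (2, [(67, 94), (72, 9), (80, 2)]), (1, [(63, 4), (68, 8)]), (2, [(71, 101)]), (2, [(67, 64), (70, 29), (72, 14)]), (1, [(71, 7), (73, 5)]), (0, [(72, 2)]), (0, [(73, 2)]), (1, [(73, 11)]), (0, [(63, 2)]), (1, [(72, 11)]), (1, [(74, 11)]), (1, [(73, 11)]), (0, [(73, 2)]), (0, [(72,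 2)]), (0, [(63, 2)]), (0, [(73, 2)])],
  [(2, [(57, 101)]), (3, [(17, 790), (18, 213), (20, 5), (80, 1)]), (3, [(17, 1001)]), (4, [(17, 8424), (18, 1677), (20, 33), (80, 4)]), (3, [(17, 815), (18, 188), (20, 4), (80, 1)]), (4, [(17, 8126), (18, 1966), (20, 46), (80, 14)]), (4, [(0, 666), (23, 9763), (25, 9), (81, 5)]), (2, [(23, 101)]), (2, [(23, 101)]), (2, [(23, 101)]), (3, [(0, 65), (7, 211), (23, 804), (81, 1)]), (3, [(17, 790), (18, 212), (20, 5), (80, 1)]), (3, [(17, 1001)]), (5, [(1, 7), (17, 86209), (18, 14080), (20, 473), (80, 46)]), (4, [(17, 8325), (18, 1765), (20, 47), (80, 9)]), (4, [(17, 8181), (18, 1905), (20, 48), (80, 14)]), (3, [(17, 808), (18, 193), (20, 5), (80, 2)]), (4, [(17, 8139), (18, 1939), (20, 51), (80, 25)]), (3, [(0, 69), (7, 358), (23, 658), (81, 1)]), (2, [(23, 101)]), (2, [(23, 101)]), (4, [(0, 607), (7, 5371), (23, 4473), (63, 3), (81, 16)]), (4, [(0, 624), (7, 6838),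 (23, 3007), (63, 13), (81, 14)]), (4, [(0, 628), (7, 8355), (23, 1497), (63, 23), (81, 12)]), (2, [(57, 101)]), (2, [(57, 101)]), (2, [(57, 101)]), (2, [(57, 101)]), (4, [(30, 49), (54, 49), (57, 10042), (61, 5), (81, 6)]), (4, [(30, 98), (54, 123), (57, 9979), (72, 2), (81, 1)]), (2, [(57, 101)]), (2, [(57, 101)]), (2, [(57, 101)]), (3, [(30, 9), (47, 226), (54, 9), (57, 777), (72, 1)]), (2, [(57, 101)]), (2, [(57, 101)]), (2, [(57, 101)]), (2, [(57, 101)]), (3, [(30, 5), (54, 4), (57, 992), (61, 1), (81, 1)]), (3, [(30, 5), (54, 4), (57, 1015), (61, 1), (81, 1)]), (3, [(30, 5), (54, 4), (57, 991), (61, 1), (81, 2)]), (3, [(30, 9), (47, 389), (54, 11), (57, 614), (72, 1)]), (2, [(57, 101)]), (2, [(57, 101)]), (3, [(30, 8), (47, 596), (54, 9), (57, 391), (72, 1)]), (3, [(30, 9), (47, 779), (54, 9), (57, 229), (72, 2)]), (3, [(30, 9), (47, 956), (54, 9), (57, 54), (72, 2)]), (2, [(63, 6), (64, 95),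 (81, 2)]), (2, [(67, 95), (72, 6), (80, 1)]), (0, [(0, 1), (63, 1)]), (2, [(23, 101)]), (2, [(17, 101)]), (2, [(23, 101)]), (3, [(0, 64), (7, 802), (15, 184), (63, 3), (81, 1)]), (3, [(17, 1001)]), (2, [(23, 101)]), (3, [(23, 1001)]), (0, [(18, 1)]), (4, [(17, 7418), (18, 2616), (20, 47), (80, 4)]), (4, [(17, 6740), (18, 3274), (20, 68), (80, 9)]), (4, [(17, 6115), (18, 3877), (20, 107), (80, 14)]), (3, [(18, 1002), (20, 10), (21, 11), (26, 2), (80, 1)]), (3, [(17, 530), (18, 466), (20, 15), (80, 2)]), (3, [(13, 726), (14, 253), (20, 144), (72, 1)]), (2, [(23, 101)]), (3, [(18, 975), (20, 6), (21, 65), (26, 2), (80, 1)]), (3, [(18, 986), (20, 24), (21, 19), (26, 1), (80, 2)]), (3, [(18, 898), (20, 61), (21, 146), (26, 1), (80, 3)]), (4, [(19, 9462), (21, 943), (74, 22)]), (0, [(20, 5)]), (0, [(21, 4)]), (3, [(23, 1001)]), (3, [(0, 99), (23, 944), (25, 1), (81, 3)]), (3, [(0, 818), (24, 379), (63,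 3)]), (1, [(0, 7), (20, 3), (25, 1), (81, 1)]), (0, [(20, 7)]), (3, [(21, 809), (27, 189), (73, 4), (82, 1)]), (0, [(21, 6)]), (4, [(0, 627), (7, 7373), (23, 2483), (63, 12), (81, 16)]), (0, [(30, 1), (63, 1)]), (3, [(30, 18), (47, 317), (54, 17), (57, 677), (72, 1)]), (3, [(30, 19), (54, 18), (57, 989), (72, 1)]), (3, [(30, 17), (47, 39), (54, 12), (57, 936), (72, 1)]), (2, [(57, 101)]), (2, [(57, 101)]), (2, [(57, 101)]), (2, [(57, 101)]), (4, [(30, 86), (42, 5557), (47, 4551), (54, 106), (72, 23)]), (2, [(57, 101)]), (3, [(57, 1001)]), (3, [(30, 24), (54, 9), (57, 991), (81, 1)]), (3, [(30, 39), (54, 23), (57, 973), (72, 1), (81, 1)]), (3, [(43, 551), (53, 437), (55, 137), (73, 3)]), (2, [(57, 101)]), (2, [(57, 101)]), (3, [(30, 16), (54, 35), (57, 978), (81, 1)]), (3, [(30, 36), (54, 45), (57, 960), (81, 2)]), (3, [(53, 1020), (55, 23), (73, 1)]), (2, [(57, 101)]), (4, [(30, 56), (54, 50), (57,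 10048), (61, 6), (81, 16)]), (3, [(30, 5), (54, 4), (57, 990), (61, 2), (81, 2)]), (4, [(30, 1555), (52, 9197), (63, 22), (81, 1)]), (3, [(53, 881), (55, 250), (73, 3)]), (0, [(54, 5)]), (0, [(55, 4)]), (2, [(57, 101)]), (4, [(30, 122), (54, 274), (57, 9716), (61, 14), (81, 22)]), (3, [(55, 474), (58, 723), (82, 3)]), (0, [(54, 7)]), (3, [(55, 662), (58, 535), (82, 3)]), (1, [(30, 7), (54, 3), (61, 1), (81, 1)]), (3, [(30, 6), (54, 4), (57, 990), (61, 1), (81, 1)]), (0, [(63, 2)]), (2, [(63, 6), (64, 95), (81, 2)]), (2, [(67, 95), (72, 6), (80, 1)]), (2, [(67, 93), (72, 12), (80, 2)]), (2, [(67, 91), (72, 16), (80, 2)]), (1, [(63, 6), (68, 6)]), (2, [(71, 101)]), (2, [(63, 1), (70, 91), (72, 17)]), (2, [(73, 101)]), (0, [(72, 2)]), (0, [(73, 2)]), (0, [(73, 2)]), (0, [(63, 2)]), (0, [(72, 2)]), (1, [(74, 11)]), (0, [(73, 2)]), (0, [(73, 2)]), (0, [(72, 2)]), (0, [(63, 2)]), (0, [(73, 2)])],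
  [(0, [(46, 1)]), (3, [(17, 742), (18, 256), (20, 3), (80, 1)]), (3, [(17, 1001)]), (4, [(17, 7991), (18, 2062), (20, 19), (80, 4)]), (4, [(17, 7748), (18, 2298), (20, 25), (80, 9)]), (4, [(17, 7653), (18, 2387), (20, 29), (80, 14)]), (3, [(0, 50), (7, 513), (23, 465), (81, 2)]), (4, [(0, 276), (7, 5494), (23, 4423), (63, 2)]), (4, [(0, 388), (7, 5730), (23, 4123), (63, 1), (81, 7)]), (4, [(0, 440), (7, 6376), (23, 3449), (63, 4), (81, 11)]), (4, [(0, 463), (7, 7394), (23, 2423), (63, 9), (81, 13)]), (4, [(17, 7465), (18, 2573), (20, 35), (80, 9)]), (3, [(17, 1001)]), (4, [(17, 8301), (18, 1805), (20, 31), (80, 4)]), (3, [(17, 787), (18, 217), (20, 3), (80, 1)]), (4, [(17, 7711), (18, 2324), (20, 31), (80, 14)]), (3, [(17, 766), (18, 237), (20, 3), (80, 2)]), (4, [(17, 7656), (18, 2370), (20, 32), (80, 25)]), (4, [(0, 489), (7, 8831), (23, 982), (63, 7), (81, 16)]), (4, [(0, 340), (7, 7438), (20,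 1), (23, 2451), (81, 11)]), (3, [(0, 41), (7, 922), (23, 64), (63, 1), (81, 1)]), (4, [(0, 466), (4, 143), (15, 9681), (63, 26), (72, 6)]), (4, [(0, 484), (4, 1354), (15, 8458), (63, 27), (72, 7)]), (4, [(0, 492), (4, 2609), (15, 7197), (63, 29), (72, 8)]), (3, [(57, 1001)]), (3, [(47, 1001)]), (3, [(47, 1001)]), (3, [(57, 1001)]), (3, [(30, 3), (47, 168), (54, 5), (57, 836), (72, 1)]), (3, [(30, 6), (47, 577), (54, 12), (57, 418), (72, 1)]), (3, [(47, 1001)]), (3, [(47, 1001)]), (4, [(30, 58), (47, 7242), (54, 78), (57, 2758), (72, 4)]), (3, [(30, 6), (47, 840), (54, 9), (57, 160), (72, 1)]), (2, [(57, 101)]), (3, [(47, 1001)]), (2, [(57, 101)]), (2, [(57, 101)]), (4, [(30, 35), (54, 57), (57, 10045), (61, 2), (81, 6)]), (3, [(30, 3), (54, 5), (57, 1015), (81, 1)]), (4, [(30, 35), (54, 57), (57, 10034), (61, 3), (81, 16)]), (3, [(30, 6), (42, 7), (47, 976), (54, 11), (72, 1)]), (2, [(47, 101)]),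 (4, [(30, 46), (42, 1912), (47, 8113), (54, 101), (72, 5)]), (3, [(30, 5), (42, 918), (47, 82), (54, 12), (72, 1)]), (4, [(30, 51), (42, 9998), (54, 127), (72, 14)]), (3, [(30, 5), (42, 999), (54, 13), (72, 2)]), (2, [(63, 4), (64, 95), (81, 2)]), (2, [(67, 97), (72, 4), (80, 2)]), (0, [(0, 1), (63, 1)]), (3, [(23, 1002)]), (2, [(17, 101)]), (4, [(0, 367), (7, 3828), (20, 8), (23, 6020), (81, 4)]), (3, [(0, 49), (4, 383), (15, 571), (63, 3), (72, 1)]), (3, [(17, 1001)]), (3, [(0, 18), (7, 444), (23, 551)]), (3, [(0, 95), (7, 287), (20, 3), (23, 666), (81, 1)]), (0, [(18, 1)]), (4, [(17, 6959), (18, 3092), (20, 29), (80, 4)]), (3, [(17, 622), (18, 382), (20, 4), (80, 1)]), (4, [(17, 5518), (18, 4500), (20, 74), (80, 13)]), (4, [(18, 10027), (20, 57), (21, 144), (26, 6), (80, 6)]), (4, [(17, 4614), (18, 5380), (20, 106), (80, 18)]), (3, [(13, 514), (17, 434), (20, 106), (72, 1)]), (4, [(0, 521), (7,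 3488), (20, 26), (23, 6267), (81, 4)]), (3, [(18, 975), (21, 73), (26, 1), (80, 1)]), (3, [(18, 988), (20, 16), (21, 23), (80, 2)]), (2, [(18, 91), (20, 4), (21, 17), (73, 1), (80, 1)]), (4, [(19, 9567), (21, 717), (74, 22)]), (0, [(20, 5)]), (0, [(21, 4)]), (4, [(0, 996), (7, 1435), (20, 9), (23, 8094), (81, 7)]), (4, [(0, 749), (23, 9547), (25, 18), (81, 24)]), (3, [(0, 741), (24, 456), (63, 3)]), (1, [(0, 6), (20, 4), (25, 1), (81, 1)]), (0, [(20, 7)]), (3, [(21, 761), (27, 236), (73, 4), (82, 1)]), (0, [(21, 6)]), (4, [(0, 488), (4, 1774), (15, 8045), (63, 25), (72, 9)]), (0, [(30, 1), (63, 1)]), (4, [(30, 124), (47, 9268), (54, 171), (57, 662), (72, 14)]), (3, [(30, 13), (47, 498), (54, 18), (57, 476), (72, 2)]), (3, [(30, 12), (47, 651), (54, 12), (57, 342), (72, 1)]), (3, [(30, 12), (47, 527), (54, 33), (57, 435), (72, 1)]), (4, [(30, 108), (47, 5805), (54, 97), (57, 4144), (72, 4)]), (3, [(47,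 1001)]), (3, [(47, 1001)]), (3, [(30, 5), (42, 1015), (54, 13), (72, 2)]), (3, [(47, 1001)]), (3, [(47, 319), (54, 91), (57, 639), (72, 1)]), (3, [(30, 17), (47, 483), (54, 8), (57, 508), (72, 1)]), (3, [(30, 28), (47, 421), (54, 23), (57, 533), (72, 3)]), (3, [(53, 1008), (55, 99), (73, 2)]), (3, [(47, 1001)]), (2, [(46, 13), (47, 25), (54, 5), (57, 60)]), (3, [(30, 10), (47, 268), (54, 38), (57, 710), (72, 1)]), (3, [(30, 25), (47, 196), (54, 48), (57, 766), (72, 2)]), (3, [(53, 1005), (55, 14), (73, 1)]), (3, [(57, 1001)]), (4, [(30, 39), (54, 56), (57, 10056), (72, 11), (81, 5)]), (4, [(30, 36), (54, 57), (57, 10003), (61, 5), (81, 16)]), (4, [(30, 1187), (52, 9356), (63, 20), (81, 1)]), (3, [(53, 904), (55, 193), (73, 3)]), (0, [(54, 5)]), (0, [(55, 4)]), (2, [(57, 101)]), (4, [(30, 76), (54, 303), (57, 9729), (61, 4), (81, 22)]), (2, [(55, 41), (58, 83), (73, 1), (82, 1)]), (0, [(54, 7)]), (3,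 [(55, 579), (58, 619), (82, 3)]), (1, [(30, 6), (54, 4), (61, 1), (81, 1)]), (4, [(30, 41), (54, 57), (57, 10012), (61, 3), (81, 6)]), (0, [(63, 2)]), (2, [(63, 4), (64, 95), (81, 2)]), (2, [(67, 97), (72, 4), (80, 2)]), (2, [(67, 94), (72, 8), (80, 2)]), (2, [(67, 92), (72, 12), (80, 2)]), (1, [(63, 5), (68, 7)]), (2, [(71, 101)]), (1, [(70, 9), (72, 2)]), (1, [(71, 6), (73, 6)]), (0, [(72, 2)]), (0, [(73, 2)]), (1, [(73, 11)]), (0, [(63, 2)]), (0, [(72, 2)]), (1, [(74, 11)]), (0, [(73, 2)]), (0, [(73, 2)]), (0, [(72, 2)]), (0, [(63, 2)]), (0, [(73, 2)])],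
  [(2, [(57, 101)]), (4, [(17, 6584), (18, 3442), (20, 59), (80, 16)]), (3, [(17, 783), (18, 222), (20, 2), (80, 1)]), (4, [(17, 7239), (18, 2871), (20, 35), (80, 11)]), (3, [(17, 690), (18, 313), (20, 4), (80, 2)]), (4, [(17, 6842), (18, 3261), (20, 50), (80, 21)]), (3, [(0, 78), (23, 1006), (25, 1), (81, 1)]), (2, [(23, 101)]), (4, [(0, 596), (23, 9808), (25, 6), (81, 5)]), (3, [(0, 67), (23, 977), (81, 1)]), (3, [(0, 71), (7, 7), (23, 971), (81, 2)]), (4, [(17, 6582), (18, 3440), (20, 59), (80, 16)]), (3, [(17, 847), (18, 155), (20, 6), (80, 1)]), (5, [(1, 7), (17, 74976), (18, 25298), (20, 515), (80, 118)]), (3, [(17, 705), (18, 297), (20, 5), (80, 2)]), (4, [(17, 6911), (18, 3185), (20, 53), (80, 21)]), (3, [(17, 679), (18, 323), (20, 5), (80, 3)]), (4, [(17, 6782), (18, 3228), (20, 55), (80, 32)]), (3, [(0, 75), (7, 147), (23, 829), (81, 2)]), (3, [(0, 55), (23, 1019), (81, 1)]), (4, [(0, 641),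 (7, 1843), (20, 3), (23, 7987), (81, 14)]), (3, [(0, 72), (7, 354), (23, 667), (81, 2)]), (3, [(0, 68), (7, 469), (23, 471), (63, 1), (81, 2)]), (3, [(0, 72), (7, 641), (23, 341), (63, 2), (81, 2)]), (3, [(30, 6), (54, 8), (57, 988), (81, 1)]), (2, [(57, 101)]), (4, [(30, 38), (54, 64), (57, 10037), (61, 5), (81, 3)]), (4, [(30, 47), (54, 70), (57, 10022), (61, 5), (81, 8)]), (4, [(30, 52), (54, 71), (57, 10013), (61, 6), (81, 14)]), (3, [(30, 10), (54, 16), (57, 1010), (81, 1)]), (2, [(57, 101)]), (4, [(30, 90), (54, 89), (57, 10009), (61, 2), (81, 3)]), (4, [(30, 100), (54, 115), (57, 9998), (72, 4), (81, 5)]), (4, [(30, 104), (54, 130), (57, 10005), (72, 14)]), (3, [(30, 6), (54, 7), (57, 1000), (61, 1), (81, 1)]), (2, [(57, 101)]), (4, [(30, 53), (54, 57), (57, 10031), (61, 11), (81, 3)]), (3, [(30, 5), (54, 6), (57, 1002), (61, 1), (81, 1)]), (4, [(30, 53), (54, 67), (57, 10009), (61, 13), (81,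 14)]), (3, [(30, 5), (54, 7), (57, 1000), (61, 1), (81, 2)]), (4, [(30, 55), (54, 68), (57, 9997), (61, 15), (81, 24)]), (4, [(30, 105), (47, 1564), (54, 156), (57, 8444), (72, 12)]), (4, [(30, 67), (54, 153), (57, 10025), (72, 3)]), (3, [(30, 9), (47, 201), (54, 14), (57, 803), (72, 1)]), (3, [(30, 9), (47, 366), (54, 13), (57, 616), (72, 2)]), (3, [(30, 10), (47, 532), (54, 13), (57, 450), (72, 3)]), (3, [(30, 10), (47, 722), (54, 13), (57, 286), (72, 3)]), (2, [(63, 7), (64, 94), (81, 3)]), (2, [(67, 95), (72, 7), (80, 2)]), (0, [(0, 1), (63, 1)]), (2, [(23, 101)]), (4, [(17, 9190), (18, 863), (20, 7), (80, 2)]), (3, [(0, 56), (23, 978), (25, 2), (81, 1)]), (4, [(0, 726), (7, 8016), (23, 1821), (63, 23), (81, 24)]), (4, [(18, 10151), (20, 9), (21, 4), (26, 19), (80, 3)]), (2, [(23, 101)]), (3, [(0, 146), (23, 991), (25, 9), (81, 2)]), (3, [(18, 1007), (20, 4), (21, 9), (26, 2), (80, 1)]), (4, [(17,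 5997), (18, 4040), (20, 50), (80, 11)]), (3, [(17, 514), (18, 488), (20, 7), (80, 2)]), (3, [(17, 435), (18, 565), (20, 12), (80, 2)]), (3, [(18, 968), (20, 10), (21, 20), (26, 2), (80, 2)]), (3, [(17, 328), (18, 656), (20, 17), (80, 3)]), (3, [(13, 713), (17, 211), (20, 155), (72, 2)]), (3, [(0, 77), (23, 965), (25, 7), (81, 1)]), (3, [(18, 964), (20, 5), (21, 87), (26, 2), (80, 2)]), (3, [(18, 978), (20, 26), (21, 30), (26, 1), (80, 3)]), (3, [(18, 880), (20, 64), (21, 186), (26, 1), (80, 4)]), (3, [(19, 939), (21, 107), (74, 3)]), (0, [(20, 7)]), (0, [(21, 5)]), (3, [(0, 155), (23, 989), (25, 2), (81, 2)]), (3, [(0, 115), (23, 973), (25, 1), (81, 3)]), (3, [(0, 850), (24, 346), (63, 4)]), (1, [(0, 7), (20, 3), (25, 1), (81, 1)]), (0, [(20, 8)]), (2, [(21, 99), (27, 20), (73, 1)]), (0, [(21, 7)]), (3, [(0, 72), (7, 543), (23, 439), (81, 3)]), (0, [(30, 1), (63, 1)]), (3, [(30, 20), (47, 87), (54,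 22), (57, 905), (72, 2)]), (3, [(30, 21), (54, 23), (57, 962), (72, 1), (81, 2)]), (3, [(30, 19), (54, 17), (57, 991), (72, 1), (81, 1)]), (3, [(30, 20), (54, 41), (57, 977), (81, 1)]), (3, [(30, 17), (54, 13), (57, 993), (81, 1)]), (4, [(30, 46), (54, 286), (57, 9898), (61, 5), (81, 4)]), (4, [(30, 127), (54, 88), (57, 9975), (61, 3), (81, 4)]), (3, [(30, 10), (47, 909), (54, 13), (57, 101), (72, 3)]), (2, [(57, 101)]), (3, [(30, 6), (54, 106), (57, 949), (81, 1)]), (4, [(30, 266), (54, 120), (57, 9864), (81, 15)]), (3, [(30, 43), (54, 29), (57, 967), (72, 1), (81, 2)]), (3, [(53, 941), (55, 143), (73, 3)]), (4, [(30, 253), (54, 72), (57, 9899), (61, 6), (81, 4)]), (4, [(54, 772), (57, 9679), (72, 1), (80, 4)]), (3, [(30, 17), (54, 45), (57, 971), (81, 2)]), (3, [(30, 39), (54, 57), (57, 952), (81, 3)]), (3, [(53, 997), (55, 27), (73, 2)]), (3, [(30, 9), (54, 6), (57, 984), (61, 1), (81, 1)]), (4,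 [(30, 60), (54, 72), (57, 10017), (61, 6), (81, 24)]), (4, [(30, 57), (54, 68), (57, 9965), (61, 16), (81, 24)]), (3, [(30, 175), (52, 910), (63, 3)]), (3, [(53, 868), (55, 280), (73, 4)]), (0, [(54, 7)]), (0, [(55, 5)]), (3, [(30, 7), (54, 6), (57, 987), (61, 1), (81, 1)]), (3, [(30, 13), (54, 35), (57, 966), (61, 1), (81, 3)]), (2, [(55, 43), (58, 58), (73, 1), (82, 1)]), (0, [(54, 8)]), (3, [(55, 699), (58, 497), (82, 4)]), (1, [(30, 7), (54, 3), (61, 1), (81, 1)]), (4, [(30, 63), (54, 67), (57, 9974), (61, 14), (81, 14)]), (0, [(63, 2)]), (2, [(63, 7), (64, 94), (81, 3)]), (2, [(67, 95), (72, 7), (80, 2)]), (2, [(67, 92), (72, 13), (80, 2)]), (1, [(67, 9), (72, 2)]), (1, [(63, 11)]), (2, [(71, 101)]), (1, [(70, 9), (72, 2)]), (1, [(73, 11)]), (0, [(72, 2)]), (0, [(73, 2)]), (0, [(73, 2)]), (0, [(63, 2)]), (0, [(72, 2)]), (1, [(74, 11)]), (0, [(73, 2)]), (0, [(73, 2)]), (0, [(72, 2)]), (0, [(63,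 2)]), (0, [(73, 2)])],
  [(2, [(57, 101)]), (4, [(17, 7030), (18, 3006), (20, 44), (80, 14)]), (4, [(17, 8191), (18, 1865), (20, 15), (80, 4)]), (3, [(17, 755), (18, 244), (20, 2), (80, 1)]), (4, [(17, 7332), (18, 2710), (20, 32), (80, 14)]), (4, [(17, 7227), (18, 2809), (20, 36), (80, 19)]), (3, [(0, 60), (7, 290), (23, 685), (81, 2)]), (3, [(23, 1001)]), (3, [(23, 1001)]), (4, [(0, 533), (7, 4165), (23, 5636), (81, 16)]), (3, [(0, 57), (7, 520), (23, 461), (63, 1), (81, 2)]), (4, [(17, 7028), (18, 3005), (20, 44), (80, 14)]), (4, [(17, 8782), (18, 1252), (20, 45), (80, 5)]), (4, [(17, 7879), (18, 2158), (20, 38), (80, 9)]), (4, [(17, 7466), (18, 2568), (20, 38), (80, 14)]), (4, [(17, 7290), (18, 2740), (20, 39), (80, 19)]), (4, [(17, 7229), (18, 2796), (20, 39), (80, 24)]), (3, [(17, 722), (18, 280), (20, 4), (80, 3)]), (4, [(0, 592), (7, 6625), (23, 3160), (63, 1), (81, 23)]), (3, [(23, 1001)]),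 (3, [(0, 49), (7, 681), (23, 276), (63, 1), (81, 2)]), (4, [(0, 538), (7, 8483), (23, 1345), (63, 14), (81, 16)]), (4, [(0, 559), (7, 7607), (15, 2216), (63, 23), (81, 17)]), (4, [(0, 582), (4, 761), (15, 9041), (63, 39), (72, 8)]), (4, [(30, 47), (47, 2130), (54, 63), (57, 7887), (72, 7)]), (2, [(57, 101)]), (2, [(57, 101)]), (4, [(30, 36), (47, 627), (54, 61), (57, 9411), (72, 6)]), (3, [(30, 4), (54, 6), (57, 1015), (72, 1)]), (3, [(30, 8), (47, 321), (54, 14), (57, 674), (72, 1)]), (3, [(57, 1001)]), (3, [(57, 1001)]), (3, [(30, 7), (47, 467), (54, 9), (57, 533), (72, 1)]), (4, [(30, 76), (47, 5827), (54, 105), (57, 4170), (72, 14)]), (4, [(30, 48), (54, 69), (57, 10026), (61, 1), (81, 6)]), (2, [(57, 101)]), (2, [(57, 101)]), (3, [(30, 4), (54, 6), (57, 1004), (81, 1)]), (3, [(30, 4), (54, 6), (57, 1015), (81, 1)]), (3, [(30, 4), (54, 6), (57, 1002), (81, 2)]), (3, [(30, 4), (54, 6), (57, 1013),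 (81, 2)]), (4, [(30, 75), (47, 7452), (54, 129), (57, 2548), (72, 12)]), (3, [(57, 1001)]), (3, [(30, 6), (47, 791), (54, 11), (57, 212), (72, 1)]), (3, [(30, 7), (47, 947), (54, 10), (57, 39), (72, 2)]), (3, [(30, 7), (42, 547), (47, 456), (54, 12), (72, 2)]), (4, [(30, 67), (42, 10020), (54, 139), (72, 24)]), (2, [(63, 5), (64, 95), (81, 2)]), (2, [(67, 96), (72, 5), (80, 2)]), (0, [(0, 1), (63, 1)]), (2, [(23, 101)]), (2, [(17, 101)]), (3, [(23, 1001)]), (3, [(0, 59), (4, 208), (15, 772), (63, 4), (72, 1)]), (2, [(18, 101)]), (3, [(23, 1001)]), (3, [(0, 113), (7, 71), (20, 4), (23, 876), (81, 1)]), (4, [(18, 10099), (20, 27), (21, 69), (26, 9), (80, 6)]), (4, [(17, 6483), (18, 3563), (20, 37), (80, 9)]), (4, [(17, 5680), (18, 4349), (20, 56), (80, 13)]), (3, [(17, 493), (18, 508), (20, 9), (80, 2)]), (3, [(18, 1020), (20, 7), (21, 17), (80, 1)]), (4, [(17, 3959), (18, 6026), (20, 129), (80, 23)]),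 (3, [(13, 579), (17, 405), (20, 131), (72, 2)]), (3, [(23, 1001)]), (3, [(18, 971), (20, 2), (21, 81), (26, 1), (80, 2)]), (3, [(18, 984), (20, 20), (21, 28), (26, 1), (80, 3)]), (3, [(18, 892), (20, 47), (21, 174), (80, 4)]), (3, [(19, 949), (21, 85), (74, 3)]), (0, [(20, 6)]), (0, [(21, 5)]), (3, [(0, 117), (23, 946), (25, 2), (81, 1)]), (3, [(0, 89), (23, 947), (25, 1), (81, 3)]), (3, [(0, 790), (24, 406), (63, 4)]), (1, [(0, 7), (20, 3), (25, 1), (81, 1)]), (0, [(20, 8)]), (2, [(21, 95), (27, 25), (73, 1)]), (0, [(21, 6)]), (4, [(0, 580), (15, 9813), (63, 28), (72, 5), (81, 11)]), (0, [(30, 1), (63, 1)]), (3, [(30, 15), (47, 671), (54, 19), (57, 321), (72, 2)]), (3, [(30, 16), (47, 250), (54, 20), (57, 736), (72, 2)]), (3, [(30, 15), (47, 387), (54, 14), (57, 584), (72, 2)]), (3, [(30, 15), (47, 285), (54, 37), (57, 695), (72, 1)]), (3, [(30, 13), (47, 324), (54, 11), (57, 670), (72, 1)]), (3,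 [(57, 1001)]), (3, [(57, 1001)]), (3, [(30, 7), (42, 982), (54, 14), (72, 3)]), (3, [(57, 1001)]), (3, [(30, 2), (47, 71), (54, 99), (57, 883), (72, 1)]), (3, [(30, 21), (47, 223), (54, 10), (57, 746), (72, 2)]), (3, [(30, 34), (47, 178), (54, 26), (57, 794), (72, 3)]), (3, [(53, 955), (55, 114), (73, 3)]), (3, [(57, 1001)]), (3, [(57, 1001)]), (3, [(30, 13), (47, 16), (54, 41), (57, 937), (72, 2)]), (3, [(30, 31), (54, 52), (57, 959), (72, 3), (81, 1)]), (3, [(53, 1002), (55, 19), (73, 2)]), (2, [(57, 101)]), (4, [(30, 47), (54, 65), (57, 10039), (72, 6), (81, 15)]), (3, [(30, 4), (54, 6), (57, 1008), (81, 2)]), (3, [(30, 141), (52, 925), (63, 3)]), (3, [(53, 890), (55, 227), (73, 3)]), (0, [(54, 6)]), (0, [(55, 5)]), (4, [(30, 57), (54, 62), (57, 10001), (61, 3), (81, 6)]), (3, [(30, 9), (54, 33), (57, 958), (61, 1), (81, 3)]), (2, [(55, 38), (58, 63), (73, 1), (82, 1)]), (0, [(54, 8)]), (3, [(55,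 631), (58, 565), (82, 3)]), (1, [(30, 7), (54, 3), (61, 1), (81, 1)]), (3, [(30, 5), (54, 6), (57, 1009), (81, 1)]), (0, [(63, 2)]), (2, [(63, 5), (64, 95), (81, 2)]), (2, [(67, 96), (72, 5), (80, 2)]), (2, [(67, 93), (72, 10), (80, 2)]), (2, [(67, 91), (72, 14), (80, 3)]), (1, [(63, 6), (68, 6)]), (2, [(71, 101)]), (1, [(70, 9), (72, 2)]), (1, [(73, 11)]), (0, [(72, 2)]), (0, [(73, 2)]), (0, [(73, 2)]), (0, [(63, 2)]), (0, [(72, 2)]), (1, [(74, 11)]), (0, [(73, 2)]), (0, [(73, 2)]), (0, [(72, 2)]), (0, [(63, 2)]), (0, [(73, 2)])],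
  [(2, [(57, 101)]), (3, [(17, 679), (18, 316), (20, 5), (80, 2)]), (4, [(17, 8044), (18, 2007), (20, 17), (80, 9)]), (4, [(17, 7428), (18, 2616), (20, 29), (80, 14)]), (4, [(17, 7152), (18, 2884), (20, 36), (80, 19)]), (4, [(17, 7042), (18, 2988), (20, 41), (80, 24)]), (3, [(0, 67), (7, 84), (23, 890), (81, 2)]), (2, [(23, 101)]), (3, [(0, 52), (7, 141), (23, 841), (81, 1)]), (3, [(0, 59), (7, 209), (23, 770), (81, 2)]), (4, [(0, 625), (7, 3141), (23, 6641), (63, 1), (81, 24)]), (3, [(17, 684), (18, 319), (20, 5), (80, 2)]), (3, [(17, 866), (18, 137), (20, 5), (80, 1)]), (4, [(17, 7722), (18, 2309), (20, 43), (80, 14)]), (3, [(17, 729), (18, 274), (20, 4), (80, 2)]), (4, [(17, 7108), (18, 2916), (20, 43), (80, 24)]), (3, [(17, 699), (18, 295), (20, 4), (80, 3)]), (4, [(17, 7090), (18, 3001), (20, 46), (80, 34)]), (4, [(0, 657), (7, 4557), (23, 5218), (81, 25)]), (4, [(0, 462), (7, 3089), (20, 2),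 (23, 6781), (81, 13)]), (4, [(0, 559), (7, 4944), (23, 4888), (81, 23)]), (3, [(0, 60), (7, 642), (23, 340), (63, 1), (81, 2)]), (3, [(0, 62), (7, 789), (23, 193), (63, 2), (81, 2)]), (3, [(0, 62), (7, 940), (23, 42), (63, 3), (81, 2)]), (4, [(30, 55), (54, 70), (57, 10020), (72, 10), (81, 1)]), (2, [(57, 101)]), (4, [(30, 33), (54, 61), (57, 10047), (72, 3), (81, 2)]), (4, [(30, 41), (54, 66), (57, 9914), (72, 4), (81, 8)]), (4, [(30, 46), (54, 69), (57, 10023), (72, 2), (81, 14)]), (3, [(30, 9), (47, 81), (54, 15), (57, 900), (72, 2)]), (2, [(57, 101)]), (4, [(30, 77), (47, 1544), (54, 79), (57, 8468), (72, 7)]), (4, [(30, 85), (47, 2266), (54, 101), (57, 7732), (72, 12)]), (3, [(30, 9), (47, 343), (54, 11), (57, 657), (72, 2)]), (3, [(30, 5), (54, 7), (57, 1014), (81, 1)]), (2, [(57, 101)]), (4, [(30, 46), (54, 56), (57, 10041), (61, 4), (81, 6)]), (3, [(30, 4), (54, 6), (57, 1014), (81, 1)]),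 (4, [(30, 46), (54, 66), (57, 10019), (61, 6), (81, 16)]), (3, [(30, 4), (54, 6), (57, 1013), (81, 2)]), (4, [(30, 48), (54, 66), (57, 10008), (61, 8), (81, 26)]), (4, [(30, 87), (47, 5054), (54, 139), (57, 4947), (72, 17)]), (3, [(30, 5), (47, 338), (54, 13), (57, 647), (72, 1)]), (4, [(30, 72), (47, 5506), (54, 120), (57, 4524), (72, 14)]), (3, [(30, 8), (47, 724), (54, 12), (57, 280), (72, 2)]), (3, [(30, 8), (47, 895), (54, 11), (57, 111), (72, 3)]), (3, [(30, 8), (42, 271), (47, 736), (54, 12), (72, 3)]), (2, [(63, 6), (64, 95), (81, 3)]), (2, [(67, 96), (72, 6), (80, 2)]), (0, [(0, 1), (63, 1)]), (2, [(23, 101)]), (4, [(17, 9362), (18, 694), (20, 5), (80, 5)]), (3, [(0, 49), (23, 982), (25, 2), (81, 1)]), (3, [(0, 62), (4, 35), (15, 908), (63, 5), (72, 1)]), (4, [(18, 10163), (20, 7), (26, 6), (80, 5)]), (2, [(23, 101)]), (3, [(0, 116), (20, 1), (23, 890), (25, 6), (81, 2)]), (3, [(18, 1008),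 (20, 3), (21, 8), (26, 1), (80, 1)]), (4, [(17, 6274), (18, 3767), (20, 42), (80, 14)]), (3, [(17, 544), (18, 458), (20, 6), (80, 2)]), (4, [(17, 4669), (18, 5336), (20, 101), (80, 23)]), (3, [(18, 976), (20, 8), (21, 18), (26, 1), (80, 2)]), (3, [(17, 367), (18, 631), (20, 14), (80, 3)]), (3, [(13, 603), (17, 329), (20, 137), (72, 2)]), (3, [(0, 68), (20, 1), (23, 970), (25, 4), (81, 1)]), (3, [(18, 967), (20, 3), (21, 84), (26, 1), (80, 2)]), (3, [(18, 981), (20, 22), (21, 29), (26, 1), (80, 3)]), (3, [(18, 886), (20, 54), (21, 180), (80, 4)]), (4, [(19, 9448), (21, 941), (74, 33)]), (0, [(20, 7)]), (0, [(21, 5)]), (3, [(0, 129), (23, 940), (25, 2), (81, 2)]), (4, [(0, 984), (23, 9426), (24, 1), (25, 17), (81, 36)]), (3, [(0, 681), (24, 316), (63, 4)]), (1, [(0, 7), (20, 3), (25, 1), (81, 1)]), (0, [(20, 9)]), (2, [(21, 97), (27, 23), (73, 1)]), (0, [(21, 7)]), (3, [(0, 62), (7, 843), (23, 140),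 (63, 2), (81, 2)]), (0, [(30, 1), (63, 1)]), (3, [(30, 18), (47, 423), (54, 21), (57, 545), (72, 3)]), (3, [(30, 18), (47, 13), (54, 22), (57, 973), (72, 2)]), (3, [(30, 17), (47, 157), (54, 15), (57, 835), (72, 2)]), (3, [(30, 17), (47, 49), (54, 39), (57, 931), (72, 2)]), (3, [(30, 15), (47, 84), (54, 12), (57, 894), (72, 2)]), (4, [(30, 38), (54, 275), (57, 9914), (72, 4), (81, 3)]), (3, [(30, 11), (47, 60), (54, 8), (57, 939), (72, 1)]), (3, [(30, 8), (42, 1030), (54, 15), (72, 3)]), (2, [(57, 101)]), (3, [(30, 4), (54, 102), (57, 953), (72, 1), (81, 1)]), (3, [(30, 23), (54, 11), (57, 989), (72, 2)]), (3, [(30, 38), (54, 28), (57, 970), (72, 3)]), (3, [(53, 1004), (55, 133), (73, 4)]), (4, [(30, 224), (54, 70), (57, 9920), (72, 2), (81, 5)]), (3, [(54, 68), (57, 972), (80, 1)]), (3, [(30, 14), (54, 43), (57, 974), (72, 1), (81, 1)]), (3, [(30, 34), (54, 54), (57, 956), (72, 2), (81, 1)]), (3,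 [(53, 1018), (55, 22), (73, 2)]), (3, [(30, 8), (54, 6), (57, 1000), (81, 1)]), (3, [(30, 5), (54, 7), (57, 1003), (81, 3)]), (4, [(30, 50), (54, 66), (57, 9976), (61, 9), (81, 26)]), (4, [(30, 1546), (52, 9187), (63, 32), (81, 1)]), (3, [(53, 880), (55, 249), (73, 4)]), (0, [(54, 7)]), (0, [(55, 5)]), (3, [(30, 6), (54, 6), (57, 1010), (81, 1)]), (3, [(30, 11), (54, 34), (57, 955), (61, 1), (81, 4)]), (2, [(55, 40), (58, 61), (73, 1), (82, 1)]), (0, [(54, 9)]), (3, [(55, 661), (58, 535), (82, 4)]), (1, [(30, 7), (54, 3), (61, 1), (81, 1)]), (3, [(30, 5), (54, 6), (57, 988), (61, 1), (81, 2)]), (0, [(63, 2)]), (2, [(63, 6), (64, 95), (81, 3)]), (2, [(67, 96), (72, 6), (80, 2)]), (2, [(67, 92), (72, 11), (80, 2)]), (2, [(67, 91), (72, 16), (80, 3)]), (1, [(63, 6), (68, 6)]), (2, [(71, 101)]), (1, [(70, 9), (72, 2)]), (1, [(73, 11)]), (0, [(72, 2)]), (0, [(73, 2)]), (0, [(73, 2)]), (0, [(63, 2)]), (0,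 [(72, 2)]), (1, [(74, 11)]), (0, [(73, 2)]), (0, [(73, 2)]), (0, [(72, 2)]), (0, [(63, 2)]), (0, [(73, 2)])]]

set_option maxRecDepth 100000 in
theorem okUG0 : chkRect LD LG LU0 cUG0 = true := by decide +kernel

end Pool.Agent.Lib.MP_dbb03c_co.Full
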