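import Pool.Agent.Lib.MP_dbb03c_co.Full.Data

/-! # Certificate data (generated) -/

namespace Pool.Agent.Lib.MP_dbb03c_co.Full

set_option maxRecDepth 100000 in
def cUG1 : List (List Ct) := [
  [(2, [(57, 101)]), (4, [(17, 6585), (18, 3444), (20, 58), (80, 16)]), (3, [(17, 783), (18, 222), (20, 2), (80, 1)]), (4, [(17, 7191), (18, 2853), (20, 35), (80, 12)]), (3, [(17, 691), (18, 313), (20, 4), (80, 2)]), (4, [(17, 6791), (18, 3238), (20, 49), (80, 22)]), (3, [(0, 75), (7, 137), (23, 832), (81, 2)]), (2, [(23, 101)]), (3, [(0, 59), (7, 195), (23, 783), (81, 1)]), (3, [(0, 67), (7, 262), (23, 713), (81, 2)]), (4, [(0, 708), (7, 3678), (23, 6057), (81, 24)]), (4, [(17, 6584), (18, 3442), (20, 59), (80, 16)]), (4, [(17, 8475), (18, 1552), (20, 59), (80, 7)]), (4, [(17, 7499), (18, 2531), (20, 51), (80, 12)]), (3, [(17, 705), (18, 298), (20, 5), (80, 2)]), (4, [(17, 6914), (18, 3188), (20, 52), (80,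 21)]), (3, [(17, 679), (18, 323), (20, 5), (80, 3)]), (4, [(17, 6783), (18, 3230), (20, 55), (80, 32)]), (4, [(0, 745), (7, 5079), (20, 1), (23, 4648), (81, 24)]), (3, [(0, 54), (7, 373), (23, 639), (81, 1)]), (3, [(0, 63), (7, 547), (23, 432), (81, 2)]), (3, [(0, 68), (7, 695), (23, 282), (63, 1), (81, 2)]), (3, [(0, 70), (7, 841), (23, 136), (63, 2), (81, 2)]), (3, [(0, 71), (7, 724), (15, 253), (63, 3), (81, 2)]), (3, [(30, 6), (47, 36), (54, 7), (57, 965), (72, 1)]), (2, [(57, 101)]), (4, [(30, 39), (47, 127), (54, 66), (57, 9913), (72, 3)]), (4, [(30, 49), (54, 71), (57, 10026), (72, 4), (81, 5)]), (4, [(30, 54), (54, 73), (57, 10017), (72, 2), (81, 11)]), (4, [(30, 105), (47, 1451), (54, 156), (57, 8484), (72, 12)]), (2, [(57, 101)]), (4, [(30, 89), (47, 2185), (54, 84), (57, 7815), (72, 4)]), (3, [(30, 10), (47, 290), (54, 11), (57, 708), (72, 1)]), (3, [(30, 10), (47, 406), (54, 12), (57,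 592), (72, 2)]), (3, [(30, 6), (54, 8), (57, 988), (81, 1)]), (2, [(57, 101)]), (4, [(30, 55), (54, 60), (57, 10034), (61, 4), (81, 3)]), (3, [(30, 5), (54, 7), (57, 1002), (81, 1)]), (4, [(30, 55), (54, 70), (57, 10013), (61, 6), (81, 14)]), (4, [(30, 56), (54, 71), (57, 10006), (61, 7), (81, 19)]), (4, [(30, 57), (54, 71), (57, 10001), (61, 8), (81, 24)]), (4, [(30, 101), (47, 5686), (54, 146), (57, 4300), (72, 14)]), (3, [(30, 6), (47, 407), (54, 14), (57, 593), (72, 1)]), (3, [(30, 8), (47, 625), (54, 12), (57, 394), (72, 1)]), (3, [(30, 9), (47, 787), (54, 12), (57, 216), (72, 2)]), (4, [(30, 95), (47, 9574), (54, 121), (57, 466), (72, 24)]), (3, [(30, 9), (42, 541), (47, 462), (54, 14), (72, 3)]), (2, [(63, 7), (64, 94), (81, 3)]), (2, [(67, 95), (72, 7), (80, 2)]), (0, [(0, 1), (63, 1)]), (2, [(23, 101)]), (4, [(17, 9193), (18, 863), (20, 7), (80, 2)]), (3, [(0, 56), (7, 6), (20, 1), (23,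 973), (81, 1)]), (3, [(0, 74), (4, 81), (15, 895), (63, 4), (72, 1)]), (4, [(18, 10155), (20, 11), (21, 7), (26, 12), (80, 3)]), (2, [(23, 101)]), (3, [(0, 147), (20, 2), (23, 992), (25, 4), (81, 2)]), (3, [(18, 1007), (20, 4), (21, 9), (26, 1), (80, 1)]), (4, [(17, 5999), (18, 4042), (20, 50), (80, 11)]), (3, [(17, 514), (18, 488), (20, 7), (80, 2)]), (3, [(17, 439), (18, 571), (20, 11), (80, 2)]), (4, [(18, 9960), (20, 104), (21, 203), (26, 10), (80, 14)]), (3, [(17, 328), (18, 657), (20, 16), (80, 3)]), (3, [(13, 704), (17, 221), (20, 154), (72, 2)]), (3, [(0, 75), (20, 2), (23, 930), (25, 1), (81, 1)]), (3, [(18, 964), (20, 5), (21, 88), (26, 1), (80, 2)]), (3, [(18, 978), (20, 26), (21, 31), (26, 1), (80, 3)]), (3, [(18, 880), (20, 63), (21, 186), (80, 4)]), (3, [(19, 939), (21, 106), (74, 3)]), (0, [(20, 7)]), (0, [(21, 5)]), (3, [(0, 154), (23, 989), (25, 2), (81, 2)]), (3, [(0, 115), (23,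 974), (25, 1), (81, 3)]), (3, [(0, 849), (24, 347), (63, 4)]), (1, [(0, 7), (20, 3), (25, 1), (81, 1)]), (0, [(20, 8)]), (2, [(21, 99), (27, 20), (73, 1)]), (0, [(21, 7)]), (3, [(0, 71), (7, 895), (23, 83), (63, 2), (81, 2)]), (0, [(30, 1), (63, 1)]), (3, [(30, 20), (47, 495), (54, 22), (57, 494), (72, 2)]), (3, [(30, 21), (47, 76), (54, 23), (57, 908), (72, 2)]), (3, [(30, 19), (47, 220), (54, 16), (57, 770), (72, 2)]), (3, [(30, 20), (47, 112), (54, 40), (57, 865), (72, 1)]), (3, [(30, 17), (47, 148), (54, 13), (57, 844), (72, 1)]), (4, [(30, 48), (47, 23), (54, 287), (57, 9879), (72, 4)]), (4, [(30, 127), (47, 1236), (54, 85), (57, 8736), (72, 4)]), (3, [(30, 9), (42, 1003), (54, 16), (72, 3)]), (2, [(57, 101)]), (3, [(30, 6), (54, 106), (57, 950), (72, 1)]), (4, [(30, 266), (47, 526), (54, 114), (57, 9340), (72, 15)]), (3, [(30, 43), (47, 6), (54, 29), (57, 961), (72, 3)]), (3, [(53, 941), (55,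 142), (73, 3)]), (4, [(30, 254), (54, 74), (57, 9903), (72, 2), (81, 2)]), (3, [(54, 77), (57, 968), (80, 1)]), (3, [(30, 17), (54, 45), (57, 972), (72, 1), (81, 1)]), (3, [(30, 39), (54, 56), (57, 952), (72, 2), (81, 1)]), (3, [(53, 997), (55, 26), (73, 2)]), (4, [(30, 93), (54, 63), (57, 9989), (61, 1), (81, 3)]), (4, [(30, 62), (54, 75), (57, 10022), (72, 1), (81, 23)]), (4, [(30, 59), (54, 71), (57, 9969), (61, 9), (81, 24)]), (3, [(30, 174), (52, 911), (63, 3)]), (3, [(53, 869), (55, 279), (73, 4)]), (0, [(54, 7)]), (0, [(55, 5)]), (3, [(30, 7), (54, 7), (57, 998), (81, 1)]), (3, [(30, 13), (54, 36), (57, 966), (61, 1), (81, 3)]), (2, [(55, 43), (58, 58), (73, 1), (82, 1)]), (0, [(54, 8)]), (3, [(55, 697), (58, 499), (82, 4)]), (1, [(30, 7), (54, 3), (61, 1), (81, 1)]), (4, [(30, 64), (54, 70), (57, 9978), (61, 7), (81, 14)]), (0, [(63, 2)]), (2, [(63, 7), (64, 94), (81, 3)]), (2, [(67, 95),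 (72, 7), (80, 2)]), (2, [(67, 92), (72, 13), (80, 2)]), (1, [(67, 9), (72, 2)]), (1, [(63, 11)]), (2, [(71, 101)]), (1, [(70, 9), (72, 2)]), (1, [(73, 11)]), (0, [(72, 2)]), (0, [(73, 2)]), (0, [(73, 2)]), (0, [(63, 2)]), (0, [(72, 2)]), (1, [(74, 11)]), (0, [(73, 2)]), (0, [(73, 2)]), (0, [(72, 2)]), (0, [(63, 2)]), (0, [(73, 2)])],
  [(2, [(41, 12), (46, 18), (47, 52), (57, 19)]), (4, [(17, 8486), (18, 1556), (20, 29), (72, 1), (80, 14)]), (4, [(17, 9324), (18, 678), (20, 9), (80, 5)]), (4, [(17, 8873), (18, 1118), (20, 16), (80, 10)]), (4, [(17, 8676), (18, 1306), (20, 20), (80, 15)]), (3, [(17, 866), (18, 138), (20, 2), (80, 2)]), (4, [(0, 416), (7, 7343), (23, 2462), (63, 13), (81, 12)]), (3, [(0, 22), (7, 412), (22, 417), (23, 153), (63, 2)]), (3, [(0, 32), (7, 727), (22, 78), (23, 182), (63, 2)]), (4, [(0, 362), (7, 8562), (23, 1286), (63, 22), (81, 2)]), (3, [(0, 39), (7, 977), (23, 27),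 (63, 3)]), (4, [(17, 8495), (18, 1544), (20, 29), (80, 15)]), (3, [(17, 977), (18, 21), (20, 3), (80, 1)]), (4, [(17, 9145), (18, 901), (20, 25), (80, 10)]), (4, [(17, 8835), (18, 1206), (20, 25), (80, 15)]), (3, [(17, 870), (18, 132), (20, 2), (80, 2)]), (4, [(17, 8671), (18, 1360), (20, 26), (80, 25)]), (3, [(17, 867), (18, 134), (20, 2), (80, 3)]), (4, [(0, 429), (4, 432), (15, 9375), (63, 28), (72, 5)]), (4, [(0, 278), (7, 9665), (23, 241), (63, 15), (81, 7)]), (3, [(0, 36), (4, 75), (15, 910), (63, 3)]), (4, [(0, 397), (4, 1981), (15, 7845), (63, 28), (72, 5)]), (4, [(0, 412), (4, 3202), (15, 6613), (63, 29), (72, 6)]), (4, [(0, 420), (4, 4467), (15, 5342), (63, 31), (72, 7)]), (3, [(30, 3), (47, 728), (54, 2), (57, 275), (72, 1)]), (0, [(47, 1)]), (4, [(30, 15), (47, 7068), (54, 19), (57, 2985), (72, 4)]), (3, [(30, 2), (47, 580), (54, 2), (57, 425), (72, 1)]), (4, [(30, 26), (47, 4265), (54,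 27), (57, 5784), (72, 13)]), (4, [(30, 51), (47, 8336), (54, 83), (57, 1639), (72, 13)]), (2, [(47, 101)]), (4, [(30, 43), (47, 9100), (54, 31), (57, 925), (72, 5)]), (3, [(30, 4), (47, 990), (54, 4), (57, 20), (72, 1)]), (4, [(30, 48), (42, 4020), (47, 5982), (54, 69), (72, 15)]), (3, [(30, 3), (47, 307), (54, 3), (57, 698), (72, 1)]), (3, [(42, 1001)]), (3, [(57, 1001)]), (4, [(30, 29), (47, 2037), (54, 31), (57, 8030), (72, 6)]), (3, [(30, 3), (47, 25), (54, 3), (57, 993), (72, 1)]), (4, [(30, 32), (54, 38), (57, 10065), (72, 9), (81, 6)]), (4, [(30, 32), (54, 38), (57, 10061), (72, 7), (81, 14)]), (3, [(30, 4), (42, 1009), (54, 10), (72, 1)]), (4, [(30, 25), (42, 4035), (47, 5982), (54, 87), (72, 5)]), (4, [(30, 36), (42, 9999), (54, 96), (72, 8)]), (4, [(30, 41), (42, 9990), (54, 95), (72, 13)]), (4, [(30, 44), (42, 9983), (54, 97), (72, 19)]), (4, [(30, 44), (42, 9978), (54, 98), (72, 24)]),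 (2, [(63, 4), (64, 96), (81, 2)]), (2, [(67, 97), (72, 3), (80, 1)]), (0, [(0, 1), (63, 1)]), (3, [(0, 2), (7, 181), (22, 691), (23, 133), (63, 1)]), (0, [(13, 1)]), (4, [(0, 311), (7, 6239), (20, 3), (23, 3770), (81, 14)]), (4, [(0, 429), (4, 5813), (15, 4001), (63, 29), (72, 8)]), (4, [(17, 3271), (18, 6873), (20, 2), (80, 2)]), (3, [(0, 15), (7, 678), (23, 318), (81, 1)]), (4, [(0, 817), (7, 5136), (20, 26), (23, 4447), (81, 19)]), (3, [(18, 1001), (20, 2), (80, 1)]), (3, [(17, 806), (18, 199), (20, 2), (80, 1)]), (4, [(17, 7446), (18, 2586), (20, 38), (80, 14)]), (3, [(17, 683), (18, 319), (20, 6), (80, 2)]), (3, [(18, 1008), (20, 5), (21, 8), (80, 1)]), (4, [(17, 6058), (18, 3935), (20, 88), (72, 6), (80, 18)]), (4, [(1, 1), (13, 6982), (17, 2563), (20, 919), (72, 14)]), (4, [(0, 441), (7, 5792), (20, 19), (23, 3990), (81, 14)]), (3, [(18, 952), (20, 1), (21, 56), (73, 1), (80, 2)]), (3, [(18,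 974), (20, 14), (21, 16), (73, 1), (80, 2)]), (3, [(18, 917), (20, 33), (21, 132), (73, 1), (80, 2)]), (3, [(19, 963), (21, 61), (73, 1), (74, 2)]), (0, [(20, 6)]), (0, [(21, 5)]), (3, [(0, 85), (7, 369), (23, 589), (81, 2)]), (3, [(0, 64), (23, 961), (25, 1), (81, 3)]), (3, [(0, 694), (24, 502), (63, 4)]), (1, [(0, 6), (20, 3), (25, 2), (81, 1)]), (1, [(20, 7), (21, 3), (26, 2), (80, 1)]), (2, [(21, 88), (27, 32), (73, 1)]), (0, [(21, 6)]), (4, [(0, 417), (4, 3627), (15, 6196), (63, 27), (72, 7)]), (0, [(30, 1), (63, 1)]), (3, [(30, 10), (42, 793), (47, 200), (54, 15), (72, 2)]), (3, [(30, 11), (47, 760), (54, 13), (57, 231), (72, 2)]), (3, [(30, 10), (47, 896), (54, 8), (57, 87), (72, 2)]), (3, [(30, 10), (47, 793), (54, 26), (57, 193), (72, 1)]), (3, [(30, 9), (47, 837), (54, 6), (57, 160), (72, 1)]), (4, [(30, 15), (47, 6892), (54, 180), (57, 3056), (72, 4)]), (4, [(30, 66), (47, 8140), (54,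 33), (57, 1864), (72, 5)]), (3, [(30, 4), (42, 998), (54, 10), (72, 3)]), (0, [(47, 1)]), (3, [(47, 568), (54, 75), (57, 397), (72, 1)]), (3, [(30, 15), (47, 738), (54, 5), (57, 255), (72, 2)]), (3, [(30, 24), (47, 682), (54, 18), (57, 297), (72, 3)]), (3, [(53, 972), (55, 80), (73, 3)]), (4, [(30, 142), (47, 6405), (54, 27), (57, 3556), (72, 4)]), (4, [(47, 6468), (54, 399), (55, 4), (57, 3367), (73, 5)]), (4, [(30, 84), (47, 5211), (54, 299), (57, 4607), (72, 15)]), (3, [(30, 21), (47, 446), (54, 38), (57, 522), (72, 3)]), (3, [(53, 1008), (55, 10), (73, 2)]), (4, [(30, 49), (47, 5261), (54, 22), (57, 4760), (72, 3)]), (4, [(30, 34), (47, 1438), (54, 31), (57, 8636), (72, 22)]), (3, [(30, 3), (54, 4), (57, 1013), (81, 2)]), (3, [(30, 102), (52, 945), (63, 3)]), (3, [(53, 917), (55, 166), (73, 3)]), (0, [(54, 6)]), (0, [(55, 5)]), (3, [(30, 4), (47, 208), (54, 3), (57, 795), (72, 1)]), (3, [(30,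 7), (54, 24), (57, 978), (72, 1), (81, 2)]), (2, [(55, 36), (58, 85), (73, 1), (82, 1)]), (1, [(54, 7), (55, 3), (59, 2), (80, 1)]), (3, [(55, 532), (58, 665), (82, 3)]), (1, [(30, 6), (54, 3), (61, 2), (81, 1)]), (4, [(30, 37), (54, 38), (57, 9941), (72, 10), (81, 2)]), (0, [(63, 2)]), (2, [(63, 4), (64, 96), (81, 2)]), (2, [(67, 97), (72, 3), (80, 1)]), (2, [(67, 95), (72, 7), (80, 2)]), (2, [(67, 94), (72, 10), (80, 2)]), (1, [(63, 5), (68, 7)]), (0, [(71, 1)]), (2, [(70, 92), (72, 15)]), (1, [(71, 7), (73, 5)]), (0, [(72, 2)]), (0, [(73, 2)]), (1, [(73, 11)]), (0, [(63, 2)]), (1, [(72, 11)]), (1, [(74, 11)]), (1, [(73, 11)]), (0, [(73, 2)]), (0, [(72, 2)]), (0, [(63, 2)]), (0, [(73, 2)])],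
  [(1, [(30, 10), (61, 1), (81, 1)]), (1, [(0, 4), (20, 7), (25, 1), (81, 1)]), (0, [(20, 4)]), (0, [(20, 5)]), (1, [(0, 4), (20, 7), (25, 1), (81, 1)]), (1, [(0, 4), (20, 7), (25, 1), (81, 1)]), (2, [(0, 100), (63, 1), (81, 1)]), (2, [(0, 100), (63, 1), (81, 1)]), (2, [(0, 100), (63, 1), (81, 1)]), (2, [(0, 100), (63, 1), (81, 1)]), (2, [(0, 100), (63, 1), (81, 1)]), (1, [(0, 4), (20, 7), (25, 1), (81, 1)]), (0, [(20, 4)]), (1, [(0, 4), (20, 7), (25, 1), (81, 1)]), (1, [(0, 4), (20, 7), (25, 1), (81, 1)]), (1, [(0, 4), (20, 7), (25, 1), (81, 1)]), (1, [(0, 4), (20, 7), (25, 1), (81, 1)]), (1, [(0, 4), (20, 7), (25, 1), (81, 1)]), (2, [(0, 100), (63, 1), (81, 1)]), (2, [(0, 100), (63, 1), (81, 1)]), (2, [(0, 100), (63, 1), (81, 1)]), (2, [(0, 100), (63, 1), (81, 1)]), (2, [(0, 100), (63, 1), (81, 1)]), (2, [(0, 100), (63, 1), (81, 1)]), (1, [(30, 10), (61, 1), (81, 1)]), (1, [(30, 10), (61, 1),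 (81, 1)]), (1, [(30, 10), (61, 1), (81, 1)]), (1, [(30, 10), (61, 1), (81, 1)]), (1, [(30, 10), (61, 1), (81, 1)]), (1, [(30, 10), (61, 1), (81, 1)]), (1, [(30, 10), (61, 1), (81, 1)]), (1, [(30, 10), (61, 1), (81, 1)]), (1, [(30, 10), (61, 1), (81, 1)]), (1, [(30, 10), (61, 1), (81, 1)]), (1, [(30, 10), (61, 1), (81, 1)]), (1, [(30, 10), (61, 1), (81, 1)]), (1, [(30, 10), (61, 1), (81, 1)]), (1, [(30, 10), (61, 1), (81, 1)]), (1, [(30, 10), (61, 1), (81, 1)]), (1, [(30, 10), (61, 1), (81, 1)]), (1, [(30, 10), (61, 1), (81, 1)]), (1, [(30, 10), (61, 1), (81, 1)]), (1, [(30, 10), (61, 1), (81, 1)]), (1, [(30, 10), (61, 1), (81, 1)]), (1, [(30, 10), (61, 1), (81, 1)]), (1, [(30, 10), (61, 1), (81, 1)]), (1, [(30, 10), (61, 1), (81, 1)]), (0, [(63, 2)]), (0, [(63, 2)]), (0, [(0, 1), (63, 1)]), (2, [(0, 100), (63, 1), (81, 1)]), (0, [(20, 3)]), (1, [(0, 10), (63, 1), (81, 1)]), (2, [(0, 100), (63, 1),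 (81, 1)]), (0, [(20, 4)]), (1, [(0, 10), (63, 1), (81, 1)]), (1, [(0, 10), (63, 1), (81, 1)]), (0, [(20, 5)]), (0, [(20, 5)]), (0, [(20, 6)]), (0, [(20, 7)]), (0, [(20, 6)]), (0, [(20, 8)]), (1, [(0, 10), (20, 1), (25, 1), (81, 1)]), (1, [(0, 10), (63, 1), (81, 1)]), (0, [(20, 6)]), (0, [(20, 8)]), (0, [(20, 9)]), (0, [(21, 3)]), (0, [(20, 2)]), (0, [(20, 3)]), (1, [(0, 10), (63, 1), (81, 1)]), (1, [(0, 10), (63, 1), (81, 1)]), (3, [(0, 1198), (63, 2)]), (0, [(25, 2)]), (0, [(20, 4)]), (0, [(20, 7)]), (0, [(20, 5)]), (2, [(0, 100), (63, 1), (81, 1)]), (0, [(30, 1), (63, 1)]), (1, [(30, 10), (61, 1), (81, 1)]), (1, [(30, 10), (61, 1), (81, 1)]), (1, [(30, 10), (61, 1), (81, 1)]), (0, [(30, 1), (61, 1), (81, 1)]), (1, [(30, 10), (61, 1), (81, 1)]), (0, [(30, 1), (61, 1), (81, 1)]), (1, [(30, 10), (61, 1), (81, 1)]), (1, [(30, 10), (61, 1), (81, 1)]), (1, [(30, 10), (61, 1), (81, 1)]), (0, [(61, 3)]),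 (1, [(30, 10), (61, 1), (81, 1)]), (0, [(30, 1), (61, 1), (81, 1)]), (0, [(54, 6)]), (1, [(30, 10), (61, 1), (81, 1)]), (0, [(61, 3)]), (0, [(30, 1), (61, 1), (81, 1)]), (0, [(30, 1), (61, 1), (81, 1)]), (0, [(54, 4)]), (1, [(30, 10), (61, 1), (81, 1)]), (1, [(30, 10), (61, 1), (81, 1)]), (1, [(30, 10), (61, 1), (81, 1)]), (3, [(30, 999), (63, 2), (81, 1)]), (0, [(54, 6)]), (0, [(54, 2)]), (0, [(54, 3)]), (1, [(30, 10), (61, 1), (81, 1)]), (0, [(30, 1), (61, 1), (81, 1)]), (0, [(55, 4)]), (0, [(54, 4)]), (0, [(55, 3)]), (0, [(61, 2)]), (1, [(30, 10), (61, 1), (81, 1)]), (0, [(63, 2)]), (0, [(63, 2)]), (0, [(63, 2)]), (0, [(63, 2)]), (0, [(63, 2)]), (0, [(63, 2)]), (0, [(72, 2)]), (0, [(63, 2)]), (0, [(72, 2)]), (0, [(63, 2)]), (0, [(72, 2)]), (0, [(72, 2)]), (0, [(63, 2)]), (0, [(63, 2)]), (0, [(72, 2)]), (0, [(72, 2)]), (0, [(72, 2)]), (0, [(63, 2)]), (0, [(63, 2)]), (0, [(73, 2)])],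
  [(2, [(57, 101)]), (4, [(17, 9407), (18, 588), (20, 7), (72, 2), (80, 21)]), (4, [(13, 135), (17, 9877), (65, 12), (73, 2), (80, 1)]), (3, [(17, 987), (18, 23), (80, 2)]), (4, [(17, 9716), (18, 379), (20, 4), (80, 23)]), (3, [(17, 957), (18, 42), (80, 3)]), (4, [(0, 201), (7, 6043), (23, 3938), (63, 21), (81, 8)]), (3, [(0, 9), (7, 242), (22, 473), (23, 291), (63, 2)]), (4, [(0, 146), (7, 4977), (22, 1967), (23, 3083), (63, 23)]), (3, [(0, 17), (7, 706), (22, 26), (23, 269), (63, 3)]), (3, [(0, 18), (7, 831), (23, 170), (63, 4)]), (4, [(17, 9515), (18, 573), (20, 8), (80, 23)]), (4, [(13, 1695), (17, 8408), (20, 6), (72, 13)]), (4, [(17, 10043), (18, 53), (20, 7), (80, 18)]), (4, [(17, 9797), (18, 293), (20, 6), (80, 23)]), (4, [(17, 9701), (18, 384), (20, 6), (80, 28)]), (4, [(17, 9678), (18, 403), (20, 6), (80, 33)]), (4, [(17, 9691), (18, 385), (20, 6), (80, 39)]), (3, [(0, 19), (7, 996), (23,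 25), (63, 4)]), (4, [(0, 122), (7, 8368), (23, 1685), (63, 23), (81, 3)]), (4, [(0, 157), (7, 7881), (15, 2158), (63, 35)]), (4, [(0, 192), (4, 859), (15, 9146), (63, 40), (72, 2)]), (4, [(0, 201), (4, 2098), (15, 7901), (63, 42), (72, 3)]), (4, [(0, 205), (4, 3381), (15, 6614), (63, 43), (72, 4)]), (4, [(30, 11), (47, 5747), (54, 8), (57, 4365), (72, 16)]), (3, [(32, 34), (46, 115), (47, 471), (57, 380), (72, 1)]), (3, [(47, 552), (57, 461), (72, 1)]), (4, [(30, 7), (47, 4240), (54, 8), (57, 5889), (72, 15)]), (3, [(30, 1), (47, 270), (54, 1), (57, 744), (72, 2)]), (3, [(30, 2), (47, 683), (54, 5), (57, 324), (72, 2)]), (4, [(30, 8), (42, 184), (47, 7112), (57, 2836), (63, 6)]), (4, [(30, 17), (47, 7584), (54, 13), (57, 2529), (72, 12)]), (3, [(30, 2), (47, 831), (54, 2), (57, 180), (72, 2)]), (4, [(30, 18), (47, 9480), (54, 30), (57, 632), (72, 23)]), (4, [(30, 14), (47, 1484), (54, 19), (57,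 8649), (72, 14)]), (4, [(30, 10), (42, 466), (47, 4169), (57, 5515), (63, 5)]), (3, [(30, 1), (47, 231), (54, 1), (57, 769), (72, 1)]), (4, [(30, 12), (47, 443), (54, 16), (57, 9706), (72, 13)]), (3, [(30, 1), (54, 2), (57, 1014), (72, 1), (81, 1)]), (4, [(30, 12), (54, 20), (57, 10138), (72, 11), (81, 13)]), (3, [(30, 1), (54, 2), (57, 1013), (72, 1), (81, 2)]), (3, [(30, 1), (42, 425), (47, 586), (54, 6), (72, 2)]), (4, [(30, 5), (47, 9493), (54, 46), (57, 631), (72, 13)]), (3, [(30, 1), (42, 611), (47, 400), (54, 5), (72, 2)]), (3, [(30, 1), (42, 1010), (54, 6), (72, 2)]), (4, [(30, 12), (42, 10098), (54, 66), (72, 26)]), (3, [(30, 1), (42, 1025), (54, 6), (72, 3)]), (2, [(63, 1), (64, 99), (81, 1)]), (3, [(70, 1001)]), (0, [(0, 1), (63, 1)]), (2, [(23, 101)]), (4, [(10, 1037), (13, 6603), (16, 2441), (65, 11), (73, 1)]), (3, [(0, 15), (7, 487), (23, 514), (81, 2)]), (4, [(0, 211), (4, 4745),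 (15, 5256), (63, 42), (72, 5)]), (3, [(16, 637), (17, 94), (18, 270), (65, 1), (73, 1)]), (4, [(0, 58), (7, 5479), (23, 4594), (81, 14)]), (4, [(0, 435), (7, 3918), (20, 20), (23, 5919), (81, 23)]), (3, [(16, 99), (17, 176), (18, 744), (65, 2), (73, 1)]), (4, [(17, 9243), (18, 948), (20, 5), (80, 17)]), (4, [(17, 8649), (18, 1432), (20, 12), (80, 23)]), (4, [(17, 8043), (18, 1932), (20, 24), (72, 5), (80, 23)]), (3, [(18, 1018), (20, 1), (21, 2), (80, 2)]), (4, [(17, 7475), (18, 2576), (20, 38), (72, 6), (80, 26)]), (3, [(13, 585), (17, 395), (20, 51), (72, 2)]), (3, [(0, 22), (7, 453), (20, 1), (23, 543), (81, 2)]), (3, [(18, 1006), (21, 23), (73, 2)]), (3, [(18, 1007), (20, 6), (21, 8), (73, 1), (80, 2)]), (3, [(18, 943), (20, 11), (21, 106), (73, 1), (80, 3)]), (3, [(19, 983), (21, 32), (73, 2), (74, 3)]), (0, [(0, 1), (20, 1), (72, 1)]), (1, [(21, 54)]), (3, [(0, 46), (7, 243), (23, 741), (81,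 2)]), (3, [(0, 34), (23, 982), (81, 4)]), (3, [(0, 416), (24, 581), (63, 4)]), (1, [(0, 5), (20, 4), (25, 2), (81, 1)]), (1, [(20, 5), (21, 4), (26, 2), (80, 1)]), (2, [(21, 70), (27, 49), (73, 1)]), (2, [(21, 101), (27, 19), (73, 1)]), (4, [(0, 204), (4, 2528), (15, 7479), (63, 40), (72, 4)]), (0, [(30, 1), (63, 1)]), (3, [(30, 4), (42, 129), (47, 859), (54, 9), (72, 3)]), (4, [(30, 49), (47, 6104), (54, 96), (57, 3915), (72, 25)]), (4, [(30, 47), (47, 7581), (54, 56), (57, 2480), (72, 23)]), (3, [(30, 4), (47, 645), (54, 20), (57, 353), (72, 2)]), (4, [(30, 43), (47, 6863), (54, 39), (57, 3208), (72, 17)]), (4, [(47, 5424), (54, 114), (57, 4629), (72, 5), (80, 6)]), (4, [(30, 30), (47, 6622), (54, 15), (57, 3475), (72, 11)]), (4, [(30, 12), (42, 10098), (54, 70), (72, 34)]), (4, [(47, 6174), (54, 27), (57, 4052), (73, 5)]), (3, [(47, 426), (54, 41), (57, 562), (73, 2)]), (4, [(30, 75), (47, 5880),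 (54, 31), (57, 4162), (72, 22)]), (3, [(30, 12), (47, 535), (54, 13), (57, 458), (72, 4)]), (3, [(53, 997), (55, 39), (73, 4)]), (3, [(30, 7), (47, 488), (54, 1), (57, 519), (72, 1)]), (3, [(47, 507), (54, 19), (57, 508), (73, 1)]), (3, [(30, 3), (47, 370), (54, 23), (57, 624), (72, 2)]), (3, [(30, 10), (47, 291), (54, 30), (57, 673), (72, 4)]), (3, [(48, 5), (53, 997), (71, 2), (73, 2)]), (4, [(30, 22), (47, 3707), (54, 7), (57, 6400), (72, 10)]), (3, [(30, 1), (54, 1), (57, 1016), (72, 3)]), (3, [(30, 1), (54, 2), (57, 1010), (81, 3)]), (4, [(30, 532), (52, 9726), (63, 34), (81, 1)]), (3, [(53, 956), (55, 89), (73, 4)]), (0, [(30, 1), (54, 1), (72, 1)]), (1, [(55, 54)]), (4, [(30, 18), (47, 497), (54, 17), (57, 9619), (72, 13)]), (3, [(30, 2), (54, 19), (57, 988), (72, 1), (81, 3)]), (2, [(55, 20), (58, 91), (73, 1), (82, 1)]), (1, [(54, 5), (55, 4), (59, 2), (80, 1)]), (3, [(55, 366), (58, 861),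 (82, 4)]), (1, [(30, 5), (54, 4), (61, 2), (81, 1)]), (4, [(30, 15), (54, 20), (57, 10112), (72, 10), (81, 8)]), (0, [(63, 2)]), (4, [(64, 10001)]), (3, [(70, 1001)]), (3, [(70, 1001)]), (4, [(70, 10001)]), (4, [(68, 10001)]), (2, [(71, 101)]), (4, [(70, 10001)]), (4, [(71, 10001)]), (0, [(72, 2)]), (0, [(73, 2)]), (4, [(74, 10001)]), (0, [(63, 2)]), (3, [(72, 1001)]), (1, [(74, 11)]), (2, [(74, 101)]), (0, [(73, 2)]), (0, [(72, 2)]), (0, [(63, 2)]), (1, [(73, 11)])],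
  [(2, [(57, 101)]), (4, [(17, 9526), (18, 547), (20, 8), (80, 26)]), (4, [(13, 48), (17, 10039), (65, 15), (80, 1)]), (3, [(17, 988), (18, 20), (80, 2)]), (3, [(17, 972), (18, 35), (80, 3)]), (3, [(17, 975), (18, 40), (80, 3)]), (3, [(0, 20), (7, 493), (23, 505), (63, 2), (81, 1)]), (3, [(0, 9), (7, 233), (22, 350), (23, 423), (63, 2)]), (4, [(0, 147), (7, 4878), (22, 752), (23, 4393), (63, 23)]), (3, [(0, 17), (7, 616), (23, 385), (63, 3)]), (4, [(0, 179), (7, 7195), (23, 2813), (63, 34), (81, 2)]), (4, [(17, 9523), (18, 546), (20, 8), (80, 26)]), (3, [(13, 169), (17, 839), (72, 2)]), (3, [(17, 1013), (18, 2), (80, 2)]), (4, [(17, 9804), (18, 267), (20, 6), (80, 26)]), (3, [(17, 978), (18, 36), (80, 3)]), (4, [(17, 9686), (18, 376), (20, 6), (80, 36)]), (4, [(17, 9698), (18, 358), (20, 5), (80, 41)]), (4, [(0, 191), (7, 8651), (23, 1360), (63, 33), (81, 4)]), (4, [(0, 124), (7, 7243), (23, 2804),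 (63, 21), (81, 5)]), (4, [(0, 153), (7, 9039), (23, 1001), (63, 35)]), (4, [(0, 189), (7, 653), (15, 9359), (63, 42), (81, 5)]), (3, [(0, 20), (4, 117), (15, 884), (63, 5)]), (4, [(0, 201), (4, 2445), (15, 7554), (63, 48), (72, 3)]), (3, [(30, 1), (47, 441), (54, 1), (57, 558), (72, 2)]), (3, [(32, 15), (46, 5), (47, 487), (57, 495), (72, 1)]), (4, [(30, 4), (47, 4228), (54, 6), (57, 5892), (72, 13)]), (4, [(30, 8), (47, 2947), (54, 10), (57, 7171), (72, 17)]), (3, [(30, 1), (47, 142), (54, 1), (57, 883), (72, 2)]), (3, [(30, 2), (47, 560), (54, 5), (57, 457), (72, 2)]), (4, [(30, 10), (47, 6046), (57, 4076), (63, 4), (72, 4)]), (4, [(30, 18), (47, 6293), (54, 15), (57, 3809), (72, 14)]), (4, [(30, 20), (47, 7017), (54, 27), (57, 3079), (72, 19)]), (4, [(30, 19), (47, 8188), (54, 32), (57, 1912), (72, 25)]), (4, [(30, 15), (47, 190), (54, 20), (57, 9932), (72, 16)]), (4, [(30, 11), (47, 3451), (57,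 6689), (63, 5), (72, 2)]), (3, [(30, 1), (47, 106), (54, 1), (57, 921), (72, 1)]), (4, [(30, 12), (54, 17), (57, 10132), (72, 12), (81, 3)]), (3, [(30, 1), (54, 2), (57, 1013), (72, 1), (81, 1)]), (3, [(30, 1), (54, 2), (57, 1012), (72, 1), (81, 2)]), (4, [(30, 11), (54, 21), (57, 10115), (72, 5), (81, 26)]), (4, [(30, 17), (47, 9833), (54, 46), (57, 277), (72, 24)]), (4, [(30, 6), (47, 8200), (54, 48), (57, 1913), (72, 15)]), (3, [(30, 1), (42, 68), (47, 943), (54, 3), (72, 2)]), (4, [(30, 12), (42, 8029), (47, 2082), (54, 58), (72, 24)]), (3, [(30, 1), (42, 1010), (54, 6), (72, 3)]), (4, [(30, 12), (42, 10099), (54, 65), (72, 34)]), (2, [(63, 1), (64, 99), (81, 1)]), (3, [(70, 1001)]), (0, [(0, 1), (63, 1)]), (2, [(23, 101)]), (4, [(10, 884), (13, 6716), (16, 2462), (65, 14)]), (3, [(0, 15), (7, 374), (23, 627), (81, 2)]), (3, [(0, 21), (4, 380), (15, 620), (63, 5)]), (3, [(16, 635), (17, 94),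 (18, 273), (65, 2), (73, 1)]), (4, [(0, 60), (7, 4343), (23, 5724), (81, 14)]), (4, [(0, 435), (7, 2811), (20, 20), (23, 7021), (81, 23)]), (3, [(16, 95), (17, 177), (18, 746), (65, 2), (73, 1)]), (3, [(17, 916), (18, 91), (80, 2)]), (3, [(17, 866), (18, 140), (20, 1), (80, 3)]), (3, [(17, 816), (18, 189), (20, 2), (80, 3)]), (3, [(18, 1016), (20, 1), (21, 2), (80, 2)]), (4, [(17, 7512), (18, 2519), (20, 38), (72, 4), (80, 31)]), (4, [(1, 1), (13, 5845), (17, 3936), (20, 504), (72, 23)]), (3, [(0, 22), (7, 341), (20, 1), (23, 654), (81, 2)]), (3, [(18, 1026), (21, 24), (73, 2)]), (3, [(18, 1005), (20, 6), (21, 8), (73, 1), (80, 3)]), (3, [(18, 941), (20, 11), (21, 106), (73, 1), (80, 3)]), (3, [(19, 980), (21, 32), (73, 1), (74, 3)]), (0, [(0, 1), (20, 1), (72, 1)]), (1, [(21, 57)]), (3, [(0, 46), (7, 133), (23, 851), (81, 2)]), (3, [(0, 34), (23, 980), (81, 4)]), (3, [(0, 499), (24, 696), (63,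 5)]), (1, [(0, 5), (20, 4), (25, 2), (81, 1)]), (1, [(20, 5), (21, 4), (26, 2), (80, 1)]), (2, [(21, 70), (27, 49), (73, 1)]), (2, [(21, 101), (27, 19), (73, 1)]), (3, [(0, 20), (4, 160), (15, 842), (63, 5)]), (0, [(30, 1), (63, 1)]), (4, [(30, 47), (47, 9097), (54, 87), (57, 963), (72, 29)]), (4, [(30, 50), (47, 4825), (54, 97), (57, 5183), (72, 26)]), (4, [(30, 47), (47, 6297), (54, 58), (57, 3754), (72, 24)]), (3, [(30, 4), (47, 518), (54, 20), (57, 479), (72, 2)]), (3, [(30, 4), (47, 558), (54, 4), (57, 448), (72, 2)]), (4, [(47, 4129), (54, 120), (57, 5912), (72, 9), (80, 4)]), (4, [(30, 31), (47, 5332), (54, 17), (57, 4753), (72, 13)]), (3, [(30, 1), (42, 989), (54, 7), (72, 4)]), (4, [(47, 4900), (54, 34), (57, 5309), (73, 3), (80, 4)]), (3, [(47, 301), (54, 41), (57, 686), (73, 2)]), (4, [(30, 76), (47, 4598), (54, 33), (57, 5433), (72, 24)]), (3, [(30, 12), (47, 409), (54, 13), (57, 584),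 (72, 4)]), (3, [(53, 995), (55, 39), (73, 4)]), (4, [(30, 74), (47, 3597), (54, 13), (57, 6461), (72, 13)]), (4, [(47, 3718), (54, 200), (55, 4), (57, 6269), (73, 13)]), (3, [(30, 3), (47, 239), (54, 23), (57, 734), (72, 3)]), (3, [(30, 10), (47, 169), (54, 30), (57, 795), (72, 4)]), (3, [(48, 1), (53, 1002), (71, 2), (73, 2)]), (4, [(30, 23), (47, 2416), (54, 9), (57, 7680), (72, 12)]), (3, [(30, 1), (54, 1), (57, 1014), (72, 3), (81, 1)]), (3, [(30, 1), (54, 2), (57, 1020), (81, 3)]), (3, [(30, 53), (52, 971), (63, 4)]), (3, [(53, 954), (55, 89), (73, 4)]), (0, [(30, 1), (54, 1), (72, 1)]), (1, [(55, 57)]), (4, [(30, 18), (54, 18), (57, 10100), (72, 12), (81, 3)]), (4, [(30, 21), (54, 190), (57, 9862), (72, 3), (81, 34)]), (2, [(55, 20), (58, 91), (73, 1), (82, 1)]), (1, [(54, 5), (55, 4), (59, 2), (80, 1)]), (3, [(55, 366), (58, 859), (82, 4)]), (1, [(30, 5), (54, 4), (61, 2), (81, 1)]), (3,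 [(30, 1), (54, 2), (57, 1009), (72, 1), (81, 1)]), (0, [(63, 2)]), (2, [(63, 1), (64, 99), (81, 1)]), (3, [(70, 1001)]), (3, [(70, 1001)]), (2, [(67, 96), (72, 5), (80, 2)]), (1, [(63, 3), (68, 9)]), (2, [(71, 101)]), (2, [(67, 95), (72, 9)]), (1, [(71, 8), (73, 4)]), (0, [(72, 2)]), (0, [(73, 2)]), (1, [(73, 5), (74, 7)]), (0, [(63, 2)]), (3, [(72, 1001)]), (1, [(74, 11)]), (3, [(74, 1001)]), (0, [(73, 2)]), (0, [(72, 2)]), (0, [(63, 2)]), (1, [(73, 11)])],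
  [(0, [(54, 2)]), (0, [(21, 4)]), (0, [(21, 3)]), (0, [(21, 3)]), (0, [(21, 4)]), (0, [(21, 5)]), (1, [(0, 10), (20, 1), (72, 1)]), (1, [(0, 10), (20, 1), (72, 1)]), (1, [(0, 10), (20, 1), (72, 1)]), (1, [(0, 10), (20, 1), (72, 1)]), (1, [(0, 10), (20, 1), (72, 1)]), (0, [(21, 4)]), (0, [(21, 3)]), (0, [(21, 3)]), (0, [(21, 4)]), (0, [(21, 5)]), (0, [(21, 5)]), (0, [(21, 6)]), (1, [(0, 10), (20, 1), (72, 1)]), (1, [(0, 10), (20, 1), (72, 1)]), (1, [(0, 10), (20, 1), (72, 1)]), (1, [(0, 10), (20, 1), (72, 1)]), (1, [(0, 10), (20, 1), (72, 1)]), (1, [(0, 10), (20, 1), (72, 1)]), (0, [(54, 5)]), (0, [(54, 3)]), (0, [(54, 4)]), (0, [(54, 5)]), (0, [(54, 6)]), (0, [(54, 6)]), (0, [(54, 3)]), (0, [(54, 4)]), (0, [(54, 5)]), (0, [(54, 6)]), (0, [(54, 5)]), (0, [(54, 3)]), (0, [(54, 4)]), (0, [(54, 5)]), (0, [(54, 6)]), (0, [(30, 1), (54, 1), (72, 1)]), (0, [(30, 1), (54, 1), (72, 1)]), (0, [(54, 6)]),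 (0, [(54, 4)]), (0, [(54, 5)]), (0, [(54, 6)]), (0, [(54, 7)]), (0, [(54, 8)]), (0, [(63, 1)]), (0, [(72, 2)]), (0, [(0, 1), (63, 1)]), (1, [(0, 10), (20, 1), (72, 1)]), (0, [(21, 2)]), (1, [(0, 10), (20, 1), (72, 1)]), (1, [(0, 10), (20, 1), (72, 1)]), (0, [(21, 3)]), (1, [(0, 10), (20, 1), (72, 1)]), (0, [(0, 1), (20, 1), (72, 1)]), (0, [(21, 3)]), (0, [(21, 3)]), (0, [(21, 4)]), (0, [(21, 5)]), (0, [(21, 4)]), (0, [(21, 5)]), (0, [(20, 5)]), (0, [(0, 1), (20, 1), (72, 1)]), (0, [(21, 4)]), (0, [(21, 5)]), (0, [(21, 6)]), (0, [(21, 3)]), (0, [(20, 2)]), (0, [(21, 2)]), (1, [(0, 10), (20, 1), (72, 1)]), (1, [(0, 10), (20, 1), (72, 1)]), (3, [(0, 999), (63, 2), (72, 1)]), (0, [(20, 3)]), (0, [(21, 2)]), (0, [(21, 5)]), (0, [(21, 3)]), (1, [(0, 10), (20, 1), (72, 1)]), (0, [(30, 1), (63, 1)]), (0, [(54, 7)]), (0, [(54, 7)]), (0, [(54, 6)]), (0, [(54, 5)]), (0, [(54, 5)]), (0, [(54, 4)]), (0, [(54,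 4)]), (0, [(54, 9)]), (0, [(54, 3)]), (0, [(54, 5)]), (0, [(54, 6)]), (0, [(54, 9)]), (0, [(55, 4)]), (0, [(54, 4)]), (0, [(54, 4)]), (0, [(54, 6)]), (0, [(54, 8)]), (0, [(55, 2)]), (0, [(54, 4)]), (0, [(30, 1), (54, 1), (72, 1)]), (0, [(30, 1), (54, 1), (72, 1)]), (2, [(30, 100), (54, 1), (72, 1)]), (0, [(55, 4)]), (0, [(54, 2)]), (0, [(55, 2)]), (0, [(54, 5)]), (0, [(54, 9)]), (0, [(55, 4)]), (0, [(55, 2)]), (0, [(55, 3)]), (0, [(54, 3)]), (0, [(54, 6)]), (0, [(63, 1)]), (0, [(63, 1)]), (0, [(72, 2)]), (0, [(72, 2)]), (0, [(72, 2)]), (0, [(63, 1)]), (0, [(73, 1)]), (0, [(72, 1)]), (0, [(73, 2)]), (0, [(72, 1)]), (0, [(73, 1)]), (0, [(73, 2)]), (0, [(63, 1)]), (0, [(72, 1)]), (0, [(73, 2)]), (0, [(73, 1)]), (0, [(73, 2)]), (0, [(73, 1)]), (0, [(72, 1)]), (0, [(73, 2)])],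
  [(3, [(37, 75), (41, 136), (46, 347), (57, 450)]), (3, [(17, 959), (18, 45), (20, 1), (80, 1)]), (3, [(13, 1001)]), (4, [(17, 9916), (18, 130), (20, 6), (80, 5)]), (3, [(17, 977), (18, 26), (80, 1)]), (4, [(17, 9773), (18, 307), (20, 10), (80, 15)]), (4, [(0, 238), (7, 5450), (23, 4468), (63, 8), (81, 7)]), (3, [(23, 1002)]), (5, [(23, 100052)]), (3, [(0, 20), (7, 617), (22, 49), (23, 314), (63, 2)]), (3, [(0, 21), (7, 753), (22, 8), (23, 220), (63, 3)]), (3, [(17, 959), (18, 44), (20, 1), (80, 1)]), (3, [(13, 1001)]), (5, [(1, 4), (17, 100413), (20, 105), (72, 38), (80, 14)]), (3, [(17, 985), (18, 18), (20, 1), (80, 1)]), (4, [(17, 9807), (18, 267), (20, 11), (80, 15)]), (3, [(17, 979), (18, 28), (20, 1), (80, 2)]), (4, [(17, 9759), (18, 260), (20, 11), (80, 26)]), (4, [(0, 225), (7, 9154), (23, 799), (63, 21), (81, 1)]), (5, [(23, 100052)]), (3, [(0, 18), (7, 839), (22, 138), (23, 22), (63,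 2)]), (3, [(0, 22), (4, 40), (15, 955), (63, 3)]), (4, [(0, 238), (4, 1657), (15, 8445), (63, 31), (72, 2)]), (4, [(0, 238), (4, 2904), (15, 7032), (63, 32), (72, 3)]), (3, [(57, 1001)]), (3, [(57, 1002)]), (3, [(57, 1001)]), (3, [(57, 1001)]), (4, [(30, 14), (47, 2051), (54, 15), (57, 8029), (72, 6)]), (4, [(30, 27), (47, 6167), (54, 55), (57, 3851), (72, 6)]), (3, [(42, 1001)]), (2, [(47, 101)]), (4, [(30, 25), (47, 7639), (54, 27), (57, 2415), (72, 4)]), (3, [(30, 2), (47, 881), (54, 3), (57, 125), (72, 1)]), (2, [(57, 101)]), (2, [(57, 101)]), (2, [(57, 101)]), (2, [(57, 101)]), (4, [(30, 16), (54, 21), (57, 10088), (61, 1), (81, 5)]), (3, [(30, 1), (54, 2), (57, 1008), (81, 1)]), (3, [(30, 1), (54, 2), (57, 997), (81, 2)]), (3, [(30, 2), (42, 158), (47, 848), (54, 5), (72, 1)]), (2, [(47, 101)]), (4, [(30, 16), (42, 3436), (47, 6639), (54, 46), (72, 5)]), (4, [(30, 17), (42, 10060), (54, 65),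 (72, 8)]), (4, [(30, 18), (42, 10054), (54, 65), (72, 13)]), (3, [(30, 2), (42, 993), (54, 6), (72, 2)]), (2, [(63, 2), (64, 98), (81, 1)]), (2, [(67, 98), (72, 2), (80, 1)]), (0, [(0, 1), (63, 1)]), (2, [(3, 9), (15, 2), (22, 53), (23, 37)]), (3, [(13, 1001)]), (3, [(23, 1001)]), (4, [(0, 245), (4, 4257), (15, 5685), (63, 30), (72, 4)]), (3, [(17, 1001)]), (3, [(23, 1002)]), (3, [(0, 49), (7, 324), (20, 2), (23, 652), (81, 1)]), (4, [(17, 2979), (18, 7146), (20, 4), (80, 2)]), (4, [(17, 9207), (18, 788), (20, 11), (80, 5)]), (5, [(1, 2), (17, 87776), (18, 12454), (20, 186), (80, 97)]), (4, [(17, 8335), (18, 1675), (20, 33), (80, 15)]), (3, [(18, 999), (20, 2), (21, 1), (26, 1), (80, 1)]), (3, [(17, 775), (18, 224), (20, 5), (80, 2)]), (3, [(13, 730), (17, 241), (20, 57), (72, 1)]), (4, [(0, 254), (7, 3850), (20, 15), (23, 6051), (81, 4)]), (3, [(18, 998), (21, 29), (73, 1)]), (3, [(18, 988), (20,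 7), (21, 6), (80, 2)]), (3, [(18, 939), (20, 17), (21, 98), (80, 3)]), (4, [(19, 9751), (21, 364), (74, 21)]), (0, [(20, 5)]), (0, [(21, 4)]), (3, [(23, 1001)]), (4, [(0, 380), (23, 9743), (25, 7), (81, 22)]), (3, [(0, 535), (24, 662), (63, 3)]), (1, [(0, 6), (20, 4), (25, 2), (81, 1)]), (1, [(20, 6), (21, 4), (26, 2), (80, 1)]), (3, [(21, 615), (27, 382), (73, 4), (82, 1)]), (0, [(21, 6)]), (4, [(0, 241), (4, 2093), (15, 8026), (63, 29), (72, 3)]), (0, [(30, 1), (63, 1)]), (4, [(30, 57), (47, 9706), (54, 83), (57, 312), (72, 13)]), (4, [(30, 61), (47, 5451), (54, 94), (57, 4516), (72, 11)]), (4, [(30, 57), (47, 6918), (54, 57), (57, 3090), (72, 9)]), (4, [(30, 52), (47, 5798), (54, 192), (57, 4131), (72, 4)]), (4, [(30, 51), (47, 6202), (54, 41), (57, 3816), (72, 4)]), (3, [(47, 1001)]), (3, [(47, 1001)]), (3, [(30, 1), (42, 1018), (54, 6), (72, 2)]), (3, [(47, 1001)]), (4, [(47, 3612), (54, 461),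 (55, 3), (57, 6191), (73, 4)]), (4, [(30, 87), (47, 5225), (54, 33), (57, 4762), (72, 8)]), (4, [(30, 143), (47, 4708), (54, 128), (57, 5171), (72, 22)]), (3, [(53, 1015), (55, 46), (73, 2)]), (3, [(47, 1001)]), (3, [(47, 1001)]), (3, [(30, 4), (47, 307), (54, 22), (57, 683), (72, 1)]), (3, [(30, 12), (47, 234), (54, 29), (57, 744), (72, 2)]), (3, [(53, 1012), (55, 1), (73, 1)]), (3, [(57, 1001)]), (4, [(30, 18), (54, 18), (57, 10101), (72, 12), (81, 3)]), (4, [(30, 15), (54, 19), (57, 9966), (61, 5), (81, 16)]), (4, [(30, 604), (52, 9640), (63, 20), (81, 1)]), (4, [(53, 9456), (55, 1000), (73, 23)]), (0, [(54, 5)]), (0, [(55, 4)]), (2, [(57, 101)]), (4, [(30, 31), (54, 177), (57, 9876), (61, 3), (81, 21)]), (2, [(55, 22), (58, 90), (73, 1), (82, 1)]), (1, [(54, 6), (55, 4), (59, 2), (80, 1)]), (3, [(55, 403), (58, 843), (82, 3)]), (1, [(30, 6), (54, 4), (61, 2), (81, 1)]), (4, [(30, 19), (54, 21),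 (57, 10056), (61, 2), (81, 5)]), (0, [(63, 2)]), (2, [(63, 2), (64, 98), (81, 1)]), (2, [(67, 98), (72, 2), (80, 1)]), (2, [(67, 96), (72, 4), (80, 1)]), (2, [(67, 95), (72, 6), (80, 1)]), (1, [(63, 3), (68, 9)]), (2, [(71, 101)]), (2, [(67, 68), (70, 27), (72, 10)]), (1, [(71, 8), (73, 4)]), (0, [(72, 2)]), (0, [(73, 2)]), (1, [(73, 6), (74, 6)]), (0, [(63, 2)]), (1, [(72, 11)]), (1, [(74, 11)]), (2, [(73, 101)]), (0, [(73, 2)]), (0, [(72, 2)]), (0, [(63, 2)]), (1, [(73, 11)])],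
  [(2, [(57, 101)]), (4, [(17, 9314), (18, 697), (20, 67), (80, 5)]), (2, [(17, 101)]), (3, [(17, 1001)]), (3, [(17, 944), (18, 52), (20, 5), (80, 1)]), (3, [(17, 944), (18, 56), (20, 5), (80, 1)]), (2, [(23, 101)]), (2, [(23, 101)]), (2, [(23, 101)]), (2, [(23, 101)]), (2, [(23, 101)]), (4, [(17, 9311), (18, 695), (20, 67), (80, 5)]), (3, [(13, 1001)]), (3, [(17, 1001)]), (4, [(17, 9585), (18, 427), (20, 58), (80, 5)]), (3, [(17, 949), (18, 52), (20, 6), (80, 1)]), (3, [(17, 941), (18, 53), (20, 6), (80, 2)]), (3, [(17, 955), (18, 51), (20, 6), (80, 2)]), (2, [(23, 101)]), (2, [(23, 101)]), (2, [(23, 101)]), (2, [(23, 101)]), (4, [(0, 694), (7, 6772), (23, 3055), (63, 17), (81, 5)]), (3, [(0, 70), (7, 828), (23, 155), (63, 3)]), (2, [(57, 101)]), (2, [(57, 101)]), (2, [(57, 101)]), (2, [(57, 101)]), (2, [(57, 101)]), (2, [(57, 101)]), (2, [(57, 101)]), (2, [(57, 101)]), (2, [(57, 101)]), (2, [(57,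 101)]), (2, [(57, 101)]), (2, [(57, 101)]), (2, [(57, 101)]), (2, [(57, 101)]), (2, [(57, 101)]), (3, [(30, 6), (54, 2), (57, 1005), (61, 1), (81, 1)]), (3, [(30, 6), (54, 2), (57, 1004), (61, 1), (81, 1)]), (2, [(57, 101)]), (2, [(57, 101)]), (2, [(47, 101)]), (2, [(57, 101)]), (3, [(30, 11), (47, 783), (54, 5), (57, 228), (72, 1)]), (3, [(30, 11), (47, 938), (54, 5), (57, 51), (72, 2)]), (2, [(63, 7), (64, 94), (81, 1)]), (2, [(67, 95), (72, 7)]), (0, [(0, 1), (63, 1)]), (2, [(23, 101)]), (3, [(13, 1002)]), (2, [(23, 101)]), (3, [(0, 74), (7, 948), (15, 81), (63, 4)]), (3, [(17, 1001)]), (2, [(23, 101)]), (2, [(23, 101)]), (3, [(17, 1001)]), (3, [(17, 1001)]), (5, [(1, 5), (17, 84595), (18, 15334), (20, 838), (80, 46)]), (4, [(17, 8032), (18, 1933), (20, 128), (80, 10)]), (0, [(18, 1)]), (4, [(17, 7465), (18, 2462), (20, 177), (80, 15)]), (3, [(17, 1001)]), (2, [(23, 101)]), (2, [(18, 101)]),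 (3, [(18, 990), (20, 30), (21, 8), (26, 2), (80, 2)]), (3, [(18, 910), (20, 79), (21, 102), (26, 1), (80, 2)]), (3, [(19, 943), (21, 104), (74, 2)]), (0, [(20, 4)]), (0, [(21, 3)]), (3, [(23, 1001)]), (3, [(0, 110), (23, 940), (25, 1), (81, 2)]), (3, [(0, 845), (24, 352), (63, 3)]), (1, [(0, 8), (20, 2), (25, 1), (81, 1)]), (0, [(20, 6)]), (3, [(21, 824), (27, 173), (73, 4), (82, 1)]), (0, [(21, 5)]), (4, [(0, 698), (7, 7300), (23, 2539), (63, 17), (81, 7)]), (0, [(30, 1), (63, 1)]), (3, [(30, 22), (47, 320), (54, 11), (57, 677), (72, 1)]), (3, [(30, 22), (54, 12), (57, 972), (61, 1), (81, 1)]), (2, [(57, 101)]), (2, [(57, 101)]), (2, [(57, 101)]), (2, [(57, 101)]), (2, [(57, 101)]), (3, [(30, 11), (42, 551), (47, 437), (54, 6), (72, 2)]), (2, [(57, 101)]), (2, [(57, 101)]), (2, [(57, 101)]), (3, [(30, 45), (54, 16), (57, 975), (72, 1), (81, 1)]), (3, [(43, 939), (54, 7), (55, 108), (73, 2)]), (2,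 [(57, 101)]), (2, [(57, 101)]), (3, [(57, 1001)]), (3, [(30, 42), (54, 32), (57, 935), (61, 1), (81, 2)]), (3, [(53, 1000), (55, 26), (73, 1)]), (2, [(57, 101)]), (3, [(30, 6), (54, 2), (57, 1006), (81, 1)]), (3, [(30, 6), (54, 2), (57, 1011), (61, 1), (81, 1)]), (3, [(30, 172), (52, 914), (63, 2)]), (3, [(53, 873), (55, 275), (73, 2)]), (0, [(54, 4)]), (0, [(55, 3)]), (2, [(57, 101)]), (4, [(30, 157), (54, 190), (57, 9752), (61, 16), (81, 17)]), (3, [(55, 504), (58, 693), (82, 3)]), (0, [(54, 6)]), (3, [(55, 692), (58, 506), (82, 2)]), (1, [(30, 8), (54, 2), (61, 1), (81, 1)]), (2, [(57, 101)]), (0, [(63, 2)]), (2, [(63, 7), (64, 94), (81, 1)]), (2, [(67, 95), (72, 7)]), (2, [(67, 92), (72, 13)]), (1, [(67, 9), (72, 2)]), (2, [(63, 101)]), (2, [(71, 101)]), (2, [(63, 3), (70, 92), (72, 12)]), (1, [(69, 6), (72, 1), (73, 5)]), (0, [(72, 2)]), (0, [(73, 2)]), (0, [(73, 2)]), (0, [(63, 2)]), (0, [(72,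 2)]), (1, [(74, 11)]), (0, [(73, 2)]), (0, [(73, 2)]), (0, [(72, 2)]), (0, [(63, 2)]), (0, [(73, 2)])],
  [(4, [(30, 1030), (52, 9557), (68, 2), (81, 10)]), (3, [(0, 65), (4, 210), (15, 752), (20, 6), (72, 2)]), (4, [(0, 319), (4, 2641), (15, 7152), (20, 55), (72, 5)]), (4, [(0, 442), (4, 1957), (15, 7780), (20, 58), (72, 12)]), (3, [(0, 53), (4, 107), (15, 887), (20, 5), (72, 2)]), (3, [(0, 58), (7, 50), (15, 921), (20, 5), (72, 3)]), (3, [(0, 924), (24, 272), (63, 4)]), (3, [(0, 661), (24, 338), (63, 2)]), (3, [(0, 872), (24, 325), (63, 3)]), (3, [(0, 901), (24, 296), (63, 3)]), (3, [(0, 913), (24, 283), (63, 4)]), (3, [(0, 60), (7, 907), (20, 6), (23, 33), (81, 2)]), (3, [(0, 59), (4, 136), (15, 807), (20, 4), (72, 1)]), (4, [(0, 551), (7, 5447), (15, 4304), (20, 52), (72, 14)]), (3, [(0, 54), (7, 827), (20, 6), (23, 121), (81, 2)]), (3, [(23, 1001)]), (3, [(0, 58), (7, 530), (20, 6), (23, 414),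 (81, 2)]), (3, [(0, 61), (7, 393), (20, 6), (23, 584), (81, 2)]), (3, [(0, 924), (24, 272), (63, 4)]), (3, [(0, 845), (24, 352), (63, 3)]), (3, [(0, 890), (24, 307), (63, 3)]), (3, [(0, 908), (24, 288), (63, 4)]), (3, [(0, 916), (24, 280), (63, 5)]), (2, [(0, 92), (24, 28), (63, 1)]), (4, [(30, 3422), (52, 8605), (63, 14), (68, 5), (81, 15)]), (3, [(30, 183), (52, 921), (68, 1), (81, 1)]), (4, [(30, 2437), (52, 8975), (63, 7), (68, 4), (81, 14)]), (3, [(30, 283), (52, 885), (63, 2), (81, 1)]), (4, [(30, 3080), (52, 8763), (63, 24), (81, 14)]), (3, [(30, 402), (52, 595), (63, 1), (68, 1), (81, 2)]), (3, [(30, 339), (52, 861), (68, 1), (81, 1)]), (4, [(30, 3483), (52, 6495), (63, 5), (68, 7), (81, 13)]), (3, [(30, 377), (52, 621), (63, 1), (68, 1), (81, 1)]), (3, [(30, 390), (52, 607), (63, 1), (68, 1), (81, 2)]), (3, [(30, 343), (52, 864), (63, 2), (81, 1)]), (3, [(30, 321), (52, 873), (63, 1), (81,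 1)]), (3, [(30, 340), (52, 989), (63, 2), (81, 1)]), (3, [(30, 308), (52, 877), (63, 2), (81, 1)]), (4, [(30, 3190), (52, 8722), (63, 25), (81, 14)]), (3, [(30, 328), (52, 869), (63, 3), (81, 1)]), (3, [(30, 334), (52, 866), (63, 4), (81, 1)]), (3, [(30, 403), (52, 595), (63, 1), (68, 2), (81, 2)]), (4, [(30, 4032), (52, 8391), (68, 5), (81, 24)]), (3, [(30, 439), (52, 757), (68, 1), (81, 2)]), (3, [(30, 385), (52, 612), (68, 2), (81, 2)]), (3, [(30, 394), (52, 603), (63, 1), (68, 2), (81, 2)]), (3, [(30, 399), (52, 598), (63, 1), (68, 3), (81, 2)]), (0, [(63, 2)]), (2, [(68, 101)]), (0, [(0, 1), (63, 1)]), (3, [(0, 398), (24, 801), (63, 1)]), (3, [(0, 16), (4, 237), (15, 751), (20, 4)]), (3, [(0, 858), (24, 339), (63, 3)]), (2, [(0, 92), (24, 27), (63, 1)]), (3, [(0, 43), (4, 231), (15, 717), (20, 14), (72, 1)]), (3, [(0, 693), (24, 505), (63, 2)]), (3, [(0, 1035), (24, 161), (63, 3)]), (3, [(0,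 78), (4, 177), (15, 737), (20, 19), (72, 2)]), (4, [(0, 591), (4, 2114), (15, 7529), (20, 71), (72, 12)]), (3, [(0, 78), (4, 139), (15, 783), (20, 7), (72, 2)]), (3, [(0, 117), (4, 157), (15, 779), (20, 8), (72, 3)]), (3, [(0, 143), (4, 131), (15, 785), (20, 25), (72, 2)]), (3, [(0, 156), (4, 91), (15, 827), (20, 9), (72, 3)]), (2, [(23, 101)]), (3, [(0, 934), (24, 263), (63, 3)]), (2, [(0, 17), (4, 10), (15, 71), (20, 6), (72, 1)]), (2, [(0, 27), (4, 8), (15, 79), (20, 3), (72, 1)]), (2, [(0, 46), (7, 48), (20, 8), (72, 1), (81, 1)]), (2, [(18, 101)]), (1, [(0, 10), (20, 1), (72, 1)]), (0, [(20, 4)]), (3, [(0, 1040), (24, 157), (63, 3)]), (2, [(0, 100), (24, 20), (63, 1)]), (4, [(0, 11975), (63, 25)]), (1, [(0, 10), (63, 1), (81, 1)]), (0, [(25, 3)]), (0, [(21, 6)]), (0, [(20, 6)]), (3, [(0, 917), (24, 278), (63, 5)]), (0, [(30, 1), (63, 1)]), (3, [(30, 548), (52, 449), (63, 2), (68, 1), (81, 2)]),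 (3, [(30, 548), (52, 450), (63, 2), (68, 1), (81, 2)]), (3, [(30, 521), (52, 477), (63, 2), (68, 1), (81, 2)]), (3, [(30, 686), (52, 510), (81, 3)]), (3, [(30, 490), (52, 508), (63, 2), (68, 1), (81, 2)]), (3, [(30, 402), (52, 795), (81, 3)]), (3, [(30, 498), (52, 699), (63, 1), (68, 1), (81, 1)]), (3, [(30, 403), (52, 594), (63, 1), (68, 3), (81, 2)]), (3, [(30, 249), (52, 894), (81, 2)]), (3, [(30, 557), (52, 439), (61, 2), (81, 3)]), (3, [(30, 583), (52, 415), (63, 3), (68, 1), (81, 1)]), (3, [(30, 703), (52, 293), (63, 4), (68, 1), (81, 2)]), (2, [(57, 101)]), (3, [(30, 564), (52, 434), (63, 2), (81, 1)]), (3, [(30, 494), (52, 701), (61, 2), (81, 3)]), (3, [(30, 552), (52, 446), (63, 1), (68, 1), (81, 4)]), (3, [(30, 707), (52, 289), (63, 2), (81, 3)]), (3, [(47, 1002)]), (3, [(30, 343), (52, 656), (63, 2), (81, 1)]), (3, [(30, 343), (52, 866), (63, 4), (81, 1)]), (3, [(30, 343), (52, 860),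 (63, 4), (81, 1)]), (3, [(30, 1198), (63, 2)]), (1, [(30, 3), (42, 1), (47, 6), (54, 3), (72, 1)]), (1, [(30, 10), (54, 1), (72, 1)]), (0, [(54, 4)]), (3, [(30, 377), (52, 850), (63, 2), (81, 1)]), (3, [(30, 501), (52, 495), (63, 3), (81, 3)]), (0, [(55, 5)]), (0, [(61, 3)]), (0, [(54, 6)]), (1, [(30, 10), (63, 1), (81, 1)]), (3, [(30, 354), (52, 857), (63, 3), (81, 1)]), (0, [(63, 2)]), (0, [(63, 2)]), (1, [(68, 11)]), (1, [(63, 11)]), (1, [(63, 11)]), (0, [(63, 2)]), (1, [(63, 3), (64, 8), (72, 1)]), (0, [(63, 2)]), (1, [(63, 11)]), (0, [(63, 2)]), (0, [(63, 2)]), (0, [(72, 2)]), (0, [(63, 2)]), (0, [(63, 2)]), (0, [(72, 2)]), (0, [(63, 2)]), (0, [(72, 2)]), (0, [(63, 2)]), (0, [(63, 2)]), (0, [(72, 2)])]]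

set_option maxRecDepth 100000 in
theorem okUG1 : chkRect LD LG LU1 cUG1 = true := by decide +kernel

end Pool.Agent.Lib.MP_dbb03c_co.Full
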