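import Pool.Agent.Lib.MP_dbb03c_co.Full.Data

/-! # Certificate data (generated) -/

namespace Pool.Agent.Lib.MP_dbb03c_co.Full

set_option maxRecDepth 100000 in
def cUG2 : List (List Ct) := [
  [(0, [(35, 1)]), (4, [(17, 7220), (18, 2863), (20, 9), (72, 4)]), (2, [(17, 101)]), (2, [(17, 101)]), (4, [(17, 7569), (18, 2538), (20, 4), (72, 3), (80, 1)]), (4, [(17, 7477), (18, 2625), (20, 6), (72, 2), (80, 7)]), (4, [(0, 277), (4, 541), (15, 9296), (63, 14), (72, 8)]), (3, [(0, 15), (4, 88), (15, 904), (63, 1)]), (4, [(0, 217), (4, 1073), (15, 8894), (63, 10), (72, 3)]), (4, [(0, 247), (4, 1582), (15, 8277), (63, 12), (72, 5)]), (4, [(0, 262), (4, 2416), (15, 7431), (63, 14), (72, 7)]), (4, [(17, 7295), (18, 2806), (20, 10), (80, 4)]), (2, [(17, 101)]), (2, [(17, 101)]), (4, [(17, 7716), (18, 2385), (20, 8), (80, 4)]), (4, [(17, 7550), (18, 2547), (20, 8), (80, 9)]), (4, [(17, 7493), (18, 2600), (20, 8),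 (80, 14)]), (4, [(17, 7489), (18, 2599), (20, 8), (80, 19)]), (5, [(0, 2819), (4, 35917), (15, 62442), (63, 58), (72, 97)]), (4, [(0, 194), (4, 2429), (15, 7464), (63, 2), (72, 8)]), (5, [(0, 2389), (4, 39205), (15, 59443), (63, 35), (72, 85)]), (4, [(0, 261), (4, 5173), (15, 4677), (63, 5), (72, 9)]), (3, [(0, 27), (4, 641), (15, 343), (63, 1), (72, 1)]), (3, [(0, 27), (4, 762), (15, 211), (63, 1), (72, 1)]), (3, [(47, 1001)]), (3, [(46, 1001)]), (2, [(47, 101)]), (2, [(47, 101)]), (4, [(30, 4), (47, 8665), (54, 41), (57, 1391), (72, 5)]), (3, [(42, 1001)]), (3, [(47, 1002)]), (3, [(47, 1001)]), (3, [(47, 1001)]), (4, [(30, 12), (42, 9947), (54, 122), (72, 3)]), (2, [(47, 101)]), (2, [(47, 101)]), (2, [(47, 101)]), (2, [(47, 101)]), (2, [(57, 101)]), (3, [(30, 1), (47, 288), (54, 5), (57, 720), (72, 1)]), (3, [(30, 1), (47, 105), (54, 5), (57, 916), (72, 1)]), (3, [(42, 1001)]), (3, [(47, 1001)]),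 (3, [(47, 1001)]), (4, [(30, 9), (42, 9941), (54, 133), (72, 3)]), (3, [(30, 1), (42, 986), (54, 13), (72, 1)]), (4, [(30, 10), (42, 9929), (54, 137), (72, 13)]), (2, [(63, 2), (64, 99)]), (2, [(66, 99), (72, 2)]), (0, [(0, 1), (63, 1)]), (4, [(0, 25), (6, 2892), (15, 6403), (29, 705), (63, 6)]), (0, [(12, 1)]), (5, [(0, 1817), (7, 97674), (15, 1453), (20, 18), (72, 108)]), (3, [(0, 28), (4, 907), (15, 77), (63, 1), (72, 1)]), (2, [(17, 101)]), (5, [(0, 1015), (4, 73), (15, 99417), (20, 1), (72, 104)]), (3, [(0, 52), (7, 894), (20, 3), (23, 77), (81, 2)]), (3, [(17, 1001)]), (2, [(17, 101)]), (4, [(17, 5956), (18, 4135), (20, 13), (72, 3)]), (4, [(17, 5149), (18, 4928), (20, 26), (72, 8)]), (0, [(18, 1)]), (4, [(17, 4170), (18, 5907), (20, 41), (72, 13)]), (2, [(17, 101)]), (3, [(0, 27), (7, 975), (20, 2), (23, 22), (81, 1)]), (2, [(18, 101)]), (3, [(18, 1016), (20, 5), (21, 25), (73, 1)]), (3, [(18,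 917), (20, 6), (21, 167), (73, 2)]), (3, [(19, 978), (21, 39), (73, 2), (74, 1)]), (0, [(20, 4)]), (0, [(21, 3)]), (4, [(0, 549), (7, 7470), (20, 7), (23, 2237), (81, 12)]), (3, [(0, 40), (23, 975), (25, 2), (81, 2)]), (3, [(0, 558), (24, 640), (63, 2)]), (1, [(0, 5), (20, 5), (25, 2), (81, 1)]), (0, [(21, 4)]), (3, [(21, 633), (27, 365), (73, 3), (82, 1)]), (0, [(21, 5)]), (4, [(0, 274), (4, 6849), (15, 3000), (63, 4), (72, 12)]), (0, [(30, 1), (63, 1)]), (3, [(30, 4), (42, 988), (54, 21), (72, 1)]), (3, [(30, 4), (42, 852), (47, 136), (54, 20), (72, 1)]), (4, [(30, 43), (42, 9913), (54, 154), (72, 3)]), (3, [(47, 1001)]), (3, [(47, 1001)]), (3, [(47, 1001)]), (3, [(47, 1001)]), (3, [(30, 1), (42, 993), (54, 14), (72, 2)]), (3, [(47, 1002)]), (3, [(47, 1001)]), (4, [(30, 78), (42, 7557), (47, 2366), (54, 101), (72, 4)]), (3, [(30, 13), (42, 553), (47, 427), (54, 25), (72, 2)]), (3, [(53, 989), (55,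 49), (73, 2)]), (3, [(47, 1001)]), (3, [(47, 1001)]), (3, [(30, 1), (47, 950), (54, 38), (57, 32), (72, 1)]), (3, [(30, 9), (47, 870), (54, 48), (57, 99), (72, 2)]), (4, [(53, 10110), (55, 29), (73, 5)]), (2, [(47, 101)]), (4, [(30, 10), (47, 5857), (54, 45), (57, 4223), (72, 14)]), (3, [(30, 1), (47, 1), (54, 6), (57, 1005), (72, 1)]), (5, [(30, 6554), (52, 96470), (63, 146), (81, 17)]), (3, [(53, 945), (55, 108), (73, 2)]), (0, [(54, 4)]), (0, [(55, 3)]), (3, [(47, 1001)]), (4, [(30, 16), (54, 310), (57, 9804), (72, 13), (81, 4)]), (2, [(55, 22), (58, 82), (73, 1), (82, 1)]), (0, [(55, 4)]), (3, [(55, 406), (58, 792), (82, 2)]), (1, [(30, 5), (54, 5), (61, 2), (81, 1)]), (3, [(57, 1001)]), (0, [(63, 2)]), (2, [(63, 2), (64, 99)]), (4, [(67, 10001)]), (2, [(66, 96), (72, 4), (73, 1)]), (2, [(66, 95), (72, 7), (73, 1), (80, 1)]), (1, [(63, 3), (68, 9)]), (2, [(71, 101)]), (2, [(67, 94), (72, 10), (80,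 1)]), (1, [(71, 8), (73, 4)]), (0, [(72, 2)]), (0, [(73, 2)]), (2, [(73, 101)]), (0, [(63, 2)]), (1, [(72, 11)]), (1, [(74, 11)]), (1, [(73, 11)]), (0, [(73, 2)]), (0, [(73, 2)]), (0, [(63, 2)]), (1, [(73, 11)])],
  [(4, [(37, 3034), (39, 4952), (49, 2111), (70, 5), (72, 47)]), (3, [(17, 989), (18, 27), (69, 1), (72, 2), (73, 2)]), (3, [(11, 368), (17, 646), (69, 1), (73, 3)]), (4, [(11, 1848), (17, 8312), (69, 5), (72, 8), (73, 33)]), (3, [(11, 132), (17, 867), (72, 1), (73, 4)]), (4, [(13, 1171), (17, 9017), (72, 15), (73, 36), (80, 4)]), (4, [(0, 204), (4, 1626), (15, 8349), (63, 61), (72, 4)]), (4, [(0, 103), (6, 2091), (15, 5596), (29, 2358), (63, 52)]), (4, [(0, 153), (4, 2162), (15, 7851), (63, 54)]), (3, [(0, 18), (4, 269), (15, 731), (63, 6)]), (4, [(0, 192), (4, 3538), (15, 6445), (63, 59), (72, 3)]), (3, [(17, 1003), (18, 17), (72, 2), (73, 2), (80, 1)]), (4, [(11, 3058), (17, 7126), (69,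 2), (72, 25), (73, 13)]), (4, [(13, 1874), (17, 8324), (72, 17), (73, 23), (80, 5)]), (4, [(13, 863), (17, 9331), (72, 14), (73, 23), (80, 13)]), (4, [(13, 372), (17, 9817), (72, 13), (73, 21), (80, 20)]), (3, [(13, 20), (17, 999), (72, 1), (73, 2), (80, 3)]), (4, [(13, 210), (17, 9971), (72, 12), (73, 18), (80, 35)]), (4, [(0, 209), (4, 4735), (15, 5238), (63, 52), (72, 5)]), (4, [(0, 135), (4, 3554), (15, 6470), (63, 48), (72, 4)]), (4, [(0, 173), (4, 5071), (15, 4927), (63, 49), (72, 4)]), (4, [(0, 191), (4, 6347), (15, 3638), (63, 50), (72, 5)]), (4, [(0, 200), (4, 7611), (15, 2367), (63, 52), (72, 6)]), (4, [(0, 204), (4, 8923), (15, 1051), (63, 53), (72, 7)]), (3, [(42, 1028), (54, 1), (72, 4)]), (4, [(31, 1867), (32, 7888), (45, 370), (54, 5), (72, 42)]), (4, [(31, 217), (32, 5833), (42, 4088), (54, 11), (72, 43)]), (4, [(32, 484), (42, 6299), (47, 3388), (54, 1), (72, 43)]), (4, [(42, 4819),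 (47, 4317), (57, 1048), (63, 6), (72, 42)]), (4, [(30, 13), (42, 10075), (54, 65), (72, 45)]), (3, [(42, 1013), (72, 3)]), (3, [(30, 1), (42, 1011), (54, 2), (72, 4)]), (3, [(30, 1), (42, 1024), (54, 4), (72, 4)]), (4, [(30, 13), (42, 10084), (54, 47), (72, 47)]), (4, [(42, 1486), (47, 7242), (57, 1472), (63, 15), (72, 29)]), (3, [(42, 921), (47, 115), (63, 1), (72, 2)]), (4, [(42, 5156), (47, 3561), (57, 1482), (63, 8), (72, 29)]), (3, [(42, 275), (47, 480), (57, 286), (63, 1), (72, 3)]), (4, [(42, 888), (47, 5152), (57, 4181), (63, 16), (72, 32)]), (3, [(47, 434), (57, 567), (63, 2), (72, 4)]), (4, [(30, 6), (47, 2575), (57, 7663), (63, 11), (72, 45)]), (4, [(30, 12), (42, 10071), (54, 66), (72, 45)]), (3, [(42, 1010), (54, 6), (72, 4)]), (3, [(42, 1023), (54, 5), (72, 4)]), (3, [(30, 1), (42, 993), (54, 5), (72, 5)]), (3, [(30, 1), (42, 1022), (54, 5), (72, 5)]), (4, [(30, 12), (42, 10067), (54,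 56), (72, 57)]), (2, [(64, 101)]), (2, [(67, 101)]), (0, [(0, 1), (63, 1)]), (3, [(4, 137), (6, 654), (15, 220), (63, 5)]), (3, [(5, 501), (11, 427), (17, 84), (71, 1), (73, 4)]), (2, [(0, 1), (4, 6), (15, 96), (63, 1)]), (4, [(0, 210), (4, 9979), (63, 51), (64, 1), (72, 8)]), (3, [(16, 679), (17, 148), (18, 189), (71, 1), (73, 4)]), (4, [(0, 56), (4, 1093), (15, 8980), (63, 47), (72, 5)]), (4, [(0, 455), (15, 9845), (63, 3), (72, 38), (81, 27)]), (3, [(16, 134), (17, 219), (18, 671), (71, 1), (73, 4)]), (4, [(17, 9594), (18, 563), (69, 6), (72, 15), (73, 23)]), (3, [(17, 872), (18, 127), (72, 3), (73, 2)]), (4, [(17, 7932), (18, 2226), (20, 2), (72, 53)]), (4, [(18, 10237), (20, 14), (21, 9), (73, 45)]), (3, [(17, 727), (18, 288), (20, 1), (72, 6)]), (3, [(13, 586), (17, 405), (20, 49), (72, 5)]), (3, [(0, 23), (4, 33), (15, 964), (63, 3), (72, 3)]), (3, [(18, 1012), (21, 22), (73, 5)]), (3, [(18,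 1014), (20, 6), (21, 7), (73, 6)]), (2, [(18, 95), (20, 1), (21, 11), (73, 1)]), (3, [(19, 994), (21, 30), (73, 6)]), (0, [(0, 1), (20, 1), (72, 1)]), (0, [(20, 1), (21, 1), (73, 1)]), (3, [(0, 43), (7, 899), (23, 89), (63, 4), (81, 2)]), (4, [(0, 327), (7, 731), (23, 9192), (63, 19), (81, 44)]), (2, [(0, 49), (24, 70), (63, 1)]), (1, [(0, 5), (20, 4), (25, 2), (81, 1)]), (1, [(20, 5), (21, 4), (26, 2), (80, 1)]), (0, [(21, 1), (27, 1), (73, 1)]), (2, [(21, 100), (27, 18), (28, 1), (73, 1)]), (4, [(0, 202), (4, 8056), (15, 1930), (63, 50), (72, 7)]), (0, [(30, 1), (63, 1)]), (3, [(30, 4), (42, 1003), (54, 11), (72, 5)]), (3, [(30, 4), (42, 1003), (54, 10), (72, 5)]), (3, [(30, 4), (42, 1006), (54, 7), (72, 5)]), (3, [(30, 3), (42, 1020), (54, 22), (72, 4)]), (3, [(30, 3), (42, 1023), (54, 4), (72, 4)]), (2, [(31, 2), (32, 66), (45, 33), (54, 1), (72, 1)]), (3, [(30, 2), (42, 1011), (54, 2), (72, 4)]),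 (3, [(30, 1), (42, 1007), (54, 6), (72, 6)]), (2, [(31, 28), (45, 73), (72, 1)]), (2, [(45, 80), (46, 18), (54, 4), (72, 1)]), (4, [(30, 68), (42, 10059), (54, 38), (72, 47)]), (2, [(30, 1), (42, 100), (54, 1), (72, 1)]), (3, [(53, 1008), (55, 38), (73, 6)]), (3, [(30, 6), (42, 955), (47, 38), (54, 1), (72, 4)]), (4, [(31, 840), (45, 9139), (54, 216), (72, 42), (73, 17)]), (2, [(42, 50), (47, 52), (54, 2), (72, 1)]), (3, [(30, 9), (42, 188), (47, 802), (54, 28), (72, 6)]), (3, [(48, 112), (53, 909), (73, 4), (74, 1)]), (4, [(30, 8), (42, 4697), (47, 5463), (63, 15), (72, 23)]), (4, [(42, 2392), (47, 4487), (57, 3341), (63, 16), (72, 42)]), (4, [(30, 11), (47, 1527), (57, 8685), (63, 5), (72, 51)]), (2, [(30, 5), (52, 98), (63, 1)]), (2, [(53, 97), (55, 9), (73, 1)]), (0, [(30, 1), (54, 1), (72, 1)]), (0, [(54, 1), (55, 1), (73, 1)]), (4, [(42, 704), (47, 7210), (57, 2270), (63, 24), (72, 19)]), (3,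 [(30, 2), (47, 45), (54, 17), (57, 954), (72, 6)]), (2, [(55, 20), (58, 92), (73, 1)]), (1, [(54, 5), (55, 4), (59, 2), (80, 1)]), (2, [(55, 37), (58, 88), (73, 1), (82, 1)]), (1, [(30, 5), (54, 4), (61, 2), (81, 1)]), (3, [(47, 563), (57, 456), (63, 2), (72, 3)]), (0, [(63, 2)]), (2, [(64, 101)]), (2, [(67, 101)]), (2, [(67, 101)]), (2, [(67, 101)]), (2, [(68, 101)]), (2, [(71, 101)]), (2, [(67, 101)]), (2, [(71, 101)]), (0, [(72, 2)]), (0, [(73, 2)]), (2, [(74, 101)]), (0, [(63, 2)]), (2, [(72, 101)]), (1, [(74, 11)]), (2, [(74, 101)]), (0, [(73, 2)]), (0, [(72, 2)]), (0, [(63, 2)]), (1, [(73, 11)])],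
  [(3, [(30, 115), (52, 949), (81, 2)]), (3, [(0, 71), (4, 954), (20, 18), (72, 1)]), (2, [(0, 3), (4, 71), (15, 26), (20, 1)]), (2, [(0, 4), (4, 95), (15, 1), (20, 1)]), (3, [(0, 57), (4, 964), (20, 17), (72, 1)]), (3, [(0, 61), (4, 836), (15, 96), (20, 17), (72, 2)]), (3, [(0, 789), (24, 208), (63, 4)]), (3, [(0, 822), (24, 375), (63, 3)]), (3, [(0, 897), (24, 299), (63, 3)]), (3, [(0, 924), (24, 272), (63, 4)]), (3, [(0, 935), (24, 260), (63, 5)]), (3, [(0, 70), (4, 776), (15, 185), (20, 18), (72, 1)]), (4, [(29, 10001)]), (4, [(4, 10003)]), (3, [(0, 62), (4, 707), (15, 261), (20, 16), (72, 1)]), (3, [(0, 65), (4, 579), (15, 390), (20, 16), (72, 2)]), (3, [(0, 67), (4, 452), (15, 520), (20, 16), (72, 3)]), (3, [(0, 68), (4, 322), (15, 652), (20, 16), (72, 4)]), (3, [(0, 789), (24, 208), (63, 4)]), (3, [(0, 872), (24, 325), (63, 3)]), (3, [(0, 914), (24, 282), (63, 4)]), (3, [(0, 931), (24, 264),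 (63, 5)]), (2, [(0, 94), (24, 26), (63, 1)]), (2, [(0, 94), (24, 25), (63, 1)]), (3, [(30, 377), (52, 848), (81, 4)]), (3, [(30, 220), (52, 988), (81, 3)]), (3, [(30, 269), (52, 887), (81, 3)]), (3, [(30, 313), (52, 873), (81, 4)]), (3, [(30, 340), (52, 866), (68, 1), (81, 4)]), (3, [(30, 514), (52, 681), (81, 4)]), (3, [(30, 373), (52, 848), (81, 3)]), (3, [(30, 448), (52, 749), (81, 3)]), (3, [(30, 483), (52, 713), (81, 4)]), (3, [(30, 499), (52, 697), (81, 5)]), (3, [(30, 377), (52, 856), (81, 4)]), (3, [(30, 353), (52, 860), (81, 3)]), (3, [(30, 333), (52, 871), (81, 3)]), (3, [(30, 339), (52, 871), (68, 1), (81, 3)]), (3, [(30, 350), (52, 870), (68, 1), (81, 4)]), (3, [(30, 360), (52, 870), (68, 1), (81, 4)]), (3, [(30, 366), (52, 872), (63, 2), (68, 1), (81, 4)]), (3, [(30, 514), (52, 681), (81, 4)]), (3, [(30, 348), (52, 649), (61, 1), (81, 3)]), (3, [(30, 469), (52, 726), (81, 4)]), (3, [(30,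 493), (52, 703), (81, 5)]), (3, [(30, 503), (52, 691), (81, 5)]), (3, [(30, 509), (52, 685), (68, 1), (81, 5)]), (0, [(63, 2)]), (2, [(68, 101)]), (0, [(0, 1), (63, 1)]), (4, [(0, 3599), (24, 6388), (63, 13), (68, 1), (81, 1)]), (2, [(0, 1), (4, 47), (15, 52), (20, 1)]), (3, [(0, 737), (24, 261), (63, 3)]), (2, [(0, 79), (24, 21), (63, 1)]), (2, [(0, 4), (4, 73), (15, 21), (20, 3)]), (4, [(0, 6046), (24, 3933), (63, 20), (68, 1), (81, 1)]), (3, [(0, 875), (24, 122), (63, 4), (68, 1), (81, 1)]), (2, [(0, 8), (4, 93), (20, 5)]), (2, [(0, 6), (4, 96), (20, 2)]), (3, [(0, 87), (4, 944), (20, 22), (72, 1)]), (3, [(0, 133), (4, 976), (20, 25), (72, 1)]), (3, [(0, 149), (4, 897), (20, 64), (72, 1)]), (3, [(0, 169), (4, 905), (20, 25), (72, 2)]), (2, [(23, 101)]), (3, [(0, 797), (24, 201), (63, 3), (68, 1), (81, 1)]), (3, [(0, 184), (4, 848), (20, 157), (72, 2)]), (2, [(0, 29), (4, 84), (15, 1), (20, 8), (72,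 1)]), (1, [(0, 5), (4, 4), (15, 1), (20, 2), (72, 1)]), (2, [(18, 101)]), (1, [(0, 10), (20, 1), (72, 1)]), (0, [(20, 5)]), (3, [(0, 1054), (24, 142), (63, 4)]), (2, [(0, 101), (24, 18), (63, 1)]), (3, [(0, 1197), (63, 3)]), (1, [(0, 10), (25, 1), (81, 1)]), (0, [(25, 3)]), (0, [(21, 6)]), (0, [(21, 5)]), (2, [(0, 94), (24, 26), (63, 1)]), (0, [(30, 1), (63, 1)]), (2, [(30, 69), (52, 51), (81, 1)]), (2, [(30, 69), (52, 51), (81, 1)]), (3, [(30, 657), (52, 538), (68, 1), (81, 4)]), (3, [(30, 716), (52, 478), (61, 1), (81, 4)]), (3, [(30, 621), (52, 575), (81, 4)]), (3, [(30, 359), (52, 637), (61, 2), (81, 3)]), (3, [(30, 530), (52, 667), (81, 3)]), (3, [(30, 514), (52, 680), (68, 1), (81, 5)]), (3, [(30, 274), (52, 882), (61, 2), (81, 3)]), (3, [(30, 696), (52, 493), (61, 7), (81, 4)]), (3, [(30, 609), (52, 388), (63, 1), (68, 2), (81, 3)]), (2, [(30, 73), (52, 27), (63, 1), (68, 1), (81, 1)]), (2, [(47,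 101)]), (3, [(30, 709), (52, 488), (68, 2), (81, 2)]), (3, [(30, 522), (52, 667), (61, 7), (81, 3)]), (3, [(30, 692), (52, 502), (61, 2), (81, 5)]), (2, [(30, 73), (52, 27), (81, 1)]), (3, [(47, 1002)]), (3, [(30, 441), (52, 755), (68, 1), (81, 3)]), (3, [(30, 377), (52, 860), (68, 2), (81, 4)]), (3, [(30, 374), (52, 868), (63, 2), (68, 1), (81, 4)]), (3, [(30, 1197), (63, 3)]), (3, [(30, 133), (42, 394), (54, 472), (72, 2)]), (1, [(30, 10), (54, 1), (72, 1)]), (0, [(54, 5)]), (3, [(30, 328), (52, 669), (68, 1), (81, 3)]), (2, [(30, 52), (52, 48), (81, 1)]), (0, [(55, 5)]), (0, [(61, 3)]), (0, [(54, 7)]), (1, [(30, 10), (61, 1), (81, 1)]), (3, [(30, 388), (52, 856), (68, 1), (81, 3)]), (0, [(63, 2)]), (0, [(63, 2)]), (2, [(68, 101)]), (1, [(63, 11)]), (1, [(63, 11)]), (0, [(63, 2)]), (1, [(81, 11)]), (0, [(63, 2)]), (0, [(63, 2)]), (0, [(63, 2)]), (0, [(63, 2)]), (0, [(72, 2)]), (0, [(63, 2)]), (0,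 [(63, 2)]), (0, [(72, 2)]), (0, [(72, 2)]), (0, [(72, 2)]), (0, [(63, 2)]), (0, [(63, 2)]), (0, [(72, 2)])],
  [(4, [(36, 2031), (37, 3002), (39, 1497), (57, 3574), (72, 25)]), (4, [(17, 9459), (18, 651), (72, 18), (80, 15)]), (4, [(13, 1832), (16, 18), (17, 8263), (65, 8), (73, 15)]), (3, [(17, 998), (18, 2), (73, 1), (80, 2)]), (4, [(17, 9824), (18, 285), (72, 8), (73, 4), (80, 22)]), (3, [(17, 959), (18, 40), (72, 1), (80, 3)]), (4, [(0, 192), (7, 7260), (23, 2724), (63, 36), (81, 6)]), (3, [(0, 8), (7, 255), (22, 615), (23, 149), (63, 3)]), (3, [(0, 13), (7, 500), (22, 324), (23, 162), (63, 4)]), (3, [(0, 16), (7, 706), (22, 156), (23, 124), (63, 5)]), (3, [(0, 17), (7, 865), (22, 105), (23, 31), (63, 5)]), (4, [(17, 9516), (18, 472), (20, 7), (72, 1), (80, 32)]), (4, [(13, 1697), (17, 8422), (20, 1), (72, 23)]), (3, [(17, 1011), (72, 1), (80, 2)]), (4, [(17, 9912), (18, 191), (20, 5), (80, 34)]),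 (3, [(17, 982), (18, 28), (80, 4)]), (4, [(17, 9793), (18, 301), (20, 5), (80, 44)]), (3, [(17, 981), (18, 28), (80, 5)]), (3, [(0, 21), (4, 31), (15, 987), (63, 5)]), (3, [(0, 11), (7, 960), (23, 46), (63, 4)]), (3, [(0, 17), (4, 62), (15, 939), (63, 5)]), (3, [(0, 19), (4, 188), (15, 812), (63, 5)]), (4, [(0, 198), (4, 3118), (15, 6873), (63, 49), (72, 4)]), (4, [(0, 202), (4, 4405), (15, 5581), (63, 51), (72, 5)]), (4, [(30, 9), (47, 7157), (57, 2963), (63, 1), (72, 27)]), (3, [(32, 263), (46, 88), (47, 349), (57, 313), (72, 2)]), (4, [(42, 614), (47, 6173), (57, 3350), (63, 4), (72, 17)]), (4, [(30, 6), (47, 5653), (57, 4484), (72, 26)]), (3, [(30, 1), (47, 411), (57, 603), (72, 3)]), (3, [(30, 1), (47, 822), (54, 4), (57, 184), (72, 3)]), (3, [(42, 107), (47, 731), (57, 163), (63, 2)]), (4, [(30, 16), (47, 8994), (54, 4), (57, 1127), (72, 23)]), (4, [(30, 18), (47, 9717), (54, 16), (57, 399), (72,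 29)]), (4, [(30, 16), (42, 3246), (47, 6860), (54, 33), (72, 33)]), (4, [(30, 13), (47, 2899), (54, 10), (57, 7243), (72, 25)]), (3, [(42, 138), (47, 445), (57, 432), (63, 2)]), (3, [(30, 1), (47, 376), (57, 639), (72, 2)]), (4, [(30, 11), (47, 1860), (54, 7), (57, 8297), (72, 24)]), (3, [(30, 1), (47, 6), (54, 1), (57, 1010), (72, 3)]), (3, [(30, 1), (54, 1), (57, 1016), (72, 3), (81, 1)]), (3, [(30, 1), (54, 1), (57, 1032), (72, 2), (81, 2)]), (3, [(30, 1), (42, 1009), (54, 7), (72, 3)]), (4, [(30, 3), (42, 3259), (47, 6860), (54, 49), (72, 23)]), (4, [(30, 8), (42, 10102), (54, 61), (72, 26)]), (3, [(30, 1), (42, 1025), (54, 6), (72, 3)]), (3, [(30, 1), (42, 1009), (54, 6), (72, 4)]), (3, [(30, 1), (42, 1024), (54, 6), (72, 4)]), (3, [(64, 1001)]), (2, [(70, 101)]), (0, [(0, 1), (63, 1)]), (4, [(3, 5637), (15, 1136), (22, 226), (23, 3108), (63, 26)]), (4, [(10, 4108), (13, 4161), (16, 1815), (65,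 8), (73, 17)]), (3, [(0, 14), (7, 624), (23, 392), (63, 1), (81, 2)]), (4, [(0, 207), (4, 5776), (15, 4216), (63, 49), (72, 6)]), (3, [(16, 655), (17, 123), (18, 234), (65, 1), (73, 2)]), (4, [(0, 50), (7, 6708), (23, 3367), (63, 15), (81, 12)]), (4, [(0, 432), (7, 5232), (20, 17), (23, 4605), (81, 36)]), (3, [(16, 112), (17, 203), (18, 704), (65, 1), (73, 2)]), (4, [(17, 9178), (18, 935), (72, 12), (73, 1), (80, 15)]), (4, [(17, 8622), (18, 1476), (20, 5), (72, 15), (80, 18)]), (4, [(17, 8079), (18, 2010), (20, 16), (72, 21), (80, 17)]), (3, [(18, 1020), (20, 1), (21, 2), (73, 2), (80, 1)]), (4, [(17, 7432), (18, 2637), (20, 30), (72, 23), (80, 20)]), (3, [(13, 585), (17, 397), (20, 50), (72, 3)]), (3, [(0, 22), (7, 586), (20, 1), (23, 410), (81, 3)]), (3, [(18, 1007), (21, 23), (73, 3)]), (3, [(18, 1009), (20, 6), (21, 8), (73, 3), (80, 1)]), (3, [(18, 945), (20, 11), (21, 105), (73, 3), (80, 2)]),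 (3, [(19, 984), (21, 31), (73, 3), (74, 2)]), (0, [(0, 1), (20, 1), (72, 1)]), (0, [(20, 1), (21, 1), (73, 1)]), (4, [(0, 455), (7, 3737), (23, 6102), (63, 1), (81, 32)]), (4, [(0, 337), (23, 9832), (68, 1), (81, 45)]), (2, [(0, 50), (24, 70), (63, 1)]), (1, [(0, 5), (20, 4), (25, 2), (81, 1)]), (1, [(20, 5), (21, 4), (26, 2), (80, 1)]), (2, [(21, 70), (27, 49), (73, 1)]), (2, [(21, 100), (27, 18), (73, 1)]), (4, [(0, 200), (4, 3551), (15, 6448), (63, 47), (72, 5)]), (0, [(30, 1), (63, 1)]), (3, [(30, 4), (42, 721), (47, 284), (54, 10), (72, 4)]), (4, [(30, 48), (47, 7501), (54, 88), (57, 2526), (72, 36)]), (4, [(30, 46), (47, 8984), (54, 48), (57, 1086), (72, 34)]), (3, [(30, 4), (47, 784), (54, 19), (57, 215), (72, 3)]), (3, [(30, 4), (47, 827), (54, 3), (57, 181), (72, 3)]), (4, [(47, 6840), (54, 100), (57, 3223), (72, 15), (80, 7)]), (4, [(30, 29), (47, 8029), (54, 6), (57, 2076), (72, 22)]), (4,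 [(30, 12), (42, 10088), (54, 65), (72, 45)]), (4, [(47, 7652), (54, 15), (57, 2468), (72, 1), (80, 16)]), (4, [(47, 5758), (54, 395), (57, 4128), (73, 14), (80, 14)]), (4, [(30, 74), (47, 7280), (54, 22), (57, 2770), (72, 33)]), (3, [(30, 12), (47, 674), (54, 12), (57, 320), (72, 5)]), (3, [(53, 998), (55, 38), (73, 5)]), (4, [(30, 73), (47, 6287), (54, 2), (57, 3790), (72, 22)]), (4, [(47, 6392), (54, 184), (57, 3618), (73, 22)]), (3, [(30, 2), (47, 518), (54, 22), (57, 494), (72, 3)]), (3, [(30, 10), (47, 426), (54, 29), (57, 539), (72, 5)]), (3, [(48, 65), (53, 953), (71, 1), (73, 3)]), (4, [(30, 20), (47, 5117), (57, 4998), (63, 3), (72, 18)]), (3, [(30, 1), (47, 127), (57, 906), (72, 4)]), (3, [(30, 1), (54, 1), (57, 997), (72, 2), (81, 2)]), (3, [(30, 54), (52, 998), (63, 5)]), (3, [(53, 958), (55, 88), (73, 5)]), (0, [(30, 1), (54, 1), (72, 1)]), (0, [(54, 1), (55, 1), (73, 1)]), (4, [(30, 17),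 (47, 1909), (54, 8), (57, 8215), (72, 24)]), (4, [(30, 22), (54, 183), (57, 9897), (72, 22), (81, 23)]), (2, [(55, 19), (58, 84), (73, 1), (82, 1)]), (1, [(54, 5), (55, 4), (59, 2), (80, 1)]), (2, [(55, 37), (58, 86), (82, 1)]), (1, [(30, 5), (54, 4), (61, 2), (81, 1)]), (4, [(30, 16), (54, 13), (57, 10129), (72, 27), (81, 2)]), (0, [(63, 2)]), (3, [(64, 1001)]), (2, [(70, 101)]), (3, [(70, 1001)]), (3, [(70, 1001)]), (3, [(68, 1001)]), (2, [(71, 101)]), (3, [(70, 1001)]), (3, [(71, 1001)]), (0, [(72, 2)]), (0, [(73, 2)]), (3, [(74, 1001)]), (0, [(63, 2)]), (2, [(72, 101)]), (1, [(74, 11)]), (2, [(74, 101)]), (0, [(73, 2)]), (0, [(72, 2)]), (0, [(63, 2)]), (1, [(73, 11)])],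
  [(2, [(43, 56), (48, 38), (54, 3), (55, 4)]), (3, [(19, 988), (21, 165), (74, 2)]), (3, [(19, 998), (21, 82), (74, 1)]), (3, [(19, 951), (21, 108), (74, 2)]), (3, [(19, 991), (21, 134), (74, 2)]), (3, [(19, 935), (21, 139), (74, 3)]), (3, [(0, 224), (14, 834), (20, 152), (72, 2)]), (4, [(0, 1464), (14, 8969), (20, 654), (72, 4)]), (3, [(0, 191), (14, 869), (20, 93), (72, 1)]), (3, [(17, 1001)]), (3, [(17, 1001)]), (3, [(19, 987), (21, 166), (74, 2)]), (3, [(19, 993), (21, 154), (74, 1)]), (3, [(19, 938), (21, 136), (74, 2)]), (3, [(19, 990), (21, 147), (74, 2)]), (3, [(19, 933), (21, 145), (74, 3)]), (3, [(19, 987), (21, 158), (74, 4)]), (3, [(19, 928), (21, 152), (74, 4)]), (2, [(17, 101)]), (3, [(17, 1002)]), (2, [(17, 101)]), (2, [(17, 101)]), (2, [(0, 22), (2, 22), (14, 64), (20, 15), (72, 1)]), (2, [(0, 22), (2, 32), (14, 54), (20, 15), (72, 1)]), (3, [(43, 891), (54, 141), (55, 80), (73, 2)]),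 (2, [(53, 101)]), (3, [(43, 913), (54, 96), (55, 73), (73, 1)]), (3, [(43, 966), (54, 122), (55, 82), (73, 2)]), (3, [(43, 897), (54, 126), (55, 78), (73, 2)]), (3, [(43, 838), (54, 220), (55, 144), (73, 2)]), (2, [(53, 101)]), (3, [(43, 873), (54, 187), (55, 86), (73, 1)]), (3, [(43, 859), (54, 206), (55, 107), (73, 2)]), (3, [(43, 853), (54, 213), (55, 121), (73, 2)]), (3, [(43, 890), (54, 142), (55, 80), (73, 2)]), (2, [(53, 101)]), (3, [(43, 904), (54, 125), (55, 66), (73, 1)]), (3, [(43, 965), (54, 136), (55, 79), (73, 2)]), (3, [(43, 895), (54, 131), (55, 76), (73, 2)]), (3, [(43, 893), (54, 135), (55, 78), (73, 3)]), (3, [(43, 891), (54, 138), (55, 78), (73, 3)]), (3, [(43, 846), (54, 219), (55, 144), (73, 2)]), (3, [(43, 868), (54, 154), (55, 142), (73, 1)]), (2, [(43, 84), (48, 3), (54, 19), (55, 14), (73, 1)]), (2, [(43, 71), (48, 16), (54, 21), (55, 14), (73, 1)]), (2, [(43, 59), (48, 28),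 (54, 22), (55, 14), (73, 1)]), (2, [(43, 46), (48, 41), (54, 22), (55, 14), (73, 1)]), (1, [(72, 11)]), (0, [(73, 2)]), (0, [(0, 1), (63, 1)]), (2, [(0, 4), (14, 95), (20, 4)]), (3, [(19, 984), (21, 43), (74, 1)]), (3, [(0, 142), (14, 826), (20, 254), (72, 1)]), (2, [(0, 23), (2, 43), (14, 44), (20, 16), (72, 1)]), (3, [(19, 992), (21, 116), (74, 1)]), (2, [(0, 8), (14, 96), (20, 21)]), (2, [(18, 101)]), (3, [(19, 911), (21, 194), (74, 2)]), (3, [(19, 934), (21, 142), (74, 2)]), (3, [(19, 981), (21, 204), (74, 3)]), (3, [(19, 880), (21, 267), (74, 3)]), (3, [(19, 856), (21, 330), (74, 3)]), (3, [(19, 848), (21, 351), (74, 4)]), (3, [(19, 394), (20, 112), (21, 691), (73, 2)]), (2, [(18, 101)]), (3, [(19, 778), (21, 419), (74, 3)]), (2, [(19, 57), (21, 44), (73, 1), (74, 1)]), (2, [(19, 30), (21, 71), (73, 1), (74, 1)]), (1, [(27, 7), (28, 4)]), (0, [(21, 2)]), (0, [(21, 3)]), (3, [(0, 340), (14, 640),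 (20, 218), (72, 2)]), (3, [(0, 259), (14, 673), (20, 263), (72, 5)]), (3, [(0, 908), (23, 91), (63, 1), (81, 1)]), (0, [(20, 4)]), (0, [(21, 3)]), (0, [(21, 6)]), (0, [(21, 4)]), (2, [(0, 22), (2, 25), (14, 61), (20, 16), (72, 1)]), (0, [(30, 1), (63, 1)]), (3, [(43, 699), (54, 335), (55, 163), (73, 3)]), (3, [(43, 580), (54, 282), (55, 136), (73, 3)]), (3, [(43, 743), (54, 327), (55, 128), (73, 3)]), (3, [(43, 624), (54, 317), (55, 257), (73, 2)]), (3, [(43, 783), (54, 308), (55, 107), (73, 2)]), (3, [(43, 829), (54, 139), (55, 250), (73, 1)]), (3, [(43, 851), (54, 248), (55, 81), (73, 1)]), (2, [(43, 33), (48, 54), (54, 22), (55, 15), (73, 1)]), (2, [(53, 101)]), (3, [(43, 484), (54, 172), (55, 542), (73, 2)]), (3, [(43, 703), (54, 414), (55, 81), (73, 3)]), (3, [(43, 438), (54, 434), (55, 125), (73, 4)]), (3, [(55, 335), (58, 664), (82, 2)]), (3, [(43, 739), (54, 408), (55, 52), (73, 1)]), (3, [(43,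 603), (54, 98), (55, 498), (73, 2)]), (3, [(43, 623), (54, 285), (55, 289), (73, 3)]), (3, [(43, 393), (54, 379), (55, 225), (73, 4)]), (0, [(58, 1)]), (3, [(43, 876), (54, 190), (55, 63), (73, 1)]), (3, [(43, 891), (54, 142), (55, 79), (73, 3)]), (3, [(43, 886), (54, 142), (55, 78), (73, 3)]), (1, [(30, 5), (57, 7)]), (3, [(55, 513), (58, 486), (82, 2)]), (0, [(55, 2)]), (0, [(55, 3)]), (3, [(43, 884), (54, 160), (55, 72), (73, 2)]), (3, [(43, 682), (54, 256), (55, 257), (73, 5)]), (3, [(55, 997), (58, 1), (73, 3)]), (0, [(55, 3)]), (0, [(55, 4)]), (0, [(54, 4)]), (3, [(43, 886), (54, 148), (55, 75), (73, 2)]), (0, [(63, 2)]), (1, [(72, 11)]), (0, [(73, 2)]), (0, [(73, 2)]), (0, [(73, 2)]), (0, [(63, 2)]), (0, [(82, 1)]), (0, [(73, 2)]), (0, [(73, 2)]), (0, [(73, 2)]), (0, [(73, 2)]), (0, [(73, 2)]), (0, [(63, 2)]), (0, [(73, 2)]), (0, [(73, 2)]), (0, [(73, 2)]), (0, [(73, 2)]), (0, [(73, 2)]), (0,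 [(72, 2)]), (0, [(73, 2)])],
  [(1, [(30, 2), (54, 5), (61, 4), (81, 1)]), (1, [(20, 5), (21, 4), (26, 2), (80, 1)]), (1, [(20, 3), (21, 5), (26, 3), (80, 1)]), (1, [(20, 4), (21, 5), (26, 3), (80, 1)]), (1, [(20, 5), (21, 4), (26, 2), (80, 1)]), (1, [(20, 5), (21, 4), (26, 2), (80, 1)]), (1, [(0, 10), (25, 1), (81, 1)]), (1, [(0, 10), (25, 1), (81, 1)]), (1, [(0, 10), (25, 1), (81, 1)]), (1, [(0, 10), (25, 1), (81, 1)]), (1, [(0, 10), (25, 1), (81, 1)]), (1, [(20, 5), (21, 4), (26, 2), (80, 1)]), (1, [(20, 6), (21, 3), (26, 3), (80, 1)]), (1, [(20, 5), (21, 4), (26, 2), (80, 1)]), (1, [(20, 5), (21, 4), (26, 2), (80, 1)]), (1, [(20, 5), (21, 4), (26, 2), (80, 1)]), (1, [(20, 5), (21, 4), (26, 2), (80, 1)]), (1, [(20, 5), (21, 4), (26, 2), (80, 1)]), (1, [(0, 10), (25, 1), (81, 1)]), (1, [(0, 10), (25, 1), (81, 1)]), (1, [(0, 10), (25, 1), (81, 1)]), (1, [(0, 10), (25, 1), (81, 1)]), (1, [(0, 10), (25,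 1), (81, 1)]), (1, [(0, 10), (25, 1), (81, 1)]), (1, [(30, 5), (54, 4), (61, 2), (81, 1)]), (1, [(30, 3), (54, 5), (61, 3), (81, 1)]), (1, [(30, 4), (54, 5), (61, 3), (81, 1)]), (1, [(30, 5), (54, 4), (61, 2), (81, 1)]), (1, [(30, 5), (54, 4), (61, 2), (81, 1)]), (1, [(30, 5), (54, 5), (61, 1), (81, 1)]), (1, [(30, 6), (54, 4), (61, 2), (81, 1)]), (1, [(30, 6), (54, 4), (61, 2), (81, 1)]), (1, [(30, 6), (54, 4), (61, 2), (81, 1)]), (1, [(30, 6), (54, 4), (61, 2), (81, 1)]), (1, [(30, 5), (54, 4), (61, 2), (81, 1)]), (1, [(30, 6), (54, 3), (61, 2), (81, 1)]), (1, [(30, 5), (54, 4), (61, 2), (81, 1)]), (1, [(30, 5), (54, 4), (61, 2), (81, 1)]), (1, [(30, 5), (54, 4), (61, 2), (81, 1)]), (1, [(30, 5), (54, 4), (61, 2), (81, 1)]), (1, [(30, 5), (54, 4), (61, 2), (81, 1)]), (1, [(30, 5), (54, 5), (61, 1), (81, 1)]), (1, [(30, 4), (54, 5), (61, 2), (81, 1)]), (1, [(30, 5), (54, 5), (61, 2), (81, 1)]), (1,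 [(30, 5), (54, 5), (61, 2), (81, 1)]), (1, [(30, 5), (54, 5), (61, 2), (81, 1)]), (1, [(30, 5), (54, 5), (61, 1), (81, 1)]), (0, [(63, 2)]), (0, [(72, 2)]), (0, [(0, 1), (63, 1)]), (1, [(0, 10), (25, 1), (81, 1)]), (1, [(20, 2), (21, 5), (26, 5), (80, 1)]), (1, [(0, 10), (25, 1), (81, 1)]), (1, [(0, 10), (25, 1), (81, 1)]), (0, [(21, 3)]), (1, [(0, 10), (25, 1), (81, 1)]), (0, [(0, 1), (25, 1), (81, 1)]), (0, [(21, 4)]), (1, [(20, 5), (21, 5), (26, 2), (80, 1)]), (1, [(20, 5), (21, 4), (26, 2), (80, 1)]), (1, [(20, 6), (21, 4), (26, 2), (80, 1)]), (0, [(21, 5)]), (0, [(20, 9)]), (0, [(20, 6)]), (0, [(0, 1), (25, 1), (81, 1)]), (0, [(21, 5)]), (0, [(21, 6)]), (0, [(21, 7)]), (0, [(21, 3)]), (0, [(20, 3)]), (0, [(21, 2)]), (1, [(0, 10), (25, 1), (81, 1)]), (1, [(0, 10), (25, 1), (81, 1)]), (3, [(0, 999), (63, 2), (81, 1)]), (0, [(20, 4)]), (0, [(20, 4)]), (0, [(21, 5)]), (0, [(21, 4)]), (1, [(0, 10),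 (25, 1), (81, 1)]), (0, [(30, 1), (63, 1)]), (1, [(30, 6), (54, 4), (61, 1), (81, 1)]), (1, [(30, 6), (54, 4), (61, 1), (81, 1)]), (1, [(30, 7), (54, 4), (61, 1), (81, 1)]), (0, [(54, 6)]), (1, [(30, 7), (54, 3), (61, 1), (81, 1)]), (0, [(54, 5)]), (1, [(30, 7), (54, 3), (61, 2), (81, 1)]), (1, [(30, 5), (54, 5), (61, 1), (81, 1)]), (0, [(54, 4)]), (0, [(54, 6)]), (1, [(30, 8), (54, 3), (61, 1), (81, 1)]), (1, [(30, 7), (54, 3), (61, 1), (81, 1)]), (0, [(55, 4)]), (1, [(30, 8), (54, 2), (61, 1), (81, 1)]), (0, [(54, 5)]), (0, [(54, 7)]), (0, [(54, 9)]), (0, [(55, 3)]), (1, [(30, 6), (54, 3), (61, 2), (81, 1)]), (1, [(30, 5), (54, 4), (61, 2), (81, 1)]), (1, [(30, 5), (54, 4), (61, 2), (81, 1)]), (2, [(30, 100), (63, 1), (81, 1)]), (0, [(55, 4)]), (0, [(54, 3)]), (0, [(55, 2)]), (1, [(30, 6), (54, 4), (61, 2), (81, 1)]), (1, [(30, 5), (54, 6), (61, 1), (81, 1)]), (0, [(55, 4)]), (0, [(54, 4)]), (0, [(55,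 4)]), (0, [(54, 4)]), (1, [(30, 5), (54, 4), (61, 2), (81, 1)]), (0, [(63, 2)]), (0, [(63, 2)]), (0, [(72, 2)]), (0, [(72, 2)]), (0, [(72, 2)]), (0, [(63, 2)]), (0, [(73, 2)]), (0, [(72, 2)]), (0, [(73, 2)]), (0, [(72, 2)]), (0, [(73, 2)]), (0, [(73, 2)]), (0, [(63, 2)]), (0, [(72, 2)]), (0, [(73, 2)]), (0, [(73, 2)]), (0, [(73, 2)]), (0, [(72, 2)]), (0, [(63, 2)]), (0, [(73, 2)])],
  [(3, [(37, 94), (41, 23), (46, 232), (57, 661)]), (4, [(17, 9507), (18, 524), (20, 10), (80, 15)]), (5, [(1, 3), (13, 4455), (17, 96036), (67, 34), (72, 17)]), (3, [(17, 985), (18, 19), (80, 1)]), (4, [(17, 9698), (18, 337), (20, 6), (80, 15)]), (3, [(17, 969), (18, 38), (80, 2)]), (4, [(0, 221), (7, 3370), (23, 6577), (63, 4), (81, 11)]), (2, [(23, 101)]), (3, [(23, 1001)]), (4, [(0, 189), (7, 4595), (23, 5384), (63, 12), (81, 3)]), (4, [(0, 197), (7, 5624), (23, 4354), (63, 19), (81, 4)]), (4, [(17, 9504), (18, 523),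 (20, 10), (80, 15)]), (4, [(13, 2090), (17, 7950), (20, 11), (72, 5)]), (3, [(17, 1005), (18, 2), (80, 1)]), (4, [(17, 9820), (18, 255), (20, 8), (80, 15)]), (3, [(17, 972), (18, 34), (80, 2)]), (4, [(17, 9664), (18, 356), (20, 8), (80, 26)]), (5, [(1, 5), (17, 96782), (18, 3381), (20, 82), (80, 307)]), (4, [(0, 209), (7, 7073), (23, 2908), (63, 18), (81, 5)]), (3, [(23, 1001)]), (3, [(0, 17), (7, 758), (23, 259), (63, 2)]), (3, [(0, 18), (7, 895), (22, 2), (23, 104), (63, 3)]), (3, [(0, 21), (7, 185), (15, 814), (63, 4)]), (4, [(0, 209), (4, 1127), (15, 8669), (63, 41), (72, 3)]), (4, [(30, 14), (47, 2659), (54, 18), (57, 7410), (72, 7)]), (2, [(57, 101)]), (2, [(57, 101)]), (4, [(30, 10), (47, 1139), (54, 18), (57, 8851), (72, 6)]), (3, [(30, 1), (54, 2), (57, 1009), (72, 1)]), (3, [(30, 2), (47, 375), (54, 6), (57, 628), (72, 1)]), (2, [(57, 101)]), (3, [(57, 1001)]), (3, [(30, 2), (47, 522), (54,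 3), (57, 485), (72, 1)]), (4, [(30, 23), (47, 6386), (54, 38), (57, 3683), (72, 14)]), (4, [(30, 15), (54, 25), (57, 10081), (81, 5)]), (2, [(57, 101)]), (2, [(57, 101)]), (3, [(30, 1), (54, 2), (57, 1009), (81, 1)]), (3, [(30, 1), (54, 2), (57, 1008), (81, 1)]), (3, [(30, 1), (54, 2), (57, 1008), (81, 2)]), (3, [(30, 1), (54, 2), (57, 1017), (81, 2)]), (4, [(30, 21), (47, 8027), (54, 52), (57, 2051), (72, 12)]), (3, [(57, 1001)]), (4, [(30, 16), (47, 8482), (54, 41), (57, 1616), (72, 10)]), (4, [(30, 17), (42, 486), (47, 9625), (54, 37), (72, 16)]), (3, [(30, 1), (42, 770), (47, 239), (54, 6), (72, 2)]), (4, [(30, 14), (42, 10090), (54, 66), (72, 24)]), (2, [(63, 2), (64, 98), (81, 1)]), (2, [(67, 99), (72, 1), (80, 1)]), (0, [(0, 1), (63, 1)]), (2, [(3, 9), (15, 2), (22, 28), (23, 62)]), (3, [(13, 1001)]), (3, [(23, 1001)]), (4, [(0, 218), (4, 2496), (15, 7495), (63, 40), (72, 4)]), (3, [(16, 527),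 (17, 179), (18, 300), (65, 1)]), (2, [(23, 101)]), (3, [(0, 45), (7, 116), (20, 2), (23, 864), (81, 1)]), (3, [(17, 269), (18, 744), (80, 1)]), (4, [(17, 9157), (18, 880), (20, 8), (80, 10)]), (4, [(17, 8669), (18, 1352), (20, 15), (80, 15)]), (4, [(17, 8170), (18, 1793), (20, 28), (80, 20)]), (3, [(18, 1012), (20, 1), (21, 1), (26, 1), (80, 1)]), (4, [(17, 7602), (18, 2385), (20, 44), (80, 25)]), (4, [(1, 1), (13, 6451), (17, 3275), (20, 527), (72, 12)]), (3, [(23, 1001)]), (3, [(18, 1018), (21, 26), (73, 1)]), (3, [(18, 1015), (20, 6), (21, 7), (80, 2)]), (3, [(18, 938), (20, 13), (21, 102), (80, 3)]), (3, [(19, 976), (21, 34), (74, 3)]), (0, [(0, 1), (20, 1), (72, 1)]), (0, [(21, 5)]), (3, [(0, 47), (23, 980), (25, 1), (81, 1)]), (4, [(0, 351), (23, 9751), (25, 6), (81, 27)]), (3, [(0, 512), (24, 684), (63, 4)]), (1, [(0, 5), (20, 4), (25, 2), (81, 1)]), (1, [(20, 5), (21, 4), (26, 2), (80, 1)]),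 (3, [(21, 596), (27, 401), (73, 4), (82, 1)]), (0, [(21, 6)]), (4, [(0, 211), (4, 303), (15, 9695), (63, 39), (72, 3)]), (0, [(30, 1), (63, 1)]), (3, [(30, 5), (47, 730), (54, 9), (57, 273), (72, 2)]), (4, [(30, 55), (47, 3045), (54, 102), (57, 6932), (72, 15)]), (4, [(30, 52), (47, 4506), (54, 63), (57, 5512), (72, 13)]), (3, [(30, 4), (47, 335), (54, 20), (57, 644), (72, 1)]), (4, [(30, 48), (47, 3786), (54, 47), (57, 6242), (72, 8)]), (3, [(57, 1001)]), (3, [(57, 1001)]), (3, [(30, 1), (42, 993), (54, 7), (72, 3)]), (2, [(57, 101)]), (3, [(47, 124), (54, 44), (57, 858), (73, 1)]), (4, [(30, 81), (47, 2813), (54, 39), (57, 7185), (72, 12)]), (3, [(30, 13), (47, 229), (54, 13), (57, 746), (72, 3)]), (3, [(53, 990), (55, 41), (73, 3)]), (2, [(57, 101)]), (3, [(57, 1001)]), (4, [(30, 35), (47, 671), (54, 234), (57, 9232), (72, 12)]), (4, [(30, 106), (54, 299), (57, 9800), (72, 22)]), (3, [(53, 1013),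 (73, 2)]), (2, [(57, 101)]), (3, [(30, 1), (54, 2), (57, 1009), (72, 1), (81, 1)]), (3, [(30, 1), (54, 1), (57, 1012), (81, 2)]), (3, [(30, 56), (52, 966), (63, 3)]), (3, [(53, 948), (55, 93), (73, 3)]), (0, [(30, 1), (54, 1), (72, 1)]), (0, [(55, 5)]), (4, [(30, 19), (54, 21), (57, 10058), (61, 2), (81, 5)]), (4, [(30, 24), (54, 182), (57, 9823), (61, 6), (81, 27)]), (3, [(55, 205), (58, 900), (82, 3)]), (1, [(54, 5), (55, 4), (59, 2), (80, 1)]), (3, [(55, 377), (58, 851), (82, 3)]), (1, [(30, 5), (54, 4), (61, 2), (81, 1)]), (3, [(30, 1), (54, 2), (57, 1005), (81, 1)]), (0, [(63, 2)]), (2, [(63, 2), (64, 98), (81, 1)]), (2, [(67, 99), (72, 1), (80, 1)]), (2, [(67, 98), (72, 3), (80, 1)]), (2, [(67, 95), (72, 5), (80, 1)]), (1, [(63, 3), (68, 9)]), (2, [(71, 101)]), (2, [(67, 95), (72, 9)]), (1, [(71, 8), (73, 4)]), (0, [(72, 2)]), (0, [(73, 2)]), (1, [(73, 5), (74, 7)]), (0, [(63, 2)]), (2, [(72,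 101)]), (1, [(74, 11)]), (4, [(74, 10001)]), (0, [(73, 2)]), (0, [(72, 2)]), (0, [(63, 2)]), (1, [(73, 11)])],
  [(2, [(57, 101)]), (3, [(17, 933), (18, 68), (20, 3), (80, 1)]), (2, [(17, 101)]), (4, [(17, 9675), (18, 359), (20, 22), (80, 5)]), (3, [(17, 952), (18, 50), (20, 2), (80, 1)]), (3, [(17, 942), (18, 54), (20, 3), (80, 2)]), (4, [(0, 483), (23, 9861), (25, 5), (81, 5)]), (2, [(23, 101)]), (2, [(23, 101)]), (2, [(23, 101)]), (3, [(0, 45), (23, 993), (81, 1)]), (3, [(17, 933), (18, 68), (20, 3), (80, 1)]), (3, [(13, 1001)]), (4, [(1, 1), (17, 9858), (18, 169), (20, 33), (80, 5)]), (3, [(17, 961), (18, 41), (20, 3), (80, 1)]), (3, [(17, 947), (18, 50), (20, 3), (80, 2)]), (3, [(17, 954), (18, 52), (20, 3), (80, 2)]), (4, [(1, 1), (17, 9507), (18, 499), (20, 35), (80, 26)]), (4, [(0, 479), (23, 9940), (25, 5), (81, 5)]), (2, [(23, 101)]), (2, [(23, 101)]), (3, [(0, 44), (23, 1000), (81, 1)]),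 (3, [(0, 48), (7, 5), (23, 1035), (81, 1)]), (3, [(0, 46), (7, 160), (23, 843), (63, 1), (81, 1)]), (2, [(57, 101)]), (2, [(57, 101)]), (2, [(57, 101)]), (2, [(57, 101)]), (4, [(30, 31), (54, 19), (57, 10070), (61, 18), (81, 5)]), (4, [(30, 68), (54, 74), (57, 10022), (61, 12), (81, 3)]), (2, [(57, 101)]), (2, [(57, 101)]), (2, [(57, 101)]), (4, [(30, 67), (54, 59), (57, 10081), (61, 7), (81, 6)]), (2, [(57, 101)]), (2, [(57, 101)]), (2, [(57, 101)]), (2, [(57, 101)]), (4, [(30, 31), (54, 15), (57, 10067), (61, 25), (81, 5)]), (3, [(30, 3), (54, 1), (57, 1006), (61, 3), (81, 1)]), (3, [(30, 3), (54, 1), (57, 1006), (61, 3), (81, 2)]), (4, [(30, 69), (54, 77), (57, 10099), (61, 5), (81, 3)]), (2, [(57, 101)]), (2, [(57, 101)]), (3, [(30, 6), (54, 7), (57, 992), (81, 1)]), (3, [(30, 7), (54, 7), (57, 1018), (72, 1)]), (3, [(30, 7), (47, 173), (54, 6), (57, 847), (72, 2)]), (2, [(63, 4), (64, 96), (81,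 1)]), (2, [(67, 96), (72, 4), (80, 1)]), (0, [(0, 1), (63, 1)]), (2, [(23, 101)]), (3, [(13, 1001)]), (2, [(23, 101)]), (3, [(0, 48), (7, 336), (23, 710), (63, 2), (81, 1)]), (3, [(17, 1001)]), (2, [(23, 101)]), (2, [(23, 101)]), (4, [(1, 1), (17, 2239), (18, 7877), (20, 34), (80, 1)]), (4, [(1, 1), (17, 8920), (18, 1055), (20, 33), (80, 5)]), (4, [(1, 1), (17, 8418), (18, 1524), (20, 49), (80, 10)]), (5, [(1, 8), (17, 80192), (18, 19685), (20, 773), (80, 147)]), (3, [(18, 989), (20, 7), (21, 1), (26, 3), (80, 1)]), (3, [(17, 742), (18, 254), (20, 11), (80, 2)]), (3, [(13, 345), (14, 601), (20, 100), (72, 2)]), (2, [(23, 101)]), (3, [(18, 988), (20, 4), (21, 42), (26, 3), (80, 1)]), (3, [(18, 995), (20, 17), (21, 7), (26, 3), (80, 2)]), (3, [(18, 923), (20, 45), (21, 103), (26, 2), (80, 3)]), (4, [(18, 1), (19, 9589), (21, 691), (74, 22)]), (0, [(20, 5)]), (0, [(21, 4)]), (3, [(23, 1001)]), (4, [(0,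 726), (23, 9572), (24, 1), (25, 8), (81, 24)]), (3, [(0, 730), (24, 467), (63, 3)]), (1, [(0, 7), (20, 3), (25, 2), (81, 1)]), (0, [(20, 7)]), (3, [(21, 754), (27, 243), (73, 4), (82, 1)]), (0, [(21, 6)]), (3, [(0, 48), (7, 59), (23, 983), (81, 1)]), (0, [(30, 1), (63, 1)]), (3, [(30, 14), (54, 12), (57, 1003), (81, 1)]), (3, [(30, 13), (54, 11), (57, 978), (61, 1), (81, 1)]), (3, [(30, 12), (54, 8), (57, 1000), (61, 1), (81, 1)]), (2, [(57, 101)]), (2, [(57, 101)]), (2, [(57, 101)]), (2, [(57, 101)]), (3, [(30, 7), (47, 361), (54, 6), (57, 661), (72, 2)]), (2, [(57, 101)]), (2, [(57, 101)]), (3, [(30, 17), (54, 5), (57, 996), (61, 1), (81, 1)]), (3, [(30, 28), (54, 15), (57, 982), (81, 2)]), (3, [(43, 770), (53, 216), (55, 100), (73, 2)]), (2, [(57, 101)]), (2, [(57, 101)]), (3, [(30, 11), (54, 24), (57, 986), (61, 2), (81, 1)]), (3, [(30, 26), (54, 32), (57, 971), (61, 1), (81, 2)]), (3, [(53, 1006),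 (55, 13), (73, 1)]), (2, [(57, 101)]), (4, [(30, 36), (54, 18), (57, 10077), (61, 19), (81, 16)]), (3, [(30, 3), (54, 1), (57, 1002), (61, 3), (81, 2)]), (4, [(30, 1146), (52, 9386), (63, 21), (81, 1)]), (3, [(53, 908), (55, 186), (73, 3)]), (0, [(54, 5)]), (0, [(55, 4)]), (2, [(57, 101)]), (4, [(30, 84), (54, 183), (57, 9783), (61, 28), (81, 22)]), (3, [(55, 395), (58, 832), (82, 3)]), (0, [(54, 7)]), (3, [(55, 567), (58, 630), (82, 3)]), (1, [(30, 7), (54, 3), (61, 2), (81, 1)]), (4, [(30, 37), (54, 15), (57, 10033), (61, 26), (81, 5)]), (0, [(63, 2)]), (2, [(63, 4), (64, 96), (81, 1)]), (2, [(67, 96), (72, 4), (80, 1)]), (2, [(67, 95), (72, 9), (80, 1)]), (2, [(67, 93), (72, 12), (80, 1)]), (1, [(63, 5), (68, 7)]), (2, [(71, 101)]), (2, [(63, 1), (70, 93), (72, 12)]), (2, [(76, 101)]), (0, [(72, 2)]), (0, [(73, 2)]), (1, [(73, 11)]), (0, [(63, 2)]), (0, [(72, 2)]), (1, [(74, 11)]), (1, [(73, 11)]),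 (0, [(73, 2)]), (0, [(72, 2)]), (0, [(63, 2)]), (0, [(73, 2)])],
  [(4, [(36, 115), (37, 3879), (39, 4227), (57, 1881), (72, 36)]), (3, [(17, 972), (18, 42), (72, 2), (73, 1), (80, 1)]), (3, [(13, 323), (16, 8), (17, 667), (73, 3)]), (4, [(13, 965), (17, 9175), (72, 5), (73, 21), (80, 7)]), (3, [(17, 1009), (18, 5), (72, 1), (73, 2), (80, 1)]), (4, [(17, 9961), (18, 173), (72, 12), (73, 14), (80, 18)]), (3, [(0, 18), (7, 932), (23, 67), (63, 5)]), (4, [(0, 92), (3, 1279), (15, 4329), (22, 4447), (63, 42)]), (3, [(0, 14), (7, 172), (15, 565), (22, 265), (63, 5)]), (4, [(0, 179), (7, 56), (15, 9940), (63, 53), (81, 2)]), (3, [(0, 19), (4, 83), (15, 916), (63, 6)]), (4, [(17, 9562), (18, 576), (72, 16), (80, 23)]), (4, [(13, 1700), (17, 8450), (67, 4), (72, 25)]), (4, [(17, 10125), (18, 20), (72, 13), (73, 1), (80, 20)]), (3, [(17, 990), (18, 24), (72, 1), (80, 3)]), (4, [(17, 9811), (18, 322), (72, 9),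 (80, 34)]), (3, [(17, 981), (18, 32), (72, 1), (80, 4)]), (4, [(17, 9847), (18, 276), (20, 2), (72, 4), (80, 50)]), (4, [(0, 208), (4, 2012), (15, 7965), (63, 49), (72, 4)]), (4, [(0, 135), (4, 832), (15, 9195), (63, 45), (72, 3)]), (3, [(0, 17), (4, 234), (15, 766), (63, 5)]), (3, [(0, 19), (4, 367), (15, 650), (63, 5)]), (4, [(0, 199), (4, 4850), (15, 5131), (63, 49), (72, 5)]), (4, [(0, 203), (4, 6147), (15, 3830), (63, 51), (72, 6)]), (4, [(42, 337), (47, 9128), (57, 674), (63, 14), (72, 19)]), (3, [(32, 450), (46, 177), (47, 233), (57, 140), (72, 3)]), (3, [(41, 78), (42, 244), (47, 517), (57, 162), (72, 3)]), (4, [(42, 1356), (47, 6364), (57, 2432), (63, 7), (72, 25)]), (3, [(47, 640), (57, 360), (63, 1), (72, 3)]), (4, [(30, 16), (42, 2160), (47, 7929), (54, 46), (72, 36)]), (4, [(30, 1), (42, 4164), (47, 5980), (63, 12), (72, 10)]), (3, [(30, 1), (42, 525), (47, 487), (54, 1), (72, 3)]), (3,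 [(30, 1), (42, 844), (47, 180), (54, 3), (72, 3)]), (3, [(30, 1), (42, 1009), (54, 5), (72, 4)]), (3, [(30, 1), (47, 529), (57, 487), (72, 3)]), (4, [(42, 3538), (47, 4171), (57, 2456), (63, 17), (72, 4)]), (4, [(47, 6160), (57, 4016), (63, 15), (72, 11)]), (4, [(30, 9), (47, 4258), (57, 5919), (63, 2), (72, 29)]), (3, [(30, 1), (47, 246), (57, 772), (72, 4)]), (3, [(30, 1), (47, 65), (57, 973), (72, 4)]), (4, [(30, 14), (54, 7), (57, 10186), (72, 40), (81, 5)]), (4, [(30, 12), (42, 10076), (54, 70), (72, 34)]), (4, [(31, 29), (42, 10071), (54, 67), (72, 26)]), (3, [(42, 1024), (54, 6), (72, 3)]), (3, [(30, 1), (42, 990), (54, 6), (72, 4)]), (3, [(30, 1), (42, 1023), (54, 6), (72, 4)]), (3, [(30, 1), (42, 1007), (54, 6), (72, 5)]), (3, [(64, 1001)]), (2, [(67, 101)]), (0, [(0, 1), (63, 1)]), (4, [(3, 7956), (15, 924), (23, 1226), (63, 35)]), (3, [(10, 663), (13, 217), (16, 132), (65, 1), (73, 3)]),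 (3, [(0, 13), (7, 822), (23, 180), (63, 2), (81, 2)]), (4, [(0, 209), (4, 7528), (15, 2455), (63, 49), (72, 7)]), (4, [(16, 6683), (17, 1454), (18, 2014), (65, 3), (73, 32)]), (4, [(0, 41), (7, 8791), (23, 1295), (63, 27), (81, 9)]), (4, [(0, 429), (7, 7361), (20, 15), (23, 2484), (81, 46)]), (3, [(16, 124), (17, 220), (18, 660), (65, 1), (73, 3)]), (4, [(17, 9438), (18, 703), (72, 14), (73, 14), (80, 6)]), (4, [(17, 8606), (18, 1528), (72, 28), (73, 2), (80, 9)]), (4, [(17, 8013), (18, 2113), (20, 10), (72, 36), (80, 7)]), (4, [(18, 10232), (20, 14), (21, 11), (73, 32), (80, 2)]), (3, [(17, 736), (18, 274), (20, 2), (72, 4), (80, 1)]), (3, [(13, 585), (17, 400), (20, 50), (72, 4)]), (3, [(0, 21), (7, 801), (23, 195), (81, 4)]), (3, [(18, 1011), (21, 22), (73, 4)]), (3, [(18, 1012), (20, 6), (21, 7), (73, 4), (80, 1)]), (3, [(18, 948), (20, 11), (21, 105), (73, 4), (80, 1)]), (3, [(19, 988), (21, 31),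 (73, 4), (74, 1)]), (0, [(0, 1), (20, 1), (72, 1)]), (0, [(20, 1), (21, 1), (73, 1)]), (3, [(0, 45), (7, 577), (23, 409), (63, 2), (81, 3)]), (3, [(0, 34), (23, 986), (68, 1), (81, 4)]), (2, [(0, 50), (24, 70), (63, 1)]), (1, [(0, 5), (20, 4), (25, 2), (81, 1)]), (1, [(20, 5), (21, 4), (26, 2), (80, 1)]), (2, [(21, 70), (27, 49), (73, 1)]), (2, [(21, 84), (27, 15), (28, 1), (73, 1)]), (4, [(0, 202), (4, 5288), (15, 4702), (63, 47), (72, 6)]), (0, [(30, 1), (63, 1)]), (3, [(30, 4), (42, 1004), (54, 11), (72, 4)]), (3, [(30, 4), (47, 1003), (54, 8), (57, 18), (72, 4)]), (3, [(30, 4), (42, 537), (47, 469), (54, 6), (72, 4)]), (4, [(30, 36), (42, 809), (47, 9196), (54, 189), (72, 35)]), (3, [(30, 4), (42, 227), (47, 764), (54, 3), (72, 4)]), (3, [(47, 924), (54, 8), (57, 85), (72, 2), (80, 1)]), (4, [(30, 27), (42, 1225), (47, 8894), (54, 3), (72, 28)]), (3, [(30, 1), (42, 1008), (54, 6), (72, 5)]), (4,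 [(46, 463), (47, 9564), (57, 114), (72, 6), (80, 18)]), (4, [(47, 8171), (54, 380), (57, 1738), (73, 12), (80, 23)]), (3, [(30, 7), (47, 965), (54, 1), (57, 42), (72, 4)]), (3, [(30, 12), (47, 927), (54, 12), (57, 89), (72, 5)]), (3, [(53, 1002), (55, 38), (73, 5)]), (3, [(30, 6), (47, 854), (57, 141), (63, 1), (72, 2)]), (3, [(47, 882), (54, 17), (57, 121), (73, 2), (80, 1)]), (4, [(30, 26), (47, 7440), (54, 218), (57, 2530), (72, 39)]), (3, [(30, 9), (47, 667), (54, 29), (57, 320), (72, 5)]), (3, [(48, 116), (53, 905), (73, 4)]), (4, [(30, 9), (47, 7506), (57, 2630), (63, 19), (72, 8)]), (4, [(30, 10), (47, 3656), (57, 6530), (63, 5), (72, 41)]), (4, [(30, 14), (54, 9), (57, 10154), (72, 35), (81, 9)]), (2, [(30, 5), (52, 100), (63, 1)]), (2, [(53, 96), (55, 9), (73, 1)]), (0, [(30, 1), (54, 1), (72, 1)]), (0, [(54, 1), (55, 1), (73, 1)]), (3, [(30, 1), (47, 429), (57, 584), (72, 3)]), (3, [(30, 2),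 (54, 18), (57, 993), (72, 4), (81, 1)]), (2, [(55, 18), (58, 84), (73, 1), (82, 1)]), (1, [(54, 5), (55, 4), (59, 2), (80, 1)]), (2, [(55, 37), (58, 87), (73, 1), (82, 1)]), (1, [(30, 5), (54, 4), (61, 2), (81, 1)]), (4, [(30, 15), (47, 1846), (54, 5), (57, 8306), (72, 35)]), (0, [(63, 2)]), (2, [(64, 101)]), (2, [(67, 101)]), (2, [(67, 101)]), (2, [(67, 101)]), (2, [(68, 101)]), (2, [(71, 101)]), (2, [(70, 101)]), (2, [(71, 101)]), (0, [(72, 2)]), (0, [(73, 2)]), (2, [(74, 101)]), (0, [(63, 2)]), (2, [(72, 101)]), (1, [(74, 11)]), (2, [(74, 101)]), (0, [(73, 2)]), (0, [(72, 2)]), (0, [(63, 2)]), (1, [(73, 11)])]]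

set_option maxRecDepth 100000 in
theorem okUG2 : chkRect LD LG LU2 cUG2 = true := by decide +kernel

end Pool.Agent.Lib.MP_dbb03c_co.Full
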