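import Pool.Agent.Lib.MP_dbb03c_co.Full.Data

/-! # Certificate data (generated) -/

namespace Pool.Agent.Lib.MP_dbb03c_co.Full

set_option maxRecDepth 100000 in
def cUG3 : List (List Ct) := [
  [(2, [(57, 101)]), (3, [(17, 953), (18, 53), (80, 2)]), (3, [(13, 21), (17, 987), (67, 1)]), (4, [(17, 9881), (18, 201), (20, 2), (80, 15)]), (3, [(17, 973), (18, 35), (80, 2)]), (5, [(1, 3), (17, 96349), (18, 3904), (20, 58), (80, 255)]), (4, [(0, 216), (7, 1545), (23, 8421), (63, 2), (81, 15)]), (2, [(23, 101)]), (3, [(0, 16), (7, 211), (23, 790), (63, 1)]), (4, [(0, 185), (7, 2766), (23, 7233), (63, 10), (81, 7)]), (4, [(0, 193), (7, 3797), (23, 6201), (63, 17), (81, 7)]), (3, [(17, 953), (18, 53), (80, 2)]), (3, [(13, 188), (17, 819), (72, 1)]), (4, [(17, 10049), (18, 26), (20, 7), (80, 15)]), (4, [(17, 9807), (18, 262), (20, 6), (80, 20)]), (5, [(1, 5), (17, 96718), (18, 3500), (20, 69), (80, 255)]),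 (5, [(1, 5), (17, 96500), (18, 3670), (20, 69), (80, 307)]), (5, [(1, 6), (17, 96631), (18, 3492), (20, 67), (80, 358)]), (4, [(0, 204), (7, 5248), (23, 4753), (63, 16), (81, 9)]), (4, [(0, 137), (7, 3832), (23, 6207), (63, 4), (81, 10)]), (4, [(0, 166), (7, 5626), (23, 4404), (63, 17), (81, 6)]), (3, [(0, 18), (7, 714), (23, 289), (63, 3)]), (3, [(0, 18), (7, 864), (23, 140), (63, 4)]), (3, [(0, 18), (7, 749), (15, 255), (63, 5)]), (3, [(30, 1), (47, 54), (54, 2), (57, 964), (72, 1)]), (2, [(57, 101)]), (4, [(30, 7), (47, 299), (54, 17), (57, 9797), (72, 5)]), (4, [(30, 10), (54, 20), (57, 10089), (72, 6), (81, 4)]), (3, [(30, 1), (54, 2), (57, 998), (72, 1), (81, 1)]), (4, [(30, 24), (47, 1636), (54, 66), (57, 8399), (72, 14)]), (2, [(57, 101)]), (4, [(30, 22), (47, 2373), (54, 26), (57, 7705), (72, 7)]), (4, [(30, 23), (47, 3101), (54, 37), (57, 6972), (72, 12)]), (3, [(30, 2), (47, 427),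 (54, 4), (57, 581), (72, 2)]), (3, [(30, 1), (54, 2), (57, 1008), (81, 1)]), (2, [(57, 101)]), (4, [(30, 12), (54, 16), (57, 10096), (61, 3), (81, 5)]), (3, [(30, 1), (54, 2), (57, 1009), (81, 1)]), (3, [(30, 1), (54, 2), (57, 1008), (81, 2)]), (3, [(54, 2), (57, 1017), (81, 2)]), (4, [(30, 9), (54, 19), (57, 10069), (61, 7), (81, 26)]), (4, [(30, 21), (47, 5914), (54, 56), (57, 4173), (72, 16)]), (4, [(30, 10), (47, 4278), (54, 58), (57, 5812), (72, 8)]), (4, [(30, 16), (47, 6366), (54, 45), (57, 3741), (72, 14)]), (3, [(30, 1), (47, 811), (54, 3), (57, 200), (72, 2)]), (4, [(30, 17), (47, 9838), (54, 35), (57, 299), (72, 26)]), (3, [(30, 1), (42, 619), (47, 394), (54, 5), (72, 3)]), (3, [(63, 19), (64, 975), (68, 1), (81, 17)]), (2, [(67, 99), (72, 1), (80, 1)]), (0, [(0, 1), (63, 1)]), (2, [(23, 101)]), (3, [(10, 55), (13, 710), (16, 238), (65, 1)]), (3, [(0, 15), (7, 22), (23, 979), (81,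 1)]), (4, [(0, 205), (4, 960), (15, 9070), (63, 50), (72, 3)]), (4, [(16, 5903), (17, 1233), (18, 2919), (65, 15)]), (2, [(23, 101)]), (3, [(0, 44), (20, 1), (23, 1004), (25, 3), (81, 1)]), (4, [(16, 253), (17, 2279), (18, 7587), (65, 12)]), (4, [(17, 9176), (18, 899), (20, 6), (80, 15)]), (3, [(17, 864), (18, 138), (20, 1), (80, 2)]), (4, [(17, 8171), (18, 1834), (20, 26), (80, 25)]), (3, [(18, 998), (20, 1), (21, 2), (26, 1), (80, 2)]), (3, [(17, 755), (18, 243), (20, 4), (80, 3)]), (3, [(13, 609), (17, 364), (20, 51), (72, 2)]), (3, [(0, 23), (20, 1), (23, 995), (81, 1)]), (3, [(18, 999), (21, 24), (73, 2)]), (4, [(18, 10008), (20, 58), (21, 78), (26, 6), (80, 26)]), (3, [(18, 937), (20, 12), (21, 103), (80, 4)]), (4, [(19, 9755), (21, 327), (74, 31)]), (0, [(0, 1), (20, 1), (72, 1)]), (0, [(21, 5)]), (4, [(0, 461), (23, 9801), (25, 10), (81, 12)]), (4, [(0, 340), (23, 9751), (25, 4), (81,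 32)]), (3, [(0, 504), (24, 692), (63, 4)]), (1, [(0, 5), (20, 4), (25, 2), (81, 1)]), (1, [(20, 5), (21, 4), (26, 2), (80, 1)]), (2, [(21, 71), (27, 49), (73, 1)]), (3, [(21, 841), (27, 155), (28, 1), (73, 4), (82, 1)]), (3, [(0, 18), (7, 918), (23, 87), (63, 4)]), (0, [(30, 1), (63, 1)]), (3, [(30, 5), (47, 528), (54, 9), (57, 491), (72, 2)]), (3, [(30, 5), (47, 93), (54, 10), (57, 893), (72, 2)]), (4, [(30, 51), (47, 2397), (54, 68), (57, 7631), (72, 17)]), (4, [(30, 44), (47, 1306), (54, 209), (57, 8642), (72, 12)]), (4, [(30, 47), (47, 1672), (54, 51), (57, 8365), (72, 12)]), (3, [(47, 19), (54, 14), (57, 982), (72, 1)]), (4, [(30, 35), (47, 1418), (54, 28), (57, 8645), (72, 6)]), (3, [(30, 1), (42, 1013), (54, 7), (72, 3)]), (2, [(57, 101)]), (3, [(54, 44), (57, 1005), (59, 1), (80, 1)]), (3, [(30, 8), (47, 70), (54, 4), (57, 930), (72, 2)]), (3, [(30, 13), (47, 23), (54, 14), (57, 967),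 (72, 3)]), (3, [(53, 1015), (55, 40), (73, 3)]), (4, [(30, 78), (54, 23), (57, 10033), (72, 4), (81, 1)]), (4, [(54, 223), (55, 6), (57, 9956), (59, 5), (80, 6)]), (3, [(30, 3), (54, 24), (57, 990), (72, 1), (81, 1)]), (3, [(30, 10), (54, 30), (57, 980), (72, 2), (81, 1)]), (4, [(53, 10121), (71, 5), (73, 16)]), (4, [(30, 25), (54, 18), (57, 10064), (81, 5)]), (4, [(30, 12), (54, 22), (57, 9970), (72, 4), (81, 22)]), (4, [(30, 9), (54, 19), (57, 10038), (61, 8), (81, 26)]), (4, [(30, 539), (52, 9660), (63, 31), (81, 1)]), (4, [(39, 1), (53, 9492), (55, 898), (73, 33)]), (0, [(30, 1), (54, 1), (72, 1)]), (0, [(55, 5)]), (3, [(30, 1), (54, 2), (57, 1005), (81, 1)]), (4, [(30, 20), (54, 184), (57, 9818), (61, 7), (81, 32)]), (3, [(55, 199), (58, 901), (82, 4)]), (1, [(54, 5), (55, 4), (59, 2), (80, 1)]), (3, [(55, 369), (58, 853), (82, 4)]), (1, [(30, 5), (54, 4), (61, 2), (81, 1)]), (4, [(30, 13),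 (54, 20), (57, 10047), (61, 6), (81, 16)]), (0, [(63, 2)]), (3, [(63, 19), (64, 975), (68, 1), (81, 17)]), (2, [(67, 99), (72, 1), (80, 1)]), (2, [(67, 98), (72, 3), (80, 1)]), (2, [(67, 96), (72, 5), (80, 2)]), (1, [(63, 3), (68, 9)]), (2, [(71, 101)]), (2, [(67, 95), (72, 9)]), (1, [(71, 8), (73, 4)]), (0, [(72, 2)]), (0, [(73, 2)]), (1, [(73, 5), (74, 7)]), (0, [(63, 2)]), (2, [(72, 101)]), (1, [(74, 11)]), (1, [(73, 6), (74, 6)]), (0, [(73, 2)]), (0, [(72, 2)]), (0, [(63, 2)]), (1, [(73, 11)])],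
  [(2, [(57, 101)]), (4, [(17, 9552), (18, 517), (20, 8), (80, 26)]), (3, [(13, 10), (17, 994), (67, 2)]), (3, [(17, 990), (18, 18), (80, 2)]), (3, [(17, 966), (18, 32), (80, 3)]), (4, [(17, 9652), (18, 369), (20, 5), (80, 31)]), (4, [(0, 216), (23, 9982), (63, 1), (68, 1), (81, 18)]), (4, [(0, 109), (7, 126), (23, 9941), (63, 3), (81, 3)]), (4, [(0, 162), (7, 384), (23, 9647), (63, 5), (81, 7)]), (3, [(0, 18), (7, 104), (23, 897), (63, 1), (81, 1)]), (3, [(0, 19), (7, 207), (23, 794), (63, 2), (81, 1)]), (4, [(17, 9547), (18, 517), (20, 8), (80, 26)]), (3, [(13, 178), (17, 825), (72, 2)]), (5, [(1, 5), (17, 100262), (18, 15), (20, 69), (80, 206)]), (5, [(1, 5), (17, 97839), (18, 2387), (20, 61), (80, 256)]), (5, [(1, 5), (17, 96894), (18, 3282), (20, 60), (80, 307)]), (5, [(1, 6), (17, 96670), (18, 3457), (20, 60), (80, 358)]), (4, [(17, 9722), (18, 329), (20, 5), (80, 41)]), (4, [(0, 204),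 (7, 3526), (23, 6492), (63, 15), (81, 12)]), (4, [(0, 138), (7, 2102), (23, 7954), (63, 3), (81, 13)]), (4, [(0, 167), (7, 3900), (23, 6148), (63, 16), (81, 9)]), (4, [(0, 178), (7, 5416), (23, 4634), (63, 26), (81, 6)]), (3, [(0, 18), (7, 692), (23, 314), (63, 4)]), (3, [(0, 18), (7, 847), (23, 160), (63, 5)]), (3, [(30, 1), (54, 2), (57, 1008), (72, 1), (81, 1)]), (4, [(30, 3), (54, 12), (57, 10111), (72, 2), (81, 3)]), (4, [(30, 6), (54, 18), (57, 10094), (72, 3), (81, 7)]), (4, [(30, 9), (54, 21), (57, 10085), (72, 3), (81, 12)]), (3, [(30, 1), (54, 2), (57, 1018), (81, 2)]), (4, [(30, 25), (54, 69), (57, 10042), (72, 17), (81, 1)]), (4, [(30, 17), (47, 116), (54, 12), (57, 9991), (72, 5)]), (3, [(30, 2), (47, 38), (54, 2), (57, 982), (72, 1)]), (4, [(30, 24), (47, 1106), (54, 40), (57, 8975), (72, 16)]), (4, [(30, 24), (47, 2278), (54, 45), (57, 7807), (72, 22)]), (3, [(30, 1), (54, 2),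 (57, 1007), (81, 2)]), (4, [(30, 15), (54, 6), (57, 10110), (61, 2), (81, 5)]), (3, [(30, 1), (54, 1), (57, 1009), (81, 1)]), (3, [(30, 1), (54, 2), (57, 1008), (81, 2)]), (3, [(54, 1), (57, 1017), (81, 2)]), (4, [(30, 8), (54, 19), (57, 10069), (61, 7), (81, 26)]), (3, [(54, 1), (57, 1016), (81, 3)]), (3, [(30, 2), (47, 392), (54, 6), (57, 617), (72, 2)]), (4, [(30, 11), (47, 2283), (54, 61), (57, 7815), (72, 12)]), (4, [(30, 17), (47, 4373), (54, 48), (57, 5742), (72, 18)]), (4, [(30, 18), (47, 6122), (54, 42), (57, 4008), (72, 24)]), (3, [(30, 1), (47, 784), (54, 3), (57, 229), (72, 3)]), (4, [(30, 17), (47, 9630), (54, 34), (57, 534), (72, 37)]), (3, [(63, 19), (64, 974), (68, 2), (81, 17)]), (2, [(67, 99), (72, 1), (80, 1)]), (0, [(0, 1), (63, 1)]), (2, [(23, 101)]), (4, [(10, 725), (13, 6892), (16, 2419), (65, 14)]), (3, [(0, 15), (23, 1013), (81, 1)]), (3, [(0, 18), (7, 981), (15, 53),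 (63, 6)]), (3, [(16, 612), (17, 102), (18, 290), (65, 2)]), (4, [(0, 63), (23, 10067), (25, 7), (81, 5)]), (4, [(0, 423), (23, 9811), (25, 48), (81, 18)]), (3, [(16, 59), (17, 197), (18, 756), (65, 2)]), (3, [(17, 915), (18, 87), (80, 2)]), (4, [(17, 8651), (18, 1362), (20, 12), (80, 25)]), (3, [(17, 821), (18, 183), (20, 2), (80, 3)]), (3, [(18, 1011), (21, 1), (26, 1), (80, 2)]), (4, [(17, 7556), (18, 2424), (20, 40), (80, 35)]), (4, [(1, 1), (13, 5953), (17, 3777), (20, 505), (72, 23)]), (3, [(0, 21), (23, 1010), (25, 3), (81, 1)]), (3, [(18, 1018), (21, 24), (73, 2)]), (3, [(18, 1014), (20, 5), (21, 8), (80, 3)]), (3, [(18, 937), (20, 11), (21, 104), (80, 4)]), (3, [(19, 975), (21, 32), (74, 4)]), (0, [(0, 1), (20, 1), (72, 1)]), (1, [(21, 57)]), (4, [(0, 458), (23, 9799), (25, 8), (81, 18)]), (3, [(0, 34), (23, 975), (81, 4)]), (3, [(0, 501), (24, 694), (63, 5)]), (1, [(0, 5), (20, 4), (25,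 2), (81, 1)]), (1, [(20, 5), (21, 4), (26, 2), (80, 1)]), (2, [(21, 70), (27, 49), (73, 1)]), (2, [(21, 101), (27, 19), (73, 1)]), (4, [(0, 180), (7, 7456), (23, 2614), (63, 36), (81, 6)]), (0, [(30, 1), (63, 1)]), (3, [(30, 5), (47, 321), (54, 10), (57, 683), (72, 3)]), (4, [(30, 53), (54, 108), (57, 9987), (72, 20), (81, 4)]), (3, [(30, 5), (47, 42), (54, 7), (57, 976), (72, 2)]), (4, [(30, 44), (54, 212), (57, 9952), (72, 14), (81, 3)]), (4, [(30, 47), (54, 53), (57, 10044), (72, 15), (81, 1)]), (4, [(54, 144), (57, 10009), (72, 10), (81, 1)]), (3, [(30, 3), (54, 3), (57, 1007), (72, 1)]), (3, [(30, 1), (42, 562), (47, 455), (54, 5), (72, 4)]), (4, [(54, 64), (57, 10070), (59, 1), (80, 5)]), (3, [(54, 43), (57, 983), (59, 1), (80, 2)]), (4, [(30, 78), (54, 44), (57, 10009), (72, 16), (81, 5)]), (3, [(30, 12), (54, 14), (57, 974), (72, 3), (81, 1)]), (3, [(53, 990), (55, 39), (73, 4)]), (4,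 [(30, 76), (54, 24), (57, 10029), (72, 2), (81, 10)]), (3, [(54, 21), (57, 1010), (59, 1), (80, 1)]), (3, [(30, 3), (54, 24), (57, 975), (72, 1), (81, 2)]), (3, [(30, 10), (54, 30), (57, 962), (72, 2), (81, 2)]), (4, [(53, 10115), (71, 12), (73, 14)]), (3, [(30, 2), (54, 1), (57, 1006), (81, 1)]), (3, [(30, 1), (54, 2), (57, 1021), (81, 3)]), (4, [(30, 8), (54, 18), (57, 10034), (61, 10), (81, 31)]), (3, [(30, 53), (52, 966), (63, 4)]), (3, [(53, 949), (55, 89), (73, 4)]), (0, [(30, 1), (54, 1), (72, 1)]), (1, [(55, 57)]), (4, [(30, 15), (54, 19), (57, 10050), (61, 5), (81, 16)]), (4, [(30, 18), (54, 184), (57, 9814), (61, 9), (81, 37)]), (3, [(55, 198), (58, 901), (82, 4)]), (1, [(54, 5), (55, 4), (59, 2), (80, 1)]), (3, [(55, 366), (58, 853), (82, 4)]), (1, [(30, 5), (54, 4), (61, 2), (81, 1)]), (3, [(30, 1), (54, 1), (57, 1012), (81, 2)]), (0, [(63, 2)]), (3, [(63, 19), (64, 975), (68, 2),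 (81, 17)]), (2, [(67, 99), (72, 1), (80, 1)]), (2, [(67, 98), (72, 3), (80, 1)]), (2, [(67, 96), (72, 5), (80, 2)]), (1, [(63, 3), (68, 9)]), (2, [(71, 101)]), (2, [(67, 95), (72, 9)]), (1, [(71, 8), (73, 4)]), (0, [(72, 2)]), (0, [(73, 2)]), (1, [(73, 5), (74, 7)]), (0, [(63, 2)]), (3, [(72, 1001)]), (1, [(74, 11)]), (1, [(73, 6), (74, 6)]), (0, [(73, 2)]), (0, [(72, 2)]), (0, [(63, 2)]), (1, [(73, 11)])],
  [(3, [(51, 5), (57, 1009), (64, 1)]), (5, [(1, 3), (17, 95405), (18, 4785), (20, 75), (80, 306)]), (5, [(1, 3), (13, 424), (17, 99908), (67, 203), (72, 3)]), (5, [(1, 4), (17, 98906), (18, 1383), (20, 8), (80, 256)]), (4, [(17, 9737), (18, 286), (20, 3), (80, 31)]), (3, [(17, 964), (18, 33), (80, 4)]), (4, [(0, 216), (23, 9976), (63, 1), (68, 6), (81, 18)]), (3, [(0, 11), (23, 1006), (68, 1)]), (4, [(0, 162), (23, 10030), (63, 4), (68, 4), (81, 8)]), (4, [(0, 186), (23, 10025), (63, 8),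 (68, 2), (81, 11)]), (4, [(0, 195), (7, 394), (23, 9638), (63, 15), (81, 13)]), (5, [(1, 5), (17, 95378), (18, 4780), (20, 77), (80, 306)]), (5, [(1, 7), (13, 17318), (17, 83008), (20, 23), (72, 206)]), (5, [(1, 6), (17, 100246), (20, 48), (72, 37), (80, 220)]), (5, [(1, 6), (17, 98170), (18, 2013), (20, 54), (80, 307)]), (5, [(1, 6), (17, 97220), (18, 2912), (20, 53), (80, 358)]), (4, [(17, 9742), (18, 310), (20, 5), (80, 41)]), (4, [(17, 9712), (18, 291), (20, 5), (80, 46)]), (4, [(0, 206), (7, 1847), (23, 8188), (63, 14), (81, 15)]), (4, [(0, 140), (7, 415), (23, 9657), (63, 1), (81, 16)]), (3, [(0, 17), (7, 226), (23, 801), (63, 2), (81, 1)]), (3, [(0, 18), (7, 366), (23, 620), (63, 3), (81, 1)]), (4, [(0, 181), (7, 5233), (23, 4840), (63, 36), (81, 7)]), (4, [(0, 178), (7, 6783), (23, 3300), (63, 46), (81, 5)]), (3, [(30, 1), (54, 2), (57, 1018), (72, 1), (81, 1)]), (3, [(54, 1), (57, 1011),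 (81, 1)]), (4, [(30, 5), (54, 18), (57, 10091), (81, 15)]), (3, [(54, 2), (57, 1018), (81, 2)]), (4, [(30, 9), (54, 22), (57, 10074), (81, 26)]), (4, [(30, 23), (54, 69), (57, 10038), (72, 14), (81, 9)]), (4, [(30, 16), (54, 12), (57, 10104), (72, 3), (81, 8)]), (4, [(30, 22), (54, 29), (57, 10086), (72, 9), (81, 6)]), (3, [(30, 2), (54, 4), (57, 1008), (72, 2)]), (4, [(30, 25), (47, 335), (54, 47), (57, 9760), (72, 27)]), (3, [(30, 1), (54, 2), (57, 1017), (81, 2)]), (3, [(30, 1), (57, 1010), (81, 1)]), (3, [(30, 1), (54, 1), (57, 998), (81, 2)]), (3, [(54, 1), (57, 1018), (81, 2)]), (4, [(30, 8), (54, 18), (57, 10071), (61, 7), (81, 26)]), (3, [(54, 1), (57, 1016), (81, 3)]), (4, [(30, 7), (54, 17), (57, 10061), (61, 9), (81, 36)]), (3, [(30, 2), (47, 202), (54, 6), (57, 826), (72, 3)]), (3, [(30, 1), (47, 34), (54, 6), (57, 977), (72, 2)]), (4, [(30, 18), (47, 2429), (54, 50), (57, 7695),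 (72, 22)]), (3, [(30, 2), (47, 418), (54, 4), (57, 596), (72, 3)]), (3, [(30, 2), (47, 580), (54, 4), (57, 417), (72, 4)]), (3, [(30, 1), (47, 768), (54, 3), (57, 248), (72, 4)]), (3, [(63, 19), (64, 974), (68, 2), (81, 17)]), (2, [(67, 99), (72, 1), (80, 1)]), (0, [(0, 1), (63, 1)]), (3, [(1, 4), (23, 1009), (68, 1)]), (3, [(10, 74), (13, 684), (16, 243), (65, 2)]), (4, [(0, 150), (23, 9999), (25, 7), (81, 16)]), (3, [(0, 18), (7, 865), (23, 172), (63, 6)]), (3, [(16, 618), (17, 94), (18, 291), (65, 3)]), (3, [(0, 6), (23, 1006), (81, 1)]), (4, [(0, 423), (23, 9808), (25, 46), (81, 23)]), (4, [(16, 667), (17, 1871), (18, 7568), (65, 23)]), (3, [(17, 914), (18, 84), (80, 3)]), (3, [(17, 868), (18, 133), (20, 1), (80, 3)]), (4, [(17, 8204), (18, 1791), (20, 24), (80, 35)]), (4, [(18, 10107), (20, 8), (21, 16), (26, 11), (80, 26)]), (3, [(17, 761), (18, 240), (20, 3), (80, 4)]), (3, [(13, 590),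 (17, 383), (20, 50), (72, 3)]), (3, [(0, 22), (23, 994), (25, 3), (81, 2)]), (3, [(18, 998), (21, 23), (73, 3)]), (3, [(18, 986), (20, 5), (21, 8), (26, 1), (80, 4)]), (3, [(18, 936), (20, 11), (21, 105), (26, 1), (80, 5)]), (4, [(19, 9746), (21, 324), (74, 42)]), (0, [(0, 1), (20, 1), (72, 1)]), (0, [(20, 1), (21, 1), (73, 1)]), (4, [(0, 458), (23, 9796), (25, 6), (81, 23)]), (4, [(0, 338), (23, 9746), (81, 42)]), (2, [(0, 50), (24, 69), (63, 1)]), (1, [(0, 5), (20, 4), (25, 2), (81, 1)]), (1, [(20, 5), (21, 4), (26, 2), (80, 1)]), (2, [(21, 59), (27, 41), (73, 1)]), (2, [(21, 101), (27, 19), (73, 1)]), (3, [(0, 18), (7, 564), (23, 421), (63, 4), (81, 1)]), (0, [(30, 1), (63, 1)]), (3, [(30, 5), (47, 128), (54, 10), (57, 877), (72, 3)]), (3, [(30, 5), (54, 11), (57, 998), (72, 2), (81, 1)]), (3, [(30, 5), (54, 7), (57, 1003), (72, 2), (81, 1)]), (3, [(30, 4), (54, 21), (57, 1012), (72, 1), (81,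 1)]), (4, [(30, 46), (54, 54), (57, 10040), (72, 12), (81, 9)]), (3, [(54, 14), (57, 1001), (72, 2)]), (4, [(30, 34), (54, 30), (57, 10064), (72, 5), (81, 10)]), (4, [(30, 17), (47, 9583), (54, 35), (57, 619), (72, 45)]), (4, [(54, 63), (57, 10067), (72, 2), (80, 8)]), (3, [(54, 43), (57, 1004), (80, 2)]), (4, [(30, 77), (54, 45), (57, 10005), (72, 13), (81, 13)]), (3, [(30, 12), (54, 14), (57, 990), (72, 3), (81, 2)]), (4, [(39, 1), (53, 9893), (55, 385), (73, 43)]), (3, [(30, 7), (54, 2), (57, 1003), (81, 2)]), (3, [(54, 22), (57, 995), (59, 1), (80, 2)]), (3, [(30, 3), (54, 24), (57, 989), (72, 1), (81, 2)]), (4, [(30, 96), (54, 309), (57, 9787), (72, 14), (81, 25)]), (4, [(53, 10109), (71, 17), (73, 14)]), (4, [(30, 22), (54, 16), (57, 10057), (61, 3), (81, 16)]), (3, [(30, 1), (54, 2), (57, 1008), (81, 4)]), (4, [(30, 7), (54, 17), (57, 10030), (61, 11), (81, 36)]), (4, [(30, 529), (52,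 9656), (63, 41), (81, 1)]), (3, [(53, 979), (55, 92), (73, 5)]), (0, [(30, 1), (54, 1), (72, 1)]), (0, [(54, 1), (55, 1), (73, 1)]), (3, [(30, 1), (54, 1), (57, 1012), (81, 2)]), (4, [(30, 17), (54, 184), (57, 9810), (61, 10), (81, 42)]), (3, [(55, 198), (58, 901), (82, 5)]), (1, [(54, 5), (55, 4), (59, 2), (80, 1)]), (2, [(55, 42), (58, 98), (82, 1)]), (1, [(30, 5), (54, 4), (61, 2), (81, 1)]), (4, [(30, 10), (54, 18), (57, 10039), (61, 8), (81, 26)]), (0, [(63, 2)]), (3, [(63, 19), (64, 975), (68, 2), (81, 17)]), (2, [(67, 99), (72, 1), (80, 1)]), (2, [(67, 98), (72, 3), (80, 1)]), (2, [(67, 96), (72, 5), (80, 2)]), (1, [(63, 3), (68, 9)]), (2, [(71, 101)]), (2, [(67, 95), (72, 9)]), (1, [(71, 8), (73, 4)]), (0, [(72, 2)]), (0, [(73, 2)]), (1, [(73, 5), (74, 7)]), (0, [(63, 2)]), (3, [(72, 1001)]), (1, [(74, 11)]), (1, [(73, 6), (74, 6)]), (0, [(73, 2)]), (0, [(72, 2)]), (0, [(63, 2)]), (1,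 [(73, 11)])],
  [(3, [(51, 3), (57, 1009), (64, 1)]), (4, [(17, 9580), (18, 434), (20, 7), (80, 36)]), (3, [(13, 1), (17, 1001), (67, 3)]), (4, [(17, 9931), (18, 94), (80, 31)]), (3, [(17, 973), (18, 24), (80, 4)]), (4, [(17, 9769), (18, 289), (20, 3), (80, 41)]), (4, [(0, 217), (23, 9970), (68, 12), (81, 18)]), (4, [(0, 110), (23, 10057), (63, 2), (68, 11), (81, 3)]), (4, [(0, 163), (23, 10025), (63, 4), (68, 10), (81, 8)]), (3, [(0, 19), (23, 1002), (63, 1), (68, 1), (81, 1)]), (4, [(0, 196), (23, 10031), (63, 14), (68, 4), (81, 14)]), (5, [(1, 5), (17, 95776), (18, 4340), (20, 70), (80, 358)]), (5, [(1, 8), (13, 17079), (17, 83218), (67, 6), (72, 251)]), (5, [(1, 7), (17, 100218), (20, 25), (72, 82), (80, 226)]), (3, [(17, 981), (18, 16), (80, 4)]), (4, [(17, 9804), (18, 248), (20, 4), (80, 41)]), (3, [(17, 970), (18, 26), (80, 5)]), (4, [(17, 9751), (18, 247), (20, 4), (80, 51)]), (4, [(0,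 208), (7, 186), (23, 9866), (63, 13), (81, 17)]), (4, [(0, 141), (23, 10072), (63, 1), (68, 4), (81, 16)]), (4, [(0, 171), (7, 550), (23, 9530), (63, 14), (81, 14)]), (4, [(0, 182), (7, 2069), (23, 8013), (63, 25), (81, 12)]), (3, [(0, 18), (7, 349), (23, 636), (63, 4), (81, 1)]), (4, [(0, 180), (7, 5118), (23, 4981), (63, 45), (81, 8)]), (4, [(30, 12), (54, 23), (57, 10070), (72, 4), (81, 22)]), (3, [(54, 1), (57, 1010), (81, 2)]), (3, [(54, 1), (57, 1019), (81, 2)]), (4, [(30, 7), (54, 20), (57, 9973), (61, 1), (81, 26)]), (3, [(54, 2), (57, 1017), (81, 3)]), (3, [(30, 2), (54, 7), (57, 1003), (72, 1), (81, 2)]), (3, [(30, 1), (54, 1), (57, 1010), (81, 2)]), (4, [(30, 21), (54, 29), (57, 10082), (72, 7), (81, 14)]), (4, [(30, 23), (54, 41), (57, 10081), (72, 15), (81, 11)]), (4, [(30, 24), (54, 48), (57, 10093), (72, 25), (81, 7)]), (4, [(30, 10), (54, 21), (57, 10066), (61, 6), (81, 26)]),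 (3, [(30, 1), (57, 1010), (81, 2)]), (3, [(54, 1), (57, 1019), (81, 2)]), (4, [(30, 7), (54, 16), (57, 10075), (61, 7), (81, 26)]), (3, [(54, 1), (57, 1017), (81, 3)]), (4, [(30, 6), (54, 17), (57, 10062), (61, 9), (81, 36)]), (3, [(54, 1), (57, 1016), (61, 1), (81, 4)]), (3, [(30, 2), (47, 6), (54, 6), (57, 1005), (72, 3)]), (3, [(30, 1), (54, 6), (57, 1010), (72, 1), (81, 1)]), (3, [(30, 2), (47, 50), (54, 5), (57, 963), (72, 3)]), (4, [(30, 21), (47, 2257), (54, 47), (57, 7890), (72, 33)]), (3, [(30, 2), (47, 398), (54, 4), (57, 618), (72, 4)]), (3, [(30, 2), (47, 561), (54, 4), (57, 429), (72, 5)]), (3, [(63, 19), (64, 974), (68, 2), (81, 17)]), (2, [(67, 99), (72, 1), (80, 1)]), (0, [(0, 1), (63, 1)]), (3, [(1, 2), (23, 1010), (68, 1)]), (4, [(10, 706), (13, 6862), (16, 2435), (65, 24)]), (3, [(0, 15), (23, 1013), (81, 2)]), (4, [(0, 179), (7, 6766), (23, 3355), (63, 53), (81, 6)]), (3,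 [(16, 621), (17, 93), (18, 295), (65, 3)]), (3, [(0, 6), (23, 1006), (81, 2)]), (3, [(0, 42), (23, 980), (25, 4), (81, 3)]), (3, [(16, 64), (17, 186), (18, 759), (65, 3)]), (3, [(17, 926), (18, 80), (80, 3)]), (4, [(17, 8719), (18, 1285), (20, 11), (80, 35)]), (3, [(17, 824), (18, 175), (20, 2), (80, 4)]), (3, [(18, 1023), (21, 1), (26, 1), (80, 3)]), (4, [(17, 7619), (18, 2354), (20, 39), (80, 45)]), (4, [(1, 1), (13, 5890), (17, 3834), (20, 501), (72, 33)]), (3, [(0, 22), (23, 1010), (25, 3), (81, 2)]), (3, [(18, 1017), (21, 23), (73, 3)]), (4, [(18, 9996), (20, 54), (21, 78), (26, 9), (80, 42)]), (2, [(18, 94), (20, 1), (21, 10), (80, 1)]), (3, [(19, 965), (21, 32), (74, 5)]), (0, [(0, 1), (20, 1), (72, 1)]), (0, [(20, 1), (21, 1), (73, 1)]), (3, [(0, 46), (23, 979), (81, 3)]), (4, [(0, 339), (23, 9742), (24, 1), (68, 4), (81, 44)]), (2, [(0, 42), (24, 58), (63, 1)]), (1, [(0, 5), (20, 4),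 (25, 2), (81, 1)]), (1, [(20, 5), (21, 4), (26, 2), (80, 1)]), (2, [(21, 59), (27, 41), (73, 1)]), (2, [(21, 84), (27, 16), (73, 1)]), (4, [(0, 184), (7, 4106), (23, 5996), (63, 34), (81, 12)]), (0, [(30, 1), (63, 1)]), (4, [(30, 53), (54, 103), (57, 10059), (72, 32), (81, 3)]), (4, [(30, 51), (54, 109), (57, 9980), (72, 14), (81, 20)]), (3, [(30, 5), (54, 7), (57, 1018), (72, 2), (81, 1)]), (3, [(30, 4), (54, 21), (57, 994), (72, 1), (81, 2)]), (3, [(30, 4), (54, 5), (57, 991), (72, 1), (81, 2)]), (3, [(54, 14), (57, 1013), (72, 2)]), (3, [(30, 3), (54, 3), (57, 1017), (81, 2)]), (2, [(47, 78), (57, 26), (72, 1)]), (4, [(54, 60), (57, 10064), (72, 7), (80, 8)]), (4, [(54, 427), (57, 9822), (59, 6), (80, 28)]), (3, [(30, 7), (54, 4), (57, 1012), (72, 1), (81, 2)]), (4, [(30, 124), (54, 145), (57, 9892), (72, 23), (81, 23)]), (3, [(53, 989), (55, 38), (73, 5)]), (3, [(30, 7), (54, 2), (57, 1013),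 (81, 2)]), (3, [(54, 22), (57, 1010), (59, 1), (80, 2)]), (4, [(30, 28), (54, 242), (57, 9890), (72, 3), (81, 30)]), (4, [(30, 96), (54, 309), (57, 9784), (72, 11), (81, 32)]), (4, [(53, 10104), (71, 22), (73, 15)]), (3, [(30, 2), (54, 1), (57, 1014), (81, 2)]), (3, [(30, 1), (54, 2), (57, 1020), (81, 4)]), (4, [(30, 6), (54, 16), (57, 10027), (61, 12), (81, 41)]), (3, [(30, 53), (52, 965), (63, 5)]), (2, [(53, 98), (55, 9), (73, 1)]), (0, [(30, 1), (54, 1), (72, 1)]), (0, [(54, 1), (55, 1), (73, 1)]), (4, [(30, 13), (54, 16), (57, 10043), (61, 7), (81, 26)]), (4, [(30, 16), (54, 183), (57, 9806), (61, 11), (81, 47)]), (2, [(55, 20), (58, 90), (82, 1)]), (1, [(54, 5), (55, 4), (59, 2), (80, 1)]), (2, [(55, 37), (58, 85), (82, 1)]), (1, [(30, 5), (54, 4), (61, 2), (81, 1)]), (4, [(30, 9), (54, 17), (57, 10036), (61, 9), (81, 31)]), (0, [(63, 2)]), (3, [(63, 19), (64, 974), (68, 2), (81, 17)]),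 (2, [(67, 99), (72, 1), (80, 1)]), (2, [(67, 98), (72, 3), (80, 1)]), (2, [(67, 96), (72, 5), (80, 2)]), (1, [(63, 3), (68, 9)]), (2, [(71, 101)]), (2, [(67, 95), (72, 9)]), (1, [(71, 8), (73, 4)]), (0, [(72, 2)]), (0, [(73, 2)]), (1, [(73, 5), (74, 7)]), (0, [(63, 2)]), (3, [(72, 1001)]), (1, [(74, 11)]), (1, [(73, 6), (74, 6)]), (0, [(73, 2)]), (0, [(72, 2)]), (0, [(63, 2)]), (1, [(73, 11)])],
  [(0, [(0, 1), (63, 1)]), (0, [(30, 1), (63, 1)]), (0, [(30, 1), (63, 1)]), (0, [(30, 1), (63, 1)]), (0, [(30, 1), (63, 1)]), (0, [(30, 1), (63, 1)]), (0, [(30, 1), (63, 1)]), (0, [(30, 1), (63, 1)]), (0, [(30, 1), (63, 1)]), (0, [(30, 1), (63, 1)]), (0, [(30, 1), (63, 1)]), (0, [(30, 1), (63, 1)]), (0, [(30, 1), (63, 1)]), (0, [(30, 1), (63, 1)]), (0, [(30, 1), (63, 1)]), (0, [(30, 1), (63, 1)]), (0, [(30, 1), (63, 1)]), (0, [(30, 1), (63, 1)]), (0, [(30, 1), (63, 1)]), (0, [(30, 1), (63, 1)]), (0,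 [(30, 1), (63, 1)]), (0, [(30, 1), (63, 1)]), (0, [(30, 1), (63, 1)]), (0, [(30, 1), (63, 1)]), (0, [(0, 1), (63, 1)]), (0, [(0, 1), (63, 1)]), (0, [(0, 1), (63, 1)]), (0, [(0, 1), (63, 1)]), (0, [(0, 1), (63, 1)]), (0, [(0, 1), (63, 1)]), (0, [(0, 1), (63, 1)]), (0, [(0, 1), (63, 1)]), (0, [(0, 1), (63, 1)]), (0, [(0, 1), (63, 1)]), (0, [(0, 1), (63, 1)]), (0, [(0, 1), (63, 1)]), (0, [(0, 1), (63, 1)]), (0, [(0, 1), (63, 1)]), (0, [(0, 1), (63, 1)]), (0, [(0, 1), (63, 1)]), (0, [(0, 1), (63, 1)]), (0, [(0, 1), (63, 1)]), (0, [(0, 1), (63, 1)]), (0, [(0, 1), (63, 1)]), (0, [(0, 1), (63, 1)]), (0, [(0, 1), (63, 1)]), (0, [(0, 1), (63, 1)]), (0, [(63, 1)]), (0, [(63, 2)]), (0, [(30, 1)]), (0, [(30, 1), (63, 1)]), (0, [(30, 1), (63, 1)]), (0, [(30, 1), (63, 1)]), (0, [(30, 1), (63, 1)]), (0, [(30, 1), (63, 1)]), (0, [(30, 1), (63, 1)]), (0, [(30, 1), (63, 1)]), (0, [(30, 1), (63, 1)]), (0, [(30,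 1), (63, 1)]), (0, [(30, 1), (63, 1)]), (0, [(30, 1), (63, 1)]), (0, [(30, 1), (63, 1)]), (0, [(30, 1), (63, 1)]), (0, [(30, 1), (63, 1)]), (0, [(30, 1), (63, 1)]), (0, [(30, 1), (63, 1)]), (0, [(30, 1), (63, 1)]), (0, [(30, 1), (63, 1)]), (0, [(30, 1), (63, 1)]), (0, [(30, 1), (63, 1)]), (0, [(30, 1), (63, 1)]), (0, [(30, 1), (63, 1)]), (0, [(30, 1), (63, 1)]), (0, [(30, 1), (63, 1)]), (0, [(30, 1), (63, 1)]), (0, [(30, 1), (63, 1)]), (0, [(30, 1), (63, 1)]), (0, [(30, 1), (63, 1)]), (0, [(30, 1), (63, 1)]), (0, [(0, 1)]), (0, [(0, 1), (63, 1)]), (0, [(0, 1), (63, 1)]), (0, [(0, 1), (63, 1)]), (0, [(0, 1), (63, 1)]), (0, [(0, 1), (63, 1)]), (0, [(0, 1), (63, 1)]), (0, [(0, 1), (63, 1)]), (0, [(0, 1), (63, 1)]), (0, [(0, 1), (63, 1)]), (0, [(0, 1), (63, 1)]), (0, [(0, 1), (63, 1)]), (0, [(0, 1), (63, 1)]), (0, [(0, 1), (63, 1)]), (0, [(0, 1), (63, 1)]), (0, [(0, 1), (63, 1)]), (0, [(0, 1), (63,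 1)]), (0, [(0, 1), (63, 1)]), (0, [(0, 1), (63, 1)]), (0, [(0, 1), (63, 1)]), (0, [(0, 1), (63, 1)]), (0, [(0, 1), (63, 1)]), (0, [(0, 1), (63, 1)]), (0, [(0, 1), (63, 1)]), (0, [(0, 1), (63, 1)]), (0, [(0, 1), (63, 1)]), (0, [(0, 1), (63, 1)]), (0, [(0, 1), (63, 1)]), (0, [(0, 1), (63, 1)]), (0, [(0, 1), (63, 1)]), (0, [(0, 1), (63, 1)]), (0, [(0, 1), (63, 1)]), (0, [(0, 1), (63, 1)]), (0, [(63, 1)]), (0, [(63, 1)]), (0, [(63, 2)]), (0, [(63, 2)]), (0, [(63, 2)]), (0, [(63, 1)]), (0, [(63, 2)]), (0, [(63, 1)]), (0, [(63, 2)]), (0, [(63, 1)]), (0, [(63, 2)]), (0, [(63, 2)]), (0, [(63, 1)]), (0, [(63, 1)]), (0, [(63, 2)]), (0, [(63, 2)]), (0, [(63, 2)]), (0, [(63, 2)]), (0, [(63, 1)]), (0, [(63, 2)])],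
  [(0, [(20, 2)]), (0, [(55, 4)]), (0, [(55, 3)]), (0, [(55, 3)]), (0, [(55, 4)]), (0, [(55, 5)]), (1, [(30, 10), (54, 1), (72, 1)]), (1, [(30, 10), (54, 1), (72, 1)]), (1, [(30, 10), (54, 1), (72, 1)]), (1, [(30, 10), (54, 1), (72, 1)]), (1, [(30, 10), (54, 1), (72, 1)]), (0, [(55, 4)]), (0, [(55, 3)]), (0, [(55, 3)]), (0, [(55, 4)]), (0, [(55, 5)]), (0, [(55, 5)]), (0, [(55, 6)]), (1, [(30, 10), (54, 1), (72, 1)]), (1, [(30, 10), (54, 1), (72, 1)]), (1, [(30, 10), (54, 1), (72, 1)]), (1, [(30, 10), (54, 1), (72, 1)]), (1, [(30, 10), (54, 1), (72, 1)]), (1, [(30, 10), (54, 1), (72, 1)]), (0, [(20, 5)]), (0, [(20, 3)]), (0, [(20, 4)]), (0, [(20, 5)]), (0, [(20, 6)]), (0, [(20, 6)]), (0, [(20, 3)]), (0, [(20, 4)]), (0, [(20, 5)]), (0, [(20, 6)]), (0, [(20, 5)]), (0, [(20, 3)]), (0, [(20, 4)]), (0, [(20, 5)]), (0, [(20, 6)]), (0, [(0, 1), (20, 1), (72, 1)]), (0, [(0, 1), (20, 1), (72, 1)]), (0,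 [(20, 6)]), (0, [(20, 4)]), (0, [(20, 5)]), (0, [(20, 6)]), (0, [(20, 7)]), (0, [(20, 8)]), (0, [(63, 1)]), (0, [(72, 2)]), (0, [(30, 1), (63, 1)]), (1, [(30, 10), (54, 1), (72, 1)]), (0, [(55, 2)]), (1, [(30, 10), (54, 1), (72, 1)]), (1, [(30, 10), (54, 1), (72, 1)]), (0, [(55, 3)]), (1, [(30, 10), (54, 1), (72, 1)]), (0, [(30, 1), (54, 1), (72, 1)]), (0, [(55, 3)]), (0, [(55, 3)]), (0, [(55, 4)]), (0, [(55, 5)]), (0, [(55, 4)]), (0, [(55, 5)]), (0, [(54, 5)]), (0, [(30, 1), (54, 1), (72, 1)]), (0, [(55, 4)]), (0, [(55, 5)]), (0, [(55, 6)]), (0, [(55, 3)]), (0, [(54, 2)]), (0, [(55, 2)]), (1, [(30, 10), (54, 1), (72, 1)]), (1, [(30, 10), (54, 1), (72, 1)]), (3, [(30, 999), (63, 2), (72, 1)]), (0, [(54, 3)]), (0, [(55, 2)]), (0, [(55, 5)]), (0, [(55, 3)]), (1, [(30, 10), (54, 1), (72, 1)]), (0, [(0, 1), (63, 1)]), (0, [(20, 7)]), (0, [(20, 7)]), (0, [(20, 6)]), (0, [(20, 5)]), (0, [(20, 5)]),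 (0, [(20, 4)]), (0, [(20, 4)]), (0, [(20, 9)]), (0, [(20, 3)]), (0, [(20, 5)]), (0, [(20, 6)]), (0, [(20, 9)]), (0, [(21, 4)]), (0, [(20, 4)]), (0, [(20, 4)]), (0, [(20, 6)]), (0, [(20, 8)]), (0, [(21, 2)]), (0, [(20, 4)]), (0, [(0, 1), (20, 1), (72, 1)]), (0, [(0, 1), (20, 1), (72, 1)]), (2, [(0, 100), (20, 1), (72, 1)]), (0, [(21, 4)]), (0, [(20, 2)]), (0, [(21, 2)]), (0, [(20, 5)]), (0, [(20, 9)]), (0, [(21, 4)]), (0, [(21, 2)]), (0, [(21, 3)]), (0, [(20, 3)]), (0, [(20, 6)]), (0, [(63, 1)]), (0, [(63, 1)]), (0, [(72, 2)]), (0, [(72, 2)]), (0, [(72, 2)]), (0, [(63, 1)]), (0, [(73, 1)]), (0, [(72, 1)]), (0, [(73, 2)]), (0, [(72, 1)]), (0, [(73, 1)]), (0, [(73, 2)]), (0, [(63, 1)]), (0, [(72, 1)]), (0, [(73, 2)]), (0, [(73, 1)]), (0, [(73, 2)]), (0, [(73, 1)]), (0, [(72, 1)]), (0, [(73, 2)])],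
  [(5, [(0, 429), (4, 91751), (15, 7861), (63, 34), (72, 37)]), (4, [(30, 12), (42, 9947), (54, 77), (72, 21)]), (4, [(31, 8121), (42, 1835), (54, 59), (72, 19)]), (4, [(31, 449), (42, 9524), (54, 68), (72, 16)]), (4, [(30, 4), (42, 9986), (54, 71), (72, 21)]), (4, [(30, 7), (42, 10006), (54, 71), (72, 26)]), (3, [(30, 220), (52, 900), (63, 3), (68, 3)]), (3, [(30, 132), (52, 939), (63, 1), (68, 3)]), (3, [(30, 178), (52, 919), (63, 2), (68, 3)]), (3, [(30, 199), (52, 909), (63, 2), (68, 3)]), (3, [(30, 210), (52, 904), (63, 2), (68, 4)]), (3, [(30, 1), (42, 1012), (54, 7), (72, 2)]), (3, [(30, 1), (42, 1006), (54, 4), (72, 1)]), (4, [(30, 9), (42, 10030), (54, 62), (72, 16)]), (3, [(42, 1017), (54, 6), (72, 2)]), (4, [(30, 9), (42, 10078), (54, 69), (72, 26)]), (3, [(30, 1), (42, 1028), (54, 7), (72, 3)]), (3, [(30, 1), (42, 994), (54, 6), (72, 4)]), (3, [(30, 221), (52, 899), (63, 2), (68,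 4)]), (3, [(30, 160), (52, 926), (63, 1), (68, 4)]), (3, [(30, 191), (52, 912), (63, 1), (68, 4)]), (3, [(30, 206), (52, 905), (63, 1), (68, 5)]), (2, [(30, 21), (52, 90), (68, 1)]), (2, [(30, 22), (52, 90), (68, 1)]), (4, [(0, 222), (4, 8039), (15, 1814), (63, 19), (72, 7)]), (5, [(0, 995), (4, 86258), (15, 12994), (63, 81), (72, 54)]), (4, [(0, 143), (4, 7910), (15, 1998), (63, 15), (72, 6)]), (4, [(0, 171), (4, 6968), (15, 2940), (63, 22), (72, 6)]), (4, [(0, 189), (4, 5910), (15, 4122), (63, 30), (72, 5)]), (4, [(0, 401), (4, 8755), (15, 985), (63, 13), (72, 14)]), (5, [(0, 2261), (4, 92029), (15, 6484), (63, 68), (72, 59)]), (4, [(0, 318), (4, 9438), (15, 458), (63, 9), (72, 8)]), (4, [(0, 359), (4, 9768), (63, 11), (72, 11)]), (4, [(0, 375), (4, 9629), (63, 11), (64, 3), (72, 13)]), (4, [(0, 217), (4, 4965), (15, 4960), (63, 28), (72, 5)]), (4, [(0, 207), (4, 7330), (15, 2574), (63, 13),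 (72, 4)]), (4, [(0, 186), (4, 5598), (15, 4342), (63, 22), (72, 4)]), (4, [(0, 186), (4, 4226), (15, 5737), (63, 30), (72, 4)]), (4, [(0, 189), (4, 2932), (15, 7054), (63, 39), (72, 4)]), (3, [(0, 19), (4, 163), (15, 838), (63, 5)]), (3, [(0, 19), (4, 30), (15, 974), (63, 6)]), (4, [(0, 407), (4, 9734), (63, 2), (64, 8), (72, 15)]), (4, [(0, 287), (4, 9899), (64, 2), (72, 14)]), (4, [(0, 350), (4, 9877), (64, 8), (72, 13)]), (4, [(0, 378), (4, 9748), (64, 13), (72, 14)]), (4, [(0, 393), (4, 9734), (63, 1), (64, 18), (72, 14)]), (5, [(0, 3999), (4, 97252), (63, 9), (64, 224), (72, 146)]), (2, [(68, 101)]), (2, [(63, 4), (64, 97), (72, 1)]), (0, [(30, 1), (63, 1)]), (4, [(30, 348), (52, 9854), (63, 2), (68, 32)]), (6, [(31, 998107), (48, 33), (54, 1358), (72, 1320), (73, 219)]), (3, [(30, 168), (52, 923), (63, 2), (68, 3)]), (2, [(30, 22), (52, 90), (68, 1)]), (5, [(31, 99108), (48, 3), (54, 1217),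 (72, 122), (73, 86)]), (3, [(30, 94), (52, 956), (63, 1), (68, 3)]), (3, [(30, 390), (52, 840), (63, 3), (68, 2), (81, 1)]), (4, [(31, 9832), (54, 258), (72, 23), (73, 4)]), (4, [(30, 6), (42, 9942), (54, 89), (72, 16)]), (4, [(30, 18), (42, 9926), (54, 103), (72, 21)]), (4, [(30, 41), (42, 9892), (54, 117), (72, 26)]), (4, [(30, 9), (42, 9759), (54, 407), (72, 22)]), (4, [(30, 66), (42, 9865), (54, 135), (72, 32)]), (3, [(30, 84), (47, 930), (54, 2), (57, 52), (72, 2)]), (4, [(30, 2295), (52, 8978), (63, 20), (68, 24), (81, 7)]), (4, [(31, 9570), (54, 726), (55, 1), (73, 34)]), (4, [(30, 87), (42, 9630), (54, 510), (72, 34)]), (3, [(30, 16), (42, 878), (54, 211), (72, 5)]), (2, [(48, 90), (54, 3), (55, 17), (73, 1)]), (1, [(30, 10), (54, 1), (72, 1)]), (0, [(54, 9)]), (2, [(30, 47), (52, 97), (63, 1)]), (2, [(30, 31), (52, 87), (63, 1)]), (2, [(30, 119), (63, 1)]), (1, [(30, 10), (61, 1), (81,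 1)]), (1, [(30, 5), (54, 5), (61, 1), (81, 1)]), (0, [(55, 9)]), (0, [(55, 8)]), (2, [(30, 22), (52, 90), (68, 1)]), (0, [(0, 1), (63, 1)]), (3, [(0, 74), (4, 957), (63, 1), (64, 1), (72, 2)]), (3, [(0, 73), (4, 811), (15, 147), (63, 2), (72, 2)]), (4, [(0, 659), (4, 9196), (15, 420), (63, 15), (72, 15)]), (3, [(0, 82), (4, 834), (15, 119), (72, 3)]), (4, [(0, 582), (4, 8708), (15, 951), (63, 13), (72, 12)]), (4, [(0, 299), (4, 7753), (15, 2053), (20, 1), (72, 21)]), (4, [(0, 425), (4, 8595), (15, 1148), (63, 12), (72, 8)]), (4, [(0, 408), (4, 9727), (64, 25), (72, 15)]), (5, [(0, 1546), (4, 83289), (15, 15576), (20, 16), (72, 145)]), (3, [(0, 77), (4, 680), (15, 275), (20, 3), (72, 3)]), (3, [(0, 87), (4, 815), (15, 168), (63, 2), (72, 1)]), (3, [(0, 142), (4, 733), (15, 191), (63, 3), (72, 2)]), (3, [(17, 977), (18, 6), (20, 82), (72, 2), (80, 1)]), (4, [(0, 786), (4, 7216), (15, 2366), (63,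 18), (72, 6)]), (4, [(0, 421), (4, 7434), (15, 2295), (20, 22), (72, 23)]), (4, [(0, 752), (4, 6399), (15, 3171), (72, 37)]), (3, [(0, 145), (4, 568), (15, 354), (63, 1), (72, 4)]), (4, [(17, 9258), (18, 710), (20, 190), (72, 12), (78, 1)]), (4, [(0, 302), (4, 6534), (15, 3301), (63, 19), (72, 5)]), (3, [(0, 21), (4, 379), (15, 618), (63, 5)]), (3, [(0, 18), (7, 876), (15, 150), (63, 6)]), (3, [(0, 370), (24, 826), (63, 4)]), (3, [(18, 931), (20, 158), (72, 1), (73, 2)]), (1, [(0, 10), (20, 1), (72, 1)]), (0, [(20, 9)]), (4, [(0, 244), (4, 4241), (15, 5664), (63, 30), (72, 4)]), (3, [(0, 57), (7, 938), (23, 35), (81, 6)]), (2, [(19, 29), (21, 72), (73, 1), (82, 1)]), (1, [(0, 5), (20, 5), (25, 1), (81, 1)]), (2, [(19, 18), (21, 82), (73, 1), (74, 1)]), (1, [(0, 10), (25, 1), (81, 1)]), (4, [(0, 218), (4, 2487), (15, 7466), (63, 40), (72, 4)]), (0, [(63, 2)]), (1, [(68, 11)]), (2, [(63, 4), (64,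 97), (72, 1)]), (2, [(63, 7), (64, 95), (72, 1)]), (2, [(63, 9), (64, 93), (72, 1)]), (0, [(63, 2)]), (3, [(67, 1001)]), (3, [(64, 1001)]), (1, [(65, 7), (72, 5)]), (0, [(63, 2)]), (0, [(72, 2)]), (1, [(72, 11)]), (0, [(63, 2)]), (1, [(63, 11)]), (1, [(69, 6), (72, 3), (73, 2)]), (1, [(72, 11)]), (0, [(73, 2)]), (0, [(63, 2)]), (0, [(63, 2)]), (0, [(73, 2)])],
  [(6, [(0, 3402), (4, 293122), (15, 704235), (63, 175), (72, 180)]), (4, [(30, 1), (42, 9953), (54, 113), (72, 3)]), (3, [(47, 1001)]), (3, [(47, 1001)]), (4, [(31, 700), (32, 5490), (42, 3784), (54, 106), (72, 9)]), (3, [(32, 88), (42, 547), (47, 357), (54, 9), (72, 1)]), (3, [(30, 195), (52, 913), (63, 3), (68, 1)]), (4, [(30, 1161), (52, 9483), (63, 13), (68, 8)]), (3, [(30, 157), (52, 930), (63, 2), (68, 1)]), (4, [(30, 1760), (52, 9208), (63, 23), (68, 11), (81, 1)]), (3, [(30, 185), (52, 916), (63, 3), (68, 1)]), (4, [(30, 5), (42,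 1641), (47, 8396), (54, 88), (72, 5)]), (2, [(47, 101)]), (2, [(47, 101)]), (3, [(47, 942), (54, 7), (57, 64), (72, 1)]), (4, [(30, 6), (47, 7652), (54, 80), (57, 2411), (72, 9)]), (4, [(30, 8), (47, 5864), (54, 85), (57, 4204), (72, 14)]), (4, [(30, 10), (47, 4037), (54, 87), (57, 6038), (72, 18)]), (3, [(30, 195), (52, 912), (63, 2), (68, 2)]), (4, [(30, 1410), (52, 9362), (63, 13), (68, 14), (81, 2)]), (4, [(30, 1689), (52, 9233), (63, 13), (68, 19), (81, 1)]), (3, [(30, 182), (52, 917), (63, 2), (68, 2)]), (3, [(30, 189), (52, 914), (63, 2), (68, 3)]), (3, [(30, 192), (52, 912), (63, 2), (68, 3)]), (4, [(0, 192), (4, 1894), (15, 7983), (63, 16), (72, 6)]), (3, [(0, 8), (4, 242), (15, 752), (63, 1)]), (5, [(0, 1222), (4, 17344), (15, 81921), (63, 119), (72, 49)]), (4, [(0, 147), (4, 817), (15, 9111), (63, 19), (72, 5)]), (3, [(0, 15), (7, 432), (15, 563), (63, 2), (81, 1)]), (4, [(0, 351),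 (4, 2661), (15, 7112), (63, 8), (72, 15)]), (5, [(0, 1956), (4, 30277), (15, 68467), (63, 44), (72, 44)]), (4, [(0, 274), (4, 3198), (15, 6626), (63, 6), (72, 8)]), (3, [(0, 31), (4, 371), (15, 609), (63, 1), (72, 1)]), (4, [(0, 332), (4, 4547), (15, 5238), (63, 8), (72, 13)]), (4, [(0, 169), (7, 9239), (23, 725), (63, 11), (81, 9)]), (4, [(0, 178), (4, 1172), (15, 8754), (63, 11), (72, 2)]), (4, [(0, 138), (7, 9961), (23, 24), (63, 13), (81, 3)]), (4, [(0, 145), (7, 8349), (23, 1643), (63, 10), (81, 8)]), (3, [(0, 15), (7, 682), (23, 318), (63, 1), (81, 1)]), (4, [(0, 163), (7, 5266), (23, 4745), (63, 7), (81, 15)]), (4, [(0, 170), (7, 3680), (23, 6342), (63, 6), (81, 18)]), (4, [(0, 355), (4, 5724), (15, 4048), (72, 16)]), (4, [(0, 246), (4, 4574), (15, 5266), (20, 2), (72, 11)]), (4, [(0, 301), (4, 6063), (15, 3743), (20, 1), (72, 12)]), (4, [(0, 332), (4, 7392), (15, 2498), (72, 14)]), (4,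 [(0, 342), (4, 8559), (15, 1221), (72, 17)]), (4, [(0, 348), (4, 9774), (63, 1), (72, 18)]), (1, [(68, 11)]), (2, [(63, 3), (64, 97), (72, 1)]), (0, [(30, 1), (63, 1)]), (3, [(30, 30), (52, 990), (63, 1), (68, 1)]), (4, [(32, 10003)]), (4, [(30, 1479), (52, 9341), (63, 22), (68, 3), (81, 3)]), (3, [(30, 196), (52, 911), (63, 2), (68, 4)]), (3, [(47, 1001)]), (4, [(30, 820), (52, 9640), (63, 14), (68, 5), (81, 2)]), (3, [(30, 348), (52, 856), (63, 3), (81, 1)]), (3, [(31, 422), (45, 562), (54, 24), (72, 1), (73, 1)]), (3, [(47, 1001)]), (4, [(30, 5), (42, 9930), (54, 145), (72, 3)]), (3, [(30, 2), (42, 990), (54, 16), (72, 1)]), (4, [(31, 2918), (45, 6805), (54, 454), (72, 21), (73, 2)]), (4, [(30, 45), (42, 9869), (54, 184), (72, 14)]), (2, [(57, 101)]), (4, [(30, 2032), (52, 9105), (63, 19), (68, 2), (81, 9)]), (4, [(31, 2249), (45, 7353), (54, 649), (55, 17), (73, 24)]), (3, [(30, 4), (42,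 961), (54, 64), (72, 2)]), (2, [(30, 1), (42, 30), (47, 48), (54, 23), (72, 1)]), (3, [(43, 84), (48, 804), (54, 14), (55, 200), (73, 2)]), (1, [(30, 10), (54, 1), (72, 1)]), (0, [(54, 5)]), (3, [(30, 359), (52, 851), (63, 4)]), (2, [(30, 28), (52, 87), (63, 1)]), (3, [(30, 1196), (63, 3)]), (1, [(30, 10), (61, 1), (81, 1)]), (1, [(30, 4), (54, 6), (61, 1), (81, 1)]), (0, [(55, 7)]), (0, [(55, 5)]), (3, [(30, 190), (52, 914), (63, 2), (68, 3)]), (0, [(0, 1), (63, 1)]), (4, [(0, 651), (4, 5144), (15, 4480), (72, 23)]), (3, [(0, 65), (4, 213), (15, 749), (63, 1), (72, 2)]), (4, [(0, 579), (4, 3171), (15, 6491), (63, 9), (72, 16)]), (4, [(0, 717), (4, 2388), (15, 7202), (20, 9), (72, 22)]), (3, [(0, 51), (4, 267), (15, 703), (63, 1), (72, 1)]), (3, [(0, 26), (4, 164), (15, 819), (72, 2)]), (4, [(0, 375), (4, 2536), (15, 7368), (63, 8), (72, 7)]), (4, [(0, 355), (4, 9776), (64, 3), (72, 19)]), (4,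 [(0, 131), (4, 2155), (15, 7750), (20, 4), (72, 11)]), (3, [(0, 67), (4, 88), (15, 872), (20, 4), (72, 3)]), (3, [(0, 74), (4, 196), (15, 762), (63, 2), (72, 1)]), (4, [(0, 1260), (4, 1587), (15, 7734), (63, 17), (72, 27)]), (3, [(17, 822), (18, 152), (20, 73), (80, 1)]), (4, [(0, 691), (4, 1259), (15, 8375), (63, 14), (72, 5)]), (3, [(0, 36), (4, 138), (15, 838), (20, 3), (72, 2)]), (3, [(0, 67), (4, 48), (15, 937), (72, 3)]), (3, [(0, 128), (7, 45), (15, 885), (72, 5)]), (2, [(17, 101)]), (3, [(0, 26), (4, 44), (15, 942), (63, 2)]), (4, [(0, 165), (7, 7849), (23, 2145), (63, 21), (81, 11)]), (3, [(0, 18), (7, 273), (23, 708), (63, 1), (81, 2)]), (3, [(0, 332), (24, 866), (63, 2)]), (2, [(18, 101)]), (1, [(0, 10), (20, 1), (72, 1)]), (0, [(20, 5)]), (4, [(0, 196), (7, 8354), (23, 1584), (63, 10), (81, 8)]), (3, [(0, 51), (7, 187), (20, 1), (23, 784), (81, 3)]), (2, [(19, 31), (21, 70), (73,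 1), (74, 1)]), (1, [(0, 4), (20, 6), (25, 1), (81, 1)]), (2, [(19, 20), (21, 81), (73, 1), (74, 1)]), (1, [(0, 10), (25, 1), (81, 1)]), (3, [(0, 18), (7, 627), (23, 369), (63, 1), (81, 1)]), (0, [(63, 2)]), (1, [(68, 11)]), (2, [(63, 3), (64, 97), (72, 1)]), (2, [(63, 6), (64, 96), (72, 2)]), (2, [(63, 9), (64, 94), (72, 2)]), (0, [(63, 2)]), (2, [(66, 93), (72, 13), (80, 1)]), (2, [(63, 13), (64, 93), (81, 2)]), (1, [(66, 7), (72, 5)]), (0, [(63, 2)]), (0, [(72, 2)]), (2, [(72, 101)]), (0, [(63, 2)]), (1, [(63, 11)]), (1, [(69, 7), (72, 3), (73, 2)]), (1, [(72, 11)]), (0, [(73, 2)]), (0, [(72, 2)]), (0, [(63, 2)]), (0, [(73, 2)])],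
  [(2, [(13, 101)]), (3, [(53, 1013), (73, 1)]), (4, [(48, 5495), (53, 4564), (71, 1), (73, 5)]), (3, [(48, 343), (53, 658), (73, 1)]), (3, [(48, 208), (53, 804), (71, 1), (73, 1)]), (3, [(48, 119), (53, 893), (71, 1), (73, 1)]), (2, [(47, 101)]), (3, [(42, 1003)]), (3, [(42, 1002)]), (0, [(46, 1)]), (2, [(47, 101)]), (3, [(53, 1014), (73, 1)]), (2, [(48, 4), (53, 98)]), (3, [(48, 103), (53, 910), (69, 1)]), (4, [(48, 780), (53, 9350), (69, 11)]), (3, [(48, 37), (53, 976), (69, 2)]), (3, [(48, 2), (53, 1011), (69, 2), (71, 1)]), (4, [(53, 10127), (71, 21), (73, 5)]), (2, [(47, 101)]), (2, [(47, 101)]), (2, [(47, 101)]), (2, [(47, 101)]), (2, [(47, 101)]), (4, [(30, 189), (42, 9946), (54, 36), (72, 4)]), (3, [(13, 1001)]), (3, [(13, 1002)]), (3, [(13, 1002)]), (3, [(13, 1001)]), (3, [(13, 1001)]), (2, [(17, 101)]), (3, [(13, 1002)]), (0, [(12, 1)]), (2, [(17, 101)]), (2, [(17, 101)]), (3, [(13,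 1001)]), (3, [(13, 1002)]), (3, [(13, 1002)]), (3, [(13, 1001)]), (3, [(13, 1001)]), (4, [(13, 4616), (17, 5441), (20, 109), (72, 5)]), (3, [(13, 454), (17, 551), (20, 11), (72, 1)]), (2, [(17, 101)]), (2, [(17, 101)]), (2, [(17, 101)]), (2, [(17, 101)]), (4, [(17, 9534), (18, 454), (20, 187), (72, 5), (78, 1)]), (3, [(17, 944), (18, 55), (20, 19), (72, 1)]), (0, [(67, 1)]), (2, [(69, 95), (73, 9)]), (0, [(30, 1), (63, 1)]), (3, [(44, 1001)]), (4, [(48, 8050), (53, 1977), (71, 2), (73, 2)]), (3, [(47, 1002)]), (4, [(30, 192), (42, 9951), (54, 38), (72, 6)]), (4, [(48, 3074), (53, 7013), (73, 3), (74, 1)]), (2, [(47, 101)]), (3, [(47, 1002)]), (4, [(53, 10101), (55, 36), (73, 5)]), (4, [(48, 726), (53, 9392), (73, 4), (74, 2)]), (3, [(53, 1011), (55, 3), (73, 1)]), (3, [(53, 992), (55, 10), (73, 2)]), (3, [(53, 1017), (55, 16), (73, 1)]), (3, [(53, 1015), (55, 17), (73, 2)]), (3, [(43, 954), (54,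 32), (55, 57), (73, 1)]), (3, [(47, 1002)]), (3, [(53, 1011), (55, 27), (73, 1)]), (3, [(53, 1005), (55, 43), (73, 2)]), (3, [(53, 920), (55, 147), (73, 3)]), (0, [(58, 1)]), (0, [(54, 3)]), (0, [(55, 2)]), (2, [(30, 3), (47, 55), (57, 44)]), (3, [(30, 29), (54, 10), (57, 977), (81, 1)]), (4, [(30, 4248), (52, 5740), (63, 12), (81, 2)]), (0, [(54, 4)]), (0, [(55, 3)]), (3, [(55, 1158), (58, 1), (73, 4)]), (0, [(55, 4)]), (2, [(47, 101)]), (0, [(0, 1), (63, 1)]), (4, [(17, 8144), (18, 1776), (20, 356), (72, 3)]), (4, [(17, 8159), (18, 1731), (20, 358), (80, 3)]), (2, [(17, 101)]), (3, [(17, 1001)]), (2, [(17, 101)]), (3, [(17, 1002)]), (3, [(12, 1001)]), (4, [(17, 9280), (18, 712), (20, 190), (72, 12), (78, 1)]), (2, [(17, 101)]), (2, [(18, 101)]), (3, [(17, 1001)]), (3, [(17, 744), (18, 226), (20, 70), (72, 1), (80, 1)]), (3, [(19, 988), (21, 39), (74, 2)]), (2, [(13, 77), (17, 21), (20, 4)]),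 (2, [(18, 101)]), (4, [(17, 10001)]), (3, [(17, 184), (18, 792), (20, 70), (80, 1)]), (4, [(19, 10076), (21, 62), (73, 2), (74, 3)]), (3, [(13, 629), (17, 364), (20, 15)]), (3, [(13, 449), (17, 560), (20, 11), (72, 1)]), (5, [(1, 6), (13, 44377), (17, 55083), (20, 1122), (72, 106)]), (2, [(0, 4), (7, 48), (15, 27), (23, 22)]), (3, [(19, 952), (21, 81), (73, 1), (74, 2)]), (0, [(20, 3)]), (0, [(21, 2)]), (2, [(13, 53), (17, 47), (20, 1)]), (4, [(17, 5290), (18, 4530), (20, 283), (80, 14)]), (0, [(27, 1)]), (0, [(21, 3)]), (2, [(27, 69), (28, 35)]), (0, [(20, 4)]), (3, [(13, 485), (17, 515), (20, 12)]), (0, [(63, 2)]), (0, [(67, 1)]), (2, [(69, 95), (73, 9)]), (2, [(71, 101)]), (2, [(71, 101)]), (2, [(63, 26), (64, 82), (81, 3)]), (1, [(77, 11)]), (2, [(69, 93), (72, 7), (73, 7)]), (1, [(74, 11)]), (0, [(72, 2)]), (0, [(73, 2)]), (1, [(82, 11)]), (0, [(63, 2)]), (0, [(73, 2)]), (0, [(82, 1)]),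 (1, [(79, 11)]), (1, [(73, 11)]), (0, [(73, 2)]), (0, [(72, 2)]), (1, [(73, 11)])]]

set_option maxRecDepth 100000 in
theorem okUG3 : chkRect LD LG LU3 cUG3 = true := by decide +kernel

end Pool.Agent.Lib.MP_dbb03c_co.Full
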