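import Pool.Agent.Lib.MP_dbb03c_co.Full.Data

/-! # Certificate data (generated) -/

namespace Pool.Agent.Lib.MP_dbb03c_co.Full

set_option maxRecDepth 100000 in
def cUG4 : List (List Ct) := [
  [(5, [(0, 568), (4, 30897), (15, 68757), (63, 95), (72, 40)]), (4, [(30, 10), (42, 9932), (54, 154), (72, 14)]), (4, [(31, 6374), (32, 1168), (45, 2402), (54, 106), (72, 16)]), (4, [(31, 4237), (32, 1518), (42, 4193), (54, 138), (72, 14)]), (4, [(30, 1), (42, 9973), (54, 143), (72, 13)]), (4, [(30, 5), (42, 7590), (47, 2405), (54, 138), (72, 19)]), (3, [(30, 269), (52, 885), (63, 4), (68, 1)]), (3, [(30, 174), (52, 993), (63, 3), (68, 1)]), (3, [(30, 217), (52, 906), (63, 3), (68, 1)]), (3, [(30, 243), (52, 895), (63, 4), (68, 1)]), (3, [(30, 256), (52, 889), (63, 4), (68, 1)]), (3, [(30, 1), (42, 256), (47, 745), (54, 13), (72, 2)]), (4, [(30, 16), (42, 9999), (54, 103), (72, 3)]), (3, [(30, 1), (42, 606), (47, 384),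 (54, 11), (72, 1)]), (3, [(30, 1), (47, 963), (54, 11), (57, 42), (72, 2)]), (3, [(30, 1), (47, 786), (54, 12), (57, 219), (72, 2)]), (4, [(30, 15), (47, 6074), (54, 123), (57, 3977), (72, 25)]), (4, [(30, 17), (47, 4250), (54, 126), (57, 5807), (72, 29)]), (3, [(30, 269), (52, 884), (63, 3), (68, 2)]), (3, [(30, 212), (52, 989), (63, 3), (68, 2)]), (3, [(30, 234), (52, 898), (63, 3), (68, 2)]), (3, [(30, 252), (52, 890), (63, 3), (68, 2)]), (3, [(30, 260), (52, 886), (63, 3), (68, 3)]), (3, [(30, 265), (52, 884), (63, 3), (68, 3)]), (3, [(0, 28), (4, 202), (15, 771), (63, 3), (72, 1)]), (4, [(0, 128), (4, 2575), (15, 7348), (63, 13), (72, 7)]), (4, [(0, 183), (4, 1889), (15, 8011), (63, 19), (72, 8)]), (4, [(0, 219), (4, 973), (15, 8923), (63, 26), (72, 8)]), (4, [(0, 244), (15, 9902), (63, 21), (72, 1), (81, 20)]), (4, [(0, 502), (4, 2799), (15, 6905), (63, 12), (72, 21)]), (4, [(0, 284), (4, 3174), (15,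 6660), (63, 12), (72, 7)]), (4, [(0, 395), (4, 3338), (15, 6431), (63, 12), (72, 12)]), (4, [(0, 449), (4, 3847), (15, 5890), (63, 13), (72, 16)]), (4, [(0, 475), (4, 4675), (15, 5045), (63, 13), (72, 19)]), (3, [(0, 26), (7, 932), (23, 45), (63, 2), (81, 2)]), (4, [(0, 261), (4, 1326), (15, 8564), (63, 18), (72, 5)]), (4, [(0, 227), (7, 5675), (15, 4263), (63, 14), (81, 15)]), (4, [(0, 225), (7, 8584), (23, 1373), (63, 12), (81, 17)]), (3, [(0, 24), (7, 706), (23, 291), (63, 1), (81, 2)]), (4, [(0, 249), (7, 5514), (23, 4459), (63, 9), (81, 25)]), (4, [(0, 257), (7, 3935), (23, 6050), (63, 8), (81, 27)]), (4, [(0, 507), (4, 5842), (15, 3861), (63, 4), (72, 23)]), (3, [(0, 36), (4, 477), (15, 515), (72, 2)]), (4, [(0, 433), (4, 6186), (15, 3560), (63, 2), (72, 21)]), (4, [(0, 470), (4, 7428), (15, 2296), (63, 4), (72, 22)]), (4, [(0, 488), (4, 8661), (15, 1051), (63, 5), (72, 23)]), (3, [(0, 50), (4, 971),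 (63, 1), (72, 2)]), (1, [(68, 11)]), (2, [(63, 4), (64, 96), (72, 1)]), (0, [(30, 1), (63, 1)]), (3, [(30, 44), (52, 984), (63, 2), (68, 1)]), (5, [(31, 79331), (45, 20522), (54, 384), (72, 73), (73, 30)]), (3, [(30, 223), (52, 989), (63, 4)]), (3, [(30, 269), (52, 883), (63, 3), (68, 4)]), (4, [(31, 5970), (45, 3998), (54, 179), (72, 3), (73, 15)]), (3, [(30, 122), (52, 998), (63, 3), (68, 1)]), (3, [(30, 436), (52, 759), (63, 4), (81, 1)]), (4, [(31, 4604), (45, 5194), (54, 348), (72, 15), (73, 11)]), (3, [(42, 992), (54, 17), (72, 1)]), (4, [(30, 16), (42, 9904), (54, 194), (72, 14)]), (3, [(30, 4), (42, 986), (54, 22), (72, 2)]), (3, [(31, 287), (32, 204), (45, 473), (54, 64), (72, 3)]), (4, [(30, 72), (42, 9828), (54, 247), (72, 25)]), (3, [(30, 104), (47, 126), (54, 10), (57, 836), (72, 1)]), (3, [(30, 280), (52, 882), (63, 3), (81, 1)]), (3, [(31, 250), (45, 658), (54, 88), (55, 2), (73, 4)]), (3,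 [(30, 7), (42, 951), (54, 83), (72, 3)]), (2, [(30, 1), (42, 41), (47, 44), (54, 33), (72, 1)]), (2, [(43, 6), (48, 72), (54, 2), (55, 24), (73, 1)]), (1, [(30, 10), (54, 1), (72, 1)]), (0, [(54, 7)]), (3, [(30, 446), (52, 749), (63, 5)]), (2, [(30, 38), (52, 83), (63, 1)]), (3, [(30, 1195), (63, 5)]), (1, [(30, 10), (61, 1), (81, 1)]), (1, [(30, 5), (54, 6), (61, 1), (81, 1)]), (0, [(55, 8)]), (0, [(55, 7)]), (3, [(30, 262), (52, 887), (63, 3), (68, 3)]), (0, [(0, 1), (63, 1)]), (4, [(0, 916), (4, 5236), (15, 4269), (63, 3), (72, 31)]), (3, [(0, 91), (4, 226), (15, 724), (63, 1), (72, 3)]), (4, [(0, 818), (4, 3290), (15, 6264), (63, 14), (72, 22)]), (3, [(0, 105), (4, 261), (15, 722), (20, 1), (72, 3)]), (4, [(0, 723), (4, 2795), (15, 6809), (63, 14), (72, 17)]), (3, [(0, 37), (4, 179), (15, 799), (72, 3)]), (3, [(0, 54), (4, 270), (15, 721), (63, 2), (72, 1)]), (4, [(0, 508), (4, 9705), (63, 2), (64, 6),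 (72, 25)]), (5, [(0, 1971), (4, 23072), (15, 75691), (20, 28), (72, 208)]), (3, [(0, 94), (4, 102), (15, 845), (20, 5), (72, 4)]), (4, [(0, 1045), (4, 2083), (15, 7366), (63, 25), (72, 15)]), (3, [(0, 175), (4, 170), (15, 742), (63, 2), (72, 4)]), (3, [(17, 702), (18, 263), (20, 102), (80, 2)]), (4, [(0, 971), (4, 1395), (15, 8114), (63, 22), (72, 9)]), (4, [(0, 523), (4, 1525), (15, 8160), (20, 38), (72, 29)]), (3, [(0, 96), (4, 63), (15, 920), (72, 4)]), (3, [(0, 190), (4, 13), (15, 959), (72, 6)]), (4, [(17, 6827), (18, 3169), (20, 236), (72, 4)]), (4, [(0, 380), (4, 594), (15, 9215), (63, 23), (72, 7)]), (4, [(0, 256), (7, 8087), (23, 1867), (63, 23), (81, 21)]), (3, [(0, 27), (7, 305), (23, 692), (63, 1), (81, 3)]), (3, [(0, 437), (24, 759), (63, 3)]), (3, [(18, 913), (20, 190), (21, 15), (73, 2)]), (1, [(0, 10), (20, 1), (72, 1)]), (0, [(20, 7)]), (4, [(0, 297), (7, 8580), (23, 1314), (63, 12), (81,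 17)]), (3, [(0, 74), (7, 219), (20, 1), (23, 769), (81, 4)]), (2, [(19, 24), (21, 76), (73, 1), (74, 1)]), (1, [(0, 5), (20, 6), (25, 1), (81, 1)]), (2, [(19, 15), (21, 86), (73, 1), (74, 1)]), (1, [(0, 10), (25, 1), (81, 1)]), (3, [(0, 28), (7, 651), (23, 341), (63, 1), (81, 2)]), (0, [(63, 2)]), (1, [(68, 11)]), (2, [(63, 4), (64, 96), (72, 1)]), (2, [(63, 8), (64, 94), (72, 2)]), (2, [(63, 12), (64, 93), (72, 3)]), (0, [(63, 2)]), (3, [(67, 1001)]), (1, [(63, 2), (64, 9)]), (1, [(66, 6), (72, 6)]), (0, [(63, 2)]), (0, [(72, 2)]), (1, [(72, 11)]), (0, [(63, 2)]), (0, [(63, 2)]), (1, [(69, 6), (72, 3), (73, 3)]), (1, [(72, 11)]), (0, [(73, 2)]), (0, [(72, 2)]), (0, [(63, 2)]), (0, [(73, 2)])],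
  [(3, [(22, 1001)]), (3, [(47, 1001)]), (3, [(47, 1002)]), (3, [(47, 1001)]), (3, [(47, 1001)]), (4, [(30, 63), (47, 6819), (54, 34), (57, 3192), (72, 4)]), (3, [(30, 403), (52, 793), (63, 4)]), (3, [(30, 262), (52, 889), (63, 2)]), (3, [(30, 345), (52, 860), (63, 3)]), (3, [(30, 384), (52, 848), (63, 3)]), (3, [(30, 403), (52, 842), (63, 4)]), (3, [(47, 1001)]), (2, [(47, 101)]), (3, [(47, 1001)]), (3, [(47, 1001)]), (2, [(57, 101)]), (3, [(30, 7), (47, 103), (54, 4), (57, 888), (72, 1)]), (4, [(30, 75), (54, 47), (57, 10035), (72, 8), (81, 3)]), (3, [(30, 401), (52, 795), (63, 3)]), (3, [(30, 352), (52, 984), (63, 3)]), (3, [(30, 369), (52, 853), (63, 3), (68, 1)]), (3, [(30, 396), (52, 844), (63, 3), (68, 1)]), (3, [(30, 392), (52, 804), (63, 3), (68, 1)]), (3, [(30, 396), (52, 799), (63, 3), (68, 2)]), (3, [(0, 47), (7, 722), (22, 152), (23, 105), (63, 2)]), (3, [(0, 21), (7, 456), (15, 61), (22, 474),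 (63, 1)]), (3, [(0, 31), (7, 606), (22, 272), (23, 108), (63, 1)]), (3, [(0, 37), (7, 644), (22, 82), (23, 242), (63, 2)]), (4, [(0, 416), (7, 5930), (23, 3899), (63, 12), (81, 1)]), (3, [(0, 82), (7, 936), (23, 23), (63, 1), (81, 1)]), (3, [(0, 48), (7, 81), (15, 676), (22, 220), (63, 1)]), (4, [(0, 653), (7, 4543), (15, 5133), (63, 13), (81, 1)]), (3, [(0, 77), (4, 28), (15, 962), (63, 2)]), (4, [(0, 792), (4, 1082), (15, 8511), (63, 20), (72, 5)]), (4, [(0, 479), (7, 4899), (23, 4912), (63, 3), (81, 4)]), (3, [(0, 44), (7, 380), (22, 456), (23, 148), (63, 1)]), (3, [(0, 41), (7, 524), (22, 34), (23, 409), (63, 1)]), (3, [(23, 1001)]), (2, [(23, 101)]), (3, [(0, 46), (7, 97), (23, 889), (81, 1)]), (3, [(0, 48), (23, 1013), (81, 1)]), (4, [(0, 838), (4, 2219), (15, 7352), (63, 13), (72, 7)]), (4, [(0, 597), (4, 1096), (15, 8602), (63, 8), (72, 6)]), (4, [(0, 720), (4, 2542), (15, 7091), (63, 10), (72, 6)]),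 (4, [(0, 780), (4, 3752), (15, 5849), (63, 12), (72, 7)]), (4, [(0, 809), (4, 4951), (15, 4634), (63, 14), (72, 8)]), (4, [(0, 822), (4, 6194), (15, 3381), (63, 15), (72, 9)]), (1, [(68, 11)]), (2, [(63, 8), (64, 95), (81, 2)]), (0, [(30, 1), (63, 1)]), (4, [(30, 767), (52, 9681), (63, 11)]), (3, [(46, 1001)]), (3, [(30, 329), (52, 861), (63, 3)]), (3, [(30, 401), (52, 793), (63, 3), (68, 2)]), (3, [(47, 1002)]), (3, [(30, 191), (52, 915), (63, 2)]), (3, [(30, 587), (52, 608), (63, 3)]), (3, [(47, 1001)]), (3, [(47, 1001)]), (3, [(47, 1001)]), (3, [(30, 14), (47, 906), (54, 6), (57, 85), (72, 1)]), (3, [(30, 14), (47, 877), (54, 29), (57, 119)]), (3, [(30, 19), (47, 809), (54, 7), (57, 176), (72, 1)]), (2, [(57, 101)]), (4, [(30, 3474), (52, 6504), (63, 20), (81, 4)]), (2, [(30, 1), (47, 83), (54, 8), (57, 15)]), (3, [(30, 33), (47, 780), (54, 37), (57, 183), (72, 2)]), (2, [(30, 9), (47, 54), (54, 16), (57,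 34), (72, 1)]), (2, [(43, 44), (48, 45), (54, 10), (55, 12), (73, 1)]), (1, [(30, 10), (54, 1), (72, 1)]), (0, [(54, 4)]), (3, [(30, 599), (52, 597), (63, 3)]), (2, [(30, 52), (52, 67), (63, 1)]), (3, [(30, 1197), (63, 3)]), (1, [(30, 10), (61, 1), (81, 1)]), (1, [(30, 8), (54, 3), (61, 1), (81, 1)]), (0, [(55, 6)]), (0, [(55, 5)]), (3, [(30, 393), (52, 802), (63, 3), (68, 1)]), (0, [(0, 1), (63, 1)]), (3, [(0, 148), (4, 168), (15, 759), (63, 2), (72, 1)]), (4, [(0, 1467), (7, 8601), (23, 685), (63, 3), (81, 24)]), (3, [(0, 126), (7, 178), (15, 707), (63, 1), (81, 2)]), (3, [(0, 171), (7, 937), (23, 43), (81, 2)]), (4, [(0, 1167), (7, 9204), (23, 232), (63, 12), (81, 6)]), (3, [(0, 61), (7, 821), (23, 148), (81, 1)]), (3, [(0, 87), (7, 817), (22, 108), (23, 34), (63, 2)]), (3, [(0, 82), (4, 727), (15, 199), (63, 2), (72, 1)]), (5, [(0, 3212), (7, 89027), (20, 27), (23, 9417), (81, 39)]), (4, [(0, 1527), (7,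 7031), (20, 28), (23, 2209), (81, 15)]), (3, [(0, 168), (7, 818), (23, 102), (63, 2)]), (3, [(0, 277), (7, 764), (23, 110), (63, 1), (81, 3)]), (3, [(17, 1001)]), (2, [(0, 16), (7, 66), (22, 11), (23, 18), (63, 1)]), (3, [(0, 86), (7, 780), (20, 2), (23, 176), (81, 1)]), (3, [(0, 158), (7, 698), (23, 281), (81, 2)]), (3, [(0, 281), (7, 578), (23, 291), (81, 3)]), (3, [(17, 1002)]), (3, [(0, 64), (7, 557), (22, 133), (23, 280), (63, 1)]), (4, [(0, 476), (7, 3520), (23, 6321), (63, 14), (81, 6)]), (3, [(0, 50), (23, 1008), (81, 1)]), (3, [(0, 603), (24, 595), (63, 2)]), (3, [(18, 1001)]), (1, [(0, 10), (20, 1), (72, 1)]), (0, [(20, 4)]), (4, [(0, 538), (7, 4039), (23, 5730), (63, 1), (81, 4)]), (3, [(0, 121), (23, 935), (25, 1), (81, 2)]), (2, [(21, 467)]), (1, [(0, 8), (20, 3), (25, 1), (81, 1)]), (3, [(18, 1), (19, 176), (20, 192), (21, 631), (73, 3)]), (1, [(0, 10), (25, 1), (81, 1)]), (3, [(23, 1001)]),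 (0, [(63, 2)]), (1, [(68, 11)]), (2, [(63, 8), (64, 95), (81, 2)]), (2, [(63, 15), (64, 91), (81, 2)]), (1, [(63, 2), (64, 9)]), (0, [(63, 2)]), (2, [(63, 2), (70, 91), (72, 17)]), (1, [(63, 3), (64, 9)]), (1, [(63, 1), (70, 6), (72, 6)]), (0, [(63, 2)]), (0, [(72, 2)]), (0, [(72, 2)]), (0, [(63, 2)]), (0, [(63, 2)]), (1, [(69, 5), (72, 5), (73, 1)]), (0, [(72, 2)]), (0, [(72, 2)]), (0, [(63, 2)]), (0, [(63, 2)]), (0, [(73, 2)])],
  [(4, [(0, 36), (4, 3911), (15, 6113), (63, 16), (72, 1)]), (4, [(30, 12), (42, 10015), (54, 78), (72, 18)]), (4, [(31, 7920), (42, 2104), (54, 60), (72, 16)]), (4, [(31, 160), (42, 9881), (54, 68), (72, 13)]), (3, [(42, 1005), (54, 7), (72, 2)]), (4, [(30, 8), (42, 10074), (54, 71), (72, 24)]), (3, [(30, 221), (52, 908), (63, 4), (68, 1)]), (3, [(30, 132), (52, 947), (63, 3), (68, 1)]), (3, [(30, 192), (52, 999), (63, 4), (68, 1)]), (3, [(30, 200), (52, 917), (63, 4), (68, 1)]),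 (3, [(30, 211), (52, 912), (63, 4), (68, 2)]), (3, [(30, 1), (42, 720), (47, 289), (54, 7), (72, 2)]), (4, [(30, 15), (42, 10073), (54, 48), (72, 8)]), (4, [(30, 9), (42, 10098), (54, 62), (72, 13)]), (3, [(30, 1), (42, 284), (47, 728), (54, 4), (72, 2)]), (3, [(30, 1), (47, 903), (54, 4), (57, 111), (72, 3)]), (3, [(30, 1), (47, 723), (54, 4), (57, 291), (72, 3)]), (3, [(30, 2), (47, 526), (54, 5), (57, 465), (72, 4)]), (3, [(30, 222), (52, 907), (63, 3), (68, 2)]), (3, [(30, 160), (52, 933), (63, 3), (68, 2)]), (3, [(30, 192), (52, 919), (63, 3), (68, 2)]), (3, [(30, 207), (52, 913), (63, 3), (68, 3)]), (3, [(30, 214), (52, 909), (63, 3), (68, 3)]), (3, [(30, 218), (52, 907), (63, 3), (68, 4)]), (4, [(0, 217), (4, 2851), (15, 7065), (63, 31), (72, 4)]), (5, [(0, 932), (4, 33898), (15, 65978), (63, 206), (72, 27)]), (4, [(0, 137), (4, 2696), (15, 7274), (63, 27), (72, 3)]), (4, [(0, 166), (4, 1771), (15,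 8200), (63, 34), (72, 3)]), (4, [(0, 181), (4, 662), (15, 9322), (63, 43), (72, 3)]), (3, [(0, 40), (4, 368), (15, 630), (63, 3), (72, 1)]), (4, [(0, 221), (4, 3994), (15, 5919), (63, 19), (72, 3)]), (4, [(0, 310), (4, 4160), (15, 5699), (63, 21), (72, 6)]), (4, [(0, 354), (4, 4674), (15, 5156), (63, 23), (72, 8)]), (4, [(0, 375), (4, 5514), (15, 4302), (63, 24), (72, 10)]), (4, [(0, 205), (7, 3354), (15, 6641), (63, 35), (81, 6)]), (3, [(0, 20), (4, 213), (15, 784), (63, 3)]), (4, [(0, 180), (4, 409), (15, 9594), (63, 34), (72, 1)]), (3, [(0, 16), (7, 950), (23, 55), (63, 4)]), (4, [(0, 171), (7, 7954), (23, 2100), (63, 34), (81, 4)]), (4, [(0, 180), (7, 6394), (23, 3670), (63, 33), (81, 7)]), (3, [(0, 19), (7, 480), (23, 528), (63, 3), (81, 1)]), (3, [(0, 40), (4, 670), (15, 310), (63, 2), (72, 1)]), (4, [(0, 279), (4, 5549), (15, 4327), (63, 12), (72, 12)]), (4, [(0, 342), (4, 7045), (15, 2794), (63, 14),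 (72, 12)]), (3, [(0, 37), (4, 830), (15, 152), (63, 2), (72, 1)]), (3, [(0, 39), (4, 956), (15, 25), (63, 2), (72, 1)]), (4, [(0, 393), (4, 9801), (63, 17), (64, 3), (72, 14)]), (1, [(68, 11)]), (3, [(64, 1001)]), (0, [(30, 1), (63, 1)]), (4, [(30, 341), (52, 9931), (63, 19), (68, 12)]), (4, [(31, 10040), (45, 8), (54, 15), (72, 11), (73, 2)]), (3, [(30, 168), (52, 931), (63, 4), (68, 1)]), (3, [(30, 222), (52, 906), (63, 3), (68, 4)]), (4, [(31, 8009), (45, 1963), (54, 126), (72, 14), (73, 7)]), (3, [(30, 94), (52, 964), (63, 3), (68, 1)]), (2, [(30, 45), (52, 98), (63, 1)]), (3, [(31, 666), (45, 323), (54, 26), (72, 3)]), (4, [(30, 6), (42, 10010), (54, 90), (72, 13)]), (4, [(30, 18), (42, 9994), (54, 104), (72, 19)]), (4, [(30, 41), (42, 9960), (54, 117), (72, 24)]), (3, [(30, 1), (42, 983), (54, 41), (72, 2)]), (4, [(30, 67), (42, 9933), (54, 135), (72, 29)]), (3, [(30, 86), (47, 234), (54, 4), (57, 745),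 (72, 2)]), (4, [(30, 2304), (52, 9054), (63, 36), (68, 6), (81, 7)]), (3, [(31, 460), (45, 502), (54, 74), (72, 1), (73, 3)]), (3, [(30, 9), (42, 970), (54, 51), (72, 3)]), (2, [(30, 2), (42, 84), (47, 6), (54, 21), (72, 1)]), (2, [(48, 91), (54, 3), (55, 17), (73, 1)]), (1, [(30, 10), (54, 1), (72, 1)]), (0, [(54, 8)]), (2, [(30, 39), (52, 81), (63, 1)]), (2, [(30, 31), (52, 86), (63, 1)]), (2, [(30, 119), (63, 1)]), (1, [(30, 10), (61, 1), (81, 1)]), (1, [(30, 5), (54, 5), (61, 1), (81, 1)]), (0, [(55, 9)]), (0, [(55, 7)]), (3, [(30, 216), (52, 909), (63, 3), (68, 3)]), (0, [(0, 1), (63, 1)]), (4, [(0, 737), (4, 6089), (15, 3547), (63, 19), (72, 19)]), (4, [(0, 732), (4, 3062), (15, 6574), (63, 28), (72, 17)]), (3, [(0, 66), (4, 411), (15, 557), (63, 3), (72, 1)]), (3, [(0, 82), (4, 331), (15, 629), (63, 1), (72, 3)]), (4, [(0, 579), (4, 3607), (15, 6113), (63, 25), (72, 9)]), (3, [(0, 30), (4, 259), (15,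 727), (63, 1), (72, 2)]), (4, [(0, 429), (4, 3522), (15, 6479), (63, 24), (72, 5)]), (4, [(0, 403), (4, 9802), (63, 14), (64, 9), (72, 15)]), (4, [(0, 149), (4, 3088), (15, 6764), (63, 9), (72, 15)]), (3, [(0, 77), (4, 179), (15, 782), (20, 2), (72, 4)]), (4, [(0, 845), (4, 2879), (15, 6711), (63, 35), (72, 8)]), (3, [(0, 143), (4, 247), (15, 683), (63, 4), (72, 2)]), (3, [(17, 1021), (20, 87), (72, 1), (80, 1)]), (4, [(0, 785), (4, 2182), (15, 7462), (63, 30), (72, 4)]), (4, [(0, 423), (4, 2320), (15, 7471), (20, 16), (72, 32)]), (4, [(0, 751), (4, 1386), (15, 8246), (63, 12), (72, 34)]), (3, [(0, 146), (4, 86), (15, 843), (63, 2), (72, 4)]), (3, [(17, 937), (18, 67), (20, 19), (72, 1)]), (4, [(0, 298), (4, 1382), (15, 8515), (63, 31), (72, 2)]), (3, [(0, 18), (7, 899), (23, 106), (63, 5)]), (3, [(0, 20), (7, 390), (23, 616), (63, 3), (81, 1)]), (3, [(0, 370), (24, 826), (63, 4)]), (3, [(18, 937), (20, 159),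 (72, 1), (73, 1)]), (1, [(0, 10), (20, 1), (72, 1)]), (0, [(20, 8)]), (3, [(0, 22), (7, 949), (23, 50), (63, 4)]), (4, [(0, 582), (7, 3145), (20, 6), (23, 6591), (81, 46)]), (2, [(19, 29), (21, 72), (73, 1), (74, 1)]), (1, [(0, 5), (20, 5), (25, 1), (81, 1)]), (2, [(19, 18), (21, 83), (73, 1), (74, 1)]), (1, [(0, 10), (25, 1), (81, 1)]), (4, [(0, 202), (7, 7403), (23, 2612), (63, 32), (81, 5)]), (0, [(63, 2)]), (1, [(68, 11)]), (3, [(64, 1001)]), (3, [(64, 1001)]), (3, [(64, 1001)]), (0, [(63, 2)]), (2, [(67, 101)]), (3, [(64, 1001)]), (1, [(66, 7), (72, 5)]), (0, [(63, 2)]), (0, [(72, 2)]), (1, [(72, 11)]), (0, [(63, 2)]), (1, [(63, 11)]), (1, [(69, 6), (72, 3), (73, 2)]), (1, [(72, 11)]), (0, [(73, 2)]), (0, [(63, 2)]), (0, [(63, 2)]), (0, [(73, 2)])],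
  [(4, [(0, 36), (4, 4851), (15, 5155), (63, 16), (72, 1)]), (4, [(30, 12), (42, 9997), (54, 77), (72, 21)]), (4, [(31, 7951), (42, 2055), (54, 59), (72, 19)]), (4, [(31, 212), (42, 9811), (54, 67), (72, 16)]), (3, [(42, 1014), (54, 7), (72, 2)]), (4, [(30, 8), (42, 10056), (54, 70), (72, 26)]), (3, [(30, 241), (52, 991), (63, 5), (68, 1)]), (3, [(30, 132), (52, 945), (63, 3), (68, 2)]), (3, [(30, 178), (52, 924), (63, 3), (68, 2)]), (3, [(30, 200), (52, 915), (63, 4), (68, 2)]), (3, [(30, 210), (52, 910), (63, 4), (68, 2)]), (3, [(30, 1), (42, 1021), (54, 7), (72, 2)]), (3, [(30, 1), (42, 1005), (54, 4), (72, 1)]), (4, [(30, 9), (42, 10079), (54, 61), (72, 16)]), (3, [(30, 1), (42, 842), (47, 184), (54, 6), (72, 2)]), (3, [(30, 1), (42, 75), (47, 939), (54, 4), (72, 3)]), (4, [(30, 16), (47, 8523), (54, 42), (57, 1623), (72, 33)]), (3, [(30, 2), (47, 656), (54, 4), (57, 340), (72, 4)]), (3, [(30, 242), (52,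 989), (63, 4), (68, 3)]), (3, [(30, 160), (52, 931), (63, 3), (68, 2)]), (3, [(30, 192), (52, 917), (63, 3), (68, 3)]), (3, [(30, 207), (52, 911), (63, 3), (68, 3)]), (3, [(30, 214), (52, 907), (63, 3), (68, 3)]), (3, [(30, 217), (52, 905), (63, 3), (68, 4)]), (4, [(0, 217), (4, 3779), (15, 6120), (63, 31), (72, 5)]), (5, [(0, 932), (4, 43257), (15, 56446), (63, 205), (72, 32)]), (4, [(0, 138), (4, 3663), (15, 6384), (63, 27), (72, 3)]), (4, [(0, 163), (4, 2667), (15, 7163), (63, 34), (72, 4)]), (4, [(0, 181), (4, 1590), (15, 8377), (63, 43), (72, 3)]), (3, [(0, 40), (4, 461), (15, 534), (63, 3), (72, 1)]), (4, [(0, 222), (4, 4979), (15, 5025), (63, 19), (72, 3)]), (4, [(0, 310), (4, 5086), (15, 4756), (63, 21), (72, 6)]), (4, [(0, 354), (4, 5599), (15, 4214), (63, 23), (72, 9)]), (4, [(0, 375), (4, 6440), (15, 3359), (63, 24), (72, 11)]), (4, [(0, 211), (4, 722), (15, 9249), (63, 40), (72, 3)]), (3, [(0,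 20), (4, 306), (15, 689), (63, 3)]), (4, [(0, 180), (4, 1339), (15, 8647), (63, 34), (72, 2)]), (4, [(0, 181), (15, 10009), (63, 40), (72, 1), (81, 3)]), (4, [(0, 165), (7, 9072), (23, 975), (63, 41), (81, 2)]), (4, [(0, 175), (7, 7514), (23, 2543), (63, 40), (81, 5)]), (4, [(0, 182), (7, 5923), (23, 4147), (63, 39), (81, 8)]), (3, [(0, 40), (4, 763), (15, 216), (63, 2), (72, 1)]), (4, [(0, 279), (4, 6481), (15, 3378), (63, 12), (72, 12)]), (4, [(0, 336), (4, 7858), (15, 1817), (63, 14), (72, 12)]), (3, [(0, 37), (4, 924), (15, 56), (63, 2), (72, 1)]), (4, [(0, 386), (4, 9791), (63, 16), (64, 2), (72, 14)]), (3, [(0, 39), (4, 978), (63, 2), (64, 1), (72, 1)]), (1, [(68, 11)]), (2, [(63, 4), (64, 97), (72, 1)]), (0, [(30, 1), (63, 1)]), (3, [(30, 34), (52, 991), (63, 2), (68, 2)]), (5, [(31, 100299), (48, 1), (54, 136), (72, 133), (73, 21)]), (3, [(30, 168), (52, 929), (63, 4), (68, 1)]), (3, [(30, 221), (52,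 904), (63, 3), (68, 4)]), (4, [(31, 9960), (54, 122), (72, 13), (73, 8)]), (3, [(30, 94), (52, 962), (63, 3), (68, 1)]), (2, [(30, 45), (52, 98), (63, 1)]), (3, [(31, 915), (45, 86), (54, 26), (72, 3)]), (4, [(30, 6), (42, 9991), (54, 89), (72, 16)]), (4, [(30, 18), (42, 9976), (54, 102), (72, 21)]), (4, [(30, 41), (42, 9941), (54, 116), (72, 26)]), (4, [(30, 10), (42, 9809), (54, 404), (72, 22)]), (4, [(30, 67), (42, 9915), (54, 134), (72, 32)]), (3, [(30, 85), (47, 359), (54, 3), (57, 619), (72, 2)]), (4, [(30, 2300), (52, 9034), (63, 35), (68, 9), (81, 7)]), (4, [(31, 6907), (45, 2705), (54, 734), (72, 5), (73, 32)]), (4, [(30, 89), (42, 9681), (54, 507), (72, 34)]), (3, [(30, 16), (42, 884), (54, 210), (72, 5)]), (2, [(48, 91), (54, 3), (55, 17), (73, 1)]), (1, [(30, 10), (54, 1), (72, 1)]), (0, [(54, 9)]), (2, [(30, 39), (52, 81), (63, 1)]), (2, [(30, 31), (52, 86), (63, 1)]), (2, [(30, 119), (63, 1)]),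 (1, [(30, 10), (61, 1), (81, 1)]), (1, [(30, 5), (54, 5), (61, 1), (81, 1)]), (0, [(55, 9)]), (0, [(55, 8)]), (3, [(30, 215), (52, 907), (63, 3), (68, 4)]), (0, [(0, 1), (63, 1)]), (3, [(0, 74), (4, 700), (15, 262), (63, 2), (72, 2)]), (4, [(0, 731), (4, 3964), (15, 5654), (63, 28), (72, 17)]), (3, [(0, 66), (4, 502), (15, 464), (63, 3), (72, 1)]), (3, [(0, 82), (4, 421), (15, 537), (63, 1), (72, 3)]), (3, [(0, 58), (4, 452), (15, 518), (63, 3), (72, 1)]), (4, [(0, 295), (4, 3517), (15, 6335), (63, 10), (72, 22)]), (4, [(0, 420), (4, 4372), (15, 5417), (63, 24), (72, 6)]), (4, [(0, 403), (4, 9782), (63, 14), (64, 12), (72, 15)]), (4, [(0, 150), (4, 4050), (15, 5882), (63, 9), (72, 15)]), (3, [(0, 77), (4, 269), (15, 690), (20, 2), (72, 4)]), (4, [(0, 843), (4, 3777), (15, 5796), (63, 35), (72, 8)]), (3, [(0, 142), (4, 334), (15, 594), (63, 4), (72, 2)]), (4, [(17, 9761), (20, 830), (72, 14), (80, 13)]), (4,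 [(0, 783), (4, 3082), (15, 6545), (63, 30), (72, 4)]), (4, [(0, 423), (4, 3235), (15, 6539), (20, 16), (72, 32)]), (4, [(0, 749), (4, 2283), (15, 7331), (63, 12), (72, 34)]), (3, [(0, 145), (4, 172), (15, 755), (63, 2), (72, 4)]), (4, [(17, 9341), (18, 676), (20, 190), (72, 13), (78, 1)]), (4, [(0, 297), (4, 2305), (15, 7575), (63, 31), (72, 3)]), (3, [(0, 18), (7, 904), (15, 121), (63, 6)]), (3, [(0, 19), (7, 502), (23, 503), (63, 4), (81, 1)]), (3, [(0, 370), (24, 826), (63, 4)]), (3, [(18, 936), (20, 159), (72, 1), (73, 1)]), (1, [(0, 10), (20, 1), (72, 1)]), (0, [(20, 9)]), (4, [(0, 238), (4, 18), (15, 9934), (63, 42), (72, 2)]), (3, [(0, 58), (7, 428), (23, 545), (81, 5)]), (2, [(19, 29), (21, 72), (73, 1), (82, 1)]), (1, [(0, 5), (20, 5), (25, 1), (81, 1)]), (2, [(19, 18), (21, 83), (73, 1), (74, 1)]), (1, [(0, 10), (25, 1), (81, 1)]), (3, [(0, 20), (7, 868), (23, 152), (63, 4)]), (0, [(63, 2)]), (1,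 [(68, 11)]), (4, [(64, 10001)]), (2, [(63, 7), (64, 95), (72, 1)]), (2, [(63, 10), (64, 94), (72, 1)]), (0, [(63, 2)]), (2, [(67, 101)]), (3, [(64, 1001)]), (1, [(66, 7), (72, 5)]), (0, [(63, 2)]), (0, [(72, 2)]), (1, [(72, 11)]), (0, [(63, 2)]), (1, [(63, 11)]), (1, [(69, 6), (72, 3), (73, 2)]), (1, [(72, 11)]), (0, [(73, 2)]), (0, [(63, 2)]), (0, [(63, 2)]), (0, [(73, 2)])],
  [(3, [(13, 1002)]), (3, [(53, 1004), (55, 19), (73, 2)]), (3, [(53, 999), (55, 4), (73, 1)]), (3, [(53, 1010), (55, 9), (73, 1)]), (3, [(53, 1007), (55, 13), (73, 2)]), (3, [(53, 1023), (55, 15), (73, 2)]), (2, [(57, 101)]), (3, [(42, 1002)]), (2, [(57, 101)]), (2, [(57, 101)]), (2, [(57, 101)]), (3, [(53, 1003), (55, 19), (73, 2)]), (3, [(43, 159), (53, 845), (55, 18), (73, 1)]), (3, [(53, 1007), (55, 15), (73, 1)]), (3, [(53, 988), (55, 15), (73, 2)]), (3, [(53, 1022), (55, 16), (73, 2)]), (3, [(53, 1004), (55, 17), (73, 3)]), (3,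 [(53, 1022), (55, 18), (73, 3)]), (2, [(57, 101)]), (2, [(57, 101)]), (2, [(57, 101)]), (2, [(47, 101)]), (2, [(57, 101)]), (3, [(30, 50), (47, 720), (54, 2), (57, 278), (72, 1)]), (0, [(13, 1)]), (3, [(13, 1002)]), (3, [(13, 1001)]), (3, [(13, 1001)]), (3, [(13, 512), (17, 477), (20, 27), (72, 1)]), (4, [(17, 9457), (18, 340), (20, 512), (80, 4)]), (3, [(13, 1002)]), (3, [(13, 1001)]), (2, [(17, 101)]), (3, [(13, 102), (17, 883), (20, 48), (72, 1)]), (0, [(13, 1)]), (3, [(13, 1002)]), (3, [(13, 1001)]), (3, [(13, 1001)]), (3, [(13, 536), (17, 452), (20, 28), (72, 1)]), (4, [(1, 1), (13, 5235), (17, 4638), (20, 289), (72, 11)]), (3, [(13, 520), (17, 467), (20, 29), (72, 2)]), (4, [(17, 9549), (18, 327), (20, 508), (80, 4)]), (2, [(17, 101)]), (2, [(17, 101)]), (3, [(17, 993), (20, 47), (80, 1)]), (3, [(17, 1029), (20, 50), (80, 1)]), (3, [(17, 993), (18, 5), (20, 50), (72, 1), (80, 2)]), (2, [(63, 4), (70,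 94), (72, 9)]), (2, [(71, 101)]), (0, [(30, 1), (63, 1)]), (3, [(62, 1002)]), (4, [(43, 10001)]), (2, [(57, 101)]), (3, [(30, 51), (47, 906), (54, 1), (57, 95), (72, 2)]), (3, [(53, 1009), (55, 10), (73, 1)]), (2, [(57, 101)]), (2, [(57, 101)]), (3, [(53, 1018), (55, 28), (73, 1)]), (3, [(53, 1005), (55, 16), (73, 1)]), (3, [(53, 998), (55, 26), (73, 2)]), (3, [(53, 1015), (55, 44), (73, 2)]), (3, [(53, 980), (55, 58), (73, 2)]), (3, [(53, 977), (55, 62), (73, 3)]), (3, [(43, 977), (54, 98), (55, 65), (73, 1)]), (2, [(57, 101)]), (3, [(53, 965), (55, 84), (73, 2)]), (3, [(53, 946), (55, 121), (73, 3)]), (3, [(53, 839), (55, 355), (73, 4)]), (3, [(55, 43), (58, 1033), (82, 1)]), (0, [(54, 4)]), (0, [(55, 3)]), (2, [(57, 101)]), (3, [(30, 73), (54, 11), (57, 922), (61, 2), (81, 2)]), (3, [(30, 782), (52, 416), (63, 2)]), (0, [(54, 5)]), (0, [(55, 4)]), (3, [(55, 997), (58, 1), (73, 4)]), (0, [(55, 5)]), (2,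 [(57, 101)]), (0, [(0, 1), (63, 1)]), (3, [(17, 875), (18, 94), (20, 90), (80, 1)]), (3, [(17, 866), (18, 94), (20, 91), (80, 1)]), (3, [(13, 82), (17, 884), (20, 82), (72, 1)]), (3, [(17, 1001)]), (3, [(17, 1001)]), (3, [(17, 1001)]), (3, [(13, 1001)]), (3, [(17, 975), (18, 27), (20, 50), (72, 1), (80, 1)]), (2, [(17, 101)]), (2, [(18, 101)]), (3, [(13, 860), (17, 88), (20, 106), (72, 1)]), (3, [(17, 890), (18, 30), (20, 174), (80, 2)]), (3, [(19, 1001), (21, 107), (74, 2)]), (4, [(0, 7), (14, 9511), (20, 900), (72, 12)]), (2, [(18, 101)]), (3, [(17, 367), (18, 598), (20, 91), (80, 1)]), (3, [(17, 292), (18, 633), (20, 174), (80, 2)]), (3, [(19, 1014), (21, 22), (74, 1)]), (2, [(13, 78), (17, 20), (20, 4)]), (3, [(13, 518), (17, 470), (20, 30), (72, 2)]), (3, [(13, 518), (17, 465), (20, 30), (72, 2)]), (3, [(23, 1003)]), (3, [(19, 963), (21, 213), (74, 3)]), (0, [(20, 4)]), (0, [(21, 3)]), (3, [(13, 640),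 (17, 356), (20, 35)]), (3, [(17, 537), (18, 421), (20, 74), (80, 2)]), (1, [(21, 3), (27, 11)]), (0, [(21, 4)]), (3, [(21, 360), (27, 480), (28, 161), (73, 1), (82, 1)]), (0, [(20, 5)]), (3, [(13, 567), (17, 417), (20, 32), (72, 1)]), (0, [(63, 2)]), (2, [(63, 4), (70, 94), (72, 9)]), (2, [(71, 101)]), (2, [(71, 101)]), (2, [(76, 101)]), (1, [(63, 5), (64, 6)]), (1, [(74, 11)]), (2, [(76, 101)]), (1, [(74, 11)]), (0, [(72, 2)]), (0, [(73, 2)]), (1, [(73, 11)]), (0, [(63, 2)]), (0, [(73, 2)]), (1, [(82, 11)]), (1, [(73, 11)]), (0, [(73, 2)]), (0, [(73, 2)]), (0, [(72, 2)]), (0, [(73, 2)])],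
  [(3, [(7, 322), (15, 200), (22, 395), (23, 83), (63, 5)]), (4, [(30, 19), (47, 8546), (54, 39), (57, 1574), (72, 46)]), (3, [(47, 930), (54, 1), (57, 86), (72, 4)]), (3, [(47, 833), (54, 2), (57, 181), (72, 4)]), (4, [(30, 12), (47, 7048), (54, 36), (57, 3091), (72, 46)]), (2, [(47, 55), (57, 46), (72, 1)]), (2, [(30, 22), (52, 91), (63, 1)]), (2, [(30, 13), (52, 95), (63, 1)]), (2, [(30, 18), (52, 93), (63, 1)]), (2, [(30, 20), (52, 92), (63, 1)]), (2, [(30, 21), (52, 92), (63, 1)]), (4, [(30, 22), (47, 4296), (54, 49), (57, 5845), (72, 44)]), (3, [(30, 2), (47, 756), (54, 1), (57, 260), (72, 4)]), (3, [(30, 1), (47, 526), (54, 3), (57, 509), (72, 4)]), (4, [(30, 19), (47, 3261), (54, 43), (57, 6898), (72, 44)]), (3, [(30, 2), (47, 146), (54, 5), (57, 870), (72, 5)]), (3, [(30, 2), (54, 5), (57, 1040), (72, 5)]), (3, [(30, 2), (54, 5), (57, 1016), (72, 5), (81, 1)]), (2, [(30, 22), (52, 92), (63, 1)]),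 (2, [(30, 16), (52, 94), (63, 1)]), (2, [(30, 19), (52, 93), (63, 1)]), (2, [(30, 21), (52, 93), (63, 1)]), (2, [(30, 21), (52, 92), (63, 1)]), (2, [(30, 22), (52, 92), (63, 1)]), (4, [(0, 186), (7, 7536), (23, 2489), (63, 52), (81, 6)]), (4, [(0, 56), (7, 7692), (22, 575), (23, 1837), (63, 48)]), (4, [(0, 106), (7, 7350), (23, 2729), (63, 49), (81, 3)]), (4, [(0, 139), (7, 6238), (23, 3830), (63, 49), (81, 7)]), (3, [(0, 16), (7, 490), (23, 517), (63, 5), (81, 1)]), (4, [(0, 368), (7, 8560), (23, 1357), (63, 40), (81, 24)]), (3, [(0, 18), (7, 786), (22, 121), (23, 96), (63, 5)]), (4, [(0, 274), (7, 9115), (23, 868), (63, 51), (81, 6)]), (2, [(0, 3), (7, 98), (23, 2), (63, 1)]), (4, [(0, 357), (4, 119), (15, 9806), (63, 67), (72, 8)]), (3, [(0, 20), (7, 385), (23, 621), (63, 4), (81, 1)]), (3, [(0, 17), (7, 624), (22, 45), (23, 338), (63, 5)]), (4, [(0, 161), (7, 4578), (23, 5509), (63, 40), (81, 7)]), (3,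 [(0, 17), (7, 295), (23, 715), (63, 4), (81, 1)]), (3, [(0, 18), (7, 139), (23, 871), (63, 4), (81, 1)]), (4, [(0, 189), (23, 10110), (63, 35), (68, 1), (81, 18)]), (4, [(0, 195), (23, 10101), (63, 35), (68, 6), (81, 18)]), (3, [(0, 38), (4, 129), (15, 862), (63, 6), (72, 1)]), (4, [(0, 260), (4, 121), (15, 9864), (63, 54), (72, 9)]), (2, [(0, 3), (4, 16), (15, 83), (63, 1)]), (2, [(0, 3), (4, 28), (15, 69), (63, 1)]), (3, [(0, 37), (4, 410), (15, 581), (63, 6), (72, 1)]), (3, [(0, 37), (4, 539), (15, 453), (63, 6), (72, 1)]), (1, [(68, 11)]), (2, [(64, 101)]), (0, [(30, 1), (63, 1)]), (2, [(30, 3), (52, 100), (63, 1)]), (3, [(46, 921), (47, 12), (57, 82), (72, 4)]), (2, [(30, 17), (52, 93), (63, 1)]), (2, [(30, 22), (52, 92), (63, 1)]), (4, [(47, 9111), (54, 75), (57, 1003), (72, 12), (80, 25)]), (2, [(30, 9), (52, 97), (63, 1)]), (2, [(30, 32), (52, 68), (63, 1)]), (3, [(47, 822), (54, 22), (57, 181), (72,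 3), (80, 1)]), (3, [(30, 1), (47, 856), (54, 5), (57, 156), (72, 4)]), (4, [(30, 26), (47, 7594), (54, 67), (57, 2494), (72, 46)]), (3, [(30, 5), (47, 780), (54, 8), (57, 225), (72, 5)]), (3, [(30, 2), (47, 737), (54, 37), (57, 255), (72, 5)]), (3, [(30, 7), (47, 670), (54, 10), (57, 312), (72, 6)]), (3, [(30, 88), (54, 4), (57, 977), (72, 2), (81, 2)]), (2, [(30, 23), (52, 91), (63, 1)]), (4, [(47, 7109), (54, 705), (57, 2636), (73, 24), (80, 25)]), (3, [(30, 10), (47, 658), (54, 47), (57, 321), (72, 6)]), (2, [(30, 2), (47, 42), (54, 21), (57, 47), (72, 1)]), (2, [(43, 56), (48, 35), (54, 3), (55, 16), (73, 1)]), (1, [(30, 10), (54, 1), (72, 1)]), (0, [(30, 1), (54, 1), (72, 1)]), (2, [(30, 33), (52, 67), (63, 1)]), (2, [(30, 32), (52, 86), (63, 1)]), (2, [(30, 119), (63, 1)]), (1, [(30, 10), (61, 1), (81, 1)]), (1, [(30, 5), (54, 5), (61, 1), (81, 1)]), (0, [(55, 12)]), (0, [(55, 11)]), (2, [(30, 22),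 (52, 92), (63, 1)]), (0, [(0, 1), (63, 1)]), (2, [(0, 7), (4, 8), (15, 90), (63, 1)]), (3, [(0, 71), (7, 795), (23, 179), (63, 3), (81, 4)]), (3, [(0, 63), (7, 912), (23, 68), (63, 5), (81, 2)]), (3, [(0, 80), (7, 841), (23, 129), (81, 6)]), (4, [(0, 551), (7, 8470), (23, 1366), (63, 45), (81, 17)]), (4, [(0, 276), (7, 7563), (23, 2402), (81, 53)]), (4, [(0, 390), (7, 8239), (23, 1683), (63, 49), (81, 7)]), (3, [(0, 38), (4, 675), (15, 316), (63, 6), (72, 1)]), (4, [(0, 123), (7, 8091), (23, 1964), (63, 14), (81, 34)]), (2, [(0, 7), (7, 63), (23, 30), (81, 1)]), (2, [(0, 8), (7, 75), (23, 22), (63, 1)]), (3, [(0, 143), (7, 721), (23, 219), (63, 3), (81, 6)]), (3, [(17, 972), (20, 84), (72, 4), (80, 1)]), (3, [(0, 79), (7, 689), (23, 327), (63, 5)]), (2, [(0, 4), (7, 72), (23, 27), (81, 1)]), (2, [(0, 7), (7, 61), (23, 36), (81, 1)]), (2, [(0, 15), (7, 54), (23, 40), (81, 1)]), (3, [(17, 956), (18, 51), (20,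 19), (72, 2), (80, 2)]), (4, [(0, 275), (7, 5721), (23, 4269), (63, 44), (81, 5)]), (3, [(0, 20), (7, 250), (23, 787), (63, 5), (81, 1)]), (4, [(0, 204), (23, 10065), (63, 32), (68, 9), (81, 18)]), (2, [(0, 37), (24, 82), (63, 1)]), (3, [(18, 937), (20, 161), (72, 3), (80, 2)]), (1, [(0, 10), (20, 1), (72, 1)]), (0, [(0, 1), (20, 1), (72, 1)]), (3, [(0, 23), (7, 298), (23, 706), (63, 4), (81, 1)]), (4, [(0, 594), (23, 9741), (25, 7), (81, 66)]), (2, [(19, 28), (21, 72), (73, 1), (74, 1)]), (1, [(0, 5), (20, 5), (25, 1), (81, 1)]), (2, [(19, 20), (21, 99), (73, 1)]), (1, [(0, 10), (25, 1), (81, 1)]), (4, [(0, 211), (7, 868), (23, 9195), (63, 34), (81, 16)]), (0, [(63, 2)]), (1, [(68, 11)]), (2, [(64, 101)]), (3, [(64, 1001)]), (3, [(64, 1001)]), (0, [(63, 2)]), (2, [(70, 101)]), (3, [(64, 1001)]), (1, [(67, 7), (72, 5)]), (0, [(63, 2)]), (0, [(72, 2)]), (1, [(72, 11)]), (0, [(63, 2)]), (1, [(63, 11)]), (1,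 [(69, 6), (72, 3), (73, 2)]), (1, [(72, 11)]), (0, [(73, 2)]), (0, [(63, 2)]), (0, [(63, 2)]), (0, [(73, 2)])],
  [(4, [(0, 223), (7, 8047), (23, 1875), (81, 7)]), (3, [(30, 12), (47, 763), (54, 17), (57, 226), (72, 1)]), (3, [(47, 1001)]), (4, [(30, 75), (47, 7435), (54, 149), (57, 2503), (72, 5)]), (3, [(30, 9), (47, 617), (54, 16), (57, 375), (72, 1)]), (4, [(30, 108), (47, 4658), (54, 167), (57, 5261), (72, 14)]), (3, [(30, 578), (52, 617), (63, 5)]), (3, [(30, 422), (52, 774), (63, 3)]), (3, [(30, 509), (52, 687), (63, 4)]), (3, [(30, 544), (52, 651), (63, 5)]), (2, [(30, 56), (52, 64), (63, 1)]), (3, [(30, 13), (47, 347), (54, 18), (57, 644), (72, 1)]), (3, [(47, 1001)]), (3, [(57, 1001)]), (3, [(30, 11), (47, 246), (54, 16), (57, 748), (72, 1)]), (3, [(30, 11), (47, 71), (54, 17), (57, 941), (72, 1)]), (4, [(30, 122), (54, 178), (57, 9935), (72, 13), (81, 4)]), (3, [(30, 12), (54, 18), (57, 1012),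 (72, 1), (81, 1)]), (3, [(30, 573), (52, 622), (63, 5)]), (3, [(30, 475), (52, 721), (63, 4)]), (3, [(30, 528), (52, 668), (63, 4)]), (3, [(30, 551), (52, 643), (63, 5)]), (2, [(30, 56), (52, 63), (63, 1)]), (2, [(30, 57), (52, 63), (63, 1)]), (3, [(0, 93), (7, 696), (23, 297), (81, 2)]), (4, [(0, 438), (7, 7392), (20, 1), (23, 2413), (81, 12)]), (3, [(0, 61), (7, 656), (23, 317), (81, 2)]), (3, [(0, 72), (7, 547), (23, 421), (81, 2)]), (3, [(0, 83), (7, 433), (23, 568), (81, 2)]), (3, [(0, 158), (7, 792), (23, 192), (81, 3)]), (3, [(0, 91), (7, 828), (23, 167), (81, 2)]), (3, [(0, 119), (7, 813), (23, 131), (81, 2)]), (3, [(0, 134), (7, 873), (23, 64), (81, 3)]), (3, [(0, 143), (7, 379), (15, 554), (72, 1), (81, 3)]), (3, [(0, 90), (7, 309), (23, 653), (81, 2)]), (3, [(0, 83), (7, 580), (23, 385), (81, 1)]), (3, [(23, 1001)]), (3, [(0, 83), (7, 230), (23, 775), (81, 1)]), (3, [(0, 83), (7, 72), (23, 896),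 (81, 2)]), (3, [(0, 89), (23, 1007), (81, 2)]), (4, [(0, 875), (23, 9658), (25, 6), (81, 25)]), (4, [(0, 1507), (4, 715), (15, 8579), (63, 13), (72, 24)]), (4, [(0, 1075), (7, 7003), (15, 2503), (72, 19), (81, 7)]), (3, [(0, 130), (4, 102), (15, 837), (63, 1), (72, 2)]), (4, [(0, 1405), (4, 2193), (15, 7148), (63, 13), (72, 23)]), (4, [(0, 1456), (4, 3349), (15, 5966), (63, 15), (72, 24)]), (3, [(0, 139), (4, 427), (15, 446), (63, 2), (72, 2)]), (2, [(68, 101)]), (2, [(63, 15), (64, 91), (72, 1), (81, 3)]), (0, [(30, 1), (63, 1)]), (4, [(30, 1414), (52, 9375), (63, 22), (81, 1)]), (2, [(47, 101)]), (3, [(30, 494), (52, 702), (63, 4)]), (2, [(30, 57), (52, 62), (63, 1)]), (3, [(47, 1001)]), (3, [(30, 334), (52, 860), (63, 3)]), (3, [(30, 637), (52, 360), (63, 4), (81, 1)]), (3, [(30, 9), (47, 716), (54, 57), (57, 254), (72, 1)]), (3, [(30, 10), (47, 753), (54, 19), (57, 221), (72, 1)]), (3, [(30, 15), (47,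 668), (54, 22), (57, 315), (72, 1)]), (3, [(30, 24), (47, 686), (54, 25), (57, 290), (72, 2)]), (3, [(30, 22), (47, 638), (54, 78), (57, 315), (72, 2)]), (3, [(30, 34), (47, 590), (54, 28), (57, 378), (72, 2)]), (2, [(57, 101)]), (3, [(30, 495), (52, 503), (63, 3), (81, 1)]), (3, [(30, 12), (47, 572), (54, 198), (57, 330), (72, 2)]), (2, [(30, 5), (47, 52), (54, 9), (57, 35), (72, 1)]), (1, [(30, 1), (47, 3), (54, 3), (57, 4), (72, 1)]), (2, [(43, 55), (48, 27), (54, 15), (55, 29), (73, 1)]), (1, [(30, 10), (54, 1), (72, 1)]), (0, [(54, 6)]), (3, [(30, 775), (52, 420), (63, 5)]), (2, [(30, 70), (52, 49), (63, 1)]), (3, [(30, 1196), (63, 4)]), (1, [(30, 10), (61, 1), (81, 1)]), (0, [(54, 7)]), (0, [(55, 7)]), (0, [(55, 6)]), (3, [(30, 564), (52, 630), (63, 5), (68, 1)]), (0, [(0, 1), (63, 1)]), (3, [(0, 260), (4, 24), (15, 861), (63, 1), (72, 3)]), (3, [(0, 259), (7, 665), (20, 1), (23, 219), (81, 4)]), (3,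 [(0, 234), (7, 787), (23, 108), (81, 4)]), (3, [(0, 283), (7, 682), (20, 2), (23, 193), (81, 3)]), (3, [(0, 209), (7, 731), (23, 174), (81, 3)]), (4, [(0, 1129), (7, 6303), (20, 18), (23, 3148), (81, 18)]), (3, [(0, 157), (7, 721), (23, 206), (81, 2)]), (4, [(0, 1507), (4, 5823), (15, 3478), (63, 14), (72, 27)]), (3, [(0, 64), (7, 720), (20, 1), (23, 276), (81, 1)]), (3, [(0, 268), (7, 513), (20, 7), (23, 364), (81, 3)]), (3, [(0, 295), (7, 636), (23, 235), (81, 4)]), (2, [(0, 44), (7, 54), (23, 22), (81, 1)]), (3, [(13, 195), (17, 680), (20, 290), (72, 2)]), (3, [(0, 276), (7, 553), (23, 327), (81, 2)]), (3, [(0, 155), (7, 589), (20, 6), (23, 336), (81, 2)]), (3, [(0, 263), (7, 473), (20, 3), (23, 408), (81, 3)]), (2, [(0, 44), (7, 37), (23, 38), (81, 1)]), (3, [(17, 1001)]), (3, [(0, 123), (7, 512), (23, 480), (81, 2)]), (3, [(0, 90), (7, 182), (23, 783), (81, 3)]), (4, [(0, 901), (23, 9615), (25, 6), (81,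 25)]), (3, [(0, 788), (24, 409), (63, 3)]), (2, [(18, 61), (20, 40), (21, 1), (73, 1), (80, 1)]), (1, [(0, 10), (20, 1), (72, 1)]), (0, [(20, 6)]), (3, [(0, 104), (7, 234), (23, 764), (81, 1)]), (3, [(0, 214), (23, 893), (25, 5), (81, 4)]), (0, [(21, 6)]), (0, [(20, 7)]), (0, [(21, 6)]), (1, [(0, 10), (25, 1), (81, 1)]), (3, [(0, 93), (7, 20), (23, 940), (81, 2)]), (0, [(63, 2)]), (2, [(68, 101)]), (2, [(63, 15), (64, 91), (72, 1), (81, 3)]), (1, [(63, 3), (64, 9)]), (1, [(63, 3), (64, 8)]), (0, [(63, 2)]), (1, [(70, 8), (72, 4)]), (1, [(63, 4), (64, 7)]), (0, [(72, 2)]), (0, [(63, 2)]), (0, [(72, 2)]), (0, [(72, 2)]), (0, [(63, 2)]), (0, [(63, 2)]), (1, [(72, 11)]), (0, [(72, 2)]), (0, [(72, 2)]), (0, [(63, 2)]), (0, [(63, 2)]), (0, [(73, 2)])],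
  [(3, [(0, 29), (7, 697), (23, 291), (81, 2)]), (3, [(30, 13), (47, 631), (54, 35), (57, 347), (72, 2)]), (3, [(30, 4), (47, 707), (54, 28), (57, 281), (72, 1)]), (3, [(30, 7), (47, 612), (54, 32), (57, 372), (72, 2)]), (3, [(30, 10), (47, 487), (54, 34), (57, 496), (72, 2)]), (3, [(30, 12), (47, 329), (54, 34), (57, 630), (72, 3)]), (2, [(30, 65), (52, 55), (63, 1)]), (3, [(30, 487), (52, 708), (63, 4)]), (2, [(30, 58), (52, 62), (63, 1)]), (2, [(30, 61), (52, 58), (63, 1)]), (2, [(30, 63), (52, 57), (63, 1)]), (3, [(30, 14), (47, 219), (54, 36), (57, 762), (72, 2)]), (3, [(30, 14), (47, 538), (54, 24), (57, 450), (72, 1)]), (3, [(30, 12), (47, 304), (54, 31), (57, 682), (72, 2)]), (3, [(30, 12), (47, 119), (54, 34), (57, 865), (72, 2)]), (3, [(30, 12), (54, 36), (57, 1009), (72, 2)]), (3, [(30, 13), (54, 36), (57, 983), (72, 2), (81, 1)]), (3, [(30, 13), (54, 36), (57, 982), (72, 2), (81, 2)]), (2, [(30,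 64), (52, 55), (63, 1)]), (3, [(30, 542), (52, 653), (63, 5)]), (2, [(30, 60), (52, 60), (63, 1)]), (2, [(30, 52), (52, 48), (63, 1)]), (2, [(30, 63), (52, 56), (63, 1)]), (2, [(30, 53), (52, 47), (63, 1)]), (3, [(0, 112), (7, 564), (23, 381), (81, 3)]), (3, [(0, 55), (7, 631), (23, 342), (81, 2)]), (4, [(0, 769), (7, 5491), (20, 7), (23, 4148), (81, 25)]), (3, [(0, 94), (7, 459), (23, 537), (81, 3)]), (3, [(0, 100), (7, 313), (23, 641), (81, 3)]), (3, [(0, 185), (7, 640), (20, 1), (23, 272), (81, 4)]), (4, [(0, 1107), (7, 6907), (20, 5), (23, 2575), (81, 24)]), (3, [(0, 149), (7, 705), (20, 1), (23, 225), (81, 3)]), (3, [(0, 167), (7, 764), (20, 1), (23, 158), (81, 4)]), (2, [(0, 19), (7, 93), (23, 6), (81, 1)]), (3, [(0, 108), (7, 197), (20, 1), (23, 707), (81, 3)]), (3, [(0, 109), (7, 495), (23, 502), (81, 2)]), (3, [(0, 97), (7, 276), (23, 681), (81, 2)]), (3, [(0, 100), (7, 119), (20, 1), (23, 839),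 (81, 2)]), (3, [(0, 104), (23, 957), (25, 1), (81, 3)]), (3, [(0, 107), (23, 955), (25, 2), (81, 3)]), (4, [(0, 1093), (23, 9535), (25, 18), (81, 37)]), (3, [(0, 187), (7, 231), (15, 684), (72, 5)]), (3, [(0, 140), (7, 919), (20, 1), (23, 72), (81, 3)]), (3, [(0, 149), (4, 15), (15, 834), (63, 1), (72, 4)]), (3, [(0, 175), (4, 131), (15, 789), (63, 1), (72, 4)]), (3, [(0, 181), (4, 244), (15, 673), (63, 1), (72, 5)]), (3, [(0, 184), (4, 362), (15, 554), (63, 1), (72, 5)]), (1, [(63, 11)]), (1, [(63, 2), (64, 9)]), (0, [(30, 1), (63, 1)]), (3, [(30, 189), (52, 988), (63, 4)]), (3, [(30, 1), (47, 781), (54, 19), (57, 216), (72, 1)]), (3, [(30, 469), (52, 528), (63, 4), (81, 1)]), (2, [(30, 64), (52, 55), (63, 1)]), (3, [(47, 667), (54, 73), (57, 301), (80, 1)]), (3, [(30, 408), (52, 833), (63, 4)]), (3, [(30, 688), (52, 308), (63, 4), (81, 2)]), (3, [(30, 5), (47, 580), (54, 107), (57, 368), (72, 2)]), (3,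 [(30, 11), (47, 633), (54, 39), (57, 345), (72, 2)]), (3, [(30, 17), (47, 538), (54, 44), (57, 434), (72, 2)]), (3, [(30, 27), (47, 555), (54, 49), (57, 408), (72, 3)]), (2, [(30, 2), (47, 47), (54, 14), (57, 40), (72, 1)]), (3, [(30, 39), (47, 460), (54, 56), (57, 493), (72, 3)]), (2, [(30, 29), (54, 2), (57, 69), (72, 1), (81, 1)]), (3, [(30, 551), (52, 445), (63, 4), (81, 2)]), (3, [(47, 441), (54, 319), (57, 420), (73, 3)]), (2, [(30, 6), (47, 43), (54, 18), (57, 48), (72, 1)]), (1, [(30, 1), (47, 2), (54, 5), (57, 4), (72, 1)]), (1, [(43, 5), (48, 2), (54, 1), (55, 4), (73, 1)]), (1, [(30, 10), (54, 1), (72, 1)]), (0, [(54, 8)]), (2, [(30, 83), (52, 36), (63, 1)]), (2, [(30, 64), (52, 36), (63, 1)]), (2, [(30, 119), (63, 1)]), (0, [(30, 1), (61, 1), (81, 1)]), (0, [(54, 9)]), (0, [(55, 9)]), (0, [(55, 7)]), (2, [(30, 53), (52, 47), (63, 1)]), (0, [(0, 1), (63, 1)]), (3, [(0, 317), (7, 866), (20, 1),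 (72, 4), (81, 2)]), (2, [(0, 32), (7, 56), (23, 30), (81, 1)]), (2, [(0, 32), (7, 76), (23, 22), (81, 1)]), (3, [(0, 346), (7, 579), (20, 5), (23, 272), (81, 4)]), (3, [(0, 258), (7, 625), (20, 1), (23, 260), (81, 4)]), (3, [(0, 132), (7, 494), (20, 3), (23, 383), (81, 3)]), (3, [(0, 195), (7, 615), (20, 1), (23, 296), (81, 3)]), (3, [(0, 187), (4, 487), (15, 429), (63, 1), (72, 5)]), (3, [(0, 78), (7, 594), (20, 2), (23, 367), (81, 2)]), (3, [(0, 327), (7, 414), (20, 13), (23, 439), (81, 4)]), (2, [(0, 36), (7, 53), (23, 31), (81, 1)]), (2, [(0, 42), (7, 36), (23, 22), (81, 1)]), (3, [(17, 362), (18, 500), (20, 352), (80, 3)]), (3, [(0, 338), (7, 452), (23, 404), (81, 3)]), (2, [(0, 18), (7, 45), (20, 1), (23, 39), (81, 1)]), (3, [(0, 322), (7, 375), (20, 5), (23, 482), (81, 5)]), (3, [(0, 424), (7, 231), (20, 5), (23, 338), (81, 6)]), (3, [(17, 48), (18, 926), (20, 91), (80, 1)]), (3, [(0, 155), (7, 407),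 (23, 581), (81, 2)]), (3, [(0, 118), (7, 85), (23, 918), (81, 4)]), (4, [(0, 1125), (23, 9490), (25, 18), (81, 37)]), (3, [(0, 849), (24, 347), (63, 5)]), (2, [(18, 54), (20, 44), (21, 3), (73, 1), (80, 1)]), (1, [(0, 10), (20, 1), (72, 1)]), (0, [(20, 8)]), (3, [(0, 131), (7, 130), (23, 864), (81, 2)]), (3, [(0, 262), (23, 871), (25, 9), (81, 5)]), (0, [(21, 8)]), (0, [(20, 9)]), (0, [(21, 7)]), (0, [(0, 1), (25, 1), (81, 1)]), (3, [(0, 116), (23, 948), (25, 2), (81, 3)]), (0, [(63, 2)]), (1, [(63, 11)]), (1, [(63, 2), (64, 9)]), (1, [(63, 3), (64, 8)]), (1, [(63, 4), (64, 7)]), (0, [(63, 2)]), (1, [(67, 7), (72, 5)]), (1, [(63, 5), (64, 6)]), (0, [(72, 2)]), (0, [(63, 2)]), (0, [(72, 2)]), (0, [(72, 2)]), (0, [(63, 2)]), (0, [(63, 2)]), (0, [(72, 2)]), (0, [(72, 2)]), (0, [(73, 2)]), (0, [(63, 2)]), (0, [(63, 2)]), (0, [(73, 2)])]]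

set_option maxRecDepth 100000 in
theorem okUG4 : chkRect LD LG LU4 cUG4 = true := by decide +kernel

end Pool.Agent.Lib.MP_dbb03c_co.Full
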