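import Pool.Agent.Lib.MP_dbb03c_co.Full.Data

/-! # Certificate data (generated) -/

namespace Pool.Agent.Lib.MP_dbb03c_co.Full

set_option maxRecDepth 100000 in
def cUG5 : List (List Ct) := [
  [(1, [(0, 10), (25, 1), (81, 1)]), (1, [(30, 4), (54, 7), (61, 1), (81, 1)]), (0, [(54, 4)]), (0, [(54, 5)]), (1, [(30, 4), (54, 7), (61, 1), (81, 1)]), (1, [(30, 4), (54, 7), (61, 1), (81, 1)]), (2, [(30, 100), (63, 1), (81, 1)]), (2, [(30, 100), (63, 1), (81, 1)]), (2, [(30, 100), (63, 1), (81, 1)]), (2, [(30, 100), (63, 1), (81, 1)]), (2, [(30, 100), (63, 1), (81, 1)]), (1, [(30, 4), (54, 7), (61, 1), (81, 1)]), (0, [(54, 4)]), (1, [(30, 4), (54, 7), (61, 1), (81, 1)]), (1, [(30, 4), (54, 7), (61, 1), (81, 1)]), (1, [(30, 4), (54, 7), (61, 1), (81, 1)]), (1, [(30, 4), (54, 7), (61, 1), (81, 1)]), (1, [(30, 4), (54, 7), (61, 1), (81, 1)]), (2, [(30, 100), (63, 1), (81, 1)]), (2, [(30, 100), (63,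 1), (81, 1)]), (2, [(30, 100), (63, 1), (81, 1)]), (2, [(30, 100), (63, 1), (81, 1)]), (2, [(30, 100), (63, 1), (81, 1)]), (2, [(30, 100), (63, 1), (81, 1)]), (1, [(0, 10), (25, 1), (81, 1)]), (1, [(0, 10), (25, 1), (81, 1)]), (1, [(0, 10), (25, 1), (81, 1)]), (1, [(0, 10), (25, 1), (81, 1)]), (1, [(0, 10), (25, 1), (81, 1)]), (1, [(0, 10), (25, 1), (81, 1)]), (1, [(0, 10), (25, 1), (81, 1)]), (1, [(0, 10), (25, 1), (81, 1)]), (1, [(0, 10), (25, 1), (81, 1)]), (1, [(0, 10), (25, 1), (81, 1)]), (1, [(0, 10), (25, 1), (81, 1)]), (1, [(0, 10), (25, 1), (81, 1)]), (1, [(0, 10), (25, 1), (81, 1)]), (1, [(0, 10), (25, 1), (81, 1)]), (1, [(0, 10), (25, 1), (81, 1)]), (1, [(0, 10), (25, 1), (81, 1)]), (1, [(0, 10), (25, 1), (81, 1)]), (1, [(0, 10), (25, 1), (81, 1)]), (1, [(0, 10), (25, 1), (81, 1)]), (1, [(0, 10), (25, 1), (81, 1)]), (1, [(0, 10), (25, 1), (81, 1)]), (1, [(0, 10), (25, 1), (81,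 1)]), (1, [(0, 10), (25, 1), (81, 1)]), (0, [(63, 2)]), (0, [(63, 2)]), (0, [(30, 1), (63, 1)]), (2, [(30, 100), (63, 1), (81, 1)]), (0, [(54, 3)]), (1, [(30, 10), (63, 1), (81, 1)]), (2, [(30, 100), (63, 1), (81, 1)]), (0, [(54, 4)]), (1, [(30, 10), (63, 1), (81, 1)]), (1, [(30, 10), (63, 1), (81, 1)]), (0, [(54, 5)]), (0, [(54, 5)]), (0, [(54, 6)]), (0, [(54, 7)]), (0, [(54, 6)]), (0, [(54, 8)]), (1, [(30, 10), (54, 1), (61, 1), (81, 1)]), (1, [(30, 10), (63, 1), (81, 1)]), (0, [(54, 6)]), (0, [(54, 8)]), (0, [(54, 9)]), (0, [(55, 3)]), (0, [(54, 2)]), (0, [(54, 3)]), (1, [(30, 10), (63, 1), (81, 1)]), (1, [(30, 10), (63, 1), (81, 1)]), (3, [(30, 1198), (63, 2)]), (0, [(61, 2)]), (0, [(54, 4)]), (0, [(54, 7)]), (0, [(54, 5)]), (2, [(30, 100), (63, 1), (81, 1)]), (0, [(0, 1), (63, 1)]), (1, [(0, 10), (25, 1), (81, 1)]), (1, [(0, 10), (25, 1), (81, 1)]), (1, [(0, 10), (25, 1), (81, 1)]),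 (0, [(0, 1), (25, 1), (81, 1)]), (1, [(0, 10), (25, 1), (81, 1)]), (0, [(0, 1), (25, 1), (81, 1)]), (1, [(0, 10), (25, 1), (81, 1)]), (1, [(0, 10), (25, 1), (81, 1)]), (1, [(0, 10), (25, 1), (81, 1)]), (0, [(25, 3)]), (1, [(0, 10), (25, 1), (81, 1)]), (0, [(0, 1), (25, 1), (81, 1)]), (0, [(20, 6)]), (1, [(0, 10), (25, 1), (81, 1)]), (0, [(25, 3)]), (0, [(0, 1), (25, 1), (81, 1)]), (0, [(0, 1), (25, 1), (81, 1)]), (0, [(20, 4)]), (1, [(0, 10), (25, 1), (81, 1)]), (1, [(0, 10), (25, 1), (81, 1)]), (1, [(0, 10), (25, 1), (81, 1)]), (3, [(0, 999), (63, 2), (81, 1)]), (0, [(20, 6)]), (0, [(20, 2)]), (0, [(20, 3)]), (1, [(0, 10), (25, 1), (81, 1)]), (0, [(0, 1), (25, 1), (81, 1)]), (0, [(21, 4)]), (0, [(20, 4)]), (0, [(21, 3)]), (0, [(25, 2)]), (1, [(0, 10), (25, 1), (81, 1)]), (0, [(63, 2)]), (0, [(63, 2)]), (0, [(63, 2)]), (0, [(63, 2)]), (0, [(63, 2)]), (0, [(63, 2)]), (0, [(72, 2)]), (0, [(63,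 2)]), (0, [(72, 2)]), (0, [(63, 2)]), (0, [(72, 2)]), (0, [(72, 2)]), (0, [(63, 2)]), (0, [(63, 2)]), (0, [(72, 2)]), (0, [(72, 2)]), (0, [(72, 2)]), (0, [(63, 2)]), (0, [(63, 2)]), (0, [(73, 2)])],
  [(5, [(0, 391), (4, 51719), (15, 47966), (63, 14), (72, 21)]), (4, [(30, 7), (42, 9953), (54, 93), (72, 8)]), (3, [(47, 1001)]), (3, [(31, 473), (42, 524), (54, 8), (72, 1)]), (4, [(42, 9992), (54, 86), (72, 8)]), (4, [(30, 3), (42, 10012), (54, 86), (72, 13)]), (3, [(30, 208), (52, 907), (63, 3), (68, 1)]), (3, [(30, 125), (52, 944), (63, 1), (68, 2)]), (3, [(30, 167), (52, 924), (63, 2), (68, 2)]), (3, [(30, 188), (52, 915), (63, 2), (68, 2)]), (3, [(30, 214), (52, 984), (63, 3), (68, 2)]), (4, [(30, 7), (42, 10028), (54, 92), (72, 8)]), (3, [(47, 1001)]), (4, [(30, 5), (42, 10036), (54, 76), (72, 3)]), (3, [(42, 1006), (54, 8), (72, 1)]), (4, [(30, 8), (42, 2692), (47, 7400), (54, 63), (72,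 15)]), (3, [(30, 1), (47, 895), (54, 5), (57, 115), (72, 2)]), (4, [(30, 13), (47, 7124), (54, 60), (57, 2991), (72, 25)]), (3, [(30, 209), (52, 906), (63, 2), (68, 3)]), (4, [(30, 1509), (52, 9311), (63, 10), (68, 22), (81, 1)]), (3, [(30, 181), (52, 918), (63, 1), (68, 3)]), (4, [(30, 1947), (52, 9111), (63, 13), (68, 31), (81, 1)]), (3, [(30, 202), (52, 908), (63, 2), (68, 4)]), (3, [(30, 205), (52, 906), (63, 2), (68, 4)]), (4, [(0, 207), (4, 4069), (15, 5722), (63, 16), (72, 6)]), (3, [(0, 9), (4, 465), (15, 529), (63, 1)]), (5, [(0, 1337), (4, 39513), (15, 59670), (63, 121), (72, 47)]), (5, [(0, 1599), (4, 30253), (15, 68939), (63, 195), (72, 48)]), (4, [(0, 174), (4, 1917), (15, 8016), (63, 28), (72, 4)]), (4, [(0, 377), (4, 4850), (15, 4908), (63, 9), (72, 14)]), (5, [(0, 2118), (4, 52444), (15, 46195), (63, 44), (72, 45)]), (5, [(0, 2958), (4, 54041), (15, 44075), (63, 63), (72,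 75)]), (3, [(0, 34), (4, 592), (15, 387), (63, 1), (72, 1)]), (4, [(0, 357), (4, 6756), (15, 3015), (63, 9), (72, 12)]), (3, [(0, 20), (4, 106), (15, 901), (63, 3)]), (4, [(0, 193), (4, 3383), (15, 6534), (63, 11), (72, 2)]), (4, [(0, 174), (4, 1667), (15, 8285), (63, 19), (72, 3)]), (3, [(0, 17), (4, 31), (15, 967), (63, 3)]), (3, [(0, 16), (7, 946), (23, 55), (63, 3)]), (4, [(0, 166), (7, 7910), (23, 2117), (63, 26), (81, 7)]), (3, [(0, 17), (7, 632), (23, 372), (63, 3), (81, 1)]), (4, [(0, 382), (4, 7940), (15, 1817), (63, 1), (72, 15)]), (3, [(0, 26), (4, 685), (15, 305), (72, 1)]), (4, [(0, 325), (4, 8291), (15, 1501), (20, 1), (72, 12)]), (4, [(0, 354), (4, 9551), (15, 224), (72, 15)]), (4, [(0, 368), (4, 9762), (64, 4), (72, 15)]), (4, [(0, 375), (4, 9753), (63, 1), (64, 8), (72, 16)]), (1, [(68, 11)]), (2, [(63, 3), (64, 97), (72, 1)]), (0, [(30, 1), (63, 1)]), (4, [(30, 323), (52,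 9881), (63, 4), (68, 17)]), (4, [(31, 9983), (54, 16), (73, 3)]), (4, [(30, 1582), (52, 9290), (63, 20), (68, 11), (81, 3)]), (3, [(30, 209), (52, 905), (63, 1), (68, 5)]), (4, [(47, 10001)]), (4, [(30, 882), (52, 9604), (63, 12), (68, 14), (81, 2)]), (3, [(30, 370), (52, 848), (63, 3), (68, 1), (81, 1)]), (4, [(31, 9849), (54, 247), (72, 6), (73, 8)]), (4, [(30, 2), (42, 9901), (54, 105), (72, 3)]), (3, [(30, 1), (42, 993), (54, 12), (72, 1)]), (4, [(30, 33), (42, 9898), (54, 136), (72, 14)]), (4, [(31, 3707), (42, 6041), (54, 448), (72, 13)]), (4, [(30, 57), (42, 9872), (54, 155), (72, 19)]), (2, [(57, 101)]), (4, [(30, 2168), (52, 9043), (63, 18), (68, 10), (81, 8)]), (4, [(31, 7720), (45, 1873), (54, 685), (55, 11), (73, 23)]), (3, [(30, 7), (42, 963), (54, 56), (72, 2)]), (3, [(30, 10), (42, 875), (54, 227), (72, 3)]), (3, [(48, 896), (54, 22), (55, 175), (73, 3)]), (1, [(30, 10), (54,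 1), (72, 1)]), (0, [(54, 6)]), (3, [(30, 381), (52, 847), (63, 4)]), (2, [(30, 30), (52, 87), (63, 1)]), (3, [(30, 1196), (63, 4)]), (1, [(30, 10), (61, 1), (81, 1)]), (1, [(30, 5), (54, 5), (61, 1), (81, 1)]), (0, [(55, 7)]), (0, [(55, 6)]), (3, [(30, 203), (52, 908), (63, 1), (68, 4)]), (0, [(0, 1), (63, 1)]), (4, [(0, 697), (4, 7315), (15, 2285), (63, 3), (72, 21)]), (3, [(0, 69), (4, 428), (15, 532), (63, 1), (72, 2)]), (4, [(0, 620), (4, 5335), (15, 4305), (63, 11), (72, 15)]), (4, [(0, 769), (4, 4528), (15, 5036), (20, 6), (72, 23)]), (3, [(0, 55), (4, 484), (15, 484), (63, 1), (72, 1)]), (3, [(0, 28), (4, 384), (15, 598), (72, 2)]), (4, [(0, 399), (4, 4691), (15, 5070), (63, 9), (72, 7)]), (4, [(0, 378), (4, 9628), (64, 11), (72, 16)]), (4, [(0, 143), (4, 4371), (15, 5526), (20, 3), (72, 11)]), (3, [(0, 72), (4, 301), (15, 657), (20, 3), (72, 3)]), (3, [(0, 80), (4, 409), (15, 546),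 (63, 2), (72, 1)]), (4, [(0, 1345), (4, 3655), (15, 5625), (63, 21), (72, 25)]), (3, [(17, 959), (18, 58), (20, 81), (80, 1)]), (4, [(0, 740), (4, 3401), (15, 6208), (63, 15), (72, 5)]), (4, [(0, 394), (4, 3555), (15, 6191), (20, 26), (72, 18)]), (3, [(0, 73), (4, 267), (15, 718), (72, 3)]), (3, [(0, 137), (4, 203), (15, 723), (72, 5)]), (2, [(17, 101)]), (3, [(0, 28), (4, 263), (15, 722), (63, 2)]), (3, [(0, 19), (7, 121), (15, 877), (63, 4), (81, 1)]), (4, [(0, 182), (7, 5418), (23, 4597), (63, 22), (81, 11)]), (3, [(0, 352), (24, 845), (63, 3)]), (3, [(18, 934), (20, 149), (21, 3), (73, 1)]), (1, [(0, 10), (20, 1), (72, 1)]), (0, [(20, 6)]), (3, [(0, 23), (4, 35), (15, 957), (63, 3)]), (4, [(0, 540), (7, 4569), (20, 8), (23, 5143), (81, 38)]), (2, [(19, 30), (21, 71), (73, 1), (82, 1)]), (1, [(0, 5), (20, 5), (25, 1), (81, 1)]), (2, [(19, 19), (21, 82), (73, 1), (74, 1)]), (1, [(0, 10),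 (25, 1), (81, 1)]), (4, [(0, 186), (7, 8908), (23, 1071), (63, 25), (81, 4)]), (0, [(63, 2)]), (1, [(68, 11)]), (2, [(63, 3), (64, 97), (72, 1)]), (2, [(63, 6), (64, 95), (72, 1)]), (2, [(63, 9), (64, 94), (72, 1)]), (0, [(63, 2)]), (3, [(67, 1001)]), (3, [(64, 1001)]), (1, [(66, 7), (72, 5)]), (0, [(63, 2)]), (0, [(72, 2)]), (1, [(72, 11)]), (0, [(63, 2)]), (1, [(63, 11)]), (1, [(69, 7), (72, 3), (73, 2)]), (1, [(72, 11)]), (0, [(73, 2)]), (0, [(63, 2)]), (0, [(63, 2)]), (0, [(73, 2)])],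
  [(3, [(0, 4), (4, 449), (15, 548)]), (4, [(31, 9962), (54, 208), (72, 7), (73, 6)]), (3, [(47, 1001)]), (3, [(47, 1001)]), (4, [(31, 9937), (54, 159), (72, 4), (73, 9)]), (4, [(31, 9951), (54, 175), (72, 10), (73, 8)]), (4, [(30, 2276), (52, 8985), (63, 4), (68, 31), (81, 4)]), (4, [(30, 1367), (52, 9386), (68, 21), (81, 2)]), (3, [(30, 183), (52, 918), (68, 3)]), (3, [(30, 223), (52, 984), (68, 4)]), (3, [(30, 217), (52, 903), (68, 4)]), (4, [(31, 9956), (54, 205), (72, 7), (73, 6)]), (3, [(47, 1001)]), (2, [(47, 101)]), (4, [(31, 9995), (54, 176), (72, 7), (73, 7)]), (4, [(31, 9359), (45, 658), (54, 183), (72, 13), (73, 7)]), (3, [(31, 601), (45, 403), (54, 19), (72, 3)]), (3, [(31, 259), (45, 746), (54, 20), (72, 4)]), (3, [(30, 249), (52, 980), (68, 4)]), (3, [(30, 165), (52, 925), (68, 3)]), (4, [(30, 1972), (52, 9109), (68, 32), (81, 4)]), (3, [(30, 213), (52, 904), (68, 4)]), (3,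 [(30, 240), (52, 980), (68, 5)]), (3, [(30, 224), (52, 898), (68, 5)]), (4, [(0, 239), (4, 8760), (15, 1095), (20, 8), (72, 6)]), (3, [(0, 10), (4, 677), (15, 315)]), (5, [(0, 1552), (4, 86353), (15, 12760), (20, 96), (72, 10)]), (4, [(0, 188), (4, 7689), (15, 2222), (20, 6), (72, 8)]), (3, [(0, 21), (4, 656), (15, 336), (72, 2)]), (4, [(0, 418), (4, 9466), (15, 272), (20, 17), (72, 7)]), (2, [(0, 2), (4, 69), (15, 30)]), (2, [(0, 3), (4, 92), (15, 6)]), (4, [(0, 373), (4, 9767), (20, 13), (72, 4)]), (3, [(0, 40), (4, 975), (20, 1), (72, 1)]), (4, [(0, 237), (4, 5680), (15, 4248), (20, 4), (72, 13)]), (0, [(29, 1)]), (4, [(0, 203), (4, 6316), (15, 3626), (20, 5), (72, 6)]), (4, [(0, 210), (4, 5014), (15, 5100), (20, 1), (72, 15)]), (4, [(0, 213), (4, 3643), (15, 6345), (63, 5), (72, 18)]), (4, [(0, 216), (4, 2338), (15, 7676), (63, 14), (72, 18)]), (4, [(0, 216), (4, 1008), (15, 9033), (63,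 23), (72, 18)]), (4, [(0, 418), (4, 9735), (20, 17), (72, 7)]), (3, [(0, 29), (4, 920), (15, 61), (20, 1)]), (4, [(0, 355), (4, 9773), (20, 16), (72, 4)]), (3, [(0, 39), (4, 975), (20, 1), (72, 1)]), (4, [(0, 402), (4, 9741), (20, 12), (72, 15)]), (3, [(0, 41), (4, 973), (20, 1), (72, 2)]), (1, [(68, 11)]), (2, [(63, 3), (64, 96), (72, 3)]), (0, [(30, 1), (63, 1)]), (4, [(30, 361), (52, 9864), (68, 15), (81, 1)]), (4, [(31, 8040), (45, 1940), (54, 26), (55, 4)]), (4, [(30, 1736), (52, 9223), (68, 22), (81, 7)]), (2, [(30, 23), (52, 90), (68, 1)]), (4, [(31, 9911), (54, 130), (55, 18), (73, 3)]), (4, [(30, 973), (52, 9562), (68, 17), (81, 5)]), (3, [(30, 401), (52, 838), (68, 2), (81, 2)]), (4, [(31, 9827), (54, 275), (55, 18), (73, 9)]), (4, [(47, 10001)]), (4, [(31, 9847), (54, 267), (72, 7), (73, 7)]), (4, [(31, 3273), (42, 6520), (54, 374), (72, 13)]), (4, [(31, 9689), (54, 529), (55,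 17), (73, 14)]), (4, [(30, 18), (42, 9762), (54, 422), (72, 15)]), (2, [(47, 101)]), (3, [(30, 237), (52, 897), (68, 1), (81, 2)]), (3, [(31, 954), (54, 73), (55, 8), (73, 2)]), (3, [(31, 941), (54, 106), (73, 3)]), (3, [(31, 846), (54, 302), (55, 7), (73, 4)]), (3, [(53, 871), (55, 302), (73, 2)]), (1, [(30, 10), (54, 1), (72, 1)]), (0, [(54, 5)]), (4, [(30, 3298), (52, 6669), (63, 13), (68, 15), (81, 6)]), (2, [(30, 32), (52, 87), (63, 1)]), (3, [(30, 1196), (63, 3)]), (1, [(30, 10), (61, 1), (81, 1)]), (0, [(54, 6)]), (0, [(55, 7)]), (0, [(55, 5)]), (3, [(30, 242), (52, 982), (68, 5)]), (0, [(0, 1), (63, 1)]), (4, [(0, 760), (4, 9565), (20, 21), (72, 14)]), (4, [(0, 760), (4, 8800), (15, 766), (20, 20), (72, 15)]), (3, [(0, 68), (4, 961), (20, 1), (72, 1)]), (3, [(0, 84), (4, 903), (15, 50), (20, 4), (72, 1)]), (3, [(0, 60), (4, 941), (15, 24), (20, 1), (72, 1)]), (4, [(0, 305), (4, 8464),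 (15, 1338), (20, 32), (72, 2)]), (2, [(0, 4), (4, 93), (15, 4)]), (4, [(0, 417), (4, 9737), (20, 9), (72, 22)]), (3, [(0, 15), (4, 682), (15, 305), (20, 2)]), (3, [(0, 77), (4, 748), (15, 205), (20, 11), (72, 1)]), (4, [(0, 880), (4, 8588), (15, 934), (20, 9), (72, 14)]), (3, [(0, 147), (4, 799), (15, 123), (20, 2), (72, 3)]), (2, [(18, 101)]), (4, [(0, 817), (4, 7909), (15, 1669), (20, 8), (72, 4)]), (4, [(0, 423), (4, 8127), (15, 1584), (20, 85), (72, 3)]), (3, [(0, 77), (4, 708), (15, 247), (20, 4), (72, 2)]), (3, [(0, 149), (4, 634), (15, 287), (20, 4), (72, 3)]), (2, [(17, 101)]), (4, [(0, 325), (4, 7343), (15, 2623), (20, 7), (72, 4)]), (3, [(0, 23), (4, 443), (15, 537), (63, 2), (72, 2)]), (4, [(0, 222), (4, 263), (15, 9762), (63, 24), (72, 17)]), (3, [(0, 380), (24, 818), (63, 2)]), (3, [(18, 1001)]), (1, [(0, 10), (20, 1), (72, 1)]), (0, [(20, 5)]), (4, [(0, 267), (4, 4952), (15,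 4955), (20, 2), (72, 15)]), (4, [(0, 585), (7, 9612), (15, 128), (20, 14), (72, 44)]), (2, [(19, 28), (21, 73), (73, 1), (82, 1)]), (0, [(20, 6)]), (2, [(19, 18), (21, 83), (73, 1), (74, 1)]), (1, [(0, 10), (25, 1), (81, 1)]), (4, [(0, 242), (4, 3194), (15, 6760), (63, 6), (72, 18)]), (0, [(63, 2)]), (1, [(68, 11)]), (2, [(63, 3), (64, 96), (72, 3)]), (2, [(63, 7), (64, 94), (72, 4)]), (2, [(63, 9), (64, 92), (72, 4)]), (0, [(63, 2)]), (3, [(67, 1001)]), (3, [(64, 1001)]), (1, [(65, 6), (72, 5), (73, 1)]), (0, [(63, 2)]), (0, [(72, 2)]), (1, [(72, 11)]), (0, [(63, 2)]), (1, [(63, 11)]), (1, [(69, 5), (72, 2), (73, 4)]), (1, [(72, 11)]), (0, [(73, 2)]), (0, [(72, 2)]), (0, [(63, 2)]), (0, [(73, 2)])],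
  [(4, [(0, 66), (7, 2686), (15, 5096), (22, 2220), (63, 8)]), (4, [(30, 38), (47, 9875), (54, 73), (57, 124), (72, 5)]), (2, [(47, 101)]), (2, [(47, 101)]), (4, [(30, 27), (47, 8402), (54, 70), (57, 1619), (72, 5)]), (3, [(30, 3), (47, 688), (54, 7), (57, 314), (72, 1)]), (3, [(30, 324), (52, 866), (63, 4)]), (3, [(30, 215), (52, 993), (63, 3)]), (3, [(30, 263), (52, 890), (63, 3)]), (3, [(30, 294), (52, 880), (63, 4)]), (3, [(30, 308), (52, 875), (63, 4)]), (3, [(57, 1001)]), (2, [(47, 101)]), (2, [(47, 101)]), (3, [(57, 1001)]), (4, [(30, 38), (47, 2890), (54, 82), (57, 7151), (72, 7)]), (3, [(30, 4), (47, 111), (54, 8), (57, 907), (72, 1)]), (4, [(30, 43), (54, 88), (57, 10048), (72, 13), (81, 3)]), (3, [(30, 324), (52, 870), (63, 4), (68, 1)]), (3, [(30, 237), (52, 903), (63, 3)]), (3, [(30, 282), (52, 885), (63, 3), (68, 1)]), (3, [(30, 303), (52, 877), (63, 3), (68, 1)]), (3, [(30,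 353), (52, 984), (63, 4), (68, 2)]), (3, [(30, 318), (52, 870), (63, 4), (68, 2)]), (4, [(0, 335), (7, 8676), (23, 1176), (63, 12), (81, 8)]), (3, [(0, 14), (7, 934), (23, 62), (63, 1)]), (4, [(0, 215), (7, 8513), (23, 1412), (63, 8), (81, 5)]), (4, [(0, 265), (7, 7412), (23, 2494), (63, 8), (81, 8)]), (3, [(0, 30), (7, 609), (23, 381), (63, 1), (81, 1)]), (4, [(0, 599), (7, 9625), (23, 78), (81, 24)]), (4, [(0, 336), (7, 7563), (15, 2295), (63, 11), (81, 1)]), (3, [(0, 48), (7, 225), (15, 752), (63, 1), (81, 1)]), (4, [(0, 551), (4, 313), (15, 9413), (63, 19), (72, 8)]), (3, [(0, 58), (4, 113), (15, 857), (63, 2), (72, 1)]), (3, [(23, 1001)]), (3, [(0, 31), (7, 778), (23, 212), (63, 1)]), (3, [(23, 1001)]), (3, [(23, 1001)]), (3, [(0, 32), (7, 267), (23, 747), (81, 1)]), (4, [(0, 330), (7, 1063), (20, 1), (23, 8878), (81, 14)]), (3, [(0, 34), (23, 995), (81, 2)]), (4, [(0, 620), (4, 2283),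 (15, 7405), (63, 11), (72, 13)]), (3, [(0, 44), (4, 114), (15, 865), (63, 1), (72, 1)]), (3, [(0, 53), (4, 261), (15, 713), (63, 1), (72, 1)]), (4, [(0, 576), (4, 3833), (15, 5879), (63, 11), (72, 13)]), (4, [(0, 598), (4, 5047), (15, 4651), (63, 12), (72, 14)]), (4, [(0, 608), (4, 6307), (15, 3385), (63, 14), (72, 15)]), (1, [(68, 11)]), (2, [(63, 5), (64, 95), (81, 1)]), (0, [(30, 1), (63, 1)]), (3, [(30, 55), (52, 980), (63, 2)]), (2, [(47, 101)]), (3, [(30, 250), (52, 891), (63, 3)]), (3, [(30, 324), (52, 869), (63, 4), (68, 2)]), (2, [(47, 101)]), (4, [(30, 1432), (52, 9367), (63, 21), (81, 2)]), (3, [(30, 416), (52, 582), (63, 3), (81, 1)]), (3, [(47, 1001)]), (2, [(47, 101)]), (3, [(30, 5), (47, 893), (54, 10), (57, 104), (72, 1)]), (3, [(30, 8), (47, 922), (54, 12), (57, 81), (72, 1)]), (3, [(30, 6), (47, 865), (54, 45), (57, 112), (72, 1)]), (3, [(30, 12), (47, 816), (54, 14), (57,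 172), (72, 2)]), (2, [(57, 101)]), (4, [(30, 3381), (52, 8584), (63, 26), (81, 8)]), (3, [(47, 806), (54, 107), (57, 142), (73, 1)]), (3, [(30, 18), (47, 783), (54, 56), (57, 177), (72, 2)]), (2, [(30, 4), (47, 54), (54, 24), (57, 33), (72, 1)]), (2, [(43, 40), (48, 42), (54, 5), (55, 17), (73, 1)]), (1, [(30, 10), (54, 1), (72, 1)]), (0, [(54, 5)]), (3, [(30, 509), (52, 687), (63, 4)]), (2, [(30, 43), (52, 76), (63, 1)]), (3, [(30, 1197), (63, 3)]), (1, [(30, 10), (61, 1), (81, 1)]), (1, [(30, 6), (54, 4), (61, 1), (81, 1)]), (0, [(55, 7)]), (0, [(55, 5)]), (3, [(30, 315), (52, 873), (63, 3), (68, 2)]), (0, [(0, 1), (63, 1)]), (3, [(0, 111), (4, 175), (15, 770), (63, 1), (72, 2)]), (3, [(0, 109), (7, 886), (23, 60), (81, 3)]), (4, [(0, 1003), (15, 9505), (63, 4), (72, 3), (81, 27)]), (3, [(0, 126), (7, 952), (20, 1), (23, 36), (81, 2)]), (3, [(0, 84), (7, 917), (23, 8), (63, 1), (81, 2)]),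 (4, [(0, 442), (7, 8374), (20, 9), (23, 1411), (81, 14)]), (3, [(0, 63), (7, 931), (23, 39), (63, 1), (81, 1)]), (4, [(0, 621), (4, 7649), (15, 2046), (63, 12), (72, 16)]), (4, [(0, 223), (7, 9043), (20, 5), (23, 862), (81, 9)]), (3, [(0, 114), (7, 724), (20, 4), (23, 218), (81, 2)]), (3, [(0, 126), (7, 850), (23, 89), (63, 1), (81, 2)]), (3, [(0, 210), (7, 799), (23, 102), (81, 4)]), (3, [(13, 51), (17, 894), (20, 126), (72, 1)]), (3, [(0, 112), (7, 726), (23, 174), (63, 1), (81, 1)]), (4, [(0, 625), (7, 7980), (20, 33), (23, 1696), (81, 14)]), (4, [(0, 1114), (7, 6801), (20, 15), (23, 2637), (81, 24)]), (3, [(0, 231), (7, 652), (20, 1), (23, 319), (81, 4)]), (2, [(17, 101)]), (4, [(0, 462), (7, 6870), (23, 2929), (63, 4), (81, 7)]), (4, [(0, 342), (7, 3670), (23, 6251), (63, 9), (81, 16)]), (3, [(0, 35), (23, 991), (81, 2)]), (3, [(0, 504), (24, 693), (63, 2)]), (3, [(18, 1001)]), (1,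 [(0, 10), (20, 1), (72, 1)]), (0, [(20, 5)]), (3, [(23, 1001)]), (4, [(0, 894), (23, 9506), (25, 28), (81, 25)]), (2, [(19, 21), (21, 80), (73, 1), (74, 1)]), (1, [(0, 6), (20, 4), (25, 1), (81, 1)]), (0, [(21, 5)]), (1, [(0, 10), (25, 1), (81, 1)]), (3, [(0, 36), (7, 207), (23, 781), (81, 1)]), (0, [(63, 2)]), (1, [(68, 11)]), (2, [(63, 5), (64, 95), (81, 1)]), (2, [(63, 11), (64, 93), (72, 1), (81, 2)]), (2, [(63, 14), (64, 91), (72, 1), (81, 2)]), (0, [(63, 2)]), (1, [(67, 9), (72, 2)]), (1, [(63, 2), (64, 9)]), (2, [(72, 101)]), (0, [(63, 2)]), (0, [(72, 2)]), (1, [(72, 11)]), (0, [(63, 2)]), (0, [(63, 2)]), (1, [(69, 5), (72, 4), (73, 2)]), (0, [(72, 2)]), (0, [(73, 2)]), (0, [(63, 2)]), (0, [(63, 2)]), (0, [(73, 2)])],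
  [(4, [(0, 29), (4, 2905), (15, 7211), (63, 29)]), (3, [(30, 1), (42, 1003), (54, 7), (72, 3)]), (3, [(31, 542), (32, 247), (42, 215), (54, 5), (72, 3)]), (4, [(31, 104), (42, 9954), (54, 63), (72, 24)]), (3, [(42, 994), (54, 6), (72, 3)]), (3, [(30, 1), (42, 634), (47, 376), (54, 5), (72, 4)]), (2, [(30, 22), (52, 91), (63, 1)]), (3, [(30, 132), (52, 948), (63, 4), (68, 1)]), (2, [(30, 19), (52, 100), (63, 1)]), (2, [(30, 20), (52, 92), (63, 1)]), (2, [(30, 21), (52, 91), (63, 1)]), (3, [(30, 1), (42, 126), (47, 885), (54, 4), (72, 3)]), (4, [(30, 15), (42, 10089), (54, 42), (72, 18)]), (3, [(30, 1), (42, 494), (47, 533), (54, 4), (72, 3)]), (3, [(30, 1), (47, 940), (54, 3), (57, 74), (72, 3)]), (4, [(30, 16), (47, 7619), (54, 41), (57, 2523), (72, 35)]), (3, [(30, 2), (47, 582), (54, 4), (57, 433), (72, 4)]), (4, [(30, 20), (47, 3975), (54, 47), (57, 6178), (72, 44)]), (2, [(30, 24),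 (52, 100), (63, 1)]), (3, [(30, 172), (52, 1004), (63, 5), (68, 1)]), (3, [(30, 191), (52, 921), (63, 4), (68, 2)]), (3, [(30, 207), (52, 914), (63, 5), (68, 2)]), (2, [(30, 23), (52, 100), (63, 1)]), (2, [(30, 24), (52, 100), (63, 1)]), (4, [(0, 210), (4, 1838), (15, 8093), (63, 44), (72, 4)]), (4, [(0, 86), (4, 2367), (15, 7636), (63, 34), (72, 2)]), (4, [(0, 129), (4, 1657), (15, 8204), (63, 40), (72, 3)]), (3, [(0, 16), (4, 76), (15, 923), (63, 5)]), (4, [(0, 160), (7, 6692), (15, 3323), (63, 51), (81, 3)]), (3, [(0, 39), (4, 261), (15, 721), (63, 4), (72, 1)]), (4, [(0, 216), (4, 3018), (15, 7048), (63, 32), (72, 2)]), (4, [(0, 304), (4, 3147), (15, 6726), (63, 35), (72, 5)]), (4, [(0, 347), (4, 3664), (15, 6182), (63, 36), (72, 8)]), (3, [(0, 37), (4, 450), (15, 533), (63, 4), (72, 1)]), (4, [(0, 186), (7, 9161), (23, 859), (63, 43), (81, 3)]), (3, [(0, 19), (4, 111), (15, 887), (63,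 4)]), (3, [(0, 15), (7, 807), (15, 67), (22, 113), (63, 5)]), (4, [(0, 159), (7, 8271), (23, 1779), (63, 41), (81, 2)]), (4, [(0, 169), (7, 6728), (23, 3330), (63, 40), (81, 6)]), (3, [(0, 17), (7, 505), (23, 479), (63, 4), (81, 1)]), (3, [(0, 19), (7, 357), (23, 651), (63, 4), (81, 1)]), (4, [(0, 395), (4, 5683), (15, 4134), (63, 30), (72, 13)]), (3, [(0, 27), (4, 453), (15, 536), (63, 3), (72, 1)]), (3, [(0, 33), (4, 603), (15, 383), (63, 3), (72, 1)]), (3, [(0, 37), (4, 728), (15, 255), (63, 3), (72, 1)]), (4, [(0, 380), (4, 8530), (15, 1294), (63, 30), (72, 13)]), (4, [(0, 386), (4, 9818), (63, 31), (72, 14)]), (1, [(68, 11)]), (3, [(64, 1001)]), (0, [(30, 1), (63, 1)]), (4, [(30, 334), (52, 9949), (63, 34), (68, 8)]), (3, [(31, 740), (45, 266), (54, 1), (72, 3)]), (2, [(30, 17), (52, 93), (63, 1)]), (2, [(30, 24), (52, 100), (63, 1)]), (4, [(31, 5395), (45, 4586), (54, 124), (72, 30),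 (73, 5)]), (3, [(30, 93), (52, 966), (63, 4), (68, 1)]), (2, [(30, 39), (52, 85), (63, 1)]), (3, [(31, 374), (32, 162), (45, 454), (54, 26), (72, 4)]), (4, [(30, 6), (42, 10026), (54, 84), (72, 24)]), (4, [(30, 18), (42, 10010), (54, 98), (72, 29)]), (4, [(30, 41), (42, 9976), (54, 112), (72, 34)]), (3, [(30, 1), (42, 984), (54, 40), (72, 3)]), (3, [(30, 6), (42, 1009), (54, 13), (72, 4)]), (3, [(30, 86), (47, 97), (54, 3), (57, 881), (72, 3)]), (2, [(30, 23), (52, 91), (63, 1)]), (3, [(31, 209), (45, 754), (54, 74), (72, 2), (73, 3)]), (3, [(30, 9), (42, 972), (54, 50), (72, 4)]), (2, [(30, 2), (42, 31), (47, 58), (54, 21), (72, 1)]), (2, [(43, 9), (48, 81), (54, 3), (55, 16), (73, 1)]), (1, [(30, 10), (54, 1), (72, 1)]), (0, [(54, 10)]), (2, [(30, 39), (52, 81), (63, 1)]), (2, [(30, 32), (52, 86), (63, 1)]), (2, [(30, 119), (63, 1)]), (1, [(30, 10), (61, 1), (81, 1)]), (1, [(30, 5), (54,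 5), (61, 1), (81, 1)]), (0, [(55, 10)]), (0, [(55, 9)]), (3, [(30, 215), (52, 911), (63, 5), (68, 3)]), (0, [(0, 1), (63, 1)]), (4, [(0, 731), (4, 5093), (15, 4558), (63, 32), (72, 18)]), (4, [(0, 726), (4, 2076), (15, 7575), (63, 41), (72, 16)]), (3, [(0, 65), (4, 312), (15, 658), (63, 4), (72, 1)]), (3, [(0, 81), (4, 233), (15, 728), (63, 2), (72, 3)]), (4, [(0, 573), (4, 2611), (15, 7125), (63, 39), (72, 9)]), (4, [(0, 289), (4, 1586), (15, 8298), (63, 23), (72, 21)]), (4, [(0, 414), (4, 2449), (15, 7372), (63, 37), (72, 5)]), (4, [(0, 396), (4, 9820), (63, 29), (64, 5), (72, 15)]), (4, [(0, 143), (4, 2100), (15, 7864), (63, 23), (72, 14)]), (3, [(0, 77), (4, 81), (15, 881), (20, 1), (72, 5)]), (4, [(0, 839), (4, 1899), (15, 7707), (63, 49), (72, 7)]), (2, [(0, 14), (4, 15), (15, 78), (63, 1)]), (3, [(17, 1019), (20, 87), (72, 2), (80, 1)]), (3, [(0, 81), (4, 124), (15, 877), (63, 5)]),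 (4, [(0, 424), (4, 1321), (15, 8485), (20, 9), (72, 45)]), (3, [(0, 74), (4, 41), (15, 924), (63, 3), (72, 3)]), (3, [(0, 145), (15, 930), (63, 2), (72, 4), (81, 1)]), (3, [(17, 939), (18, 66), (20, 19), (72, 2)]), (4, [(0, 291), (4, 376), (15, 9537), (63, 45), (72, 2)]), (4, [(0, 182), (7, 7763), (23, 2287), (63, 54), (81, 5)]), (3, [(0, 20), (7, 273), (23, 756), (63, 4), (81, 1)]), (2, [(0, 37), (24, 83), (63, 1)]), (3, [(18, 939), (20, 159), (72, 3), (73, 1)]), (1, [(0, 10), (20, 1), (72, 1)]), (0, [(20, 10)]), (4, [(0, 217), (7, 8273), (23, 1719), (63, 41), (81, 3)]), (3, [(0, 60), (7, 206), (23, 796), (81, 6)]), (2, [(19, 28), (21, 72), (73, 1)]), (1, [(0, 5), (20, 5), (25, 1), (81, 1)]), (2, [(19, 18), (21, 83), (73, 1), (74, 1)]), (1, [(0, 10), (25, 1), (81, 1)]), (4, [(0, 200), (7, 6182), (23, 3837), (63, 38), (81, 7)]), (0, [(63, 2)]), (1, [(68, 11)]), (3, [(64, 1001)]), (3, [(64,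 1001)]), (3, [(64, 1001)]), (0, [(63, 2)]), (2, [(67, 101)]), (3, [(64, 1001)]), (1, [(66, 7), (72, 5)]), (0, [(63, 2)]), (0, [(72, 2)]), (1, [(72, 11)]), (0, [(63, 2)]), (1, [(63, 11)]), (1, [(69, 6), (72, 3), (73, 2)]), (1, [(72, 11)]), (0, [(73, 2)]), (0, [(63, 2)]), (0, [(63, 2)]), (0, [(73, 2)])],
  [(1, [(0, 2), (20, 5), (25, 4), (81, 1)]), (1, [(54, 5), (55, 4), (59, 2), (80, 1)]), (1, [(54, 3), (55, 5), (59, 3), (80, 1)]), (1, [(54, 4), (55, 5), (59, 3), (80, 1)]), (1, [(54, 5), (55, 4), (59, 2), (80, 1)]), (1, [(54, 5), (55, 4), (59, 2), (80, 1)]), (1, [(30, 10), (61, 1), (81, 1)]), (1, [(30, 10), (61, 1), (81, 1)]), (1, [(30, 10), (61, 1), (81, 1)]), (1, [(30, 10), (61, 1), (81, 1)]), (1, [(30, 10), (61, 1), (81, 1)]), (1, [(54, 5), (55, 4), (59, 2), (80, 1)]), (1, [(54, 6), (55, 3), (59, 3), (80, 1)]), (1, [(54, 5), (55, 4), (59, 2), (80, 1)]), (1, [(54, 5), (55, 4), (59, 2),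 (80, 1)]), (1, [(54, 5), (55, 4), (59, 2), (80, 1)]), (1, [(54, 5), (55, 4), (59, 2), (80, 1)]), (1, [(54, 5), (55, 4), (59, 2), (80, 1)]), (1, [(30, 10), (61, 1), (81, 1)]), (1, [(30, 10), (61, 1), (81, 1)]), (1, [(30, 10), (61, 1), (81, 1)]), (1, [(30, 10), (61, 1), (81, 1)]), (1, [(30, 10), (61, 1), (81, 1)]), (1, [(30, 10), (61, 1), (81, 1)]), (1, [(0, 5), (20, 4), (25, 2), (81, 1)]), (1, [(0, 3), (20, 5), (25, 3), (81, 1)]), (1, [(0, 4), (20, 5), (25, 3), (81, 1)]), (1, [(0, 5), (20, 4), (25, 2), (81, 1)]), (1, [(0, 5), (20, 4), (25, 2), (81, 1)]), (1, [(0, 5), (20, 5), (25, 1), (81, 1)]), (1, [(0, 6), (20, 4), (25, 2), (81, 1)]), (1, [(0, 6), (20, 4), (25, 2), (81, 1)]), (1, [(0, 6), (20, 4), (25, 2), (81, 1)]), (1, [(0, 6), (20, 4), (25, 2), (81, 1)]), (1, [(0, 5), (20, 4), (25, 2), (81, 1)]), (1, [(0, 6), (20, 3), (25, 2), (81, 1)]), (1, [(0, 5), (20, 4), (25, 2), (81, 1)]), (1,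 [(0, 5), (20, 4), (25, 2), (81, 1)]), (1, [(0, 5), (20, 4), (25, 2), (81, 1)]), (1, [(0, 5), (20, 4), (25, 2), (81, 1)]), (1, [(0, 5), (20, 4), (25, 2), (81, 1)]), (1, [(0, 5), (20, 5), (25, 1), (81, 1)]), (1, [(0, 4), (20, 5), (25, 2), (81, 1)]), (1, [(0, 5), (20, 5), (25, 2), (81, 1)]), (1, [(0, 5), (20, 5), (25, 2), (81, 1)]), (1, [(0, 5), (20, 5), (25, 2), (81, 1)]), (1, [(0, 5), (20, 5), (25, 1), (81, 1)]), (0, [(63, 2)]), (0, [(72, 2)]), (0, [(30, 1), (63, 1)]), (1, [(30, 10), (61, 1), (81, 1)]), (1, [(54, 2), (55, 5), (59, 5), (80, 1)]), (1, [(30, 10), (61, 1), (81, 1)]), (1, [(30, 10), (61, 1), (81, 1)]), (0, [(55, 3)]), (1, [(30, 10), (61, 1), (81, 1)]), (0, [(30, 1), (61, 1), (81, 1)]), (0, [(55, 4)]), (1, [(54, 5), (55, 5), (59, 2), (80, 1)]), (1, [(54, 5), (55, 4), (59, 2), (80, 1)]), (1, [(54, 6), (55, 4), (59, 2), (80, 1)]), (0, [(55, 5)]), (0, [(54, 9)]), (0, [(54, 6)]), (0,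 [(30, 1), (61, 1), (81, 1)]), (0, [(55, 5)]), (0, [(55, 6)]), (0, [(55, 7)]), (0, [(55, 3)]), (0, [(54, 3)]), (0, [(55, 2)]), (1, [(30, 10), (61, 1), (81, 1)]), (1, [(30, 10), (61, 1), (81, 1)]), (3, [(30, 999), (63, 2), (81, 1)]), (0, [(54, 4)]), (0, [(54, 4)]), (0, [(55, 5)]), (0, [(55, 4)]), (1, [(30, 10), (61, 1), (81, 1)]), (0, [(0, 1), (63, 1)]), (1, [(0, 6), (20, 4), (25, 1), (81, 1)]), (1, [(0, 6), (20, 4), (25, 1), (81, 1)]), (1, [(0, 7), (20, 4), (25, 1), (81, 1)]), (0, [(20, 6)]), (1, [(0, 7), (20, 3), (25, 1), (81, 1)]), (0, [(20, 5)]), (1, [(0, 7), (20, 3), (25, 2), (81, 1)]), (1, [(0, 5), (20, 5), (25, 1), (81, 1)]), (0, [(20, 4)]), (0, [(20, 6)]), (1, [(0, 8), (20, 3), (25, 1), (81, 1)]), (1, [(0, 7), (20, 3), (25, 1), (81, 1)]), (0, [(21, 4)]), (1, [(0, 8), (20, 2), (25, 1), (81, 1)]), (0, [(20, 5)]), (0, [(20, 7)]), (0, [(20, 9)]), (0, [(21, 3)]), (1, [(0, 6), (20, 3), (25,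 2), (81, 1)]), (1, [(0, 5), (20, 4), (25, 2), (81, 1)]), (1, [(0, 5), (20, 4), (25, 2), (81, 1)]), (2, [(0, 100), (63, 1), (81, 1)]), (0, [(21, 4)]), (0, [(20, 3)]), (0, [(21, 2)]), (1, [(0, 6), (20, 4), (25, 2), (81, 1)]), (1, [(0, 5), (20, 6), (25, 1), (81, 1)]), (0, [(21, 4)]), (0, [(20, 4)]), (0, [(21, 4)]), (0, [(20, 4)]), (1, [(0, 5), (20, 4), (25, 2), (81, 1)]), (0, [(63, 2)]), (0, [(63, 2)]), (0, [(72, 2)]), (0, [(72, 2)]), (0, [(72, 2)]), (0, [(63, 2)]), (0, [(73, 2)]), (0, [(72, 2)]), (0, [(73, 2)]), (0, [(72, 2)]), (0, [(73, 2)]), (0, [(73, 2)]), (0, [(63, 2)]), (0, [(72, 2)]), (0, [(73, 2)]), (0, [(73, 2)]), (0, [(73, 2)]), (0, [(72, 2)]), (0, [(63, 2)]), (0, [(73, 2)])],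
  [(3, [(0, 730), (23, 1), (24, 269), (25, 1), (81, 2)]), (3, [(30, 600), (52, 324), (61, 73), (81, 4)]), (3, [(30, 521), (52, 573), (61, 103), (81, 3)]), (3, [(30, 610), (52, 487), (61, 99), (81, 4)]), (3, [(30, 658), (52, 443), (61, 94), (81, 4)]), (3, [(30, 684), (52, 420), (61, 91), (81, 5)]), (3, [(30, 997), (52, 1), (63, 4), (81, 1)]), (3, [(30, 1197), (63, 3)]), (3, [(30, 998), (52, 1), (63, 3), (81, 1)]), (3, [(30, 997), (52, 1), (63, 4), (81, 1)]), (3, [(30, 997), (52, 1), (63, 4), (81, 1)]), (3, [(30, 718), (52, 391), (61, 87), (81, 4)]), (3, [(30, 717), (52, 414), (61, 66), (81, 3)]), (3, [(30, 685), (52, 430), (61, 82), (81, 4)]), (3, [(30, 686), (52, 423), (61, 87), (81, 4)]), (3, [(30, 694), (52, 414), (61, 87), (81, 5)]), (2, [(30, 70), (52, 41), (61, 9), (81, 1)]), (2, [(30, 59), (52, 34), (61, 7), (81, 1)]), (3, [(30, 997), (52, 1), (63, 4), (81, 1)]), (3, [(30, 998), (52,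 1), (63, 3), (81, 1)]), (3, [(30, 997), (52, 1), (63, 4), (81, 1)]), (3, [(30, 997), (52, 1), (63, 4), (81, 1)]), (2, [(30, 119), (63, 1)]), (2, [(30, 119), (63, 1)]), (3, [(0, 905), (24, 93), (63, 2), (68, 1), (81, 2)]), (3, [(0, 830), (23, 1), (24, 168), (25, 1), (81, 3)]), (3, [(0, 868), (24, 130), (63, 1), (68, 1), (81, 3)]), (3, [(0, 885), (24, 112), (63, 2), (68, 1), (81, 3)]), (3, [(0, 893), (24, 104), (63, 2), (68, 1), (81, 3)]), (3, [(0, 940), (24, 57), (63, 2), (81, 2)]), (3, [(0, 905), (24, 94), (63, 1), (68, 1), (81, 2)]), (3, [(0, 927), (24, 71), (63, 2), (68, 1), (81, 2)]), (3, [(0, 934), (24, 63), (63, 2), (81, 2)]), (3, [(0, 937), (24, 60), (63, 3), (68, 1), (81, 2)]), (3, [(0, 904), (24, 94), (63, 2), (68, 1), (81, 2)]), (3, [(0, 899), (24, 100), (63, 1), (68, 1), (81, 2)]), (3, [(0, 892), (24, 106), (63, 2), (68, 1), (81, 2)]), (3, [(0, 893), (24, 104), (63, 2), (68, 1),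 (81, 2)]), (3, [(0, 896), (24, 101), (63, 2), (68, 1), (81, 2)]), (3, [(0, 898), (24, 99), (63, 3), (68, 1), (81, 2)]), (3, [(0, 899), (24, 97), (63, 4), (68, 1), (81, 2)]), (3, [(0, 940), (24, 57), (63, 2), (81, 2)]), (3, [(0, 920), (24, 78), (63, 1), (68, 1), (81, 3)]), (3, [(0, 932), (24, 66), (63, 2), (68, 1), (81, 3)]), (3, [(0, 936), (24, 61), (63, 2), (68, 1), (81, 3)]), (3, [(0, 937), (24, 59), (63, 3), (81, 2)]), (3, [(0, 938), (24, 58), (63, 3), (68, 1), (81, 3)]), (0, [(63, 2)]), (0, [(63, 2)]), (0, [(30, 1), (63, 1)]), (3, [(30, 1198), (63, 2)]), (3, [(30, 302), (52, 615), (61, 82), (81, 2)]), (3, [(30, 998), (52, 1), (63, 3), (81, 1)]), (2, [(30, 119), (63, 1)]), (3, [(30, 535), (52, 450), (61, 212), (81, 3)]), (3, [(30, 998), (52, 1), (63, 3), (81, 1)]), (3, [(30, 997), (52, 1), (63, 4), (81, 1)]), (3, [(30, 575), (52, 258), (61, 165), (81, 3)]), (3, [(30, 686), (52, 410),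 (61, 100), (81, 4)]), (3, [(30, 769), (52, 335), (61, 92), (81, 4)]), (3, [(30, 719), (52, 213), (57, 1), (61, 65), (81, 5)]), (3, [(30, 687), (52, 166), (61, 144), (81, 4)]), (2, [(30, 93), (52, 20), (61, 7), (81, 1)]), (3, [(30, 968), (52, 27), (57, 1), (61, 4), (81, 4)]), (3, [(30, 998), (52, 1), (63, 3), (81, 1)]), (3, [(30, 623), (52, 112), (57, 1), (61, 263), (81, 4)]), (2, [(30, 96), (52, 11), (61, 12), (81, 1)]), (2, [(30, 82), (52, 3), (61, 15), (81, 1)]), (0, [(54, 6)]), (0, [(30, 1), (54, 1), (72, 1)]), (0, [(54, 4)]), (3, [(30, 997), (52, 1), (63, 4), (81, 1)]), (2, [(30, 119), (63, 1)]), (3, [(30, 1197), (63, 3)]), (0, [(61, 3)]), (0, [(61, 3)]), (0, [(55, 6)]), (0, [(54, 7)]), (2, [(30, 119), (63, 1)]), (0, [(0, 1), (63, 1)]), (3, [(0, 964), (24, 33), (63, 3), (68, 1), (81, 2)]), (3, [(0, 964), (24, 33), (63, 3), (68, 1), (81, 2)]), (3, [(0, 961), (24, 36), (63, 3), (68, 1),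 (81, 2)]), (3, [(0, 968), (24, 30), (63, 2), (68, 1), (81, 3)]), (3, [(0, 957), (24, 41), (63, 3), (68, 1), (81, 2)]), (3, [(0, 923), (23, 1), (24, 75), (25, 1), (81, 3)]), (3, [(0, 943), (24, 55), (63, 2), (68, 1), (81, 2)]), (3, [(0, 939), (24, 57), (63, 4), (68, 1), (81, 3)]), (3, [(0, 871), (23, 1), (24, 127), (25, 2), (81, 3)]), (3, [(0, 965), (23, 1), (24, 32), (25, 2), (81, 4)]), (3, [(0, 968), (24, 29), (63, 4), (68, 1), (81, 1)]), (2, [(0, 117), (24, 2), (63, 1)]), (3, [(23, 1001)]), (3, [(0, 967), (24, 31), (63, 3), (68, 1), (81, 1)]), (3, [(0, 941), (23, 1), (24, 55), (25, 3), (81, 4)]), (3, [(0, 965), (24, 32), (63, 2), (68, 1), (81, 3)]), (3, [(0, 979), (24, 17), (63, 4), (68, 1), (81, 2)]), (3, [(0, 409), (4, 307), (20, 482), (72, 2)]), (3, [(0, 926), (24, 72), (63, 2), (68, 1), (81, 2)]), (3, [(0, 902), (24, 94), (63, 4), (68, 1), (81, 2)]), (3, [(0, 901), (24, 95), (63, 4),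 (68, 1), (81, 2)]), (4, [(0, 11975), (63, 25)]), (1, [(0, 7), (4, 1), (15, 1), (20, 4), (72, 1)]), (0, [(0, 1), (20, 1), (72, 1)]), (0, [(20, 4)]), (3, [(0, 912), (24, 85), (63, 2), (81, 2)]), (3, [(0, 955), (24, 41), (63, 3), (68, 1), (81, 3)]), (0, [(21, 5)]), (0, [(25, 3)]), (0, [(20, 6)]), (0, [(25, 3)]), (3, [(0, 906), (24, 91), (63, 3), (68, 1), (81, 2)]), (0, [(63, 2)]), (0, [(63, 2)]), (0, [(63, 2)]), (0, [(63, 2)]), (0, [(63, 2)]), (0, [(63, 2)]), (0, [(63, 2)]), (0, [(63, 2)]), (0, [(63, 2)]), (0, [(63, 2)]), (0, [(63, 2)]), (0, [(63, 2)]), (0, [(63, 2)]), (0, [(63, 2)]), (0, [(72, 2)]), (0, [(63, 2)]), (0, [(72, 2)]), (0, [(63, 2)]), (0, [(63, 2)]), (0, [(72, 2)])],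
  [(3, [(18, 1), (19, 352), (20, 153), (21, 494), (73, 2)]), (3, [(55, 680), (58, 318), (82, 3)]), (0, [(55, 1), (58, 1)]), (3, [(55, 711), (58, 486), (82, 2)]), (3, [(55, 633), (58, 365), (82, 3)]), (3, [(53, 1), (55, 655), (58, 343), (82, 4)]), (3, [(30, 348), (42, 1), (48, 104), (54, 546), (72, 4)]), (3, [(30, 398), (42, 1), (48, 188), (54, 414), (72, 2)]), (3, [(30, 405), (42, 1), (48, 143), (54, 451), (72, 3)]), (3, [(30, 388), (48, 124), (54, 486), (72, 3)]), (3, [(30, 373), (42, 1), (48, 115), (54, 510), (72, 4)]), (3, [(55, 681), (58, 317), (82, 3)]), (3, [(53, 1), (55, 664), (58, 336), (82, 2)]), (3, [(53, 1), (55, 649), (58, 349), (82, 3)]), (3, [(53, 1), (55, 655), (58, 343), (82, 3)]), (3, [(53, 1), (55, 664), (58, 334), (82, 4)]), (3, [(53, 1), (55, 671), (58, 327), (82, 4)]), (3, [(53, 1), (55, 675), (58, 321), (82, 5)]), (3, [(30, 346), (42, 1), (48, 105), (54, 547), (72,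 4)]), (3, [(30, 265), (42, 1), (48, 124), (54, 610), (72, 3)]), (3, [(30, 329), (42, 1), (48, 119), (54, 551), (72, 3)]), (3, [(30, 347), (42, 1), (48, 114), (54, 537), (72, 4)]), (3, [(30, 350), (42, 1), (48, 111), (54, 537), (72, 4)]), (2, [(30, 42), (48, 13), (54, 65), (72, 1)]), (3, [(18, 1), (19, 178), (20, 346), (21, 475), (73, 3)]), (3, [(19, 255), (20, 220), (21, 524), (73, 2)]), (3, [(18, 1), (19, 217), (20, 270), (21, 513), (73, 3)]), (3, [(19, 198), (20, 301), (21, 499), (73, 3)]), (3, [(18, 1), (19, 189), (20, 320), (21, 489), (73, 4)]), (0, [(21, 5)]), (3, [(18, 1), (19, 198), (20, 399), (21, 403), (73, 2)]), (3, [(18, 1), (19, 151), (20, 406), (21, 442), (73, 3)]), (3, [(18, 1), (19, 131), (20, 389), (21, 479), (73, 3)]), (3, [(18, 1), (19, 121), (20, 373), (21, 504), (73, 4)]), (3, [(18, 1), (19, 178), (20, 347), (21, 474), (73, 3)]), (3, [(18, 1), (19, 214), (20, 413), (21,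 372), (73, 2)]), (3, [(18, 1), (19, 203), (20, 347), (21, 450), (73, 3)]), (3, [(18, 1), (19, 193), (20, 333), (21, 473), (73, 3)]), (3, [(18, 1), (19, 187), (20, 334), (21, 478), (73, 4)]), (3, [(18, 1), (19, 182), (20, 338), (21, 477), (73, 4)]), (2, [(19, 22), (20, 41), (21, 57), (73, 1)]), (0, [(21, 5)]), (0, [(21, 4)]), (3, [(18, 1), (19, 124), (20, 329), (21, 546), (73, 3)]), (3, [(18, 1), (19, 120), (20, 347), (21, 531), (73, 4)]), (3, [(18, 1), (19, 117), (20, 349), (21, 531), (73, 4)]), (2, [(19, 14), (20, 42), (21, 64), (73, 1)]), (0, [(72, 2)]), (0, [(73, 2)]), (0, [(30, 1), (63, 1)]), (3, [(30, 154), (42, 1), (48, 340), (54, 506), (72, 2)]), (2, [(58, 101)]), (0, [(54, 6)]), (2, [(30, 41), (48, 13), (54, 66), (72, 1)]), (3, [(55, 718), (58, 480), (82, 2)]), (0, [(54, 5)]), (0, [(54, 7)]), (3, [(53, 1), (55, 730), (58, 269), (82, 3)]), (3, [(53, 1), (55, 660), (58, 339), (82,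 3)]), (3, [(53, 1), (55, 725), (58, 273), (82, 3)]), (3, [(53, 1), (55, 793), (58, 205), (82, 4)]), (3, [(53, 1), (55, 829), (58, 169), (82, 3)]), (3, [(53, 1), (55, 838), (58, 159), (82, 4)]), (0, [(55, 5)]), (0, [(54, 6)]), (0, [(55, 5)]), (0, [(55, 7)]), (0, [(55, 7)]), (0, [(55, 4)]), (0, [(55, 3)]), (0, [(55, 3)]), (0, [(54, 7)]), (2, [(30, 32), (48, 7), (54, 80), (72, 1)]), (2, [(30, 100), (57, 1), (63, 1), (72, 1), (81, 1)]), (0, [(54, 5)]), (0, [(55, 4)]), (0, [(55, 6)]), (0, [(55, 5)]), (3, [(30, 327), (42, 1), (48, 106), (54, 564), (72, 4)]), (0, [(0, 1), (63, 1)]), (0, [(21, 6)]), (0, [(21, 6)]), (3, [(18, 1), (19, 86), (20, 479), (21, 433), (73, 4)]), (0, [(21, 5)]), (3, [(18, 1), (19, 99), (20, 497), (21, 402), (73, 3)]), (0, [(21, 4)]), (3, [(18, 1), (19, 131), (20, 491), (21, 377), (73, 3)]), (2, [(19, 13), (20, 41), (21, 65), (73, 1)]), (0, [(21, 4)]), (0, [(21, 5)]), (3,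 [(18, 1), (19, 81), (20, 626), (21, 292), (73, 4)]), (0, [(20, 11)]), (0, [(21, 5)]), (0, [(20, 6)]), (0, [(21, 4)]), (0, [(21, 6)]), (0, [(21, 7)]), (3, [(21, 571), (27, 300), (28, 130), (73, 1), (82, 1)]), (3, [(18, 1), (19, 166), (20, 462), (21, 371), (73, 3)]), (2, [(19, 21), (20, 42), (21, 57), (73, 1)]), (2, [(19, 21), (20, 42), (21, 56), (73, 1)]), (3, [(0, 890), (4, 1), (14, 88), (20, 21), (72, 2)]), (0, [(21, 5)]), (0, [(21, 3)]), (0, [(21, 3)]), (3, [(18, 1), (19, 174), (20, 396), (21, 429), (73, 3)]), (0, [(21, 8)]), (0, [(21, 5)]), (0, [(21, 4)]), (0, [(21, 4)]), (0, [(20, 5)]), (3, [(18, 1), (19, 177), (20, 367), (21, 454), (73, 4)]), (0, [(63, 2)]), (0, [(72, 2)]), (0, [(73, 2)]), (0, [(73, 2)]), (0, [(73, 2)]), (0, [(63, 2)]), (0, [(73, 2)]), (0, [(73, 2)]), (0, [(73, 2)]), (0, [(73, 2)]), (0, [(73, 2)]), (0, [(73, 2)]), (0, [(63, 2)]), (0, [(73, 2)]), (0, [(73, 2)]), (0,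 [(73, 2)]), (0, [(73, 2)]), (0, [(73, 2)]), (0, [(72, 2)]), (0, [(73, 2)])]]

set_option maxRecDepth 100000 in
theorem okUG5 : chkRect LD LG LU5 cUG5 = true := by decide +kernel

end Pool.Agent.Lib.MP_dbb03c_co.Full
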