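import Pool.Agent.Lib.MP_dbb03c_co.Full.Data

/-! # Certificate data (generated) -/

namespace Pool.Agent.Lib.MP_dbb03c_co.Full

set_option maxRecDepth 100000 in
def cUG6 : List (List Ct) := [
  [(5, [(0, 413), (4, 69221), (15, 30432), (63, 19), (72, 27)]), (4, [(30, 10), (42, 9952), (54, 84), (72, 13)]), (5, [(31, 94800), (42, 4769), (48, 2), (54, 657), (72, 125)]), (3, [(31, 217), (42, 780), (54, 7), (72, 1)]), (4, [(30, 3), (42, 9990), (54, 77), (72, 13)]), (4, [(30, 6), (42, 10011), (54, 77), (72, 18)]), (3, [(30, 214), (52, 903), (63, 3), (68, 2)]), (4, [(30, 1285), (52, 9414), (63, 10), (68, 22)]), (3, [(30, 173), (52, 922), (63, 2), (68, 2)]), (3, [(30, 209), (52, 985), (63, 2), (68, 3)]), (3, [(30, 204), (52, 907), (63, 2), (68, 3)]), (4, [(30, 10), (42, 10026), (54, 83), (72, 13)]), (4, [(30, 13), (42, 10010), (54, 53), (72, 3)]), (4, [(30, 7), (42, 10034), (54, 68), (72, 8)]), (4, [(30,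 6), (42, 10057), (54, 74), (72, 13)]), (4, [(30, 7), (42, 10082), (54, 75), (72, 19)]), (4, [(30, 10), (42, 5130), (47, 4986), (54, 60), (72, 25)]), (3, [(30, 1), (47, 952), (54, 4), (57, 62), (72, 3)]), (3, [(30, 215), (52, 903), (63, 2), (68, 3)]), (3, [(30, 156), (52, 929), (63, 1), (68, 3)]), (3, [(30, 200), (52, 985), (63, 1), (68, 4)]), (3, [(30, 201), (52, 908), (63, 1), (68, 4)]), (3, [(30, 225), (52, 981), (63, 2), (68, 5)]), (3, [(30, 211), (52, 903), (63, 2), (68, 5)]), (4, [(0, 216), (4, 5823), (15, 4037), (63, 17), (72, 6)]), (5, [(0, 963), (4, 63866), (15, 35437), (63, 66), (72, 45)]), (4, [(0, 139), (4, 5682), (15, 4231), (63, 13), (72, 5)]), (4, [(0, 166), (4, 4749), (15, 5165), (63, 20), (72, 5)]), (5, [(0, 1810), (4, 36343), (15, 62926), (63, 286), (72, 48)]), (4, [(0, 390), (4, 6558), (15, 3192), (63, 11), (72, 14)]), (4, [(0, 218), (4, 6915), (15, 2858), (63, 6), (72, 5)]), (4,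 [(0, 303), (4, 7056), (15, 2652), (63, 7), (72, 8)]), (3, [(0, 35), (4, 764), (15, 214), (63, 1), (72, 1)]), (4, [(0, 369), (4, 8480), (15, 1282), (63, 10), (72, 12)]), (3, [(0, 21), (4, 276), (15, 717), (63, 3)]), (4, [(0, 201), (4, 5109), (15, 4802), (63, 11), (72, 3)]), (4, [(0, 180), (4, 3386), (15, 6561), (63, 20), (72, 3)]), (4, [(0, 180), (4, 2022), (15, 7947), (63, 29), (72, 3)]), (3, [(0, 18), (4, 74), (15, 926), (63, 4)]), (4, [(0, 163), (7, 9978), (23, 63), (63, 41), (81, 2)]), (4, [(0, 170), (7, 8391), (23, 1662), (63, 40), (81, 4)]), (4, [(0, 395), (4, 9671), (15, 78), (63, 2), (72, 15)]), (4, [(0, 275), (4, 8533), (15, 1288), (20, 1), (72, 12)]), (4, [(0, 336), (4, 9785), (72, 14)]), (3, [(0, 37), (4, 976), (64, 1), (72, 1)]), (5, [(0, 3806), (4, 97491), (63, 4), (64, 98), (72, 146)]), (4, [(0, 388), (4, 9740), (63, 1), (64, 14), (72, 15)]), (1, [(68, 11)]), (2, [(63, 3), (64, 97),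 (72, 1)]), (0, [(30, 1), (63, 1)]), (4, [(30, 336), (52, 9868), (63, 2), (68, 24)]), (5, [(31, 99870), (48, 2), (54, 155), (72, 52), (73, 25)]), (3, [(30, 163), (52, 926), (63, 2), (68, 2)]), (2, [(30, 22), (52, 90), (68, 1)]), (5, [(31, 99182), (48, 1), (54, 1208), (72, 36), (73, 96)]), (4, [(30, 912), (52, 9583), (63, 11), (68, 20), (81, 2)]), (3, [(30, 380), (52, 844), (63, 3), (68, 1), (81, 1)]), (4, [(31, 9841), (54, 253), (72, 14), (73, 5)]), (4, [(30, 4), (42, 9946), (54, 96), (72, 8)]), (4, [(30, 16), (42, 9931), (54, 110), (72, 13)]), (4, [(30, 38), (42, 9897), (54, 125), (72, 19)]), (4, [(30, 5), (42, 9761), (54, 421), (72, 15)]), (4, [(30, 62), (42, 9870), (54, 143), (72, 24)]), (3, [(30, 82), (47, 634), (54, 3), (57, 345), (72, 1)]), (4, [(30, 2234), (52, 9011), (63, 19), (68, 16), (81, 7)]), (4, [(31, 9585), (54, 704), (55, 6), (73, 26)]), (3, [(30, 8), (42, 963), (54, 53), (72, 3)]),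 (3, [(30, 13), (42, 878), (54, 216), (72, 4)]), (2, [(48, 84), (54, 3), (55, 16), (73, 1)]), (1, [(30, 10), (54, 1), (72, 1)]), (0, [(54, 7)]), (3, [(30, 391), (52, 843), (63, 4), (68, 1)]), (2, [(30, 30), (52, 87), (63, 1)]), (3, [(30, 1195), (63, 5)]), (1, [(30, 10), (61, 1), (81, 1)]), (1, [(30, 5), (54, 5), (61, 1), (81, 1)]), (0, [(55, 8)]), (0, [(55, 7)]), (3, [(30, 227), (52, 983), (63, 1), (68, 5)]), (0, [(0, 1), (63, 1)]), (4, [(0, 718), (4, 9010), (15, 577), (63, 4), (72, 21)]), (4, [(0, 714), (4, 5955), (15, 3631), (63, 13), (72, 19)]), (4, [(0, 640), (4, 7024), (15, 2604), (63, 12), (72, 15)]), (4, [(0, 794), (4, 6198), (15, 3353), (20, 5), (72, 24)]), (4, [(0, 565), (4, 6530), (15, 3140), (63, 11), (72, 11)]), (3, [(0, 29), (4, 555), (15, 426), (72, 2)]), (4, [(0, 413), (4, 6399), (15, 3354), (63, 10), (72, 7)]), (4, [(0, 400), (4, 9872), (64, 17), (72, 15)]), (5, [(0, 1490), (4, 61015),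 (15, 37906), (20, 25), (72, 119)]), (3, [(0, 74), (4, 467), (15, 489), (20, 3), (72, 3)]), (3, [(0, 82), (4, 576), (15, 378), (63, 2), (72, 1)]), (4, [(0, 1386), (4, 5266), (15, 3994), (63, 23), (72, 24)]), (3, [(17, 964), (18, 15), (20, 80), (80, 2)]), (4, [(0, 764), (4, 5070), (15, 4526), (63, 16), (72, 5)]), (3, [(0, 41), (4, 525), (15, 449), (20, 2), (72, 2)]), (4, [(0, 730), (4, 4262), (15, 5320), (20, 1), (72, 34)]), (4, [(0, 1414), (4, 3631), (15, 5615), (63, 3), (72, 45)]), (4, [(17, 9156), (18, 822), (20, 187), (72, 4), (78, 1)]), (4, [(0, 293), (4, 4336), (15, 5506), (63, 17), (72, 4)]), (3, [(0, 20), (4, 162), (15, 853), (63, 5)]), (4, [(0, 180), (7, 7478), (23, 2551), (63, 36), (81, 6)]), (3, [(0, 361), (24, 835), (63, 3)]), (3, [(18, 933), (20, 154), (21, 1), (73, 2)]), (1, [(0, 10), (20, 1), (72, 1)]), (0, [(20, 7)]), (4, [(0, 239), (4, 2079), (15, 7974), (63, 28), (72, 3)]), (3, [(0,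 55), (7, 667), (23, 304), (81, 5)]), (2, [(19, 29), (21, 71), (73, 1), (82, 1)]), (1, [(0, 5), (20, 5), (25, 1), (81, 1)]), (2, [(19, 19), (21, 82), (73, 1), (74, 1)]), (1, [(0, 10), (25, 1), (81, 1)]), (3, [(0, 21), (4, 31), (15, 982), (63, 4)]), (0, [(63, 2)]), (1, [(68, 11)]), (2, [(63, 3), (64, 97), (72, 1)]), (2, [(63, 7), (64, 95), (72, 1)]), (2, [(63, 9), (64, 93), (72, 1)]), (0, [(63, 2)]), (3, [(67, 1001)]), (3, [(64, 1001)]), (1, [(65, 7), (72, 5)]), (0, [(63, 2)]), (0, [(72, 2)]), (1, [(72, 11)]), (0, [(63, 2)]), (1, [(63, 11)]), (1, [(69, 6), (72, 3), (73, 2)]), (1, [(72, 11)]), (0, [(73, 2)]), (0, [(63, 2)]), (0, [(63, 2)]), (0, [(73, 2)])],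
  [(3, [(0, 2), (6, 69), (15, 796), (29, 142), (63, 4)]), (4, [(30, 13), (42, 9147), (47, 918), (54, 67), (72, 34)]), (4, [(32, 7715), (42, 2139), (47, 219), (54, 51), (72, 31)]), (3, [(42, 818), (47, 191), (54, 5), (72, 3)]), (4, [(30, 8), (42, 2792), (47, 7319), (54, 42), (72, 36)]), (3, [(30, 1), (47, 924), (54, 3), (57, 87), (72, 4)]), (2, [(30, 22), (52, 91), (63, 1)]), (2, [(30, 13), (52, 95), (63, 1)]), (2, [(30, 18), (52, 93), (63, 1)]), (2, [(30, 20), (52, 92), (63, 1)]), (2, [(30, 21), (52, 92), (63, 1)]), (3, [(30, 2), (47, 805), (54, 4), (57, 208), (72, 4)]), (4, [(30, 18), (42, 4892), (47, 5237), (54, 24), (72, 25)]), (3, [(30, 1), (47, 891), (54, 2), (57, 122), (72, 3)]), (4, [(30, 16), (47, 7022), (54, 38), (57, 3120), (72, 35)]), (3, [(30, 1), (47, 533), (54, 4), (57, 500), (72, 4)]), (4, [(30, 20), (47, 3425), (54, 48), (57, 6725), (72, 44)]), (3, [(30, 2), (47, 158), (54, 5), (57,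 858), (72, 5)]), (2, [(30, 22), (52, 91), (63, 1)]), (2, [(30, 16), (52, 94), (63, 1)]), (2, [(30, 19), (52, 92), (63, 1)]), (2, [(30, 21), (52, 92), (63, 1)]), (2, [(30, 21), (52, 91), (63, 1)]), (2, [(30, 22), (52, 91), (63, 1)]), (4, [(0, 205), (4, 129), (15, 9833), (63, 54), (72, 3)]), (4, [(0, 81), (4, 644), (15, 9391), (63, 44), (72, 1)]), (4, [(0, 126), (7, 78), (15, 9939), (63, 47), (81, 6)]), (2, [(0, 1), (7, 95), (23, 6), (63, 1)]), (4, [(0, 156), (7, 8148), (23, 1889), (63, 50), (81, 4)]), (3, [(0, 39), (4, 91), (15, 893), (63, 5), (72, 1)]), (4, [(0, 212), (4, 1285), (15, 8842), (63, 43), (72, 1)]), (4, [(0, 299), (4, 1442), (15, 8462), (63, 44), (72, 4)]), (4, [(0, 343), (4, 1961), (15, 7917), (63, 47), (72, 7)]), (4, [(0, 365), (4, 2798), (15, 7065), (63, 48), (72, 9)]), (4, [(0, 190), (7, 7101), (23, 2931), (63, 40), (81, 6)]), (4, [(0, 176), (7, 4234), (15, 3510), (22, 2283), (63,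 44)]), (4, [(0, 155), (7, 7832), (23, 2224), (63, 42), (81, 1)]), (4, [(0, 163), (7, 6205), (23, 3858), (63, 39), (81, 6)]), (3, [(0, 17), (7, 466), (23, 541), (63, 4), (81, 1)]), (3, [(0, 18), (7, 310), (23, 698), (63, 4), (81, 1)]), (3, [(0, 19), (7, 146), (23, 837), (63, 4), (81, 1)]), (3, [(0, 39), (4, 398), (15, 587), (63, 4), (72, 1)]), (3, [(0, 27), (4, 282), (15, 711), (63, 4), (72, 1)]), (3, [(0, 33), (4, 431), (15, 558), (63, 4), (72, 1)]), (3, [(0, 36), (4, 556), (15, 430), (63, 4), (72, 1)]), (4, [(0, 376), (4, 6807), (15, 3049), (63, 41), (72, 13)]), (4, [(0, 383), (4, 8098), (15, 1753), (63, 42), (72, 14)]), (1, [(68, 11)]), (2, [(64, 101)]), (0, [(30, 1), (63, 1)]), (3, [(30, 33), (52, 999), (63, 5)]), (4, [(31, 1882), (32, 5245), (45, 2961), (54, 11), (72, 32)]), (2, [(30, 17), (52, 93), (63, 1)]), (2, [(30, 22), (52, 91), (63, 1)]), (4, [(31, 990), (45, 9013), (54, 128), (72, 44),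 (73, 2)]), (2, [(30, 9), (52, 97), (63, 1)]), (2, [(30, 32), (52, 68), (63, 1)]), (3, [(32, 285), (45, 338), (46, 370), (54, 26), (72, 5)]), (4, [(30, 7), (42, 9214), (47, 846), (54, 79), (72, 29)]), (3, [(30, 2), (42, 522), (47, 482), (54, 8), (72, 4)]), (3, [(30, 4), (42, 619), (47, 382), (54, 10), (72, 4)]), (3, [(30, 1), (42, 471), (47, 517), (54, 38), (72, 4)]), (3, [(30, 7), (42, 223), (47, 776), (54, 10), (72, 5)]), (3, [(30, 82), (54, 3), (57, 926), (72, 2), (81, 1)]), (2, [(30, 23), (52, 91), (63, 1)]), (3, [(45, 57), (46, 910), (54, 73), (72, 2), (73, 3)]), (3, [(30, 9), (42, 175), (47, 800), (54, 48), (72, 5)]), (2, [(30, 2), (47, 75), (54, 21), (57, 14), (72, 1)]), (2, [(43, 27), (48, 63), (54, 3), (55, 16), (73, 1)]), (1, [(30, 10), (54, 1), (72, 1)]), (0, [(30, 1), (54, 1), (72, 1)]), (2, [(30, 39), (52, 80), (63, 1)]), (2, [(30, 32), (52, 86), (63, 1)]), (2, [(30, 119), (63, 1)]),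 (1, [(30, 10), (61, 1), (81, 1)]), (1, [(30, 5), (54, 5), (61, 1), (81, 1)]), (0, [(55, 11)]), (0, [(55, 9)]), (2, [(30, 22), (52, 91), (63, 1)]), (0, [(0, 1), (63, 1)]), (4, [(0, 728), (4, 3417), (15, 6266), (63, 43), (72, 17)]), (2, [(0, 7), (4, 4), (15, 93), (63, 1)]), (2, [(0, 6), (4, 14), (15, 83), (63, 1)]), (3, [(0, 81), (4, 67), (15, 897), (63, 3), (72, 3)]), (4, [(0, 569), (4, 933), (15, 8835), (63, 49), (72, 8)]), (4, [(0, 289), (15, 9911), (63, 21), (72, 14), (81, 18)]), (3, [(0, 41), (4, 76), (15, 910), (63, 5)]), (4, [(0, 391), (4, 9474), (15, 381), (63, 40), (72, 15)]), (4, [(0, 138), (4, 385), (15, 9610), (63, 33), (72, 13)]), (2, [(0, 7), (7, 97), (81, 1)]), (2, [(0, 8), (4, 2), (15, 94), (63, 1)]), (2, [(0, 14), (15, 93), (63, 1)]), (3, [(17, 973), (20, 84), (72, 3), (80, 1)]), (3, [(0, 76), (7, 911), (15, 60), (63, 5)]), (3, [(0, 41), (7, 748), (15, 261), (72, 5)]), (3, [(0, 75),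 (7, 953), (23, 49), (81, 6)]), (2, [(0, 14), (7, 84), (23, 9), (81, 1)]), (4, [(17, 9440), (18, 639), (20, 185), (72, 25), (80, 1)]), (3, [(0, 27), (7, 882), (22, 14), (23, 99), (63, 5)]), (3, [(0, 18), (7, 553), (23, 424), (63, 5), (81, 1)]), (4, [(0, 200), (7, 601), (23, 9467), (63, 33), (81, 17)]), (2, [(0, 37), (24, 83), (63, 1)]), (3, [(18, 939), (20, 159), (72, 3), (73, 1), (80, 1)]), (1, [(0, 10), (20, 1), (72, 1)]), (0, [(0, 1), (20, 1), (72, 1)]), (4, [(0, 222), (7, 6219), (23, 3786), (63, 39), (81, 6)]), (3, [(0, 59), (23, 975), (81, 6)]), (2, [(19, 28), (21, 72), (73, 1)]), (1, [(0, 5), (20, 5), (25, 1), (81, 1)]), (2, [(19, 18), (21, 83), (73, 1), (74, 1)]), (1, [(0, 10), (25, 1), (81, 1)]), (3, [(0, 20), (7, 412), (23, 591), (63, 4), (81, 1)]), (0, [(63, 2)]), (1, [(68, 11)]), (2, [(64, 101)]), (3, [(64, 1001)]), (3, [(64, 1001)]), (0, [(63, 2)]), (2, [(70, 101)]), (3, [(64, 1001)]),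 (1, [(66, 7), (72, 5)]), (0, [(63, 2)]), (0, [(72, 2)]), (1, [(72, 11)]), (0, [(63, 2)]), (1, [(63, 11)]), (1, [(69, 6), (72, 3), (73, 2)]), (1, [(72, 11)]), (0, [(73, 2)]), (0, [(63, 2)]), (0, [(63, 2)]), (0, [(73, 2)])],
  [(6, [(0, 4211), (4, 847645), (15, 148656), (63, 276), (72, 339)]), (4, [(30, 11), (42, 9949), (54, 79), (72, 18)]), (3, [(31, 863), (42, 130), (54, 6), (72, 2)]), (4, [(31, 1139), (42, 8834), (54, 70), (72, 14)]), (3, [(42, 999), (54, 7), (72, 2)]), (4, [(30, 6), (42, 10008), (54, 72), (72, 23)]), (3, [(30, 217), (52, 902), (63, 3), (68, 3)]), (3, [(30, 130), (52, 940), (63, 1), (68, 3)]), (3, [(30, 175), (52, 920), (63, 2), (68, 3)]), (3, [(30, 197), (52, 910), (63, 2), (68, 3)]), (3, [(30, 225), (52, 982), (63, 3), (68, 4)]), (4, [(30, 11), (42, 10024), (54, 78), (72, 18)]), (4, [(30, 14), (42, 10007), (54, 49), (72, 8)]), (4, [(30, 8), (42, 10032), (54, 64), (72, 13)]),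 (4, [(30, 7), (42, 10054), (54, 69), (72, 18)]), (4, [(30, 8), (42, 10080), (54, 70), (72, 24)]), (3, [(30, 1), (42, 994), (54, 7), (72, 3)]), (4, [(30, 12), (42, 6241), (47, 3902), (54, 56), (72, 35)]), (3, [(30, 218), (52, 901), (63, 2), (68, 4)]), (3, [(30, 168), (52, 988), (63, 1), (68, 4)]), (3, [(30, 189), (52, 913), (63, 1), (68, 4)]), (3, [(30, 220), (52, 982), (63, 1), (68, 5)]), (3, [(30, 211), (52, 903), (63, 2), (68, 5)]), (2, [(30, 21), (52, 90), (68, 1)]), (5, [(0, 2191), (4, 73525), (15, 25039), (63, 179), (72, 68)]), (4, [(0, 98), (4, 7932), (15, 1996), (63, 8), (72, 5)]), (5, [(0, 1412), (4, 72197), (15, 26908), (63, 138), (72, 58)]), (5, [(0, 1688), (4, 62799), (15, 36307), (63, 213), (72, 58)]), (4, [(0, 184), (4, 5159), (15, 4764), (63, 30), (72, 5)]), (4, [(0, 395), (4, 8075), (15, 1670), (63, 12), (72, 14)]), (5, [(0, 2228), (4, 85127), (15, 13417), (63, 61), (72, 56)]), (4,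 [(0, 313), (4, 8743), (15, 1155), (63, 8), (72, 8)]), (3, [(0, 35), (4, 927), (15, 61), (63, 1), (72, 1)]), (4, [(0, 375), (4, 9757), (63, 11), (64, 1), (72, 13)]), (4, [(0, 213), (4, 4282), (15, 5646), (63, 27), (72, 5)]), (5, [(0, 2037), (4, 66416), (15, 32658), (63, 124), (72, 36)]), (4, [(0, 183), (4, 4912), (15, 5031), (63, 21), (72, 4)]), (4, [(0, 183), (4, 3543), (15, 6424), (63, 30), (72, 4)]), (4, [(0, 186), (4, 2250), (15, 7738), (63, 38), (72, 3)]), (3, [(0, 19), (4, 95), (15, 906), (63, 5)]), (4, [(0, 173), (7, 7162), (15, 2896), (63, 51), (81, 3)]), (4, [(0, 401), (4, 9740), (63, 2), (64, 5), (72, 15)]), (4, [(0, 280), (4, 9817), (72, 14)]), (3, [(0, 34), (4, 978), (64, 1), (72, 1)]), (4, [(0, 372), (4, 9754), (64, 11), (72, 14)]), (3, [(0, 39), (4, 974), (64, 2), (72, 1)]), (4, [(0, 398), (4, 9854), (64, 20), (72, 14)]), (2, [(68, 101)]), (2, [(63, 4), (64, 97), (72, 1)]), (0, [(30,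 1), (63, 1)]), (4, [(30, 342), (52, 9860), (63, 2), (68, 29)]), (5, [(31, 99834), (48, 2), (54, 138), (72, 105), (73, 23)]), (4, [(30, 1655), (52, 9246), (63, 20), (68, 22), (81, 2)]), (2, [(30, 22), (52, 90), (68, 1)]), (4, [(31, 9956), (54, 121), (72, 9), (73, 9)]), (3, [(30, 93), (52, 957), (63, 1), (68, 3)]), (3, [(30, 385), (52, 842), (63, 3), (68, 2), (81, 1)]), (4, [(31, 9836), (54, 255), (72, 20), (73, 4)]), (4, [(30, 5), (42, 9944), (54, 91), (72, 13)]), (4, [(30, 17), (42, 9983), (54, 106), (72, 19)]), (4, [(30, 39), (42, 9894), (54, 119), (72, 24)]), (3, [(30, 1), (42, 961), (54, 40), (72, 2)]), (4, [(30, 64), (42, 9868), (54, 137), (72, 29)]), (3, [(30, 83), (47, 839), (54, 2), (57, 142), (72, 2)]), (4, [(30, 2265), (52, 8993), (63, 19), (68, 21), (81, 7)]), (3, [(31, 958), (54, 72), (73, 3)]), (3, [(30, 8), (42, 963), (54, 51), (72, 3)]), (3, [(30, 15), (42, 878), (54, 212), (72, 5)]),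 (2, [(48, 84), (54, 3), (55, 16), (73, 1)]), (1, [(30, 10), (54, 1), (72, 1)]), (0, [(54, 8)]), (3, [(30, 397), (52, 840), (63, 4), (68, 1)]), (2, [(30, 31), (52, 87), (63, 1)]), (2, [(30, 119), (63, 1)]), (1, [(30, 10), (61, 1), (81, 1)]), (1, [(30, 5), (54, 5), (61, 1), (81, 1)]), (0, [(55, 9)]), (0, [(55, 7)]), (3, [(30, 212), (52, 903), (63, 1), (68, 5)]), (0, [(0, 1), (63, 1)]), (3, [(0, 73), (4, 958), (63, 1), (72, 2)]), (3, [(0, 73), (4, 745), (15, 214), (63, 2), (72, 2)]), (4, [(0, 649), (4, 8524), (15, 1097), (63, 14), (72, 15)]), (3, [(0, 81), (4, 768), (15, 186), (72, 3)]), (4, [(0, 574), (4, 8034), (15, 1630), (63, 13), (72, 12)]), (3, [(0, 29), (4, 707), (15, 274), (72, 2)]), (4, [(0, 419), (4, 7915), (15, 1833), (63, 11), (72, 8)]), (4, [(0, 402), (4, 9733), (64, 22), (72, 15)]), (5, [(0, 1519), (4, 76385), (15, 22506), (20, 19), (72, 135)]), (3, [(0, 76), (4, 614), (15, 341), (20,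 3), (72, 3)]), (3, [(0, 83), (4, 724), (15, 230), (63, 2), (72, 1)]), (3, [(0, 140), (4, 670), (15, 255), (63, 3), (72, 2)]), (3, [(17, 974), (18, 9), (20, 81), (72, 2), (80, 1)]), (4, [(0, 775), (4, 6552), (15, 3036), (63, 17), (72, 6)]), (4, [(0, 414), (4, 6758), (15, 2975), (20, 23), (72, 22)]), (4, [(0, 741), (4, 5738), (15, 3838), (72, 36)]), (3, [(0, 143), (4, 505), (15, 419), (63, 1), (72, 4)]), (3, [(17, 923), (18, 74), (20, 19), (72, 1)]), (5, [(0, 2980), (4, 58529), (15, 39853), (63, 185), (72, 48)]), (3, [(0, 20), (4, 311), (15, 686), (63, 5)]), (3, [(0, 17), (7, 931), (23, 73), (63, 5)]), (3, [(0, 365), (24, 830), (63, 4)]), (3, [(18, 932), (20, 156), (73, 2)]), (1, [(0, 10), (20, 1), (72, 1)]), (0, [(20, 8)]), (4, [(0, 240), (4, 3562), (15, 6347), (63, 30), (72, 4)]), (3, [(0, 56), (7, 854), (23, 119), (81, 6)]), (2, [(19, 29), (21, 72), (73, 1), (82, 1)]), (1, [(0, 5), (20, 5), (25,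 1), (81, 1)]), (2, [(19, 18), (21, 82), (73, 1), (74, 1)]), (1, [(0, 10), (25, 1), (81, 1)]), (4, [(0, 214), (4, 1809), (15, 8146), (63, 39), (72, 3)]), (0, [(63, 2)]), (1, [(68, 11)]), (2, [(63, 4), (64, 97), (72, 1)]), (2, [(63, 7), (64, 95), (72, 1)]), (2, [(63, 9), (64, 93), (72, 1)]), (0, [(63, 2)]), (3, [(67, 1001)]), (3, [(64, 1001)]), (1, [(65, 7), (72, 5)]), (0, [(63, 2)]), (0, [(72, 2)]), (1, [(72, 11)]), (0, [(63, 2)]), (1, [(63, 11)]), (1, [(69, 6), (72, 3), (73, 2)]), (1, [(72, 11)]), (0, [(73, 2)]), (0, [(63, 2)]), (0, [(63, 2)]), (0, [(73, 2)])],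
  [(4, [(0, 42), (4, 9957), (15, 5), (63, 4), (72, 4)]), (4, [(30, 11), (42, 9992), (54, 76), (72, 23)]), (4, [(31, 8356), (42, 1598), (54, 58), (72, 22)]), (4, [(31, 762), (42, 9208), (54, 66), (72, 19)]), (4, [(30, 4), (42, 9985), (54, 70), (72, 23)]), (4, [(30, 7), (42, 10005), (54, 70), (72, 29)]), (3, [(30, 219), (52, 901), (63, 3), (68, 3)]), (3, [(30, 139), (52, 992), (63, 1), (68, 4)]), (3, [(30, 176), (52, 919), (63, 2), (68, 3)]), (3, [(30, 198), (52, 909), (63, 2), (68, 4)]), (3, [(30, 208), (52, 904), (63, 2), (68, 4)]), (4, [(30, 11), (42, 10021), (54, 75), (72, 24)]), (4, [(30, 14), (42, 10004), (54, 45), (72, 13)]), (4, [(30, 8), (42, 10028), (54, 60), (72, 18)]), (4, [(30, 8), (42, 10051), (54, 66), (72, 24)]), (4, [(30, 9), (42, 10077), (54, 67), (72, 29)]), (4, [(30, 9), (42, 10105), (54, 66), (72, 34)]), (3, [(30, 1), (42, 1014), (54, 6), (72, 4)]), (3, [(30, 219), (52, 900),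 (63, 2), (68, 4)]), (3, [(30, 159), (52, 926), (63, 1), (68, 4)]), (3, [(30, 205), (52, 983), (63, 1), (68, 5)]), (3, [(30, 205), (52, 905), (63, 1), (68, 5)]), (2, [(30, 21), (52, 90), (68, 1)]), (2, [(30, 22), (52, 90), (68, 1)]), (4, [(0, 222), (4, 8879), (15, 1053), (63, 19), (72, 7)]), (5, [(0, 984), (4, 94027), (15, 5227), (63, 85), (72, 58)]), (4, [(0, 142), (4, 8684), (15, 1225), (63, 15), (72, 6)]), (4, [(0, 171), (4, 7803), (15, 2189), (63, 22), (72, 6)]), (4, [(0, 185), (4, 6611), (15, 3310), (63, 31), (72, 6)]), (4, [(0, 398), (4, 9520), (15, 222), (63, 13), (72, 15)]), (5, [(0, 2242), (4, 98517), (63, 71), (64, 4), (72, 62)]), (4, [(0, 313), (4, 9797), (63, 9), (64, 1), (72, 9)]), (4, [(0, 356), (4, 9768), (63, 11), (64, 3), (72, 11)]), (3, [(0, 38), (4, 975), (63, 1), (64, 1), (72, 1)]), (4, [(0, 214), (4, 5729), (15, 4197), (63, 28), (72, 6)]), (4, [(0, 205), (4, 8101), (15, 1804),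 (63, 14), (72, 4)]), (4, [(0, 186), (4, 6441), (15, 3618), (63, 22), (72, 4)]), (4, [(0, 181), (4, 4918), (15, 4902), (63, 30), (72, 5)]), (4, [(0, 187), (4, 3693), (15, 6294), (63, 40), (72, 4)]), (4, [(0, 189), (4, 2387), (15, 7624), (63, 48), (72, 4)]), (3, [(0, 19), (4, 106), (15, 898), (63, 6)]), (4, [(0, 404), (4, 9734), (63, 2), (64, 10), (72, 15)]), (4, [(0, 282), (4, 9811), (64, 5), (72, 14)]), (4, [(0, 344), (4, 9769), (64, 11), (72, 13)]), (3, [(0, 37), (4, 975), (64, 2), (72, 1)]), (4, [(0, 395), (4, 9855), (64, 21), (72, 14)]), (3, [(0, 40), (4, 972), (64, 3), (72, 1)]), (2, [(68, 101)]), (2, [(63, 4), (64, 97), (72, 1)]), (0, [(30, 1), (63, 1)]), (3, [(30, 35), (52, 985), (68, 4)]), (5, [(31, 99888), (48, 3), (54, 117), (72, 157), (73, 22)]), (3, [(30, 167), (52, 924), (63, 2), (68, 3)]), (2, [(30, 22), (52, 90), (68, 1)]), (5, [(31, 99106), (48, 3), (54, 1191), (72, 147), (73, 88)]),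 (4, [(30, 933), (52, 9563), (63, 11), (68, 31), (81, 2)]), (3, [(30, 387), (52, 841), (63, 3), (68, 2), (81, 1)]), (3, [(31, 983), (54, 25), (72, 3)]), (4, [(30, 5), (42, 9984), (54, 88), (72, 18)]), (4, [(30, 17), (42, 9926), (54, 102), (72, 24)]), (4, [(30, 40), (42, 9891), (54, 116), (72, 29)]), (4, [(30, 8), (42, 9758), (54, 406), (72, 25)]), (4, [(30, 65), (42, 9865), (54, 134), (72, 34)]), (3, [(30, 88), (42, 220), (47, 814), (54, 2), (72, 3)]), (4, [(30, 2280), (52, 8982), (63, 20), (68, 27), (81, 7)]), (3, [(31, 933), (54, 70), (73, 4)]), (3, [(30, 9), (42, 963), (54, 51), (72, 4)]), (2, [(30, 2), (42, 88), (54, 21), (72, 1)]), (2, [(48, 90), (54, 3), (55, 17), (73, 1)]), (1, [(30, 10), (54, 1), (72, 1)]), (0, [(54, 9)]), (2, [(30, 46), (52, 97), (63, 1)]), (2, [(30, 31), (52, 87), (63, 1)]), (2, [(30, 119), (63, 1)]), (1, [(30, 10), (61, 1), (81, 1)]), (1, [(30, 5), (54, 5), (61, 1), (81,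 1)]), (0, [(55, 9)]), (0, [(55, 8)]), (2, [(30, 21), (52, 90), (68, 1)]), (0, [(0, 1), (63, 1)]), (3, [(0, 73), (4, 957), (63, 1), (64, 1), (72, 2)]), (3, [(0, 73), (4, 886), (15, 72), (63, 2), (72, 2)]), (4, [(0, 654), (4, 9617), (63, 15), (64, 1), (72, 16)]), (3, [(0, 81), (4, 909), (15, 45), (72, 3)]), (4, [(0, 577), (4, 9466), (15, 194), (63, 14), (72, 12)]), (4, [(0, 297), (4, 8519), (15, 1289), (20, 1), (72, 22)]), (4, [(0, 421), (4, 9359), (15, 385), (63, 12), (72, 8)]), (4, [(0, 405), (4, 9726), (64, 28), (72, 15)]), (4, [(0, 153), (4, 9102), (15, 785), (20, 1), (72, 15)]), (3, [(0, 76), (4, 755), (15, 200), (20, 3), (72, 3)]), (4, [(0, 839), (4, 8645), (15, 886), (63, 24), (72, 11)]), (3, [(0, 141), (4, 806), (15, 119), (63, 3), (72, 2)]), (3, [(17, 974), (18, 11), (20, 81), (72, 3)]), (4, [(0, 780), (4, 7964), (15, 1621), (63, 19), (72, 7)]), (4, [(0, 418), (4, 8193), (15, 1538), (20,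 22), (72, 23)]), (4, [(0, 747), (4, 7142), (15, 2429), (63, 1), (72, 37)]), (3, [(0, 136), (4, 605), (15, 268), (63, 1), (72, 4)]), (4, [(17, 9250), (18, 718), (20, 187), (72, 14), (78, 1)]), (4, [(0, 303), (4, 7389), (15, 2570), (63, 19), (72, 5)]), (4, [(0, 204), (4, 4553), (15, 5417), (63, 47), (72, 5)]), (4, [(0, 195), (4, 312), (15, 9711), (63, 60), (72, 3)]), (3, [(0, 367), (24, 828), (63, 5)]), (3, [(18, 931), (20, 157), (72, 1), (73, 2)]), (1, [(0, 10), (20, 1), (72, 1)]), (0, [(20, 9)]), (4, [(0, 241), (4, 5001), (15, 4905), (63, 31), (72, 5)]), (3, [(0, 58), (7, 4), (15, 966), (81, 7)]), (2, [(19, 29), (21, 72), (73, 1), (82, 1)]), (1, [(0, 5), (20, 5), (25, 1), (81, 1)]), (2, [(19, 18), (21, 82), (73, 1), (74, 1)]), (1, [(0, 10), (25, 1), (81, 1)]), (4, [(0, 215), (4, 3244), (15, 6710), (63, 41), (72, 4)]), (0, [(63, 2)]), (1, [(68, 11)]), (2, [(63, 4), (64, 97), (72, 1)]), (2, [(63,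 7), (64, 95), (72, 1)]), (2, [(63, 9), (64, 93), (72, 1)]), (0, [(63, 2)]), (3, [(67, 1001)]), (3, [(64, 1001)]), (1, [(65, 7), (72, 5)]), (0, [(63, 2)]), (0, [(72, 2)]), (1, [(72, 11)]), (0, [(63, 2)]), (1, [(63, 11)]), (1, [(69, 6), (72, 3), (73, 2)]), (1, [(72, 11)]), (0, [(73, 2)]), (0, [(63, 2)]), (0, [(63, 2)]), (0, [(73, 2)])],
  [(4, [(0, 42), (4, 9956), (63, 4), (64, 5), (72, 4)]), (3, [(30, 1), (42, 994), (54, 7), (72, 3)]), (4, [(31, 8262), (42, 1662), (54, 56), (72, 27)]), (4, [(31, 662), (42, 9306), (54, 64), (72, 24)]), (4, [(30, 4), (42, 10047), (54, 67), (72, 28)]), (4, [(30, 7), (42, 10002), (54, 67), (72, 34)]), (3, [(30, 219), (52, 900), (63, 3), (68, 4)]), (3, [(30, 132), (52, 938), (63, 1), (68, 4)]), (3, [(30, 177), (52, 918), (63, 2), (68, 4)]), (3, [(30, 198), (52, 909), (63, 2), (68, 4)]), (3, [(30, 209), (52, 904), (63, 3), (68, 4)]), (3, [(30, 1), (42, 1002), (54, 7),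 (72, 3)]), (3, [(30, 1), (42, 1000), (54, 4), (72, 2)]), (4, [(30, 9), (42, 10026), (54, 58), (72, 24)]), (4, [(30, 8), (42, 10049), (54, 64), (72, 29)]), (4, [(30, 9), (42, 10074), (54, 65), (72, 34)]), (3, [(30, 1), (42, 1010), (54, 6), (72, 4)]), (3, [(30, 1), (42, 1033), (54, 6), (72, 5)]), (3, [(30, 220), (52, 899), (63, 2), (68, 5)]), (3, [(30, 170), (52, 987), (63, 1), (68, 5)]), (3, [(30, 191), (52, 911), (63, 1), (68, 5)]), (2, [(30, 21), (52, 90), (68, 1)]), (2, [(30, 21), (52, 90), (68, 1)]), (2, [(30, 22), (52, 90), (68, 1)]), (4, [(0, 221), (4, 9851), (63, 20), (64, 1), (72, 8)]), (5, [(0, 987), (4, 99215), (63, 90), (64, 32), (72, 61)]), (4, [(0, 142), (4, 9906), (63, 16), (64, 1), (72, 7)]), (4, [(0, 170), (4, 9170), (15, 737), (63, 24), (72, 7)]), (4, [(0, 183), (4, 7947), (15, 1860), (63, 32), (72, 7)]), (4, [(0, 399), (4, 9736), (63, 13), (64, 4), (72, 15)]), (4, [(0, 227), (4,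 9916), (63, 7), (64, 6), (72, 6)]), (4, [(0, 314), (4, 9791), (63, 9), (64, 6), (72, 9)]), (3, [(0, 36), (4, 976), (63, 1), (64, 1), (72, 1)]), (4, [(0, 379), (4, 9745), (63, 11), (64, 11), (72, 13)]), (4, [(0, 214), (4, 7150), (15, 2773), (63, 29), (72, 6)]), (4, [(0, 205), (4, 9535), (15, 368), (63, 15), (72, 5)]), (4, [(0, 186), (4, 7886), (15, 2171), (63, 23), (72, 5)]), (4, [(0, 182), (4, 6319), (15, 3499), (63, 32), (72, 5)]), (4, [(0, 188), (4, 5109), (15, 4875), (63, 41), (72, 5)]), (4, [(0, 189), (4, 3798), (15, 6210), (63, 49), (72, 4)]), (4, [(0, 189), (4, 2464), (15, 7573), (63, 59), (72, 4)]), (4, [(0, 405), (4, 9728), (63, 2), (64, 15), (72, 15)]), (4, [(0, 283), (4, 9805), (64, 10), (72, 14)]), (3, [(0, 35), (4, 976), (64, 2), (72, 1)]), (4, [(0, 376), (4, 9741), (64, 21), (72, 14)]), (3, [(0, 39), (4, 973), (64, 3), (72, 1)]), (4, [(0, 393), (4, 9594), (63, 1), (64, 30), (72, 14)]),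 (2, [(68, 101)]), (2, [(63, 4), (64, 97), (72, 1)]), (0, [(30, 1), (63, 1)]), (4, [(30, 347), (52, 9847), (63, 1), (68, 41)]), (4, [(31, 9978), (54, 9), (72, 21), (73, 2)]), (3, [(30, 179), (52, 987), (63, 2), (68, 4)]), (2, [(30, 22), (52, 90), (68, 1)]), (5, [(31, 99076), (48, 4), (54, 1171), (72, 198), (73, 88)]), (3, [(30, 94), (52, 956), (63, 1), (68, 4)]), (3, [(30, 388), (52, 840), (63, 4), (68, 3), (81, 1)]), (4, [(31, 9829), (54, 253), (72, 30), (73, 4)]), (4, [(30, 5), (42, 9981), (54, 86), (72, 23)]), (5, [(30, 176), (42, 99228), (48, 6), (54, 998), (72, 287)]), (4, [(30, 40), (42, 9888), (54, 113), (72, 34)]), (3, [(30, 1), (42, 975), (54, 40), (72, 3)]), (3, [(30, 6), (42, 978), (54, 13), (72, 4)]), (3, [(30, 83), (42, 981), (54, 4), (72, 3)]), (4, [(30, 2286), (52, 8974), (63, 21), (68, 32), (81, 7)]), (3, [(31, 932), (54, 70), (72, 1), (73, 4)]), (3, [(30, 9), (42, 963), (54, 51),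 (72, 4)]), (2, [(30, 2), (42, 88), (54, 21), (72, 1)]), (2, [(48, 90), (54, 3), (55, 16), (73, 1)]), (1, [(30, 10), (54, 1), (72, 1)]), (0, [(54, 10)]), (2, [(30, 46), (52, 97), (63, 1)]), (2, [(30, 31), (52, 88), (63, 1)]), (2, [(30, 119), (63, 1)]), (1, [(30, 10), (61, 1), (81, 1)]), (1, [(30, 5), (54, 5), (61, 1), (81, 1)]), (0, [(55, 10)]), (0, [(55, 9)]), (2, [(30, 21), (52, 90), (68, 1)]), (0, [(0, 1), (63, 1)]), (3, [(0, 74), (4, 956), (63, 1), (64, 1), (72, 2)]), (3, [(0, 73), (4, 957), (63, 2), (72, 2)]), (4, [(0, 656), (4, 9611), (63, 15), (64, 6), (72, 16)]), (3, [(0, 81), (4, 954), (72, 3)]), (4, [(0, 579), (4, 9654), (63, 14), (64, 4), (72, 12)]), (4, [(0, 298), (4, 9805), (72, 24)]), (4, [(0, 423), (4, 9740), (63, 13), (64, 4), (72, 9)]), (4, [(0, 406), (4, 9720), (64, 33), (72, 15)]), (5, [(0, 1540), (4, 98846), (64, 1), (70, 1), (72, 184)]), (4, [(0, 763), (4, 8927), (15, 621), (20,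 28), (72, 34)]), (3, [(0, 87), (4, 982), (63, 3), (72, 1)]), (3, [(0, 149), (4, 973), (63, 3), (72, 2)]), (3, [(17, 973), (18, 13), (20, 80), (72, 4)]), (4, [(0, 782), (4, 9351), (15, 231), (63, 20), (72, 7)]), (4, [(0, 419), (4, 9603), (15, 126), (20, 21), (72, 25)]), (4, [(0, 748), (4, 8523), (15, 1046), (63, 2), (72, 38)]), (4, [(0, 1446), (4, 7727), (15, 1500), (63, 9), (72, 46)]), (4, [(17, 9243), (18, 722), (20, 185), (72, 19), (78, 2)]), (4, [(0, 300), (4, 8716), (15, 1118), (63, 21), (72, 6)]), (4, [(0, 204), (4, 5973), (15, 3995), (63, 48), (72, 6)]), (4, [(0, 195), (4, 1712), (15, 8308), (63, 60), (72, 3)]), (2, [(0, 37), (24, 83), (63, 1)]), (3, [(18, 930), (20, 157), (72, 1), (73, 2)]), (1, [(0, 10), (20, 1), (72, 1)]), (0, [(20, 10)]), (4, [(0, 245), (4, 6507), (15, 3539), (63, 32), (72, 5)]), (4, [(0, 569), (4, 923), (15, 8801), (63, 47), (72, 26)]), (2, [(19, 29), (21, 72), (73, 1),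 (82, 1)]), (1, [(0, 5), (20, 5), (25, 1), (81, 1)]), (2, [(19, 18), (21, 82), (73, 1)]), (1, [(0, 10), (25, 1), (81, 1)]), (4, [(0, 216), (4, 4653), (15, 5299), (63, 42), (72, 5)]), (0, [(63, 2)]), (1, [(68, 11)]), (2, [(63, 4), (64, 97), (72, 1)]), (2, [(63, 7), (64, 95), (72, 1)]), (2, [(63, 9), (64, 93), (72, 1)]), (0, [(63, 2)]), (3, [(67, 1001)]), (4, [(64, 10001)]), (1, [(65, 7), (72, 5)]), (0, [(63, 2)]), (0, [(72, 2)]), (1, [(72, 11)]), (0, [(63, 2)]), (1, [(63, 11)]), (1, [(69, 6), (72, 3), (73, 2)]), (1, [(72, 11)]), (0, [(73, 2)]), (0, [(63, 2)]), (0, [(63, 2)]), (0, [(73, 2)])],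
  [(5, [(0, 426), (4, 99597), (63, 38), (64, 102), (72, 41)]), (5, [(30, 116), (42, 99408), (48, 7), (54, 716), (72, 337)]), (5, [(31, 83036), (42, 16455), (48, 6), (54, 534), (72, 318)]), (3, [(31, 67), (42, 929), (54, 6), (72, 3)]), (4, [(30, 4), (42, 10044), (54, 65), (72, 33)]), (4, [(30, 7), (42, 10087), (54, 65), (72, 39)]), (3, [(30, 220), (52, 899), (63, 3), (68, 4)]), (3, [(30, 139), (52, 990), (63, 1), (68, 5)]), (3, [(30, 177), (52, 918), (63, 2), (68, 4)]), (3, [(30, 199), (52, 908), (63, 2), (68, 5)]), (3, [(30, 209), (52, 903), (63, 3), (68, 5)]), (4, [(30, 11), (42, 10015), (54, 70), (72, 33)]), (4, [(30, 14), (42, 9999), (54, 41), (72, 23)]), (4, [(30, 8), (42, 10023), (54, 55), (72, 28)]), (4, [(30, 8), (42, 10046), (54, 62), (72, 34)]), (3, [(30, 1), (42, 993), (54, 6), (72, 4)]), (4, [(30, 10), (42, 10099), (54, 62), (72, 45)]), (3, [(30, 1), (42, 1013), (54, 6), (72, 5)]), (2,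 [(30, 22), (52, 90), (68, 1)]), (3, [(30, 160), (52, 925), (63, 1), (68, 5)]), (2, [(30, 19), (52, 91), (68, 1)]), (2, [(30, 21), (52, 90), (68, 1)]), (2, [(30, 21), (52, 90), (68, 1)]), (2, [(30, 22), (52, 90), (68, 1)]), (4, [(0, 221), (4, 9846), (63, 20), (64, 6), (72, 8)]), (5, [(0, 989), (4, 99162), (63, 90), (64, 82), (72, 61)]), (4, [(0, 142), (4, 9901), (63, 16), (64, 6), (72, 7)]), (5, [(0, 1701), (4, 99033), (63, 242), (64, 24), (72, 76)]), (4, [(0, 185), (4, 9456), (15, 461), (63, 33), (72, 7)]), (4, [(0, 400), (4, 9731), (63, 14), (64, 9), (72, 15)]), (4, [(0, 227), (4, 9911), (63, 7), (64, 11), (72, 6)]), (4, [(0, 314), (4, 9786), (63, 10), (64, 11), (72, 9)]), (4, [(0, 358), (4, 9756), (63, 11), (64, 13), (72, 11)]), (3, [(0, 38), (4, 974), (63, 1), (64, 2), (72, 1)]), (4, [(0, 215), (4, 8564), (15, 1358), (63, 30), (72, 7)]), (4, [(0, 205), (4, 9899), (63, 15), (64, 4), (72, 5)]),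 (4, [(0, 184), (4, 9213), (15, 724), (63, 25), (72, 6)]), (4, [(0, 184), (4, 7826), (15, 2134), (63, 33), (72, 6)]), (4, [(0, 188), (4, 6518), (15, 3465), (63, 42), (72, 6)]), (4, [(0, 190), (4, 5203), (15, 4805), (63, 51), (72, 5)]), (4, [(0, 189), (4, 3863), (15, 6171), (63, 60), (72, 4)]), (4, [(0, 406), (4, 9722), (63, 2), (64, 20), (72, 15)]), (3, [(0, 28), (4, 980), (64, 2), (72, 1)]), (4, [(0, 349), (4, 9865), (64, 21), (72, 13)]), (3, [(0, 38), (4, 974), (64, 3), (72, 1)]), (4, [(0, 392), (4, 9722), (63, 1), (64, 31), (72, 14)]), (3, [(0, 40), (4, 971), (64, 4), (72, 1)]), (2, [(68, 101)]), (2, [(63, 4), (64, 97), (72, 1)]), (0, [(30, 1), (63, 1)]), (3, [(30, 35), (52, 984), (68, 5)]), (5, [(31, 99749), (48, 5), (54, 69), (72, 259), (73, 22)]), (3, [(30, 167), (52, 922), (63, 2), (68, 4)]), (2, [(30, 22), (52, 90), (68, 1)]), (4, [(31, 9862), (54, 114), (72, 25), (73, 9)]), (4, [(30, 938),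 (52, 9550), (63, 11), (68, 42), (81, 2)]), (3, [(30, 389), (52, 839), (63, 4), (68, 3), (81, 1)]), (3, [(31, 983), (54, 25), (72, 4)]), (5, [(30, 58), (42, 99357), (48, 7), (54, 836), (72, 286)]), (4, [(30, 17), (42, 9974), (54, 98), (72, 34)]), (3, [(30, 4), (42, 989), (54, 11), (72, 4)]), (3, [(30, 1), (42, 975), (54, 40), (72, 4)]), (4, [(30, 65), (42, 9858), (54, 129), (72, 44)]), (3, [(30, 83), (42, 981), (54, 4), (72, 3)]), (4, [(30, 2289), (52, 8968), (63, 22), (68, 36), (81, 7)]), (3, [(31, 932), (54, 70), (72, 1), (73, 4)]), (3, [(30, 9), (42, 962), (54, 51), (72, 5)]), (2, [(30, 2), (42, 88), (54, 21), (72, 1)]), (2, [(48, 90), (54, 3), (55, 16), (73, 1)]), (1, [(30, 10), (54, 1), (72, 1)]), (0, [(30, 1), (54, 1), (72, 1)]), (2, [(30, 46), (52, 97), (63, 1)]), (2, [(30, 31), (52, 88), (63, 1)]), (2, [(30, 119), (63, 1)]), (1, [(30, 10), (61, 1), (81, 1)]), (1, [(30, 5), (54, 5), (61, 1),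 (81, 1)]), (0, [(55, 11)]), (0, [(55, 9)]), (2, [(30, 21), (52, 90), (68, 1)]), (0, [(0, 1), (63, 1)]), (3, [(0, 74), (4, 956), (63, 1), (64, 2), (72, 2)]), (3, [(0, 73), (4, 957), (63, 2), (64, 1), (72, 2)]), (4, [(0, 657), (4, 9605), (63, 15), (64, 11), (72, 16)]), (4, [(0, 816), (4, 9531), (64, 3), (72, 35)]), (4, [(0, 580), (4, 9649), (63, 14), (64, 9), (72, 12)]), (4, [(0, 299), (4, 9800), (64, 4), (72, 25)]), (4, [(0, 423), (4, 9735), (63, 13), (64, 9), (72, 9)]), (4, [(0, 407), (4, 9715), (64, 38), (72, 15)]), (5, [(0, 1543), (4, 98793), (64, 52), (70, 1), (72, 184)]), (4, [(0, 765), (4, 9546), (20, 27), (72, 37)]), (3, [(0, 84), (4, 952), (63, 3), (64, 1), (72, 1)]), (4, [(0, 1419), (4, 9234), (63, 29), (64, 5), (72, 25)]), (3, [(17, 972), (18, 14), (20, 80), (72, 4)]), (4, [(0, 782), (4, 9576), (63, 20), (64, 4), (72, 7)]), (3, [(0, 41), (4, 972), (20, 1), (72, 3)]), (4, [(0, 749), (4,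 9566), (63, 3), (64, 1), (72, 38)]), (3, [(0, 145), (4, 905), (15, 18), (63, 1), (72, 5)]), (4, [(17, 9228), (18, 735), (20, 183), (72, 24), (78, 2)]), (4, [(0, 304), (4, 9955), (63, 22), (64, 1), (72, 6)]), (4, [(0, 204), (4, 7385), (15, 2581), (63, 49), (72, 6)]), (4, [(0, 195), (4, 3105), (15, 6915), (63, 62), (72, 4)]), (2, [(0, 37), (24, 83), (63, 1)]), (3, [(18, 930), (20, 157), (72, 2), (73, 2)]), (1, [(0, 10), (20, 1), (72, 1)]), (0, [(0, 1), (20, 1), (72, 1)]), (4, [(0, 242), (4, 7821), (15, 2081), (63, 33), (72, 6)]), (4, [(0, 570), (4, 2269), (15, 7453), (63, 48), (72, 27)]), (2, [(19, 29), (21, 72), (73, 1), (82, 1)]), (1, [(0, 5), (20, 5), (25, 1), (81, 1)]), (2, [(19, 19), (21, 82), (73, 1), (82, 1)]), (1, [(0, 10), (25, 1), (81, 1)]), (4, [(0, 215), (4, 6054), (15, 3895), (63, 43), (72, 5)]), (0, [(63, 2)]), (2, [(68, 101)]), (2, [(63, 4), (64, 97), (72, 1)]), (2, [(63, 7), (64, 95),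 (72, 1)]), (2, [(63, 9), (64, 93), (72, 1)]), (0, [(63, 2)]), (3, [(67, 1001)]), (4, [(64, 10001)]), (1, [(65, 7), (72, 5)]), (0, [(63, 2)]), (0, [(72, 2)]), (1, [(72, 11)]), (0, [(63, 2)]), (1, [(63, 11)]), (1, [(69, 6), (72, 3), (73, 2)]), (1, [(72, 11)]), (0, [(73, 2)]), (0, [(63, 2)]), (0, [(63, 2)]), (0, [(73, 2)])],
  [(3, [(63, 2), (64, 993), (81, 6)]), (3, [(66, 980), (72, 18), (73, 1), (80, 10)]), (3, [(66, 990), (72, 6), (73, 2), (80, 6)]), (2, [(66, 99), (72, 1), (80, 1)]), (2, [(67, 99), (72, 1), (80, 1)]), (2, [(67, 99), (72, 1), (80, 1)]), (2, [(68, 101)]), (1, [(68, 11)]), (1, [(68, 11)]), (1, [(68, 11)]), (1, [(68, 11)]), (2, [(67, 98), (72, 1), (80, 1)]), (3, [(67, 988), (72, 15), (80, 7)]), (2, [(67, 99), (72, 1), (80, 1)]), (2, [(67, 99), (72, 1), (80, 1)]), (2, [(67, 99), (72, 1), (80, 1)]), (2, [(67, 99), (72, 1), (80, 1)]), (2, [(67, 99), (72, 1), (80, 1)]), (2, [(68, 101)]),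 (1, [(68, 11)]), (1, [(68, 11)]), (2, [(68, 101)]), (2, [(68, 101)]), (2, [(68, 101)]), (2, [(63, 2), (64, 98), (81, 1)]), (3, [(63, 7), (64, 985), (72, 1), (81, 10)]), (3, [(63, 11), (64, 981), (81, 15)]), (3, [(63, 14), (64, 979), (81, 16)]), (3, [(63, 16), (64, 977), (81, 17)]), (2, [(63, 3), (64, 98)]), (2, [(63, 2), (64, 98), (81, 1)]), (2, [(63, 3), (64, 98)]), (2, [(63, 3), (64, 98)]), (2, [(63, 3), (64, 98)]), (3, [(63, 18), (64, 974), (81, 17)]), (3, [(63, 19), (64, 980), (81, 11)]), (3, [(63, 16), (64, 979), (81, 14)]), (3, [(63, 16), (64, 977), (68, 1), (81, 16)]), (3, [(63, 17), (64, 976), (81, 16)]), (3, [(63, 18), (64, 975), (68, 1), (81, 17)]), (3, [(63, 18), (64, 975), (68, 1), (81, 17)]), (2, [(63, 4), (64, 97), (72, 1)]), (2, [(63, 2), (64, 98), (72, 1)]), (2, [(63, 3), (64, 97), (72, 1)]), (2, [(63, 3), (64, 97), (72, 1)]), (2, [(63, 3), (64, 97), (72, 1)]), (2, [(63, 4), (64,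 97), (72, 1)]), (1, [(63, 1), (64, 4), (68, 5)]), (2, [(64, 47), (70, 47), (72, 8)]), (0, [(63, 1)]), (1, [(68, 11)]), (3, [(66, 996), (72, 1), (73, 2), (80, 2)]), (2, [(68, 101)]), (1, [(68, 11)]), (3, [(66, 981), (72, 9), (73, 11), (80, 8)]), (1, [(68, 11)]), (2, [(68, 101)]), (2, [(66, 97), (72, 2), (73, 1), (80, 1)]), (3, [(66, 981), (72, 16), (73, 2), (80, 10)]), (2, [(66, 98), (72, 2), (80, 1)]), (2, [(66, 97), (72, 4), (80, 1)]), (2, [(66, 95), (72, 4), (73, 1), (80, 1)]), (2, [(66, 95), (72, 5), (80, 2)]), (2, [(63, 7), (70, 92), (72, 11)]), (2, [(68, 101)]), (2, [(66, 92), (72, 6), (73, 6), (80, 2)]), (2, [(66, 92), (72, 10), (73, 2), (80, 2)]), (1, [(66, 8), (72, 3), (73, 1)]), (1, [(74, 11)]), (0, [(63, 2)]), (0, [(72, 2)]), (2, [(68, 101)]), (2, [(68, 101)]), (0, [(63, 2)]), (0, [(63, 2)]), (0, [(72, 2)]), (0, [(73, 2)]), (0, [(73, 2)]), (1, [(68, 11)]), (0, [(63, 1)]), (2, [(63, 7),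 (64, 95), (72, 1)]), (2, [(63, 7), (64, 95), (72, 1), (81, 1)]), (2, [(63, 6), (64, 95), (72, 1)]), (2, [(63, 8), (64, 94), (72, 2), (81, 1)]), (2, [(63, 5), (64, 98)]), (2, [(63, 2), (64, 97), (72, 1), (81, 2)]), (2, [(63, 4), (64, 97), (81, 1)]), (2, [(63, 4), (64, 97), (72, 1)]), (2, [(63, 1), (64, 98), (72, 1), (81, 1)]), (2, [(63, 6), (64, 92), (72, 6), (81, 2)]), (2, [(63, 8), (64, 94), (81, 1)]), (2, [(63, 14), (64, 91), (72, 1), (81, 1)]), (2, [(71, 101)]), (2, [(63, 7), (64, 94), (81, 1)]), (2, [(63, 3), (64, 95), (72, 4), (81, 2)]), (2, [(63, 7), (64, 93), (72, 2), (81, 2)]), (2, [(63, 13), (64, 89), (72, 2), (81, 2)]), (2, [(69, 94), (73, 9)]), (2, [(63, 2), (64, 98), (81, 1)]), (3, [(63, 19), (64, 977), (68, 1), (81, 17)]), (3, [(63, 19), (64, 971), (68, 1), (81, 17)]), (1, [(75, 11)]), (2, [(71, 101)]), (0, [(63, 2)]), (0, [(72, 2)]), (3, [(63, 22), (64, 971), (68, 1), (81, 16)]), (2,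 [(63, 4), (64, 92), (81, 6)]), (0, [(73, 2)]), (0, [(72, 2)]), (0, [(73, 2)]), (0, [(63, 2)]), (3, [(63, 20), (64, 971), (68, 1), (81, 16)]), (0, [(63, 1)]), (1, [(63, 1), (64, 4), (68, 5)]), (2, [(64, 47), (70, 47), (72, 8)]), (2, [(63, 2), (64, 47), (70, 47), (72, 11)]), (2, [(63, 3), (64, 46), (70, 46), (72, 12)]), (0, [(63, 1)]), (2, [(65, 47), (69, 46), (72, 7), (73, 7)]), (2, [(63, 7), (64, 47), (70, 46), (72, 6)]), (1, [(65, 3), (69, 3), (72, 2), (73, 3)]), (0, [(63, 1)]), (0, [(72, 2)]), (0, [(73, 2)]), (0, [(63, 1)]), (0, [(72, 1)]), (1, [(73, 11)]), (0, [(73, 1)]), (0, [(73, 2)]), (0, [(72, 2)]), (0, [(63, 1)]), (0, [(73, 2)])],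
  [(0, [(63, 2)]), (0, [(63, 2)]), (0, [(63, 2)]), (0, [(63, 2)]), (0, [(63, 2)]), (0, [(63, 2)]), (0, [(63, 2)]), (0, [(63, 2)]), (0, [(63, 2)]), (0, [(63, 2)]), (0, [(63, 2)]), (0, [(63, 2)]), (0, [(63, 2)]), (0, [(63, 2)]), (0, [(63, 2)]), (0, [(63, 2)]), (0, [(63, 2)]), (0, [(63, 2)]), (0, [(63, 2)]), (0, [(63, 2)]), (0, [(63, 2)]), (0, [(63, 2)]), (0, [(63, 2)]), (0, [(63, 2)]), (0, [(63, 2)]), (0, [(63, 2)]), (0, [(63, 2)]), (0, [(63, 2)]), (0, [(63, 2)]), (0, [(63, 2)]), (0, [(63, 2)]), (0, [(63, 2)]), (0, [(63, 2)]), (0, [(63, 2)]), (0, [(63, 2)]), (0, [(63, 2)]), (0, [(63, 2)]), (0, [(63, 2)]), (0, [(63, 2)]), (0, [(63, 2)]), (0, [(63, 2)]), (0, [(63, 2)]), (0, [(63, 2)]), (0, [(63, 2)]), (0, [(63, 2)]), (0, [(63, 2)]), (0, [(63, 2)]), (0, [(63, 1)]), (0, [(63, 2)]), (0, [(63, 1)]), (0, [(63, 2)]), (0, [(63, 2)]), (0, [(63, 2)]), (0, [(63, 2)]), (0, [(63, 2)]), (0, [(63, 2)]), (0, [(63,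 2)]), (0, [(63, 2)]), (0, [(63, 2)]), (0, [(63, 2)]), (0, [(63, 2)]), (0, [(63, 2)]), (0, [(63, 2)]), (0, [(63, 2)]), (0, [(63, 2)]), (0, [(63, 2)]), (0, [(63, 2)]), (0, [(63, 2)]), (0, [(63, 2)]), (0, [(63, 2)]), (0, [(63, 2)]), (0, [(63, 2)]), (0, [(63, 2)]), (0, [(63, 2)]), (0, [(63, 2)]), (0, [(63, 2)]), (0, [(63, 2)]), (0, [(63, 2)]), (0, [(63, 2)]), (0, [(63, 1)]), (0, [(63, 2)]), (0, [(63, 2)]), (0, [(63, 2)]), (0, [(63, 2)]), (0, [(63, 2)]), (0, [(63, 2)]), (0, [(63, 2)]), (0, [(63, 2)]), (0, [(63, 2)]), (0, [(63, 2)]), (0, [(63, 2)]), (0, [(63, 2)]), (0, [(63, 2)]), (0, [(63, 2)]), (0, [(63, 2)]), (0, [(63, 2)]), (0, [(63, 2)]), (0, [(63, 2)]), (0, [(63, 2)]), (0, [(63, 2)]), (0, [(63, 2)]), (0, [(63, 2)]), (0, [(63, 2)]), (0, [(63, 2)]), (0, [(63, 2)]), (0, [(63, 2)]), (0, [(63, 2)]), (0, [(63, 2)]), (0, [(63, 2)]), (0, [(63, 2)]), (0, [(63, 2)]), (0, [(63, 2)]), (0, [(63, 1)]), (0, [(63,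 1)]), (0, [(63, 2)]), (0, [(63, 2)]), (0, [(63, 2)]), (0, [(63, 1)]), (0, [(63, 2)]), (0, [(63, 1)]), (0, [(63, 2)]), (0, [(63, 1)]), (0, [(63, 2)]), (0, [(63, 2)]), (0, [(63, 1)]), (0, [(63, 1)]), (0, [(63, 2)]), (0, [(63, 2)]), (0, [(63, 2)]), (0, [(63, 2)]), (0, [(63, 1)]), (0, [(63, 2)])]]

set_option maxRecDepth 100000 in
theorem okUG6 : chkRect LD LG LU6 cUG6 = true := by decide +kernel

end Pool.Agent.Lib.MP_dbb03c_co.Full
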