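import Pool.Agent.Lib.MP_dbb03c_co.Full.Data

/-! # Certificate data (generated) -/

namespace Pool.Agent.Lib.MP_dbb03c_co.Full

set_option maxRecDepth 100000 in
def cUG7 : List (List Ct) := [
  [(0, [(72, 2)]), (0, [(73, 2)]), (0, [(73, 2)]), (0, [(73, 2)]), (0, [(73, 2)]), (0, [(73, 2)]), (0, [(63, 2)]), (0, [(63, 2)]), (0, [(63, 2)]), (0, [(63, 2)]), (0, [(63, 2)]), (0, [(73, 2)]), (0, [(73, 2)]), (0, [(73, 2)]), (0, [(73, 2)]), (0, [(73, 2)]), (0, [(73, 2)]), (0, [(73, 2)]), (0, [(63, 2)]), (0, [(63, 2)]), (0, [(63, 2)]), (0, [(63, 2)]), (0, [(63, 2)]), (0, [(63, 2)]), (0, [(72, 2)]), (0, [(72, 2)]), (0, [(72, 2)]), (0, [(72, 2)]), (0, [(72, 2)]), (0, [(72, 2)]), (0, [(72, 2)]), (0, [(72, 2)]), (0, [(72, 2)]), (0, [(72, 2)]), (0, [(72, 2)]), (0, [(72, 2)]), (0, [(72, 2)]), (0, [(72, 2)]), (0, [(72, 2)]), (0, [(72,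 2)]), (0, [(72, 2)]), (0, [(72, 2)]), (0, [(72, 2)]), (0, [(72, 2)]), (0, [(72, 2)]), (0, [(72, 2)]), (0, [(72, 2)]), (0, [(63, 1)]), (0, [(72, 2)]), (0, [(63, 1)]), (0, [(63, 2)]), (0, [(73, 2)]), (0, [(63, 2)]), (0, [(63, 2)]), (0, [(73, 2)]), (0, [(63, 2)]), (0, [(63, 2)]), (0, [(73, 2)]), (0, [(73, 2)]), (0, [(73, 2)]), (0, [(73, 2)]), (0, [(73, 2)]), (0, [(73, 2)]), (0, [(72, 2)]), (0, [(63, 2)]), (0, [(73, 2)]), (0, [(73, 2)]), (0, [(73, 2)]), (0, [(73, 2)]), (0, [(72, 2)]), (0, [(73, 2)]), (0, [(63, 2)]), (0, [(63, 2)]), (0, [(63, 2)]), (0, [(72, 2)]), (0, [(73, 2)]), (0, [(73, 2)]), (0, [(73, 2)]), (0, [(63, 2)]), (0, [(63, 1)]), (0, [(72, 2)]), (0, [(72, 2)]), (0, [(72, 2)]), (0, [(72, 2)]), (0, [(72, 2)]), (0, [(72, 2)]), (0, [(72, 2)]), (0, [(72, 2)]), (0, [(72, 2)]), (0, [(72, 2)]), (0, [(72, 2)]), (0,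 [(72, 2)]), (0, [(73, 2)]), (0, [(72, 2)]), (0, [(72, 2)]), (0, [(72, 2)]), (0, [(72, 2)]), (0, [(73, 2)]), (0, [(72, 2)]), (0, [(72, 2)]), (0, [(72, 2)]), (0, [(63, 2)]), (0, [(73, 2)]), (0, [(72, 2)]), (0, [(73, 2)]), (0, [(72, 2)]), (0, [(72, 2)]), (0, [(73, 2)]), (0, [(73, 2)]), (0, [(73, 2)]), (0, [(72, 2)]), (0, [(72, 2)]), (0, [(63, 1)]), (0, [(63, 1)]), (0, [(72, 2)]), (0, [(72, 2)]), (0, [(72, 2)]), (0, [(63, 1)]), (0, [(73, 1)]), (0, [(72, 1)]), (0, [(73, 2)]), (0, [(72, 1)]), (0, [(73, 1)]), (0, [(73, 2)]), (0, [(63, 1)]), (0, [(72, 1)]), (0, [(73, 2)]), (0, [(73, 1)]), (0, [(73, 2)]), (0, [(73, 1)]), (0, [(72, 1)]), (0, [(73, 2)])],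
  [(3, [(70, 1001)]), (0, [(71, 1)]), (0, [(71, 1)]), (2, [(71, 101)]), (2, [(71, 101)]), (2, [(71, 101)]), (2, [(63, 14), (64, 91), (81, 2)]), (2, [(63, 9), (64, 95), (81, 1)]), (2, [(63, 11), (64, 93), (81, 1)]), (2, [(63, 13), (64, 93), (81, 2)]), (2, [(63, 14), (64, 92), (81, 2)]), (0, [(71, 1)]), (2, [(69, 93), (71, 3), (73, 9)]), (2, [(71, 101)]), (2, [(71, 101)]), (2, [(71, 101)]), (2, [(71, 101)]), (2, [(71, 101)]), (2, [(63, 15), (64, 92), (81, 1)]), (2, [(63, 10), (64, 94), (81, 2)]), (3, [(64, 1001)]), (3, [(64, 1001)]), (3, [(64, 1001)]), (3, [(64, 1001)]), (2, [(67, 95), (72, 9)]), (2, [(67, 98), (72, 4)]), (2, [(67, 97), (72, 6)]), (2, [(67, 96), (72, 7)]), (2, [(67, 96), (72, 8)]), (1, [(67, 9), (72, 1)]), (2, [(67, 40), (70, 54), (72, 8)]), (2, [(67, 77), (70, 17), (72, 12)]), (2, [(67, 94), (72, 13)]),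 (3, [(67, 1001)]), (2, [(67, 95), (72, 9)]), (2, [(67, 7), (70, 90), (72, 8)]), (2, [(67, 96), (72, 8)]), (2, [(67, 96), (72, 8)]), (2, [(67, 96), (72, 8)]), (2, [(67, 95), (72, 8)]), (2, [(67, 95), (72, 9)]), (0, [(67, 1)]), (3, [(67, 1001)]), (2, [(67, 101)]), (2, [(67, 101)]), (2, [(67, 101)]), (3, [(67, 1001)]), (2, [(63, 7), (64, 47), (70, 46), (72, 6)]), (2, [(65, 47), (69, 46), (72, 7), (73, 7)]), (0, [(63, 1)]), (2, [(63, 2), (64, 99)]), (3, [(69, 1001)]), (2, [(63, 10), (64, 92), (81, 4)]), (3, [(64, 1001)]), (0, [(71, 1)]), (2, [(63, 5), (64, 95), (81, 3)]), (1, [(63, 2), (64, 9)]), (2, [(71, 101)]), (2, [(71, 101)]), (2, [(71, 101)]), (0, [(71, 1)]), (2, [(71, 101)]), (2, [(71, 101)]), (2, [(76, 101)]), (2, [(63, 14), (64, 90), (72, 2), (81, 5)]), (2, [(71, 101)]), (2, [(71, 101)]), (1, [(73, 11)]), (0,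 [(82, 1)]), (0, [(72, 2)]), (0, [(73, 2)]), (1, [(63, 3), (64, 9)]), (1, [(63, 2), (64, 9)]), (0, [(63, 2)]), (0, [(72, 2)]), (0, [(73, 2)]), (0, [(73, 2)]), (0, [(73, 2)]), (3, [(64, 1001)]), (0, [(63, 1)]), (0, [(67, 1)]), (1, [(67, 9), (72, 2)]), (1, [(70, 9), (72, 2)]), (1, [(67, 9), (72, 3)]), (1, [(70, 9), (72, 2)]), (2, [(67, 93), (72, 10), (80, 3)]), (2, [(70, 93), (72, 13)]), (2, [(67, 101)]), (2, [(67, 96), (72, 5), (80, 2)]), (1, [(66, 9), (72, 3)]), (2, [(63, 2), (70, 91), (72, 17)]), (1, [(70, 8), (72, 4)]), (1, [(74, 11)]), (2, [(63, 3), (70, 93), (72, 12)]), (2, [(66, 90), (72, 14), (73, 2), (80, 4)]), (1, [(67, 9), (72, 2)]), (1, [(67, 7), (72, 4)]), (1, [(77, 11)]), (2, [(70, 95), (72, 10)]), (2, [(67, 95), (72, 9)]), (2, [(67, 95), (72, 9)]), (2, [(68, 101)]), (1, [(74, 11)]), (0, [(72, 2)]), (0,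 [(73, 2)]), (2, [(67, 68), (70, 27), (72, 10)]), (1, [(67, 9), (72, 2)]), (1, [(73, 11)]), (0, [(73, 2)]), (0, [(73, 2)]), (0, [(72, 2)]), (2, [(67, 95), (72, 9)]), (0, [(63, 1)]), (2, [(63, 7), (64, 47), (70, 47), (72, 6)]), (2, [(65, 47), (69, 46), (72, 7), (73, 7)]), (1, [(65, 5), (69, 4), (72, 1), (73, 1)]), (1, [(65, 4), (69, 4), (72, 2), (73, 1)]), (0, [(63, 1)]), (1, [(71, 5), (73, 2), (74, 6)]), (1, [(65, 4), (69, 4), (72, 3)]), (1, [(73, 11)]), (0, [(72, 1)]), (0, [(73, 1)]), (0, [(73, 2)]), (0, [(63, 1)]), (0, [(72, 1)]), (1, [(73, 4), (74, 3), (82, 3)]), (0, [(73, 1)]), (0, [(73, 2)]), (0, [(73, 1)]), (0, [(72, 1)]), (0, [(73, 2)])],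
  [(0, [(63, 2)]), (0, [(72, 2)]), (0, [(72, 2)]), (0, [(72, 2)]), (0, [(72, 2)]), (0, [(72, 2)]), (0, [(63, 2)]), (0, [(63, 2)]), (0, [(63, 2)]), (0, [(63, 2)]), (0, [(63, 2)]), (0, [(72, 2)]), (0, [(72, 2)]), (0, [(72, 2)]), (0, [(72, 2)]), (0, [(72, 2)]), (0, [(72, 2)]), (0, [(72, 2)]), (0, [(63, 2)]), (0, [(63, 2)]), (0, [(63, 2)]), (0, [(63, 2)]), (0, [(63, 2)]), (0, [(63, 2)]), (0, [(63, 2)]), (0, [(63, 2)]), (0, [(63, 2)]), (0, [(63, 2)]), (0, [(63, 2)]), (0, [(63, 2)]), (0, [(63, 2)]), (0, [(63, 2)]), (0, [(63, 2)]), (0, [(63, 2)]), (0, [(63, 2)]), (0, [(63, 2)]), (0, [(63, 2)]), (0, [(63, 2)]), (0, [(63, 2)]), (0, [(63, 2)]), (0, [(63, 2)]), (0, [(63, 2)]), (0, [(63, 2)]), (0, [(63, 2)]), (0, [(63, 2)]), (0, [(63, 2)]), (0, [(63, 2)]), (0, [(63, 1)]), (0, [(63, 2)]), (0, [(63, 1)]), (0, [(63, 2)]), (0, [(72,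 2)]), (0, [(63, 2)]), (0, [(63, 2)]), (0, [(72, 2)]), (0, [(63, 2)]), (0, [(63, 2)]), (0, [(72, 2)]), (0, [(72, 2)]), (0, [(72, 2)]), (0, [(72, 2)]), (0, [(72, 2)]), (0, [(63, 2)]), (0, [(63, 2)]), (0, [(63, 2)]), (0, [(72, 2)]), (0, [(72, 2)]), (0, [(72, 2)]), (0, [(73, 2)]), (0, [(63, 2)]), (0, [(72, 2)]), (0, [(63, 2)]), (0, [(63, 2)]), (0, [(63, 2)]), (0, [(63, 2)]), (0, [(72, 2)]), (0, [(73, 2)]), (0, [(72, 2)]), (0, [(63, 2)]), (0, [(63, 1)]), (0, [(63, 2)]), (0, [(63, 2)]), (0, [(63, 2)]), (0, [(63, 2)]), (0, [(63, 2)]), (0, [(63, 2)]), (0, [(63, 2)]), (0, [(63, 2)]), (0, [(63, 2)]), (0, [(63, 2)]), (0, [(63, 2)]), (0, [(63, 2)]), (0, [(72, 2)]), (0, [(63, 2)]), (0, [(63, 2)]), (0, [(63, 2)]), (0, [(63, 2)]), (0, [(72, 2)]), (0, [(63, 2)]), (0, [(63, 2)]), (0, [(63, 2)]), (0, [(63, 2)]), (0, [(72, 2)]), (0,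 [(63, 2)]), (0, [(72, 2)]), (0, [(63, 2)]), (0, [(63, 2)]), (0, [(73, 2)]), (0, [(72, 2)]), (0, [(73, 2)]), (0, [(63, 2)]), (0, [(63, 2)]), (0, [(63, 1)]), (0, [(63, 1)]), (0, [(63, 2)]), (0, [(63, 2)]), (0, [(63, 2)]), (0, [(63, 1)]), (0, [(72, 2)]), (0, [(63, 1)]), (0, [(72, 2)]), (0, [(63, 1)]), (0, [(72, 2)]), (0, [(72, 2)]), (0, [(63, 1)]), (0, [(63, 1)]), (0, [(72, 2)]), (0, [(72, 2)]), (0, [(72, 2)]), (0, [(63, 2)]), (0, [(63, 1)]), (0, [(73, 2)])],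
  [(1, [(68, 11)]), (2, [(63, 8), (64, 93), (72, 6)]), (2, [(63, 3), (64, 95), (72, 4)]), (2, [(63, 5), (64, 95), (72, 5)]), (2, [(63, 6), (64, 94), (72, 5)]), (4, [(64, 10001)]), (0, [(63, 2)]), (0, [(63, 2)]), (0, [(63, 2)]), (0, [(63, 2)]), (0, [(63, 2)]), (3, [(64, 1001)]), (2, [(63, 8), (64, 94), (72, 4)]), (3, [(64, 1001)]), (3, [(64, 1001)]), (3, [(64, 1001)]), (3, [(64, 1001)]), (4, [(64, 10001)]), (0, [(63, 2)]), (0, [(63, 2)]), (0, [(63, 2)]), (0, [(63, 2)]), (0, [(63, 2)]), (0, [(63, 2)]), (2, [(68, 101)]), (1, [(68, 11)]), (1, [(68, 11)]), (1, [(68, 11)]), (1, [(68, 11)]), (2, [(68, 101)]), (2, [(68, 101)]), (2, [(68, 101)]), (2, [(68, 101)]), (2, [(68, 101)]), (1, [(68, 11)]), (1, [(68, 11)]), (1, [(68, 11)]), (1, [(68, 11)]), (1, [(68, 11)]), (1, [(68, 11)]), (1, [(68, 11)]), (2, [(68, 101)]), (2, [(68,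 101)]), (2, [(68, 101)]), (2, [(68, 101)]), (2, [(68, 101)]), (2, [(68, 101)]), (0, [(63, 1)]), (2, [(63, 29), (64, 32), (68, 34), (81, 6)]), (0, [(63, 1)]), (1, [(75, 11)]), (2, [(63, 1), (64, 98), (72, 3)]), (0, [(63, 2)]), (0, [(63, 2)]), (2, [(63, 4), (64, 92), (72, 12)]), (0, [(63, 2)]), (0, [(63, 2)]), (2, [(63, 8), (64, 89), (72, 15)]), (2, [(63, 7), (64, 93), (72, 6)]), (2, [(63, 10), (64, 92), (72, 7)]), (2, [(63, 14), (64, 90), (72, 7)]), (1, [(63, 1), (64, 9), (72, 2)]), (1, [(63, 2), (64, 9)]), (1, [(63, 11)]), (0, [(63, 2)]), (2, [(81, 101)]), (1, [(63, 3), (64, 7), (72, 2)]), (1, [(81, 11)]), (1, [(72, 11)]), (0, [(63, 2)]), (0, [(63, 2)]), (0, [(63, 2)]), (0, [(63, 2)]), (0, [(63, 2)]), (0, [(63, 2)]), (0, [(63, 2)]), (0, [(73, 2)]), (0, [(73, 2)]), (0, [(63, 2)]), (0, [(63, 1)]), (1, [(63, 11)]), (1,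 [(63, 11)]), (1, [(63, 11)]), (1, [(63, 11)]), (1, [(63, 11)]), (2, [(68, 101)]), (2, [(68, 101)]), (2, [(68, 101)]), (2, [(68, 101)]), (1, [(63, 11)]), (1, [(63, 11)]), (0, [(63, 2)]), (1, [(72, 11)]), (1, [(63, 11)]), (2, [(68, 101)]), (1, [(63, 11)]), (0, [(63, 2)]), (0, [(67, 1)]), (1, [(68, 11)]), (1, [(68, 11)]), (1, [(68, 11)]), (0, [(63, 2)]), (0, [(72, 2)]), (0, [(63, 2)]), (0, [(63, 2)]), (1, [(68, 11)]), (1, [(63, 11)]), (0, [(73, 2)]), (0, [(63, 2)]), (0, [(73, 2)]), (0, [(63, 2)]), (1, [(68, 11)]), (0, [(63, 1)]), (0, [(63, 1)]), (2, [(63, 29), (64, 32), (68, 34), (81, 6)]), (1, [(63, 5), (64, 3), (68, 3), (81, 1)]), (1, [(63, 11)]), (0, [(63, 1)]), (1, [(63, 1), (64, 3), (70, 3), (72, 4)]), (0, [(63, 1)]), (0, [(72, 2)]), (0, [(63, 1)]), (0, [(63, 2)]), (0, [(72, 2)]), (0, [(63, 1)]), (0, [(63, 1)]),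 (0, [(72, 2)]), (0, [(72, 2)]), (0, [(72, 2)]), (0, [(63, 2)]), (0, [(63, 1)]), (0, [(73, 2)])],
  [(2, [(76, 101)]), (0, [(74, 1)]), (1, [(74, 11)]), (1, [(74, 11)]), (1, [(74, 11)]), (1, [(74, 11)]), (1, [(63, 11)]), (2, [(63, 50), (64, 1), (70, 47), (72, 5)]), (1, [(63, 11)]), (1, [(63, 11)]), (1, [(63, 11)]), (0, [(74, 1)]), (1, [(74, 11)]), (1, [(74, 11)]), (1, [(74, 11)]), (1, [(74, 11)]), (1, [(74, 11)]), (1, [(74, 11)]), (1, [(63, 11)]), (1, [(63, 11)]), (1, [(63, 11)]), (1, [(63, 11)]), (1, [(63, 11)]), (1, [(63, 11)]), (3, [(72, 1001)]), (3, [(76, 1001)]), (3, [(76, 1001)]), (3, [(76, 1001)]), (3, [(76, 1001)]), (1, [(72, 11)]), (2, [(76, 101)]), (1, [(72, 11)]), (1, [(72, 11)]), (1, [(72, 11)]), (2, [(72, 101)]), (2, [(76, 101)]), (3, [(76, 1001)]), (3, [(76, 1001)]), (3, [(76, 1001)]), (3, [(76, 1001)]),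 (3, [(76, 1001)]), (1, [(72, 11)]), (1, [(72, 11)]), (1, [(72, 11)]), (1, [(72, 11)]), (1, [(72, 11)]), (1, [(72, 11)]), (0, [(72, 1)]), (0, [(73, 1)]), (0, [(63, 1)]), (2, [(63, 25), (70, 82), (72, 5)]), (0, [(74, 1)]), (1, [(63, 11)]), (1, [(63, 11)]), (1, [(74, 11)]), (1, [(63, 4), (70, 6), (72, 2)]), (0, [(63, 2)]), (1, [(73, 11)]), (1, [(74, 11)]), (1, [(73, 11)]), (0, [(73, 2)]), (0, [(73, 2)]), (0, [(73, 2)]), (0, [(72, 2)]), (1, [(63, 11)]), (0, [(73, 2)]), (0, [(73, 2)]), (0, [(73, 2)]), (0, [(73, 2)]), (0, [(72, 2)]), (0, [(73, 2)]), (0, [(63, 2)]), (0, [(63, 2)]), (0, [(63, 2)]), (0, [(72, 2)]), (0, [(73, 2)]), (0, [(73, 2)]), (0, [(73, 2)]), (1, [(63, 11)]), (0, [(63, 1)]), (0, [(72, 2)]), (0, [(72, 2)]), (0, [(72, 2)]), (0, [(72, 2)]), (0, [(72, 2)]), (1, [(72, 11)]), (1, [(72, 11)]), (1, [(72, 11)]),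 (3, [(76, 1001)]), (0, [(72, 2)]), (0, [(72, 2)]), (0, [(72, 2)]), (0, [(73, 2)]), (0, [(72, 2)]), (1, [(72, 11)]), (0, [(72, 2)]), (0, [(72, 2)]), (1, [(79, 11)]), (1, [(72, 11)]), (2, [(72, 101)]), (2, [(72, 101)]), (0, [(63, 2)]), (0, [(73, 2)]), (0, [(72, 2)]), (0, [(73, 2)]), (1, [(72, 11)]), (0, [(72, 2)]), (0, [(73, 2)]), (0, [(73, 2)]), (0, [(73, 2)]), (0, [(72, 2)]), (2, [(72, 101)]), (0, [(63, 1)]), (0, [(72, 1)]), (0, [(73, 1)]), (0, [(73, 2)]), (0, [(73, 2)]), (0, [(63, 1)]), (0, [(73, 1)]), (0, [(72, 1)]), (0, [(73, 2)]), (0, [(72, 1)]), (0, [(73, 1)]), (0, [(73, 2)]), (0, [(63, 1)]), (0, [(73, 1)]), (0, [(73, 2)]), (0, [(73, 1)]), (0, [(73, 2)]), (0, [(73, 1)]), (0, [(72, 1)]), (0, [(73, 2)])],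
  [(1, [(72, 11)]), (0, [(72, 2)]), (0, [(73, 2)]), (0, [(73, 2)]), (0, [(73, 2)]), (0, [(72, 2)]), (0, [(63, 2)]), (0, [(63, 2)]), (0, [(63, 2)]), (0, [(63, 2)]), (0, [(63, 2)]), (0, [(72, 2)]), (0, [(72, 2)]), (0, [(72, 2)]), (0, [(72, 2)]), (0, [(72, 2)]), (0, [(72, 2)]), (0, [(72, 2)]), (0, [(63, 2)]), (0, [(63, 2)]), (0, [(63, 2)]), (0, [(63, 2)]), (0, [(63, 2)]), (0, [(63, 2)]), (0, [(63, 2)]), (0, [(72, 2)]), (0, [(72, 2)]), (0, [(63, 2)]), (0, [(63, 2)]), (0, [(63, 2)]), (0, [(63, 2)]), (0, [(63, 2)]), (0, [(63, 2)]), (0, [(63, 2)]), (0, [(63, 2)]), (0, [(63, 2)]), (0, [(63, 2)]), (0, [(63, 2)]), (0, [(63, 2)]), (0, [(63, 2)]), (0, [(63, 2)]), (0, [(63, 2)]), (0, [(72, 2)]), (0, [(63, 2)]), (0, [(63, 2)]), (0, [(63, 2)]), (0, [(63, 2)]), (0, [(63, 1)]), (0, [(72, 2)]), (0, [(63, 1)]), (0, [(63, 2)]), (1, [(73,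 11)]), (0, [(63, 2)]), (0, [(63, 2)]), (0, [(73, 2)]), (0, [(63, 2)]), (0, [(63, 2)]), (0, [(73, 2)]), (0, [(73, 2)]), (0, [(72, 2)]), (0, [(72, 2)]), (0, [(73, 2)]), (0, [(72, 2)]), (0, [(72, 2)]), (0, [(63, 2)]), (0, [(73, 2)]), (0, [(72, 2)]), (0, [(73, 2)]), (0, [(73, 2)]), (0, [(72, 2)]), (0, [(73, 2)]), (0, [(63, 2)]), (0, [(63, 2)]), (0, [(63, 2)]), (0, [(63, 2)]), (0, [(72, 2)]), (0, [(73, 2)]), (0, [(73, 2)]), (0, [(63, 2)]), (0, [(63, 1)]), (0, [(63, 2)]), (0, [(63, 2)]), (0, [(63, 2)]), (0, [(63, 2)]), (0, [(63, 2)]), (0, [(72, 2)]), (0, [(63, 2)]), (0, [(63, 2)]), (0, [(72, 2)]), (0, [(72, 2)]), (0, [(63, 2)]), (0, [(63, 2)]), (0, [(73, 2)]), (0, [(63, 2)]), (0, [(72, 2)]), (0, [(72, 2)]), (0, [(63, 2)]), (0, [(73, 2)]), (0, [(63, 2)]), (0, [(63, 2)]), (0, [(63, 2)]), (0, [(63, 2)]), (0, [(73, 2)]), (0,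 [(72, 2)]), (0, [(73, 2)]), (0, [(63, 2)]), (0, [(72, 2)]), (0, [(73, 2)]), (0, [(72, 2)]), (0, [(73, 2)]), (0, [(63, 2)]), (0, [(63, 2)]), (0, [(63, 1)]), (0, [(63, 1)]), (0, [(72, 2)]), (0, [(72, 2)]), (0, [(72, 2)]), (0, [(63, 1)]), (0, [(73, 1)]), (0, [(72, 1)]), (0, [(73, 2)]), (0, [(72, 1)]), (0, [(73, 1)]), (0, [(73, 2)]), (0, [(63, 1)]), (0, [(72, 1)]), (0, [(73, 2)]), (0, [(73, 1)]), (0, [(73, 2)]), (0, [(72, 2)]), (0, [(63, 1)]), (0, [(73, 2)])],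
  [(0, [(63, 2)]), (0, [(63, 2)]), (1, [(81, 11)]), (1, [(81, 11)]), (1, [(63, 11)]), (1, [(63, 11)]), (0, [(63, 2)]), (0, [(63, 2)]), (0, [(63, 2)]), (0, [(63, 2)]), (0, [(63, 2)]), (0, [(63, 2)]), (1, [(63, 11)]), (1, [(63, 11)]), (1, [(63, 11)]), (1, [(63, 11)]), (1, [(63, 11)]), (0, [(63, 2)]), (0, [(63, 2)]), (0, [(63, 2)]), (0, [(63, 2)]), (0, [(63, 2)]), (0, [(63, 2)]), (0, [(63, 2)]), (0, [(63, 2)]), (0, [(63, 2)]), (0, [(63, 2)]), (0, [(63, 2)]), (0, [(63, 2)]), (0, [(63, 2)]), (0, [(63, 2)]), (0, [(63, 2)]), (0, [(63, 2)]), (0, [(63, 2)]), (0, [(63, 2)]), (0, [(63, 2)]), (0, [(63, 2)]), (0, [(63, 2)]), (0, [(63, 2)]), (0, [(63, 2)]), (0, [(63, 2)]), (0, [(63, 2)]), (0, [(63, 2)]), (0, [(63, 2)]), (0, [(63, 2)]), (0, [(63, 2)]), (0, [(63, 2)]), (0, [(63, 1)]), (0, [(63, 2)]), (0, [(63, 1)]), (0, [(63, 2)]),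 (3, [(81, 1001)]), (0, [(63, 2)]), (0, [(63, 2)]), (0, [(81, 2)]), (0, [(63, 2)]), (0, [(63, 2)]), (0, [(81, 2)]), (1, [(63, 11)]), (0, [(63, 2)]), (0, [(63, 2)]), (0, [(81, 2)]), (0, [(63, 2)]), (0, [(63, 2)]), (0, [(63, 2)]), (0, [(81, 2)]), (0, [(63, 2)]), (0, [(81, 2)]), (0, [(72, 2)]), (0, [(63, 2)]), (0, [(63, 2)]), (0, [(63, 2)]), (0, [(63, 2)]), (0, [(63, 2)]), (0, [(63, 2)]), (0, [(63, 2)]), (0, [(73, 2)]), (0, [(72, 2)]), (0, [(63, 2)]), (0, [(63, 1)]), (0, [(63, 2)]), (0, [(63, 2)]), (0, [(63, 2)]), (0, [(63, 2)]), (0, [(63, 2)]), (0, [(63, 2)]), (0, [(63, 2)]), (0, [(63, 2)]), (0, [(63, 2)]), (0, [(63, 2)]), (0, [(63, 2)]), (0, [(63, 2)]), (0, [(72, 2)]), (0, [(63, 2)]), (0, [(63, 2)]), (0, [(63, 2)]), (0, [(63, 2)]), (0, [(72, 2)]), (0, [(63, 2)]), (0, [(63, 2)]), (0, [(63, 2)]), (0, [(63, 2)]), (0, [(72,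 2)]), (0, [(63, 2)]), (0, [(63, 2)]), (0, [(63, 2)]), (0, [(63, 2)]), (0, [(73, 2)]), (0, [(63, 2)]), (0, [(72, 2)]), (0, [(63, 2)]), (0, [(63, 2)]), (0, [(63, 1)]), (0, [(63, 1)]), (0, [(63, 2)]), (0, [(63, 2)]), (0, [(63, 2)]), (0, [(63, 1)]), (0, [(81, 2)]), (0, [(63, 1)]), (0, [(72, 2)]), (0, [(63, 1)]), (0, [(63, 2)]), (0, [(72, 2)]), (0, [(63, 1)]), (0, [(63, 1)]), (0, [(72, 2)]), (0, [(72, 2)]), (0, [(72, 2)]), (0, [(63, 2)]), (0, [(63, 1)]), (0, [(72, 2)])],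
  [(0, [(72, 2)]), (0, [(73, 2)]), (0, [(73, 2)]), (0, [(73, 2)]), (0, [(73, 2)]), (0, [(73, 2)]), (0, [(63, 2)]), (0, [(63, 2)]), (0, [(63, 2)]), (0, [(63, 2)]), (0, [(63, 2)]), (0, [(73, 2)]), (0, [(73, 2)]), (0, [(73, 2)]), (0, [(73, 2)]), (0, [(73, 2)]), (0, [(73, 2)]), (0, [(73, 2)]), (0, [(63, 2)]), (0, [(63, 2)]), (0, [(63, 2)]), (0, [(63, 2)]), (0, [(63, 2)]), (0, [(63, 2)]), (0, [(72, 2)]), (0, [(72, 2)]), (0, [(72, 2)]), (0, [(72, 2)]), (0, [(72, 2)]), (0, [(72, 2)]), (0, [(72, 2)]), (0, [(72, 2)]), (0, [(72, 2)]), (0, [(72, 2)]), (0, [(72, 2)]), (0, [(72, 2)]), (0, [(72, 2)]), (0, [(72, 2)]), (0, [(72, 2)]), (0, [(72, 2)]), (0, [(72, 2)]), (0, [(72, 2)]), (0, [(72, 2)]), (0, [(72, 2)]), (0, [(72, 2)]), (0, [(72, 2)]), (0, [(72, 2)]), (0, [(72, 1)]), (0, [(73, 1)]), (0, [(63, 1)]), (0, [(63, 2)]), (0, [(73,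 2)]), (0, [(63, 2)]), (0, [(63, 2)]), (0, [(73, 2)]), (0, [(63, 2)]), (0, [(63, 2)]), (0, [(73, 2)]), (0, [(73, 2)]), (0, [(73, 2)]), (0, [(73, 2)]), (0, [(73, 2)]), (0, [(73, 2)]), (0, [(73, 2)]), (0, [(63, 2)]), (0, [(73, 2)]), (0, [(73, 2)]), (0, [(73, 2)]), (0, [(73, 2)]), (0, [(72, 2)]), (0, [(73, 2)]), (0, [(63, 2)]), (0, [(63, 2)]), (0, [(63, 2)]), (0, [(72, 2)]), (0, [(73, 2)]), (0, [(73, 2)]), (0, [(73, 2)]), (0, [(63, 2)]), (0, [(63, 1)]), (0, [(72, 2)]), (0, [(72, 2)]), (0, [(72, 2)]), (0, [(72, 2)]), (0, [(72, 2)]), (0, [(72, 2)]), (0, [(72, 2)]), (0, [(72, 2)]), (0, [(72, 2)]), (0, [(72, 2)]), (0, [(72, 2)]), (0, [(72, 2)]), (0, [(73, 2)]), (0, [(72, 2)]), (0, [(73, 2)]), (0, [(72, 2)]), (0, [(72, 2)]), (0, [(73, 2)]), (0, [(72, 2)]), (0, [(72, 2)]), (0, [(72, 2)]), (0, [(63, 2)]), (0, [(73, 2)]), (0,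 [(72, 2)]), (0, [(73, 2)]), (0, [(72, 2)]), (0, [(72, 2)]), (0, [(73, 2)]), (0, [(73, 2)]), (0, [(73, 2)]), (0, [(72, 2)]), (0, [(72, 2)]), (0, [(63, 1)]), (0, [(72, 1)]), (0, [(73, 1)]), (0, [(73, 2)]), (0, [(73, 2)]), (0, [(63, 1)]), (0, [(73, 1)]), (0, [(72, 1)]), (0, [(73, 2)]), (0, [(72, 1)]), (0, [(73, 1)]), (0, [(73, 2)]), (0, [(63, 1)]), (0, [(73, 1)]), (0, [(73, 2)]), (0, [(73, 1)]), (0, [(73, 2)]), (0, [(73, 1)]), (0, [(72, 1)]), (0, [(73, 2)])]]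

set_option maxRecDepth 100000 in
theorem okUG7 : chkRect LD LG LU7 cUG7 = true := by decide +kernel

end Pool.Agent.Lib.MP_dbb03c_co.Full
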