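import Pool.Agent.Lib.MP_dbb03c_co.Cone.Numeric

/-!
# Classes of rooted trees
-/

namespace Pool.Agent.Lib.MP_dbb03c_co.Full

open Pool.Agent.Lib.MP_dbb03c_co.Cone RT

/-- `pt`: one vertex; `q1`, `q2`: rooted paths with two, three vertices; `q`: longer rooted paths;
`g`: the tree `Eg` of size four; `e`: `Eg` under a chain; `m`: root of degree two with a short path
(`q1` or `q2`) and a longer path or `e`; `d`: all other trees with root degree at least two;
`u`: all other trees with root degree one -/
inductive Cls : Type
  | pt | q1 | q2 | q | e | g | m | u | d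
  deriving DecidableEq

/-- the classes with root degree one -/
def Cls.F1 : Cls → Prop
  | .q1 | .q2 | .q | .e | .u => True
  | _ => False

/-- a new root -/
def upC : Cls → Cls
  | .pt => .q1
  | .q1 => .q2
  | .q2 => .q
  | .q => .q
  | .g => .e
  | .e => .e
  | .m => .u
  | .u => .u
  | .d => .u

/-- product with a class of root degree one -/
def mulC : Cls → Cls → Cls
  | .pt, y => y
  | .q1, .q2 => .g
  | .q2, .q1 => .g
  | .q1, .q => .m
  | .q1, .e => .m
  | .q2, .q => .m
  | .q2, .e => .m
  | .q, .q1 => .m
  | .q, .q2 => .m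
  | .e, .q1 => .m
  | .e, .q2 => .m
  | _, _ => .d

/-- the class of a rooted tree -/
def cl : RT → Cls
  | .pt => .pt
  | .graft t c => mulC (cl t) (upC (cl c))

theorem upC_F1 (x : Cls) : (upC x).F1 := by
  cases x <;> trivial

end Pool.Agent.Lib.MP_dbb03c_co.Full
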