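import Pool.Agent.Lib.MP_dbb03c_co.Cone.Final
import Pool.Agent.Lib.MP_dbb03c_co.Full.CertP
import Pool.Agent.Lib.MP_dbb03c_co.Full.CertR
import Pool.Agent.Lib.MP_dbb03c_co.Full.CertT
import Pool.Agent.Lib.MP_dbb03c_co.Full.CertQ
import Pool.Agent.Lib.MP_dbb03c_co.Full.CertE
import Pool.Agent.Lib.MP_dbb03c_co.Full.CertU0
import Pool.Agent.Lib.MP_dbb03c_co.Full.CertU1
import Pool.Agent.Lib.MP_dbb03c_co.Full.CertU2
import Pool.Agent.Lib.MP_dbb03c_co.Full.CertU3
import Pool.Agent.Lib.MP_dbb03c_co.Full.CertU4
import Pool.Agent.Lib.MP_dbb03c_co.Full.CertU5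
import Pool.Agent.Lib.MP_dbb03c_co.Full.CertU6
import Pool.Agent.Lib.MP_dbb03c_co.Full.CertU7
import Pool.Agent.Lib.MP_dbb03c_co.Full.CertD
import Pool.Agent.Lib.MP_dbb03c_co.Full.ClsDef

/-!
# Every rooted tree lies in the hull of its class
-/

namespace Pool.Agent.Lib.MP_dbb03c_co.Full

open Pool.Agent.Lib.MP_dbb03c_co.Cone RT Matrix

/-- the hull of a class -/
def HL : Cls → List Vx
  | .pt => []
  | .q1 => Lq1
  | .q2 => Lq2
  | .q => LQ
  | .e => LE
  | .g => Lg
  | .m => LM
  | .u => LU
  | .d => LD

theorem pOk {x : Cls} (hx : x ≠ .pt) : ∀ v ∈ HL x, POk (HL (upC x)) v := by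
  cases x with
  | pt => exact absurd rfl hx
  | q1 => exact chkPs_sound okPq1
  | q2 => exact chkPs_sound okPq2
  | q => exact chkPs_sound okPQ
  | e => exact chkPs_sound okPE
  | g => exact chkPs_sound okPg
  | m => exact fun v hv => chkPs_sound okPMUD v (List.mem_append_left _ hv)
  | u =>
    intro v hv
    exact chkPs_sound okPMUD v (List.mem_append_right _ (List.mem_append_left _ hv))
  | d =>
    intro v hv
    exact chkPs_sound okPMUD v (List.mem_append_right _ (List.mem_append_right _ hv))

theorem LR_LU {v w : Vx} (hv : v ∈ LR) (hw : w ∈ LU) : MulOk LD v w :=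
  chkRect_sound okRU v hv w hw

theorem LU_LU {v w : Vx} (hv : v ∈ LU) (hw : w ∈ LU) : MulOk LD v w :=
  chkTri_sound okUU v hv w hw

theorem LF_LG {v w : Vx} (hv : v ∈ LF) (hw : w ∈ LG) : MulOk LD v w := by
  unfold LF LR LU at hv
  simp only [List.mem_append] at hv
  rcases hv with (h | h | h | h) | (h | h | h | h | h | h | h | h)
  · exact chkRect_sound okqQG v (List.mem_append_left _ h) w hw
  · exact chkRect_sound okqQG v (List.mem_append_right _ (List.mem_append_left _ h)) w hw
  · exact chkRect_sound okqQG v (List.mem_append_right _ (List.mem_append_right _ h)) w hw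
  · exact chkRect_sound okEG v h w hw
  · exact chkRect_sound okUG0 v h w hw
  · exact chkRect_sound okUG1 v h w hw
  · exact chkRect_sound okUG2 v h w hw
  · exact chkRect_sound okUG3 v h w hw
  · exact chkRect_sound okUG4 v h w hw
  · exact chkRect_sound okUG5 v h w hw
  · exact chkRect_sound okUG6 v h w hw
  · exact chkRect_sound okUG7 v h w hw

theorem mem_LF {y : Cls} (hy : y.F1) {w : Vx} (hw : w ∈ HL y) : w ∈ LF := by
  unfold LF LR
  simp only [List.mem_append]
  cases y <;> simp only [Cls.F1, HL] at hy hw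
  all_goals tauto

theorem mem_LG {x : Cls} (h0 : x ≠ .pt) (hx : ¬ x.F1) {v : Vx} (hv : v ∈ HL x) : v ∈ LG := by
  unfold LG
  simp only [List.mem_append]
  cases x <;> simp only [Cls.F1, HL, not_true_eq_false] at hx hv
  all_goals first
    | exact absurd rfl h0
    | tauto

theorem mulC_d {x y : Cls} (h0 : x ≠ .pt) (hx : ¬ x.F1) : mulC x y = .d := by
  cases x
  · exact absurd rfl h0
  all_goals first
    | exact absurd trivial hx
    | rfl

/-- products with a class of root degree at least two -/
theorem mOkG {x y : Cls} (h0 : x ≠ .pt) (hx : ¬ x.F1) (hy : y.F1) :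
    ∀ v ∈ HL x, ∀ w ∈ HL y, MulOk (HL (mulC x y)) v w := by
  intro v hv w hw
  rw [mulC_d h0 hx]
  exact (LF_LG (mem_LF hy hw) (mem_LG h0 hx hv)).symm

theorem q12 {v w : Vx} (hv : v ∈ Lq1) (hw : w ∈ Lq2) : MulOk Lg v w :=
  chkRect_sound ok12 v hv w hw

theorem sl {v w : Vx} (hv : v ∈ Lq1 ++ Lq2) (hw : w ∈ LQ ++ LE) : MulOk LM v w :=
  chkRect_sound okSL v hv w hw

theorem ll {v w : Vx} (hv : v ∈ LQ ++ LE) (hw : w ∈ LQ ++ LE) : MulOk LD v w :=
  chkTri_sound okLL v hv w hw

theorem q11 {v w : Vx} (hv : v ∈ Lq1) (hw : w ∈ Lq1) : MulOk LD v w :=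
  chkTri_sound ok11 v hv w hw

theorem q22 {v w : Vx} (hv : v ∈ Lq2) (hw : w ∈ Lq2) : MulOk LD v w :=
  chkTri_sound ok22 v hv w hw

theorem mem_LR {y : Cls} (hy : y = .q1 ∨ y = .q2 ∨ y = .q ∨ y = .e) {w : Vx} (hw : w ∈ HL y) :
    w ∈ LR := by
  unfold LR
  simp only [List.mem_append]
  rcases hy with rfl | rfl | rfl | rfl <;> simp only [HL] at hw <;> tauto

theorem mOkF {x y : Cls} (hx : x.F1) (hy : y.F1) :
    ∀ v ∈ HL x, ∀ w ∈ HL y, MulOk (HL (mulC x y)) v w := by
  intro v hv w hw
  by_cases hu : y = .u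
  · subst hu
    by_cases hu' : x = .u
    · subst hu'
      exact LU_LU hv hw
    · have h4 : x = .q1 ∨ x = .q2 ∨ x = .q ∨ x = .e := by
        cases x <;> simp [Cls.F1] at hx hu' ⊢
      have h5 : mulC x .u = .d := by
        rcases h4 with rfl | rfl | rfl | rfl <;> rfl
      rw [h5]
      exact LR_LU (mem_LR h4 hv) hw
  · have h6 : y = .q1 ∨ y = .q2 ∨ y = .q ∨ y = .e := by
      cases y <;> simp [Cls.F1] at hy hu ⊢
    by_cases hu' : x = .u
    · subst hu'
      have h5 : mulC .u y = .d := rfl
      rw [h5]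
      exact (LR_LU (mem_LR h6 hw) hv).symm
    · have h4 : x = .q1 ∨ x = .q2 ∨ x = .q ∨ x = .e := by
        cases x <;> simp [Cls.F1] at hx hu' ⊢
      rcases h4 with rfl | rfl | rfl | rfl <;> rcases h6 with rfl | rfl | rfl | rfl
      · exact q11 hv hw
      · exact q12 hv hw
      · exact sl (List.mem_append_left _ hv) (List.mem_append_left _ hw)
      · exact sl (List.mem_append_left _ hv) (List.mem_append_right _ hw)
      · exact (q12 hw hv).symm
      · exact q22 hv hw
      · exact sl (List.mem_append_right _ hv) (List.mem_append_left _ hw)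
      · exact sl (List.mem_append_right _ hv) (List.mem_append_right _ hw)
      · exact (sl (List.mem_append_left _ hw) (List.mem_append_left _ hv)).symm
      · exact (sl (List.mem_append_right _ hw) (List.mem_append_left _ hv)).symm
      · exact ll (List.mem_append_left _ hv) (List.mem_append_left _ hw)
      · exact ll (List.mem_append_left _ hv) (List.mem_append_right _ hw)
      · exact (sl (List.mem_append_left _ hw) (List.mem_append_right _ hv)).symm
      · exact (sl (List.mem_append_right _ hw) (List.mem_append_right _ hv)).symm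
      · exact ll (List.mem_append_right _ hv) (List.mem_append_left _ hw)
      · exact ll (List.mem_append_right _ hv) (List.mem_append_right _ hw)

theorem mOk {x y : Cls} (hx : x ≠ .pt) (hy : y.F1) :
    ∀ v ∈ HL x, ∀ w ∈ HL y, MulOk (HL (mulC x y)) v w := by
  by_cases h : x.F1
  · exact mOkF h hy
  · exact mOkG hx h hy

theorem upC_ne (x : Cls) : upC x ≠ .pt := by
  cases x <;> simp [upC]

theorem mulC_ne {x y : Cls} (hy : y ≠ .pt) : mulC x y ≠ .pt := by
  cases x <;> cases y <;> first | exact absurd rfl hy | (intro h; cases h)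

theorem cl_ne {K : RT} (hK : K ≠ .pt) : cl K ≠ .pt := by
  cases K with
  | pt => exact absurd rfl hK
  | graft t c => exact mulC_ne (upC_ne _)

theorem T_pow_nonneg (n : ℕ) : 0 ≤ T ^ n := pow_nonneg T_pos.le n

theorem T_pow_le (n : ℕ) : T ^ n ≤ 1 := pow_le_one₀ T_pos.le T_lt.le

/-- the rooted tree with two vertices -/
theorem hull_q1 : In Lq1 1 (xh (up .pt)) T (1 - T) := by
  have h := In.add (In.zero (E := Lq1) (p := 1))
    (v := ⟨306516889800, 44646407600, 1944827930800, 68938799000, 999744189798, 255810202, 1⟩)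
    (w := 1) (by simp [Lq1]) (Or.inr rfl) zero_le_one
  refine h.mono (fun i => ?_) ?_ ?_
  · refine le_trans (le_of_eq ?_) (p1L_le i)
    fin_cases i <;> simp [qv, p1L] <;> norm_num
  · simp [sA, T]
  · simp [rB, T]
    norm_num

theorem hull (K : RT) : K ≠ .pt → In (HL (cl K)) ((K.size - 1) % 2) (xh K)
    (T ^ (K.size - 1)) (1 - T ^ (K.size - 1)) := by
  induction K with
  | pt => exact fun h => absurd rfl h
  | graft t c iht ihc =>
    intro _
    have h1 := one_le_size t
    have h2 := one_le_size c
    have hup : In (HL (upC (cl c))) (c.size % 2) (xh (up c)) (T ^ c.size) (1 - T ^ c.size) := by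
      by_cases hc : c = .pt
      · subst hc
        have h := hull_q1
        simpa [RT.size, cl, upC, HL] using h
      · have h := (ihc hc).upP (Nat.mod_lt _ (by norm_num)) (pOk (cl_ne hc))
        rw [xh_up]
        have e1 : ((c.size - 1) % 2 + 1) % 2 = c.size % 2 := by omega
        rw [e1] at h
        refine h.mono (fun i => le_rfl) (le_of_eq ?_) (le_of_eq ?_)
        · rw [← pow_succ']
          congr 1
          omega
        · have e2 : T ^ c.size = T * T ^ (c.size - 1) := by
            rw [← pow_succ']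
            congr 1
            omega
          rw [e2]
          ring
    by_cases ht : t = .pt
    · subst ht
      have e : (graft .pt c).size - 1 = c.size := by
        simp only [RT.size]
        omega
      rw [e]
      exact hup
    · have h := (iht ht).mulP (Nat.mod_lt _ (by norm_num)) (Nat.mod_lt _ (by norm_num))
        (T_pow_nonneg _) (sub_nonneg.2 (T_pow_le _)) hup (mOk (cl_ne ht) (upC_F1 _))
      have e1 : ((t.size - 1) % 2 + c.size % 2) % 2 = ((graft t c).size - 1) % 2 := by
        simp only [RT.size]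
        omega
      have e2 : (graft t c).size - 1 = (t.size - 1) + c.size := by
        simp only [RT.size]
        omega
      rw [e1] at h
      refine h.mono (fun i => le_of_eq ?_) (le_of_eq ?_) (le_of_eq ?_)
      · rw [xh_up]
        rfl
      · rw [e2, pow_add]
      · rw [e2, pow_add]
        ring

/-- the comparison for a pair of class `d` -/
theorem pair_lower (t c : RT) (ht : cl t = .d) :
    CC ((t.size + c.size - 1) % 2) * T ^ (t.size + c.size - 1) +
      1.0001 * (1 - T ^ (t.size + c.size - 1)) ≤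
    ∑ i, sta i * (kap i)⁻¹ * xh (RT.graft t c) i := by
  have h1 := one_le_size t
  have h2 := one_le_size c
  have htp : t ≠ .pt := by
    rintro rfl
    simp [cl] at ht
  have ht' := hull t htp
  rw [ht] at ht'
  have hup : In LF (c.size % 2) (xh (up c)) (T ^ c.size) (1 - T ^ c.size) := by
    have h := hull (up c) (by intro h; cases h)
    have e : (up c).size - 1 = c.size := by
      simp only [up, RT.size]
      omega
    rw [e] at h
    refine h.subset fun v hv => mem_LF ?_ hv
    exact upC_F1 _
  have h := dot_sound okDot (Nat.mod_lt _ (by norm_num)) (Nat.mod_lt _ (by norm_num))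
    (T_pow_nonneg _) (sub_nonneg.2 (T_pow_le _)) ht' hup
  have e1 : ((t.size - 1) % 2 + c.size % 2) % 2 = (t.size + c.size - 1) % 2 := by omega
  have e2 : T ^ (t.size + c.size - 1) = T ^ (t.size - 1) * T ^ c.size := by
    rw [← pow_add]
    congr 1
    omega
  have e3 : ∑ i, sta i * (kap i)⁻¹ * xh (RT.graft t c) i = ∑ i, sta i * xh t i * xh (up c) i := by
    refine Finset.sum_congr rfl fun i _ => ?_
    have hk := (kap_pos i).ne'
    rw [xh_up]
    simp only [xh]
    field_simp
  rw [e1] at h
  rw [e2, e3]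
  refine le_trans (le_of_eq ?_) h
  ring

end Pool.Agent.Lib.MP_dbb03c_co.Full
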