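import Pool.Agent.Lib.MP_dbb03c_co.Cone.Numeric

/-!
# Hulls with weights: the certificate checker for all `n`

A vertex is a vector with four nonnegative coordinates, two weights `s` (for `T ^ m`) and `r` (for
`1 - T ^ m`) and a tag `t` (the parity `0`, `1`, or `2` when `s = 0`); everything in units of
`10^-12`.  `In E p x a b`: a nonnegative combination of the vertices of `E` with tag `p` or `2` is
at most `x` in every coordinate and has weights at least `a`, `b`.
-/

namespace Pool.Agent.Lib.MP_dbb03c_co.Full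

open Pool.Agent.Lib.MP_dbb03c_co.Cone Matrix

/-- the ratio of the two leading modes, rounded -/
noncomputable def T : ℝ := 999744189798 / 10 ^ 12

theorem T_pos : 0 < T := by unfold T; norm_num

theorem T_lt : T < 1 := by unfold T; norm_num

structure Vx where
  a : ℕ
  b : ℕ
  c : ℕ
  d : ℕ
  s : ℕ
  r : ℕ
  t : ℕ

/-- the vector -/
noncomputable def qv (v : Vx) : Fin 4 → ℝ :=
  ![(v.a : ℝ) / 10 ^ 12, (v.b : ℝ) / 10 ^ 12, (v.c : ℝ) / 10 ^ 12, (v.d : ℝ) / 10 ^ 12]

noncomputable def sA (v : Vx) : ℝ := (v.s : ℝ) / 10 ^ 12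

noncomputable def rB (v : Vx) : ℝ := (v.r : ℝ) / 10 ^ 12

theorem qv_nonneg (v : Vx) (i : Fin 4) : 0 ≤ qv v i := by
  fin_cases i <;> simp [qv] <;> positivity

theorem sA_nonneg (v : Vx) : 0 ≤ sA v := by unfold sA; positivity

theorem rB_nonneg (v : Vx) : 0 ≤ rB v := by unfold rB; positivity

/-- the tag is the parity `p` or `2` -/
def Ok (p : ℕ) (v : Vx) : Prop := v.t = 2 ∨ v.t = p

inductive In (E : List Vx) (p : ℕ) : (Fin 4 → ℝ) → ℝ → ℝ → Prop
  | zero : In E p 0 0 0
  | add {x : Fin 4 → ℝ} {a b w : ℝ} {v : Vx} : In E p x a b → v ∈ E → Ok p v → 0 ≤ w →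
      In E p (x + w • qv v) (a + w * sA v) (b + w * rB v)
  | mono {x x' : Fin 4 → ℝ} {a a' b b' : ℝ} : In E p x a b → (∀ i, x i ≤ x' i) → a' ≤ a →
      b' ≤ b → In E p x' a' b'

namespace In

variable {E E1 E2 E3 : List Vx} {p p1 p2 p3 : ℕ} {x y : Fin 4 → ℝ} {a b a' b' : ℝ}

theorem nonneg (h : In E p x a b) (i : Fin 4) : 0 ≤ x i := by
  induction h with
  | zero => exact le_rfl
  | @add x a b w v _ _ _ hw ih =>
    simp only [Pi.add_apply, Pi.smul_apply, smul_eq_mul]
    have := mul_nonneg hw (qv_nonneg v i)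
    linarith
  | mono _ hz _ _ ih => exact ih.trans (hz i)

theorem smul (h : In E p x a b) {t : ℝ} (ht : 0 ≤ t) : In E p (t • x) (t * a) (t * b) := by
  induction h with
  | zero => simpa using In.zero
  | @add x a b w v _ he hv hw ih =>
    have := In.add ih he hv (mul_nonneg ht hw)
    rw [mul_add, mul_add, smul_add, smul_smul, ← mul_assoc, ← mul_assoc]
    exact this
  | mono _ hz ha hb ih =>
    refine ih.mono (fun i => ?_) (mul_le_mul_of_nonneg_left ha ht) (mul_le_mul_of_nonneg_left hb ht)
    simpa using mul_le_mul_of_nonneg_left (hz i) ht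

theorem add' (h : In E p x a b) (h' : In E p y a' b') : In E p (x + y) (a + a') (b + b') := by
  induction h' with
  | zero => simpa using h
  | @add y a' b' w v _ he hv hw ih =>
    have := In.add ih he hv hw
    rw [← add_assoc, ← add_assoc, ← add_assoc]
    exact this
  | mono _ hz ha hb ih =>
    refine ih.mono (fun i => ?_) (by linarith) (by linarith)
    simpa using hz i

theorem subset (h : In E p x a b) (hE : ∀ v ∈ E, v ∈ E1) : In E1 p x a b := by
  induction h with
  | zero => exact .zero
  | add _ he hv hw ih => exact .add ih (hE _ he) hv hw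
  | mono _ hz ha hb ih => exact ih.mono hz ha hb

/-- vertices with tag `2` are allowed for every parity -/
theorem of_two (h : In E 2 x a b) : In E p x a b := by
  induction h with
  | zero => exact .zero
  | add _ he hv hw ih => exact .add ih he (Or.inl (by rcases hv with h | h <;> exact h)) hw
  | mono _ hz ha hb ih => exact ih.mono hz ha hb

/-- linear closure -/
theorem map_P (h : In E p x a b)
    (hc : ∀ v ∈ E, Ok p v → In E1 p1 (P *ᵥ qv v) (T * sA v) (rB v + (1 - T) * sA v)) :
    In E1 p1 (P *ᵥ x) (T * a) (b + (1 - T) * a) := by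
  have hT := T_pos
  have hT1 := T_lt
  induction h with
  | zero => simpa using In.zero
  | @add x a b w v _ he hv hw ih =>
    have h1 := ih.add' ((hc v he hv).smul hw)
    rw [Matrix.mulVec_add, Matrix.mulVec_smul]
    exact h1.mono (fun i => le_rfl) (le_of_eq (by ring)) (le_of_eq (by ring))
  | mono _ hz ha hb ih =>
    refine ih.mono (fun i => ?_) ?_ ?_
    · simp only [Matrix.mulVec, dotProduct]
      exact Finset.sum_le_sum fun j _ => mul_le_mul_of_nonneg_left (hz j) (P_nonneg i j)
    · exact mul_le_mul_of_nonneg_left ha hT.le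
    · have := mul_le_mul_of_nonneg_left ha (show 0 ≤ 1 - T by linarith)
      linarith

theorem mul_right {a2 b2 : ℝ} (hy : ∀ i, 0 ≤ y i) (ha2 : 0 ≤ a2) (hb2 : 0 ≤ b2)
    (h : In E p x a b)
    (hc : ∀ v ∈ E, Ok p v → In E3 p3 (fun i => kap i * qv v i * y i) (sA v * a2)
      (sA v * b2 + rB v * a2 + rB v * b2)) :
    In E3 p3 (fun i => kap i * x i * y i) (a * a2) (a * b2 + b * a2 + b * b2) := by
  induction h with
  | zero => simpa using In.zero.mono (fun i => le_refl (0 : ℝ)) (le_refl 0) (le_refl 0)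
  | @add x a b w v _ he hv hw ih =>
    have h1 := ih.add' ((hc v he hv).smul hw)
    refine h1.mono (fun i => le_of_eq ?_) (le_of_eq (by ring)) (le_of_eq (by ring))
    simp only [Pi.add_apply, Pi.smul_apply, smul_eq_mul]
    ring
  | mono _ hz ha hb ih =>
    refine ih.mono (fun i => ?_) ?_ ?_
    · have := kap_pos i
      have := hy i
      have := hz i
      gcongr
    · gcongr
    · gcongr

/-- bilinear closure -/
theorem mul {a2 b2 : ℝ} (ha2 : 0 ≤ a2) (hb2 : 0 ≤ b2)
    (h1 : In E1 p1 x a b) (h2 : In E2 p2 y a2 b2)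
    (hc : ∀ v ∈ E1, Ok p1 v → ∀ w ∈ E2, Ok p2 w →
      In E3 p3 (fun i => kap i * qv v i * qv w i) (sA v * sA w)
        (sA v * rB w + rB v * sA w + rB v * rB w)) :
    In E3 p3 (fun i => kap i * x i * y i) (a * a2) (a * b2 + b * a2 + b * b2) := by
  refine mul_right h2.nonneg ha2 hb2 h1 fun v hv hvp => ?_
  have h3 := mul_right (qv_nonneg v) (sA_nonneg v) (rB_nonneg v) h2 fun w hw hwp =>
    (hc v hv hvp w hw hwp).mono (x' := fun i => kap i * qv w i * qv v i)
      (fun i => le_of_eq (by ring)) (a' := sA w * sA v) (le_of_eq (by ring))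
      (b' := sA w * rB v + rB w * sA v + rB w * rB v) (le_of_eq (by ring))
  exact h3.mono (fun i => le_of_eq (by ring)) (le_of_eq (by ring)) (le_of_eq (by ring))

/-- lower bound for a functional -/
theorem le_fun {m : Fin 4 → ℝ} {α β : ℝ} (hm : ∀ i, 0 ≤ m i) (hα : 0 ≤ α) (hβ : 0 ≤ β)
    (h : In E p x a b) (hE : ∀ v ∈ E, Ok p v → α * sA v + β * rB v ≤ ∑ i, m i * qv v i) :
    α * a + β * b ≤ ∑ i, m i * x i := by
  induction h with
  | zero => simp
  | @add x a b w v _ he hv hw ih =>
    have h1 := mul_le_mul_of_nonneg_left (hE v he hv) hw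
    have h2 : ∑ i, m i * (x + w • qv v) i = ∑ i, m i * x i + w * ∑ i, m i * qv v i := by
      rw [Finset.mul_sum, ← Finset.sum_add_distrib]
      refine Finset.sum_congr rfl fun i _ => ?_
      simp only [Pi.add_apply, Pi.smul_apply, smul_eq_mul]
      ring
    rw [h2]
    linarith
  | @mono x x' a a' b b' _ hz ha hb ih =>
    have h1 : ∑ i, m i * x i ≤ ∑ i, m i * x' i :=
      Finset.sum_le_sum fun i _ => mul_le_mul_of_nonneg_left (hz i) (hm i)
    have h2 := mul_le_mul_of_nonneg_left ha hα
    have h3 := mul_le_mul_of_nonneg_left hb hβ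
    linarith

end In

/-! ### the checker -/

def zv : Vx := ⟨0, 0, 0, 0, 0, 0, 2⟩

/-- index look up; the default is harmless -/
def look (E : List Vx) (i : ℕ) : Vx := E.getD i zv

/-- weighted sum of the vertices with tag `p` or `2` -/
def comb (p : ℕ) (E : List Vx) : List (ℕ × ℕ) → Vx
  | [] => zv
  | (i, w) :: l =>
    match look E i, comb p E l with
    | ⟨a, b, c, d, s, r, t⟩, ⟨a', b', c', d', s', r', t'⟩ =>
      bif Nat.beq t 2 || Nat.beq t p then
        ⟨a' + w * a, b' + w * b, c' + w * c, d' + w * d, s' + w * s, r' + w * r, t'⟩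
      else ⟨a', b', c', d', s', r', t'⟩

/-- tag of a product -/
def need (t u : ℕ) : ℕ := bif Nat.beq t 2 || Nat.beq u 2 then 2 else (t + u) % 2

/-- tag after one more edge -/
def needP (t : ℕ) : ℕ := bif Nat.beq t 2 then 2 else (t + 1) % 2

abbrev Ct := ℕ × List (ℕ × ℕ)

/-- check of the product `kap v w` against the combination `l`, denominator `10 ^ l.1` -/
def chkMul (E : List Vx) (v w : Vx) (l : Ct) : Bool :=
  match comb (need v.t w.t) E l.2, 10 ^ l.1 with
  | ⟨a, b, c, d, s, r, _⟩, D =>
    Nat.ble (a * 10000000000000000000000) (D * (460760154451 * (v.a * w.a))) &&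
    Nat.ble (b * 10000000000000000000000) (D * (31554290781 * (v.b * w.b))) &&
    Nat.ble (c * 10000000000000000000000) (D * (145056196608 * (v.c * w.c))) &&
    Nat.ble (d * 10000000000000000000000) (D * (5108827500 * (v.d * w.d))) &&
    Nat.ble (D * (v.s * w.s)) (s * 1000000000000) &&
    Nat.ble (D * (v.s * w.r + v.r * w.s + v.r * w.r)) (r * 1000000000000)

/-- the coordinate `(1 - p) a + p b`, `pl ≤ p ≤ pu`, against `x / D` -/
def chkLin (D x a b pl pu : ℕ) : Bool :=
  match Nat.ble a b with
  | true => Nat.ble (10000000000 * x + D * (pl * a)) (D * (10000000000 * a) + D * (pl * b))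
  | false => Nat.ble (10000000000 * x + D * (pu * a)) (D * (10000000000 * a) + D * (pu * b))

/-- check of `P v` against the combination `l` -/
def chkP (E : List Vx) (v : Vx) (l : Ct) : Bool :=
  match comb (needP v.t) E l.2, 10 ^ l.1 with
  | ⟨a, b, c, d, s, r, _⟩, D =>
    chkLin D a v.b v.a 352196432 352196433 &&
    chkLin D b v.c v.a 5142821428 5142821429 &&
    chkLin D c v.d v.b 76613815 76613816 &&
    Nat.ble d (D * v.c) &&
    Nat.ble (D * (999744189798 * v.s)) (s * 1000000000000) &&
    Nat.ble (D * (1000000000000 * v.r + 255810202 * v.s)) (r * 1000000000000)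

def chkPs (E : List Vx) : List Vx → List Ct → Bool
  | [], _ => true
  | _ :: _, [] => false
  | v :: vs, l :: ls => chkP E v l && chkPs E vs ls

def chkRow (E : List Vx) (v : Vx) : List Vx → List Ct → Bool
  | [], _ => true
  | _ :: _, [] => false
  | w :: ws, l :: ls => chkMul E v w l && chkRow E v ws ls

def chkRect (E : List Vx) (F : List Vx) : List Vx → List (List Ct) → Bool
  | [], _ => true
  | _ :: _, [] => false
  | v :: vs, l :: ls => chkRow E v F l && chkRect E F vs ls

def chkTri (E : List Vx) : List Vx → List (List Ct) → Bool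
  | [], _ => true
  | _ :: _, [] => false
  | v :: vs, l :: ls => chkRow E v (v :: vs) l && chkTri E vs ls

/-! ### soundness -/

/-- the statement proved by a successful `chkMul` -/
def MulOk (E : List Vx) (v w : Vx) : Prop :=
  In E (need v.t w.t) (fun i => kap i * qv v i * qv w i) (sA v * sA w)
    (sA v * rB w + rB v * sA w + rB v * rB w)

/-- the statement proved by a successful `chkP` -/
def POk (E : List Vx) (v : Vx) : Prop :=
  In E (needP v.t) (P *ᵥ qv v) (T * sA v) (rB v + (1 - T) * sA v)

theorem look_mem_or (E : List Vx) (i : ℕ) : look E i ∈ E ∨ look E i = zv := by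
  unfold look
  rw [List.getD_eq_getElem?_getD]
  rcases h : E[i]? with _ | x
  · right
    simp
  · left
    simpa using List.mem_of_getElem? h

theorem comb_in {E : List Vx} {p : ℕ} (l : List (ℕ × ℕ)) :
    In E p (qv (comb p E l)) (sA (comb p E l)) (rB (comb p E l)) := by
  induction l with
  | nil =>
    refine In.zero.mono (fun i => ?_) ?_ ?_
    · fin_cases i <;> simp [comb, qv, zv]
    · simp [comb, sA, zv]
    · simp [comb, rB, zv]
  | cons q l ih =>
    obtain ⟨i, w⟩ := q
    have hlm := look_mem_or E i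
    simp only [comb]
    rcases hv : look E i with ⟨a, b, c, d, s, r, t⟩
    rcases hc : comb p E l with ⟨a', b', c', d', s', r', t'⟩
    rw [hc] at ih
    rw [hv] at hlm
    simp only
    rcases hb : (Nat.beq t 2 || Nat.beq t p) with _ | _
    · exact ih
    · have hok : Ok p ⟨a, b, c, d, s, r, t⟩ := by
        rw [Bool.or_eq_true] at hb
        rcases hb with h | h
        · exact Or.inl (Nat.eq_of_beq_eq_true h)
        · exact Or.inr (Nat.eq_of_beq_eq_true h)
      simp only [cond_true]
      rcases hlm with hm | hz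
      · refine (In.add ih hm hok (Nat.cast_nonneg (α := ℝ) w)).mono (fun k => le_of_eq ?_)
          (le_of_eq ?_) (le_of_eq ?_)
        · simp only [Pi.add_apply, Pi.smul_apply, smul_eq_mul]
          fin_cases k <;> simp [qv] <;> ring
        · simp only [sA]
          push_cast
          ring
        · simp only [rB]
          push_cast
          ring
      · simp only [zv, Vx.mk.injEq] at hz
        obtain ⟨rfl, rfl, rfl, rfl, rfl, rfl, rfl⟩ := hz
        simpa [qv, sA, rB] using ih

theorem mul_aux {D x k a b : ℕ} {K : ℝ} (hD : 0 < D) (hK : (k : ℝ) / 10 ^ 10 ≤ K)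
    (h : x * 10000000000000000000000 ≤ D * (k * (a * b))) :
    1 / (D : ℝ) * ((x : ℝ) / 10 ^ 12) ≤ K * ((a : ℝ) / 10 ^ 12) * ((b : ℝ) / 10 ^ 12) := by
  have hD' : (0 : ℝ) < D := by exact_mod_cast hD
  have h' : (x : ℝ) * 10 ^ 22 ≤ D * (k * (a * b)) := by
    have : ((x * 10000000000000000000000 : ℕ) : ℝ) ≤ ((D * (k * (a * b)) : ℕ) : ℝ) := by
      exact_mod_cast h
    push_cast at this
    linarith
  have h1 : 1 / (D : ℝ) * ((x : ℝ) / 10 ^ 12) ≤
      (k : ℝ) / 10 ^ 10 * ((a : ℝ) / 10 ^ 12) * ((b : ℝ) / 10 ^ 12) := by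
    have e1 : 1 / (D : ℝ) * ((x : ℝ) / 10 ^ 12) = (x * 10 ^ 22) / (D * 10 ^ 34) := by
      field_simp
    have e2 : (k : ℝ) / 10 ^ 10 * ((a : ℝ) / 10 ^ 12) * ((b : ℝ) / 10 ^ 12) =
        (D * (k * (a * b))) / (D * 10 ^ 34) := by
      field_simp
    rw [e1, e2]
    gcongr
  refine h1.trans ?_
  gcongr

private theorem wt_aux {D s : ℕ} {X : ℕ} (hD : 0 < D) (h : D * X ≤ s * 1000000000000) :
    (X : ℝ) / 10 ^ 24 ≤ 1 / (D : ℝ) * ((s : ℝ) / 10 ^ 12) := by
  have hD' : (0 : ℝ) < D := by exact_mod_cast hD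
  have h' : (D : ℝ) * X ≤ s * 10 ^ 12 := by
    have : ((D * X : ℕ) : ℝ) ≤ ((s * 1000000000000 : ℕ) : ℝ) := by exact_mod_cast h
    push_cast at this
    linarith
  have e1 : (X : ℝ) / 10 ^ 24 = (D * X) / (D * 10 ^ 24) := by
    field_simp
  have e2 : 1 / (D : ℝ) * ((s : ℝ) / 10 ^ 12) = (s * 10 ^ 12) / (D * 10 ^ 24) := by
    field_simp
  rw [e1, e2]
  gcongr

theorem chkMul_sound {E : List Vx} {v w : Vx} {l : Ct} (h : chkMul E v w l = true) :
    MulOk E v w := by
  have hc := comb_in (E := E) (p := need v.t w.t) l.2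
  unfold chkMul at h
  rcases hcomb : comb (need v.t w.t) E l.2 with ⟨a, b, c, d, s, r, t⟩
  rw [hcomb] at h hc
  simp only [Bool.and_eq_true, Nat.ble_eq] at h
  obtain ⟨⟨⟨⟨⟨ha, hb⟩, hcc⟩, hd⟩, hs⟩, hr⟩ := h
  have hD : 0 < 10 ^ l.1 := Nat.pos_of_ne_zero (by positivity)
  have hs0 : (0 : ℝ) ≤ 1 / ((10 ^ l.1 : ℕ) : ℝ) := by positivity
  refine (hc.smul hs0).mono (fun i => ?_) ?_ ?_
  · have hk := kapL_le
    fin_cases i
    · simpa [qv] using mul_aux hD
        (by have := hk 0; simp [kapL] at this; norm_num at this ⊢; linarith) ha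
    · simpa [qv] using mul_aux hD
        (by have := hk 1; simp [kapL] at this; norm_num at this ⊢; linarith) hb
    · simpa [qv] using mul_aux hD
        (by have := hk 2; simp [kapL] at this; norm_num at this ⊢; linarith) hcc
    · simpa [qv] using mul_aux hD
        (by have := hk 3; simp [kapL] at this; norm_num at this ⊢; linarith) hd
  · refine le_of_eq_of_le ?_ (wt_aux hD hs)
    simp only [sA]
    push_cast
    ring
  · refine le_of_eq_of_le ?_ (wt_aux hD hr)
    simp only [sA, rB]
    push_cast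
    ring

theorem lin_aux {D x a b pl pu : ℕ} {p : ℝ} (hD : 0 < D) (h1 : (pl : ℝ) / 10 ^ 10 ≤ p)
    (h2 : p ≤ (pu : ℝ) / 10 ^ 10) (h : chkLin D x a b pl pu = true) :
    1 / (D : ℝ) * ((x : ℝ) / 10 ^ 12) ≤ p * ((b : ℝ) / 10 ^ 12) + (1 - p) * ((a : ℝ) / 10 ^ 12) := by
  have hD' : (0 : ℝ) < D := by exact_mod_cast hD
  have key : ∀ r : ℕ, 10000000000 * x + D * (r * a) ≤ D * (10000000000 * a) + D * (r * b) →
      1 / (D : ℝ) * ((x : ℝ) / 10 ^ 12) ≤
        (r : ℝ) / 10 ^ 10 * ((b : ℝ) / 10 ^ 12) + (1 - (r : ℝ) / 10 ^ 10) * ((a : ℝ) / 10 ^ 12) := by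
    intro r hr
    have hr' : (10 : ℝ) ^ 10 * x + D * (r * a) ≤ D * (10 ^ 10 * a) + D * (r * b) := by
      have : ((10000000000 * x + D * (r * a) : ℕ) : ℝ) ≤
          ((D * (10000000000 * a) + D * (r * b) : ℕ) : ℝ) := by exact_mod_cast hr
      push_cast at this
      linarith
    have e1 : 1 / (D : ℝ) * ((x : ℝ) / 10 ^ 12) = (10 ^ 10 * x) / (D * 10 ^ 22) := by
      field_simp
    have e2 : (r : ℝ) / 10 ^ 10 * ((b : ℝ) / 10 ^ 12) + (1 - (r : ℝ) / 10 ^ 10) * ((a : ℝ) / 10 ^ 12) =
        (D * (10 ^ 10 * a) + D * (r * b) - D * (r * a)) / (D * 10 ^ 22) := by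
      field_simp
      ring
    rw [e1, e2]
    gcongr
    linarith
  unfold chkLin at h
  rcases hab : Nat.ble a b with _ | _
  · rw [hab] at h
    have hba : b ≤ a := by
      rw [← Bool.not_eq_true, Nat.ble_eq] at hab
      omega
    have hba' : (b : ℝ) / 10 ^ 12 ≤ (a : ℝ) / 10 ^ 12 := by
      have : (b : ℝ) ≤ a := by exact_mod_cast hba
      gcongr
    have h3 := key pu (by simpa using h)
    nlinarith
  · rw [hab] at h
    have hba : a ≤ b := by simpa using hab
    have hba' : (a : ℝ) / 10 ^ 12 ≤ (b : ℝ) / 10 ^ 12 := by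
      have : (a : ℝ) ≤ b := by exact_mod_cast hba
      gcongr
    have h3 := key pl (by simpa using h)
    nlinarith

theorem chkP_sound {E : List Vx} {v : Vx} {l : Ct} (h : chkP E v l = true) : POk E v := by
  have hc := comb_in (E := E) (p := needP v.t) l.2
  unfold chkP at h
  rcases hcomb : comb (needP v.t) E l.2 with ⟨a, b, c, d, s, r, t⟩
  rw [hcomb] at h hc
  simp only [Bool.and_eq_true, Nat.ble_eq] at h
  obtain ⟨⟨⟨⟨⟨ha, hb⟩, hcc⟩, hd⟩, hs⟩, hr⟩ := h
  have hD : 0 < 10 ^ l.1 := Nat.pos_of_ne_zero (by positivity)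
  have hD' : (0 : ℝ) < ((10 ^ l.1 : ℕ) : ℝ) := by exact_mod_cast hD
  have hs0 : (0 : ℝ) ≤ 1 / ((10 ^ l.1 : ℕ) : ℝ) := by positivity
  refine (hc.smul hs0).mono (fun i => ?_) ?_ ?_
  · fin_cases i
    · have := lin_aux (p := P 0 0) hD (by have := P00_lo; norm_num at this ⊢; linarith)
        (by have := P00_hi; norm_num at this ⊢; linarith) ha
      have e := P_mulVec0 (qv v)
      simp only [Fin.zero_eta, Pi.smul_apply, smul_eq_mul] at *
      rw [e]
      simpa [qv] using this
    · have := lin_aux (p := P 1 0) hD (by have := P10_lo; norm_num at this ⊢; linarith)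
        (by have := P10_hi; norm_num at this ⊢; linarith) hb
      have e := P_mulVec1 (qv v)
      simp only [Fin.mk_one, Pi.smul_apply, smul_eq_mul] at *
      rw [e]
      simpa [qv] using this
    · have := lin_aux (p := P 2 1) hD (by have := P21_lo; norm_num at this ⊢; linarith)
        (by have := P21_hi; norm_num at this ⊢; linarith) hcc
      have e := P_mulVec2 (qv v)
      simp only [Fin.reduceFinMk, Pi.smul_apply, smul_eq_mul] at *
      rw [e]
      simpa [qv] using this
    · have e' := P_mulVec3 (qv v)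
      simp only [Fin.reduceFinMk, Pi.smul_apply, smul_eq_mul] at *
      rw [e']
      have hd' : (d : ℝ) ≤ ((10 ^ l.1 : ℕ) : ℝ) * v.c := by exact_mod_cast hd
      simp only [qv, Matrix.cons_val]
      rw [one_div, inv_mul_le_iff₀ hD', ← mul_div_assoc]
      gcongr
  · refine le_of_eq_of_le ?_ (wt_aux hD hs)
    simp only [sA, T]
    push_cast
    ring
  · refine le_of_eq_of_le ?_ (wt_aux hD hr)
    simp only [sA, rB, T]
    push_cast
    ring

theorem chkPs_sound {E vs : List Vx} {ls : List Ct} (h : chkPs E vs ls = true) :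
    ∀ v ∈ vs, POk E v := by
  induction vs generalizing ls with
  | nil => simp
  | cons v vs ih =>
    cases ls with
    | nil => simp [chkPs] at h
    | cons l ls =>
      simp only [chkPs, Bool.and_eq_true] at h
      intro v' hv'
      rcases List.mem_cons.1 hv' with rfl | hv'
      · exact chkP_sound h.1
      · exact ih h.2 v' hv'

theorem chkRow_sound {E : List Vx} {v : Vx} {ws : List Vx} {ls : List Ct}
    (h : chkRow E v ws ls = true) : ∀ w ∈ ws, MulOk E v w := by
  induction ws generalizing ls with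
  | nil => simp
  | cons w ws ih =>
    cases ls with
    | nil => simp [chkRow] at h
    | cons l ls =>
      simp only [chkRow, Bool.and_eq_true] at h
      intro w' hw'
      rcases List.mem_cons.1 hw' with rfl | hw'
      · exact chkMul_sound h.1
      · exact ih h.2 w' hw'

theorem chkRect_sound {E F vs : List Vx} {ls : List (List Ct)} (h : chkRect E F vs ls = true) :
    ∀ v ∈ vs, ∀ w ∈ F, MulOk E v w := by
  induction vs generalizing ls with
  | nil => simp
  | cons v vs ih =>
    cases ls with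
    | nil => simp [chkRect] at h
    | cons l ls =>
      simp only [chkRect, Bool.and_eq_true] at h
      intro v' hv'
      rcases List.mem_cons.1 hv' with rfl | hv'
      · exact chkRow_sound h.1
      · exact ih h.2 v' hv'

theorem need_comm (t u : ℕ) : need t u = need u t := by
  unfold need
  rw [Bool.or_comm, Nat.add_comm]

theorem MulOk.symm {E : List Vx} {v w : Vx} (h : MulOk E v w) : MulOk E w v := by
  unfold MulOk at *
  rw [need_comm w.t v.t]
  exact h.mono (fun i => le_of_eq (by ring)) (le_of_eq (by ring)) (le_of_eq (by ring))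

theorem chkTri_sound {E vs : List Vx} {ls : List (List Ct)} (h : chkTri E vs ls = true) :
    ∀ v ∈ vs, ∀ w ∈ vs, MulOk E v w := by
  induction vs generalizing ls with
  | nil => simp
  | cons v vs ih =>
    cases ls with
    | nil => simp [chkTri] at h
    | cons l ls =>
      simp only [chkTri, Bool.and_eq_true] at h
      have hrow := chkRow_sound h.1
      intro v' hv' w' hw'
      rcases List.mem_cons.1 hv' with rfl | hv''
      · exact hrow w' hw'
      · rcases List.mem_cons.1 hw' with rfl | hw''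
        · exact (hrow v' hv').symm
        · exact ih h.2 v' hv'' w' hw''

/-! ### the closure rules for a product and for a new root -/

theorem In.mulP {E1 E2 E3 : List Vx} {p1 p2 : ℕ} {x y : Fin 4 → ℝ} {a b a2 b2 : ℝ}
    (hp1 : p1 < 2) (hp2 : p2 < 2) (ha2 : 0 ≤ a2) (hb2 : 0 ≤ b2)
    (h1 : In E1 p1 x a b) (h2 : In E2 p2 y a2 b2) (hc : ∀ v ∈ E1, ∀ w ∈ E2, MulOk E3 v w) :
    In E3 ((p1 + p2) % 2) (fun i => kap i * x i * y i) (a * a2) (a * b2 + b * a2 + b * b2) := by
  refine In.mul ha2 hb2 h1 h2 fun v hv hvp w hw hwp => ?_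
  have h := hc v hv w hw
  unfold MulOk at h
  rcases hvp with hv2 | hvp
  · rw [show need v.t w.t = 2 by simp [need, hv2]] at h
    exact h.of_two
  · rcases hwp with hw2 | hwp
    · rw [show need v.t w.t = 2 by simp [need, hw2]] at h
      exact h.of_two
    · rw [show need v.t w.t = (p1 + p2) % 2 by
        rw [hvp, hwp, need]
        have e1 : Nat.beq p1 2 = false := by
          rcases hb : Nat.beq p1 2 with _ | _
          · rfl
          · have := Nat.eq_of_beq_eq_true hb
            omega
        have e2 : Nat.beq p2 2 = false := by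
          rcases hb : Nat.beq p2 2 with _ | _
          · rfl
          · have := Nat.eq_of_beq_eq_true hb
            omega
        rw [e1, e2]
        rfl] at h
      exact h

theorem In.upP {E E1 : List Vx} {p : ℕ} {x : Fin 4 → ℝ} {a b : ℝ} (hp : p < 2)
    (h : In E p x a b) (hc : ∀ v ∈ E, POk E1 v) :
    In E1 ((p + 1) % 2) (P *ᵥ x) (T * a) (b + (1 - T) * a) := by
  refine In.map_P h fun v hv hvp => ?_
  have h := hc v hv
  unfold POk at h
  rcases hvp with hv2 | hvp
  · rw [show needP v.t = 2 by simp [needP, hv2]] at h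
    exact h.of_two
  · rw [show needP v.t = (p + 1) % 2 by
      rw [hvp, needP]
      have e1 : Nat.beq p 2 = false := by
        rcases hb : Nat.beq p 2 with _ | _
        · rfl
        · have := Nat.eq_of_beq_eq_true hb
          omega
      rw [e1]
      rfl] at h
    exact h

/-! ### the final comparison -/

/-- check of `sta v w ≥ C s + (10001/10000) r` with `C = 18699/10000` (even tag) or `131/1000` -/
def chkDot (v w : Vx) : Bool :=
  let L := 41695912 * (v.a * w.a) + 78220481 * (v.b * w.b) + 4959038345 * (v.c * w.c) +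
    4921045260 * (v.d * w.d)
  let s := v.s * w.s
  let r := v.s * w.r + v.r * w.s + v.r * w.r
  match need v.t w.t with
  | 0 => Nat.ble (10000000000 * (18699 * s + 10001 * r)) (10000 * L)
  | 1 => Nat.ble (10000000000 * (1310 * s + 10001 * r)) (10000 * L)
  | _ => Nat.ble s 0 && Nat.ble (10000000000 * (10001 * r)) (10000 * L)

def chkDots (vs ws : List Vx) : Bool := vs.all fun v => ws.all fun w => chkDot v w

/-- the constant `C` -/
noncomputable def CC (p : ℕ) : ℝ := if p = 0 then 1.8699 else 0.131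

theorem CC_nonneg (p : ℕ) : 0 ≤ CC p := by
  unfold CC
  split_ifs <;> norm_num

private theorem dot_aux {v w : Vx} {cn : ℕ} 
    (h : 10000000000 * (cn * (v.s * w.s) + 10001 * (v.s * w.r + v.r * w.s + v.r * w.r)) ≤
      10000 * (41695912 * (v.a * w.a) + 78220481 * (v.b * w.b) + 4959038345 * (v.c * w.c) +
        4921045260 * (v.d * w.d))) :
    (cn : ℝ) / 10000 * (sA v * sA w) + 1.0001 * (sA v * rB w + rB v * sA w + rB v * rB w) ≤
      ∑ i, sta i * qv v i * qv w i := by
  have h' : (10000000000 : ℝ) * (cn * (v.s * w.s) + 10001 * (v.s * w.r + v.r * w.s + v.r * w.r)) ≤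
      10000 * (41695912 * (v.a * w.a) + 78220481 * (v.b * w.b) + 4959038345 * (v.c * w.c) +
        4921045260 * (v.d * w.d)) := by exact_mod_cast h
  have hst : ∑ i, staL i * qv v i * qv w i ≤ ∑ i, sta i * qv v i * qv w i := by
    refine Finset.sum_le_sum fun i _ => ?_
    have := staL_le i
    have := qv_nonneg v i
    have := qv_nonneg w i
    gcongr
  refine le_trans ?_ hst
  simp only [Fin.sum_univ_four, staL, qv, sA, rB, Matrix.cons_val]
  norm_num
  linarith

theorem dot_pt {v w : Vx} (h : chkDot v w = true) {p1 p2 : ℕ} (hp1 : p1 < 2)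
    (hp2 : p2 < 2) (hv : Ok p1 v) (hw : Ok p2 w) :
    CC ((p1 + p2) % 2) * (sA v * sA w) + 1.0001 * (sA v * rB w + rB v * sA w + rB v * rB w) ≤
      ∑ i, sta i * qv v i * qv w i := by
  unfold chkDot at h
  simp only at h
  have hb : ∀ p : ℕ, p < 2 → Nat.beq p 2 = false := by
    intro p hp
    rcases hb : Nat.beq p 2 with _ | _
    · rfl
    · have := Nat.eq_of_beq_eq_true hb
      omega
  have hn : need v.t w.t = 2 ∨ need v.t w.t = (p1 + p2) % 2 := by
    rcases hv with hv2 | hvp
    · left
      simp [need, hv2]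
    · rcases hw with hw2 | hwp
      · left
        simp [need, hw2]
      · right
        rw [hvp, hwp, need, hb p1 hp1, hb p2 hp2]
        rfl
  rcases hn with hn | hn
  · rw [hn] at h
    simp only [Bool.and_eq_true, Nat.ble_eq] at h
    have hs : v.s * w.s = 0 := by omega
    have hs' : sA v * sA w = 0 := by
      have : (v.s : ℝ) * w.s = 0 := by exact_mod_cast hs
      unfold sA
      rw [div_mul_div_comm, this, zero_div]
    have h2 := dot_aux (v := v) (w := w) (cn := 0) (by rw [hs]; simpa using h.2)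
    rw [hs'] at h2 ⊢
    simpa using h2
  · rw [hn] at h
    have h01 : (p1 + p2) % 2 = 0 ∨ (p1 + p2) % 2 = 1 := by omega
    rcases h01 with h0 | h1
    · rw [h0] at h ⊢
      simp only [Nat.ble_eq] at h
      have h2 := dot_aux (v := v) (w := w) (cn := 18699) h
      have : CC 0 = ((18699 : ℕ) : ℝ) / 10000 := by
        unfold CC
        norm_num
      rw [this]
      exact h2
    · rw [h1] at h ⊢
      simp only [Nat.ble_eq] at h
      have h2 := dot_aux (v := v) (w := w) (cn := 1310) h
      have : CC 1 = ((1310 : ℕ) : ℝ) / 10000 := by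
        unfold CC
        norm_num
      rw [this]
      exact h2

theorem dot_sound {vs ws : List Vx} (h : chkDots vs ws = true) {p1 p2 : ℕ} (hp1 : p1 < 2)
    (hp2 : p2 < 2) {x y : Fin 4 → ℝ} {a b a2 b2 : ℝ} (ha2 : 0 ≤ a2) (hb2 : 0 ≤ b2)
    (h1 : In vs p1 x a b) (h2 : In ws p2 y a2 b2) :
    CC ((p1 + p2) % 2) * (a * a2) + 1.0001 * (a * b2 + b * a2 + b * b2) ≤
      ∑ i, sta i * x i * y i := by
  have hC := CC_nonneg ((p1 + p2) % 2)
  have hy := h2.nonneg
  have key := In.le_fun (m := fun i => sta i * y i)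
    (α := CC ((p1 + p2) % 2) * a2 + 1.0001 * b2) (β := 1.0001 * (a2 + b2))
    (fun i => mul_nonneg (sta_pos i).le (hy i)) (by positivity) (by positivity) h1
    (fun v hv hvp => by
      have hs := sA_nonneg v
      have hr := rB_nonneg v
      have k2 := In.le_fun (m := fun i => sta i * qv v i)
        (α := CC ((p1 + p2) % 2) * sA v + 1.0001 * rB v) (β := 1.0001 * (sA v + rB v))
        (fun i => mul_nonneg (sta_pos i).le (qv_nonneg v i)) (by positivity) (by positivity) h2
        (fun w hw hwp => by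
          have hd : chkDot v w = true := by
            unfold chkDots at h
            exact List.all_eq_true.1 (List.all_eq_true.1 h v hv) w hw
          have := dot_pt hd hp1 hp2 hvp hwp
          linarith)
      have e : ∑ i, sta i * y i * qv v i = ∑ i, sta i * qv v i * y i :=
        Finset.sum_congr rfl fun i _ => by ring
      rw [e]
      linarith)
  have e : ∑ i, sta i * y i * x i = ∑ i, sta i * x i * y i :=
    Finset.sum_congr rfl fun i _ => by ring
  rw [e] at key
  linarith

end Pool.Agent.Lib.MP_dbb03c_co.Full
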