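import Pool.Agent.Lib.MP_dbb03c_co.Full.Hull

/-!
# Upper bound for the path

The path with `m + 1` vertices is `ups m pt`; the bound `path_upper` holds for `m ≥ 10`.
True values: `F_m = ∑ sta i * (kap i)⁻¹ * xh (ups m pt) i` satisfies
`(F_m - 1.0001 * (1 - T ^ m)) / T ^ m = 1.869895518502 (m = 10), 0.130862850493 (m = 11),
1.869598635201 (m = 12), 0.130790832609, 1.869449804213, 0.130750116783, 1.869375020120,
0.130727414533 (m = 17)`.
-/

namespace Pool.Agent.Lib.MP_dbb03c_co.Full

open Pool.Agent.Lib.MP_dbb03c_co.Cone RT Matrix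

noncomputable def U0 : Fin 4 → ℝ := ![0.188061110819, 1.871190376238, 0.066903014962, 1.933515764870]

noncomputable def U1 : Fin 4 → ℝ := ![1.812118889181, 0.128989623762, 1.933276985038, 0.066664235130]

/-- `P_mulVec0 ..`, `P00_lo`, `P00_hi`, ... ; slack `2.55e-9` in every coordinate -/
theorem P_U0 (i : Fin 4) : (P *ᵥ U0) i ≤ T * U1 i + 1.0001 * (1 - T) := by
  fin_cases i
  · have h := P_mulVec0 U0
    have h1 := P00_lo
    have h2 := P00_hi
    simp only [Fin.zero_eta]
    rw [h]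
    simp only [U0, U1, T, Matrix.cons_val]
    norm_num at h1 h2 ⊢
    linarith
  · have h := P_mulVec1 U0
    have h1 := P10_lo
    have h2 := P10_hi
    simp only [Fin.mk_one]
    rw [h]
    simp only [U0, U1, T, Matrix.cons_val]
    norm_num at h1 h2 ⊢
    linarith
  · have h := P_mulVec2 U0
    have h1 := P21_lo
    have h2 := P21_hi
    simp only [Fin.reduceFinMk]
    rw [h]
    simp only [U0, U1, T, Matrix.cons_val]
    norm_num at h1 h2 ⊢
    linarith
  · have h := P_mulVec3 U0
    simp only [Fin.reduceFinMk]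
    rw [h]
    simp only [U0, U1, T, Matrix.cons_val]
    norm_num

theorem P_U1 (i : Fin 4) : (P *ᵥ U1) i ≤ T * U0 i + 1.0001 * (1 - T) := by
  fin_cases i
  · have h := P_mulVec0 U1
    have h1 := P00_lo
    have h2 := P00_hi
    simp only [Fin.zero_eta]
    rw [h]
    simp only [U0, U1, T, Matrix.cons_val]
    norm_num at h1 h2 ⊢
    linarith
  · have h := P_mulVec1 U1
    have h1 := P10_lo
    have h2 := P10_hi
    simp only [Fin.mk_one]
    rw [h]
    simp only [U0, U1, T, Matrix.cons_val]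
    norm_num at h1 h2 ⊢
    linarith
  · have h := P_mulVec2 U1
    have h1 := P21_lo
    have h2 := P21_hi
    simp only [Fin.reduceFinMk]
    rw [h]
    simp only [U0, U1, T, Matrix.cons_val]
    norm_num at h1 h2 ⊢
    linarith
  · have h := P_mulVec3 U1
    simp only [Fin.reduceFinMk]
    rw [h]
    simp only [U0, U1, T, Matrix.cons_val]
    norm_num

private theorem sk (i : Fin 4) : sta i * (kap i)⁻¹ = N i * psi i / S1 := by
  have h1 := S1_pos.ne'
  have h2 := S2_pos.ne'
  have h3 := (psi_pos i).ne'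
  rw [sta, kap]
  field_simp

private theorem S1_eq' : S1 = psi 0 + 400 * psi 1 + 1200 * lam + 960000 := by
  have e2 : psi 2 = lam := rfl
  have e3 : psi 3 = 1 := rfl
  simp only [S1, Fin.sum_univ_four, e2, e3, N]
  simp

private theorem sum_eq (z : Fin 4 → ℝ) : ∑ i, sta i * (kap i)⁻¹ * z i =
    (psi 0 * z 0 + 400 * psi 1 * z 1 + 1200 * lam * z 2 + 960000 * z 3) / S1 := by
  have e : ∀ i, sta i * (kap i)⁻¹ * z i = (N i * psi i * z i) / S1 := by
    intro i
    rw [sk]
    ring
  rw [Finset.sum_congr rfl (fun i _ => e i), ← Finset.sum_div, Fin.sum_univ_four]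
  have e2 : psi 2 = lam := rfl
  have e3 : psi 3 = 1 := rfl
  have n0 : N 0 = 1 := rfl
  have n1 : N 1 = 400 := rfl
  have n2 : N 2 = 1200 := rfl
  have n3 : N 3 = 960000 := rfl
  rw [n0, n1, n2, n3, e2, e3]
  norm_num

/-- `sta i * (kap i)⁻¹ = N i * psi i / S1`; true values `1.869389...`, `0.1307906...` -/
theorem sum_U0 : ∑ i, sta i * (kap i)⁻¹ * U0 i ≤ 1.8699 := by
  rw [sum_eq, div_le_iff₀ S1_pos, S1_eq']
  have h1 := psi0_lo
  have h2 := psi0_hi
  have h3 := psi1_lo
  have h4 := psi1_hi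
  have h5 := lam_lo
  have h6 := lam_hi
  simp only [U0, Matrix.cons_val]
  norm_num at h1 h2 h3 h4 h5 h6 ⊢
  linarith

theorem sum_U1 : ∑ i, sta i * (kap i)⁻¹ * U1 i ≤ 0.131 := by
  rw [sum_eq, div_le_iff₀ S1_pos, S1_eq']
  have h1 := psi0_lo
  have h2 := psi0_hi
  have h3 := psi1_lo
  have h4 := psi1_hi
  have h5 := lam_lo
  have h6 := lam_hi
  simp only [U1, Matrix.cons_val]
  norm_num at h1 h2 h3 h4 h5 h6 ⊢
  linarith

/-! ### exact vectors of the path -/

private def sv : ℕ → ℕ × ℕ × ℕ × ℕ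
  | 0 => (1, 1, 1, 1)
  | m + 1 => match sv m with
    | (a, b, c, d) => (a + 400 * b, a + 3 * c, b + 800 * d, c)

private theorem xv_sv (m : ℕ) : xv (ups m .pt) 0 = (sv m).1 ∧ xv (ups m .pt) 1 = (sv m).2.1 ∧
    xv (ups m .pt) 2 = (sv m).2.2.1 ∧ xv (ups m .pt) 3 = (sv m).2.2.2 := by
  induction m with
  | zero => exact ⟨rfl, rfl, rfl, rfl⟩
  | succ m ih =>
    obtain ⟨h0, h1, h2, h3⟩ := ih
    rcases hs : sv m with ⟨a, b, c, d⟩
    rw [hs] at h0 h1 h2 h3
    simp only at h0 h1 h2 h3
    have hs' : sv (m + 1) = (a + 400 * b, a + 3 * c, b + 800 * d, c) := by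
      simp only [sv, hs]
    rw [hs']
    simp only [ups, up, xv, Fin.sum_univ_four, h0, h1, h2, h3]
    refine ⟨?_, ?_, ?_, ?_⟩ <;> simp [W]

private theorem homK_sv (m : ℕ) : homK (ups m .pt) =
    (sv m).1 + 400 * (sv m).2.1 + 1200 * (sv m).2.2.1 + 960000 * (sv m).2.2.2 := by
  obtain ⟨h0, h1, h2, h3⟩ := xv_sv m
  simp only [homK, Fin.sum_univ_four, h0, h1, h2, h3]
  simp [N]

private theorem sv17 : sv 17 = (420769152462873201532445201, 2091119212997305637122324,
    141763928716553130975668241, 182865782272924547457841) := by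
  decide +kernel

private theorem xh_le {m : ℕ} {i : Fin 4} {c L : ℝ} {x : ℕ} (hx : xv (ups m .pt) i = x)
    (hL0 : 0 < L) (hL : L ≤ lam ^ m) (hk : 0 < kapL i) (h : (x : ℝ) ≤ c * (kapL i * L)) :
    xh (ups m .pt) i ≤ c := by
  have h1 := xv_eq (ups m .pt) i
  have hs : (ups m .pt : RT).size - 1 = m := by
    rw [size_ups]
    simp [RT.size]
  rw [hs, hx] at h1
  have hk1 := kapL_le i
  have hp : 0 < kapL i * L := mul_pos hk hL0
  have hp2 : kapL i * L ≤ kap i * lam ^ m := mul_le_mul hk1 hL hL0.le (kap_pos i).le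
  have hx0 : (0 : ℝ) ≤ x := Nat.cast_nonneg _
  have hc : 0 ≤ c := by
    by_contra hc
    push Not at hc
    have := mul_neg_of_neg_of_pos hc hp
    linarith
  have h2 : kap i * lam ^ m * xh (ups m .pt) i ≤ kap i * lam ^ m * c := by
    rw [← h1]
    calc (x : ℝ) ≤ c * (kapL i * L) := h
      _ ≤ c * (kap i * lam ^ m) := mul_le_mul_of_nonneg_left hp2 hc
      _ = kap i * lam ^ m * c := by ring
  exact le_of_mul_le_mul_left h2 (lt_of_lt_of_le hp hp2)

private theorem lam_pow_lo (m : ℕ) : (28.3932461189858804 : ℝ) ^ m ≤ lam ^ m :=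
  pow_le_pow_left₀ (by norm_num) lam_lo m

/-- exact computation: `xv_eq` gives `xh K i = xv K i / (kap i * lam ^ 17)`; use `kapL_le`,
`lam_lo`; slacks `0.0059, 0.0019, 4.3e-5, 5.8e-5` -/
theorem base17 (i : Fin 4) :
    xh (ups 17 .pt) i ≤ T ^ 17 * U1 i + 1.0001 * (1 - T ^ 17) := by
  obtain ⟨h0, h1, h2, h3⟩ := xv_sv 17
  rw [sv17] at h0 h1 h2 h3
  simp only at h0 h1 h2 h3
  have hL0 : (0 : ℝ) < (28.3932461189858804 : ℝ) ^ 17 := by positivity
  fin_cases i
  · refine xh_le h0 hL0 (lam_pow_lo 17) (by simp only [kapL, Matrix.cons_val]; norm_num) ?_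
    simp only [kapL, U1, T, Matrix.cons_val]
    norm_num
  · refine xh_le h1 hL0 (lam_pow_lo 17) (by simp only [kapL, Matrix.cons_val]; norm_num) ?_
    simp only [kapL, U1, T, Matrix.cons_val]
    norm_num
  · refine xh_le h2 hL0 (lam_pow_lo 17) (by simp only [kapL, Matrix.cons_val]; norm_num) ?_
    simp only [kapL, U1, T, Matrix.cons_val]
    norm_num
  · refine xh_le h3 hL0 (lam_pow_lo 17) (by simp only [kapL, Matrix.cons_val]; norm_num) ?_
    simp only [kapL, U1, T, Matrix.cons_val]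
    norm_num

private theorem P_step {x U : Fin 4 → ℝ} {t : ℝ} (h : ∀ i, x i ≤ t * U i + 1.0001 * (1 - t))
    (i : Fin 4) : (P *ᵥ x) i ≤ t * (P *ᵥ U) i + 1.0001 * (1 - t) := by
  have h1 := congrFun P_one i
  simp only [Matrix.mulVec, dotProduct, mul_one] at h1 ⊢
  have h2 : ∑ j, P i j * x j ≤ ∑ j, P i j * (t * U j + 1.0001 * (1 - t)) :=
    Finset.sum_le_sum fun j _ => mul_le_mul_of_nonneg_left (h j) (P_nonneg i j)
  have h3 : ∑ j, P i j * (t * U j + 1.0001 * (1 - t)) =
      t * ∑ j, P i j * U j + (1.0001 * (1 - t)) * ∑ j, P i j := by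
    rw [Finset.mul_sum, Finset.mul_sum, ← Finset.sum_add_distrib]
    refine Finset.sum_congr rfl fun j _ => ?_
    ring
  rw [h3, h1, mul_one] at h2
  exact h2

/-- induction from `m = 17` with `xh_up`, `P_one`, `P_nonneg` -/
theorem path_vec (m : ℕ) (hm : 17 ≤ m) (i : Fin 4) :
    xh (ups m .pt) i ≤ T ^ m * (if m % 2 = 0 then U0 i else U1 i) + 1.0001 * (1 - T ^ m) := by
  induction m, hm using Nat.le_induction generalizing i with
  | base => simpa using base17 i
  | succ m hm ih =>
    have e : ups (m + 1) .pt = up (ups m .pt) := rfl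
    rw [e, xh_up]
    have hT := T_pos
    have hTm : 0 < T ^ m := pow_pos hT m
    rcases Nat.mod_two_eq_zero_or_one m with h | h
    · have h' : (m + 1) % 2 = 1 := by omega
      simp only [h, h', if_true, one_ne_zero, if_false] at ih ⊢
      have h1 := P_step ih i
      have h2 := mul_le_mul_of_nonneg_left (P_U0 i) hTm.le
      refine h1.trans ?_
      rw [pow_succ]
      nlinarith
    · have h' : (m + 1) % 2 = 0 := by omega
      simp only [h, h', if_true, one_ne_zero, if_false] at ih ⊢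
      have h1 := P_step ih i
      have h2 := mul_le_mul_of_nonneg_left (P_U1 i) hTm.le
      refine h1.trans ?_
      rw [pow_succ]
      nlinarith

private theorem sum_le {x U : Fin 4 → ℝ} {t : ℝ} (h : ∀ i, x i ≤ t * U i + 1.0001 * (1 - t)) :
    ∑ i, sta i * (kap i)⁻¹ * x i ≤ t * ∑ i, sta i * (kap i)⁻¹ * U i + 1.0001 * (1 - t) := by
  have h1 := sum_sta_div_kap
  have h2 : ∑ i, sta i * (kap i)⁻¹ * x i ≤
      ∑ i, sta i * (kap i)⁻¹ * (t * U i + 1.0001 * (1 - t)) :=
    Finset.sum_le_sum fun j _ => mul_le_mul_of_nonneg_left (h j)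
      (mul_nonneg (sta_pos j).le (inv_nonneg.2 (kap_pos j).le))
  have h3 : ∑ i, sta i * (kap i)⁻¹ * (t * U i + 1.0001 * (1 - t)) =
      t * ∑ i, sta i * (kap i)⁻¹ * U i + (1.0001 * (1 - t)) * ∑ i, sta i * (kap i)⁻¹ := by
    rw [Finset.mul_sum, Finset.mul_sum, ← Finset.sum_add_distrib]
    refine Finset.sum_congr rfl fun j _ => ?_
    ring
  rw [h3, h1, mul_one] at h2
  exact h2

private theorem Zc_lo : (996632.6544338 : ℝ) ^ 2 / 1950805.0610162 ≤ Zc := by
  rw [Zc]
  exact div_le_div₀ (by positivity) (pow_le_pow_left₀ (by norm_num) S1_lo 2) S2_pos S2_hi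

private theorem F_le {m : ℕ} {c : ℝ} {x : ℕ} (hx : homK (ups m .pt) = x)
    (h : (x : ℝ) ≤ (28.3932461189858804 : ℝ) ^ m *
      ((996632.6544338 : ℝ) ^ 2 / 1950805.0610162) * c) :
    ∑ i, sta i * (kap i)⁻¹ * xh (ups m .pt) i ≤ c := by
  have h1 := homK_eq (ups m .pt)
  have hs : (ups m .pt : RT).size - 1 = m := by
    rw [size_ups]
    simp [RT.size]
  rw [hs, hx] at h1
  have hp : 0 < (28.3932461189858804 : ℝ) ^ m * ((996632.6544338 : ℝ) ^ 2 / 1950805.0610162) := by
    positivity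
  have hp2 : (28.3932461189858804 : ℝ) ^ m * ((996632.6544338 : ℝ) ^ 2 / 1950805.0610162) ≤
      lam ^ m * Zc :=
    mul_le_mul (lam_pow_lo m) Zc_lo (by positivity) (pow_pos lam_pos m).le
  have hx0 : (0 : ℝ) ≤ x := Nat.cast_nonneg _
  have hc : 0 ≤ c := by
    by_contra hc
    push Not at hc
    have := mul_neg_of_pos_of_neg hp hc
    linarith
  refine le_of_mul_le_mul_left ?_ (lt_of_lt_of_le hp hp2)
  rw [← h1]
  exact h.trans (mul_le_mul_of_nonneg_right hp2 hc)

/-- `m ≥ 17`: `path_vec`, `sum_U0`, `sum_U1`, `sum_sta_div_kap`.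
`m = 10, ..., 16`: exact computation with `homK_eq` (`homK K = lam ^ (size - 1) * Zc * F`),
`Zc = S1 ^ 2 / S2 ≥ 996632.6544338 ^ 2 / 1950805.0610162`, `lam_lo`. -/
theorem path_upper (m : ℕ) (hm : 10 ≤ m) : ∑ i, sta i * (kap i)⁻¹ * xh (ups m .pt) i ≤
    CC (m % 2) * T ^ m + 1.0001 * (1 - T ^ m) := by
  rcases Nat.lt_or_ge m 17 with hlt | hge
  · have hx := homK_sv m
    interval_cases m
    · refine F_le (x := 323822986966224710801) (hx.trans (by decide +kernel)) ?_
      simp only [CC, T]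
      norm_num
    · refine F_le (x := 656251830866535868001) (hx.trans (by decide +kernel)) ?_
      simp only [CC, T]
      norm_num
    · refine F_le (x := 260955052872467821020001) (hx.trans (by decide +kernel)) ?_
      simp only [CC, T]
      norm_num
    · refine F_le (x := 530529672145619675132001) (hx.trans (by decide +kernel)) ?_
      simp only [CC, T]
      norm_num
    · refine F_le (x := 210309132228346672603868401) (hx.trans (by decide +kernel)) ?_
      simp only [CC, T]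
      norm_num
    · refine F_le (x := 428988834485644003748284801) (hx.trans (by decide +kernel)) ?_
      simp only [CC, T]
      norm_num
    · refine F_le (x := 169499242659264055820670654401) (hx.trans (by decide +kernel)) ?_
      simp only [CC, T]
      norm_num
  · have hT := T_pos
    have hTm : 0 < T ^ m := pow_pos hT m
    have hv := path_vec m hge
    rcases Nat.mod_two_eq_zero_or_one m with h | h
    · simp only [h, if_true] at hv ⊢
      have h1 := sum_le hv
      have h2 := mul_le_mul_of_nonneg_left sum_U0 hTm.le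
      have e : CC 0 = 1.8699 := by simp [CC]
      rw [e]
      linarith
    · simp only [h, one_ne_zero, if_false] at hv ⊢
      have h1 := sum_le hv
      have h2 := mul_le_mul_of_nonneg_left sum_U1 hTm.le
      have e : CC 1 = 0.131 := by simp [CC]
      rw [e]
      linarith

end Pool.Agent.Lib.MP_dbb03c_co.Full
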