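import Pool.Agent.Lib.MP_dbb03c_co.Full.ClsDef
import Pool.Agent.Lib.MP_dbb03c_co.Cone.Lower

/-!
# Moving the root to a vertex of degree at least three

`RE`, `UE`, `RE.comm`, `RE.graft`, `RE.ue`, `UE.swap`, `UE.trans` are in `Cone.RTree`,
`DE m = graft Eg (ups m Eg)` in `Cone.Lower`, `Eg = graft (graft pt pt) (graft pt pt)` in
`Cone.Numeric`.
-/

namespace Pool.Agent.Lib.MP_dbb03c_co.Full

open Pool.Agent.Lib.MP_dbb03c_co.Cone RT

private theorem Reroot_ue_refl (K : RT) : UE K K := (RE.refl K).ue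

private theorem Reroot_re_symm {K K' : RT} (h : RE K K') : RE K' K :=
  ⟨h.x.symm, h.size.symm, h.ht.symm, h.dm.symm⟩

/-- joining two paths at their ends: induction on `i` for all `j`:
`graft (graft pt (ups i pt)) (ups j pt) ~ graft (graft pt (ups j pt)) (ups i pt)` (`RE.comm`)
`~ graft (ups i pt) (ups (j + 1) pt)` (`UE.swap`) -/
theorem ue_paths (i j : ℕ) : UE (graft (ups i .pt) (ups j .pt)) (ups (i + j + 1) .pt) := by
  induction i generalizing j with
  | zero =>
    rw [Nat.zero_add]
    exact Reroot_ue_refl _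
  | succ i ih =>
    have h1 : UE (graft (ups (i + 1) .pt) (ups j .pt)) (graft (graft .pt (ups j .pt)) (ups i .pt)) :=
      (RE.comm .pt (ups i .pt) (ups j .pt)).ue
    have h2 : UE (graft (graft .pt (ups j .pt)) (ups i .pt)) (graft (ups i .pt) (ups (j + 1) .pt)) :=
      UE.swap _ _
    have h3 := ih (j + 1)
    rw [show i + 1 + j + 1 = i + (j + 1) + 1 by omega]
    exact (h1.trans h2).trans h3

/-- moving the root down from `t` into `c`.  Induction on `c` for all `t`:
`c = pt`: left, `m = 0`.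
`c = graft pt c'`: use the induction hypothesis for `c'` and `graft pt t`;
`graft t (graft pt c') ~ graft (graft pt c') t ~ graft (graft pt t) c'`.
`c = graft (graft a b) c'`: right, `graft t c ~ graft c t`, `s = a`, ... -/
theorem descend (c : RT) : ∀ t : RT, (∃ m, c = ups m .pt) ∨
    ∃ a b d e, UE (graft t c) (graft (graft (graft a b) d) e) := by
  induction c with
  | pt => exact fun _ => Or.inl ⟨0, rfl⟩
  | graft t' c' _ ih =>
    intro t
    cases t' with
    | pt =>
      rcases ih (graft .pt t) with ⟨m, hm⟩ | ⟨a, b, d, e, h⟩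
      · exact Or.inl ⟨m + 1, by rw [hm]; rfl⟩
      · exact Or.inr ⟨a, b, d, e, ((UE.swap _ _).trans (RE.comm .pt c' t).ue).trans h⟩
    | graft a b => exact Or.inr ⟨a, b, c', t, UE.swap _ _⟩

/-- every rooted tree is a path or can be rooted at a vertex of degree at least three.
`K = graft pt c`: `descend c pt`.  `K = graft (graft pt b) c`: `descend c _`, and (after `RE.comm`)
`descend b _`; if both are paths use `ue_paths`. -/
theorem exists_branch (K : RT) : (UE K (ups (K.size - 1) .pt)) ∨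
    ∃ a b d e, UE K (graft (graft (graft a b) d) e) := by
  cases K with
  | pt => exact Or.inl (Reroot_ue_refl _)
  | graft t c =>
    cases t with
    | pt =>
      rcases descend c .pt with ⟨m, hm⟩ | h
      · left
        subst hm
        have : (graft .pt (ups m .pt)).size - 1 = m + 1 := by
          simp only [RT.size, size_ups]; omega
        rw [this]
        exact Reroot_ue_refl _
      · exact Or.inr h
    | graft a b =>
      cases a with
      | pt =>
        rcases descend c (graft .pt b) with ⟨m, hm⟩ | h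
        · rcases descend b (graft .pt c) with ⟨l, hl⟩ | ⟨a, b', d, e, h⟩
          · left
            subst hm hl
            have : (graft (graft .pt (ups l .pt)) (ups m .pt)).size - 1 = (l + 1) + m + 1 := by
              simp only [RT.size, size_ups]; omega
            rw [this]
            exact ue_paths (l + 1) m
          · exact Or.inr ⟨a, b', d, e, (RE.comm .pt b c).ue.trans h⟩
        · exact Or.inr h
      | graft a' b' => exact Or.inr ⟨a', b', b, c, Reroot_ue_refl _⟩

/-! ### the trees in the small classes -/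

private theorem Reroot_mul_pt {x y : Cls} (hy : y.F1) : mulC x y ≠ .pt := by
  cases x <;> cases y <;> first | exact False.elim hy | decide

private theorem Reroot_up_ne (x : Cls) : upC x ≠ .pt ∧ upC x ≠ .g ∧ upC x ≠ .m ∧ upC x ≠ .d := by
  cases x <;> decide

private theorem Reroot_mul_F1 {x y w : Cls} (hw : w.F1) (h : mulC x y = w) : x = .pt ∧ y = w := by
  subst h
  cases x <;> cases y <;> first | exact ⟨rfl, rfl⟩ | exact False.elim hw

theorem cl_pt {K : RT} (h : cl K = .pt) : K = .pt := by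
  cases K with
  | pt => rfl
  | graft t c => exact absurd h (Reroot_mul_pt (upC_F1 _))

private theorem Reroot_up_q1 {x : Cls} (h : upC x = .q1) : x = .pt := by
  cases x <;> first | rfl | cases h

private theorem Reroot_up_q2 {x : Cls} (h : upC x = .q2) : x = .q1 := by
  cases x <;> first | rfl | cases h

private theorem Reroot_up_q {x : Cls} (h : upC x = .q) : x = .q2 ∨ x = .q := by
  cases x <;> first | exact Or.inl rfl | exact Or.inr rfl | cases h

private theorem Reroot_up_e {x : Cls} (h : upC x = .e) : x = .g ∨ x = .e := by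
  cases x <;> first | exact Or.inl rfl | exact Or.inr rfl | cases h

theorem cl_q1 {K : RT} (h : cl K = .q1) : K = ups 1 .pt := by
  cases K with
  | pt => cases h
  | graft t c =>
    obtain ⟨h1, h2⟩ := Reroot_mul_F1 (w := .q1) trivial h
    rw [cl_pt h1, cl_pt (Reroot_up_q1 h2)]
    rfl

theorem cl_q2 {K : RT} (h : cl K = .q2) : K = ups 2 .pt := by
  cases K with
  | pt => cases h
  | graft t c =>
    obtain ⟨h1, h2⟩ := Reroot_mul_F1 (w := .q2) trivial h
    rw [cl_pt h1, cl_q1 (Reroot_up_q2 h2)]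
    rfl

theorem cl_q {K : RT} (h : cl K = .q) : ∃ k, K = ups k .pt := by
  induction K with
  | pt => cases h
  | graft t c _ ih =>
    obtain ⟨h1, h2⟩ := Reroot_mul_F1 (w := .q) trivial h
    rcases Reroot_up_q h2 with h3 | h3
    · exact ⟨3, by rw [cl_pt h1, cl_q2 h3]; rfl⟩
    · obtain ⟨k, hk⟩ := ih h3
      exact ⟨k + 1, by rw [cl_pt h1, hk]; rfl⟩

private theorem Reroot_mul_g {x y : Cls} (hy : y.F1) (h : mulC x y = .g) :
    (x = .q1 ∧ y = .q2) ∨ (x = .q2 ∧ y = .q1) := by
  cases x <;> cases y <;>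
    first | exact Or.inl ⟨rfl, rfl⟩ | exact Or.inr ⟨rfl, rfl⟩ | exact False.elim hy | cases h

theorem cl_g {K : RT} (h : cl K = .g) : RE K Eg := by
  cases K with
  | pt => cases h
  | graft t c =>
    rcases Reroot_mul_g (upC_F1 _) h with ⟨h1, h2⟩ | ⟨h1, h2⟩
    · rw [cl_q1 h1, cl_q1 (Reroot_up_q2 h2)]
      exact RE.refl _
    · rw [cl_q2 h1, cl_pt (Reroot_up_q1 h2)]
      exact RE.comm .pt (graft .pt .pt) .pt

theorem cl_e {K : RT} (h : cl K = .e) : ∃ j, RE K (ups j Eg) := by
  induction K with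
  | pt => cases h
  | graft t c _ ih =>
    obtain ⟨h1, h2⟩ := Reroot_mul_F1 (w := .e) trivial h
    rw [cl_pt h1]
    rcases Reroot_up_e h2 with h3 | h3
    · exact ⟨1, RE.graft (RE.refl _) (cl_g h3)⟩
    · obtain ⟨j, hj⟩ := ih h3
      exact ⟨j + 1, RE.graft (RE.refl _) hj⟩

private theorem Reroot_ne_pt {x y z : Cls} (hx : x ≠ .pt) (hy : y.F1) (hz : z.F1) :
    mulC (mulC x y) z = .d := by
  cases x <;> first | exact absurd rfl hx | (cases y <;> first | exact False.elim hy |
    (cases z <;> first | exact False.elim hz | rfl))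

private theorem Reroot_key {x y z : Cls} (hx : x.F1) (hy : y.F1) (hz : z.F1) :
    mulC x y = .d ∨ mulC x z = .d ∨ mulC y z = .d ∨
      (x = .q1 ∧ y = .q2 ∧ (z = .q ∨ z = .e)) ∨ (y = .q1 ∧ x = .q2 ∧ (z = .q ∨ z = .e)) ∨
      (x = .q1 ∧ z = .q2 ∧ (y = .q ∨ y = .e)) ∨ (z = .q1 ∧ x = .q2 ∧ (y = .q ∨ y = .e)) ∨
      (y = .q1 ∧ z = .q2 ∧ (x = .q ∨ x = .e)) ∨ (z = .q1 ∧ y = .q2 ∧ (x = .q ∨ x = .e)) := by
  cases x <;> first | exact False.elim hx | (cases y <;> first | exact False.elim hy |
    (cases z <;> first | exact False.elim hz | decide))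

private theorem Reroot_c1 (b d e : RT) :
    RE (graft (graft (graft .pt b) d) e) (graft (graft (graft .pt d) b) e) :=
  RE.graft (RE.comm .pt b d) (RE.refl e)

private theorem Reroot_c2 (b d e : RT) :
    RE (graft (graft (graft .pt b) d) e) (graft (graft (graft .pt b) e) d) :=
  RE.comm (graft .pt b) d e

private theorem Reroot_fin {K b d e : RT} (h : UE K (graft (graft (graft .pt b) d) e))
    (h1 : upC (cl b) = .q1) (h2 : upC (cl d) = .q2) (h3 : upC (cl e) = .q ∨ upC (cl e) = .e) :
    (∃ k, UE K (graft Eg (ups k .pt))) ∨ ∃ j, UE K (DE j) := by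
  have hb := cl_pt (Reroot_up_q1 h1)
  have hd := cl_q1 (Reroot_up_q2 h2)
  subst hb hd
  have h' : UE K (graft Eg e) := h
  rcases h3 with h3 | h3
  · left
    rcases Reroot_up_q h3 with h4 | h4
    · exact ⟨2, by rw [← cl_q2 h4]; exact h'⟩
    · obtain ⟨k, hk⟩ := cl_q h4
      exact ⟨k, by rw [← hk]; exact h'⟩
  · right
    rcases Reroot_up_e h3 with h4 | h4
    · exact ⟨0, h'.trans (RE.graft (RE.refl Eg) (cl_g h4)).ue⟩
    · obtain ⟨j, hj⟩ := cl_e h4
      exact ⟨j, h'.trans (RE.graft (RE.refl Eg) hj).ue⟩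

/-- If the root has degree at least four then `graft (graft a b) d` with `a ≠ pt` is in class `d`
(`cl a ∉ {pt}` gives `mulC (cl a) y ∈ {g, m, d}` and `mulC` of these with anything is `d`).
If `a = pt` the three branches have classes `x = upC (cl b)`, `y = upC (cl d)`, `z = upC (cl e)` in
`F1`; up to `RE.comm`/`UE.swap` any two of them can be taken as `t` (so we are done if
`mulC x y`, `mulC x z` or `mulC y z` is `d`); otherwise `{x, y, z} = {q1, q2, q}` or `{q1, q2, e}`
and the tree is `graft Eg c` with `c = ups k pt` or `RE c (ups j Eg)`. -/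
theorem trichotomy (K : RT) : UE K (ups (K.size - 1) .pt) ∨
    (∃ t c, UE K (graft t c) ∧ cl t = .d) ∨
    (∃ k, UE K (graft Eg (ups k .pt))) ∨ ∃ j, UE K (DE j) := by
  rcases exists_branch K with h | ⟨a, b, d, e, h⟩
  · exact Or.inl h
  · right
    by_cases ha : a = .pt
    · subst ha
      rcases Reroot_key (upC_F1 (cl b)) (upC_F1 (cl d)) (upC_F1 (cl e)) with
        h1 | h1 | h1 | ⟨h1, h2, h3⟩ | ⟨h1, h2, h3⟩ | ⟨h1, h2, h3⟩ | ⟨h1, h2, h3⟩ |
        ⟨h1, h2, h3⟩ | ⟨h1, h2, h3⟩
      · exact Or.inl ⟨_, _, h, h1⟩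
      · exact Or.inl ⟨_, _, h.trans (Reroot_c2 b d e).ue, h1⟩
      · exact Or.inl ⟨_, _, h.trans ((Reroot_c1 b d e).trans (Reroot_c2 d b e)).ue, h1⟩
      · exact Or.inr (Reroot_fin h h1 h2 h3)
      · exact Or.inr (Reroot_fin (h.trans (Reroot_c1 b d e).ue) h1 h2 h3)
      · exact Or.inr (Reroot_fin (h.trans (Reroot_c2 b d e).ue) h1 h2 h3)
      · exact Or.inr (Reroot_fin (h.trans ((Reroot_c2 b d e).trans (Reroot_c1 b e d)).ue) h1 h2 h3)
      · exact Or.inr (Reroot_fin (h.trans ((Reroot_c1 b d e).trans (Reroot_c2 d b e)).ue) h1 h2 h3)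
      · exact Or.inr (Reroot_fin (h.trans (((Reroot_c1 b d e).trans (Reroot_c2 d b e)).trans
          (Reroot_c1 d e b)).ue) h1 h2 h3)
    · left
      refine ⟨graft (graft a b) d, e, h, ?_⟩
      exact Reroot_ne_pt (fun h0 => ha (cl_pt h0)) (upC_F1 _) (upC_F1 _)

end Pool.Agent.Lib.MP_dbb03c_co.Full
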