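import Mathlib

/-!
# A cone preserved by the recurrence of the even steps
-/

namespace Pool.Agent.Lib.MP_dbb03c_co.Full

/-- a polyhedral cone preserved by the recurrence with characteristic polynomial
`y ^ 4 - 2407 y ^ 3 + 2088815 y ^ 2 - 770564809 y + 102400000000` -/
structure Cn (a b c d : ℤ) : Prop where
  h1 : 0 ≤ -12702184844425 * a + 79828140866 * b - 160083947 * c + 100000 * d
  h2 : 0 ≤ 12708441873994 * a - 79859698604 * b + 160123639 * c - 100000 * d
  h3 : 0 < -25371027363092 * a + 128729909021 * b - 200755750 * c + 100000 * d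
  h4 : 0 < 23839384230301 * a - 123434178859 * b + 197470436 * c - 100000 * d
  h5 : 0 < 26026587602612 * a - 128729909021 * b + 200755750 * c - 100000 * d
  h6 : 0 < -28449501176466 * a + 136564021851 * b - 205615801 * c + 100000 * d

theorem Cn.pos {a b c d : ℤ} (h : Cn a b c d) : 0 < a := by
  obtain ⟨h1, h2, h3, h4, h5, h6⟩ := h
  linarith

theorem Cn.step {a b c d e : ℤ} (h : Cn a b c d)
    (he : e = 2407 * d - 2088815 * c + 770564809 * b - 102400000000 * a) : Cn b c d e := by
  obtain ⟨h1, h2, h3, h4, h5, h6⟩ := h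
  subst he
  constructor
  · linarith
  · linarith
  · linarith
  · linarith
  · linarith
  · linarith

/-- a sequence with this recurrence which starts in the cone is positive -/
theorem Cn.all {v : ℕ → ℤ} (hv : ∀ k, v (k + 4) = 2407 * v (k + 3) - 2088815 * v (k + 2) +
    770564809 * v (k + 1) - 102400000000 * v k) {k0 : ℕ}
    (h : Cn (v k0) (v (k0 + 1)) (v (k0 + 2)) (v (k0 + 3))) : ∀ k, k0 ≤ k → 0 < v k := by
  have key : ∀ k, Cn (v (k0 + k)) (v (k0 + k + 1)) (v (k0 + k + 2)) (v (k0 + k + 3)) := by
    intro k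
    induction k with
    | zero => exact h
    | succ k ih => exact ih.step (hv (k0 + k))
  intro k hk
  obtain ⟨j, rfl⟩ := Nat.exists_eq_add_of_le hk
  exact (key j).pos

end Pool.Agent.Lib.MP_dbb03c_co.Full
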