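import Pool.Agent.Lib.MP_dbb03c_co.Full.SeqRec

/-!
# Evaluation at the crossing

The numbers have about 15800 digits.  Suggestion: a structure `M4` of sixteen natural numbers (or
the four vectors `W ^ k e_j`), `sq : M4 → M4`, `mulW : M4 → M4`, and a chain of definitions
`A0, A1, ..., A13` with `A (i + 1) = sq (A i)` or `mulW (sq (A i))`, so that `A13 = W ^ 5428` (or so);
then `ip x (W ^ (2 k) y) = ip (W ^ k x) (W ^ k y)` because `N i * W i j = N j * W j i`.  The comparison
itself by `decide +kernel` (`Nat` literals are fast in the kernel, but the arguments must be forced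
to be literals: e.g. pass every entry through
`force (n : ℕ) (k : ℕ → α) : α := Nat.rec (k 0) (fun m _ => k (m + 1)) n`, or prove the chain
`A (i + 1) = ⟨numerals⟩` step by step with `decide +kernel`).
-/

namespace Pool.Agent.Lib.MP_dbb03c_co.Full

open Pool.Agent.Lib.MP_dbb03c_co.Cone RT

/-- evaluates `n` before it is passed to `k` -/
private def seForce {α : Type} (n : ℕ) (k : ℕ → α) : α :=
  Nat.rec (k 0) (fun m _ => k (Nat.succ m)) n

private theorem seForce_eq {α : Type} (n : ℕ) (k : ℕ → α) : seForce n k = k n := by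
  cases n <;> rfl

private structure SeV where
  a : ℕ
  b : ℕ
  c : ℕ
  d : ℕ

private def SeV.f {α : Type} (v : SeV) (k : SeV → α) : α :=
  seForce v.a fun a => seForce v.b fun b => seForce v.c fun c => seForce v.d fun d => k ⟨a, b, c, d⟩

private theorem SeV.f_eq {α : Type} (v : SeV) (k : SeV → α) : v.f k = k v := by
  simp only [SeV.f, seForce_eq]

private structure SeM where
  r : SeV
  s : SeV
  t : SeV
  u : SeV

private def SeM.f {α : Type} (A : SeM) (k : SeM → α) : α :=
  A.r.f fun r => A.s.f fun s => A.t.f fun t => A.u.f fun u => k ⟨r, s, t, u⟩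

private theorem SeM.f_eq {α : Type} (A : SeM) (k : SeM → α) : A.f k = k A := by
  simp only [SeM.f, SeV.f_eq]

private def seLc (v : SeV) (B : SeM) : SeV :=
  ⟨v.a * B.r.a + v.b * B.s.a + v.c * B.t.a + v.d * B.u.a,
   v.a * B.r.b + v.b * B.s.b + v.c * B.t.b + v.d * B.u.b,
   v.a * B.r.c + v.b * B.s.c + v.c * B.t.c + v.d * B.u.c,
   v.a * B.r.d + v.b * B.s.d + v.c * B.t.d + v.d * B.u.d⟩

private def seMul (A B : SeM) : SeM := ⟨seLc A.r B, seLc A.s B, seLc A.t B, seLc A.u B⟩

private def seOne : SeM := ⟨⟨1, 0, 0, 0⟩, ⟨0, 1, 0, 0⟩, ⟨0, 0, 1, 0⟩, ⟨0, 0, 0, 1⟩⟩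

private def seW : SeM := ⟨⟨1, 400, 0, 0⟩, ⟨1, 0, 3, 0⟩, ⟨0, 1, 0, 800⟩, ⟨0, 0, 1, 0⟩⟩

private def seBit (b : Bool) (A : SeM) : SeM := bif b then seMul seW A else A

private def sePw : List Bool → SeM
  | [] => seOne
  | b :: l => seBit b (seMul (sePw l) (sePw l))

private def sePwc {α : Type} : List Bool → (SeM → α) → α
  | [], k => k seOne
  | b :: l, k => sePwc l fun A => (seMul A A).f fun B => (seBit b B).f k

private theorem sePwc_eq {α : Type} (l : List Bool) (k : SeM → α) : sePwc l k = k (sePw l) := by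
  induction l generalizing k with
  | nil => rfl
  | cons b l ih =>
    rw [sePwc, ih, SeM.f_eq, SeM.f_eq, sePw]

private def seVal : List Bool → ℕ
  | [] => 0
  | b :: l => 2 * seVal l + (bif b then 1 else 0)

private def seMat (A : SeM) : Matrix (Fin 4) (Fin 4) ℕ :=
  !![A.r.a, A.r.b, A.r.c, A.r.d; A.s.a, A.s.b, A.s.c, A.s.d;
     A.t.a, A.t.b, A.t.c, A.t.d; A.u.a, A.u.b, A.u.c, A.u.d]

private theorem seMat_mul (A B : SeM) : seMat (seMul A B) = seMat A * seMat B := by
  ext i j
  fin_cases i <;> fin_cases j <;>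
    simp [seMat, seMul, seLc, Matrix.mul_apply, Fin.sum_univ_four]

private theorem seMat_one : seMat seOne = 1 := by
  ext i j
  fin_cases i <;> fin_cases j <;> simp [seMat, seOne]

private theorem seMat_W : seMat seW = (Matrix.of W : Matrix (Fin 4) (Fin 4) ℕ) := by
  ext i j
  fin_cases i <;> fin_cases j <;> simp [seMat, seW, W]

private theorem seMat_pw (l : List Bool) : seMat (sePw l) = (Matrix.of W) ^ seVal l := by
  induction l with
  | nil => rw [sePw, seMat_one, seVal, pow_zero]
  | cons b l ih =>
    cases b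
    · rw [sePw, seBit, cond_false, seMat_mul, ih, ← pow_add]
      congr 1
      simp [seVal]
      omega
    · rw [sePw, seBit, cond_true, seMat_mul, seMat_mul, ih, seMat_W, ← pow_add, ← pow_succ']
      congr 1
      simp [seVal]
      omega

private theorem se_iter (m : ℕ) (x : Fin 4 → ℕ) :
    wv^[m] x = ((Matrix.of W : Matrix (Fin 4) (Fin 4) ℕ) ^ m).mulVec x := by
  induction m with
  | zero => simp
  | succ m ih =>
    rw [Function.iterate_succ_apply', ih, pow_succ', ← Matrix.mulVec_mulVec]
    rfl

private def seFun (v : SeV) : Fin 4 → ℕ := ![v.a, v.b, v.c, v.d]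

private def seDot (v w : SeV) : ℕ := v.a * w.a + v.b * w.b + v.c * w.c + v.d * w.d

private def seMv (A : SeM) (v : SeV) : SeV :=
  ⟨seDot A.r v, seDot A.s v, seDot A.t v, seDot A.u v⟩

private theorem seMv_eq (A : SeM) (v : SeV) : seFun (seMv A v) = (seMat A).mulVec (seFun v) := by
  ext i
  fin_cases i <;> simp [seFun, seMv, seDot, seMat, Matrix.mulVec, dotProduct, Fin.sum_univ_four]

private def seSt (v : SeV) : SeV := ⟨v.a + 400 * v.b, v.a + 3 * v.c, v.b + 800 * v.d, v.c⟩

private theorem seSt_eq (v : SeV) : seFun (seSt v) = wv (seFun v) := by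
  ext i
  fin_cases i <;> simp [seFun, seSt, wv, W, Fin.sum_univ_four]

private def seStn {α : Type} : ℕ → SeV → (SeV → α) → α
  | 0, v, k => k v
  | n + 1, v, k => (seSt v).f fun w => seStn n w k

private def seStm : ℕ → SeV → SeV
  | 0, v => v
  | n + 1, v => seStm n (seSt v)

private theorem seStn_eq {α : Type} (n : ℕ) (v : SeV) (k : SeV → α) :
    seStn n v k = k (seStm n v) := by
  induction n generalizing v with
  | zero => rfl
  | succ n ih => rw [seStn, SeV.f_eq, ih, seStm]

private theorem seStm_eq (n : ℕ) (v : SeV) : seFun (seStm n v) = wv^[n] (seFun v) := by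
  induction n generalizing v with
  | zero => rfl
  | succ n ih => rw [seStm, ih, seSt_eq, Function.iterate_succ_apply]

private def seIp (v w : SeV) : ℕ :=
  1 * v.a * w.a + 400 * v.b * w.b + 1200 * v.c * w.c + 960000 * v.d * w.d

private theorem seIp_eq (v w : SeV) : seIp v w = ip (seFun v) (seFun w) := by
  simp [seIp, ip, seFun, N, Fin.sum_univ_four]

private def seU : SeV := ⟨1, 1, 1, 1⟩

private def seE : SeV := ⟨802401, 11216, 644004, 801⟩

private theorem seU_eq : seFun seU = fun _ => 1 := by
  ext i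
  fin_cases i <;> rfl

private theorem seE_eq : seFun seE = xv Eg := by
  have e0 : xv Eg 0 = 802401 := by decide
  have e1 : xv Eg 1 = 11216 := by decide
  have e2 : xv Eg 2 = 644004 := by decide
  have e3 : xv Eg 3 = 801 := by decide
  ext i
  fin_cases i
  · exact e0.symm
  · exact e1.symm
  · exact e2.symm
  · exact e3.symm

private theorem se_iter_eq (l : List Bool) (n : ℕ) (v : SeV) :
    wv^[n + seVal l] (seFun v) = seFun (seStm n (seMv (sePw l) v)) := by
  rw [seStm_eq, seMv_eq, seMat_pw, ← se_iter, Function.iterate_add_apply]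

private theorem se_pn (l : List Bool) (n : ℕ) :
    pn (n + seVal l) = seIp seU (seStm n (seMv (sePw l) seU)) := by
  rw [seIp_eq, ← se_iter_eq, pn, seU_eq]

private theorem se_en (l : List Bool) (n : ℕ) :
    en (n + seVal l) = seIp seE (seStm n (seMv (sePw l) seU)) := by
  rw [seIp_eq, ← se_iter_eq, en, seU_eq, seE_eq]

private theorem se_dn (l : List Bool) (n : ℕ) :
    dn (n + seVal l) = seIp seE (seStm n (seMv (sePw l) seE)) := by
  rw [seIp_eq, ← se_iter_eq, dn, seE_eq]

private def seChk (l : List Bool) (n : ℕ) (x y z : SeV) (P : ℕ → ℕ → Bool) : Bool :=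
  sePwc l fun A => (seMv A x).f fun v => seStn n v fun w => (seMv A y).f fun u =>
    P (seIp x w) (seIp z u)

private theorem seChk_eq (l : List Bool) (n : ℕ) (x y z : SeV) (P : ℕ → ℕ → Bool) :
    seChk l n x y z P = P (seIp x (seStm n (seMv (sePw l) x))) (seIp z (seMv (sePw l) y)) := by
  rw [seChk, sePwc_eq, SeV.f_eq, seStn_eq, SeV.f_eq]

private def seL0 : List Bool :=
  [true, false, false, true, false, true, true, false, false, true, false, true, false, true]

private def seL1 : List Bool :=
  [false, false, true, true, false, true, true, false, false, true, false, true, false, true]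

private def seL2 : List Bool :=
  [true, true, false, true, false, true, true, false, false, true, false, true, false, true]

theorem eval_d0 : pn 10863 < dn 10857 := by
  have h : seChk seL0 6 seU seE seE Nat.blt = true := by decide +kernel
  rw [seChk_eq, Nat.blt_eq] at h
  have h1 : seVal seL0 = 10857 := by decide
  have h2 := se_pn seL0 6
  have h3 := se_dn seL0 0
  rw [h1] at h2 h3
  rw [show (10863 : ℕ) = 6 + 10857 from rfl, h2, ← Nat.zero_add 10857, h3]
  exact h

theorem eval_e0 : pn 10863 < en 10860 := by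
  have h : seChk seL1 3 seU seU seE Nat.blt = true := by decide +kernel
  rw [seChk_eq, Nat.blt_eq] at h
  have h1 : seVal seL1 = 10860 := by decide
  have h2 := se_pn seL1 3
  have h3 := se_en seL1 0
  rw [h1] at h2 h3
  rw [show (10863 : ℕ) = 3 + 10860 from rfl, h2, ← Nat.zero_add 10860, h3]
  exact h

theorem eval_d1 : dn 10859 < pn 10865 := by
  have h : seChk seL2 6 seU seE seE (fun a b => Nat.blt b a) = true := by decide +kernel
  rw [seChk_eq, Nat.blt_eq] at h
  have h1 : seVal seL2 = 10859 := by decide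
  have h2 := se_pn seL2 6
  have h3 := se_dn seL2 0
  rw [h1] at h2 h3
  rw [show (10865 : ℕ) = 6 + 10859 from rfl, h2, ← Nat.zero_add 10859, h3]
  exact h

end Pool.Agent.Lib.MP_dbb03c_co.Full
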