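import Pool.Agent.Lib.MP_dbb03c_co.Full.SeqEval

/-!
# The special families against the path
-/

namespace Pool.Agent.Lib.MP_dbb03c_co.Full

open Pool.Agent.Lib.MP_dbb03c_co.Cone RT

/-- a sequence with `s (k + 1) < 806 * s k` for `k ≥ k0` changes its sign at most once -/
theorem sign_change {s : ℕ → ℤ} {k0 : ℕ} (h : ∀ k, k0 ≤ k → s (k + 1) < 806 * s k) {k j : ℕ}
    (hk : k0 ≤ k) (hkj : k ≤ j) (hs : s k ≤ 0) : s j ≤ 0 := by
  induction j, hkj using Nat.le_induction with
  | base => exact hs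
  | succ j hkj ih =>
    have := h j (by omega)
    linarith

theorem dn_ge (k : ℕ) (hk : k ≤ 5428) : pn (7 + 2 * k) ≤ dn (1 + 2 * k) := by
  rcases Nat.lt_or_ge k 11 with h | h
  · exact d_small k (by omega)
  · by_contra hne
    push Not at hne
    have hs : ((dn (1 + 2 * k) : ℤ) - pn (7 + 2 * k)) ≤ 0 := by
      have : (dn (1 + 2 * k) : ℤ) < pn (7 + 2 * k) := by exact_mod_cast hne
      linarith
    have h3 : (dn (1 + 2 * 5428) : ℤ) - pn (7 + 2 * 5428) ≤ 0 :=
      sign_change (s := fun k => (dn (1 + 2 * k) : ℤ) - pn (7 + 2 * k)) (k0 := 11)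
      (fun k hk => by
        have := d_step k hk
        have e1 : 1 + 2 * (k + 1) = 3 + 2 * k := by ring
        have e2 : 7 + 2 * (k + 1) = 9 + 2 * k := by ring
        simp only [e1, e2]
        exact this) h hk hs
    have h1 : (pn 10863 : ℤ) < dn 10857 := Int.ofNat_lt.2 eval_d0
    rw [show 1 + 2 * 5428 = 10857 from rfl, show 7 + 2 * 5428 = 10863 from rfl] at h3
    linarith

theorem en_ge (k : ℕ) (hk : k ≤ 5428) : pn (7 + 2 * k) ≤ en (4 + 2 * k) := by
  rcases Nat.lt_or_ge k 11 with h | h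
  · exact e_small k (by omega)
  · by_contra hne
    push Not at hne
    have hs : ((en (4 + 2 * k) : ℤ) - pn (7 + 2 * k)) ≤ 0 := by
      have : (en (4 + 2 * k) : ℤ) < pn (7 + 2 * k) := by exact_mod_cast hne
      linarith
    have h3 : (en (4 + 2 * 5428) : ℤ) - pn (7 + 2 * 5428) ≤ 0 :=
      sign_change (s := fun k => (en (4 + 2 * k) : ℤ) - pn (7 + 2 * k)) (k0 := 11)
      (fun k hk => by
        have := e_step k hk
        have e1 : 4 + 2 * (k + 1) = 6 + 2 * k := by ring
        have e2 : 7 + 2 * (k + 1) = 9 + 2 * k := by ring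
        simp only [e1, e2]
        exact this) h hk hs
    have h1 : (pn 10863 : ℤ) < en 10860 := Int.ofNat_lt.2 eval_e0
    rw [show 4 + 2 * 5428 = 10860 from rfl, show 7 + 2 * 5428 = 10863 from rfl] at h3
    linarith

theorem dn_lt_even (k : ℕ) (hk : 5429 ≤ k) : dn (1 + 2 * k) < pn (7 + 2 * k) := by
  have hd : ∀ j, 5429 ≤ j → (dn (1 + 2 * j) : ℤ) - pn (7 + 2 * j) < 0 := by
    intro j hj
    induction j, hj using Nat.le_induction with
    | base =>
      have h1 : (dn 10859 : ℤ) < pn 10865 := Int.ofNat_lt.2 eval_d1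
      rw [show 1 + 2 * 5429 = 10859 from rfl, show 7 + 2 * 5429 = 10865 from rfl]
      linarith
    | succ j hj ih =>
      have := d_step j (by omega)
      have e1 : 1 + 2 * (j + 1) = 3 + 2 * j := by ring
      have e2 : 7 + 2 * (j + 1) = 9 + 2 * j := by ring
      rw [e1, e2]
      linarith
  have := hd k hk
  have h2 : (dn (1 + 2 * k) : ℤ) < pn (7 + 2 * k) := by linarith
  exact_mod_cast h2

end Pool.Agent.Lib.MP_dbb03c_co.Full
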