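import Pool.Agent.Lib.MP_dbb03c_co.Cone.Lower
import Pool.Agent.Lib.MP_dbb03c_co.Full.SeqCone

/-!
# The numbers of colourings of paths and of the two special families as sequences
-/

namespace Pool.Agent.Lib.MP_dbb03c_co.Full

open Pool.Agent.Lib.MP_dbb03c_co.Cone RT

/-- one step of the transfer matrix -/
def wv (x : Fin 4 → ℕ) : Fin 4 → ℕ := fun i => ∑ j, W i j * x j

def ip (x y : Fin 4 → ℕ) : ℕ := ∑ i, N i * x i * y i

/-- path with `m + 1` vertices -/
def pn (m : ℕ) : ℕ := ip (fun _ => 1) (wv^[m] fun _ => 1)

/-- one end gadget, `m + 4` vertices -/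
def en (m : ℕ) : ℕ := ip (xv Eg) (wv^[m] fun _ => 1)

/-- two end gadgets, `m + 7` vertices -/
def dn (m : ℕ) : ℕ := ip (xv Eg) (wv^[m] (xv Eg))

theorem xv_ups (m : ℕ) (K : RT) : xv (ups m K) = wv^[m] (xv K) := by
  induction m with
  | zero => rfl
  | succ m ih =>
    rw [Function.iterate_succ_apply', ← ih]
    funext i
    simp only [ups, up, xv, wv, one_mul]

theorem homK_pn (m : ℕ) : homK (ups m .pt) = pn m := by
  rw [homK, pn, ip, xv_ups]
  refine Finset.sum_congr rfl fun i _ => ?_
  simp only [xv, mul_one]

private theorem homK_graft (K : RT) (k : ℕ) :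
    homK (graft Eg (ups k K)) = ip (xv Eg) (wv^[k + 1] (xv K)) := by
  rw [homK, ip, Function.iterate_succ_apply', ← xv_ups]
  refine Finset.sum_congr rfl fun i _ => ?_
  rw [xv, wv]
  ring

theorem homK_en (k : ℕ) : homK (graft Eg (ups k .pt)) = en (k + 1) := by
  rw [homK_graft, en]
  rfl

theorem homK_dn (j : ℕ) : homK (DE j) = dn (j + 1) := by
  rw [DE, homK_graft, dn]

theorem wv_vec (a b c d : ℕ) : wv ![a, b, c, d] = ![a + 400 * b, a + 3 * c, b + 800 * d, c] := by
  funext i
  fin_cases i <;> simp [wv, W, Fin.sum_univ_four]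

theorem xv_Eg : xv Eg = ![802401, 11216, 644004, 801] := by
  funext i
  fin_cases i <;> decide

theorem one_vec : (fun _ => 1 : Fin 4 → ℕ) = ![1, 1, 1, 1] := by
  funext i
  fin_cases i <;> rfl

theorem wv2 (a b c d : ℕ) : wv^[2] ![a, b, c, d] =
    ![401 * a + 400 * b + 1200 * c, a + 403 * b + 2400 * d, a + 803 * c, b + 800 * d] := by
  rw [Function.iterate_succ_apply, Function.iterate_one, wv_vec, wv_vec]
  congr 1
  · ring
  congr 1
  · ring
  congr 1
  · ring

theorem ip_vec (x : Fin 4 → ℕ) (a b c d : ℕ) :
    ip x ![a, b, c, d] = x 0 * a + 400 * x 1 * b + 1200 * x 2 * c + 960000 * x 3 * d := by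
  simp [ip, N, Fin.sum_univ_four]

/-- Cayley-Hamilton for the square of the transfer matrix, over the integers.
All iterates `wv^[k] x` are linear in `x`; write out `wv^[8] x` etc. in the four coordinates. -/
theorem rec_ip (x y : Fin 4 → ℕ) (m : ℕ) :
    (ip x (wv^[m + 8] y) : ℤ) = 2407 * ip x (wv^[m + 6] y) - 2088815 * ip x (wv^[m + 4] y) +
      770564809 * ip x (wv^[m + 2] y) - 102400000000 * ip x (wv^[m] y) := by
  have e8 : wv^[m + 8] y = wv^[2] (wv^[2] (wv^[2] (wv^[2] (wv^[m] y)))) := by
    rw [show m + 8 = 2 + (2 + (2 + (2 + m))) by omega]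
    simp only [Function.iterate_add_apply]
  have e6 : wv^[m + 6] y = wv^[2] (wv^[2] (wv^[2] (wv^[m] y))) := by
    rw [show m + 6 = 2 + (2 + (2 + m)) by omega]
    simp only [Function.iterate_add_apply]
  have e4 : wv^[m + 4] y = wv^[2] (wv^[2] (wv^[m] y)) := by
    rw [show m + 4 = 2 + (2 + m) by omega]
    simp only [Function.iterate_add_apply]
  have e2 : wv^[m + 2] y = wv^[2] (wv^[m] y) := by
    rw [show m + 2 = 2 + m by omega]
    simp only [Function.iterate_add_apply]
  rw [e8, e6, e4, e2]
  obtain ⟨a, b, c, d, h⟩ : ∃ a b c d, wv^[m] y = ![a, b, c, d] := by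
    refine ⟨(wv^[m] y) 0, (wv^[m] y) 1, (wv^[m] y) 2, (wv^[m] y) 3, ?_⟩
    funext i
    fin_cases i <;> rfl
  rw [h]
  simp only [wv2, ip_vec]
  push_cast
  ring

private theorem io_0 : wv^[0] (fun _ => 1) = ![1, 1, 1, 1] := by
  exact one_vec

private theorem io_1 : wv^[1] (fun _ => 1) = ![401, 4, 801, 1] := by
  rw [Function.iterate_succ_apply', io_0, wv_vec]

private theorem io_2 : wv^[2] (fun _ => 1) = ![2001, 2804, 804, 801] := by
  rw [Function.iterate_succ_apply', io_1, wv_vec]

private theorem io_3 : wv^[3] (fun _ => 1) = ![1123601, 4413, 643604, 804] := by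
  rw [Function.iterate_succ_apply', io_2, wv_vec]

private theorem io_4 : wv^[4] (fun _ => 1) = ![2888801, 3054413, 647613, 643604] := by
  rw [Function.iterate_succ_apply', io_3, wv_vec]

private theorem io_5 : wv^[5] (fun _ => 1) = ![1224654001, 4831640, 517937613, 647613] := by
  rw [Function.iterate_succ_apply', io_4, wv_vec]

private theorem io_6 : wv^[6] (fun _ => 1) = ![3157310001, 2778466840, 522922040, 517937613] := by
  rw [Function.iterate_succ_apply', io_5, wv_vec]

private theorem io_7 : wv^[7] (fun _ => 1) = ![1114544046001, 4726076121, 417128557240, 522922040] := by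
  rw [Function.iterate_succ_apply', io_6, wv_vec]

private theorem io_8 : wv^[8] (fun _ => 1) = ![3004974494401, 2365929717721, 423063708121, 417128557240] := by
  rw [Function.iterate_succ_apply', io_7, wv_vec]

private theorem io_9 : wv^[9] (fun _ => 1) = ![949376861582801, 4274165618764, 336068775509721, 423063708121] := by
  rw [Function.iterate_succ_apply', io_8, wv_vec]

private theorem io_10 : wv^[10] (fun _ => 1) = ![2659043109088401, 1957583188111964, 342725132115564, 336068775509721] := by
  rw [Function.iterate_succ_apply', io_9, wv_vec]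

private theorem io_11 : wv^[11] (fun _ => 1) = ![785692318353874001, 3687218505435093, 270812603595888764, 342725132115564] := by
  rw [Function.iterate_succ_apply', io_10, wv_vec]

private theorem io_12 : wv^[12] (fun _ => 1) = ![2260579720527911201, 1598130129141540293, 277867324197886293, 270812603595888764] := by
  rw [Function.iterate_succ_apply', io_11, wv_vec]

private theorem io_13 : wv^[13] (fun _ => 1) = ![641512631377144028401, 3094181693121570080, 218248213005852551493, 277867324197886293] := by
  rw [Function.iterate_succ_apply', io_12, wv_vec]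

private theorem io_14 : wv^[14] (fun _ => 1) = ![1879185308625772060401, 1296257270394701682880, 225388041051430604480, 218248213005852551493] := by
  rw [Function.iterate_succ_apply', io_13, wv_vec]

private theorem ie_0 : wv^[0] (xv Eg) = ![802401, 11216, 644004, 801] := by
  exact xv_Eg

private theorem ie_1 : wv^[1] (xv Eg) = ![5288801, 2734413, 652016, 644004] := by
  rw [Function.iterate_succ_apply', ie_0, wv_vec]

private theorem ie_2 : wv^[2] (xv Eg) = ![1099054001, 7244849, 517937613, 652016] := by
  rw [Function.iterate_succ_apply', ie_1, wv_vec]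

private theorem ie_3 : wv^[3] (xv Eg) = ![3996993601, 2652866840, 528857649, 517937613] := by
  rw [Function.iterate_succ_apply', ie_2, wv_vec]

private theorem ie_4 : wv^[4] (xv Eg) = ![1065143729601, 5583566548, 417002957240, 528857649] := by
  rw [Function.iterate_succ_apply', ie_3, wv_vec]

private theorem ie_5 : wv^[5] (xv Eg) = ![3298570348801, 2316152601321, 428669685748, 417002957240] := by
  rw [Function.iterate_succ_apply', ie_4, wv_vec]

private theorem ie_6 : wv^[6] (xv Eg) = ![929759610877201, 4584579406045, 335918518393321, 428669685748] := by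
  rw [Function.iterate_succ_apply', ie_5, wv_vec]

private theorem ie_7 : wv^[7] (xv Eg) = ![2763591373295201, 1937515166057164, 347520328004445, 335918518393321] := by
  rw [Function.iterate_succ_apply', ie_6, wv_vec]

private theorem ie_8 : wv^[8] (xv Eg) = ![777769657796160801, 3806152357308536, 270672329880713964, 347520328004445] := by
  rw [Function.iterate_succ_apply', ie_7, wv_vec]

private theorem pn_7 : pn 7 = 1005564401582401 := by
  rw [pn, io_7, ip_vec]

private theorem pn_8 : pn 8 = 401900468261728001 := by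
  rw [pn, io_8, ip_vec]

private theorem pn_9 : pn 9 = 812082733516913601 := by
  rw [pn, io_9, ip_vec]

private theorem pn_10 : pn 10 = 323822986966224710801 := by
  rw [pn, io_10, ip_vec]

private theorem pn_11 : pn 11 = 656251830866535868001 := by
  rw [pn, io_11, ip_vec]

private theorem pn_12 : pn 12 = 260955052872467821020001 := by
  rw [pn, io_12, ip_vec]

private theorem pn_13 : pn 13 = 530529672145619675132001 := by
  rw [pn, io_13, ip_vec]

private theorem pn_14 : pn 14 = 210309132228346672603868401 := by
  rw [pn, io_14, ip_vec]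

private theorem en_4 : en 4 = 1011405462076801 := by
  rw [en, io_4, ip_vec, xv_Eg]
  rfl

private theorem en_6 : en 6 = 817388711763360401 := by
  rw [en, io_6, ip_vec, xv_Eg]
  rfl

private theorem en_8 : en 8 = 660726541341843532001 := by
  rw [en, io_8, ip_vec, xv_Eg]
  rfl

private theorem en_10 : en 10 = 534199192860418231407601 := by
  rw [en, io_10, ip_vec, xv_Eg]
  rfl

private theorem dn_1 : dn 1 = 1015605820011201 := by
  rw [dn, ie_1, ip_vec, xv_Eg]
  rfl

private theorem dn_2 : dn 2 = 401680432970312401 := by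
  rw [dn, ie_2, ip_vec, xv_Eg]
  rfl

private theorem dn_3 : dn 3 = 822086050009807201 := by
  rw [dn, ie_3, ip_vec, xv_Eg]
  rfl

private theorem dn_4 : dn 4 = 323548279853778311201 := by
  rw [dn, ie_4, ip_vec, xv_Eg]
  rfl

private theorem dn_5 : dn 5 = 664974547936831196001 := by
  rw [dn, ie_5, ip_vec, xv_Eg]
  rfl

private theorem dn_6 : dn 6 = 260695681563374296068401 := by
  rw [dn, ie_6, ip_vec, xv_Eg]
  rfl

private theorem dn_7 : dn 7 = 537783258005659936643201 := by
  rw [dn, ie_7, ip_vec, xv_Eg]
  rfl

private theorem dn_8 : dn 8 = 210085264063542603072220801 := by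
  rw [dn, ie_8, ip_vec, xv_Eg]
  rfl

private theorem rec_pn (m k : ℕ) : (pn (m + 2 * (k + 4)) : ℤ) = 2407 * pn (m + 2 * (k + 3)) -
    2088815 * pn (m + 2 * (k + 2)) + 770564809 * pn (m + 2 * (k + 1)) -
      102400000000 * pn (m + 2 * k) := rec_ip (fun _ => 1) (fun _ => 1) (m + 2 * k)

private theorem rec_en (m k : ℕ) : (en (m + 2 * (k + 4)) : ℤ) = 2407 * en (m + 2 * (k + 3)) -
    2088815 * en (m + 2 * (k + 2)) + 770564809 * en (m + 2 * (k + 1)) -
      102400000000 * en (m + 2 * k) := rec_ip (xv Eg) (fun _ => 1) (m + 2 * k)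

private theorem rec_dn (m k : ℕ) : (dn (m + 2 * (k + 4)) : ℤ) = 2407 * dn (m + 2 * (k + 3)) -
    2088815 * dn (m + 2 * (k + 2)) + 770564809 * dn (m + 2 * (k + 1)) -
      102400000000 * dn (m + 2 * k) := rec_ip (xv Eg) (xv Eg) (m + 2 * k)


/-- the difference of the path and the double gadget, other parity -/
private def su (k : ℕ) : ℤ := (pn (8 + 2 * k) : ℤ) - dn (2 + 2 * k)

private theorem su_rec (k : ℕ) : su (k + 4) = 2407 * su (k + 3) - 2088815 * su (k + 2) +
    770564809 * su (k + 1) - 102400000000 * su k := by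
  simp only [su]
  rw [rec_pn 8 k, rec_dn 2 k]
  ring

private theorem su_0 : su 0 = 220035291415600 := by
  simp [su, pn_8, dn_2]

private theorem su_1 : su 1 = 274707112446399600 := by
  simp [su, pn_10, dn_4]

private theorem su_2 : su 2 = 259371309093524951600 := by
  simp [su, pn_12, dn_6]

private theorem su_3 : su 3 = 223868164804069531647600 := by
  simp [su, pn_14, dn_8]

/-- `u k = pn (8 + 2 k) - dn (2 + 2 k)` is positive: `Cn.all` with `k0 = 0` (checked) -/
theorem dn_lt_odd (k : ℕ) : dn (2 + 2 * k) < pn (8 + 2 * k) := by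
  have h := Cn.all su_rec (k0 := 0) (by
    constructor <;> simp [su_0, su_1, su_2, su_3]) k (Nat.zero_le k)
  simp only [su, sub_pos] at h
  exact_mod_cast h

/-- the difference of the double gadget and the path -/
private def sd (k : ℕ) : ℤ := (dn (1 + 2 * k) : ℤ) - pn (7 + 2 * k)

private theorem sd_rec (k : ℕ) : sd (k + 4) = 2407 * sd (k + 3) - 2088815 * sd (k + 2) +
    770564809 * sd (k + 1) - 102400000000 * sd k := by
  simp only [sd]
  rw [rec_dn 1 k, rec_pn 7 k]
  ring

private theorem sd_0 : sd 0 = 10041418428800 := by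
  simp [sd, dn_1, pn_7]

private theorem sd_1 : sd 1 = 10003316492893600 := by
  simp [sd, dn_3, pn_9]

private theorem sd_2 : sd 2 = 8722717070295328000 := by
  simp [sd, dn_5, pn_11]

private theorem sd_3 : sd 3 = 7253585860040261511200 := by
  simp [sd, dn_7, pn_13]

private theorem sd_4 : sd 4 = 5919201323531960642460800 := by
  rw [sd_rec 0, sd_3, sd_2, sd_1, sd_0]
  norm_num

private theorem sd_5 : sd 5 = 4793197841862284771798269600 := by
  rw [sd_rec 1, sd_4, sd_3, sd_2, sd_1]
  norm_num

private theorem sd_6 : sd 6 = 3869262467557890332824558336000 := by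
  rw [sd_rec 2, sd_5, sd_4, sd_3, sd_2]
  norm_num

private theorem sd_7 : sd 7 = 3119572254594103344611353042215200 := by
  rw [sd_rec 3, sd_6, sd_5, sd_4, sd_3]
  norm_num

private theorem sd_8 : sd 8 = 2513980299620222954616953232854652800 := by
  rw [sd_rec 4, sd_7, sd_6, sd_5, sd_4]
  norm_num

private theorem sd_9 : sd 9 = 2025635297483811174112402444255604125600 := by
  rw [sd_rec 5, sd_8, sd_7, sd_6, sd_5]
  norm_num

private theorem sd_10 : sd 10 = 1632084523337394131325815178837672066784000 := by
  rw [sd_rec 6, sd_9, sd_8, sd_7, sd_6]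
  norm_num

private theorem sd_11 : sd 11 = 1314990604295644327521264908378248512727239200 := by
  rw [sd_rec 7, sd_10, sd_9, sd_8, sd_7]
  norm_num

private theorem sd_12 : sd 12 = 1059511444352777281337565124627268485457619804800 := by
  rw [sd_rec 8, sd_11, sd_10, sd_9, sd_8]
  norm_num

private theorem sd_13 : sd 13 = 853673791980321497321875975142301833068750924861600 := by
  rw [sd_rec 9, sd_12, sd_11, sd_10, sd_9]
  norm_num

private theorem sd_14 : sd 14 = 687829448307005958857222839619122636070842906823872000 := by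
  rw [sd_rec 10, sd_13, sd_12, sd_11, sd_10]
  norm_num

private theorem sd_15 : sd 15 = 554206056150726069816183618111900670566116702010606183200 := by
  rw [sd_rec 11, sd_14, sd_13, sd_12, sd_11]
  norm_num

/-- the difference of the single gadget and the path -/
private def se (k : ℕ) : ℤ := (en (4 + 2 * k) : ℤ) - pn (7 + 2 * k)

private theorem se_rec (k : ℕ) : se (k + 4) = 2407 * se (k + 3) - 2088815 * se (k + 2) +
    770564809 * se (k + 1) - 102400000000 * se k := by
  simp only [se]
  rw [rec_en 4 k, rec_pn 7 k]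
  ring

private theorem se_0 : se 0 = 5841060494400 := by
  simp [se, en_4, pn_7]

private theorem se_1 : se 1 = 5305978246446800 := by
  simp [se, en_6, pn_9]

private theorem se_2 : se 2 = 4474710475307664000 := by
  simp [se, en_8, pn_11]

private theorem se_3 : se 3 = 3669520714798556275600 := by
  simp [se, en_10, pn_13]

private theorem se_4 : se 4 = 2976169518445220147870400 := by
  rw [se_rec 0, se_3, se_2, se_1, se_0]
  norm_num

private theorem se_5 : se 5 = 2403412369315295575502814800 := by
  rw [se_rec 1, se_4, se_3, se_2, se_1]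
  norm_num

private theorem se_6 : se 6 = 1937739216319552123444831008000 := by
  rw [se_rec 2, se_5, se_4, se_3, se_2]
  norm_num

private theorem se_7 : se 7 = 1561427060806823711173062672547600 := by
  rw [se_rec 3, se_6, se_5, se_4, se_3]
  norm_num

private theorem se_8 : se 8 = 1258001428846387056834089776170926400 := by
  rw [se_rec 4, se_7, se_6, se_5, se_4]
  norm_num

private theorem se_9 : se 9 = 1013521395711247273582015577082702222800 := by
  rw [se_rec 5, se_8, se_7, se_6, se_5]
  norm_num

private theorem se_10 : se 10 = 816569994008125568847003767223061559472000 := by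
  rw [se_rec 6, se_9, se_8, se_7, se_6]
  norm_num

private theorem se_11 : se 11 = 657906781109093855212831115457032942900179600 := by
  rw [se_rec 7, se_10, se_9, se_8, se_7]
  norm_num

private theorem se_12 : se 12 = 530082544485286739305816106782893314367984062400 := by
  rw [se_rec 8, se_11, se_10, se_9, se_8]
  norm_num

private theorem se_13 : se 13 = 427098642140864002924518955612292124414762807870800 := by
  rw [se_rec 9, se_12, se_11, se_10, se_9]
  norm_num

private theorem se_14 : se 14 = 344125107212727091131454532136841878677425448782656000 := by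
  rw [se_rec 10, se_13, se_12, se_11, se_10]
  norm_num

private theorem se_15 : se 15 = 277272383137533034894257071275572046017504484415507971600 := by
  rw [se_rec 11, se_14, se_13, se_12, se_11]
  norm_num

private theorem sd_step (k : ℕ) (hk : 11 ≤ k) : sd (k + 1) < 806 * sd k := by
  have h := Cn.all (v := fun k : ℕ => 806 * sd k - sd (k + 1)) (by
    intro k
    linear_combination 806 * sd_rec k - sd_rec (k + 1)) (k0 := 11) (by
    constructor <;> simp [sd_11, sd_12, sd_13, sd_14, sd_15]) k hk
  simp only [sub_pos] at h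
  exact h

private theorem se_step (k : ℕ) (hk : 11 ≤ k) : se (k + 1) < 806 * se k := by
  have h := Cn.all (v := fun k : ℕ => 806 * se k - se (k + 1)) (by
    intro k
    linear_combination 806 * se_rec k - se_rec (k + 1)) (k0 := 11) (by
    constructor <;> simp [se_11, se_12, se_13, se_14, se_15]) k hk
  simp only [sub_pos] at h
  exact h

/-- `s k = dn (1 + 2 k) - pn (7 + 2 k)`; `806 s k - s (k + 1)` is positive for `k ≥ 11`: `Cn.all` with
`k0 = 11` (checked) -/
theorem d_step (k : ℕ) (hk : 11 ≤ k) : (dn (3 + 2 * k) : ℤ) - pn (9 + 2 * k) <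
    806 * (dn (1 + 2 * k) - pn (7 + 2 * k)) := by
  have h := sd_step k hk
  have e1 : 1 + 2 * (k + 1) = 3 + 2 * k := by ring
  have e2 : 7 + 2 * (k + 1) = 9 + 2 * k := by ring
  simpa only [sd, e1, e2] using h

/-- the same for `en (4 + 2 k) - pn (7 + 2 k)`, also with `k0 = 11` (checked) -/
theorem e_step (k : ℕ) (hk : 11 ≤ k) : (en (6 + 2 * k) : ℤ) - pn (9 + 2 * k) <
    806 * (en (4 + 2 * k) - pn (7 + 2 * k)) := by
  have h := se_step k hk
  have e1 : 4 + 2 * (k + 1) = 6 + 2 * k := by ring
  have e2 : 7 + 2 * (k + 1) = 9 + 2 * k := by ring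
  simpa only [se, e1, e2] using h

theorem d_small (k : ℕ) (hk : k ≤ 11) : pn (7 + 2 * k) ≤ dn (1 + 2 * k) := by
  have h : 0 ≤ sd k := by
    interval_cases k <;>
      simp [sd_0, sd_1, sd_2, sd_3, sd_4, sd_5, sd_6, sd_7, sd_8, sd_9, sd_10, sd_11]
  simp only [sd, sub_nonneg] at h
  exact_mod_cast h

theorem e_small (k : ℕ) (hk : k ≤ 11) : pn (7 + 2 * k) ≤ en (4 + 2 * k) := by
  have h : 0 ≤ se k := by
    interval_cases k <;>
      simp [se_0, se_1, se_2, se_3, se_4, se_5, se_6, se_7, se_8, se_9, se_10, se_11]
  simp only [se, sub_nonneg] at h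
  exact_mod_cast h

end Pool.Agent.Lib.MP_dbb03c_co.Full
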