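import Pool.Agent.Lib.MP_dbb03c_co.Full.Cls
import Pool.Agent.Lib.MP_dbb03c_co.Full.Reroot
import Pool.Agent.Lib.MP_dbb03c_co.Full.PathUp
import Pool.Agent.Lib.MP_dbb03c_co.Full.SeqMain
import Pool.Agent.Lib.MP_dbb03c_co.Full.Small

/-!
# The threshold of `H0` for every number of vertices
-/

namespace Pool.Agent.Lib.MP_dbb03c_co.Full

open Pool.Agent.Lib.MP_dbb03c_co.Cone RT SimpleGraph

/-- trees of class `d` -/
theorem class_d_ge (t c : RT) (ht : cl t = .d) (hn : 11 ≤ t.size + c.size) :
    homK (ups (t.size + c.size - 1) .pt) ≤ homK (graft t c) := by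
  have h1 := pair_lower t c ht
  have h2 := path_upper (t.size + c.size - 1) (by omega)
  have h3 : 0 < lam ^ (t.size + c.size - 1) * Zc := mul_pos (pow_pos lam_pos _) Zc_pos
  have e1 : (ups (t.size + c.size - 1) .pt).size - 1 = t.size + c.size - 1 := by
    rw [size_ups, RT.size]
    omega
  have h4 : (homK (ups (t.size + c.size - 1) .pt) : ℝ) ≤ homK (graft t c) := by
    rw [homK_eq, homK_eq (graft t c), e1, RT.size]
    exact mul_le_mul_of_nonneg_left (h2.trans h1) h3.le
  exact_mod_cast h4

theorem dm_E (k : ℕ) : (graft Eg (ups k .pt)).dm = k + 3 := by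
  have h : (ups k .pt).dm = k := by
    induction k with
    | zero => rfl
    | succ k ih =>
      rw [ups, up, RT.dm, ih, ht_ups]
      simp only [RT.ht, RT.dm]
      omega
  rw [RT.dm, h, ht_ups]
  simp only [Eg, RT.ht, RT.dm]
  omega

theorem size_E (k : ℕ) : (graft Eg (ups k .pt)).size = k + 5 := by
  rw [RT.size, size_ups]
  simp only [Eg, RT.size]
  omega

theorem dm_ups (k : ℕ) : (ups k .pt).dm = k := by
  induction k with
  | zero => rfl
  | succ k ih =>
    rw [ups, up, RT.dm, ih, ht_ups]
    simp only [RT.ht, RT.dm]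
    omega

/-- all trees with `n` vertices, `n ≤ 6`, `n = 8`, or `n` even and at most `10864` -/
theorem all_ge (K : RT) (h : K.size ≤ 6 ∨ (K.size % 2 = 0 ∧ K.size ≤ 10864)) :
    homK (ups (K.size - 1) .pt) ≤ homK K := by
  have h1 := one_le_size K
  rcases Nat.lt_or_ge K.size 11 with hs | hs
  · refine small_all K ?_
    have : K.size = 1 ∨ K.size = 2 ∨ K.size = 3 ∨ K.size = 4 ∨ K.size = 5 ∨ K.size = 6 ∨
        K.size = 8 ∨ K.size = 10 := by omega
    simpa using this
  · rcases trichotomy K with hp | ⟨t, c, hu, hd⟩ | ⟨k, hu⟩ | ⟨j, hu⟩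
    · exact hp.h.ge
    · have := class_d_ge t c hd (by have := hu.size; rw [RT.size] at this; omega)
      rw [hu.h, hu.size, RT.size]
      exact this
    · have e := hu.size
      rw [size_E] at e
      obtain ⟨i, hi⟩ : ∃ i, K.size = 8 + 2 * i := ⟨(K.size - 8) / 2, by omega⟩
      have := en_ge i (by omega)
      rw [hu.h, homK_en, homK_pn, show K.size - 1 = 7 + 2 * i by omega,
        show k + 1 = 4 + 2 * i by omega]
      exact this
    · have e := hu.size
      rw [size_DE] at e
      obtain ⟨i, hi⟩ : ∃ i, K.size = 8 + 2 * i := ⟨(K.size - 8) / 2, by omega⟩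
      have := dn_ge i (by omega)
      rw [hu.h, homK_dn, homK_pn, show K.size - 1 = 7 + 2 * i by omega,
        show j + 1 = 1 + 2 * i by omega]
      exact this

/-- trees of diameter at most `n - 4` -/
theorem short_ge (K : RT) (h9 : 9 ≤ K.size) (hd : K.dm + 4 ≤ K.size) :
    homK (ups (K.size - 1) .pt) ≤ homK K := by
  rcases Nat.lt_or_ge K.size 11 with hs | hs
  · have : K.size = 9 ∨ K.size = 10 := by omega
    rcases this with h | h
    · rw [h]
      exact small9 K h (by omega)
    · exact small_all K (by rw [h]; simp)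
  · rcases trichotomy K with hp | ⟨t, c, hu, hd'⟩ | ⟨k, hu⟩ | ⟨j, hu⟩
    · exact hp.h.ge
    · have := class_d_ge t c hd' (by have := hu.size; rw [RT.size] at this; omega)
      rw [hu.h, hu.size, RT.size]
      exact this
    · have e := hu.size
      have e' := hu.dm
      rw [size_E] at e
      rw [dm_E] at e'
      omega
    · have e := hu.size
      have e' := hu.dm
      rw [size_DE] at e
      rw [dm_DE] at e'
      omega

/-- the double gadget -/
theorem DE_lt (j : ℕ) (h : (j + 8) % 2 = 1 ∨ 10866 ≤ j + 8) :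
    homK (DE j) < homK (ups (j + 7) .pt) := by
  rw [homK_dn, homK_pn]
  rcases Nat.even_or_odd' j with ⟨i, hi | hi⟩
  · have := dn_lt_even i (by omega)
    rw [show j + 1 = 1 + 2 * i by omega, show j + 7 = 7 + 2 * i by omega]
    exact this
  · have := dn_lt_odd i
    rw [show j + 1 = 2 + 2 * i by omega, show j + 7 = 8 + 2 * i by omega]
    exact this

/-- The diameter threshold of `H0` for every number of vertices. -/
theorem threshold_all (n : ℕ) (hn : 3 ≤ n) : IsThreshold H0 n
    (if n = 7 then 4 else if n ≤ 6 ∨ (n % 2 = 0 ∧ n ≤ 10864) then n - 1 else n - 4) := by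
  by_cases h7 : n = 7
  · subst h7
    rw [if_pos rfl]
    refine ⟨⟨by omega, by omega, ?_⟩, ?_⟩
    · intro T hT hd
      obtain ⟨K, hs, hdm, hh⟩ := exists_model (by omega) T hT
      rw [hom_path_eq (by omega), hh]
      exact small7 K hs (by omega)
    · rintro d ⟨hd2, hdn, hd⟩
      by_contra hlt
      push Not at hlt
      have h3 := exists_graph (graft Eg (ups 2 .pt))
      rw [size_E] at h3
      obtain ⟨T, hT, hdi, hh⟩ := h3
      have h4 := hd T hT (by rw [hdi, dm_E]; omega)
      rw [hom_path_eq (by omega), hh] at h4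
      have h5 := small7_E
      rw [show 7 - 1 = 6 from rfl] at h4
      omega
  · rw [if_neg h7]
    by_cases hc : n ≤ 6 ∨ (n % 2 = 0 ∧ n ≤ 10864)
    · rw [if_pos hc]
      refine ⟨⟨by omega, le_rfl, ?_⟩, fun d hd => hd.2.1⟩
      intro T hT _
      obtain ⟨K, hs, hdm, hh⟩ := exists_model (by omega) T hT
      rw [hom_path_eq (by omega), hh, ← hs]
      exact all_ge K (by rw [hs]; exact hc)
    · rw [if_neg hc]
      refine ⟨⟨by omega, by omega, ?_⟩, ?_⟩
      · intro T hT hd
        obtain ⟨K, hs, hdm, hh⟩ := exists_model (by omega) T hT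
        rw [hom_path_eq (by omega), hh, ← hs]
        exact short_ge K (by omega) (by omega)
      · rintro d ⟨hd2, hdn, hd⟩
        by_contra hlt
        push Not at hlt
        obtain ⟨m, rfl⟩ : ∃ m, n = m + 8 := ⟨n - 8, by omega⟩
        have h3 := exists_graph (DE m)
        rw [size_DE] at h3
        obtain ⟨T, hT, hdi, hh⟩ := h3
        have h4 := hd T hT (by rw [hdi, dm_DE]; omega)
        rw [hom_path_eq (by omega), hh] at h4
        have h5 := DE_lt m (by omega)
        have h6 : m + 8 - 1 = m + 7 := by omega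
        rw [h6] at h4
        omega

end Pool.Agent.Lib.MP_dbb03c_co.Full
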